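import Mathlib

section

section

/-! # K1a: Goursat's lemma for powers of a nonabelian simple group -/

set_option autoImplicit false
open scoped Pointwise

namespace Pool.Agent.Lib.ThC

variable {ι A : Type} [Group A]

/-- all coordinate projections are onto. -/
def Sdp (D : Subgroup (ι → A)) : Prop := ∀ (i : ι) (a : A), ∃ d ∈ D, d i = a

/-- `i` and `j` are linked: the projection to the coordinates `i, j` is not onto. -/
def Lnk (D : Subgroup (ι → A)) (i j : ι) : Prop := ¬ ∀ a b : A, ∃ d ∈ D, d i = a ∧ d j = b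

/-- the elements of `D` that are `1` on `K` take all values at `i`, or only the value `1`. -/
theorem K1a_dich [IsSimpleGroup A] {D : Subgroup (ι → A)} (hD : Sdp D) (K : Set ι) (i : ι) :
    (∀ a : A, ∃ d ∈ D, (∀ k ∈ K, d k = 1) ∧ d i = a) ∨
      ∀ d ∈ D, (∀ k ∈ K, d k = 1) → d i = 1 := by
  let N : Subgroup A :=
    { carrier := {a | ∃ d ∈ D, (∀ k ∈ K, d k = 1) ∧ d i = a}
      mul_mem' := by
        rintro a b ⟨d, hd, h1, h2⟩ ⟨e, he, h3, h4⟩
        refine ⟨d * e, D.mul_mem hd he, fun k hk => ?_, ?_⟩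
        · rw [Pi.mul_apply, h1 k hk, h3 k hk, one_mul]
        · rw [Pi.mul_apply, h2, h4]
      one_mem' := ⟨1, D.one_mem, fun _ _ => rfl, rfl⟩
      inv_mem' := by
        rintro a ⟨d, hd, h1, h2⟩
        refine ⟨d⁻¹, D.inv_mem hd, fun k hk => ?_, ?_⟩
        · rw [Pi.inv_apply, h1 k hk, inv_one]
        · rw [Pi.inv_apply, h2] }
  have hN : N.Normal := by
    refine ⟨fun a ha c => ?_⟩
    obtain ⟨d, hd, h1, h2⟩ := ha
    obtain ⟨e, he, h3⟩ := hD i c
    refine ⟨e * d * e⁻¹, D.mul_mem (D.mul_mem he hd) (D.inv_mem he), fun k hk => ?_, ?_⟩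
    · rw [Pi.mul_apply, Pi.mul_apply, Pi.inv_apply, h1 k hk, mul_one, mul_inv_cancel]
    · rw [Pi.mul_apply, Pi.mul_apply, Pi.inv_apply, h2, h3]
  rcases hN.eq_bot_or_eq_top with h | h
  · right
    intro d hd h1
    have h2 : d i ∈ N := ⟨d, hd, h1, rfl⟩
    rw [h, Subgroup.mem_bot] at h2
    exact h2
  · left
    intro a
    have h2 : a ∈ N := by rw [h]; exact Subgroup.mem_top a
    exact h2

theorem K1a_symm {D : Subgroup (ι → A)} {i j : ι} (h : Lnk D i j) : Lnk D j i := by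
  intro h1
  refine h fun a b => ?_
  obtain ⟨d, hd, h2, h3⟩ := h1 b a
  exact ⟨d, hd, h3, h2⟩

/-- Two linked coordinates determine each other.  (`N = {d ∈ D | d i = 1}` is normal in `D`, its projection
to the coordinate `j` is normal in `A`, so it is trivial or `A`; if it is `A` then `i, j` are
not linked.  So `d j` is a function of `d i`, a surjective endomorphism of the finite simple group
`A`.) -/
theorem gou_link [Finite A] [IsSimpleGroup A] {D : Subgroup (ι → A)} (hD : Sdp D) {i j : ι}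
    (h : Lnk D i j) : ∃ φ : A ≃* A, ∀ d ∈ D, d j = φ (d i) := by
  have h1 : ∀ d ∈ D, d i = 1 → d j = 1 := by
    rcases K1a_dich hD {i} j with h2 | h2
    · exfalso
      refine h fun a b => ?_
      obtain ⟨d, hd, hda⟩ := hD i a
      obtain ⟨e, he, he1, he2⟩ := h2 ((d j)⁻¹ * b)
      refine ⟨d * e, D.mul_mem hd he, ?_, ?_⟩
      · rw [Pi.mul_apply, hda, he1 i rfl, mul_one]
      · rw [Pi.mul_apply, he2, mul_inv_cancel_left]
    · intro d hd hdi
      exact h2 d hd fun k hk => by rw [Set.mem_singleton_iff.1 hk, hdi]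
  have h2 : ∀ d ∈ D, ∀ e ∈ D, d i = e i → d j = e j := by
    intro d hd e he hde
    have h3 := h1 (d * e⁻¹) (D.mul_mem hd (D.inv_mem he))
      (by rw [Pi.mul_apply, Pi.inv_apply, hde, mul_inv_cancel])
    rw [Pi.mul_apply, Pi.inv_apply] at h3
    exact mul_inv_eq_one.1 h3
  choose s hs1 hs2 using hD i
  let φ : A →* A :=
    { toFun := fun a => s a j
      map_one' := h1 _ (hs1 1) (hs2 1)
      map_mul' := fun a b => by
        rw [← Pi.mul_apply]
        exact h2 _ (hs1 _) _ (D.mul_mem (hs1 a) (hs1 b))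
          (by rw [Pi.mul_apply, hs2, hs2, hs2]) }
  have hφ : ∀ d ∈ D, d j = φ (d i) := fun d hd => h2 d hd _ (hs1 _) (hs2 _).symm
  have hsur : Function.Surjective φ := by
    intro b
    obtain ⟨d, hd, hdb⟩ := hD j b
    exact ⟨d i, by rw [← hφ d hd, hdb]⟩
  exact ⟨MulEquiv.ofBijective φ ⟨Finite.injective_iff_surjective.2 hsur, hsur⟩, hφ⟩

end Pool.Agent.Lib.ThC

end

section

/-! # K1b: Goursat's lemma for powers of a nonabelian simple group -/

set_option autoImplicit false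
open scoped Pointwise

namespace Pool.Agent.Lib.ThC

variable {ι A : Type} [Group A]

/-- if `d i` is determined by the coordinates in `K` then `i` is linked to one of them. -/
theorem K1b_link [IsSimpleGroup A] (hA : ∃ a b : A, a * b ≠ b * a)
    {D : Subgroup (ι → A)} (hD : Sdp D) (i : ι) (K : Finset ι)
    (hK : ∀ d ∈ D, (∀ k ∈ K, d k = 1) → d i = 1) : ∃ j ∈ K, Lnk D i j := by
  classical
  have hnt : ∃ a : A, a ≠ 1 := exists_ne 1
  induction K using Finset.strongInduction with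
  | H K ih =>
    by_cases hp : ∃ K' : Finset ι, K' ⊂ K ∧ ∀ d ∈ D, (∀ k ∈ K', d k = 1) → d i = 1
    · obtain ⟨K', h1, h2⟩ := hp
      obtain ⟨j, hj, hj2⟩ := ih K' h1 h2
      exact ⟨j, h1.1 hj, hj2⟩
    · push Not at hp
      rcases K.eq_empty_or_nonempty with h0 | ⟨j, hj⟩
      · exfalso
        obtain ⟨a, ha⟩ := hnt
        obtain ⟨d, hd, hda⟩ := hD i a
        refine ha ?_
        rw [← hda]
        exact hK d hd fun k hk => by rw [h0] at hk; simp at hk
      · by_cases h1 : ∃ j' ∈ K, j' ≠ j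
        · exfalso
          obtain ⟨j', hj', hne⟩ := h1
          have hall : ∀ l ∈ K, ∀ a : A, ∃ d ∈ D, (∀ k ∈ K.erase l, d k = 1) ∧ d i = a := by
            intro l hl
            rcases K1a_dich hD (K.erase l : Set ι) i with h2 | h2
            · exact fun a => h2 a
            · exfalso
              obtain ⟨d, hd, h3, h4⟩ := hp (K.erase l) (Finset.erase_ssubset hl)
              exact h4 (h2 d hd h3)
          obtain ⟨a, b, hab⟩ := hA
          obtain ⟨d, hd, h2, h3⟩ := hall j hj a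
          obtain ⟨e, he, h4, h5⟩ := hall j' hj' b
          have h6 : (d * e * (e * d)⁻¹) i = 1 := by
            refine hK _ (D.mul_mem (D.mul_mem hd he) (D.inv_mem (D.mul_mem he hd)))
              fun k hk => ?_
            rw [Pi.mul_apply, Pi.mul_apply, Pi.inv_apply, Pi.mul_apply]
            by_cases hkj : k = j
            · rw [h4 k (Finset.mem_erase.2 ⟨by rw [hkj]; exact hne.symm, hk⟩), mul_one,
                one_mul, mul_inv_cancel]
            · rw [h2 k (Finset.mem_erase.2 ⟨hkj, hk⟩), mul_one, one_mul, mul_inv_cancel]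
          rw [Pi.mul_apply, Pi.mul_apply, Pi.inv_apply, Pi.mul_apply, h3, h5,
            mul_inv_eq_one] at h6
          exact hab h6
        · push Not at h1
          refine ⟨j, hj, fun h2 => ?_⟩
          obtain ⟨a, ha⟩ := hnt
          obtain ⟨d, hd, h3, h4⟩ := h2 a 1
          refine ha ?_
          rw [← h3]
          exact hK d hd fun k hk => by rw [h1 k hk, h4]

/-- Projections to pairwise unlinked coordinates are onto.  Induction on the finite set `I`:
`I = I' ∪ {i}`.  `N = {d ∈ D | d = 1 on I'}` has image `1` or `A` at `i`.  If it is `A` we are done.  If it is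
`1`, then `d i = ψ (d|I')` for a surjective homomorphism `ψ : A^{I'} → A`; the images of the coordinate
subgroups are normal in `A` and commute, so, `A` being nonabelian simple, exactly one of them is `A`
and `d i = ψ_j (d j)` for this `j`, so `i, j` are linked. -/
theorem gou_onto [Finite A] [IsSimpleGroup A] (hA : ∃ a b : A, a * b ≠ b * a)
    {D : Subgroup (ι → A)} (hD : Sdp D) (I : Finset ι)
    (hI : ∀ i ∈ I, ∀ j ∈ I, i ≠ j → ¬ Lnk D i j) (v : ι → A) : ∃ d ∈ D, ∀ i ∈ I, d i = v i := by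
  classical
  induction I using Finset.induction_on with
  | empty => exact ⟨1, D.one_mem, fun i hi => by simp at hi⟩
  | insert i I hi ih =>
    obtain ⟨d, hd, h1⟩ := ih fun k hk l hl hkl =>
      hI k (Finset.mem_insert_of_mem hk) l (Finset.mem_insert_of_mem hl) hkl
    rcases K1a_dich hD (I : Set ι) i with h2 | h2
    · obtain ⟨e, he, h3, h4⟩ := h2 ((d i)⁻¹ * v i)
      refine ⟨d * e, D.mul_mem hd he, fun k hk => ?_⟩
      rcases Finset.mem_insert.1 hk with rfl | hk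
      · rw [Pi.mul_apply, h4, mul_inv_cancel_left]
      · rw [Pi.mul_apply, h3 k hk, mul_one, h1 k hk]
    · exfalso
      obtain ⟨j, hj, hj2⟩ := K1b_link hA hD i I h2
      exact hI i (Finset.mem_insert_self i I) j (Finset.mem_insert_of_mem hj)
        (fun e => hi (by rw [e]; exact hj)) hj2

end Pool.Agent.Lib.ThC

end

section

/-! # K1c: Goursat's lemma for powers of a nonabelian simple group -/

set_option autoImplicit false
open scoped Pointwise

namespace Pool.Agent.Lib.ThC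

variable {ι A : Type} [Group A]

/-- a maximal pairwise unlinked subset. -/
theorem K1c_max [Finite ι] (D : Subgroup (ι → A)) (T : Set ι) :
    ∃ I : Finset ι, (∀ i ∈ I, i ∈ T) ∧ (∀ i ∈ I, ∀ j ∈ I, i ≠ j → ¬ Lnk D i j) ∧
      ∀ j ∈ T, j ∈ I ∨ ∃ i ∈ I, Lnk D i j := by
  classical
  have := Fintype.ofFinite ι
  let F : Finset (Finset ι) := (Finset.univ : Finset (Finset ι)).filter
    (fun I => (∀ i ∈ I, i ∈ T) ∧ ∀ i ∈ I, ∀ j ∈ I, i ≠ j → ¬ Lnk D i j)
  have hF : F.Nonempty := ⟨∅, by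
    rw [Finset.mem_filter]
    exact ⟨Finset.mem_univ _, fun i hi => by simp at hi, fun i hi => by simp at hi⟩⟩
  obtain ⟨I, hI, hmax⟩ := Finset.exists_max_image F Finset.card hF
  obtain ⟨-, hI1, hI2⟩ := Finset.mem_filter.1 hI
  refine ⟨I, hI1, hI2, fun j hj => ?_⟩
  by_contra hcon
  push Not at hcon
  obtain ⟨hjI, hl⟩ := hcon
  have h1 : insert j I ∈ F := by
    rw [Finset.mem_filter]
    refine ⟨Finset.mem_univ _, fun i hi => ?_, fun i hi k hk hik => ?_⟩
    · rcases Finset.mem_insert.1 hi with rfl | hi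
      · exact hj
      · exact hI1 i hi
    · rcases Finset.mem_insert.1 hi with hi' | hi'
      · rcases Finset.mem_insert.1 hk with hk' | hk'
        · exact (hik (hi'.trans hk'.symm)).elim
        · rw [hi']
          exact fun h => hl k hk' (K1a_symm h)
      · rcases Finset.mem_insert.1 hk with hk' | hk'
        · rw [hk']
          exact hl i hi'
        · exact hI2 i hi' k hk' hik
  have h2 := hmax _ h1
  rw [Finset.card_insert_of_notMem hjI] at h2
  omega

/-- The same with the value one prescribed on a set `J` whose elements are not linked to those of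
`I`. (Take a maximal pairwise unlinked `J' ⊆ J`; other elements of `J` are linked to some element of
`J'`, use `gou_link`.) -/
theorem gou_onto' [Finite ι] [Finite A] [IsSimpleGroup A] (hA : ∃ a b : A, a * b ≠ b * a)
    {D : Subgroup (ι → A)} (hD : Sdp D) (I J : Set ι)
    (hI : ∀ i ∈ I, ∀ j ∈ I, i ≠ j → ¬ Lnk D i j) (hIJ : ∀ i ∈ I, ∀ j ∈ J, ¬ Lnk D i j)
    (v : ι → A) : ∃ d ∈ D, (∀ j ∈ J, d j = 1) ∧ ∀ i ∈ I, d i = v i := by
  classical
  have := Fintype.ofFinite ι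
  have hself : ∀ i, Lnk D i i := by
    intro i h
    obtain ⟨a, b, hab⟩ := hA
    obtain ⟨d, -, h1, h2⟩ := h a b
    exact hab (by rw [← h1, ← h2])
  have hdis : ∀ i ∈ I, i ∉ J := fun i hi hj => hIJ i hi i hj (hself i)
  obtain ⟨J', hJ1, hJ2, hJ3⟩ := K1c_max D J
  let w : ι → A := fun i => if i ∈ J then 1 else v i
  obtain ⟨d, hd, hdw⟩ := gou_onto hA hD (I.toFinset ∪ J')
    (by
      intro i hi k hk hik
      rcases Finset.mem_union.1 hi with hi | hi
      · rcases Finset.mem_union.1 hk with hk | hk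
        · exact hI i (Set.mem_toFinset.1 hi) k (Set.mem_toFinset.1 hk) hik
        · exact hIJ i (Set.mem_toFinset.1 hi) k (hJ1 k hk)
      · rcases Finset.mem_union.1 hk with hk | hk
        · exact fun h => hIJ k (Set.mem_toFinset.1 hk) i (hJ1 i hi) (K1a_symm h)
        · exact hJ2 i hi k hk hik) w
  refine ⟨d, hd, fun j hj => ?_, fun i hi => ?_⟩
  · rcases hJ3 j hj with h1 | ⟨i, hi, hl⟩
    · rw [hdw j (Finset.mem_union_right _ h1)]
      exact if_pos hj
    · obtain ⟨φ, hφ⟩ := gou_link hD hl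
      rw [hφ d hd, hdw i (Finset.mem_union_right _ hi)]
      have h2 : w i = 1 := if_pos (hJ1 i hi)
      rw [h2, map_one]
  · rw [hdw i (Finset.mem_union_left _ (Set.mem_toFinset.2 hi))]
    exact if_neg (hdis i hi)

/-- `D` is determined by its projections to pairs of coordinates. (Take a maximal
pairwise unlinked set `I`, `d ∈ D` with `d = v` on `I` (`gou_onto`); every other coordinate is linked to one
in `I`, `gou_link`.) -/
theorem gou_struct [Finite ι] [Finite A] [IsSimpleGroup A] (hA : ∃ a b : A, a * b ≠ b * a)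
    {D : Subgroup (ι → A)} (hD : Sdp D) (v : ι → A)
    (hv : ∀ i j, ∃ d ∈ D, d i = v i ∧ d j = v j) : v ∈ D := by
  obtain ⟨I, -, hI2, hI3⟩ := K1c_max D Set.univ
  obtain ⟨d, hd, hdv⟩ := gou_onto hA hD I hI2 v
  have h1 : d = v := by
    funext j
    rcases hI3 j (Set.mem_univ j) with h1 | ⟨i, hi, hl⟩
    · exact hdv j h1
    · obtain ⟨φ, hφ⟩ := gou_link hD hl
      obtain ⟨e, he, h2, h3⟩ := hv i j
      rw [hφ d hd, hdv i hi, ← h3, hφ e he, h2]
  rw [← h1]
  exact hd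

theorem gou_pairs [Finite ι] [Finite A] [IsSimpleGroup A] (hA : ∃ a b : A, a * b ≠ b * a)
    {D D' : Subgroup (ι → A)} (hD : Sdp D) (hD' : Sdp D')
    (h : ∀ (i j : ι) (a b : A), (∃ d ∈ D, d i = a ∧ d j = b) ↔ ∃ d ∈ D', d i = a ∧ d j = b) :
    D = D' := by
  ext v
  constructor
  · intro hv
    exact gou_struct hA hD' v fun i j => (h i j _ _).1 ⟨v, hv, rfl, rfl⟩
  · intro hv
    exact gou_struct hA hD v fun i j => (h i j _ _).2 ⟨v, hv, rfl, rfl⟩

end Pool.Agent.Lib.ThC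

end

section

/-! # K1d: Goursat's lemma for powers of a nonabelian simple group -/

set_option autoImplicit false
open scoped Pointwise

namespace Pool.Agent.Lib.ThC

variable {ι A : Type} [Group A]

/-- a nonabelian simple group has trivial centre. -/
theorem K1d_center [IsSimpleGroup A] (hA : ∃ a b : A, a * b ≠ b * a) {z : A}
    (hz : ∀ c : A, z * c = c * z) : z = 1 := by
  have h1 : z ∈ Subgroup.center A := Subgroup.mem_center_iff.2 fun c => (hz c).symm
  have hn : (Subgroup.center A).Normal := inferInstance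
  rcases hn.eq_bot_or_eq_top with h | h
  · rw [h, Subgroup.mem_bot] at h1
    exact h1
  · exfalso
    obtain ⟨a, b, hab⟩ := hA
    have h2 : b ∈ Subgroup.center A := by rw [h]; exact Subgroup.mem_top b
    exact hab (Subgroup.mem_center_iff.1 h2 a)

/-- the normaliser of `D` is `D`: for linked `i, j` with `d j = φ (d i)`, if `θ` normalises `D` then
`θ j⁻¹ φ(θ i)` is central. -/
theorem gou_norm [Finite ι] [Finite A] [IsSimpleGroup A] (hA : ∃ a b : A, a * b ≠ b * a)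
    {D : Subgroup (ι → A)} (hD : Sdp D) (θ : ι → A) (h : ∀ d ∈ D, θ * d * θ⁻¹ ∈ D) :
    θ ∈ D := by
  refine gou_struct hA hD θ fun i j => ?_
  by_cases hl : Lnk D i j
  · obtain ⟨φ, hφ⟩ := gou_link hD hl
    obtain ⟨e, he, h1⟩ := hD i (θ i)
    refine ⟨e, he, h1, ?_⟩
    rw [hφ e he, h1]
    have h2 : (θ j)⁻¹ * φ (θ i) = 1 := by
      refine K1d_center hA fun c => ?_
      obtain ⟨d, hd, hdc⟩ := hD j c
      have h3 := hφ _ (h d hd)
      rw [Pi.mul_apply, Pi.mul_apply, Pi.inv_apply, Pi.mul_apply, Pi.mul_apply, Pi.inv_apply,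
        map_mul, map_mul, map_inv, ← hφ d hd, hdc] at h3
      have h4 : θ j * c = φ (θ i) * c * (φ (θ i))⁻¹ * θ j := by
        rw [← h3, inv_mul_cancel_right]
      rw [mul_assoc, ← mul_left_cancel_iff (a := θ j), mul_inv_cancel_left, ← mul_assoc, h4]
      group
    exact (inv_mul_eq_one.1 h2).symm
  · have h1 : ∀ a b : A, ∃ d ∈ D, d i = a ∧ d j = b := by
      by_contra hc
      exact hl hc
    exact h1 _ _

end Pool.Agent.Lib.ThC

end

section

/-! # K1e: Goursat's lemma for powers of a nonabelian simple group -/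

set_option autoImplicit false
open scoped Pointwise

namespace Pool.Agent.Lib.ThC

variable {ι A : Type} [Group A]

/-- Normal subgroups.  Let `I` be maximal pairwise unlinked; for `r ∈ I` and `a ∈ A` let `e_r(a) ∈ D` be the
element with `e_r(a) r = a` and `1` at the other members of `I`.  If `u r ≠ 1` for some `u ∈ U` then `r` is not
linked to `J`, `e_r(b)` is `1` on `J`, `[e_r(b), u] = e_r([b, u r]) ∈ U`; so
`{a | e_r(a) ∈ U}` is a nontrivial normal subgroup of `A`, hence everything.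
`v` is the product of the `e_r(v r)`, `v r ≠ 1`. -/
theorem gou_normal [Finite ι] [Finite A] [IsSimpleGroup A] (hA : ∃ a b : A, a * b ≠ b * a)
    {D : Subgroup (ι → A)} (hD : Sdp D) (J : Set ι) (U : Subgroup (ι → A)) (hU : U ≤ D)
    (hUJ : ∀ u ∈ U, ∀ j ∈ J, u j = 1)
    (hn : ∀ d ∈ D, (∀ j ∈ J, d j = 1) → ∀ u ∈ U, d * u * d⁻¹ ∈ U)
    {v : ι → A} (hv : v ∈ D) (hvJ : ∀ j ∈ J, v j = 1)
    (hvU : ∀ i, (∀ u ∈ U, u i = 1) → v i = 1) : v ∈ U := by
  classical
  obtain ⟨I, hI1, hI2, hI3⟩ := K1c_max D {r | ∃ u ∈ U, u r ≠ 1}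
  have hIJ : ∀ i ∈ I, ∀ j ∈ J, ¬ Lnk D i j := by
    intro i hi j hj hl
    obtain ⟨u, hu, hui⟩ := hI1 i hi
    obtain ⟨φ, hφ⟩ := gou_link hD hl
    have h1 := hφ u (hU hu)
    rw [hUJ u hu j hj] at h1
    have h2 : φ (u i) = φ 1 := by rw [← h1, map_one]
    exact hui (φ.injective h2)
  -- the elements `e_r(a)`
  have he : ∀ (r : ι) (a : A), ∃ e ∈ D, (∀ j ∈ J, e j = 1) ∧
      ∀ i ∈ I, e i = if i = r then a else 1 := fun r a =>
    gou_onto' hA hD (I : Set ι) J (fun i hi k hk => hI2 i hi k hk)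
      (fun i hi => hIJ i hi) (fun i => if i = r then a else 1)
  -- each coordinate in `I` separately
  have hone : ∀ r ∈ I, ∀ a : A, ∃ u ∈ U, u r = a ∧ ∀ i ∈ I, i ≠ r → u i = 1 := by
    intro r hr
    let M : Subgroup A :=
      { carrier := {a | ∃ u ∈ U, u r = a ∧ ∀ i ∈ I, i ≠ r → u i = 1}
        mul_mem' := by
          rintro a b ⟨u, hu, h1, h2⟩ ⟨w, hw, h3, h4⟩
          refine ⟨u * w, U.mul_mem hu hw, ?_, fun i hi hir => ?_⟩
          · rw [Pi.mul_apply, h1, h3]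
          · rw [Pi.mul_apply, h2 i hi hir, h4 i hi hir, one_mul]
        one_mem' := ⟨1, U.one_mem, rfl, fun _ _ _ => rfl⟩
        inv_mem' := by
          rintro a ⟨u, hu, h1, h2⟩
          refine ⟨u⁻¹, U.inv_mem hu, ?_, fun i hi hir => ?_⟩
          · rw [Pi.inv_apply, h1]
          · rw [Pi.inv_apply, h2 i hi hir, inv_one] }
    have hM : M.Normal := by
      refine ⟨fun a ha c => ?_⟩
      obtain ⟨u, hu, h1, h2⟩ := ha
      obtain ⟨e, heD, heJ, heI⟩ := he r c
      refine ⟨e * u * e⁻¹, hn e heD heJ u hu, ?_, fun i hi hir => ?_⟩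
      · rw [Pi.mul_apply, Pi.mul_apply, Pi.inv_apply, heI r hr, if_pos rfl, h1]
      · rw [Pi.mul_apply, Pi.mul_apply, Pi.inv_apply, h2 i hi hir, mul_one, mul_inv_cancel]
    rcases hM.eq_bot_or_eq_top with h | h
    · exfalso
      obtain ⟨u, hu, hur⟩ := hI1 r hr
      refine hur (K1d_center hA fun c => ?_)
      obtain ⟨e, heD, heJ, heI⟩ := he r c
      have h1 : (e * u * e⁻¹ * u⁻¹) r ∈ M := by
        refine ⟨e * u * e⁻¹ * u⁻¹, U.mul_mem (hn e heD heJ u hu) (U.inv_mem hu), rfl,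
          fun i hi hir => ?_⟩
        rw [Pi.mul_apply, Pi.mul_apply, Pi.mul_apply, Pi.inv_apply, Pi.inv_apply, heI i hi,
          if_neg hir, inv_one, mul_one, one_mul, mul_inv_cancel]
      rw [h, Subgroup.mem_bot, Pi.mul_apply, Pi.mul_apply, Pi.mul_apply, Pi.inv_apply,
        Pi.inv_apply, heI r hr, if_pos rfl, mul_inv_eq_one, mul_inv_eq_iff_eq_mul] at h1
      exact h1.symm
    · intro a
      have h2 : a ∈ M := by rw [h]; exact Subgroup.mem_top a
      exact h2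
  -- all coordinates of `I`
  have hall : ∀ K : Finset ι, K ⊆ I → ∃ u ∈ U, (∀ i ∈ K, u i = v i) ∧
      ∀ i ∈ I, i ∉ K → u i = 1 := by
    intro K
    induction K using Finset.induction_on with
    | empty => exact fun _ => ⟨1, U.one_mem, fun i hi => by simp at hi, fun _ _ _ => rfl⟩
    | insert r K hr ih =>
      intro hK
      obtain ⟨u, hu, h1, h2⟩ := ih fun z hz => hK (Finset.mem_insert_of_mem hz)
      have hrI : r ∈ I := hK (Finset.mem_insert_self r K)
      obtain ⟨w, hw, h3, h4⟩ := hone r hrI (v r)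
      refine ⟨u * w, U.mul_mem hu hw, fun i hi => ?_, fun i hi hiK => ?_⟩
      · rcases Finset.mem_insert.1 hi with rfl | hi
        · rw [Pi.mul_apply, h3, h2 i hrI hr, one_mul]
        · have hir : i ≠ r := fun e => hr (by rw [← e]; exact hi)
          rw [Pi.mul_apply, h4 i (hK (Finset.mem_insert_of_mem hi)) hir, mul_one, h1 i hi]
      · rw [Finset.mem_insert, not_or] at hiK
        rw [Pi.mul_apply, h2 i hi hiK.2, h4 i hi hiK.1, one_mul]
  obtain ⟨u, hu, h1, -⟩ := hall I (Finset.Subset.refl I)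
  have h2 : u = v := by
    funext j
    by_cases hj : ∃ u ∈ U, u j ≠ 1
    · rcases hI3 j hj with h3 | ⟨i, hi, hl⟩
      · exact h1 j h3
      · obtain ⟨φ, hφ⟩ := gou_link hD hl
        rw [hφ u (hU hu), h1 i hi, hφ v hv]
    · push Not at hj
      rw [hj u hu, hvU j hj]
  rw [← h2]
  exact hu

end Pool.Agent.Lib.ThC

end
end

section

section

/-!
# Definitions for the permutation group theorem behind Thomas's conjecture (omega-stable case)

`Γ` is a group acting on a countable set `Ω`.  A subgroup is *open* if it contains the pointwise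
stabiliser of a finite subset of `Ω`.  A `Γ`-set `Z` is a *sort* (`Srt`) if all stabilisers are
open and there are finitely many orbits.  A subset of `Z` is *definable* (`Df`) if its stabiliser
is open.
-/

set_option autoImplicit false
open scoped Pointwise

namespace Pool.Agent.Lib.ThC

section Basic

/-- open subgroups: those containing the pointwise stabiliser of a finite subset of `Ω`. -/
def Op (Ω : Type) {Γ : Type} [Group Γ] [MulAction Γ Ω] (U : Subgroup Γ) : Prop :=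
  ∃ A : Finset Ω, ∀ g : Γ, (∀ a ∈ A, g • a = a) → g ∈ U

/-- the stabiliser of a point, with the group explicit. -/
abbrev st (Γ : Type) [Group Γ] {Z : Type} [MulAction Γ Z] (z : Z) : Subgroup Γ :=
  MulAction.stabilizer Γ z

/-- the orbit of `z` under the subgroup `U`, as a set. -/
def orb {Γ : Type} [Group Γ] {Z : Type} [MulAction Γ Z] (U : Subgroup Γ) (z : Z) : Set Z :=
  {y | ∃ g ∈ U, g • z = y}

/-- the conjugate `g U g⁻¹`. -/
def cj {Γ : Type} [Group Γ] (g : Γ) (U : Subgroup Γ) : Subgroup Γ :=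
  U.map (MulAut.conj g).toMonoidHom

/-- finitely many orbits. -/
def FO (Γ : Type) [Group Γ] (Z : Type) [MulAction Γ Z] : Prop :=
  ∃ F : Finset Z, ∀ z : Z, ∃ f ∈ F, ∃ g : Γ, g • f = z

/-- a sort: all stabilisers open and finitely many orbits. -/
structure Srt (Ω Γ : Type) [Group Γ] [MulAction Γ Ω] (Z : Type) [MulAction Γ Z] : Prop where
  sm : ∀ z : Z, Op Ω (st Γ z)
  fo : FO Γ Z

/-- definable subsets of a `Γ`-set: those with open stabiliser. -/
def Df (Ω Γ : Type) [Group Γ] [MulAction Γ Ω] {Z : Type} [MulAction Γ Z] (X : Set Z) : Prop :=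
  Op Ω (st Γ X)

/-- `RkGE Ω Γ r X`: the (Morley) rank of `X` is at least `r`. -/
def RkGE (Ω Γ : Type) [Group Γ] [MulAction Γ Ω] {Z : Type} [MulAction Γ Z] :
    ℕ → Set Z → Prop
  | 0, X => X.Nonempty
  | (r + 1), X => ∃ Y : ℕ → Set Z, (∀ i, Df Ω Γ (Y i)) ∧ (∀ i, Y i ⊆ X) ∧
      (∀ i j, i ≠ j → Disjoint (Y i) (Y j)) ∧ ∀ i, RkGE Ω Γ r (Y i)

/-- the shifted rank: `rk X = 0` iff `X = ∅`, and `r + 1 ≤ rk X ↔ RkGE r X`
(for subsets of sorts, where ranks are bounded). -/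
noncomputable def rk (Ω Γ : Type) [Group Γ] [MulAction Γ Ω] {Z : Type} [MulAction Γ Z]
    (X : Set Z) : ℕ :=
  sSup {n : ℕ | ∃ r, n = r + 1 ∧ RkGE Ω Γ r X}

/-- the standing hypotheses on `Γ` acting on `Ω`: oligomorphic, finite rank,
polynomially many types over finite sets. -/
structure Nice (Ω Γ : Type) [Group Γ] [MulAction Γ Ω] : Prop where
  olig : ∀ n : ℕ, FO Γ (Fin n → Ω)
  fr : ∀ n : ℕ, ∃ r : ℕ, ¬ RkGE Ω Γ r (Set.univ : Set (Fin n → Ω))
  poly : ∃ C d : ℕ, ∀ B : Finset Ω, ∃ F : Finset Ω, F.card ≤ C * (B.card + 1) ^ d ∧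
    ∀ z : Ω, ∃ f ∈ F, ∃ g : Γ, (∀ b ∈ B, g • b = b) ∧ g • f = z

/-- `Γ` is closed in `Sym(Ω)`. -/
def Cpl (Ω Γ : Type) [Group Γ] [MulAction Γ Ω] : Prop :=
  ∀ σ : Equiv.Perm Ω, (∀ A : Finset Ω, ∃ g : Γ, ∀ a ∈ A, g • a = σ a) →
    ∃ g : Γ, ∀ a : Ω, g • a = σ a

end Basic

end Pool.Agent.Lib.ThC

end

section

/-! # A1a: open subgroups, conjugates, orbits -/

set_option autoImplicit false
open scoped Pointwise

namespace Pool.Agent.Lib.ThC

variable {Ω Γ : Type} [Group Γ] [MulAction Γ Ω]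
variable {Z W : Type} [MulAction Γ Z] [MulAction Γ W]

theorem op_mono {U V : Subgroup Γ} (h : Op Ω U) (hUV : U ≤ V) : Op Ω V := by
  obtain ⟨A, hA⟩ := h
  exact ⟨A, fun g hg => hUV (hA g hg)⟩

theorem op_top : Op Ω (⊤ : Subgroup Γ) :=
  ⟨∅, fun g _ => Subgroup.mem_top g⟩

theorem op_inf {U V : Subgroup Γ} (hU : Op Ω U) (hV : Op Ω V) : Op Ω (U ⊓ V) := by
  classical
  obtain ⟨A, hA⟩ := hU
  obtain ⟨B, hB⟩ := hV
  refine ⟨A ∪ B, fun g hg => ⟨hA g fun a ha => hg a ?_, hB g fun a ha => hg a ?_⟩⟩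
  · exact Finset.mem_union_left _ ha
  · exact Finset.mem_union_right _ ha

theorem op_iInf {ι : Type} [Finite ι] {U : ι → Subgroup Γ} (h : ∀ i, Op Ω (U i)) :
    Op Ω (⨅ i, U i) := by
  classical
  have := Fintype.ofFinite ι
  choose A hA using h
  refine ⟨Finset.univ.biUnion A, fun g hg => ?_⟩
  rw [Subgroup.mem_iInf]
  intro i
  exact hA i g fun a ha => hg a (Finset.mem_biUnion.2 ⟨i, Finset.mem_univ i, ha⟩)

theorem mem_cj {g x : Γ} {U : Subgroup Γ} : x ∈ cj g U ↔ g⁻¹ * x * g ∈ U := by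
  unfold cj
  rw [Subgroup.mem_map]
  constructor
  · rintro ⟨y, hy, rfl⟩
    have : g⁻¹ * ((MulAut.conj g).toMonoidHom y) * g = y := by
      simp [MulAut.conj_apply, mul_assoc]
    rw [this]
    exact hy
  · intro h
    refine ⟨g⁻¹ * x * g, h, ?_⟩
    simp [MulAut.conj_apply, mul_assoc]

theorem op_cj (g : Γ) {U : Subgroup Γ} (hU : Op Ω U) : Op Ω (cj g U) := by
  classical
  obtain ⟨A, hA⟩ := hU
  refine ⟨A.image (fun a => g • a), fun x hx => ?_⟩
  rw [mem_cj]
  refine hA _ fun a ha => ?_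
  have := hx (g • a) (Finset.mem_image_of_mem _ ha)
  rw [mul_smul, mul_smul, this, inv_smul_smul]

theorem op_fix (A : Finset Ω) : Op Ω (fixingSubgroup Γ (A : Set Ω)) := by
  refine ⟨A, fun g hg => ?_⟩
  rw [mem_fixingSubgroup_iff]
  intro a ha
  exact hg a (Finset.mem_coe.1 ha)

/-- the pointwise stabiliser of a finite subset of a smooth `Γ`-set is open. -/
theorem op_fixZ (hZ : ∀ z : Z, Op Ω (st Γ z)) (B : Finset Z) :
    Op Ω (fixingSubgroup Γ (B : Set Z)) := by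
  classical
  choose A hA using hZ
  refine ⟨B.biUnion A, fun g hg => ?_⟩
  rw [mem_fixingSubgroup_iff]
  intro z hz
  have := hA z g fun a ha => hg a (Finset.mem_biUnion.2 ⟨z, Finset.mem_coe.1 hz, ha⟩)
  exact this

theorem cj_mono {g : Γ} {U V : Subgroup Γ} (h : U ≤ V) : cj g U ≤ cj g V := by
  intro x hx
  rw [mem_cj] at hx ⊢
  exact h hx

theorem cj_cj (g h : Γ) (U : Subgroup Γ) : cj g (cj h U) = cj (g * h) U := by
  ext x
  simp only [mem_cj, mul_inv_rev, mul_assoc]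

theorem cj_one (U : Subgroup Γ) : cj 1 U = U := by
  ext x
  simp [mem_cj]

theorem cj_inf (g : Γ) (U V : Subgroup Γ) : cj g (U ⊓ V) = cj g U ⊓ cj g V := by
  ext x
  simp only [mem_cj, Subgroup.mem_inf]

theorem cj_eq_of_mem {g : Γ} {U : Subgroup Γ} (h : g ∈ U) : cj g U = U := by
  ext x
  rw [mem_cj]
  constructor
  · intro hx
    have := U.mul_mem (U.mul_mem h hx) (U.inv_mem h)
    simpa [mul_assoc] using this
  · intro hx
    exact U.mul_mem (U.mul_mem (U.inv_mem h) hx) h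

theorem st_smul (g : Γ) (z : Z) : st Γ (g • z) = cj g (st Γ z) := by
  ext x
  rw [mem_cj, MulAction.mem_stabilizer_iff, MulAction.mem_stabilizer_iff, mul_smul, mul_smul,
    inv_smul_eq_iff]

theorem st_prod (z : Z) (w : W) : st Γ (z, w) = st Γ z ⊓ st Γ w := by
  ext x
  simp [MulAction.mem_stabilizer_iff, Prod.smul_mk, Prod.mk.injEq, Subgroup.mem_inf]

theorem st_pi {n : ℕ} (z : Fin n → Z) : st Γ z = ⨅ i, st Γ (z i) := by
  ext x
  simp only [MulAction.mem_stabilizer_iff, Subgroup.mem_iInf]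
  constructor
  · intro h i
    exact congrFun h i
  · intro h
    funext i
    exact h i

theorem st_coset (V : Subgroup Γ) : st Γ ((1 : Γ) : Γ ⧸ V) = V := by
  ext x
  rw [MulAction.mem_stabilizer_iff]
  change ((x * 1 : Γ) : Γ ⧸ V) = ((1 : Γ) : Γ ⧸ V) ↔ x ∈ V
  rw [mul_one, eq_comm, QuotientGroup.eq]
  simp

end Pool.Agent.Lib.ThC

end

section

/-! # A1b: open subgroups, conjugates, orbits -/

set_option autoImplicit false
open scoped Pointwise

namespace Pool.Agent.Lib.ThC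

variable {Ω Γ : Type} [Group Γ] [MulAction Γ Ω]
variable {Z W : Type} [MulAction Γ Z] [MulAction Γ W]

theorem mem_orb_self (U : Subgroup Γ) (z : Z) : z ∈ orb U z := ⟨1, U.one_mem, one_smul Γ z⟩

theorem smul_mem_orb {U : Subgroup Γ} {g : Γ} (hg : g ∈ U) (z : Z) : g • z ∈ orb U z :=
  ⟨g, hg, rfl⟩

theorem orb_mono {U V : Subgroup Γ} (h : U ≤ V) (z : Z) : orb U z ⊆ orb V z := by
  rintro y ⟨g, hg, hy⟩
  exact ⟨g, h hg, hy⟩

theorem orb_eq_of_mem {U : Subgroup Γ} {y z : Z} (h : y ∈ orb U z) : orb U y = orb U z := by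
  obtain ⟨g, hg, rfl⟩ := h
  ext x
  constructor
  · rintro ⟨k, hk, rfl⟩
    exact ⟨k * g, U.mul_mem hk hg, by rw [mul_smul]⟩
  · rintro ⟨k, hk, rfl⟩
    exact ⟨k * g⁻¹, U.mul_mem hk (U.inv_mem hg), by rw [mul_smul, inv_smul_smul]⟩

theorem orb_eq_or_disj (U : Subgroup Γ) (y z : Z) :
    orb U y = orb U z ∨ Disjoint (orb U y) (orb U z) := by
  by_cases h : Disjoint (orb U y) (orb U z)
  · exact Or.inr h
  · left
    rw [Set.not_disjoint_iff] at h
    obtain ⟨x, hx1, hx2⟩ := h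
    rw [← orb_eq_of_mem hx1, orb_eq_of_mem hx2]

theorem smul_orb (g : Γ) (U : Subgroup Γ) (z : Z) : g • orb U z = orb (cj g U) (g • z) := by
  ext x
  rw [Set.mem_smul_set]
  constructor
  · rintro ⟨y, ⟨k, hk, rfl⟩, rfl⟩
    refine ⟨g * k * g⁻¹, ?_, ?_⟩
    · rw [mem_cj]
      have h1 : g⁻¹ * (g * k * g⁻¹) * g = k := by group
      rwa [h1]
    · rw [mul_smul, mul_smul, inv_smul_smul]
  · rintro ⟨k, hk, rfl⟩
    rw [mem_cj] at hk
    refine ⟨(g⁻¹ * k * g) • z, ⟨_, hk, rfl⟩, ?_⟩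
    rw [mul_smul, mul_smul, smul_inv_smul]

theorem smul_orb_of_mem {g : Γ} {U : Subgroup Γ} (hg : g ∈ U) (z : Z) :
    g • orb U z = orb U z := by
  rw [smul_orb, cj_eq_of_mem hg]
  exact orb_eq_of_mem (smul_mem_orb hg z)

/-- a `U`-invariant set that meets the `U`-orbit of `z` contains it. -/
theorem orb_subset {U : Subgroup Γ} {X : Set Z} (hX : ∀ g ∈ U, g • X = X) {z : Z}
    (hz : z ∈ X) : orb U z ⊆ X := by
  rintro y ⟨g, hg, rfl⟩
  rw [← hX g hg]
  exact Set.smul_mem_smul_set hz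

/-- orbit-stabiliser in the form used everywhere. -/
theorem orb_finite_iff (U : Subgroup Γ) (z : Z) :
    (orb U z).Finite ↔ (st Γ z).relIndex U ≠ 0 := by
  have h1 : orb U z = MulAction.orbit U z := by
    ext y
    constructor
    · rintro ⟨g, hg, rfl⟩
      exact ⟨⟨g, hg⟩, rfl⟩
    · rintro ⟨g, rfl⟩
      exact ⟨g, g.2, rfl⟩
  have h2 : (st Γ z).subgroupOf U = MulAction.stabilizer U z := by
    ext g
    rw [Subgroup.mem_subgroupOf, MulAction.mem_stabilizer_iff, MulAction.mem_stabilizer_iff]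
    rfl
  have h3 : (st Γ z).relIndex U = (MulAction.orbit U z).ncard := by
    unfold Subgroup.relIndex
    rw [h2, MulAction.index_stabilizer]
  rw [h3, h1]
  constructor
  · intro h
    exact Set.ncard_ne_zero_of_mem (MulAction.mem_orbit_self z) h
  · intro h
    exact Set.finite_of_ncard_ne_zero h

theorem orb_finite_of_le {U V : Subgroup Γ} (h : V ≤ U) {z : Z} (hz : (orb U z).Finite) :
    (orb V z).Finite := hz.subset (orb_mono h z)

/-- finite orbits pass up to a group in which the smaller one has finite index. -/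
theorem orb_finite_of_fi {U V : Subgroup Γ} (h : V.relIndex U ≠ 0) {z : Z}
    (hz : (orb V z).Finite) : (orb U z).Finite := by
  rw [orb_finite_iff] at hz ⊢
  exact Subgroup.relIndex_ne_zero_trans hz h

/-- orbits of `f z` for an equivariant map. -/
theorem image_orb {f : Z → W} (hf : ∀ (g : Γ) (z : Z), f (g • z) = g • f z)
    (U : Subgroup Γ) (z : Z) : f '' orb U z = orb U (f z) := by
  ext y
  constructor
  · rintro ⟨x, ⟨g, hg, rfl⟩, rfl⟩
    exact ⟨g, hg, (hf g z).symm⟩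
  · rintro ⟨g, hg, rfl⟩
    exact ⟨g • z, ⟨g, hg, rfl⟩, hf g z⟩

end Pool.Agent.Lib.ThC

end

section

/-! # A2a: finiteness of orbits, new sorts from old ones -/

set_option autoImplicit false
open scoped Pointwise

namespace Pool.Agent.Lib.ThC

variable {Ω Γ : Type} [Group Γ] [MulAction Γ Ω]
variable {Z W : Type} [MulAction Γ Z] [MulAction Γ W]

private theorem A2a_one (hN : Nice Ω Γ) {U : Subgroup Γ} (hU : Op Ω U) {z : Z}
    (hz : Op Ω (st Γ z)) : ∃ F : Finset Z, ∀ g : Γ, ∃ f ∈ F, g • z ∈ orb U f := by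
  classical
  obtain ⟨A, hA⟩ := hU
  obtain ⟨B, hB⟩ := hz
  let a : Fin A.card → Ω := fun i => (A.equivFin.symm i : Ω)
  let b : Fin B.card → Ω := fun i => (B.equivFin.symm i : Ω)
  have ha : ∀ x ∈ A, ∃ i, a i = x := fun x hx => ⟨A.equivFin ⟨x, hx⟩, by simp [a]⟩
  have hb : ∀ x ∈ B, ∃ i, b i = x := fun x hx => ⟨B.equivFin ⟨x, hx⟩, by simp [b]⟩
  obtain ⟨T, hT⟩ := hN.olig (A.card + B.card)
  let c : (Fin (A.card + B.card) → Ω) → Γ := fun t =>
    if h : ∃ g γ : Γ, γ • t = Fin.append a (g • b) then h.choose else 1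
  refine ⟨T.image fun t => c t • z, fun g => ?_⟩
  obtain ⟨t, ht, γ, hγ⟩ := hT (Fin.append a (g • b))
  have hex : ∃ g γ : Γ, γ • t = Fin.append a (g • b) := ⟨g, γ, hγ⟩
  have hc : c t = hex.choose := dif_pos hex
  obtain ⟨γ', hγ'⟩ := hex.choose_spec
  rw [← hc] at hγ'
  refine ⟨c t • z, Finset.mem_image_of_mem _ ht, ?_⟩
  -- the element carrying one tuple to the other
  have hh : (γ * γ'⁻¹) • Fin.append a (c t • b) = Fin.append a (g • b) := by
    rw [← hγ', mul_smul, inv_smul_smul, hγ]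
  have h1 : γ * γ'⁻¹ ∈ U := by
    refine hA _ fun x hx => ?_
    obtain ⟨i, rfl⟩ := ha x hx
    have h2 := congrFun hh (Fin.castAdd B.card i)
    rw [Pi.smul_apply, Fin.append_left, Fin.append_left] at h2
    exact h2
  have h3 : g⁻¹ * (γ * γ'⁻¹) * c t ∈ st Γ z := by
    refine hB _ fun x hx => ?_
    obtain ⟨i, rfl⟩ := hb x hx
    have h2 := congrFun hh (Fin.natAdd A.card i)
    rw [Pi.smul_apply, Fin.append_right, Fin.append_right, Pi.smul_apply, Pi.smul_apply] at h2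
    rw [mul_smul, mul_smul, h2, inv_smul_smul]
  refine ⟨γ * γ'⁻¹, h1, ?_⟩
  rw [MulAction.mem_stabilizer_iff, mul_smul, mul_smul, inv_smul_eq_iff] at h3
  exact h3

/-- Key finiteness: an open subgroup has finitely many orbits on a sort.
Proof: `U` contains the stabiliser of a tuple `a : Fin k → Ω`, and the finitely many orbit
representatives `z_i` of `Z` have stabilisers containing those of tuples `b_i : Fin l_i → Ω`.
If `(a, g b_i)` and `(a, g' b_i)` are in the same `Γ`-orbit on `Ω^(k + l_i)` then some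
`h ∈ st a ≤ U` has `h g b_i = g' b_i`, so `h g z_i = g' z_i`. -/
theorem finOrb (hN : Nice Ω Γ) (hZ : Srt Ω Γ Z) {U : Subgroup Γ} (hU : Op Ω U) :
    ∃ F : Finset Z, ∀ z : Z, ∃ f ∈ F, z ∈ orb U f := by
  classical
  obtain ⟨F0, hF0⟩ := hZ.fo
  have h1 := fun z : Z => A2a_one hN hU (hZ.sm z)
  choose G hG using h1
  refine ⟨F0.biUnion G, fun z => ?_⟩
  obtain ⟨z0, hz0, g, rfl⟩ := hF0 z
  obtain ⟨f, hf, h2⟩ := hG z0 g
  exact ⟨f, Finset.mem_biUnion.2 ⟨z0, hz0, hf⟩, h2⟩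

private theorem A2a_fo {f : Z → W} (hf : ∀ (g : Γ) (z : Z), f (g • z) = g • f z)
    (hs : Function.Surjective f) (hZ : FO Γ Z) : FO Γ W := by
  classical
  obtain ⟨F, hF⟩ := hZ
  refine ⟨F.image f, fun w => ?_⟩
  obtain ⟨z, rfl⟩ := hs w
  obtain ⟨y, hy, g, hg⟩ := hF z
  exact ⟨f y, Finset.mem_image_of_mem f hy, g, by rw [← hf, hg]⟩

theorem srt_self (hN : Nice Ω Γ) : Srt Ω Γ Ω := by
  constructor
  · intro z
    refine ⟨{z}, fun g hg => ?_⟩
    rw [MulAction.mem_stabilizer_iff]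
    exact hg z (Finset.mem_singleton_self z)
  · refine A2a_fo (f := fun x : Fin 1 → Ω => x 0) (fun g x => rfl) ?_ (hN.olig 1)
    intro w
    exact ⟨fun _ => w, rfl⟩

/-- use `finOrb` for the open subgroup `st z`. -/
theorem srt_prod (hN : Nice Ω Γ) (hZ : Srt Ω Γ Z) (hW : Srt Ω Γ W) : Srt Ω Γ (Z × W) := by
  classical
  constructor
  · rintro ⟨z, w⟩
    rw [st_prod]
    exact op_inf (hZ.sm z) (hW.sm w)
  · obtain ⟨F, hF⟩ := hZ.fo
    have h1 := fun z : Z => finOrb hN hW (hZ.sm z)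
    choose G hG using h1
    refine ⟨F.biUnion fun z => (G z).image fun w => (z, w), ?_⟩
    rintro ⟨z, w⟩
    obtain ⟨z0, hz0, g, rfl⟩ := hF z
    obtain ⟨f, hf, u, hu, huf⟩ := hG z0 (g⁻¹ • w)
    refine ⟨(z0, f), Finset.mem_biUnion.2 ⟨z0, hz0, Finset.mem_image_of_mem _ hf⟩, g * u, ?_⟩
    rw [MulAction.mem_stabilizer_iff] at hu
    show ((g * u) • z0, (g * u) • f) = (g • z0, w)
    rw [mul_smul, mul_smul, hu, huf, smul_inv_smul]

theorem srt_pi (hN : Nice Ω Γ) (hZ : Srt Ω Γ Z) (n : ℕ) : Srt Ω Γ (Fin n → Z) := by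
  induction n with
  | zero =>
    constructor
    · intro z
      rw [st_pi]
      exact op_iInf fun i => hZ.sm (z i)
    · exact ⟨{Fin.elim0}, fun z => ⟨_, Finset.mem_singleton_self _, 1, Subsingleton.elim _ _⟩⟩
  | succ n ih =>
    constructor
    · intro z
      rw [st_pi]
      exact op_iInf fun i => hZ.sm (z i)
    · refine A2a_fo (f := fun x : Z × (Fin n → Z) => (Fin.cons x.1 x.2 : Fin (n + 1) → Z))
        ?_ ?_ (srt_prod hN hZ ih).fo
      · rintro g ⟨x, y⟩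
        funext i
        refine Fin.cases ?_ (fun j => ?_) i
        · simp
        · simp
      · intro w
        exact ⟨(w 0, fun i => w i.succ), Fin.cons_self_tail w⟩

end Pool.Agent.Lib.ThC

end

section

/-! # A2b: finiteness of orbits, new sorts from old ones -/

set_option autoImplicit false
open scoped Pointwise

namespace Pool.Agent.Lib.ThC

variable {Ω Γ : Type} [Group Γ] [MulAction Γ Ω]
variable {Z W : Type} [MulAction Γ Z] [MulAction Γ W]

theorem srt_sum (hZ : Srt Ω Γ Z) (hW : Srt Ω Γ W) : Srt Ω Γ (Z ⊕ W) := by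
  constructor
  · rintro (z | w)
    · refine op_mono (hZ.sm z) fun g hg => ?_
      rw [MulAction.mem_stabilizer_iff] at hg ⊢
      rw [Sum.smul_inl, hg]
    · refine op_mono (hW.sm w) fun g hg => ?_
      rw [MulAction.mem_stabilizer_iff] at hg ⊢
      rw [Sum.smul_inr, hg]
  · obtain ⟨F, hF⟩ := hZ.fo
    obtain ⟨G, hG⟩ := hW.fo
    refine ⟨F.disjSum G, ?_⟩
    rintro (z | w)
    · obtain ⟨f, hf, g, hg⟩ := hF z
      exact ⟨Sum.inl f, Finset.inl_mem_disjSum.2 hf, g, by rw [Sum.smul_inl, hg]⟩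
    · obtain ⟨f, hf, g, hg⟩ := hG w
      exact ⟨Sum.inr f, Finset.inr_mem_disjSum.2 hf, g, by rw [Sum.smul_inr, hg]⟩

theorem srt_coset {V : Subgroup Γ} (hV : Op Ω V) : Srt Ω Γ (Γ ⧸ V) := by
  have h : ∀ z : Γ ⧸ V, ∃ g : Γ, g • ((1 : Γ) : Γ ⧸ V) = z := by
    intro z
    obtain ⟨g, rfl⟩ := QuotientGroup.mk_surjective z
    refine ⟨g, ?_⟩
    rw [MulAction.Quotient.smul_coe, smul_eq_mul, mul_one]
  constructor
  · intro z
    obtain ⟨g, rfl⟩ := h z
    rw [st_smul, st_coset]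
    exact op_cj g hV
  · exact ⟨{((1 : Γ) : Γ ⧸ V)}, fun z => ⟨_, Finset.mem_singleton_self _, h z⟩⟩

theorem srt_orbit {z : Z} (hz : Op Ω (st Γ z)) : Srt Ω Γ (MulAction.orbit Γ z) := by
  constructor
  · rintro ⟨y, g, rfl⟩
    refine op_mono (op_cj g hz) fun x hx => ?_
    rw [← st_smul, MulAction.mem_stabilizer_iff] at hx
    rw [MulAction.mem_stabilizer_iff]
    exact Subtype.ext hx
  · refine ⟨{⟨z, MulAction.mem_orbit_self z⟩}, ?_⟩
    rintro ⟨y, g, rfl⟩
    exact ⟨_, Finset.mem_singleton_self _, g, rfl⟩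

/-- quotients and subsets: an equivariant image of a sort is a sort. -/
theorem srt_of_surj {f : Z → W} (hf : ∀ (g : Γ) (z : Z), f (g • z) = g • f z)
    (hs : Function.Surjective f) (hZ : Srt Ω Γ Z) : Srt Ω Γ W := by
  classical
  constructor
  · intro w
    obtain ⟨z, rfl⟩ := hs w
    refine op_mono (hZ.sm z) fun g hg => ?_
    rw [MulAction.mem_stabilizer_iff] at hg ⊢
    rw [← hf, hg]
  · obtain ⟨F, hF⟩ := hZ.fo
    refine ⟨F.image f, fun w => ?_⟩
    obtain ⟨z, rfl⟩ := hs w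
    obtain ⟨y, hy, g, hg⟩ := hF z
    exact ⟨f y, Finset.mem_image_of_mem f hy, g, by rw [← hf, hg]⟩

/-- every finitely supported family: only finitely many `U`-invariant subsets. -/
theorem finite_invariant (hN : Nice Ω Γ) (hZ : Srt Ω Γ Z) {U : Subgroup Γ} (hU : Op Ω U) :
    {X : Set Z | ∀ g ∈ U, g • X = X}.Finite := by
  classical
  obtain ⟨F, hF⟩ := finOrb hN hZ hU
  refine Set.Finite.of_injOn (f := fun X : Set Z => F.filter (fun f => f ∈ X))
    (t := (F.powerset : Set (Finset Z))) ?_ ?_ (Finset.finite_toSet _)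
  · intro X _
    rw [Finset.mem_coe, Finset.mem_powerset]
    exact Finset.filter_subset _ _
  · intro X hX Y hY hXY
    have key : ∀ A B : Set Z, (∀ g ∈ U, g • A = A) → (∀ g ∈ U, g • B = B) →
        F.filter (fun f => f ∈ A) = F.filter (fun f => f ∈ B) → A ⊆ B := by
      intro A B hA hB hAB z hz
      obtain ⟨f, hf, hzf⟩ := hF z
      have h1 : f ∈ A := by
        have h2 : f ∈ orb U z := by
          rw [orb_eq_of_mem hzf]
          exact mem_orb_self U f
        exact orb_subset hA hz h2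
      have h3 : f ∈ F.filter (fun f => f ∈ B) := by
        rw [← hAB]
        exact Finset.mem_filter.2 ⟨hf, h1⟩
      exact orb_subset hB (Finset.mem_filter.1 h3).2 hzf
    exact Set.Subset.antisymm (key X Y hX hY hXY) (key Y X hY hX hXY.symm)

/-- only finitely many subgroups between an open subgroup `V` and `U`
(each is the setwise stabiliser of a `V`-invariant set of cosets). -/
theorem finite_between (hN : Nice Ω Γ) {U V : Subgroup Γ} (hV : Op Ω V) :
    {P : Subgroup Γ | V ≤ P ∧ P ≤ U}.Finite := by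
  have h1 := finite_invariant hN (srt_coset hV) hV
  refine Set.Finite.of_injOn (f := fun P : Subgroup Γ => {x : Γ ⧸ V | ∃ g ∈ P, (g : Γ ⧸ V) = x})
    ?_ ?_ h1
  · rintro P ⟨hVP, _⟩
    intro g hg
    ext x
    rw [Set.mem_smul_set_iff_inv_smul_mem]
    constructor
    · rintro ⟨y, hy, hyx⟩
      refine ⟨g * y, P.mul_mem (hVP hg) hy, ?_⟩
      rw [eq_inv_smul_iff, MulAction.Quotient.smul_coe, smul_eq_mul] at hyx
      exact hyx
    · rintro ⟨y, hy, rfl⟩
      refine ⟨g⁻¹ * y, P.mul_mem (P.inv_mem (hVP hg)) hy, ?_⟩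
      rw [MulAction.Quotient.smul_coe, smul_eq_mul]
  · rintro P ⟨hVP, _⟩ Q ⟨hVQ, _⟩ hPQ
    have key : ∀ A B : Subgroup Γ, V ≤ A → V ≤ B →
        {x : Γ ⧸ V | ∃ g ∈ A, (g : Γ ⧸ V) = x} = {x : Γ ⧸ V | ∃ g ∈ B, (g : Γ ⧸ V) = x} →
        A ≤ B := by
      intro A B _ hB hAB g hg
      have h2 : (g : Γ ⧸ V) ∈ {x : Γ ⧸ V | ∃ g ∈ B, (g : Γ ⧸ V) = x} := by
        rw [← hAB]
        exact ⟨g, hg, rfl⟩
      obtain ⟨b, hb, hbg⟩ := h2
      rw [QuotientGroup.eq] at hbg
      have h3 : g = b * (b⁻¹ * g) := by group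
      rw [h3]
      exact B.mul_mem hb (hB hbg)
    exact le_antisymm (key P Q hVP hVQ hPQ) (key Q P hVQ hVP hPQ.symm)

end Pool.Agent.Lib.ThC

end

section

/-! # A3: definable sets -/

set_option autoImplicit false
open scoped Pointwise

namespace Pool.Agent.Lib.ThC

variable {Ω Γ : Type} [Group Γ] [MulAction Γ Ω]
variable {Z W : Type} [MulAction Γ Z] [MulAction Γ W]

theorem df_of_inv {U : Subgroup Γ} (hU : Op Ω U) {X : Set Z} (hX : ∀ g ∈ U, g • X = X) :
    Df Ω Γ X :=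
  op_mono hU fun g hg => MulAction.mem_stabilizer_iff.2 (hX g hg)

theorem df_univ : Df Ω Γ (Set.univ : Set Z) :=
  df_of_inv (op_top (Ω := Ω)) fun _ _ => Set.smul_set_univ

theorem df_empty : Df Ω Γ (∅ : Set Z) :=
  df_of_inv (op_top (Ω := Ω)) fun _ _ => Set.smul_set_empty

theorem df_compl {X : Set Z} (hX : Df Ω Γ X) : Df Ω Γ Xᶜ := by
  refine df_of_inv hX fun g hg => ?_
  rw [Set.smul_set_compl, MulAction.mem_stabilizer_iff.1 hg]

theorem df_inter {X Y : Set Z} (hX : Df Ω Γ X) (hY : Df Ω Γ Y) : Df Ω Γ (X ∩ Y) := by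
  refine df_of_inv (op_inf hX hY) fun g hg => ?_
  rw [Subgroup.mem_inf] at hg
  rw [Set.smul_set_inter, MulAction.mem_stabilizer_iff.1 hg.1, MulAction.mem_stabilizer_iff.1 hg.2]

theorem df_union {X Y : Set Z} (hX : Df Ω Γ X) (hY : Df Ω Γ Y) : Df Ω Γ (X ∪ Y) := by
  refine df_of_inv (op_inf hX hY) fun g hg => ?_
  rw [Subgroup.mem_inf] at hg
  rw [Set.smul_set_union, MulAction.mem_stabilizer_iff.1 hg.1, MulAction.mem_stabilizer_iff.1 hg.2]

theorem df_diff {X Y : Set Z} (hX : Df Ω Γ X) (hY : Df Ω Γ Y) : Df Ω Γ (X \ Y) := by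
  refine df_of_inv (op_inf hX hY) fun g hg => ?_
  rw [Subgroup.mem_inf] at hg
  rw [Set.smul_set_sdiff, MulAction.mem_stabilizer_iff.1 hg.1, MulAction.mem_stabilizer_iff.1 hg.2]

theorem df_iUnion_fin {ι : Type} [Finite ι] {X : ι → Set Z} (hX : ∀ i, Df Ω Γ (X i)) :
    Df Ω Γ (⋃ i, X i) := by
  refine df_of_inv (op_iInf (Ω := Ω) (U := fun i => st Γ (X i)) hX) fun g hg => ?_
  rw [Subgroup.mem_iInf] at hg
  rw [Set.smul_set_iUnion]
  exact Set.iUnion_congr fun i => MulAction.mem_stabilizer_iff.1 (hg i)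

theorem df_iInter_fin {ι : Type} [Finite ι] {X : ι → Set Z} (hX : ∀ i, Df Ω Γ (X i)) :
    Df Ω Γ (⋂ i, X i) := by
  refine df_of_inv (op_iInf (Ω := Ω) (U := fun i => st Γ (X i)) hX) fun g hg => ?_
  rw [Subgroup.mem_iInf] at hg
  rw [Set.smul_set_iInter]
  exact Set.iInter_congr fun i => MulAction.mem_stabilizer_iff.1 (hg i)

theorem df_smul (g : Γ) {X : Set Z} (hX : Df Ω Γ X) : Df Ω Γ (g • X) := by
  unfold Df
  rw [st_smul]
  exact op_cj g hX

theorem df_orb {U : Subgroup Γ} (hU : Op Ω U) (z : Z) : Df Ω Γ (orb U z) :=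
  df_of_inv hU fun _ hg => smul_orb_of_mem hg z

theorem df_singleton {z : Z} (hz : Op Ω (st Γ z)) : Df Ω Γ ({z} : Set Z) := by
  refine df_of_inv hz fun g hg => ?_
  rw [Set.smul_set_singleton, MulAction.mem_stabilizer_iff.1 hg]

theorem df_finite (hZ : ∀ z : Z, Op Ω (st Γ z)) {X : Set Z} (hX : X.Finite) : Df Ω Γ X := by
  refine df_of_inv (op_fixZ hZ hX.toFinset) fun g hg => ?_
  rw [mem_fixingSubgroup_iff] at hg
  have hg' : ∀ x ∈ X, g • x = x := fun x hx => hg x (by simpa using hx)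
  ext y
  rw [Set.mem_smul_set]
  constructor
  · rintro ⟨x, hx, rfl⟩
    rw [hg' x hx]
    exact hx
  · intro hy
    exact ⟨y, hy, hg' y hy⟩

theorem df_preimage {f : Z → W} (hf : ∀ (g : Γ) (z : Z), f (g • z) = g • f z) {X : Set W}
    (hX : Df Ω Γ X) : Df Ω Γ (f ⁻¹' X) := by
  refine df_of_inv hX fun g hg => ?_
  have hg' := MulAction.mem_stabilizer_iff.1 hg
  ext y
  rw [Set.mem_smul_set_iff_inv_smul_mem, Set.mem_preimage, Set.mem_preimage, hf,
    ← Set.mem_smul_set_iff_inv_smul_mem, hg']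

theorem df_image {f : Z → W} (hf : ∀ (g : Γ) (z : Z), f (g • z) = g • f z) {X : Set Z}
    (hX : Df Ω Γ X) : Df Ω Γ (f '' X) := by
  refine df_of_inv hX fun g hg => ?_
  have hg' := MulAction.mem_stabilizer_iff.1 hg
  ext y
  rw [Set.mem_smul_set_iff_inv_smul_mem]
  constructor
  · rintro ⟨x, hx, hxy⟩
    refine ⟨g • x, ?_, ?_⟩
    · rw [← hg']
      exact Set.smul_mem_smul_set hx
    · rw [hf, hxy, smul_inv_smul]
  · rintro ⟨x, hx, rfl⟩
    refine ⟨g⁻¹ • x, ?_, hf _ _⟩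
    rw [← Set.mem_smul_set_iff_inv_smul_mem, hg']
    exact hx

theorem df_fiber {R : Set (Z × W)} (hR : Df Ω Γ R) {w : W} (hw : Op Ω (st Γ w)) :
    Df Ω Γ {z : Z | (z, w) ∈ R} := by
  refine df_of_inv (op_inf hR hw) fun g hg => ?_
  rw [Subgroup.mem_inf] at hg
  have h1 := MulAction.mem_stabilizer_iff.1 hg.1
  have h2 : g⁻¹ • w = w := by
    rw [inv_smul_eq_iff]
    exact (MulAction.mem_stabilizer_iff.1 hg.2).symm
  ext z
  rw [Set.mem_smul_set_iff_inv_smul_mem, Set.mem_ofPred_eq, Set.mem_ofPred_eq]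
  nth_rewrite 1 [← h2]
  rw [← Prod.smul_mk, ← Set.mem_smul_set_iff_inv_smul_mem, h1]

theorem df_fiber' {R : Set (Z × W)} (hR : Df Ω Γ R) {z : Z} (hz : Op Ω (st Γ z)) :
    Df Ω Γ {w : W | (z, w) ∈ R} := by
  refine df_of_inv (op_inf hR hz) fun g hg => ?_
  rw [Subgroup.mem_inf] at hg
  have h1 := MulAction.mem_stabilizer_iff.1 hg.1
  have h2 : g⁻¹ • z = z := by
    rw [inv_smul_eq_iff]
    exact (MulAction.mem_stabilizer_iff.1 hg.2).symm
  ext w
  rw [Set.mem_smul_set_iff_inv_smul_mem, Set.mem_ofPred_eq, Set.mem_ofPred_eq]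
  nth_rewrite 1 [← h2]
  rw [← Prod.smul_mk, ← Set.mem_smul_set_iff_inv_smul_mem, h1]

end Pool.Agent.Lib.ThC

end

section

/-! # A4a: the rank -/

set_option autoImplicit false
open scoped Pointwise

namespace Pool.Agent.Lib.ThC

variable {Ω Γ : Type} [Group Γ] [MulAction Γ Ω]
variable {Z W : Type} [MulAction Γ Z] [MulAction Γ W]

theorem RkGE_mono {r : ℕ} {X Y : Set Z} (h : RkGE Ω Γ r X) (hXY : X ⊆ Y) : RkGE Ω Γ r Y := by
  cases r with
  | zero => exact Set.Nonempty.mono hXY h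
  | succ r =>
    obtain ⟨A, h1, h2, h3, h4⟩ := h
    exact ⟨A, h1, fun i => (h2 i).trans hXY, h3, h4⟩

theorem RkGE_succ {r : ℕ} {X : Set Z} (h : RkGE Ω Γ (r + 1) X) : RkGE Ω Γ r X := by
  obtain ⟨A, h1, h2, h3, h4⟩ := h
  exact RkGE_mono (h4 0) (h2 0)

private theorem A4a_nonempty {r : ℕ} {X : Set Z} (h : RkGE Ω Γ r X) : X.Nonempty := by
  induction r generalizing X with
  | zero => exact h
  | succ r ih => exact ih (RkGE_succ h)

theorem RkGE_smul {r : ℕ} {X : Set Z} (g : Γ) (h : RkGE Ω Γ r X) : RkGE Ω Γ r (g • X) := by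
  induction r generalizing X with
  | zero => exact Set.Nonempty.smul_set h
  | succ r ih =>
    obtain ⟨A, h1, h2, h3, h4⟩ := h
    refine ⟨fun i => g • A i, fun i => df_smul g (h1 i), fun i => Set.smul_set_mono (h2 i), ?_,
      fun i => ih (h4 i)⟩
    intro i j hij
    exact (Set.disjoint_smul_set).2 (h3 i j hij)

/-- by induction on `r`: if the `A_i ⊆ X ∪ Y` are disjoint definable of rank `≥ r` then by
induction each `A_i ∩ X` or `A_i \ X` has rank `≥ r`; one of the two happens infinitely often. -/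
theorem RkGE_union {r : ℕ} {X Y : Set Z} (hX : Df Ω Γ X) (hY : Df Ω Γ Y)
    (h : RkGE Ω Γ r (X ∪ Y)) : RkGE Ω Γ r X ∨ RkGE Ω Γ r Y := by
  induction r generalizing X Y with
  | zero => exact Set.union_nonempty.1 h
  | succ r ih =>
    obtain ⟨A, h1, h2, h3, h4⟩ := h
    have h5 : ∀ i, RkGE Ω Γ r (A i ∩ X) ∨ RkGE Ω Γ r (A i \ X) := by
      intro i
      refine ih (df_inter (h1 i) hX) (df_diff (h1 i) hX) ?_
      rw [Set.inter_union_sdiff]
      exact h4 i
    by_cases hS : {i | RkGE Ω Γ r (A i ∩ X)}.Infinite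
    · left
      refine ⟨fun n => A (hS.natEmbedding _ n) ∩ X, fun n => df_inter (h1 _) hX,
        fun n => Set.inter_subset_right, ?_, fun n => (hS.natEmbedding _ n).2⟩
      intro i j hij
      refine (h3 _ _ ?_).mono Set.inter_subset_left Set.inter_subset_left
      intro h6
      exact hij ((hS.natEmbedding _).injective (Subtype.ext h6))
    · right
      rw [Set.not_infinite] at hS
      have hS' : {i | RkGE Ω Γ r (A i ∩ X)}ᶜ.Infinite := hS.infinite_compl
      have h7 : ∀ n, RkGE Ω Γ r (A (hS'.natEmbedding _ n) \ X) := by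
        intro n
        exact (h5 _).resolve_left (hS'.natEmbedding _ n).2
      refine ⟨fun n => A (hS'.natEmbedding _ n) \ X, fun n => df_diff (h1 _) hX, ?_, ?_, h7⟩
      · intro n x hx
        exact (h2 _ hx.1).resolve_left hx.2
      · intro i j hij
        refine (h3 _ _ ?_).mono Set.sdiff_subset Set.sdiff_subset
        intro h6
        exact hij ((hS'.natEmbedding _).injective (Subtype.ext h6))

private theorem A4a_finset {ι : Type} {r : ℕ} {X : ι → Set Z}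
    (hX : ∀ i, Df Ω Γ (X i)) (s : Finset ι) :
    Df Ω Γ (⋃ i ∈ s, X i) ∧ (RkGE Ω Γ r (⋃ i ∈ s, X i) → ∃ i ∈ s, RkGE Ω Γ r (X i)) := by
  classical
  induction s using Finset.induction_on with
  | empty =>
    refine ⟨by simpa using df_empty (Ω := Ω) (Γ := Γ) (Z := Z), fun h => ?_⟩
    obtain ⟨x, hx⟩ := A4a_nonempty h
    simp at hx
  | insert a s ha ih =>
    rw [Finset.set_biUnion_insert]
    refine ⟨df_union (hX a) ih.1, fun h => ?_⟩
    rcases RkGE_union (hX a) ih.1 h with h1 | h1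
    · exact ⟨a, Finset.mem_insert_self _ _, h1⟩
    · obtain ⟨i, hi, h2⟩ := ih.2 h1
      exact ⟨i, Finset.mem_insert_of_mem hi, h2⟩

theorem RkGE_iUnion_fin {ι : Type} [Finite ι] {r : ℕ} {X : ι → Set Z}
    (hX : ∀ i, Df Ω Γ (X i)) (h : RkGE Ω Γ r (⋃ i, X i)) : ∃ i, RkGE Ω Γ r (X i) := by
  have := Fintype.ofFinite ι
  obtain ⟨i, _, hi⟩ := (A4a_finset (r := r) hX Finset.univ).2 (by simpa using h)
  exact ⟨i, hi⟩

/-- preimages of disjoint definable sets are disjoint definable. -/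
theorem RkGE_preimage {f : Z → W} (hf : ∀ (g : Γ) (z : Z), f (g • z) = g • f z) {r : ℕ}
    {X : Set W} (h : RkGE Ω Γ r X) (hX : X ⊆ Set.range f) : RkGE Ω Γ r (f ⁻¹' X) := by
  induction r generalizing X with
  | zero => exact Set.Nonempty.preimage' h hX
  | succ r ih =>
    obtain ⟨A, h1, h2, h3, h4⟩ := h
    exact ⟨fun i => f ⁻¹' A i, fun i => df_preimage hf (h1 i), fun i => Set.preimage_mono (h2 i),
      fun i j hij => Disjoint.preimage f (h3 i j hij), fun i => ih (h4 i) ((h2 i).trans hX)⟩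

/-- images under injective equivariant maps. -/
theorem RkGE_image {f : Z → W} (hf : ∀ (g : Γ) (z : Z), f (g • z) = g • f z)
    (hi : Function.Injective f) {r : ℕ} {X : Set Z} (h : RkGE Ω Γ r X) :
    RkGE Ω Γ r (f '' X) := by
  induction r generalizing X with
  | zero => exact Set.Nonempty.image f h
  | succ r ih =>
    obtain ⟨A, h1, h2, h3, h4⟩ := h
    exact ⟨fun i => f '' A i, fun i => df_image hf (h1 i), fun i => Set.image_mono (h2 i),
      fun i j hij => (Set.disjoint_image_iff hi).2 (h3 i j hij), fun i => ih (h4 i)⟩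

end Pool.Agent.Lib.ThC

end

section

/-! # A4b: the rank -/

set_option autoImplicit false
open scoped Pointwise

namespace Pool.Agent.Lib.ThC

variable {Ω Γ : Type} [Group Γ] [MulAction Γ Ω]
variable {Z W : Type} [MulAction Γ Z] [MulAction Γ W]

private theorem A4b_anti {r s : ℕ} (hrs : r ≤ s) {X : Set Z} (h : RkGE Ω Γ s X) :
    RkGE Ω Γ r X := by
  induction s, hrs using Nat.le_induction with
  | base => exact h
  | succ s _ ih => exact ih (RkGE_succ h)

private theorem A4b_one (hN : Nice Ω Γ) {z : Z} (hz : Op Ω (st Γ z)) :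
    ∃ r : ℕ, ¬ RkGE Ω Γ r (orb (⊤ : Subgroup Γ) z) := by
  classical
  obtain ⟨B, hB⟩ := hz
  let b : Fin B.card → Ω := fun i => (B.equivFin.symm i : Ω)
  have hb : ∀ x ∈ B, ∃ i, b i = x := fun x hx => ⟨B.equivFin ⟨x, hx⟩, by simp [b]⟩
  have hst : ∀ g : Γ, g • b = b → g • z = z := by
    intro g hg
    have h1 : g ∈ st Γ z := by
      refine hB g fun x hx => ?_
      obtain ⟨i, rfl⟩ := hb x hx
      exact congrFun hg i
    exact MulAction.mem_stabilizer_iff.1 h1
  have hex : ∀ x : MulAction.orbit Γ b, ∃ g : Γ, g • b = (x : Fin B.card → Ω) := fun x => x.2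
  choose c hc using hex
  let f : MulAction.orbit Γ b → Z := fun x => c x • z
  have hkey : ∀ (g : Γ) (x : MulAction.orbit Γ b), g • b = (x : Fin B.card → Ω) →
      f x = g • z := by
    intro g x hg
    have h1 : (g⁻¹ * c x) • b = b := by
      rw [mul_smul, hc x, ← hg, inv_smul_smul]
    have h2 := hst _ h1
    rw [mul_smul, inv_smul_eq_iff] at h2
    exact h2
  have hf : ∀ (g : Γ) (x : MulAction.orbit Γ b), f (g • x) = g • f x := by
    intro g x
    have h1 : (g * c x) • b = ((g • x : MulAction.orbit Γ b) : Fin B.card → Ω) := by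
      rw [mul_smul, hc x, MulAction.orbit.coe_smul]
    rw [hkey _ _ h1, mul_smul]
  obtain ⟨r, hr⟩ := hN.fr B.card
  refine ⟨r, fun h => hr ?_⟩
  have h1 : orb (⊤ : Subgroup Γ) z ⊆ Set.range f := by
    rintro y ⟨g, _, rfl⟩
    exact ⟨⟨g • b, g, rfl⟩, hkey g _ rfl⟩
  have h2 := RkGE_preimage hf h h1
  have h3 := RkGE_image (f := (Subtype.val : MulAction.orbit Γ b → (Fin B.card → Ω)))
    (fun g x => MulAction.orbit.coe_smul) Subtype.val_injective h2
  exact RkGE_mono h3 (Set.subset_univ _)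

/-- ranks are bounded on every sort.  `Z` is the union of finitely many orbits
`Γ z_i`, and for `st z_i ⊇ st b_i`, `b_i : Fin n_i → Ω`, the map `g b_i ↦ g z_i` is an
equivariant surjection from an invariant subset of `Fin n_i → Ω`; use `RkGE_preimage`-like
pull-back and `RkGE_iUnion_fin`. -/
theorem fr_srt (hN : Nice Ω Γ) (hZ : Srt Ω Γ Z) :
    ∃ r : ℕ, ¬ RkGE Ω Γ r (Set.univ : Set Z) := by
  classical
  obtain ⟨F, hF⟩ := hZ.fo
  have h1 := fun z : Z => A4b_one hN (hZ.sm z)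
  choose R hR using h1
  refine ⟨F.sup R, fun h => ?_⟩
  have h2 : (⋃ f : F, orb (⊤ : Subgroup Γ) (f : Z)) = Set.univ := by
    rw [Set.eq_univ_iff_forall]
    intro z
    obtain ⟨f, hf, g, hg⟩ := hF z
    exact Set.mem_iUnion.2 ⟨⟨f, hf⟩, g, Subgroup.mem_top g, hg⟩
  rw [← h2] at h
  obtain ⟨f, hf⟩ := RkGE_iUnion_fin (X := fun f : F => orb (⊤ : Subgroup Γ) (f : Z))
    (fun f => df_orb op_top _) h
  exact hR (f : Z) (A4b_anti (Finset.le_sup f.2) hf)

end Pool.Agent.Lib.ThC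

end

section

/-! # A4c: the rank -/

set_option autoImplicit false
open scoped Pointwise

namespace Pool.Agent.Lib.ThC

variable {Ω Γ : Type} [Group Γ] [MulAction Γ Ω]
variable {Z W : Type} [MulAction Γ Z] [MulAction Γ W]

private theorem A4c_anti {r s : ℕ} (hrs : r ≤ s) {X : Set Z} (h : RkGE Ω Γ s X) :
    RkGE Ω Γ r X := by
  induction s, hrs using Nat.le_induction with
  | base => exact h
  | succ s _ ih => exact ih (RkGE_succ h)

theorem le_rk_iff (hN : Nice Ω Γ) (hZ : Srt Ω Γ Z) {r : ℕ} {X : Set Z} :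
    r + 1 ≤ rk Ω Γ X ↔ RkGE Ω Γ r X := by
  obtain ⟨r0, hr0⟩ := fr_srt hN hZ
  have hbdd : BddAbove {n : ℕ | ∃ r, n = r + 1 ∧ RkGE Ω Γ r X} := by
    refine ⟨r0, ?_⟩
    rintro n ⟨s, rfl, hs⟩
    by_contra hc
    exact hr0 (RkGE_mono (A4c_anti (by omega) hs) (Set.subset_univ _))
  constructor
  · intro h
    have hne : {n : ℕ | ∃ r, n = r + 1 ∧ RkGE Ω Γ r X}.Nonempty := by
      by_contra hc
      rw [Set.not_nonempty_iff_eq_empty] at hc
      unfold rk at h
      rw [hc] at h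
      simp at h
    obtain ⟨s, hs1, hs2⟩ := Nat.sSup_mem hne hbdd
    have h' : r + 1 ≤ sSup {n : ℕ | ∃ r, n = r + 1 ∧ RkGE Ω Γ r X} := h
    rw [hs1] at h'
    exact A4c_anti (by omega) hs2
  · intro h
    exact le_csSup hbdd ⟨r, rfl, h⟩

theorem rk_mono (hN : Nice Ω Γ) (hZ : Srt Ω Γ Z) {X Y : Set Z} (h : X ⊆ Y) :
    rk Ω Γ X ≤ rk Ω Γ Y := by
  rcases Nat.eq_zero_or_pos (rk Ω Γ X) with h0 | h0
  · omega
  · obtain ⟨r, hr⟩ : ∃ r, rk Ω Γ X = r + 1 := ⟨rk Ω Γ X - 1, by omega⟩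
    rw [hr]
    exact (le_rk_iff hN hZ).2 (RkGE_mono ((le_rk_iff hN hZ).1 hr.ge) h)

theorem rk_smul (g : Γ) (X : Set Z) : rk Ω Γ (g • X) = rk Ω Γ X := by
  have h : ∀ r, RkGE Ω Γ r (g • X) ↔ RkGE Ω Γ r X := by
    intro r
    constructor
    · intro h1
      have h2 := RkGE_smul g⁻¹ h1
      rwa [inv_smul_smul] at h2
    · exact RkGE_smul g
  unfold rk
  simp only [h]

theorem rk_eq_zero (hN : Nice Ω Γ) (hZ : Srt Ω Γ Z) {X : Set Z} : rk Ω Γ X = 0 ↔ X = ∅ := by
  have h1 : 0 + 1 ≤ rk Ω Γ X ↔ X.Nonempty := le_rk_iff hN hZ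
  rw [← Set.not_nonempty_iff_eq_empty, ← h1]
  omega

theorem rk_union (hN : Nice Ω Γ) (hZ : Srt Ω Γ Z) {X Y : Set Z} (hX : Df Ω Γ X)
    (hY : Df Ω Γ Y) : rk Ω Γ (X ∪ Y) = max (rk Ω Γ X) (rk Ω Γ Y) := by
  apply le_antisymm
  · rcases Nat.eq_zero_or_pos (rk Ω Γ (X ∪ Y)) with h0 | h0
    · omega
    · obtain ⟨r, hr⟩ : ∃ r, rk Ω Γ (X ∪ Y) = r + 1 := ⟨rk Ω Γ (X ∪ Y) - 1, by omega⟩
      rcases RkGE_union hX hY ((le_rk_iff hN hZ).1 hr.ge) with h1 | h1
      · rw [hr]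
        exact le_max_of_le_left ((le_rk_iff hN hZ).2 h1)
      · rw [hr]
        exact le_max_of_le_right ((le_rk_iff hN hZ).2 h1)
  · exact max_le (rk_mono hN hZ Set.subset_union_left) (rk_mono hN hZ Set.subset_union_right)

/-- points are definable, so an infinite definable set has rank `≥ 1`. -/
theorem rk_le_one_iff (hN : Nice Ω Γ) (hZ : Srt Ω Γ Z) {X : Set Z} (hX : Df Ω Γ X) :
    rk Ω Γ X ≤ 1 ↔ X.Finite := by
  have h1 : 1 + 1 ≤ rk Ω Γ X ↔ RkGE Ω Γ 1 X := le_rk_iff hN hZ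
  constructor
  · intro h
    by_contra hc
    have hinf : X.Infinite := hc
    have h2 : RkGE Ω Γ 1 X := by
      refine ⟨fun n => {((hinf.natEmbedding _ n : X) : Z)}, fun n => df_singleton (hZ.sm _), ?_,
        ?_, fun n => Set.singleton_nonempty _⟩
      · intro n x hx
        rw [Set.mem_singleton_iff] at hx
        rw [hx]
        exact (hinf.natEmbedding _ n).2
      · intro i j hij
        rw [Set.disjoint_singleton]
        intro h3
        exact hij ((hinf.natEmbedding _).injective (Subtype.ext h3))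
    have := h1.2 h2
    omega
  · intro hfin
    by_contra hc
    obtain ⟨A, _, h3, h4, h5⟩ := h1.1 (by omega)
    have h5' : ∀ i, ∃ x, x ∈ A i := h5
    choose f hf using h5'
    have hinj : Function.Injective f := by
      intro i j hij
      by_contra hne
      have h6 := (h4 i j hne)
      rw [Set.disjoint_left] at h6
      exact h6 (hf i) (by rw [hij]; exact hf j)
    exact Set.infinite_of_injective_forall_mem hinj (fun i => h3 i (hf i)) hfin

end Pool.Agent.Lib.ThC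

end

section

/-! # A5a: degree and irreducible sets -/

set_option autoImplicit false
open scoped Pointwise

namespace Pool.Agent.Lib.ThC

variable {Ω Γ : Type} [Group Γ] [MulAction Γ Ω]
variable {Z W : Type} [MulAction Γ Z] [MulAction Γ W]

/-- irreducible (degree one) definable sets. -/
def Irr (Ω Γ : Type) [Group Γ] [MulAction Γ Ω] {Z : Type} [MulAction Γ Z] (X : Set Z) : Prop :=
  Df Ω Γ X ∧ X.Nonempty ∧
    ∀ Y : Set Z, Df Ω Γ Y → rk Ω Γ (X ∩ Y) < rk Ω Γ X ∨ rk Ω Γ (X \ Y) < rk Ω Γ X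

/-- `X` contains a family of `m` pairwise disjoint definable sets of rank `ρ` -/
private def A5a_Fm (Ω Γ : Type) [Group Γ] [MulAction Γ Ω] {Z : Type} [MulAction Γ Z] (ρ : ℕ)
    (m : ℕ) (X : Set Z) : Prop :=
  ∃ Y : Fin m → Set Z, (∀ i, Df Ω Γ (Y i) ∧ Y i ⊆ X ∧ rk Ω Γ (Y i) = ρ) ∧
    (∀ i j, i ≠ j → Disjoint (Y i) (Y j))

private theorem A5a_mono {ρ m n : ℕ} (h : m ≤ n) {X : Set Z} (H : A5a_Fm Ω Γ ρ n X) :
    A5a_Fm Ω Γ ρ m X := by
  obtain ⟨Y, h1, h2⟩ := H
  exact ⟨fun i => Y (Fin.castLE h i), fun i => h1 _, fun i j hij => h2 _ _ fun e =>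
    hij (Fin.castLE_injective h e)⟩

private theorem A5a_of_finset {ρ n : ℕ} {X X' : Set Z} (Y : Fin n → Set Z) (S : Finset (Fin n))
    (hX' : Df Ω Γ X') (h1 : ∀ i, Df Ω Γ (Y i) ∧ Y i ⊆ X ∧ rk Ω Γ (Y i) = ρ)
    (h2 : ∀ i j, i ≠ j → Disjoint (Y i) (Y j))
    (h3 : ∀ i ∈ S, rk Ω Γ (Y i ∩ X') = ρ) : A5a_Fm Ω Γ ρ S.card (X ∩ X') := by
  let e := S.equivFin.symm
  refine ⟨fun i => Y (e i).1 ∩ X', fun i => ⟨df_inter (h1 _).1 hX', ?_, h3 _ (e i).2⟩, ?_⟩
  · exact Set.inter_subset_inter_left _ (h1 _).2.1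
  · intro i j hij
    refine (h2 (e i).1 (e j).1 ?_).mono Set.inter_subset_left Set.inter_subset_left
    intro h
    exact hij (e.injective (Subtype.ext h))

private theorem A5a_step (hN : Nice Ω Γ) (hZ : Srt Ω Γ Z) {ρ : ℕ} {X : Set Z} (hX : Df Ω Γ X)
    (hρ : rk Ω Γ X = ρ) (hU : ∀ m, A5a_Fm Ω Γ ρ m X) :
    ∃ A : Set Z, Df Ω Γ A ∧ A ⊆ X ∧ rk Ω Γ A = ρ ∧ ∀ m, A5a_Fm Ω Γ ρ m (X \ A) := by
  classical
  obtain ⟨Y, hY1, hY2⟩ := hU 2
  set A₀ := Y 0 with hA₀
  have hA : Df Ω Γ A₀ := (hY1 0).1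
  have hAX : A₀ ⊆ X := (hY1 0).2.1
  have key : ∀ m, A5a_Fm Ω Γ ρ m A₀ ∨ A5a_Fm Ω Γ ρ m (X \ A₀) := by
    intro m
    obtain ⟨V, hV1, hV2⟩ := hU (m + m)
    let S := Finset.univ.filter fun i : Fin (m + m) => rk Ω Γ (V i ∩ A₀) = ρ
    by_cases hS : m ≤ S.card
    · left
      have := A5a_of_finset V S hA hV1 hV2 (fun i hi => (Finset.mem_filter.1 hi).2)
      rw [Set.inter_eq_right.2 hAX] at this
      exact A5a_mono hS this
    · right
      have hc : m ≤ Sᶜ.card := by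
        rw [Finset.card_compl, Fintype.card_fin]
        omega
      have := A5a_of_finset V Sᶜ (df_compl hA) hV1 hV2 (fun i hi => by
        have hi' : rk Ω Γ (V i ∩ A₀) ≠ ρ := by
          intro h
          exact (Finset.mem_compl.1 hi) (Finset.mem_filter.2 ⟨Finset.mem_univ _, h⟩)
        have h1 := rk_union hN hZ (df_inter (hV1 i).1 hA) (df_inter (hV1 i).1 (df_compl hA))
        rw [Set.inter_union_compl, (hV1 i).2.2] at h1
        have h2 : rk Ω Γ (V i ∩ A₀) ≤ ρ := by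
          rw [← (hV1 i).2.2]
          exact rk_mono hN hZ Set.inter_subset_left
        have h3 : rk Ω Γ (V i ∩ A₀) < ρ := lt_of_le_of_ne h2 hi'
        rcases max_choice (rk Ω Γ (V i ∩ A₀)) (rk Ω Γ (V i ∩ A₀ᶜ)) with h | h
        · rw [h] at h1; omega
        · rw [h] at h1; exact h1.symm)
      exact A5a_mono hc this
  by_cases hall : ∀ m, A5a_Fm Ω Γ ρ m (X \ A₀)
  · exact ⟨A₀, hA, hAX, (hY1 0).2.2, hall⟩
  · push Not at hall
    obtain ⟨k, hk⟩ := hall
    refine ⟨X \ A₀, df_diff hX hA, Set.sdiff_subset, ?_, fun m => ?_⟩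
    · refine le_antisymm ?_ ?_
      · rw [← hρ]; exact rk_mono hN hZ Set.sdiff_subset
      · rw [← (hY1 1).2.2]
        refine rk_mono hN hZ ?_
        intro z hz
        exact ⟨(hY1 1).2.1 hz, fun h => Set.disjoint_left.1 (hY2 0 1 (by decide)) h hz⟩
    · rw [Set.sdiff_sdiff_cancel_left hAX]
      rcases key (max m k) with h | h
      · exact A5a_mono (le_max_left _ _) h
      · exact absurd (A5a_mono (le_max_right _ _) h) hk

/-- The degree is finite.  Say that `X` (definable, nonempty) is unbounded if it contains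
families of pairwise disjoint definable sets of rank `rk X` of every finite size.  If `X` is
unbounded then `X = A ⊔ B` with `A`, `B` definable of rank `rk X` and `B` unbounded (take two
disjoint sets `A₀, A₁ ⊆ X` of full rank; for a family `Y_i` of `2 m` sets each
`Y_i = (Y_i ∩ A₀) ∪ (Y_i \ A₀)` and one of the two parts has full rank by `rk_union`, so `A₀` or
`X \ A₀` contains a family of size `m`; hence one of them is unbounded and the other has full
rank).  Iterating gives infinitely many disjoint sets of rank `rk X`, so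
`rk X + 1 ≤ rk X`, contradiction. -/
theorem deg_bound (hN : Nice Ω Γ) (hZ : Srt Ω Γ Z) {X : Set Z} (hX : Df Ω Γ X)
    (hne : X.Nonempty) :
    ∃ N : ℕ, ∀ (m : ℕ) (Y : Fin m → Set Z),
      (∀ i, Df Ω Γ (Y i) ∧ Y i ⊆ X ∧ rk Ω Γ (Y i) = rk Ω Γ X) →
      (∀ i j, i ≠ j → Disjoint (Y i) (Y j)) → m ≤ N := by
  classical
  by_contra hcon
  push Not at hcon
  have hU : ∀ m, A5a_Fm Ω Γ (rk Ω Γ X) m X := by
    intro m
    obtain ⟨n, Y, h1, h2, h3⟩ := hcon m
    exact A5a_mono h3.le ⟨Y, h1, h2⟩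
  obtain ⟨r, hr⟩ : ∃ r, rk Ω Γ X = r + 1 := by
    have : rk Ω Γ X ≠ 0 := by
      intro h
      exact hne.ne_empty ((rk_eq_zero hN hZ).1 h)
    exact Nat.exists_eq_succ_of_ne_zero this
  let T := {B : Set Z // Df Ω Γ B ∧ B ⊆ X ∧ rk Ω Γ B = rk Ω Γ X ∧
    ∀ m, A5a_Fm Ω Γ (rk Ω Γ X) m B}
  have step : ∀ B : T, ∃ (A : Set Z) (B' : T), Df Ω Γ A ∧ A ⊆ B.1 ∧
      rk Ω Γ A = rk Ω Γ X ∧ B'.1 = B.1 \ A := by
    intro B
    obtain ⟨A, hA, hAB, hr', hm⟩ := A5a_step hN hZ B.2.1 B.2.2.2.1 B.2.2.2.2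
    refine ⟨A, ⟨B.1 \ A, df_diff B.2.1 hA, fun z hz => B.2.2.1 hz.1, ?_, hm⟩, hA, hAB, hr', rfl⟩
    obtain ⟨Y, h1, -⟩ := hm 1
    refine le_antisymm (rk_mono hN hZ fun z hz => B.2.2.1 hz.1) ?_
    exact (h1 0).2.2.ge.trans (rk_mono hN hZ (h1 0).2.1)
  choose A B' hA hAB hrA hB' using step
  let B : ℕ → T := fun n => Nat.rec ⟨X, hX, subset_rfl, rfl, hU⟩ (fun _ b => B' b) n
  have hB0 : B 0 = ⟨X, hX, subset_rfl, rfl, hU⟩ := rfl
  have hBs : ∀ n, B (n + 1) = B' (B n) := fun n => rfl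
  have hanti : ∀ n k, (B (n + k)).1 ⊆ (B n).1 := by
    intro n k
    induction k with
    | zero => exact subset_rfl
    | succ k ih =>
      intro z hz
      refine ih ?_
      rw [← add_assoc, hBs, hB'] at hz
      exact hz.1
  have hdis : ∀ n k, n < k → Disjoint (A (B n)) (A (B k)) := by
    intro n k hnk
    obtain ⟨j, rfl⟩ := Nat.exists_eq_add_of_lt hnk
    rw [Set.disjoint_left]
    intro z hz hz'
    have h1 : z ∈ (B (n + 1 + j)).1 := by
      have := hAB _ hz'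
      rwa [show n + 1 + j = n + j + 1 by omega]
    have h2 := hanti (n + 1) j h1
    rw [hBs, hB'] at h2
    exact h2.2 hz
  have hge : RkGE Ω Γ (r + 1) X := by
    refine ⟨fun n => A (B n), fun n => hA _, fun n z hz => (B n).2.2.1 (hAB _ hz), ?_, ?_⟩
    · intro i j hij
      rcases lt_or_gt_of_ne hij with h | h
      · exact hdis i j h
      · exact (hdis j i h).symm
    · intro n
      rw [← le_rk_iff hN hZ, hrA, hr]
  have := (le_rk_iff hN hZ).2 hge
  omega

end Pool.Agent.Lib.ThC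

end

section

/-! # A5b: degree and irreducible sets -/

set_option autoImplicit false
open scoped Pointwise

namespace Pool.Agent.Lib.ThC

variable {Ω Γ : Type} [Group Γ] [MulAction Γ Ω]
variable {Z W : Type} [MulAction Γ Z] [MulAction Γ W]

/-- every nonempty definable set is a finite disjoint union of irreducible sets of the same
rank. (Take a family of maximal size in `deg_bound`, and add the remainder to one member.) -/
theorem exists_irr (hN : Nice Ω Γ) (hZ : Srt Ω Γ Z) {X : Set Z} (hX : Df Ω Γ X)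
    (hne : X.Nonempty) :
    ∃ (m : ℕ) (Y : Fin (m + 1) → Set Z),
      (∀ i, Irr Ω Γ (Y i) ∧ rk Ω Γ (Y i) = rk Ω Γ X) ∧
      (∀ i j, i ≠ j → Disjoint (Y i) (Y j)) ∧ X = ⋃ i, Y i := by
  classical
  obtain ⟨N, hb⟩ := deg_bound hN hZ hX hne
  let P : ℕ → Prop := fun m => ∃ Y : Fin m → Set Z,
    (∀ i, Df Ω Γ (Y i) ∧ Y i ⊆ X ∧ rk Ω Γ (Y i) = rk Ω Γ X) ∧
    (∀ i j, i ≠ j → Disjoint (Y i) (Y j))
  have hPN : ∀ m, P m → m ≤ N := fun m ⟨Y, h1, h2⟩ => hb m Y h1 h2
  have hP1 : P 1 := ⟨fun _ => X, fun _ => ⟨hX, subset_rfl, rfl⟩, fun i j hij => by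
    exact absurd (Subsingleton.elim i j) hij⟩
  have h1N : 1 ≤ N := hPN 1 hP1
  have hg : P (Nat.findGreatest P N) := Nat.findGreatest_spec h1N hP1
  have hg1 : 1 ≤ Nat.findGreatest P N := Nat.le_findGreatest h1N hP1
  obtain ⟨m, hm⟩ : ∃ m, Nat.findGreatest P N = m + 1 := ⟨Nat.findGreatest P N - 1, by omega⟩
  have hno : ¬ P (m + 2) := fun h => by
    have := Nat.le_findGreatest (hPN _ h) h
    omega
  rw [hm] at hg
  obtain ⟨Y, h1, h2⟩ := hg
  let Y' : Fin (m + 1) → Set Z := fun i => if i = 0 then Y 0 ∪ (X \ ⋃ j, Y j) else Y i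
  have hY0 : Y' 0 = Y 0 ∪ (X \ ⋃ j, Y j) := by simp [Y']
  have hYi : ∀ i, i ≠ 0 → Y' i = Y i := fun i hi => by simp [Y', hi]
  have hdfU : Df Ω Γ (⋃ j, Y j) := df_iUnion_fin fun j => (h1 j).1
  have hsub : ∀ i, Y i ⊆ Y' i := fun i => by
    by_cases hi : i = 0
    · rw [hi, hY0]; exact Set.subset_union_left
    · rw [hYi i hi]
  have h1' : ∀ i, Df Ω Γ (Y' i) ∧ Y' i ⊆ X ∧ rk Ω Γ (Y' i) = rk Ω Γ X := fun i => by
    by_cases hi : i = 0
    · have hs : Y' i ⊆ X := by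
        rw [hi, hY0]; exact Set.union_subset (h1 0).2.1 Set.diff_subset
      refine ⟨?_, hs, le_antisymm (rk_mono hN hZ hs) ?_⟩
      · rw [hi, hY0]; exact df_union (h1 0).1 (df_diff hX hdfU)
      · rw [← (h1 i).2.2]; exact rk_mono hN hZ (hsub i)
    · rw [hYi i hi]; exact h1 i
  have hd0 : ∀ i, i ≠ 0 → Disjoint (Y' 0) (Y' i) := fun i hi => by
    rw [hY0, hYi i hi]
    refine Set.disjoint_union_left.2 ⟨h2 0 i (Ne.symm hi), ?_⟩
    exact Set.disjoint_left.2 fun x hx hx' => hx.2 (Set.mem_iUnion.2 ⟨i, hx'⟩)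
  have h2' : ∀ i j, i ≠ j → Disjoint (Y' i) (Y' j) := fun i j hij => by
    by_cases hi : i = 0
    · subst hi; exact hd0 j (Ne.symm hij)
    · by_cases hj : j = 0
      · subst hj; exact (hd0 i hi).symm
      · rw [hYi i hi, hYi j hj]; exact h2 i j hij
  have h3' : X = ⋃ i, Y' i := by
    refine Set.Subset.antisymm (fun x hx => ?_) (Set.iUnion_subset fun i => (h1' i).2.1)
    by_cases h : x ∈ ⋃ j, Y j
    · obtain ⟨j, hj⟩ := Set.mem_iUnion.1 h
      exact Set.mem_iUnion.2 ⟨j, hsub j hj⟩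
    · exact Set.mem_iUnion.2 ⟨0, by rw [hY0]; exact Or.inr ⟨hx, h⟩⟩
  refine ⟨m, Y', fun i => ⟨⟨(h1' i).1, ?_, fun T hT => ?_⟩, (h1' i).2.2⟩, h2', h3'⟩
  · rw [Set.nonempty_iff_ne_empty]
    intro h
    have h4 := (h1' i).2.2
    rw [h, (rk_eq_zero hN hZ).2 rfl] at h4
    exact hne.ne_empty ((rk_eq_zero hN hZ).1 h4.symm)
  · by_contra hcon
    push Not at hcon
    obtain ⟨c1, c2⟩ := hcon
    apply hno
    have hi := h1' i
    have e1 : rk Ω Γ (Y' i ∩ T) = rk Ω Γ X :=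
      le_antisymm (hi.2.2 ▸ rk_mono hN hZ Set.inter_subset_left) (hi.2.2 ▸ c1)
    have e2 : rk Ω Γ (Y' i \ T) = rk Ω Γ X :=
      le_antisymm (hi.2.2 ▸ rk_mono hN hZ Set.diff_subset) (hi.2.2 ▸ c2)
    let V : Fin (m + 1) → Set Z := Function.update Y' i (Y' i ∩ T)
    have hVi : V i = Y' i ∩ T := by simp [V]
    have hVj : ∀ j, j ≠ i → V j = Y' j := fun j hj => by simp [V, hj]
    have hVs : ∀ j, V j ⊆ Y' j := fun j => by
      by_cases hj : j = i
      · subst hj; rw [hVi]; exact Set.inter_subset_left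
      · rw [hVj j hj]
    have hV1 : ∀ j, Df Ω Γ (V j) ∧ V j ⊆ X ∧ rk Ω Γ (V j) = rk Ω Γ X := fun j => by
      by_cases hj : j = i
      · subst hj
        rw [hVi]
        exact ⟨df_inter hi.1 hT, Set.inter_subset_left.trans hi.2.1, e1⟩
      · rw [hVj j hj]; exact h1' j
    have hV2 : ∀ j k, j ≠ k → Disjoint (V j) (V k) := fun j k hjk =>
      (h2' j k hjk).mono (hVs j) (hVs k)
    have hV3 : ∀ j, Disjoint (Y' i \ T) (V j) := fun j => by
      by_cases hj : j = i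
      · subst hj
        rw [hVi]
        exact Set.disjoint_left.2 fun x hx hx' => hx.2 hx'.2
      · exact (h2' i j (Ne.symm hj)).mono Set.diff_subset (hVs j)
    refine ⟨Fin.cons (Y' i \ T) V, fun j => ?_, fun j k hjk => ?_⟩
    · refine Fin.cases ?_ (fun j => ?_) j
      · simp only [Fin.cons_zero]
        exact ⟨df_diff hi.1 hT, Set.diff_subset.trans hi.2.1, e2⟩
      · simp only [Fin.cons_succ]
        exact hV1 j
    · revert hjk
      refine Fin.cases ?_ (fun j => ?_) j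
      · refine Fin.cases ?_ (fun k => ?_) k
        · intro h; exact absurd rfl h
        · intro _
          simp only [Fin.cons_zero, Fin.cons_succ]
          exact hV3 k
      · refine Fin.cases ?_ (fun k => ?_) k
        · intro _
          simp only [Fin.cons_zero, Fin.cons_succ]
          exact (hV3 j).symm
        · intro h
          simp only [Fin.cons_succ]
          exact hV2 j k (fun h' => h (by rw [h']))

theorem irr_smul (g : Γ) {X : Set Z} (hX : Irr Ω Γ X) : Irr Ω Γ (g • X) := by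
  obtain ⟨h1, h2, h3⟩ := hX
  refine ⟨df_smul g h1, h2.smul_set, fun Y hY => ?_⟩
  have e1 : g • X ∩ Y = g • (X ∩ g⁻¹ • Y) := by rw [Set.smul_set_inter, smul_inv_smul]
  have e2 : g • X \ Y = g • (X \ g⁻¹ • Y) := by rw [Set.smul_set_sdiff, smul_inv_smul]
  rw [e1, e2, rk_smul, rk_smul, rk_smul]
  exact h3 _ (df_smul _ hY)

end Pool.Agent.Lib.ThC

end

section

/-! # A6a: types (ultrafilters of definable sets) -/

set_option autoImplicit false
open scoped Pointwise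

namespace Pool.Agent.Lib.ThC

/-- A type on `Z`: an ultrafilter on the Boolean algebra of definable subsets of `Z`. -/
@[ext]
structure Tp (Ω Γ Z : Type) [Group Γ] [MulAction Γ Ω] [MulAction Γ Z] where
  s : Set (Set Z)
  df : ∀ X ∈ s, Df Ω Γ X
  univ : Set.univ ∈ s
  inter : ∀ X ∈ s, ∀ Y ∈ s, X ∩ Y ∈ s
  up : ∀ X ∈ s, ∀ Y : Set Z, Df Ω Γ Y → X ⊆ Y → Y ∈ s
  ne : ∅ ∉ s
  ult : ∀ X : Set Z, Df Ω Γ X → X ∈ s ∨ Xᶜ ∈ s

variable {Ω Γ : Type} [Group Γ] [MulAction Γ Ω]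
variable {Z W : Type} [MulAction Γ Z] [MulAction Γ W]

/-- translate of a type. -/
def Tp.sm (g : Γ) (p : Tp Ω Γ Z) : Tp Ω Γ Z where
  s := {X | g⁻¹ • X ∈ p.s}
  df := fun X hX => by
    have h := df_smul g (p.df _ hX)
    rwa [smul_inv_smul] at h
  univ := by
    have : g⁻¹ • (Set.univ : Set Z) = Set.univ := Set.smul_set_univ
    rw [Set.mem_setOf_eq, this]; exact p.univ
  inter := fun X hX Y hY => by
    rw [Set.mem_setOf_eq, Set.smul_set_inter]; exact p.inter _ hX _ hY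
  up := fun X hX Y hY h => p.up _ hX _ (df_smul _ hY) (Set.smul_set_mono h)
  ne := by
    rw [Set.mem_setOf_eq, Set.smul_set_empty]; exact p.ne
  ult := fun X hX => by
    rcases p.ult _ (df_smul g⁻¹ hX) with h | h
    · exact Or.inl h
    · right
      rw [Set.mem_setOf_eq, Set.smul_set_compl]; exact h

instance : MulAction Γ (Tp Ω Γ Z) where
  smul := Tp.sm
  one_smul := fun p => by
    apply Tp.ext
    show {X | (1 : Γ)⁻¹ • X ∈ p.s} = p.s
    ext X; simp
  mul_smul := fun g h p => by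
    apply Tp.ext
    show {X | (g * h)⁻¹ • X ∈ p.s} = {X | g⁻¹ • X ∈ {X | h⁻¹ • X ∈ p.s}}
    ext X; simp [mul_smul]

theorem mem_smul_tp {g : Γ} {p : Tp Ω Γ Z} {X : Set Z} : X ∈ (g • p).s ↔ g⁻¹ • X ∈ p.s :=
  Iff.rfl

theorem smul_mem_smul_tp {g : Γ} {p : Tp Ω Γ Z} {X : Set Z} :
    g • X ∈ (g • p).s ↔ X ∈ p.s := by
  rw [mem_smul_tp, inv_smul_smul]

theorem tp_compl {p : Tp Ω Γ Z} {X : Set Z} (hX : Df Ω Γ X) : Xᶜ ∈ p.s ↔ X ∉ p.s := by
  constructor
  · intro h h'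
    have := p.inter _ h _ h'
    rw [Set.compl_inter_self] at this
    exact p.ne this
  · intro h
    exact (p.ult X hX).resolve_left h

theorem tp_union {p : Tp Ω Γ Z} {X Y : Set Z} (hX : Df Ω Γ X) (hY : Df Ω Γ Y)
    (h : X ∪ Y ∈ p.s) : X ∈ p.s ∨ Y ∈ p.s := by
  by_cases h1 : X ∈ p.s
  · exact Or.inl h1
  · right
    have h2 := (tp_compl hX).2 h1
    refine p.up _ (p.inter _ h _ h2) _ hY ?_
    rintro z ⟨h3 | h3, h4⟩
    · exact absurd h3 h4
    · exact h3

private theorem A6a_finset {ι : Type} {p : Tp Ω Γ Z} {X : ι → Set Z}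
    (hX : ∀ i, X i ∈ p.s) (F : Finset ι) : (⋂ i ∈ F, X i) ∈ p.s := by
  classical
  induction F using Finset.induction_on with
  | empty => simpa using p.univ
  | insert a F _ ih =>
    rw [Finset.set_biInter_insert]
    exact p.inter _ (hX a) _ ih

theorem tp_iInter {ι : Type} [Finite ι] {p : Tp Ω Γ Z} {X : ι → Set Z}
    (hX : ∀ i, X i ∈ p.s) : (⋂ i, X i) ∈ p.s := by
  have := Fintype.ofFinite ι
  have h := A6a_finset hX Finset.univ
  simpa using h

theorem tp_iUnion {ι : Type} [Finite ι] {p : Tp Ω Γ Z} {X : ι → Set Z}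
    (hX : ∀ i, Df Ω Γ (X i)) (h : (⋃ i, X i) ∈ p.s) : ∃ i, X i ∈ p.s := by
  by_contra hc
  push Not at hc
  have h1 : (⋂ i, (X i)ᶜ) ∈ p.s := tp_iInter fun i => (tp_compl (hX i)).2 (hc i)
  rw [← Set.compl_iUnion] at h1
  have h2 := p.inter _ h _ h1
  rw [Set.inter_compl_self] at h2
  exact p.ne h2

/-- two types with `p.s ⊆ q.s` are equal. -/
theorem tp_eq_of_le {p q : Tp Ω Γ Z} (h : ∀ X ∈ p.s, X ∈ q.s) : p = q := by
  apply Tp.ext
  apply Set.Subset.antisymm h
  intro X hX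
  by_contra hc
  have h1 := (tp_compl (q.df X hX)).2 hc
  exact (tp_compl (q.df X hX)).1 (h _ h1) hX

/-- disjoint finite sets of types can be separated by a definable set. -/
theorem tp_sep {P Q : Set (Tp Ω Γ Z)} (hP : P.Finite) (hQ : Q.Finite) (hPQ : Disjoint P Q) :
    ∃ X : Set Z, Df Ω Γ X ∧ (∀ p ∈ P, X ∈ p.s) ∧ ∀ q ∈ Q, X ∉ q.s := by
  classical
  -- separate two points
  have h1 : ∀ p q : Tp Ω Γ Z, p ≠ q → ∃ X : Set Z, Df Ω Γ X ∧ X ∈ p.s ∧ X ∉ q.s := by
    intro p q hpq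
    by_contra hc
    push Not at hc
    exact hpq (tp_eq_of_le fun X hX => hc X (p.df X hX) hX)
  -- separate a point from a finite set
  have h2 : ∀ p : Tp Ω Γ Z, ∀ F : Finset (Tp Ω Γ Z), p ∉ F →
      ∃ X : Set Z, Df Ω Γ X ∧ X ∈ p.s ∧ ∀ q ∈ F, X ∉ q.s := by
    intro p F
    induction F using Finset.induction_on with
    | empty => intro _; exact ⟨Set.univ, p.df _ p.univ, p.univ, by simp⟩
    | insert a F _ ih =>
      intro hp
      rw [Finset.mem_insert, not_or] at hp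
      obtain ⟨X, hX, hXp, hXF⟩ := ih hp.2
      obtain ⟨Y, hY, hYp, hYa⟩ := h1 p a hp.1
      have hXY := p.inter _ hXp _ hYp
      refine ⟨X ∩ Y, p.df _ hXY, hXY, ?_⟩
      intro q hq hc
      rw [Finset.mem_insert] at hq
      rcases hq with rfl | hq
      · exact hYa (q.up _ hc _ hY Set.inter_subset_right)
      · exact hXF q hq (q.up _ hc _ hX Set.inter_subset_left)
  -- separate two finite sets
  have h3 : ∀ F : Finset (Tp Ω Γ Z), (∀ p ∈ F, p ∉ hQ.toFinset) →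
      ∃ X : Set Z, Df Ω Γ X ∧ (∀ p ∈ F, X ∈ p.s) ∧ ∀ q ∈ Q, X ∉ q.s := by
    intro F
    induction F using Finset.induction_on with
    | empty =>
      intro _
      exact ⟨∅, df_empty, by simp, fun q _ => q.ne⟩
    | insert a F _ ih =>
      intro hp
      obtain ⟨X, hX, hXF, hXQ⟩ := ih fun p h => hp p (Finset.mem_insert_of_mem h)
      obtain ⟨Y, hY, hYa, hYQ⟩ := h2 a hQ.toFinset (hp a (Finset.mem_insert_self _ _))
      have hXY : Df Ω Γ (X ∪ Y) := df_union hX hY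
      refine ⟨X ∪ Y, hXY, ?_, ?_⟩
      · intro p hp'
        rw [Finset.mem_insert] at hp'
        rcases hp' with rfl | hp'
        · exact p.up _ hYa _ hXY Set.subset_union_right
        · exact p.up _ (hXF p hp') _ hXY Set.subset_union_left
      · intro q hq hc
        rcases tp_union hX hY hc with h | h
        · exact hXQ q hq h
        · exact hYQ q (hQ.mem_toFinset.2 hq) h
  obtain ⟨X, hX, hXP, hXQ⟩ := h3 hP.toFinset (by
    intro p hp hq
    exact Set.disjoint_left.1 hPQ (hP.mem_toFinset.1 hp) (hQ.mem_toFinset.1 hq))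
  exact ⟨X, hX, fun p hp => hXP p (hP.mem_toFinset.2 hp), hXQ⟩

end Pool.Agent.Lib.ThC

end

section

/-! # A6b: types (ultrafilters of definable sets) -/

set_option autoImplicit false
open scoped Pointwise

namespace Pool.Agent.Lib.ThC

variable {Ω Γ : Type} [Group Γ] [MulAction Γ Ω]
variable {Z W : Type} [MulAction Γ Z] [MulAction Γ W]

/-- the type of an irreducible set. -/
theorem tp_of_irr (hN : Nice Ω Γ) (hZ : Srt Ω Γ Z) {X : Set Z} (hX : Irr Ω Γ X) :
    ∃ p : Tp Ω Γ Z, ∀ Y : Set Z, Y ∈ p.s ↔ Df Ω Γ Y ∧ rk Ω Γ (X \ Y) < rk Ω Γ X := by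
  obtain ⟨hXd, hXne, hXi⟩ := hX
  have hpos : rk Ω Γ X ≠ 0 := fun h => hXne.ne_empty ((rk_eq_zero hN hZ).1 h)
  refine ⟨⟨{Y | Df Ω Γ Y ∧ rk Ω Γ (X \ Y) < rk Ω Γ X}, ?_, ?_, ?_, ?_, ?_, ?_⟩, fun Y => Iff.rfl⟩
  · exact fun Y hY => hY.1
  · refine ⟨df_univ, ?_⟩
    have h1 : X \ Set.univ = ∅ := by simp
    rw [h1, (rk_eq_zero hN hZ).2 rfl]
    omega
  · rintro Y ⟨hY1, hY2⟩ Y' ⟨hY1', hY2'⟩
    refine ⟨df_inter hY1 hY1', ?_⟩
    have h1 : X \ (Y ∩ Y') = (X \ Y) ∪ (X \ Y') := by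
      ext x
      simp only [Set.mem_sdiff, Set.mem_inter_iff, Set.mem_union]
      tauto
    rw [h1, rk_union hN hZ (df_diff hXd hY1) (df_diff hXd hY1')]
    exact max_lt hY2 hY2'
  · rintro Y ⟨hY1, hY2⟩ Y' hY1' hYY'
    refine ⟨hY1', lt_of_le_of_lt (rk_mono hN hZ ?_) hY2⟩
    intro x hx
    exact ⟨hx.1, fun h => hx.2 (hYY' h)⟩
  · rintro ⟨_, h⟩
    have h1 : X \ ∅ = X := by simp
    rw [h1] at h
    exact lt_irrefl _ h
  · intro Y hY
    rcases hXi Y hY with h | h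
    · right
      refine ⟨df_compl hY, ?_⟩
      have h1 : X \ Yᶜ = X ∩ Y := by
        ext x
        simp only [Set.mem_sdiff, Set.mem_inter_iff, Set.mem_compl_iff]
        tauto
      rwa [h1]
    · exact Or.inl ⟨hY, h⟩

/-- every type is the type of an irreducible set (choose `X ∈ p` of minimal rank; by
`exists_irr` and `tp_iUnion` one may take it irreducible; if `Y ∈ p` then `X ∩ Y ∈ p` has rank
`rk X`, hence `rk (X \ Y) < rk X`). -/
theorem tp_irr (hN : Nice Ω Γ) (hZ : Srt Ω Γ Z) (p : Tp Ω Γ Z) :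
    ∃ X : Set Z, Irr Ω Γ X ∧ X ∈ p.s ∧
      ∀ Y : Set Z, Y ∈ p.s ↔ Df Ω Γ Y ∧ rk Ω Γ (X \ Y) < rk Ω Γ X := by
  classical
  have hex : ∃ n : ℕ, ∃ X ∈ p.s, rk Ω Γ X = n := ⟨_, Set.univ, p.univ, rfl⟩
  obtain ⟨X0, hX0, hn⟩ := Nat.find_spec hex
  have hmin : ∀ Y ∈ p.s, rk Ω Γ X0 ≤ rk Ω Γ Y := by
    intro Y hY
    rw [hn]
    exact Nat.find_min' hex ⟨Y, hY, rfl⟩
  have hne : X0.Nonempty := by
    rw [Set.nonempty_iff_ne_empty]
    rintro rfl
    exact p.ne hX0
  obtain ⟨m, Y, h1, _, h3⟩ := exists_irr hN hZ (p.df _ hX0) hne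
  rw [h3] at hX0
  obtain ⟨i, hi⟩ := tp_iUnion (fun i => (h1 i).1.1) hX0
  obtain ⟨hirr, hrk⟩ := h1 i
  refine ⟨Y i, hirr, hi, fun T => ⟨fun hT => ⟨p.df _ hT, ?_⟩, fun hT => ?_⟩⟩
  · rcases hirr.2.2 T (p.df _ hT) with h | h
    · have h4 := hmin _ (p.inter _ hi _ hT)
      rw [← hrk] at h4
      omega
    · exact h
  · by_contra hc
    have h4 := (tp_compl (p := p) hT.1).2 hc
    have h5 := hmin _ (p.inter _ hi _ h4)
    rw [← hrk] at h5
    have h6 : Y i ∩ Tᶜ = Y i \ T := rfl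
    rw [h6] at h5
    omega

/-- definability of types: the stabiliser of a type is open (it contains `st X` for the
irreducible `X` of `tp_irr`). -/
theorem tp_open (hN : Nice Ω Γ) (hZ : Srt Ω Γ Z) (p : Tp Ω Γ Z) : Op Ω (st Γ p) := by
  obtain ⟨X, hX, _, h⟩ := tp_irr hN hZ p
  have hXd : Op Ω (st Γ X) := hX.1
  refine op_mono hXd fun g hg => ?_
  rw [MulAction.mem_stabilizer_iff] at hg ⊢
  have hg' : g⁻¹ • X = X := by
    rw [inv_smul_eq_iff]
    exact hg.symm
  apply Tp.ext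
  ext Y
  rw [mem_smul_tp, h, h]
  have h1 : X \ (g⁻¹ • Y) = g⁻¹ • (X \ Y) := by
    rw [Set.smul_set_sdiff, hg']
  rw [h1, rk_smul]
  constructor
  · rintro ⟨h2, h3⟩
    refine ⟨?_, h3⟩
    have h4 := df_smul g h2
    rwa [smul_inv_smul] at h4
  · rintro ⟨h2, h3⟩
    exact ⟨df_smul _ h2, h3⟩

/-- the `Γ`-orbit of a type is a sort. -/
theorem srt_tp (hN : Nice Ω Γ) (hZ : Srt Ω Γ Z) (p : Tp Ω Γ Z) :
    Srt Ω Γ (MulAction.orbit Γ p) :=
  srt_orbit (tp_open hN hZ p)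

end Pool.Agent.Lib.ThC

end

section

/-! # A6c: types (ultrafilters of definable sets) -/

set_option autoImplicit false
open scoped Pointwise

namespace Pool.Agent.Lib.ThC

variable {Ω Γ : Type} [Group Γ] [MulAction Γ Ω]
variable {Z W : Type} [MulAction Γ Z] [MulAction Γ W]

/-- for `U` open every type contains exactly one `U`-orbit. -/
theorem tp_exists_orb (hN : Nice Ω Γ) (hZ : Srt Ω Γ Z) {U : Subgroup Γ} (hU : Op Ω U)
    (p : Tp Ω Γ Z) : ∃ z : Z, orb U z ∈ p.s := by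
  obtain ⟨F, hF⟩ := finOrb hN hZ hU
  have h1 : (⋃ f : F, orb U (f : Z)) = Set.univ := by
    rw [Set.eq_univ_iff_forall]
    intro z
    obtain ⟨f, hf, hz⟩ := hF z
    exact Set.mem_iUnion.2 ⟨⟨f, hf⟩, hz⟩
  obtain ⟨f, hf⟩ := tp_iUnion (p := p) (X := fun f : F => orb U (f : Z))
    (fun f => df_orb hU _) (by rw [h1]; exact p.univ)
  exact ⟨_, hf⟩

theorem tp_orb_unique {U : Subgroup Γ} {p : Tp Ω Γ Z} {y z : Z} (hy : orb U y ∈ p.s)
    (hz : orb U z ∈ p.s) : orb U y = orb U z := by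
  rcases orb_eq_or_disj U y z with h | h
  · exact h
  · exfalso
    have h1 := p.inter _ hy _ hz
    rw [Set.disjoint_iff_inter_eq_empty.1 h] at h1
    exact p.ne h1

/-- a `U`-invariant member of `p` contains the `U`-orbit in `p`. -/
theorem orb_subset_of_mem {U : Subgroup Γ} {p : Tp Ω Γ Z} {X : Set Z}
    (hX : ∀ g ∈ U, g • X = X) (hXp : X ∈ p.s) {z : Z} (hz : orb U z ∈ p.s) :
    orb U z ⊆ X := by
  have h1 := p.inter _ hXp _ hz
  have h2 : (X ∩ orb U z).Nonempty := by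
    rw [Set.nonempty_iff_ne_empty]
    intro h
    rw [h] at h1
    exact p.ne h1
  obtain ⟨y, hy1, hy2⟩ := h2
  rw [← orb_eq_of_mem hy2]
  exact orb_subset hX hy1

/-- the type of a point. -/
theorem exists_tp_pt (hZ : ∀ z : Z, Op Ω (st Γ z)) (z : Z) :
    ∃ p : Tp Ω Γ Z, ∀ X : Set Z, X ∈ p.s ↔ Df Ω Γ X ∧ z ∈ X := by
  refine ⟨⟨{X | Df Ω Γ X ∧ z ∈ X}, fun X hX => hX.1, ⟨df_univ, Set.mem_univ _⟩, ?_, ?_, ?_, ?_⟩,
    fun X => Iff.rfl⟩
  · exact fun X hX Y hY => ⟨df_inter hX.1 hY.1, hX.2, hY.2⟩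
  · exact fun X hX Y hY hXY => ⟨hY, hXY hX.2⟩
  · exact fun h => h.2
  · intro X hX
    by_cases hz : z ∈ X
    · exact Or.inl ⟨hX, hz⟩
    · exact Or.inr ⟨df_compl hX, hz⟩

/-- the types of maximal rank in `X` form a nonempty finite set. -/
theorem tp_max_finite (hN : Nice Ω Γ) (hZ : Srt Ω Γ Z) {X : Set Z} (hX : Df Ω Γ X)
    (hne : X.Nonempty) :
    {p : Tp Ω Γ Z | X ∈ p.s ∧ ∀ Y ∈ p.s, rk Ω Γ X ≤ rk Ω Γ Y}.Finite ∧
    {p : Tp Ω Γ Z | X ∈ p.s ∧ ∀ Y ∈ p.s, rk Ω Γ X ≤ rk Ω Γ Y}.Nonempty := by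
  obtain ⟨m, A, h1, _, h3⟩ := exists_irr hN hZ hX hne
  have h4 : ∀ i, ∃ p : Tp Ω Γ Z, ∀ Y : Set Z, Y ∈ p.s ↔
      Df Ω Γ Y ∧ rk Ω Γ (A i \ Y) < rk Ω Γ (A i) := fun i => tp_of_irr hN hZ (h1 i).1
  choose P hP using h4
  constructor
  · refine (Set.finite_range P).subset ?_
    rintro p ⟨hp1, hp2⟩
    have hp3 : (⋃ i, A i) ∈ p.s := by rw [← h3]; exact hp1
    obtain ⟨i, hi⟩ := tp_iUnion (fun i => (h1 i).1.1) hp3
    refine ⟨i, ?_⟩
    symm
    refine tp_eq_of_le fun T hT => ?_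
    rw [hP]
    refine ⟨p.df _ hT, ?_⟩
    rcases (h1 i).1.2.2 T (p.df _ hT) with h | h
    · have h5 := hp2 _ (p.inter _ hi _ hT)
      rw [(h1 i).2] at h
      omega
    · exact h
  · refine ⟨P 0, ?_, ?_⟩
    · rw [hP]
      refine ⟨hX, ?_⟩
      have h5 : A 0 \ X = ∅ := by
        rw [Set.sdiff_eq_empty, h3]
        exact Set.subset_iUnion A 0
      have h6 : rk Ω Γ (A 0) ≠ 0 := fun h =>
        ((h1 0).1.2.1).ne_empty ((rk_eq_zero hN hZ).1 h)
      rw [h5, (rk_eq_zero hN hZ).2 rfl]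
      omega
    · intro Y hY
      rw [hP] at hY
      have h5 : rk Ω Γ (A 0) = max (rk Ω Γ (A 0 ∩ Y)) (rk Ω Γ (A 0 \ Y)) := by
        rw [← rk_union hN hZ (df_inter (h1 0).1.1 hY.1) (df_diff (h1 0).1.1 hY.1)]
        rw [Set.inter_union_sdiff]
      have h6 : rk Ω Γ (A 0 ∩ Y) ≤ rk Ω Γ Y := rk_mono hN hZ Set.inter_subset_right
      have h7 := hY.2
      rw [← (h1 0).2]
      omega

end Pool.Agent.Lib.ThC

end
end

section

section

/-! # D1a: the degree; invariant sets -/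

set_option autoImplicit false
open scoped Pointwise

namespace Pool.Agent.Lib.ThC

variable {Ω Γ : Type} [Group Γ] [MulAction Γ Ω]
variable {Z Y : Type} [MulAction Γ Z] [MulAction Γ Y]

/-- `S` is an invariant set of points with open stabilisers. -/
structure SInv (Ω Γ : Type) [Group Γ] [MulAction Γ Ω] {Z : Type} [MulAction Γ Z]
    (S : Set Z) : Prop where
  inv : ∀ (g : Γ), ∀ s ∈ S, g • s ∈ S
  sm : ∀ s ∈ S, Op Ω (st Γ s)

/-- moreover `S` is the union of finitely many orbits. -/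
structure SFin (Ω Γ : Type) [Group Γ] [MulAction Γ Ω] {Z : Type} [MulAction Γ Z]
    (S : Set Z) : Prop extends SInv Ω Γ S where
  fo : ∃ F : Finset Z, (∀ f ∈ F, f ∈ S) ∧ ∀ s ∈ S, ∃ f ∈ F, ∃ g : Γ, g • f = s

/-- the pointwise stabiliser of a finite set. -/
abbrev fx (Γ : Type) [Group Γ] {Z : Type} [MulAction Γ Z] (B : Finset Z) : Subgroup Γ :=
  fixingSubgroup Γ (B : Set Z)

theorem op_fx {S : Set Z} (hS : SInv Ω Γ S) {B : Finset Z} (hB : (B : Set Z) ⊆ S) :
    Op Ω (fx Γ B) := by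
  refine op_mono (op_iInf (ι := {b // b ∈ B}) (U := fun b => st Γ b.1)
    (fun b => hS.sm b.1 (hB b.2))) ?_
  intro g hg
  rw [mem_fixingSubgroup_iff]
  intro b hb
  have h := Subgroup.mem_iInf.mp hg ⟨b, hb⟩
  exact MulAction.mem_stabilizer_iff.mp h

theorem fx_anti {B B' : Finset Z} (h : B ⊆ B') : fx Γ B' ≤ fx Γ B := by
  intro g hg
  rw [mem_fixingSubgroup_iff] at hg ⊢
  intro b hb
  exact hg b (h hb)

theorem fixingSubgroup_le_fx {S : Set Z} {B : Finset Z} (hB : (B : Set Z) ⊆ S) :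
    fixingSubgroup Γ S ≤ fx Γ B := by
  intro g hg
  rw [mem_fixingSubgroup_iff] at hg ⊢
  intro b hb
  exact hg b (hB hb)

open scoped Classical in
theorem fx_union (B B' : Finset Z) : fx Γ (B ∪ B') = fx Γ B ⊓ fx Γ B' := by
  ext g
  rw [Subgroup.mem_inf, mem_fixingSubgroup_iff, mem_fixingSubgroup_iff, mem_fixingSubgroup_iff]
  constructor
  · intro h
    exact ⟨fun b hb => h b (Finset.mem_union_left _ hb), fun b hb => h b (Finset.mem_union_right _ hb)⟩
  · rintro ⟨h1, h2⟩ b hb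
    rcases Finset.mem_union.mp hb with hb | hb
    · exact h1 b hb
    · exact h2 b hb

/-- the pointwise stabiliser of an invariant set is normal. -/
theorem fixing_normal {S : Set Z} (hS : ∀ (g : Γ), ∀ s ∈ S, g • s ∈ S) :
    (fixingSubgroup Γ S).Normal := by
  constructor
  intro n hn g
  rw [mem_fixingSubgroup_iff] at hn ⊢
  intro s hs
  rw [mul_smul, mul_smul, hn _ (hS _ s hs), smul_inv_smul]

open scoped Classical in
/-- conjugates of pointwise stabilisers. -/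
theorem cj_fx (g : Γ) (B : Finset Z) : cj g (fx Γ B) = fx Γ (B.image (fun b => g • b)) := by
  ext x
  rw [mem_cj, mem_fixingSubgroup_iff, mem_fixingSubgroup_iff]
  constructor
  · intro h y hy
    obtain ⟨b, hb, rfl⟩ := Finset.mem_image.mp hy
    have h1 := h b hb
    rw [mul_smul, mul_smul, inv_smul_eq_iff] at h1
    exact h1
  · intro h b hb
    rw [mul_smul, mul_smul, inv_smul_eq_iff]
    exact h (g • b) (Finset.mem_image_of_mem _ hb)

theorem sinv_union {S S' : Set Z} (h : SInv Ω Γ S) (h' : SInv Ω Γ S') :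
    SInv Ω Γ (S ∪ S') := by
  refine ⟨?_, ?_⟩
  · rintro g s (hs | hs)
    · exact Or.inl (h.inv g s hs)
    · exact Or.inr (h'.inv g s hs)
  · rintro s (hs | hs)
    · exact h.sm s hs
    · exact h'.sm s hs

theorem sfin_union {S S' : Set Z} (h : SFin Ω Γ S) (h' : SFin Ω Γ S') :
    SFin Ω Γ (S ∪ S') := by
  classical
  obtain ⟨F, hF, hF'⟩ := h.fo
  obtain ⟨G, hG, hG'⟩ := h'.fo
  refine ⟨sinv_union h.toSInv h'.toSInv, F ∪ G, ?_, ?_⟩
  · intro f hf
    rcases Finset.mem_union.mp hf with hf | hf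
    · exact Or.inl (hF f hf)
    · exact Or.inr (hG f hf)
  · rintro s (hs | hs)
    · obtain ⟨f, hf, g, hg⟩ := hF' s hs
      exact ⟨f, Finset.mem_union_left _ hf, g, hg⟩
    · obtain ⟨f, hf, g, hg⟩ := hG' s hs
      exact ⟨f, Finset.mem_union_right _ hf, g, hg⟩

theorem sfin_orbit {y : Z} (hy : Op Ω (st Γ y)) : SFin Ω Γ (MulAction.orbit Γ y) := by
  refine ⟨⟨?_, ?_⟩, {y}, ?_, ?_⟩
  · rintro g s ⟨x, rfl⟩
    exact ⟨g * x, mul_smul g x y⟩
  · rintro s ⟨x, rfl⟩
    show Op Ω (st Γ (x • y))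
    rw [st_smul]
    exact op_cj x hy
  · intro f hf
    rw [Finset.mem_singleton] at hf
    subst hf
    exact MulAction.mem_orbit_self _
  · rintro s ⟨x, rfl⟩
    exact ⟨y, Finset.mem_singleton_self y, x, rfl⟩

theorem sfin_empty : SFin Ω Γ (∅ : Set Z) := by
  exact ⟨⟨fun _ _ h => h.elim, fun _ h => h.elim⟩, ∅, by simp, fun _ h => h.elim⟩

/-- the degree: the maximal number of disjoint definable subsets of full rank. -/
noncomputable def dg (Ω Γ : Type) [Group Γ] [MulAction Γ Ω] {Y : Type} [MulAction Γ Y]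
    (X : Set Y) : ℕ :=
  sSup {m : ℕ | ∃ P : Fin m → Set Y, (∀ i, Df Ω Γ (P i) ∧ P i ⊆ X ∧ rk Ω Γ (P i) = rk Ω Γ X) ∧
    ∀ i j, i ≠ j → Disjoint (P i) (P j)}

end Pool.Agent.Lib.ThC

end

section

/-! # D1b: the degree; invariant sets -/

set_option autoImplicit false
open scoped Pointwise

namespace Pool.Agent.Lib.ThC

variable {Ω Γ : Type} [Group Γ] [MulAction Γ Ω]
variable {Z Y : Type} [MulAction Γ Z] [MulAction Γ Y]

/-- the set of the sizes of the families in the definition of the degree. -/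
private def D1b_S (Ω Γ : Type) [Group Γ] [MulAction Γ Ω] {Y : Type} [MulAction Γ Y]
    (X : Set Y) : Set ℕ :=
  {m : ℕ | ∃ P : Fin m → Set Y, (∀ i, Df Ω Γ (P i) ∧ P i ⊆ X ∧ rk Ω Γ (P i) = rk Ω Γ X) ∧
    ∀ i j, i ≠ j → Disjoint (P i) (P j)}

private theorem D1b_dg (X : Set Y) : dg Ω Γ X = sSup (D1b_S Ω Γ X) := rfl

private theorem D1b_zero (X : Set Y) : 0 ∈ D1b_S Ω Γ X :=
  ⟨fun i => i.elim0, fun i => i.elim0, fun i => i.elim0⟩

private theorem D1b_bdd (hN : Nice Ω Γ) (hY : Srt Ω Γ Y) {X : Set Y} (hX : Df Ω Γ X)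
    (hne : X.Nonempty) : BddAbove (D1b_S Ω Γ X) := by
  obtain ⟨N, hb⟩ := deg_bound hN hY hX hne
  refine ⟨N, ?_⟩
  rintro m ⟨P, h1, h2⟩
  exact hb m P h1 h2

private theorem D1b_nonempty (hN : Nice Ω Γ) (hY : Srt Ω Γ Y) {X X₁ : Set Y}
    (hne : X.Nonempty) (r1 : rk Ω Γ X₁ = rk Ω Γ X) : X₁.Nonempty := by
  rw [Set.nonempty_iff_ne_empty]
  intro h
  rw [h, (rk_eq_zero hN hY).2 rfl] at r1
  exact hne.ne_empty ((rk_eq_zero hN hY).1 r1.symm)

private theorem D1b_sub {X X₁ : Set Y} (s1 : X₁ ⊆ X) (r1 : rk Ω Γ X₁ = rk Ω Γ X) :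
    D1b_S Ω Γ X₁ ⊆ D1b_S Ω Γ X := by
  rintro m ⟨P, h1, h2⟩
  exact ⟨P, fun i => ⟨(h1 i).1, (h1 i).2.1.trans s1, (h1 i).2.2.trans r1⟩, h2⟩

private theorem D1b_smul (g : Γ) (X : Set Y) : D1b_S Ω Γ X ⊆ D1b_S Ω Γ (g • X) := by
  rintro m ⟨P, h1, h2⟩
  refine ⟨fun i => g • P i, fun i => ⟨df_smul g (h1 i).1, Set.smul_set_mono (h1 i).2.1, ?_⟩,
    fun i j hij => ?_⟩
  · rw [rk_smul, rk_smul]
    exact (h1 i).2.2
  · rw [Set.disjoint_left]
    intro y hy hy'
    rw [Set.mem_smul_set_iff_inv_smul_mem] at hy hy'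
    exact Set.disjoint_left.1 (h2 i j hij) hy hy'

/-- `deg_bound` -/
theorem dg_pos (hN : Nice Ω Γ) (hY : Srt Ω Γ Y) {X : Set Y} (hX : Df Ω Γ X)
    (hne : X.Nonempty) : 1 ≤ dg Ω Γ X := by
  rw [D1b_dg]
  refine le_csSup (D1b_bdd hN hY hX hne) ⟨fun _ => X, fun _ => ⟨hX, subset_rfl, rfl⟩, ?_⟩
  intro i j hij
  exact absurd (Subsingleton.elim i j) hij

theorem dg_smul (g : Γ) (X : Set Y) : dg Ω Γ (g • X) = dg Ω Γ X := by
  rw [D1b_dg, D1b_dg]
  congr 1
  apply Set.Subset.antisymm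
  · have := D1b_smul (Ω := Ω) g⁻¹ (g • X)
    rwa [inv_smul_smul] at this
  · exact D1b_smul g X

/-- disjoint subsets of full rank: the degrees add up to at most the degree. -/
theorem dg_add (hN : Nice Ω Γ) (hY : Srt Ω Γ Y) {X X₁ X₂ : Set Y} (hX : Df Ω Γ X)
    (h1 : Df Ω Γ X₁) (h2 : Df Ω Γ X₂) (hne : X.Nonempty) (s1 : X₁ ⊆ X) (s2 : X₂ ⊆ X)
    (r1 : rk Ω Γ X₁ = rk Ω Γ X) (r2 : rk Ω Γ X₂ = rk Ω Γ X) (hd : Disjoint X₁ X₂) :
    dg Ω Γ X₁ + dg Ω Γ X₂ ≤ dg Ω Γ X := by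
  have hb1 := D1b_bdd hN hY h1 (D1b_nonempty hN hY hne r1)
  have hb2 := D1b_bdd hN hY h2 (D1b_nonempty hN hY hne r2)
  obtain ⟨P, hP1, hP2⟩ : dg Ω Γ X₁ ∈ D1b_S Ω Γ X₁ := Nat.sSup_mem ⟨0, D1b_zero X₁⟩ hb1
  obtain ⟨Q, hQ1, hQ2⟩ : dg Ω Γ X₂ ∈ D1b_S Ω Γ X₂ := Nat.sSup_mem ⟨0, D1b_zero X₂⟩ hb2
  have key : dg Ω Γ X₁ + dg Ω Γ X₂ ∈ D1b_S Ω Γ X := by
    refine ⟨Fin.append P Q, fun i => ?_, fun i j => ?_⟩
    · refine Fin.addCases (fun i => ?_) (fun i => ?_) i
      · rw [Fin.append_left]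
        exact ⟨(hP1 i).1, (hP1 i).2.1.trans s1, (hP1 i).2.2.trans r1⟩
      · rw [Fin.append_right]
        exact ⟨(hQ1 i).1, (hQ1 i).2.1.trans s2, (hQ1 i).2.2.trans r2⟩
    · refine Fin.addCases (fun i => ?_) (fun i => ?_) i
      · refine Fin.addCases (fun j => ?_) (fun j => ?_) j
        · intro hij
          rw [Fin.append_left, Fin.append_left]
          exact hP2 i j (fun e => hij (by rw [e]))
        · intro _
          rw [Fin.append_left, Fin.append_right]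
          exact hd.mono (hP1 i).2.1 (hQ1 j).2.1
      · refine Fin.addCases (fun j => ?_) (fun j => ?_) j
        · intro _
          rw [Fin.append_left, Fin.append_right]
          exact hd.symm.mono (hQ1 i).2.1 (hP1 j).2.1
        · intro hij
          rw [Fin.append_right, Fin.append_right]
          exact hQ2 i j (fun e => hij (by rw [e]))
  exact le_csSup (D1b_bdd hN hY hX hne) key

theorem dg_mono (hN : Nice Ω Γ) (hY : Srt Ω Γ Y) {X X₁ : Set Y} (hX : Df Ω Γ X)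
    (hne : X.Nonempty) (s1 : X₁ ⊆ X) (r1 : rk Ω Γ X₁ = rk Ω Γ X) :
    dg Ω Γ X₁ ≤ dg Ω Γ X := by
  rw [D1b_dg, D1b_dg]
  exact csSup_le_csSup (D1b_bdd hN hY hX hne) ⟨0, D1b_zero X₁⟩ (D1b_sub s1 r1)

end Pool.Agent.Lib.ThC

end

section

/-! # D2: Lemma 9.1 (bounded support) -/

set_option autoImplicit false
open scoped Pointwise

namespace Pool.Agent.Lib.ThC

variable {Ω Γ : Type} [Group Γ] [MulAction Γ Ω]
variable {Z Y : Type} [MulAction Γ Z] [MulAction Γ Y]

/-- Bounded support, for a sort `Y`.  Call `X ⊆ Y` `S`-definable if it is invariant under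
`fx Γ B` for some finite `B ⊆ S` (then it is definable, `op_fx`).  Among the `S`-definable
sets containing `a` choose `X` with `(rk X, dg X)` lexicographically minimal, invariant under
`fx Γ B`.  Let `g ∈ fx Γ B` and `B' ⊆ S` finite.  Put `X'' = orb (fx Γ B') a`.  Suppose
`g • a ∉ X''`.  Put `X₁ = (X ∩ X'') \ g⁻¹ • X''`; it contains `a` and is `S`-definable (`g⁻¹ • X''` is
invariant under the conjugate `fx Γ (g⁻¹ B')`, and `g⁻¹ B' ⊆ S`).  So `rk X₁ = rk X`,
`dg X₁ = dg X` by minimality and `rk_mono`, `dg_mono`.  `g • X₁ ⊆ g • X = X` is disjoint from `X₁`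
(`X₁ ⊆ X''`, `g • X₁ ∩ X'' = ∅`), has the same rank and degree: `dg_add` gives
`2 dg X ≤ dg X`, contradiction to `dg_pos`. -/
theorem supp_bound_srt (hN : Nice Ω Γ) (hY : Srt Ω Γ Y) {S : Set Z} (hS : SInv Ω Γ S)
    (a : Y) : ∃ B : Finset Z, (B : Set Z) ⊆ S ∧ ∀ g ∈ fx Γ B, ∀ B' : Finset Z,
      (B' : Set Z) ⊆ S → ∃ h ∈ fx Γ B', h • a = g • a := by
  classical
  let P : Set Y → Prop := fun X => ∃ B : Finset Z, (B : Set Z) ⊆ S ∧ ∀ g ∈ fx Γ B, g • X = X
  have hPdf : ∀ X, P X → Df Ω Γ X := by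
    rintro X ⟨B, hB, hX⟩
    exact df_of_inv (op_fx hS hB) hX
  have h1 : ∃ r, ∃ X, P X ∧ a ∈ X ∧ rk Ω Γ X = r :=
    ⟨_, Set.univ, ⟨∅, by simp, fun g _ => Set.smul_set_univ⟩, Set.mem_univ a, rfl⟩
  have h2 : ∃ d, ∃ X, P X ∧ a ∈ X ∧ rk Ω Γ X = Nat.find h1 ∧ dg Ω Γ X = d := by
    obtain ⟨X, hX1, hX2, hX3⟩ := Nat.find_spec h1
    exact ⟨_, X, hX1, hX2, hX3, rfl⟩
  obtain ⟨X, hXP, haX, hXr, hXd⟩ := Nat.find_spec h2
  have hmin1 : ∀ X', P X' → a ∈ X' → rk Ω Γ X ≤ rk Ω Γ X' := by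
    intro X' h3 h4
    rw [hXr]
    exact Nat.find_min' h1 ⟨X', h3, h4, rfl⟩
  have hmin2 : ∀ X', P X' → a ∈ X' → rk Ω Γ X' = rk Ω Γ X → dg Ω Γ X ≤ dg Ω Γ X' := by
    intro X' h3 h4 h5
    rw [hXd]
    exact Nat.find_min' h2 ⟨X', h3, h4, h5.trans hXr, rfl⟩
  obtain ⟨B, hB, hXB⟩ := hXP
  have hXdf : Df Ω Γ X := df_of_inv (op_fx hS hB) hXB
  refine ⟨B, hB, fun g hg B' hB' => ?_⟩
  by_contra hcon
  have hga : g • a ∉ orb (fx Γ B') a := fun ⟨h, hh1, hh2⟩ => hcon ⟨h, hh1, hh2⟩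
  let X'' : Set Y := orb (fx Γ B') a
  let X₁ : Set Y := (X ∩ X'') \ (g⁻¹ • X'')
  have hX''inv : ∀ k ∈ fx Γ B', k • X'' = X'' := fun k hk => smul_orb_of_mem hk a
  have haX'' : a ∈ X'' := mem_orb_self _ a
  have haX1 : a ∈ X₁ := by
    refine ⟨⟨haX, haX''⟩, fun h3 => hga ?_⟩
    rw [Set.mem_smul_set] at h3
    obtain ⟨y, hy, hy2⟩ := h3
    have hy3 : g⁻¹ • y = a := hy2
    have hy4 : y = g • a := by rw [← hy3, smul_inv_smul]
    have hy5 : y ∈ orb (fx Γ B') a := hy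
    rwa [hy4] at hy5
  let B₁ : Finset Z := B ∪ (B' ∪ B'.image (fun b => g⁻¹ • b))
  have hB₁ : (B₁ : Set Z) ⊆ S := by
    intro z hz
    rw [Finset.mem_coe] at hz
    rcases Finset.mem_union.1 hz with hz | hz
    · exact hB hz
    · rcases Finset.mem_union.1 hz with hz | hz
      · exact hB' hz
      · obtain ⟨b, hb, rfl⟩ := Finset.mem_image.1 hz
        exact hS.inv _ _ (hB' hb)
  have hX1inv : ∀ k ∈ fx Γ B₁, k • X₁ = X₁ := by
    intro k hk
    have hk' : k ∈ fx Γ B ⊓ (fx Γ B' ⊓ fx Γ (B'.image (fun b => g⁻¹ • b))) := by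
      rw [← fx_union, ← fx_union]
      exact hk
    obtain ⟨hk1, hk2, hk3⟩ := hk'
    have e1 := hXB k hk1
    have e2 := hX''inv k hk2
    have e3 : k • (g⁻¹ • X'') = g⁻¹ • X'' := by
      have hk4 : k ∈ cj g⁻¹ (fx Γ B') := by
        rw [cj_fx]
        exact hk3
      rw [mem_cj, inv_inv] at hk4
      have e4 := hX''inv _ hk4
      calc k • (g⁻¹ • X'') = (g⁻¹ * (g * k * g⁻¹)) • X'' := by
            rw [smul_smul]
            congr 1
            group
        _ = g⁻¹ • X'' := by rw [mul_smul, e4]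
    change k • ((X ∩ X'') \ (g⁻¹ • X'')) = (X ∩ X'') \ (g⁻¹ • X'')
    rw [Set.smul_set_sdiff, Set.smul_set_inter, e1, e2, e3]
  have hX1P : P X₁ := ⟨B₁, hB₁, hX1inv⟩
  have hX1X : X₁ ⊆ X := fun x hx => hx.1.1
  have hrk : rk Ω Γ X₁ = rk Ω Γ X := le_antisymm (rk_mono hN hY hX1X) (hmin1 _ hX1P haX1)
  have hdg : dg Ω Γ X₁ = dg Ω Γ X :=
    le_antisymm (dg_mono hN hY hXdf ⟨a, haX⟩ hX1X hrk) (hmin2 _ hX1P haX1 hrk)
  have h5 := dg_add hN hY (X := X) (X₁ := X₁) (X₂ := g • X₁) hXdf (hPdf _ hX1P)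
    (df_smul g (hPdf _ hX1P)) ⟨a, haX⟩ hX1X
    (by rw [← hXB g hg]; exact Set.smul_set_mono hX1X) hrk (by rw [rk_smul]; exact hrk)
    (by
      rw [Set.disjoint_left]
      rintro y hy ⟨x, hx, hxy⟩
      refine hx.2 ?_
      rw [Set.mem_smul_set_iff_inv_smul_mem, inv_inv]
      have : g • x = y := hxy
      rw [this]
      exact hy.1.2)
  rw [dg_smul, hdg] at h5
  have h6 := dg_pos hN hY hXdf ⟨a, haX⟩
  omega

/-- the same for every point with open stabiliser (apply the previous lemma in the sort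
`MulAction.orbit Γ a`). -/
theorem supp_bound (hN : Nice Ω Γ) {S : Set Z} (hS : SInv Ω Γ S) (a : Y)
    (ha : Op Ω (st Γ a)) : ∃ B : Finset Z, (B : Set Z) ⊆ S ∧ ∀ g ∈ fx Γ B, ∀ B' : Finset Z,
      (B' : Set Z) ⊆ S → ∃ h ∈ fx Γ B', h • a = g • a := by
  obtain ⟨B, hB, h⟩ := supp_bound_srt (Y := MulAction.orbit Γ a) hN (srt_orbit ha) hS
    ⟨a, MulAction.mem_orbit_self a⟩
  refine ⟨B, hB, fun g hg B' hB' => ?_⟩
  obtain ⟨k, hk, hk2⟩ := h g hg B' hB'
  exact ⟨k, hk, congrArg Subtype.val hk2⟩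

end Pool.Agent.Lib.ThC

end

section

/-! # D3a: transfer to the pointwise stabiliser of an infinite invariant set -/

set_option autoImplicit false
open scoped Pointwise

namespace Pool.Agent.Lib.ThC

variable {Ω Γ : Type} [Group Γ] [MulAction Γ Ω]
variable {Z Y : Type} [MulAction Γ Z] [MulAction Γ Y]

/-- one step of the back and forth: let `Q l` say that for every finite `B ⊆ S` there is
`g ∈ fx Γ B` with `g • c = c'` and `g • a = b` for all `(a, b) ∈ l`.  Then `Q l` implies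
that for every `ω` there is `ω'` with `Q ((ω, ω') :: l)`: apply `supp_bound` to the point
`(c, a₁, …, a_n, ω)` of `Y × (Fin (n + 1) → Ω)`, take `g₀ ∈ fx Γ B_a` from `Q l` and
`ω' = g₀ • ω`. -/
theorem tr_forth (hN : Nice Ω Γ) {S : Set Z} (hS : SInv Ω Γ S) (c c' : Y)
    (hc : Op Ω (st Γ c)) (l : List (Ω × Ω))
    (h : ∀ B : Finset Z, (B : Set Z) ⊆ S → ∃ g ∈ fx Γ B, g • c = c' ∧
      ∀ x ∈ l, g • x.1 = x.2) (ω : Ω) :
    ∃ ω' : Ω, ∀ B : Finset Z, (B : Set Z) ⊆ S → ∃ g ∈ fx Γ B, g • c = c' ∧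
      ∀ x ∈ (ω, ω') :: l, g • x.1 = x.2 := by
  classical
  have hop : Op Ω (st Γ (c, ((fun i : Fin l.length => (l.get i).1), ω))) := by
    obtain ⟨A, hA⟩ := hc
    refine ⟨A ∪ (l.map Prod.fst).toFinset ∪ {ω}, fun g hg => ?_⟩
    have h1 : g • c = c := hA g fun a ha =>
      hg a (Finset.mem_union_left _ (Finset.mem_union_left _ ha))
    have h2 : g • ω = ω := hg ω (Finset.mem_union_right _ (Finset.mem_singleton_self _))
    have h3 : g • (fun i : Fin l.length => (l.get i).1) =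
        (fun i : Fin l.length => (l.get i).1) := by
      funext i
      refine hg _ (Finset.mem_union_left _ (Finset.mem_union_right _ ?_))
      rw [List.mem_toFinset, List.mem_map]
      exact ⟨l.get i, List.get_mem l i, rfl⟩
    exact Prod.ext h1 (Prod.ext h3 h2)
  obtain ⟨B₀, hB₀, hB⟩ := supp_bound hN hS _ hop
  obtain ⟨g₀, hg₀, hg₀c, hg₀l⟩ := h B₀ hB₀
  refine ⟨g₀ • ω, fun B' hB' => ?_⟩
  obtain ⟨k, hk, hkc⟩ := hB g₀ hg₀ B' hB'
  have h1 : k • c = g₀ • c := congrArg Prod.fst hkc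
  have h2 : k • ω = g₀ • ω := congrArg (fun z => z.2.2) hkc
  have h3 : k • (fun i : Fin l.length => (l.get i).1) =
      g₀ • (fun i : Fin l.length => (l.get i).1) := congrArg (fun z => z.2.1) hkc
  refine ⟨k, hk, h1.trans hg₀c, fun x hx => ?_⟩
  rcases List.mem_cons.1 hx with rfl | hx
  · exact h2
  · obtain ⟨i, rfl⟩ := List.mem_iff_get.1 hx
    exact (congrFun h3 i).trans (hg₀l _ (List.get_mem l i))

/-- the backward direction (exchange the roles of `c, c'`, using inverses;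
`st c'` is a conjugate of `st c`). -/
theorem tr_back (hN : Nice Ω Γ) {S : Set Z} (hS : SInv Ω Γ S) (c c' : Y)
    (hc : Op Ω (st Γ c)) (l : List (Ω × Ω))
    (h : ∀ B : Finset Z, (B : Set Z) ⊆ S → ∃ g ∈ fx Γ B, g • c = c' ∧
      ∀ x ∈ l, g • x.1 = x.2) (ω' : Ω) :
    ∃ ω : Ω, ∀ B : Finset Z, (B : Set Z) ⊆ S → ∃ g ∈ fx Γ B, g • c = c' ∧
      ∀ x ∈ (ω, ω') :: l, g • x.1 = x.2 := by
  classical
  have hc' : Op Ω (st Γ c') := by
    obtain ⟨g, -, rfl, -⟩ := h ∅ (by simp)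
    obtain ⟨A, hA⟩ := hc
    refine ⟨A.image (fun a => g • a), fun k hk => ?_⟩
    have h1 : (g⁻¹ * k * g) • c = c := hA _ fun a ha => by
      rw [mul_smul, mul_smul, hk _ (Finset.mem_image_of_mem _ ha), inv_smul_smul]
    change k • g • c = g • c
    rw [mul_smul, mul_smul, inv_smul_eq_iff] at h1
    exact h1
  obtain ⟨ω, hω⟩ := tr_forth hN hS c' c hc' (l.map Prod.swap) (by
    intro B hB
    obtain ⟨g, hg, hgc, hgl⟩ := h B hB
    refine ⟨g⁻¹, inv_mem hg, ?_, ?_⟩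
    · rw [inv_smul_eq_iff, hgc]
    · intro x hx
      obtain ⟨y, hy, rfl⟩ := List.mem_map.1 hx
      change g⁻¹ • y.2 = y.1
      rw [inv_smul_eq_iff, hgl y hy]) ω'
  refine ⟨ω, fun B hB => ?_⟩
  obtain ⟨g, hg, hgc, hgl⟩ := hω B hB
  refine ⟨g⁻¹, inv_mem hg, ?_, ?_⟩
  · rw [inv_smul_eq_iff, hgc]
  · intro x hx
    rcases List.mem_cons.1 hx with rfl | hx
    · change g⁻¹ • ω = ω'
      rw [inv_smul_eq_iff]
      exact (hgl (ω', ω) (List.mem_cons_self ..)).symm
    · rw [inv_smul_eq_iff]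
      exact (hgl x.swap (List.mem_cons_of_mem _ (List.mem_map_of_mem hx))).symm

end Pool.Agent.Lib.ThC

end

section

/-! # D3b: transfer to the pointwise stabiliser of an infinite invariant set -/

set_option autoImplicit false
open scoped Pointwise

namespace Pool.Agent.Lib.ThC

variable {Ω Γ : Type} [Group Γ] [MulAction Γ Ω]
variable {Z Y : Type} [MulAction Γ Z] [MulAction Γ Y]

/-- (TR).  By back and forth along an enumeration of `Ω` one gets a permutation `σ` of `Ω`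
such that for every finite `A ⊆ Ω` and every finite `B ⊆ S` there is `g ∈ fx Γ B` with
`g • c = c'` and `g = σ` on `A`.  By `Cpl` there is `g : Γ` with `g = σ` on `Ω`.  Then `g`
fixes `S` and maps `c` to `c'`: for `s ∈ S` let `A` be a finite set whose pointwise stabiliser fixes
`s`, `g' ∈ fx Γ {s}` with `g' = σ` on `A`; `g⁻¹ g'` fixes `A`, so `g • s = g' • s = s`;
similarly for `c`. -/
theorem tr_main [Countable Ω] (hN : Nice Ω Γ) (hC : Cpl Ω Γ) {S : Set Z}
    (hS : SInv Ω Γ S) (c c' : Y) (hc : Op Ω (st Γ c))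
    (h : ∀ B : Finset Z, (B : Set Z) ⊆ S → ∃ g ∈ fx Γ B, g • c = c') :
    ∃ g ∈ fixingSubgroup Γ S, g • c = c' := by
  classical
  -- the back and forth
  have hmain : ∃ σ : Equiv.Perm Ω, ∀ (A : Finset Ω) (B : Finset Z), (B : Set Z) ⊆ S →
      ∃ g ∈ fx Γ B, g • c = c' ∧ ∀ a ∈ A, g • a = σ a := by
    rcases isEmpty_or_nonempty Ω with hE | hNe
    · refine ⟨1, fun A B hB => ?_⟩
      obtain ⟨g, hg, hgc⟩ := h B hB
      exact ⟨g, hg, hgc, fun a _ => (hE.false a).elim⟩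
    · obtain ⟨e, he⟩ := exists_surjective_nat Ω
      let Q : List (Ω × Ω) → Prop := fun l => ∀ B : Finset Z, (B : Set Z) ⊆ S →
        ∃ g ∈ fx Γ B, g • c = c' ∧ ∀ x ∈ l, g • x.1 = x.2
      have hstep : ∀ l : List (Ω × Ω), Q l → ∀ ω : Ω, ∃ l' : List (Ω × Ω), Q l' ∧ l ⊆ l' ∧
          (∃ ω', (ω, ω') ∈ l') ∧ ∃ ω', (ω', ω) ∈ l' := by
        intro l hl ω
        obtain ⟨ω₁, h1⟩ := tr_forth hN hS c c' hc l hl ω
        obtain ⟨ω₂, h2⟩ := tr_back hN hS c c' hc ((ω, ω₁) :: l) h1 ω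
        exact ⟨(ω₂, ω) :: (ω, ω₁) :: l, h2,
          fun x hx => List.mem_cons_of_mem _ (List.mem_cons_of_mem _ hx),
          ⟨ω₁, by simp⟩, ⟨ω₂, by simp⟩⟩
      choose! f hf1 hf2 hf3 hf4 using hstep
      let F : ℕ → List (Ω × Ω) := fun n => Nat.rec [] (fun n l => f l (e n)) n
      have hF0 : F 0 = [] := rfl
      have hFs : ∀ n, F (n + 1) = f (F n) (e n) := fun n => rfl
      have hFQ : ∀ n, Q (F n) := by
        intro n
        induction n with
        | zero =>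
          intro B hB
          obtain ⟨g, hg, hgc⟩ := h B hB
          exact ⟨g, hg, hgc, fun x hx => by rw [hF0] at hx; simp at hx⟩
        | succ n ih =>
          rw [hFs]
          exact hf1 _ ih _
      have hFm : ∀ n m, n ≤ m → F n ⊆ F m := by
        intro n m hnm
        induction m, hnm using Nat.le_induction with
        | base => exact fun x hx => hx
        | succ m _ ih =>
          rw [hFs]
          exact fun x hx => hf2 _ (hFQ m) _ (ih hx)
      have hex : ∀ ω : Ω, ∃ n, ∃ ω', (ω, ω') ∈ F n := by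
        intro ω
        obtain ⟨n, rfl⟩ := he ω
        refine ⟨n + 1, ?_⟩
        rw [hFs]
        exact hf3 _ (hFQ n) _
      have hex' : ∀ ω : Ω, ∃ n, ∃ ω', (ω', ω) ∈ F n := by
        intro ω
        obtain ⟨n, rfl⟩ := he ω
        refine ⟨n + 1, ?_⟩
        rw [hFs]
        exact hf4 _ (hFQ n) _
      choose N σ hσ using hex
      have hfun : ∀ (n m : ℕ) (x y : Ω × Ω), x ∈ F n → y ∈ F m → (x.1 = y.1 ↔ x.2 = y.2) := by
        intro n m x y hx hy
        have hx' := hFm n (max n m) (le_max_left _ _) hx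
        have hy' := hFm m (max n m) (le_max_right _ _) hy
        obtain ⟨g, -, -, hg⟩ := hFQ (max n m) ∅ (by simp)
        rw [← hg x hx', ← hg y hy']
        exact (smul_left_cancel_iff g).symm
      have hinj : Function.Injective σ := fun a b hab =>
        (hfun _ _ _ _ (hσ a) (hσ b)).2 hab
      have hsur : Function.Surjective σ := by
        intro b
        obtain ⟨n, a, ha⟩ := hex' b
        exact ⟨a, (hfun _ _ _ _ (hσ a) ha).1 rfl⟩
      refine ⟨Equiv.ofBijective σ ⟨hinj, hsur⟩, fun A B hB => ?_⟩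
      obtain ⟨g, hg, hgc, hgl⟩ := hFQ (A.sup N) B hB
      exact ⟨g, hg, hgc, fun a ha => hgl (a, σ a) (hFm _ _ (Finset.le_sup ha) (hσ a))⟩
  obtain ⟨σ, hσ⟩ := hmain
  obtain ⟨g, hg⟩ := hC σ fun A => by
    obtain ⟨g, -, -, hg⟩ := hσ A ∅ (by simp)
    exact ⟨g, hg⟩
  refine ⟨g, ?_, ?_⟩
  · rw [mem_fixingSubgroup_iff]
    intro s hs
    obtain ⟨A, hA⟩ := hS.sm s hs
    obtain ⟨g', hg'1, -, hg'2⟩ := hσ A {s} (by simpa using hs)
    have h1 : g⁻¹ * g' ∈ st Γ s := hA _ fun a ha => by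
      rw [mul_smul, hg'2 a ha, ← hg a, inv_smul_smul]
    rw [MulAction.mem_stabilizer_iff, mul_smul, inv_smul_eq_iff] at h1
    have h2 : g' • s = s := by
      rw [mem_fixingSubgroup_iff] at hg'1
      exact hg'1 s (by simp)
    rw [← h1, h2]
  · obtain ⟨A, hA⟩ := hc
    obtain ⟨g', -, hg'1, hg'2⟩ := hσ A ∅ (by simp)
    have h1 : g⁻¹ * g' ∈ st Γ c := hA _ fun a ha => by
      rw [mul_smul, hg'2 a ha, ← hg a, inv_smul_smul]
    rw [MulAction.mem_stabilizer_iff, mul_smul, inv_smul_eq_iff] at h1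
    rw [← h1, hg'1]

end Pool.Agent.Lib.ThC

end

section

/-! # D3c: transfer to the pointwise stabiliser of an infinite invariant set -/

set_option autoImplicit false
open scoped Pointwise

namespace Pool.Agent.Lib.ThC

variable {Ω Γ : Type} [Group Γ] [MulAction Γ Ω]
variable {Z Y : Type} [MulAction Γ Z] [MulAction Γ Y]

/-- version with an extra open base: replace `c` by `(c, 1·V)`, `c'` by `(c', 1·V)`. -/
theorem tr_base [Countable Ω] (hN : Nice Ω Γ) (hC : Cpl Ω Γ) {S : Set Z}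
    (hS : SInv Ω Γ S) (c c' : Y) (hc : Op Ω (st Γ c)) {V : Subgroup Γ} (hV : Op Ω V)
    (h : ∀ B : Finset Z, (B : Set Z) ⊆ S → ∃ g ∈ fx Γ B ⊓ V, g • c = c') :
    ∃ g ∈ fixingSubgroup Γ S ⊓ V, g • c = c' := by
  have hc1 : Op Ω (st Γ (c, ((1 : Γ) : Γ ⧸ V))) := by
    rw [st_prod, st_coset]
    exact op_inf hc hV
  obtain ⟨g, hg, hgc⟩ := tr_main hN hC hS (c, ((1 : Γ) : Γ ⧸ V)) (c', ((1 : Γ) : Γ ⧸ V)) hc1 (by
    intro B hB
    obtain ⟨g, hg, hgc⟩ := h B hB
    refine ⟨g, hg.1, ?_⟩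
    have h2 : g ∈ st Γ ((1 : Γ) : Γ ⧸ V) := by
      rw [st_coset]
      exact hg.2
    exact Prod.ext hgc h2)
  refine ⟨g, ⟨hg, ?_⟩, congrArg Prod.fst hgc⟩
  have h2 : g ∈ st Γ ((1 : Γ) : Γ ⧸ V) := congrArg Prod.snd hgc
  rw [st_coset] at h2
  exact h2

/-- (SE) support lemma.  Let `a = 1·U` in `Γ ⧸ U`, `B` from `supp_bound`.  If
`g ∈ fx Γ B` then `g • a` and `a` satisfy the hypothesis of `tr_main` (`c = a`, `c' = g • a`), so
there is `h` fixing `S` with `h • a = g • a`; but `h ∈ U`, so `g • a = a`, `g ∈ U`. -/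
theorem supp_exists [Countable Ω] (hN : Nice Ω Γ) (hC : Cpl Ω Γ) {S : Set Z}
    (hS : SInv Ω Γ S) {U : Subgroup Γ} (hU : Op Ω U) (h : fixingSubgroup Γ S ≤ U) :
    ∃ B : Finset Z, (B : Set Z) ⊆ S ∧ fx Γ B ≤ U := by
  have ha : Op Ω (st Γ ((1 : Γ) : Γ ⧸ U)) := by
    rw [st_coset]
    exact hU
  obtain ⟨B, hB, hB'⟩ := supp_bound hN hS ((1 : Γ) : Γ ⧸ U) ha
  refine ⟨B, hB, fun g hg => ?_⟩
  obtain ⟨k, hk, hkc⟩ := tr_main hN hC hS ((1 : Γ) : Γ ⧸ U) (g • ((1 : Γ) : Γ ⧸ U)) ha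
    (fun B' hB'S => hB' g hg B' hB'S)
  have h1 : k ∈ st Γ ((1 : Γ) : Γ ⧸ U) := by
    rw [st_coset]
    exact h hk
  have h2 : g ∈ st Γ ((1 : Γ) : Γ ⧸ U) := hkc.symm.trans h1
  rw [st_coset] at h2
  exact h2

end Pool.Agent.Lib.ThC

end
end

section

section

/-! # A7a: good sequences (used for the symmetry lemma) -/

set_option autoImplicit false
open scoped Pointwise

namespace Pool.Agent.Lib.ThC

variable {Ω Γ : Type} [Group Γ] [MulAction Γ Ω]
variable {Z W : Type} [MulAction Γ Z] [MulAction Γ W]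

private theorem A7a_fib {R : Set (Z × W)} {g : Γ} (hR : g • R = R) (w : W) :
    {z : Z | (z, g • w) ∈ R} = g • {z : Z | (z, w) ∈ R} := by
  ext z
  rw [Set.mem_smul_set_iff_inv_smul_mem]
  have h : (z, g • w) ∈ g • R ↔ g⁻¹ • (z, g • w) ∈ R := Set.mem_smul_set_iff_inv_smul_mem
  rw [hR] at h
  have e : g⁻¹ • (z, g • w) = (g⁻¹ • z, w) := by
    rw [Prod.smul_mk, inv_smul_smul]
  rw [e] at h
  exact h

private theorem A7a_inv (p : Tp Ω Γ Z) {R : Set (Z × W)} {g : Γ} (hp : g • p = p)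
    (hR : g • R = R) :
    g • {w : W | {z : Z | (z, w) ∈ R} ∈ p.s} = {w : W | {z : Z | (z, w) ∈ R} ∈ p.s} := by
  ext x
  rw [Set.mem_smul_set_iff_inv_smul_mem]
  have h := A7a_fib hR (g⁻¹ • x)
  rw [smul_inv_smul] at h
  have h2 : g • {z : Z | (z, g⁻¹ • x) ∈ R} ∈ (g • p).s ↔ {z : Z | (z, g⁻¹ • x) ∈ R} ∈ p.s :=
    smul_mem_smul_tp
  rw [hp, ← h] at h2
  exact h2.symm

/-- the definition scheme of a type is definable: its stabiliser contains `st p ⊓ st R`. -/
theorem df_dR (hN : Nice Ω Γ) (hZ : Srt Ω Γ Z) (p : Tp Ω Γ Z) {R : Set (Z × W)}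
    (hR : Df Ω Γ R) : Df Ω Γ {w : W | {z : Z | (z, w) ∈ R} ∈ p.s} := by
  refine df_of_inv (U := st Γ p ⊓ st Γ R) (op_inf (tp_open hN hZ p) hR) ?_
  intro g hg
  exact A7a_inv p (MulAction.mem_stabilizer_iff.1 hg.1) (MulAction.mem_stabilizer_iff.1 hg.2)

theorem dR_inv (p : Tp Ω Γ Z) {R : Set (Z × W)} {g : Γ} (hp : g • p = p) (hR : g • R = R) :
    g • {w : W | {z : Z | (z, w) ∈ R} ∈ p.s} = {w : W | {z : Z | (z, w) ∈ R} ∈ p.s} :=
  A7a_inv p hp hR

/-- `GoodL p q V [c₁, …, cₙ]`: with `cᵢ = (aᵢ, bᵢ)`, `aᵢ` realises `p` and `bᵢ` realises `q`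
over `V`, `c₁, …, cᵢ₋₁` (and `aᵢ`). -/
def GoodL (p : Tp Ω Γ Z) (q : Tp Ω Γ W) : Subgroup Γ → List (Z × W) → Prop
  | _, [] => True
  | V, c :: l => orb V c.1 ∈ p.s ∧ orb (V ⊓ st Γ c.1) c.2 ∈ q.s ∧
      GoodL p q (V ⊓ st Γ c.1 ⊓ st Γ c.2) l

theorem good_smul {p : Tp Ω Γ Z} {q : Tp Ω Γ W} {V : Subgroup Γ} {l : List (Z × W)} {g : Γ}
    (hp : g • p = p) (hq : g • q = q) (h : GoodL p q V l) :
    GoodL p q (cj g V) (l.map (fun c => g • c)) := by
  induction l generalizing V with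
  | nil => trivial
  | cons c l ih =>
    obtain ⟨h1, h2, h3⟩ := h
    have e1 : cj g V ⊓ st Γ (g • c).1 = cj g (V ⊓ st Γ c.1) := by
      rw [Prod.smul_fst, st_smul, cj_inf]
    have e2 : cj g V ⊓ st Γ (g • c).1 ⊓ st Γ (g • c).2 = cj g (V ⊓ st Γ c.1 ⊓ st Γ c.2) := by
      rw [e1, Prod.smul_snd, st_smul, ← cj_inf]
    refine ⟨?_, ?_, ?_⟩
    · rw [Prod.smul_fst, ← smul_orb]
      have := (smul_mem_smul_tp (g := g) (p := p) (X := orb V c.1)).2 h1
      rwa [hp] at this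
    · rw [e1, Prod.smul_snd, ← smul_orb]
      have := (smul_mem_smul_tp (g := g) (p := q) (X := orb (V ⊓ st Γ c.1) c.2)).2 h2
      rwa [hq] at this
    · rw [e2]
      exact ih h3

theorem good_mono (hZ : ∀ z : Z, Op Ω (st Γ z)) (hW : ∀ w : W, Op Ω (st Γ w))
    {p : Tp Ω Γ Z} {q : Tp Ω Γ W} {V V' : Subgroup Γ} (hV : Op Ω V) (hVV' : V ≤ V')
    {l : List (Z × W)} (h : GoodL p q V l) : GoodL p q V' l := by
  induction l generalizing V V' with
  | nil => trivial
  | cons c l ih =>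
    obtain ⟨h1, h2, h3⟩ := h
    have hV' : Op Ω V' := op_mono hV hVV'
    refine ⟨?_, ?_, ?_⟩
    · exact p.up _ h1 _ (df_orb hV' _) (orb_mono hVV' _)
    · exact q.up _ h2 _ (df_orb (op_inf hV' (hZ c.1)) _)
        (orb_mono (inf_le_inf_right _ hVV') _)
    · exact ih (op_inf (op_inf hV (hZ c.1)) (hW c.2))
        (inf_le_inf_right _ (inf_le_inf_right _ hVV')) h3

/-- two good lists of the same length are conjugate under `V`, if `V` fixes `p` and `q`. -/
theorem good_conj {p : Tp Ω Γ Z} {q : Tp Ω Γ W} {V : Subgroup Γ} (hVp : V ≤ st Γ p)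
    (hVq : V ≤ st Γ q) {l l' : List (Z × W)} (hl : l.length = l'.length)
    (h : GoodL p q V l) (h' : GoodL p q V l') :
    ∃ g ∈ V, l' = l.map (fun c => g • c) := by
  induction l generalizing V l' with
  | nil =>
    have : l' = [] := List.length_eq_zero_iff.1 hl.symm
    subst this
    exact ⟨1, V.one_mem, rfl⟩
  | cons c l ih =>
    cases l' with
    | nil => simp at hl
    | cons c' l' =>
      have hl' : l.length = l'.length := by simpa using hl
      obtain ⟨h1, h2, h3⟩ := h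
      obtain ⟨h1', h2', h3'⟩ := h'
      have e1 := tp_orb_unique h1 h1'
      have hm1 : c'.1 ∈ orb V c.1 := by rw [e1]; exact mem_orb_self V c'.1
      obtain ⟨g1, hg1, hg1c⟩ := hm1
      have hp1 : g1 • p = p := MulAction.mem_stabilizer_iff.1 (hVp hg1)
      have hq1 : g1 • q = q := MulAction.mem_stabilizer_iff.1 (hVq hg1)
      have h2q : orb (V ⊓ st Γ c'.1) (g1 • c.2) ∈ q.s := by
        have e : cj g1 (V ⊓ st Γ c.1) = V ⊓ st Γ c'.1 := by
          rw [cj_inf, cj_eq_of_mem hg1, ← st_smul, hg1c]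
        rw [← e, ← smul_orb]
        have := (smul_mem_smul_tp (g := g1) (p := q) (X := orb (V ⊓ st Γ c.1) c.2)).2 h2
        rwa [hq1] at this
      have e2 := tp_orb_unique h2q h2'
      have hm2 : c'.2 ∈ orb (V ⊓ st Γ c'.1) (g1 • c.2) := by
        rw [e2]; exact mem_orb_self _ c'.2
      obtain ⟨g2, hg2, hg2c⟩ := hm2
      have hg2' : g2 • c'.1 = c'.1 := MulAction.mem_stabilizer_iff.1 hg2.2
      have hgV : g2 * g1 ∈ V := V.mul_mem hg2.1 hg1
      have hgc1 : (g2 * g1) • c.1 = c'.1 := by rw [mul_smul, hg1c, hg2']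
      have hgc2 : (g2 * g1) • c.2 = c'.2 := by rw [mul_smul, hg2c]
      have hgV' : (g2 * g1)⁻¹ ∈ V := V.inv_mem hgV
      have hp2 : (g2 * g1)⁻¹ • p = p := MulAction.mem_stabilizer_iff.1 (hVp hgV')
      have hq2 : (g2 * g1)⁻¹ • q = q := MulAction.mem_stabilizer_iff.1 (hVq hgV')
      have h3g := good_smul hp2 hq2 h3'
      have e3 : cj (g2 * g1)⁻¹ (V ⊓ st Γ c'.1 ⊓ st Γ c'.2) = V ⊓ st Γ c.1 ⊓ st Γ c.2 := by
        rw [cj_inf, cj_inf, cj_eq_of_mem hgV', ← st_smul, ← st_smul, ← hgc1, ← hgc2,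
          inv_smul_smul, inv_smul_smul]
      rw [e3] at h3g
      have hle : V ⊓ st Γ c.1 ⊓ st Γ c.2 ≤ V := inf_le_left.trans inf_le_left
      obtain ⟨h, hh, hhl⟩ := ih (hle.trans hVp) (hle.trans hVq)
        (by rw [List.length_map]; exact hl') h3 h3g
      refine ⟨(g2 * g1) * h, V.mul_mem hgV (hle hh), ?_⟩
      have hc1 : h • c.1 = c.1 := MulAction.mem_stabilizer_iff.1 hh.1.2
      have hc2 : h • c.2 = c.2 := MulAction.mem_stabilizer_iff.1 hh.2
      have hc : ((g2 * g1) * h) • c = c' := by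
        apply Prod.ext
        · rw [Prod.smul_fst, mul_smul, hc1, hgc1]
        · rw [Prod.smul_snd, mul_smul, hc2, hgc2]
      have hl2 : l' = l.map (fun c => ((g2 * g1) * h) • c) := by
        have h5 := congrArg (List.map (fun c : Z × W => (g2 * g1) • c)) hhl
        rw [List.map_map, List.map_map] at h5
        have e5 : ((fun c : Z × W => (g2 * g1) • c) ∘ fun c : Z × W => (g2 * g1)⁻¹ • c) = id := by
          funext x
          exact smul_inv_smul _ _
        have e6 : ((fun c : Z × W => (g2 * g1) • c) ∘ fun c : Z × W => h • c) =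
            fun c : Z × W => ((g2 * g1) * h) • c := by
          funext x
          exact (mul_smul _ _ _).symm
        rw [e5, List.map_id, e6] at h5
        exact h5
      rw [List.map_cons, hc, ← hl2]

/-- elements can be removed. -/
theorem good_remove (hZ : ∀ z : Z, Op Ω (st Γ z)) (hW : ∀ w : W, Op Ω (st Γ w))
    {p : Tp Ω Γ Z} {q : Tp Ω Γ W} {V : Subgroup Γ} (hV : Op Ω V)
    {l₁ l₂ : List (Z × W)} {c : Z × W} (h : GoodL p q V (l₁ ++ c :: l₂)) :
    GoodL p q V (l₁ ++ l₂) := by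
  induction l₁ generalizing V with
  | nil =>
    obtain ⟨-, -, h3⟩ := h
    exact good_mono hZ hW (op_inf (op_inf hV (hZ c.1)) (hW c.2))
      (inf_le_left.trans inf_le_left) h3
  | cons d l ih =>
    obtain ⟨h1, h2, h3⟩ := h
    exact ⟨h1, h2, ih (op_inf (op_inf hV (hZ d.1)) (hW d.2)) h3⟩

end Pool.Agent.Lib.ThC

end

section

/-! # A7b: good sequences (used for the symmetry lemma) -/

set_option autoImplicit false
open scoped Pointwise

namespace Pool.Agent.Lib.ThC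

variable {Ω Γ : Type} [Group Γ] [MulAction Γ Ω]
variable {Z W : Type} [MulAction Γ Z] [MulAction Γ W]

/-- good lists of every length exist. -/
theorem good_exists (hN : Nice Ω Γ) (hZ : Srt Ω Γ Z) (hW : Srt Ω Γ W)
    (p : Tp Ω Γ Z) (q : Tp Ω Γ W) {V : Subgroup Γ} (hV : Op Ω V) (n : ℕ) :
    ∃ l : List (Z × W), l.length = n ∧ GoodL p q V l := by
  induction n generalizing V with
  | zero => exact ⟨[], rfl, trivial⟩
  | succ n ih =>
    obtain ⟨a, ha⟩ := tp_exists_orb hN hZ hV p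
    obtain ⟨b, hb⟩ := tp_exists_orb hN hW (op_inf hV (hZ.sm a)) q
    obtain ⟨l, hl, hg⟩ := ih (op_inf (op_inf hV (hZ.sm a)) (hW.sm b))
    exact ⟨(a, b) :: l, by simp [hl], ha, hb, hg⟩

/-- insertion: take a good list of length `n + 1`, remove the element at the right place,
conjugate. -/
theorem good_insert (hN : Nice Ω Γ) (hZ : Srt Ω Γ Z) (hW : Srt Ω Γ W)
    {p : Tp Ω Γ Z} {q : Tp Ω Γ W} {V : Subgroup Γ} (hV : Op Ω V) (hVp : V ≤ st Γ p)
    (hVq : V ≤ st Γ q) {l₁ l₂ : List (Z × W)} (h : GoodL p q V (l₁ ++ l₂)) :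
    ∃ c : Z × W, GoodL p q V (l₁ ++ c :: l₂) := by
  obtain ⟨L, hL, hG⟩ := good_exists hN hZ hW p q hV (l₁.length + (l₂.length + 1))
  obtain ⟨L₁, L', hL₁, hL', rfl⟩ : ∃ L₁ L', L₁.length = l₁.length ∧
      L'.length = l₂.length + 1 ∧ L = L₁ ++ L' := by
    refine ⟨L.take l₁.length, L.drop l₁.length, ?_, ?_, (List.take_append_drop _ _).symm⟩
    · rw [List.length_take, hL]; omega
    · rw [List.length_drop, hL]; omega
  obtain ⟨c, L₂, rfl⟩ : ∃ c L₂, L' = c :: L₂ := by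
    cases L' with
    | nil => simp at hL'
    | cons c L₂ => exact ⟨c, L₂, rfl⟩
  have hL₂ : L₂.length = l₂.length := by simpa using hL'
  have hR := good_remove hZ.sm hW.sm hV hG
  obtain ⟨g, hg, he⟩ := good_conj hVp hVq (by simp [hL₁, hL₂]) hR h
  rw [List.map_append] at he
  obtain ⟨h1, h2⟩ := List.append_inj he (by simp [hL₁])
  have hs := good_smul (MulAction.mem_stabilizer_iff.1 (hVp hg))
    (MulAction.mem_stabilizer_iff.1 (hVq hg)) hG
  rw [cj_eq_of_mem hg, List.map_append, List.map_cons, ← h1, ← h2] at hs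
  exact ⟨g • c, hs⟩

private theorem A7b_mem {p : Tp Ω Γ Z} {q : Tp Ω Γ W} {V : Subgroup Γ} {l : List (Z × W)}
    (h : GoodL p q V l) {d : Z × W} (hd : d ∈ l) :
    (∃ V' ≤ V, orb V' d.1 ∈ p.s) ∧ ∃ V' ≤ V, orb V' d.2 ∈ q.s := by
  induction l generalizing V with
  | nil => simp at hd
  | cons c l ih =>
    obtain ⟨h1, h2, h3⟩ := h
    rcases List.mem_cons.1 hd with rfl | hd
    · exact ⟨⟨V, le_rfl, h1⟩, ⟨_, inf_le_left, h2⟩⟩
    · obtain ⟨⟨V1, hV1, h4⟩, ⟨V2, hV2, h5⟩⟩ := ih h3 hd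
      have hle : V ⊓ st Γ c.1 ⊓ st Γ c.2 ≤ V := inf_le_left.trans inf_le_left
      exact ⟨⟨V1, hV1.trans hle, h4⟩, ⟨V2, hV2.trans hle, h5⟩⟩

private theorem A7b_fib {R : Set (Z × W)} {g : Γ} (hR : g • R = R) {w : W} (hw : g • w = w) :
    g • {z : Z | (z, w) ∈ R} = {z : Z | (z, w) ∈ R} := by
  ext z
  rw [Set.mem_smul_set_iff_inv_smul_mem, Set.mem_setOf_eq, Set.mem_setOf_eq]
  have h1 : ((g⁻¹ • z, w) : Z × W) = g⁻¹ • (z, w) := by
    rw [Prod.smul_mk, inv_smul_eq_iff.2 hw.symm]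
  rw [h1, ← Set.mem_smul_set_iff_inv_smul_mem, hR]

private theorem A7b_swap {R : Set (Z × W)} {g : Γ} (hR : g • R = R) :
    g • ((Prod.swap : W × Z → Z × W) ⁻¹' R) = (Prod.swap : W × Z → Z × W) ⁻¹' R := by
  ext ⟨w, z⟩
  rw [Set.mem_smul_set_iff_inv_smul_mem, Set.mem_preimage, Set.mem_preimage]
  have h1 : (Prod.swap (g⁻¹ • (w, z)) : Z × W) = g⁻¹ • (z, w) := rfl
  rw [h1, ← Set.mem_smul_set_iff_inv_smul_mem, hR]
  rfl

/-- the half graph. If `{w | R(·,w) ∈ p} ∈ q` and `{z | R(z,·) ∈ q} ∉ p` and `V` fixes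
`p, q, R`, then in a good list `(l₁ ++ c :: l₂)`: `(c.1, d.2) ∈ R` for `d ∈ l₁`, and
`(c.1, d.2) ∉ R` for `d ∈ l₂` (and for `d = c`). -/
theorem good_half (hN : Nice Ω Γ) (hZ : Srt Ω Γ Z) (hW : Srt Ω Γ W)
    {p : Tp Ω Γ Z} {q : Tp Ω Γ W} {R : Set (Z × W)} (hR : Df Ω Γ R) {V : Subgroup Γ}
    (hV : Op Ω V) (hVp : V ≤ st Γ p) (hVq : V ≤ st Γ q) (hVR : V ≤ st Γ R)
    (h1 : {w : W | {z : Z | (z, w) ∈ R} ∈ p.s} ∈ q.s)
    (h2 : {z : Z | {w : W | (z, w) ∈ R} ∈ q.s} ∉ p.s)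
    {l₁ l₂ : List (Z × W)} {c : Z × W} (h : GoodL p q V (l₁ ++ c :: l₂)) :
    (∀ d ∈ l₁, (c.1, d.2) ∈ R) ∧ ∀ d ∈ c :: l₂, (c.1, d.2) ∉ R := by
  induction l₁ generalizing V with
  | nil =>
    refine ⟨fun d hd => by simp at hd, fun d hd => ?_⟩
    rw [List.nil_append] at h
    have hR' : Df Ω Γ ((Prod.swap : W × Z → Z × W) ⁻¹' R) :=
      df_preimage (fun g z => rfl) hR
    have hdf : Df Ω Γ {z : Z | {w : W | (z, w) ∈ R} ∈ q.s} := df_dR hN hW q hR'
    have hinv : ∀ g ∈ V, g • {z : Z | {w : W | (z, w) ∈ R} ∈ q.s}ᶜ =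
        {z : Z | {w : W | (z, w) ∈ R} ∈ q.s}ᶜ := by
      intro g hg
      rw [Set.smul_set_compl]
      congr 1
      exact dR_inv q (R := (Prod.swap : W × Z → Z × W) ⁻¹' R)
        (MulAction.mem_stabilizer_iff.1 (hVq hg))
        (A7b_swap (MulAction.mem_stabilizer_iff.1 (hVR hg)))
    have hc := orb_subset_of_mem hinv ((tp_compl hdf).2 h2) h.1 (mem_orb_self V c.1)
    have hfd : Df Ω Γ {w : W | (c.1, w) ∈ R} := df_fiber' hR (hZ.sm _)
    have hinv2 : ∀ g ∈ V ⊓ st Γ c.1, g • {w : W | (c.1, w) ∈ R}ᶜ = {w : W | (c.1, w) ∈ R}ᶜ := by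
      intro g hg
      rw [Set.smul_set_compl]
      congr 1
      exact A7b_fib (R := (Prod.swap : W × Z → Z × W) ⁻¹' R)
        (A7b_swap (MulAction.mem_stabilizer_iff.1 (hVR hg.1)))
        (MulAction.mem_stabilizer_iff.1 hg.2)
    have hmem : {w : W | (c.1, w) ∈ R}ᶜ ∈ q.s := (tp_compl hfd).2 hc
    have hex : ∃ V' ≤ V ⊓ st Γ c.1, orb V' d.2 ∈ q.s := by
      rcases List.mem_cons.1 hd with rfl | hd
      · exact ⟨_, le_rfl, h.2.1⟩
      · obtain ⟨-, V2, hV2, h5⟩ := A7b_mem h.2.2 hd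
        exact ⟨V2, hV2.trans inf_le_left, h5⟩
    obtain ⟨V', hV', hd'⟩ := hex
    exact orb_subset_of_mem (fun g hg => hinv2 g (hV' hg)) hmem hd' (mem_orb_self V' d.2)
  | cons e l ih =>
    obtain ⟨h3, h4, h5⟩ := h
    have hle : V ⊓ st Γ e.1 ⊓ st Γ e.2 ≤ V := inf_le_left.trans inf_le_left
    obtain ⟨h6, h7⟩ := ih (op_inf (op_inf hV (hZ.sm _)) (hW.sm _)) (hle.trans hVp)
      (hle.trans hVq) (hle.trans hVR) h5
    refine ⟨fun d hd => ?_, h7⟩
    rcases List.mem_cons.1 hd with rfl | hd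
    · have he := orb_subset_of_mem (U := V ⊓ st Γ d.1) (fun g hg => dR_inv p
        (MulAction.mem_stabilizer_iff.1 (hVp hg.1))
        (MulAction.mem_stabilizer_iff.1 (hVR hg.1))) h1 h4 (mem_orb_self _ d.2)
      obtain ⟨⟨V', hV', hc⟩, -⟩ := A7b_mem h5 (d := c) (by simp)
      exact orb_subset_of_mem (fun g hg => A7b_fib
        (MulAction.mem_stabilizer_iff.1 (hVR (hle (hV' hg))))
        (MulAction.mem_stabilizer_iff.1 (hV' hg).2)) he hc (mem_orb_self V' c.1)
    · exact h6 d hd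

end Pool.Agent.Lib.ThC

end

section

/-! # A8a: the symmetry lemma (Harrington) -/

set_option autoImplicit false
open scoped Pointwise

namespace Pool.Agent.Lib.ThC

variable {Ω Γ : Type} [Group Γ] [MulAction Γ Ω]
variable {Z W : Type} [MulAction Γ Z] [MulAction Γ W]

private theorem A8a_remove (hZ : ∀ z : Z, Op Ω (st Γ z)) (hW : ∀ w : W, Op Ω (st Γ w))
    {p : Tp Ω Γ Z} {q : Tp Ω Γ W} {V : Subgroup Γ} (hV : Op Ω V) (l₁ L : List (Z × W)) :
    ∀ l₂ : List (Z × W), GoodL p q V (l₁ ++ (L ++ l₂)) → GoodL p q V (l₁ ++ l₂) := by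
  induction L with
  | nil => exact fun l₂ h => h
  | cons d L ih =>
    intro l₂ h
    exact ih l₂ (good_remove hZ hW hV h)

/-- Rank growth.  Let `V` fix `p, q, R`, with `h1, h2` as in `good_half`.  Let
`l₁ ++ l₂` be good with `l₁, l₂` nonempty, `X` a definable set invariant under all `g ∈ V`
fixing all entries of `l₁ ++ l₂`, and `c` an element that can be inserted,
with `c.1 ∈ X`.  Then `RkGE r X` for every `r`.
Induction on `r`, the lists being arbitrary.  `r = 0` clear.  Step: by `good_insert` build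
`c'_0, c'_1, …` with `l₁ ++ [c'_0, …, c'_m] ++ l₂` good for every `m`
(insert each time just before `l₂`).
Put `X_m = (X ∩ {z | (z, b'_m) ∈ R} ∩ {z | (z, b'_{m+1}) ∉ R}) \ ⋃_{l<m} X_l`.  The `X_m` are
disjoint, definable, contained in `X`.  Insert `a''` between `c'_m` and `c'_{m+1}` in
`l₁ ++ [c'_0, …, c'_{m+1}] ++ l₂`.
By `good_remove` and `good_conj` (both `c` and the new element are inserted in `l₁ ++ l₂`)
`a''` is in the orbit of `c.1` under the elements of `V` fixing the entries, so `a'' ∈ X`; by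
`good_half` `a'' ∈ X_m` (for `l < m`, `(a'', b'_{l+1}) ∈ R` so `a'' ∉ X_l`).
The induction hypothesis for `l₁ ++ [c'_0..c'_m]`, `[c'_{m+1}] ++ l₂` and `X_m` gives
`RkGE r X_m`. -/
theorem rank_growth (hN : Nice Ω Γ) (hZ : Srt Ω Γ Z) (hW : Srt Ω Γ W)
    {p : Tp Ω Γ Z} {q : Tp Ω Γ W} {R : Set (Z × W)} (hR : Df Ω Γ R) {V : Subgroup Γ}
    (hV : Op Ω V) (hVp : V ≤ st Γ p) (hVq : V ≤ st Γ q) (hVR : V ≤ st Γ R)
    (h1 : {w : W | {z : Z | (z, w) ∈ R} ∈ p.s} ∈ q.s)
    (h2 : {z : Z | {w : W | (z, w) ∈ R} ∈ q.s} ∉ p.s) (r : ℕ) :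
    ∀ (l₁ l₂ : List (Z × W)), l₁ ≠ [] → l₂ ≠ [] → GoodL p q V (l₁ ++ l₂) →
      ∀ X : Set Z, Df Ω Γ X →
      (∀ g ∈ V, (∀ d ∈ l₁ ++ l₂, g • d = d) → g • X = X) →
      ∀ c : Z × W, GoodL p q V (l₁ ++ c :: l₂) → c.1 ∈ X → RkGE Ω Γ r X := by
  classical
  induction r with
  | zero =>
    intro l₁ l₂ _ _ _ X _ _ c _ hcX
    exact ⟨c.1, hcX⟩
  | succ r ih =>
    intro l₁ l₂ hl₁ hl₂ hgood X hX hXinv c hc hcX
    -- the sequence of inserted elements
    have hins : ∀ L : {L : List (Z × W) // GoodL p q V (l₁ ++ L ++ l₂)},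
        ∃ d : Z × W, GoodL p q V (l₁ ++ L.1 ++ d :: l₂) := fun L =>
      good_insert hN hZ hW hV hVp hVq L.2
    choose next hnext using hins
    let step : {L : List (Z × W) // GoodL p q V (l₁ ++ L ++ l₂)} →
        {L : List (Z × W) // GoodL p q V (l₁ ++ L ++ l₂)} := fun L =>
      ⟨L.1 ++ [next L], by
        have h := hnext L
        simpa [List.append_assoc] using h⟩
    let Ls : ℕ → {L : List (Z × W) // GoodL p q V (l₁ ++ L ++ l₂)} := fun m =>
      Nat.rec ⟨[], by simpa using hgood⟩ (fun _ L => step L) m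
    let e : ℕ → Z × W := fun m => next (Ls m)
    have hLs : ∀ m, (Ls (m + 1)).1 = (Ls m).1 ++ [e m] := fun m => rfl
    have hmem : ∀ m l, l < m → e l ∈ (Ls m).1 := by
      intro m
      induction m with
      | zero => intro l hl; omega
      | succ m ihm =>
        intro l hl
        rw [hLs, List.mem_append]
        rcases Nat.lt_succ_iff_lt_or_eq.1 hl with h | h
        · exact Or.inl (ihm l h)
        · subst h
          exact Or.inr (by simp)
    -- the sets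
    let F : ℕ → Set Z := fun m => {z | (z, (e m).2) ∈ R}
    have hF : ∀ m, Df Ω Γ (F m) := fun m => df_fiber hR (hW.sm _)
    let Y : ℕ → Set Z := fun m => (X ∩ ⋂ l : Fin (m + 1), F l) ∩ (F (m + 1))ᶜ
    have hFinv : ∀ m, ∀ g ∈ V, g • (e m).2 = (e m).2 → g • F m = F m := by
      intro m g hg hge
      have hgR : g • R = R := hVR hg
      ext z
      rw [Set.mem_smul_set_iff_inv_smul_mem]
      show (g⁻¹ • z, (e m).2) ∈ R ↔ (z, (e m).2) ∈ R
      have h3 : (g⁻¹ • z, (e m).2) = g⁻¹ • (z, (e m).2) := by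
        rw [Prod.smul_mk]
        congr 1
        rw [eq_inv_smul_iff, hge]
      rw [h3, ← Set.mem_smul_set_iff_inv_smul_mem, hgR]
    refine ⟨Y, fun m => ?_, fun m z hz => hz.1.1, ?_, fun m => ?_⟩
    · exact df_inter (df_inter hX (df_iInter_fin fun l => hF l)) (df_compl (hF (m + 1)))
    · have hdis : ∀ i j, i < j → Disjoint (Y i) (Y j) := by
        intro i j hij
        rw [Set.disjoint_left]
        intro z hzi hzj
        have h3 : z ∈ F (i + 1) := by
          have h4 := hzj.1.2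
          rw [Set.mem_iInter] at h4
          exact h4 ⟨i + 1, by omega⟩
        exact hzi.2 h3
      intro i j hij
      rcases lt_or_gt_of_ne hij with h | h
      · exact hdis i j h
      · exact (hdis j i h).symm
    · -- the rank of `Y m`
      have hgood' : GoodL p q V ((l₁ ++ (Ls (m + 1)).1) ++ (e (m + 1) :: l₂)) := hnext (Ls (m + 1))
      obtain ⟨c'', hc''⟩ := good_insert hN hZ hW hV hVp hVq hgood'
      -- `c''` can be inserted in `l₁ ++ l₂`
      have hrem : GoodL p q V (l₁ ++ c'' :: l₂) := by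
        have h3 : GoodL p q V (l₁ ++ ((Ls (m + 1)).1 ++ (c'' :: e (m + 1) :: l₂))) := by
          simpa [List.append_assoc] using hc''
        have h4 : GoodL p q V (l₁ ++ (c'' :: e (m + 1) :: l₂)) :=
          A8a_remove hZ.sm hW.sm hV l₁ _ _ h3
        have h5 : GoodL p q V ((l₁ ++ [c'']) ++ e (m + 1) :: l₂) := by
          simpa [List.append_assoc] using h4
        have h6 := good_remove hZ.sm hW.sm hV h5
        simpa [List.append_assoc] using h6
      have hc''X : c''.1 ∈ X := by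
        obtain ⟨g, hgV, hg⟩ := good_conj hVp hVq (by simp) hc hrem
        rw [List.map_append, List.map_cons] at hg
        have h3 := List.append_inj hg (by simp)
        have h4 := List.cons.inj h3.2
        have hfix : ∀ d ∈ l₁ ++ l₂, g • d = d := by
          intro d hd
          rcases List.mem_append.1 hd with hd | hd
          · exact List.map_inj_left.1 (h3.1.symm.trans (List.map_id l₁).symm) d hd
          · exact List.map_inj_left.1 (h4.2.symm.trans (List.map_id l₂).symm) d hd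
        have h5 := hXinv g hgV hfix
        rw [h4.1, ← h5]
        exact Set.smul_mem_smul_set hcX
      have hhalf := good_half hN hZ hW hR hV hVp hVq hVR h1 h2 hc''
      refine ih (l₁ ++ (Ls (m + 1)).1) (e (m + 1) :: l₂) (by simp [hl₁]) (by simp) hgood' (Y m)
        (df_inter (df_inter hX (df_iInter_fin fun l => hF l)) (df_compl (hF (m + 1)))) ?_ c'' hc'' ?_
      · intro g hgV hfix
        have h3 : g • X = X := hXinv g hgV fun d hd => hfix d (by
          rcases List.mem_append.1 hd with hd | hd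
          · simp [hd]
          · simp [hd])
        have h4 : ∀ l : Fin (m + 1), g • F l = F l := fun l => hFinv l g hgV
          (congrArg Prod.snd (hfix (e l) (by
            simp [hmem (m + 1) l l.2])))
        have h5 : g • F (m + 1) = F (m + 1) := hFinv (m + 1) g hgV
          (congrArg Prod.snd (hfix (e (m + 1)) (by simp)))
        show g • ((X ∩ ⋂ l : Fin (m + 1), F l) ∩ (F (m + 1))ᶜ) = _
        rw [Set.smul_set_inter, Set.smul_set_inter, Set.smul_set_compl, h3, h5, Set.smul_set_iInter]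
        simp only [h4]
        rfl
      · refine ⟨⟨hc''X, Set.mem_iInter.2 fun l => ?_⟩, ?_⟩
        · exact hhalf.1 (e l) (by simp [hmem (m + 1) l l.2])
        · exact hhalf.2 (e (m + 1)) (by simp)

end Pool.Agent.Lib.ThC

end

section

/-! # A8b: the symmetry lemma (Harrington) -/

set_option autoImplicit false
open scoped Pointwise

namespace Pool.Agent.Lib.ThC

variable {Ω Γ : Type} [Group Γ] [MulAction Γ Ω]
variable {Z W : Type} [MulAction Γ Z] [MulAction Γ W]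

private theorem A8b_one (hN : Nice Ω Γ) (hZ : Srt Ω Γ Z) (hW : Srt Ω Γ W)
    (p : Tp Ω Γ Z) (q : Tp Ω Γ W) {R : Set (Z × W)} (hR : Df Ω Γ R)
    (h1 : {w : W | {z : Z | (z, w) ∈ R} ∈ p.s} ∈ q.s) :
      {z : Z | {w : W | (z, w) ∈ R} ∈ q.s} ∈ p.s := by
  by_contra h2
  obtain ⟨r, hr⟩ := fr_srt hN hZ
  have hV : Op Ω (st Γ p ⊓ st Γ q ⊓ st Γ R) :=
    op_inf (op_inf (tp_open hN hZ p) (tp_open hN hW q)) hR
  have hVp : st Γ p ⊓ st Γ q ⊓ st Γ R ≤ st Γ p := fun g hg => hg.1.1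
  have hVq : st Γ p ⊓ st Γ q ⊓ st Γ R ≤ st Γ q := fun g hg => hg.1.2
  have hVR : st Γ p ⊓ st Γ q ⊓ st Γ R ≤ st Γ R := fun g hg => hg.2
  obtain ⟨l, hl, hgood⟩ := good_exists hN hZ hW p q hV 2
  match l, hl, hgood with
  | [c1, c2], _, hgood =>
    have hgood' : GoodL p q (st Γ p ⊓ st Γ q ⊓ st Γ R) ([c1] ++ [c2]) := hgood
    obtain ⟨c, hc⟩ := good_insert hN hZ hW hV hVp hVq hgood'
    exact hr (rank_growth hN hZ hW hR hV hVp hVq hVR h1 h2 r [c1] [c2] (by simp) (by simp) hgood'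
      Set.univ df_univ (fun g _ _ => Set.smul_set_univ) c hc (Set.mem_univ _))

/-- The symmetry lemma.  If it fails, up to exchanging the roles we are in the situation of
`rank_growth` (with `X = univ`, `l₁`, `l₂` of length one), contradicting `fr_srt`. -/
theorem harrington (hN : Nice Ω Γ) (hZ : Srt Ω Γ Z) (hW : Srt Ω Γ W)
    (p : Tp Ω Γ Z) (q : Tp Ω Γ W) {R : Set (Z × W)} (hR : Df Ω Γ R) :
    {w : W | {z : Z | (z, w) ∈ R} ∈ p.s} ∈ q.s ↔
      {z : Z | {w : W | (z, w) ∈ R} ∈ q.s} ∈ p.s := by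
  refine ⟨fun h1 => A8b_one hN hZ hW p q hR h1, fun h1 => ?_⟩
  have hR' : Df Ω Γ (Prod.swap ⁻¹' R : Set (W × Z)) := df_preimage (fun g z => rfl) hR
  exact A8b_one hN hW hZ q p hR' h1

end Pool.Agent.Lib.ThC

end
end

section

section

/-! # B1a: polynomially many orbits of pointwise stabilisers, for all sorts -/

set_option autoImplicit false
open scoped Pointwise

namespace Pool.Agent.Lib.ThC

variable {Ω Γ : Type} [Group Γ] [MulAction Γ Ω]
variable {Z : Type} [MulAction Γ Z]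

/-- tuples of elements of `Ω`: at most `(C (|B| + n + 1) ^ d) ^ n` orbits (add one coordinate at
a time, adding it to `B`). -/
theorem poly_tuple (hN : Nice Ω Γ) (n : ℕ) : ∃ C d : ℕ, ∀ B : Finset Ω,
    ∃ F : Finset (Fin n → Ω), F.card ≤ C * (B.card + 1) ^ d ∧
      ∀ z : Fin n → Ω, ∃ f ∈ F, ∃ g : Γ, (∀ b ∈ B, g • b = b) ∧ g • f = z := by
  classical
  obtain ⟨C₁, d₁, h₁⟩ := hN.poly
  induction n with
  | zero =>
    refine ⟨1, 0, fun B => ⟨{fun i => i.elim0}, by simp, fun z => ?_⟩⟩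
    exact ⟨_, Finset.mem_singleton_self _, 1, fun b _ => one_smul _ _, funext fun i => i.elim0⟩
  | succ n ih =>
    obtain ⟨C, d, h⟩ := ih
    refine ⟨C₁ * (C * 2 ^ d), d₁ + d, fun B => ?_⟩
    obtain ⟨F₁, hF₁, hF₁'⟩ := h₁ B
    choose F' hF' hF'' using fun x : Ω => h (insert x B)
    refine ⟨F₁.biUnion (fun x => (F' x).image (fun f => (Fin.cons x f : Fin (n + 1) → Ω))),
      ?_, ?_⟩
    · have hb : ∀ x ∈ F₁, ((F' x).image (fun f => (Fin.cons x f : Fin (n + 1) → Ω))).card ≤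
          C * 2 ^ d * (B.card + 1) ^ d := by
        intro x _
        calc ((F' x).image (fun f => (Fin.cons x f : Fin (n + 1) → Ω))).card ≤ (F' x).card :=
              Finset.card_image_le
          _ ≤ C * ((insert x B).card + 1) ^ d := hF' x
          _ ≤ C * (2 * (B.card + 1)) ^ d := by
              have : (insert x B).card ≤ B.card + 1 := Finset.card_insert_le _ _
              gcongr
              omega
          _ = C * 2 ^ d * (B.card + 1) ^ d := by rw [mul_pow]; ring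
      calc (F₁.biUnion _).card ≤ F₁.card * (C * 2 ^ d * (B.card + 1) ^ d) :=
            Finset.card_biUnion_le_card_mul _ _ _ hb
        _ ≤ C₁ * (B.card + 1) ^ d₁ * (C * 2 ^ d * (B.card + 1) ^ d) := by gcongr
        _ = C₁ * (C * 2 ^ d) * (B.card + 1) ^ (d₁ + d) := by rw [pow_add]; ring
    · intro z
      obtain ⟨f₁, hf₁, g, hg, hgf⟩ := hF₁' (z 0)
      obtain ⟨f', hf', k, hk, hkf⟩ := hF'' f₁ (g⁻¹ • (Fin.tail z))
      refine ⟨Fin.cons f₁ f', ?_, g * k, ?_, ?_⟩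
      · exact Finset.mem_biUnion.2 ⟨f₁, hf₁, Finset.mem_image.2 ⟨f', hf', rfl⟩⟩
      · intro b hb
        rw [mul_smul, hk b (Finset.mem_insert_of_mem hb), hg b hb]
      · funext i
        refine Fin.cases ?_ (fun i => ?_) i
        · show (g * k) • (Fin.cons f₁ f' : Fin (n + 1) → Ω) 0 = z 0
          rw [Fin.cons_zero, mul_smul, hk f₁ (Finset.mem_insert_self _ _), hgf]
        · show (g * k) • (Fin.cons f₁ f' : Fin (n + 1) → Ω) i.succ = z i.succ
          rw [Fin.cons_succ, mul_smul]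
          have := congrFun hkf i
          rw [Pi.smul_apply, Pi.smul_apply] at this
          rw [this, smul_inv_smul]
          rfl

end Pool.Agent.Lib.ThC

end

section

/-! # B1b: polynomially many orbits of pointwise stabilisers, for all sorts -/

set_option autoImplicit false
open scoped Pointwise

namespace Pool.Agent.Lib.ThC

variable {Ω Γ : Type} [Group Γ] [MulAction Γ Ω]
variable {Z : Type} [MulAction Γ Z]

/-- for all sorts: `Z` is a finite union of orbits `Γ z_i` with `st z_i ⊇ st b_i`,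
`b_i : Fin n_i → Ω`; a finite `B ⊆ Z` lifts to a finite subset of `Ω` of size
`≤ n |B|`; `U` contains the pointwise stabiliser of a finite subset of `Ω`. -/
theorem poly_srt (hN : Nice Ω Γ) (hZ : Srt Ω Γ Z) {U : Subgroup Γ} (hU : Op Ω U) :
    ∃ C d : ℕ, ∀ B : Finset Z, ∃ F : Finset Z, F.card ≤ C * (B.card + 1) ^ d ∧
      ∀ z : Z, ∃ f ∈ F, z ∈ orb (U ⊓ fixingSubgroup Γ (B : Set Z)) f := by
  classical
  obtain ⟨A0, hA0⟩ := hU
  obtain ⟨F0, hF0⟩ := hZ.fo
  have hsm := hZ.sm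
  choose A hA using hsm
  choose r hrF g hg using hF0
  choose C d hCd using fun n => poly_tuple hN n
  choose F' hF'c hF' using hCd
  -- the tuple enumerating `A z`
  let t : ∀ z : Z, Fin (A z).card → Ω := fun z i => ((A z).equivFin.symm i : Ω)
  have ht : ∀ (z : Z) (a : Ω), a ∈ A z → ∃ i, t z i = a := by
    intro z a ha
    refine ⟨(A z).equivFin ⟨a, ha⟩, ?_⟩
    simp [t]
  have key : ∀ (z : Z) (x y : Γ), x • t z = y • t z → x • z = y • z := by
    intro z x y hxy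
    have h1 : y⁻¹ * x ∈ st Γ z := by
      apply hA
      intro a ha
      obtain ⟨i, rfl⟩ := ht z a ha
      have h2 := congrFun hxy i
      simp only [Pi.smul_apply] at h2
      rw [mul_smul, h2, inv_smul_smul]
    have h3 := MulAction.mem_stabilizer_iff.1 h1
    rw [mul_smul] at h3
    exact inv_smul_eq_iff.1 h3
  let k : ∀ z : Z, (Fin (A z).card → Ω) → Γ := fun z f =>
    if h : ∃ x : Γ, x • t z = f then h.choose else 1
  have hk : ∀ (z : Z) (x : Γ), k z (x • t z) • t z = x • t z := by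
    intro z x
    have h : ∃ y : Γ, y • t z = x • t z := ⟨x, rfl⟩
    simp only [k, dif_pos h]
    exact h.choose_spec
  let N : ℕ := ∑ z ∈ F0, (A z).card
  let M : ℕ := A0.card + N + 1
  let D : ℕ := ∑ z ∈ F0, d (A z).card
  refine ⟨∑ z ∈ F0, C (A z).card * M ^ d (A z).card, D, fun B => ?_⟩
  let B' : Finset Ω := A0 ∪ B.biUnion fun b => (A (r b)).image fun a => g b • a
  have hB'c : B'.card + 1 ≤ M * (B.card + 1) := by
    have h1 : (B.biUnion fun b => (A (r b)).image fun a => g b • a).card ≤ B.card * N := by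
      refine (Finset.card_biUnion_le).trans ?_
      rw [← smul_eq_mul, ← Finset.sum_const]
      refine Finset.sum_le_sum fun b _ => Finset.card_image_le.trans ?_
      exact Finset.single_le_sum (f := fun z => (A z).card) (fun _ _ => Nat.zero_le _) (hrF b)
    have h2 : B'.card ≤ A0.card + B.card * N := (Finset.card_union_le _ _).trans
      (Nat.add_le_add_left h1 _)
    have h3 : M * (B.card + 1) = A0.card * B.card + A0.card + B.card * N + N + B.card + 1 := by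
      simp only [M]; ring
    have h4 : 0 ≤ A0.card * B.card := Nat.zero_le _
    omega
  have hB'fix : ∀ x : Γ, (∀ b ∈ B', x • b = b) → x ∈ U ⊓ fixingSubgroup Γ (B : Set Z) := by
    intro x hx
    refine Subgroup.mem_inf.2 ⟨hA0 x fun a ha => hx a (Finset.mem_union_left _ ha), ?_⟩
    rw [mem_fixingSubgroup_iff]
    intro b hb
    have h1 : (g b)⁻¹ * x * g b ∈ st Γ (r b) := by
      apply hA
      intro a ha
      have h2 : x • (g b • a) = g b • a := hx _ (Finset.mem_union_right _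
        (Finset.mem_biUnion.2 ⟨b, hb, Finset.mem_image.2 ⟨a, ha, rfl⟩⟩))
      rw [mul_smul, mul_smul, h2, inv_smul_smul]
    have h3 := MulAction.mem_stabilizer_iff.1 h1
    rw [mul_smul, mul_smul, hg b] at h3
    rw [inv_smul_eq_iff.1 h3, hg b]
  refine ⟨F0.biUnion fun z => (F' (A z).card B').image fun f => k z f • z, ?_, ?_⟩
  · refine Finset.card_biUnion_le.trans ?_
    rw [Finset.sum_mul]
    refine Finset.sum_le_sum fun z hz => Finset.card_image_le.trans ((hF'c _ B').trans ?_)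
    rw [mul_assoc]
    refine Nat.mul_le_mul_left _ ?_
    refine (Nat.pow_le_pow_left hB'c _).trans ?_
    rw [mul_pow]
    refine Nat.mul_le_mul_left _ (Nat.pow_le_pow_right (Nat.succ_pos _) ?_)
    exact Finset.single_le_sum (f := fun z => d (A z).card) (fun _ _ => Nat.zero_le _) hz
  · intro z
    obtain ⟨f, hf, x, hx, hxf⟩ := hF' (A (r z)).card B' (g z • t (r z))
    refine ⟨k (r z) f • r z, Finset.mem_biUnion.2 ⟨r z, hrF z, Finset.mem_image.2 ⟨f, hf, rfl⟩⟩,
      x, hB'fix x hx, ?_⟩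
    have h1 : f = (x⁻¹ * g z) • t (r z) := by
      rw [mul_smul, ← hxf, inv_smul_smul]
    have h2 := hk (r z) (x⁻¹ * g z)
    rw [← h1] at h2
    have h3 : (x * k (r z) f) • t (r z) = g z • t (r z) := by
      rw [mul_smul, h2, ← hxf]
    have h4 := key (r z) _ _ h3
    rw [mul_smul, hg z] at h4
    exact h4

end Pool.Agent.Lib.ThC

end
end

section

section

/-! # M0: definitions for part M -/

set_option autoImplicit false
open scoped Pointwise

namespace Pool.Agent.Lib.ThC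

variable {Ω Γ : Type} [Group Γ] [MulAction Γ Ω]
variable {Z W : Type} [MulAction Γ Z] [MulAction Γ W]

/-- `l`-homogeneity: the orbit of a tuple is determined by the orbits of its subtuples of
length `l`. -/
def FH (Ω Γ : Type) [Group Γ] [MulAction Γ Ω] (l : ℕ) : Prop :=
  ∀ (k : ℕ) (x y : Fin k → Ω),
    (∀ f : Fin l → Fin k, ∃ g : Γ, g • (x ∘ f) = y ∘ f) → ∃ g : Γ, g • x = y

/-- the basic tests: the subtuple `f` of `(a, z)` is in the orbit of `o`. -/
def tst (Γ : Type) {Ω : Type} [Group Γ] [MulAction Γ Ω] {l k : ℕ} (a o : Fin l → Ω)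
    (f : Fin l → Fin l ⊕ Fin k) : Set (Fin k → Ω) :=
  {z | ∃ g : Γ, g • o = Sum.elim a z ∘ f}

/-- the 2-rank with respect to the tests. -/
def T2GE (Γ : Type) {Ω : Type} [Group Γ] [MulAction Γ Ω] (l : ℕ) {k : ℕ} :
    ℕ → Set (Fin k → Ω) → Prop
  | 0, X => X.Nonempty
  | (r + 1), X => ∃ (a o : Fin l → Ω) (f : Fin l → Fin l ⊕ Fin k),
      T2GE Γ l r (X ∩ tst Γ a o f) ∧ T2GE Γ l r (X \ tst Γ a o f)

/-- the image of a type under an equivariant map. -/
def Tp.map (f : Z → W) (hf : ∀ (g : Γ) (z : Z), f (g • z) = g • f z) (p : Tp Ω Γ Z) :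
    Tp Ω Γ W where
  s := {X | Df Ω Γ X ∧ f ⁻¹' X ∈ p.s}
  df := fun _ hX => hX.1
  univ := ⟨df_univ, by simpa using p.univ⟩
  inter := fun X hX Y hY => ⟨df_inter hX.1 hY.1, by simpa using p.inter _ hX.2 _ hY.2⟩
  up := fun X hX Y hY h => ⟨hY, p.up _ hX.2 _ (df_preimage hf hY) (Set.preimage_mono h)⟩
  ne := fun h => p.ne (by simpa using h.2)
  ult := fun X hX => by
    rcases p.ult _ (df_preimage hf hX) with h | h
    · exact Or.inl ⟨hX, h⟩
    · exact Or.inr ⟨df_compl hX, by simpa using h⟩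

theorem mem_map_tp {f : Z → W} {hf : ∀ (g : Γ) (z : Z), f (g • z) = g • f z}
    {p : Tp Ω Γ Z} {X : Set W} : X ∈ (p.map f hf).s ↔ Df Ω Γ X ∧ f ⁻¹' X ∈ p.s := Iff.rfl

end Pool.Agent.Lib.ThC

end

section

/-! # M1a: finitely homogeneous implies oligomorphic -/

set_option autoImplicit false
open scoped Pointwise

namespace Pool.Agent.Lib.ThC

variable {Ω Γ : Type} [Group Γ] [MulAction Γ Ω]
variable {Z W : Type} [MulAction Γ Z] [MulAction Γ W]

/-- a map to a finite type which separates orbits. -/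
theorem fo_of_map {κ : Type} [Finite κ] (φ : Z → κ)
    (h : ∀ z z' : Z, φ z = φ z' → ∃ g : Γ, g • z = z') : FO Γ Z := by
  classical
  let _ : Fintype (Set.range φ) := Fintype.ofFinite _
  refine ⟨Finset.univ.image (fun c : Set.range φ => Classical.choose c.2), fun z => ?_⟩
  have hz := Classical.choose_spec (⟨φ z, z, rfl⟩ : Set.range φ).2
  exact ⟨_, Finset.mem_image_of_mem _ (Finset.mem_univ (⟨φ z, z, rfl⟩ : Set.range φ)), h _ _ hz⟩

/-- conversely finitely many orbits: a map to a finite type whose fibers are the orbits. -/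
theorem exists_orb_map (h : FO Γ Z) :
    ∃ (κ : Type) (_ : Finite κ) (φ : Z → κ), ∀ z z' : Z, φ z = φ z' ↔ ∃ g : Γ, g • z = z' := by
  classical
  obtain ⟨F, hF⟩ := h
  refine ⟨MulAction.orbitRel.Quotient Γ Z, ?_, fun z => Quotient.mk _ z, ?_⟩
  · refine Finite.of_surjective (fun f : F => (Quotient.mk _ f.1 : MulAction.orbitRel.Quotient Γ Z)) ?_
    intro q
    induction q using Quotient.inductionOn with
    | h z =>
      obtain ⟨f, hf, g, hg⟩ := hF z
      refine ⟨⟨f, hf⟩, Quotient.sound ?_⟩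
      show MulAction.orbitRel Γ Z f z
      rw [MulAction.orbitRel_apply]
      exact ⟨g⁻¹, by simp only; rw [← hg, inv_smul_smul]⟩
  · intro z z'
    constructor
    · intro h
      have h' : MulAction.orbitRel Γ Z z z' := Quotient.exact h
      rw [MulAction.orbitRel_apply] at h'
      obtain ⟨g, hg⟩ := h'
      simp only at hg
      exact ⟨g⁻¹, by rw [← hg, inv_smul_smul]⟩
    · rintro ⟨g, hg⟩
      refine Quotient.sound ?_
      show MulAction.orbitRel Γ Z z z'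
      rw [MulAction.orbitRel_apply]
      exact ⟨g⁻¹, by simp only; rw [← hg, inv_smul_smul]⟩

/-- (N1) map `x` to `f ↦ orbit of x ∘ f`. -/
theorem olig_of_fh {l : ℕ} (hFO : FO Γ (Fin l → Ω)) (hFH : FH Ω Γ l) (k : ℕ) :
    FO Γ (Fin k → Ω) := by
  obtain ⟨κ, _, φ, hφ⟩ := exists_orb_map hFO
  refine fo_of_map (κ := (Fin l → Fin k) → κ) (fun x f => φ (x ∘ f)) ?_
  intro x y hxy
  exact hFH k x y (fun f => (hφ _ _).1 (congrFun hxy f))

end Pool.Agent.Lib.ThC

end

section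

/-! # M1b: finitely many orbits of open subgroups -/

set_option autoImplicit false
open scoped Pointwise

namespace Pool.Agent.Lib.ThC

variable {Ω Γ : Type} [Group Γ] [MulAction Γ Ω]
variable {Z W : Type} [MulAction Γ Z] [MulAction Γ W]

theorem M1b_reps {κ : Type} [Finite κ] (φ : Z → κ) :
    ∃ F : Finset Z, ∀ z, ∃ f ∈ F, φ f = φ z := by
  classical
  let _ : Fintype (Set.range φ) := Fintype.ofFinite _
  refine ⟨Finset.univ.image (fun c : Set.range φ => Classical.choose c.2), fun z => ?_⟩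
  have hz := Classical.choose_spec (⟨φ z, z, rfl⟩ : Set.range φ).2
  exact ⟨_, Finset.mem_image_of_mem _ (Finset.mem_univ (⟨φ z, z, rfl⟩ : Set.range φ)), hz⟩

/-- an open subgroup has finitely many orbits on tuples.  `U` contains the stabiliser of a tuple
`a : Fin m → Ω` enumerating a finite set; map `z` to the orbit of `Fin.append a z`. -/
theorem fin_orb_open (hO : ∀ n : ℕ, FO Γ (Fin n → Ω)) {U : Subgroup Γ} (hU : Op Ω U) (k : ℕ) :
    ∃ F : Finset (Fin k → Ω), ∀ z, ∃ f ∈ F, z ∈ orb U f := by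
  classical
  obtain ⟨A, hA⟩ := hU
  let a : Fin A.card → Ω := fun i => (A.equivFin.symm i : Ω)
  have ha : ∀ b ∈ A, ∃ i, a i = b := by
    intro b hb
    exact ⟨A.equivFin ⟨b, hb⟩, by simp [a]⟩
  obtain ⟨κ, _, φ, hφ⟩ := exists_orb_map (hO (A.card + k))
  obtain ⟨F, hF⟩ := M1b_reps (fun z : Fin k → Ω => φ (Fin.append a z))
  refine ⟨F, fun z => ?_⟩
  obtain ⟨f, hf, hfz⟩ := hF z
  obtain ⟨g, hg⟩ := (hφ _ _).1 hfz
  refine ⟨f, hf, g, hA g (fun b hb => ?_), ?_⟩
  · obtain ⟨i, rfl⟩ := ha b hb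
    have := congrFun hg (Fin.castAdd k i)
    simpa using this
  · funext i
    have := congrFun hg (Fin.natAdd A.card i)
    simpa using this

/-- finitely many orbits pass to equivariant images (of a subset). -/
theorem fin_orb_of_surj {f : Z → W} (hf : ∀ (g : Γ) (z : Z), f (g • z) = g • f z)
    (hs : Function.Surjective f) {U : Subgroup Γ}
    (h : ∃ F : Finset Z, ∀ z, ∃ f ∈ F, z ∈ orb U f) :
    ∃ F : Finset W, ∀ w, ∃ f ∈ F, w ∈ orb U f := by
  classical
  obtain ⟨F, hF⟩ := h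
  refine ⟨F.image f, fun w => ?_⟩
  obtain ⟨z, rfl⟩ := hs w
  obtain ⟨y, hy, g, hg, rfl⟩ := hF z
  exact ⟨f y, Finset.mem_image_of_mem _ hy, g, hg, (hf g y).symm⟩

end Pool.Agent.Lib.ThC

end

section

/-! # M2a: existence of types -/

set_option autoImplicit false
open scoped Pointwise

namespace Pool.Agent.Lib.ThC

variable {Ω Γ : Type} [Group Γ] [MulAction Γ Ω]
variable {Z W : Type} [MulAction Γ Z] [MulAction Γ W]

/-- (N2) take an ultrafilter on the type `Z` containing all `C n`. -/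
theorem exists_tp_of_seq (C : ℕ → Set Z) (hdf : ∀ n, Df Ω Γ (C n))
    (hne : ∀ n, (C n).Nonempty) (hanti : ∀ n, C (n + 1) ⊆ C n) :
    ∃ p : Tp Ω Γ Z, ∀ n, C n ∈ p.s := by
  have hC : Antitone C := antitone_nat_of_succ_le hanti
  have hdir : Directed (· ≥ ·) (fun n => Filter.principal (C n)) := by
    intro m n
    refine ⟨max m n, ?_, ?_⟩
    · exact Filter.principal_mono.2 (hC (le_max_left m n))
    · exact Filter.principal_mono.2 (hC (le_max_right m n))
  have : (⨅ n, Filter.principal (C n)).NeBot :=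
    Filter.iInf_neBot_of_directed' hdir (fun n => Filter.principal_neBot_iff.2 (hne n))
  let 𝓕 : Ultrafilter Z := Ultrafilter.of (⨅ n, Filter.principal (C n))
  have h𝓕 : ∀ n, C n ∈ 𝓕 := fun n =>
    Ultrafilter.of_le (⨅ n, Filter.principal (C n))
      (Filter.mem_iInf_of_mem n (Filter.mem_principal_self (C n)))
  refine ⟨{ s := {X | Df Ω Γ X ∧ X ∈ 𝓕}
            df := fun X hX => hX.1
            univ := ⟨df_univ, Filter.univ_mem⟩
            inter := fun X hX Y hY => ⟨df_inter hX.1 hY.1, Filter.inter_mem hX.2 hY.2⟩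
            up := fun X hX Y hY h => ⟨hY, Filter.mem_of_superset hX.2 h⟩
            ne := fun h => Ultrafilter.empty_notMem h.2
            ult := fun X hX => by
              rcases 𝓕.mem_or_compl_mem X with h | h
              · exact Or.inl ⟨hX, h⟩
              · exact Or.inr ⟨df_compl hX, h⟩ }, fun n => ⟨hdf n, h𝓕 n⟩⟩

end Pool.Agent.Lib.ThC

end

section

/-! # M2b: a Cantor scheme gives uncountably many types -/

set_option autoImplicit false
open scoped Pointwise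

namespace Pool.Agent.Lib.ThC

variable {Ω Γ : Type} [Group Γ] [MulAction Γ Ω]
variable {Z W : Type} [MulAction Γ Z] [MulAction Γ W]

/-- a binary tree of nonempty definable sets gives uncountably many types: choose functions
`X ↦ X₀, X₁` on `{X // P X}`, build for `β : ℕ → Bool` the decreasing sequence of the branch `β`
and a type `p β` by `exists_tp_of_seq`; `p` is injective (look at the first difference). -/
theorem not_countable_of_scheme (P : Set Z → Prop) (h0 : ∃ X, P X)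
    (hdf : ∀ X, P X → Df Ω Γ X ∧ X.Nonempty)
    (hs : ∀ X, P X → ∃ X₀ X₁, P X₀ ∧ P X₁ ∧ X₀ ⊆ X ∧ X₁ ⊆ X ∧ Disjoint X₀ X₁) :
    ¬ Countable (Tp Ω Γ Z) := by
  intro hc
  have h1 : ∀ X : {X : Set Z // P X}, ∃ s : Bool → {X : Set Z // P X},
      (∀ b, (s b).1 ⊆ X.1) ∧ Disjoint (s false).1 (s true).1 := by
    rintro ⟨X, hX⟩
    obtain ⟨X₀, X₁, hP0, hP1, hs0, hs1, hd⟩ := hs X hX
    refine ⟨fun b => if b = true then ⟨X₁, hP1⟩ else ⟨X₀, hP0⟩, ?_, ?_⟩
    · intro b
      cases b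
      · simpa using hs0
      · simpa using hs1
    · simpa using hd
  choose s hs1 hs2 using h1
  obtain ⟨X₀, hX₀⟩ := h0
  let sq : (ℕ → Bool) → ℕ → {X : Set Z // P X} := fun β n =>
    Nat.rec (⟨X₀, hX₀⟩ : {X : Set Z // P X}) (fun m X => s X (β m)) n
  have hsq0 : ∀ β, sq β 0 = ⟨X₀, hX₀⟩ := fun _ => rfl
  have hsqs : ∀ β n, sq β (n + 1) = s (sq β n) (β n) := fun _ _ => rfl
  have h2 : ∀ β : ℕ → Bool, ∃ p : Tp Ω Γ Z, ∀ n, (sq β n).1 ∈ p.s := by
    intro β
    refine exists_tp_of_seq (fun n => (sq β n).1) (fun n => (hdf _ (sq β n).2).1)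
      (fun n => (hdf _ (sq β n).2).2) ?_
    intro n
    rw [hsqs]
    exact hs1 _ _
  choose p hp using h2
  have hinj : Function.Injective p := by
    intro β β' hββ
    by_contra hne
    have hex : ∃ n, β n ≠ β' n := by
      by_contra hno
      push Not at hno
      exact hne (funext hno)
    classical
    have hn : β (Nat.find hex) ≠ β' (Nat.find hex) := Nat.find_spec hex
    have hlt : ∀ m < Nat.find hex, β m = β' m := by
      intro m hm
      have := Nat.find_min hex hm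
      push Not at this
      exact this
    have heq : ∀ m ≤ Nat.find hex, sq β m = sq β' m := by
      intro m
      induction m with
      | zero => intro _; rfl
      | succ m ih =>
        intro hm
        rw [hsqs, hsqs, ih (by omega), hlt m (by omega)]
    have h3 := hp β (Nat.find hex + 1)
    have h4 := hp β' (Nat.find hex + 1)
    rw [← hββ] at h4
    rw [hsqs] at h3 h4
    rw [← heq _ le_rfl] at h4
    have h5 := (p β).inter _ h3 _ h4
    apply (p β).ne
    convert h5 using 1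
    symm
    rw [← Set.disjoint_iff_inter_eq_empty]
    have hd := hs2 (sq β (Nat.find hex))
    cases hb : β (Nat.find hex) <;> cases hb' : β' (Nat.find hex)
    · rw [hb, hb'] at hn; exact absurd rfl hn
    · exact hd
    · exact hd.symm
    · rw [hb, hb'] at hn; exact absurd rfl hn
  have hcb : Countable (ℕ → Bool) := hinj.countable
  obtain ⟨f, hf⟩ := exists_surjective_nat (ℕ → Bool)
  obtain ⟨n, hn⟩ := hf (fun n => !(f n n))
  have := congrFun hn n
  simp at this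

end Pool.Agent.Lib.ThC

end

section

/-! # M2c: types and equivariant maps -/

set_option autoImplicit false
open scoped Pointwise

namespace Pool.Agent.Lib.ThC

variable {Ω Γ : Type} [Group Γ] [MulAction Γ Ω]
variable {Z W : Type} [MulAction Γ Z] [MulAction Γ W]

/-- for `f` injective `X ∈ p ↔ f '' X ∈ p.map f` (with `df_image`). -/
theorem map_tp_injective {f : Z → W} (hf : ∀ (g : Γ) (z : Z), f (g • z) = g • f z)
    (hi : Function.Injective f) :
    Function.Injective (Tp.map (Ω := Ω) f hf) := by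
  intro p q h
  refine tp_eq_of_le (fun X hX => ?_)
  have h1 : f '' X ∈ (p.map f hf).s :=
    ⟨df_image hf (p.df X hX), by rw [Set.preimage_image_eq X hi]; exact hX⟩
  rw [h] at h1
  have h2 := h1.2
  rwa [Set.preimage_image_eq X hi] at h2

theorem countable_tp_of_inj {f : Z → W} (hf : ∀ (g : Γ) (z : Z), f (g • z) = g • f z)
    (hi : Function.Injective f) (h : Countable (Tp Ω Γ W)) : Countable (Tp Ω Γ Z) := by
  exact (map_tp_injective (Ω := Ω) hf hi).countable

theorem isEmpty_tp [IsEmpty Z] : IsEmpty (Tp Ω Γ Z) := by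
  refine ⟨fun p => p.ne ?_⟩
  have h := p.univ
  rwa [Set.univ_eq_empty_iff.2 inferInstance] at h

theorem subsingleton_tp [Subsingleton Z] : Subsingleton (Tp Ω Γ Z) := by
  refine ⟨fun p q => tp_eq_of_le (fun X hX => ?_)⟩
  have hne : X.Nonempty := by
    rw [Set.nonempty_iff_ne_empty]
    intro h
    exact p.ne (h ▸ hX)
  rw [Subsingleton.eq_univ_of_nonempty hne]
  exact q.univ

/-- if `U` is open with finitely many orbits then every type contains a `U`-orbit. -/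
theorem tp_exists_orb' {U : Subgroup Γ} (hU : Op Ω U)
    (h : ∃ F : Finset Z, ∀ z, ∃ f ∈ F, z ∈ orb U f) (p : Tp Ω Γ Z) : ∃ z : Z, orb U z ∈ p.s := by
  obtain ⟨F, hF⟩ := h
  have hu : (⋃ f : ↥F, orb U f.1) = Set.univ := by
    refine Set.eq_univ_of_forall (fun z => ?_)
    obtain ⟨f, hf, hz⟩ := hF z
    exact Set.mem_iUnion.2 ⟨⟨f, hf⟩, hz⟩
  have h1 : (⋃ f : ↥F, orb U f.1) ∈ p.s := by
    rw [hu]
    exact p.univ
  obtain ⟨f, hf⟩ := tp_iUnion (fun f : ↥F => df_orb hU f.1) h1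
  exact ⟨f.1, hf⟩

end Pool.Agent.Lib.ThC

end

section

/-! # M3a: a cofinal chain of open subgroups -/

set_option autoImplicit false
open scoped Pointwise

namespace Pool.Agent.Lib.ThC

variable {Ω Γ : Type} [Group Γ] [MulAction Γ Ω]
variable {Z W : Type} [MulAction Γ Z] [MulAction Γ W]

/-- stabilisers of the first `n` elements in an enumeration of `Ω`. -/
theorem exists_chain (Ω Γ : Type) [Group Γ] [MulAction Γ Ω] [Countable Ω] :
    ∃ Δ : ℕ → Subgroup Γ, (∀ n, Op Ω (Δ n)) ∧ (∀ n, Δ (n + 1) ≤ Δ n) ∧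
      ∀ U : Subgroup Γ, Op Ω U → ∃ n, Δ n ≤ U := by
  classical
  rcases isEmpty_or_nonempty Ω with hΩ | hΩ
  · refine ⟨fun _ => ⊤, fun _ => op_top, fun _ => le_rfl, ?_⟩
    rintro U ⟨A, hA⟩
    exact ⟨0, fun g _ => hA g (fun a _ => isEmptyElim a)⟩
  · obtain ⟨e, he⟩ := exists_surjective_nat Ω
    refine ⟨fun n => fixingSubgroup Γ (((Finset.range n).image e : Finset Ω) : Set Ω),
      fun n => op_fix _, fun n => ?_, ?_⟩
    · intro g hg
      rw [mem_fixingSubgroup_iff] at hg ⊢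
      intro y hy
      refine hg y ?_
      simp only [Finset.coe_image, Finset.coe_range, Set.mem_image, Set.mem_Iio] at hy ⊢
      obtain ⟨i, hi, rfl⟩ := hy
      exact ⟨i, by omega, rfl⟩
    · rintro U ⟨A, hA⟩
      choose j hj using he
      refine ⟨A.sup (fun a => j a + 1), fun g hg => hA g (fun a ha => ?_)⟩
      rw [mem_fixingSubgroup_iff] at hg
      refine hg a ?_
      simp only [Finset.coe_image, Finset.coe_range, Set.mem_image, Set.mem_Iio]
      exact ⟨j a, Nat.lt_of_succ_le (Finset.le_sup (f := fun a => j a + 1) ha), hj a⟩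

/-- the orbits in two different types are disjoint for some `n`: there is `X ∈ p`, `X ∉ p'`
definable, hence invariant under some `Δ n`, and `orb (Δ n) v ⊆ X`, `orb (Δ n) v' ⊆ Xᶜ`
(`orb_subset_of_mem`). -/
theorem exists_disj_orb {Δ : ℕ → Subgroup Γ} (hcof : ∀ U : Subgroup Γ, Op Ω U → ∃ n, Δ n ≤ U)
    {p p' : Tp Ω Γ Z} (hne : p ≠ p') {v v' : ℕ → Z} (hv : ∀ n, orb (Δ n) (v n) ∈ p.s)
    (hv' : ∀ n, orb (Δ n) (v' n) ∈ p'.s) :
    ∃ n, Disjoint (orb (Δ n) (v n)) (orb (Δ n) (v' n)) := by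
  have h1 : ∃ X ∈ p.s, X ∉ p'.s := by
    by_contra hcon
    push Not at hcon
    exact hne (tp_eq_of_le hcon)
  obtain ⟨X, hX, hX'⟩ := h1
  have hdf := p.df X hX
  obtain ⟨n, hn⟩ := hcof _ hdf
  refine ⟨n, ?_⟩
  have hinv : ∀ g ∈ Δ n, g • X = X := fun g hg => MulAction.mem_stabilizer_iff.1 (hn hg)
  have hinv' : ∀ g ∈ Δ n, g • Xᶜ = Xᶜ := fun g hg => by
    rw [Set.smul_set_compl, hinv g hg]
  have a1 := orb_subset_of_mem hinv hX (hv n)
  have a2 := orb_subset_of_mem hinv' ((tp_compl hdf).2 hX') (hv' n)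
  exact Set.disjoint_of_subset a1 a2 disjoint_compl_right

end Pool.Agent.Lib.ThC

end

section

/-! # M3b: coherent realisations of a type along a chain -/

set_option autoImplicit false
open scoped Pointwise

namespace Pool.Agent.Lib.ThC

variable {Ω Γ : Type} [Group Γ] [MulAction Γ Ω]
variable {Z W : Type} [MulAction Γ Z] [MulAction Γ W]

/-- choose `b n` with `orb (Δ n) (b n) ∈ q`; then `orb (Δ n) (b (n+1)) = orb (Δ n) (b n)` by
`tp_orb_unique` (it contains `orb (Δ (n+1)) (b (n+1))`), so `u n • b (n+1) = b n` with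
`u n ∈ Δ n`; `g 0 = 1`, `g (n+1) = g n * u n`, so `g n • b n = b 0 =: a` for all `n`. -/
theorem exists_gseq {Δ : ℕ → Subgroup Γ} (hop : ∀ n, Op Ω (Δ n))
    (hanti : ∀ n, Δ (n + 1) ≤ Δ n)
    (hfin : ∀ n, ∃ F : Finset Z, ∀ z, ∃ f ∈ F, z ∈ orb (Δ n) f) (q : Tp Ω Γ Z) :
    ∃ (a : Z) (g : ℕ → Γ), (∀ n, (g n)⁻¹ * g (n + 1) ∈ Δ n) ∧
      ∀ n, orb (Δ n) ((g n)⁻¹ • a) ∈ q.s := by
  have h1 : ∀ n, ∃ z : Z, orb (Δ n) z ∈ q.s := fun n => tp_exists_orb' (hop n) (hfin n) q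
  choose b hb using h1
  have h2 : ∀ n, ∃ u ∈ Δ n, u • b (n + 1) = b n := by
    intro n
    have h3 : orb (Δ n) (b (n + 1)) ∈ q.s :=
      q.up _ (hb (n + 1)) _ (df_orb (hop n) _) (orb_mono (hanti n) _)
    have h4 := tp_orb_unique (hb n) h3
    have h5 : b n ∈ orb (Δ n) (b (n + 1)) := h4 ▸ mem_orb_self _ _
    exact h5
  choose u hu hub using h2
  let g : ℕ → Γ := fun n => Nat.rec (1 : Γ) (fun m x => x * u m) n
  have hg0 : g 0 = 1 := rfl
  have hgs : ∀ n, g (n + 1) = g n * u n := fun _ => rfl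
  have hgb : ∀ n, g n • b n = b 0 := by
    intro n
    induction n with
    | zero => rw [hg0, one_smul]
    | succ n ih => rw [hgs, mul_smul, hub, ih]
  refine ⟨b 0, g, ?_, ?_⟩
  · intro n
    rw [hgs, inv_mul_cancel_left]
    exact hu n
  · intro n
    rw [← hgb n, inv_smul_smul]
    exact hb n

end Pool.Agent.Lib.ThC

end

section

/-! # M3c: the fibers of a type on `Z × W` over a realisation of its projection -/

set_option autoImplicit false
open scoped Pointwise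

namespace Pool.Agent.Lib.ThC

variable {Ω Γ : Type} [Group Γ] [MulAction Γ Ω]
variable {Z W : Type} [MulAction Γ Z] [MulAction Γ W]

/-- `C n = {w | (g n)⁻¹ • (a, w) ∈ orb (Δ n) (v n)}`, the fiber over `a` of
`g n • orb (Δ n) (v n)`, is definable, nonempty and decreasing.
* definable: `df_fiber'` for `g n • orb (Δ n) (v n)`.
* nonempty: the first projection of `orb (Δ n) (v n)` is `orb (Δ n) (v n).1` (`image_orb`) and is
  in `q`, so it is equal to `orb (Δ n) ((g n)⁻¹ • a)` (`tp_orb_unique`); so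
  `((g n)⁻¹ • a, w)` is in `orb (Δ n) (v n)` for some `w`; `g n • w ∈ C n`.
* decreasing: `orb (Δ (n+1)) (v (n+1)) ⊆ orb (Δ n) (v (n+1)) = orb (Δ n) (v n)`, and
  `(g n)⁻¹ • x = ((g n)⁻¹ * g (n+1)) • (g (n+1))⁻¹ • x` with `(g n)⁻¹ * g (n+1) ∈ Δ n`. -/
theorem fiber_seq {Δ : ℕ → Subgroup Γ} (hop : ∀ n, Op Ω (Δ n)) (hanti : ∀ n, Δ (n + 1) ≤ Δ n)
    {q : Tp Ω Γ Z} {a : Z} (ha : Op Ω (st Γ a)) {g : ℕ → Γ}
    (hg : ∀ n, (g n)⁻¹ * g (n + 1) ∈ Δ n) (hq : ∀ n, orb (Δ n) ((g n)⁻¹ • a) ∈ q.s)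
    {p : Tp Ω Γ (Z × W)} (hp : p.map Prod.fst (fun _ _ => rfl) = q) {v : ℕ → Z × W}
    (hv : ∀ n, orb (Δ n) (v n) ∈ p.s) :
    (∀ n, Df Ω Γ {w : W | (g n)⁻¹ • (a, w) ∈ orb (Δ n) (v n)}) ∧
    (∀ n, {w : W | (g n)⁻¹ • (a, w) ∈ orb (Δ n) (v n)}.Nonempty) ∧
    ∀ n, {w : W | (g (n + 1))⁻¹ • (a, w) ∈ orb (Δ (n + 1)) (v (n + 1))} ⊆
      {w : W | (g n)⁻¹ • (a, w) ∈ orb (Δ n) (v n)} := by
  refine ⟨?_, ?_, ?_⟩
  · intro n
    have h1 : Df Ω Γ (g n • orb (Δ n) (v n)) := df_smul _ (df_orb (hop n) _)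
    have h2 := df_fiber' h1 ha
    convert h2 using 1
    ext w
    change (g n)⁻¹ • (a, w) ∈ orb (Δ n) (v n) ↔ (a, w) ∈ g n • orb (Δ n) (v n)
    rw [Set.mem_smul_set_iff_inv_smul_mem]
  · intro n
    have h1 : orb (Δ n) (v n).1 ∈ q.s := by
      rw [← hp, mem_map_tp]
      refine ⟨df_orb (hop n) _, p.up _ (hv n) _ (df_preimage (fun _ _ => rfl)
        (df_orb (hop n) _)) ?_⟩
      rintro x ⟨u, hu, rfl⟩
      exact ⟨u, hu, rfl⟩
    have h2 := tp_orb_unique (hq n) h1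
    have h3 : (g n)⁻¹ • a ∈ orb (Δ n) (v n).1 := h2 ▸ mem_orb_self _ _
    obtain ⟨u, hu, hua⟩ := h3
    refine ⟨g n • u • (v n).2, u, hu, ?_⟩
    apply Prod.ext
    · exact hua
    · change u • (v n).2 = (g n)⁻¹ • g n • u • (v n).2
      rw [inv_smul_smul]
  · intro n w hw
    have h1 : orb (Δ n) (v (n + 1)) ∈ p.s :=
      p.up _ (hv (n + 1)) _ (df_orb (hop n) _) (orb_mono (hanti n) _)
    have h2 := tp_orb_unique (hv n) h1
    change (g n)⁻¹ • (a, w) ∈ orb (Δ n) (v n)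
    rw [h2]
    obtain ⟨u, hu, hua⟩ := hw
    refine ⟨(g n)⁻¹ * g (n + 1) * u, (Δ n).mul_mem (hg n) (hanti n hu), ?_⟩
    rw [mul_smul, hua, mul_smul, smul_inv_smul]

end Pool.Agent.Lib.ThC

end

section

/-! # M3d: countably many types on products -/

set_option autoImplicit false
open scoped Pointwise

namespace Pool.Agent.Lib.ThC

variable {Ω Γ : Type} [Group Γ] [MulAction Γ Ω]
variable {Z W : Type} [MulAction Γ Z] [MulAction Γ W]

/-- the types on `Z × W` with a given projection inject into the types on `W`: let `Φ p` be a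
type containing all `C n` of `fiber_seq` (`exists_tp_of_seq`); if `p ≠ p'` then the sets `C n` of
`p` and `p'` are disjoint for some `n` by `exists_disj_orb`. -/
theorem exists_fiber_map [Countable Ω] (hZ : ∀ z : Z, Op Ω (st Γ z))
    (hfZ : ∀ U : Subgroup Γ, Op Ω U → ∃ F : Finset Z, ∀ z, ∃ f ∈ F, z ∈ orb U f)
    (hfP : ∀ U : Subgroup Γ, Op Ω U → ∃ F : Finset (Z × W), ∀ z, ∃ f ∈ F, z ∈ orb U f)
    (q : Tp Ω Γ Z) :
    ∃ Φ : {p : Tp Ω Γ (Z × W) // p.map Prod.fst (fun _ _ => rfl) = q} → Tp Ω Γ W,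
      Function.Injective Φ := by
  obtain ⟨Δ, hop, hanti, hcof⟩ := exists_chain Ω Γ
  obtain ⟨a, g, hg, hq⟩ := exists_gseq hop hanti (fun n => hfZ _ (hop n)) q
  have h1 : ∀ p : {p : Tp Ω Γ (Z × W) // p.map Prod.fst (fun _ _ => rfl) = q},
      ∃ v : ℕ → Z × W, ∀ n, orb (Δ n) (v n) ∈ p.1.s := by
    intro p
    have h2 : ∀ n, ∃ z : Z × W, orb (Δ n) z ∈ p.1.s :=
      fun n => tp_exists_orb' (hop n) (hfP _ (hop n)) p.1
    choose v hv using h2
    exact ⟨v, hv⟩
  choose v hv using h1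
  have h3 : ∀ p : {p : Tp Ω Γ (Z × W) // p.map Prod.fst (fun _ _ => rfl) = q},
      ∃ r : Tp Ω Γ W, ∀ n, {w : W | (g n)⁻¹ • (a, w) ∈ orb (Δ n) (v p n)} ∈ r.s := by
    intro p
    obtain ⟨c1, c2, c3⟩ := fiber_seq hop hanti (hZ a) hg hq p.2 (hv p)
    exact exists_tp_of_seq _ c1 c2 c3
  choose Φ hΦ using h3
  refine ⟨Φ, ?_⟩
  intro p p' hpp
  by_contra hne
  have hne' : p.1 ≠ p'.1 := fun h => hne (Subtype.ext h)
  obtain ⟨n, hn⟩ := exists_disj_orb hcof hne' (hv p) (hv p')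
  have e1 := hΦ p n
  have e2 := hΦ p' n
  rw [← hpp] at e2
  have e3 := (Φ p).inter _ e1 _ e2
  apply (Φ p).ne
  convert e3 using 1
  symm
  rw [Set.eq_empty_iff_forall_notMem]
  rintro w ⟨hw1, hw2⟩
  exact Set.disjoint_left.1 hn hw1 hw2

theorem countable_tp_prod [Countable Ω] (hZ : ∀ z : Z, Op Ω (st Γ z))
    (hfZ : ∀ U : Subgroup Γ, Op Ω U → ∃ F : Finset Z, ∀ z, ∃ f ∈ F, z ∈ orb U f)
    (hfP : ∀ U : Subgroup Γ, Op Ω U → ∃ F : Finset (Z × W), ∀ z, ∃ f ∈ F, z ∈ orb U f)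
    (h1 : Countable (Tp Ω Γ Z)) (h2 : Countable (Tp Ω Γ W)) : Countable (Tp Ω Γ (Z × W)) := by
  choose Φ hΦ using exists_fiber_map hZ hfZ hfP (W := W)
  have haux : ∀ (p : Tp Ω Γ (Z × W)) (q q' : Tp Ω Γ Z) (h : q = q')
      (hp : p.map Prod.fst (fun _ _ => rfl) = q), Φ q ⟨p, hp⟩ = Φ q' ⟨p, hp.trans h⟩ := by
    rintro p q _ rfl hp
    rfl
  have hinj : Function.Injective (fun p : Tp Ω Γ (Z × W) =>
      ((p.map Prod.fst (fun _ _ => rfl), Φ _ ⟨p, rfl⟩) : Tp Ω Γ Z × Tp Ω Γ W)) := by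
    intro p p' h
    have e1 : p.map Prod.fst (fun _ _ => rfl) = p'.map Prod.fst (fun _ _ => rfl) :=
      congrArg Prod.fst h
    have e2 : Φ _ ⟨p, rfl⟩ = Φ _ ⟨p', rfl⟩ := congrArg Prod.snd h
    rw [haux p _ _ e1 rfl] at e2
    exact congrArg Subtype.val (hΦ _ e2)
  exact hinj.countable

end Pool.Agent.Lib.ThC

end

section

/-! # M3e: countably many types on all powers -/

set_option autoImplicit false
open scoped Pointwise

namespace Pool.Agent.Lib.ThC

variable {Ω Γ : Type} [Group Γ] [MulAction Γ Ω]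
variable {Z W : Type} [MulAction Γ Z] [MulAction Γ W]

/-- (N3) induction on `k`, with `countable_tp_of_inj` for `(Fin (k+1) → Ω) → (Fin k → Ω) × Ω`
and `Ω → (Fin 1 → Ω)`. -/
theorem countable_tp_tuple [Countable Ω] (hO : ∀ n : ℕ, FO Γ (Fin n → Ω))
    (h1 : Countable (Tp Ω Γ (Fin 1 → Ω))) (k : ℕ) : Countable (Tp Ω Γ (Fin k → Ω)) := by
  have hop : ∀ (k : ℕ) (z : Fin k → Ω), Op Ω (st Γ z) := by
    intro k z
    classical
    refine ⟨Finset.univ.image z, fun g hg => ?_⟩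
    rw [MulAction.mem_stabilizer_iff]
    funext i
    exact hg (z i) (Finset.mem_image_of_mem _ (Finset.mem_univ i))
  have hΩ : Countable (Tp Ω Γ Ω) := by
    refine countable_tp_of_inj (f := fun ω : Ω => (fun _ : Fin 1 => ω)) (fun g z => rfl) ?_ h1
    intro a b hab
    exact congrFun hab 0
  induction k with
  | zero =>
    have := subsingleton_tp (Ω := Ω) (Γ := Γ) (Z := Fin 0 → Ω)
    infer_instance
  | succ k ih =>
    have hprod : Countable (Tp Ω Γ ((Fin k → Ω) × Ω)) := by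
      refine countable_tp_prod (hop k) (fun U hU => fin_orb_open hO hU k) (fun U hU => ?_) ih hΩ
      refine fin_orb_of_surj (f := fun z : Fin (k + 1) → Ω => ((fun i : Fin k => z i.castSucc), z (Fin.last k)))
        (fun g z => rfl) ?_ (fin_orb_open hO hU (k + 1))
      rintro ⟨z, w⟩
      exact ⟨Fin.snoc (α := fun _ => Ω) z w, by simp⟩
    refine countable_tp_of_inj
      (f := fun z : Fin (k + 1) → Ω => ((fun i : Fin k => z i.castSucc), z (Fin.last k)))
      (fun g z => rfl) ?_ hprod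
    intro z z' h
    simp only [Prod.mk.injEq] at h
    funext i
    refine Fin.lastCases h.2 (fun i => congrFun h.1 i) i

end Pool.Agent.Lib.ThC

end

section

/-! # M4a: tests and the 2-rank, basic facts -/

set_option autoImplicit false
open scoped Pointwise

namespace Pool.Agent.Lib.ThC

variable {Ω Γ : Type} [Group Γ] [MulAction Γ Ω] {l k : ℕ}

private theorem M4a_elim_smul (g : Γ) (a : Fin l → Ω) (z : Fin k → Ω)
    (f : Fin l → Fin l ⊕ Fin k) :
    Sum.elim (g • a) (g • z) ∘ f = g • (Sum.elim a z ∘ f) := by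
  funext i
  simp only [Function.comp_apply, Pi.smul_apply]
  rcases f i with j | j <;> rfl

theorem smul_tst (g : Γ) (a o : Fin l → Ω) (f : Fin l → Fin l ⊕ Fin k) :
    g • tst Γ a o f = tst Γ (g • a) o f := by
  ext x
  rw [Set.mem_smul_set_iff_inv_smul_mem]
  constructor
  · rintro ⟨h, hh⟩
    refine ⟨g * h, ?_⟩
    rw [mul_smul, hh, ← M4a_elim_smul, smul_inv_smul]
  · rintro ⟨h, hh⟩
    refine ⟨g⁻¹ * h, ?_⟩
    rw [mul_smul, hh, ← M4a_elim_smul, inv_smul_smul]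

theorem tst_congr (g : Γ) (a o : Fin l → Ω) (f : Fin l → Fin l ⊕ Fin k) :
    tst Γ a (g • o) f = tst Γ a o f := by
  ext x
  constructor
  · rintro ⟨h, hh⟩
    exact ⟨h * g, by rw [mul_smul, hh]⟩
  · rintro ⟨h, hh⟩
    exact ⟨h * g⁻¹, by rw [mul_smul, inv_smul_smul, hh]⟩

/-- `st (fun i ↦ a i)` is open. -/
theorem df_tst (a o : Fin l → Ω) (f : Fin l → Fin l ⊕ Fin k) : Df Ω Γ (tst Γ a o f) := by
  classical
  refine ⟨Finset.univ.image a, ?_⟩
  intro g hg
  have ha : g • a = a := by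
    funext i
    exact hg (a i) (Finset.mem_image_of_mem a (Finset.mem_univ i))
  show g • tst Γ a o f = tst Γ a o f
  rw [smul_tst, ha]

theorem T2GE_mono {r : ℕ} {X Y : Set (Fin k → Ω)} (h : T2GE Γ l r X) (hXY : X ⊆ Y) :
    T2GE Γ l r Y := by
  induction r generalizing X Y with
  | zero => exact Set.Nonempty.mono hXY h
  | succ r ih =>
    obtain ⟨a, o, f, h1, h2⟩ := h
    exact ⟨a, o, f, ih h1 (Set.inter_subset_inter_left _ hXY), ih h2 (Set.sdiff_subset_sdiff_left hXY)⟩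

theorem T2GE_anti {r s : ℕ} (hrs : r ≤ s) {X : Set (Fin k → Ω)} (h : T2GE Γ l s X) :
    T2GE Γ l r X := by
  induction s, hrs using Nat.le_induction with
  | base => exact h
  | succ s _ ih =>
    obtain ⟨a, o, f, h1, _⟩ := h
    exact ih (T2GE_mono h1 Set.inter_subset_left)

theorem T2GE_smul {r : ℕ} (g : Γ) {X : Set (Fin k → Ω)} (h : T2GE Γ l r X) :
    T2GE Γ l r (g • X) := by
  induction r generalizing X with
  | zero => exact Set.Nonempty.smul_set h
  | succ r ih =>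
    obtain ⟨a, o, f, h1, h2⟩ := h
    refine ⟨g • a, o, f, ?_, ?_⟩
    · rw [← smul_tst, ← Set.smul_set_inter]
      exact ih h1
    · rw [← smul_tst, ← Set.smul_set_sdiff]
      exact ih h2

end Pool.Agent.Lib.ThC

end

section

/-! # M4b: tests separate orbits -/

set_option autoImplicit false
open scoped Pointwise

namespace Pool.Agent.Lib.ThC

variable {Ω Γ : Type} [Group Γ] [MulAction Γ Ω] {l k : ℕ}

private theorem M4b_key {m : ℕ} (b : Fin m → Ω) (ω : Ω) (f₀ : Fin l → Fin (m + k))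
    (w : Fin k → Ω) :
    Sum.elim (fun i : Fin l => Fin.addCases (motive := fun _ => Ω) (fun j => b j) (fun _ => ω)
        (f₀ i)) w ∘
      (fun i : Fin l => Fin.addCases (motive := fun _ => Fin l ⊕ Fin k) (fun _ => Sum.inl i)
        (fun j => Sum.inr j) (f₀ i)) = Fin.append b w ∘ f₀ := by
  funext i
  simp only [Function.comp_apply]
  have hcase : (∃ j, f₀ i = Fin.castAdd k j) ∨ (∃ j, f₀ i = Fin.natAdd m j) := by
    refine Fin.addCases (motive := fun x => (∃ j, x = Fin.castAdd k j) ∨ (∃ j, x = Fin.natAdd m j))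
      ?_ ?_ (f₀ i)
    · intro j; exact Or.inl ⟨j, rfl⟩
    · intro j; exact Or.inr ⟨j, rfl⟩
  rcases hcase with ⟨j, hj⟩ | ⟨j, hj⟩
  · simp [hj]
  · simp [hj]

/-- (N4a) two tuples which are not conjugate over the finite set `A` are separated by a test which
is invariant under the pointwise stabiliser of `A`, with parameters in `A`.
Enumerate `A` as `b : Fin m → Ω`; `Fin.append b z` and `Fin.append b z'` are not conjugate (an
element conjugating them fixes `A` pointwise), so by `FH` there is `f₀ : Fin l → Fin (m + k)` with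
`Fin.append b z ∘ f₀`, `Fin.append b z' ∘ f₀` not conjugate.  Put `f i = inl i`, `a i = b j` if
`f₀ i` is the `j`-th element of the first block, `f i = inr j`, `a i` = any element of `A` if it is
the `j`-th element of the second block; `o = Sum.elim a z ∘ f`. -/
theorem exists_sep_tst (hFH : FH Ω Γ l) {A : Finset Ω} (hA : A.Nonempty) {z z' : Fin k → Ω}
    (h : ¬ ∃ g : Γ, (∀ a ∈ A, g • a = a) ∧ g • z = z') :
    ∃ (a o : Fin l → Ω) (f : Fin l → Fin l ⊕ Fin k), (∀ i, a i ∈ A) ∧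
      z ∈ tst Γ a o f ∧ z' ∉ tst Γ a o f := by
  classical
  obtain ⟨ω, hω⟩ := hA
  let b : Fin A.card → Ω := fun i => (A.equivFin.symm i : Ω)
  have hb : ∀ i, b i ∈ A := fun i => (A.equivFin.symm i).2
  have hb' : ∀ x ∈ A, ∃ i, b i = x := fun x hx => ⟨A.equivFin ⟨x, hx⟩, by simp [b]⟩
  have h1 : ¬ ∃ g : Γ, g • Fin.append b z = Fin.append b z' := by
    rintro ⟨g, hg⟩
    apply h
    refine ⟨g, ?_, ?_⟩
    · intro x hx
      obtain ⟨i, rfl⟩ := hb' x hx
      have := congrFun hg (Fin.castAdd k i)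
      simpa using this
    · funext j
      have := congrFun hg (Fin.natAdd A.card j)
      simpa using this
  have h2 : ∃ f₀ : Fin l → Fin (A.card + k),
      ¬ ∃ g : Γ, g • (Fin.append b z ∘ f₀) = Fin.append b z' ∘ f₀ := by
    by_contra hcon
    push Not at hcon
    exact h1 (hFH _ _ _ hcon)
  obtain ⟨f₀, hf₀⟩ := h2
  refine ⟨fun i : Fin l => Fin.addCases (motive := fun _ => Ω) (fun j => b j) (fun _ => ω) (f₀ i),
    Fin.append b z ∘ f₀, fun i : Fin l => Fin.addCases (motive := fun _ => Fin l ⊕ Fin k)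
      (fun _ => Sum.inl i) (fun j => Sum.inr j) (f₀ i), ?_, ?_, ?_⟩
  · intro i
    refine Fin.addCases (motive := fun x => Fin.addCases (motive := fun _ => Ω) (fun j => b j)
      (fun _ => ω) x ∈ A) ?_ ?_ (f₀ i)
    · intro j
      rw [Fin.addCases_left]
      exact hb j
    · intro j
      rw [Fin.addCases_right]
      exact hω
  · exact ⟨1, by rw [one_smul, M4b_key]⟩
  · rintro ⟨g, hg⟩
    rw [M4b_key] at hg
    exact hf₀ ⟨g, hg⟩

/-- a test with parameters in `A` is invariant under the pointwise stabiliser of `A`. -/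
theorem tst_inv {A : Finset Ω} {a o : Fin l → Ω} (ha : ∀ i, a i ∈ A)
    (f : Fin l → Fin l ⊕ Fin k) {g : Γ} (hg : ∀ a ∈ A, g • a = a) :
    g • tst Γ a o f = tst Γ a o f := by
  have h : g • a = a := by
    funext i
    exact hg (a i) (ha i)
  rw [smul_tst, h]

end Pool.Agent.Lib.ThC

end

section

/-! # M4c: the rank is bounded by the 2-rank -/

set_option autoImplicit false
open scoped Pointwise

namespace Pool.Agent.Lib.ThC

variable {Ω Γ : Type} [Group Γ] [MulAction Γ Ω] {l k : ℕ}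

theorem M4c_orb (hO : ∀ n : ℕ, FO Γ (Fin n → Ω)) {U : Subgroup Γ} (hU : Op Ω U) {r : ℕ}
    {Y : Set (Fin k → Ω)} (hinv : ∀ g ∈ U, g • Y = Y) (h : RkGE Ω Γ r Y) :
    ∃ z ∈ Y, RkGE Ω Γ r (orb U z) := by
  classical
  obtain ⟨F, hF⟩ := fin_orb_open hO hU k
  have hsub : Y ⊆ ⋃ f : {f // f ∈ F ∧ f ∈ Y}, orb U f.1 := by
    intro z hz
    obtain ⟨f, hf, g, hg, rfl⟩ := hF z
    have hfY : f ∈ Y := by
      rw [← hinv g hg] at hz
      exact (Set.smul_mem_smul_set_iff).1 hz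
    exact Set.mem_iUnion.2 ⟨⟨f, hf, hfY⟩, g, hg, rfl⟩
  have : Finite {f // f ∈ F ∧ f ∈ Y} := by
    have : ({f | f ∈ F ∧ f ∈ Y} : Set (Fin k → Ω)).Finite :=
      (Finset.finite_toSet F).subset (fun f hf => hf.1)
    exact this.to_subtype
  obtain ⟨f, hf⟩ := RkGE_iUnion_fin (fun f : {f // f ∈ F ∧ f ∈ Y} => df_orb hU f.1)
    (RkGE_mono h hsub)
  exact ⟨f.1, f.2.2, hf⟩

theorem M4c_ne {Z : Type} [MulAction Γ Z] {r : ℕ} {X : Set Z} (h : RkGE Ω Γ r X) :
    X.Nonempty := by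
  induction r generalizing X with
  | zero => exact h
  | succ r ih =>
    obtain ⟨Y, -, hsub, -, hrk⟩ := h
    exact (ih (hrk 0)).mono (hsub 0)

/-- (N4b) induction on `r`.  Step: `Y 0`, `Y 1` disjoint definable with `RkGE r`, `A` a finite
(nonempty) set such that both are invariant under its pointwise stabiliser `U`.  `Y i` is a finite
union of `U`-orbits (`fin_orb_open`), one of them, `P i`, has `RkGE r` (`RkGE_iUnion_fin`).
`P 0 ≠ P 1`, so a test of `exists_sep_tst` contains `P 0` and is disjoint from `P 1` (or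
conversely).  If `Ω` is empty then there is at most one tuple, so `RkGE (r+1)` is false
(`Y 0` and `Y 1` would be nonempty and disjoint). -/
theorem T2GE_of_RkGE (hO : ∀ n : ℕ, FO Γ (Fin n → Ω)) (hFH : FH Ω Γ l) {r : ℕ}
    {X : Set (Fin k → Ω)} (h : RkGE Ω Γ r X) : T2GE Γ l r X := by
  classical
  induction r generalizing X with
  | zero => exact h
  | succ r ih =>
    obtain ⟨Y, hdf, hsub, hdisj, hrk⟩ := h
    rcases isEmpty_or_nonempty Ω with hΩ | hΩ
    · exfalso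
      obtain ⟨z0, h0⟩ := M4c_ne (hrk 0)
      obtain ⟨z1, h1⟩ := M4c_ne (hrk 1)
      have : z0 = z1 := by
        funext i
        exact isEmptyElim (z0 i)
      subst this
      exact Set.disjoint_left.1 (hdisj 0 1 (by decide)) h0 h1
    · obtain ⟨ω⟩ := hΩ
      obtain ⟨A0, hA0⟩ := hdf 0
      obtain ⟨A1, hA1⟩ := hdf 1
      let A : Finset Ω := A0 ∪ A1 ∪ {ω}
      have hAne : A.Nonempty := ⟨ω, by simp [A]⟩
      let U : Subgroup Γ := fixingSubgroup Γ (A : Set Ω)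
      have hU : Op Ω U := op_fix A
      have hUA : ∀ g ∈ U, ∀ a ∈ A, g • a = a := by
        intro g hg a ha
        exact (mem_fixingSubgroup_iff Γ).1 hg a (Finset.mem_coe.2 ha)
      have hinv0 : ∀ g ∈ U, g • Y 0 = Y 0 := fun g hg =>
        MulAction.mem_stabilizer_iff.1 (hA0 g (fun a ha => hUA g hg a (by simp [A, ha])))
      have hinv1 : ∀ g ∈ U, g • Y 1 = Y 1 := fun g hg =>
        MulAction.mem_stabilizer_iff.1 (hA1 g (fun a ha => hUA g hg a (by simp [A, ha])))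
      obtain ⟨z0, hz0, hr0⟩ := M4c_orb hO hU hinv0 (hrk 0)
      obtain ⟨z1, hz1, hr1⟩ := M4c_orb hO hU hinv1 (hrk 1)
      have hnc : ¬ ∃ g : Γ, (∀ a ∈ A, g • a = a) ∧ g • z0 = z1 := by
        rintro ⟨g, hg, hgz⟩
        have hgU : g ∈ U := (mem_fixingSubgroup_iff Γ).2 (fun a ha => hg a (Finset.mem_coe.1 ha))
        have : z1 ∈ Y 0 := by
          rw [← hinv0 g hgU, ← hgz]
          exact Set.smul_mem_smul_set hz0
        exact Set.disjoint_left.1 (hdisj 0 1 (by decide)) this hz1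
      obtain ⟨a, o, f, ha, hin, hout⟩ := exists_sep_tst hFH hAne hnc
      refine ⟨a, o, f, T2GE_mono (ih hr0) ?_, T2GE_mono (ih hr1) ?_⟩
      · rintro _ ⟨g, hg, rfl⟩
        refine ⟨hsub 0 ?_, ?_⟩
        · rw [← hinv0 g hg]
          exact Set.smul_mem_smul_set hz0
        · rw [← tst_inv ha f (hUA g hg)]
          exact Set.smul_mem_smul_set hin
      · rintro _ ⟨g, hg, rfl⟩
        refine ⟨hsub 1 ?_, ?_⟩
        · rw [← hinv1 g hg]
          exact Set.smul_mem_smul_set hz1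
        · intro hcon
          rw [← tst_inv ha f (hUA g hg)] at hcon
          exact hout (Set.smul_mem_smul_set_iff.1 hcon)

end Pool.Agent.Lib.ThC

end

section

/-! # M4d: finitely many tests up to an open subgroup -/

set_option autoImplicit false
open scoped Pointwise

namespace Pool.Agent.Lib.ThC

variable {Ω Γ : Type} [Group Γ] [MulAction Γ Ω] {l k : ℕ}

/-- up to an open subgroup `U` there are only finitely many tests: finitely many `f`, finitely many
`o` up to `Γ` (`tst_congr`), finitely many `a` up to `U` (`fin_orb_open`, `smul_tst`). -/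
theorem finite_tst (hO : ∀ n : ℕ, FO Γ (Fin n → Ω)) {U : Subgroup Γ} (hU : Op Ω U) (l k : ℕ) :
    ∃ T : Set (Set (Fin k → Ω)), T.Finite ∧ (∀ t ∈ T, ∃ a o f, t = tst (l := l) Γ a o f) ∧
      ∀ (a o : Fin l → Ω) (f : Fin l → Fin l ⊕ Fin k), ∃ t ∈ T, ∃ g ∈ U,
        tst Γ a o f = g • t := by
  obtain ⟨F₀, hF₀⟩ := hO l
  obtain ⟨F₁, hF₁⟩ := fin_orb_open hO hU l
  refine ⟨(fun x : (Fin l → Ω) × (Fin l → Ω) × (Fin l → Fin l ⊕ Fin k) =>
    tst Γ x.1 x.2.1 x.2.2) '' ((F₁ : Set (Fin l → Ω)) ×ˢ ((F₀ : Set (Fin l → Ω)) ×ˢ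
      (Set.univ : Set (Fin l → Fin l ⊕ Fin k)))), ?_, ?_, ?_⟩
  · exact Set.Finite.image _ (F₁.finite_toSet.prod (F₀.finite_toSet.prod Set.finite_univ))
  · rintro t ⟨x, -, rfl⟩
    exact ⟨_, _, _, rfl⟩
  · intro a o f
    obtain ⟨o₀, ho₀, g₀, hg₀⟩ := hF₀ o
    obtain ⟨a₀, ha₀, g, hg, hga⟩ := hF₁ a
    refine ⟨tst Γ a₀ o₀ f, ⟨(a₀, o₀, f), ⟨ha₀, ho₀, Set.mem_univ _⟩, rfl⟩, g, hg, ?_⟩
    rw [smul_tst, hga, ← hg₀, tst_congr]

end Pool.Agent.Lib.ThC

end

section

/-! # M4e: splitting sets of infinite 2-rank -/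

set_option autoImplicit false
open scoped Pointwise

namespace Pool.Agent.Lib.ThC

variable {Ω Γ : Type} [Group Γ] [MulAction Γ Ω] {l k : ℕ}

/-- (N4c) a definable set of infinite 2-rank is split by one test into two sets of infinite
2-rank: for every `r` there is a test `t r`, up to `U = st X` it is in the finite set `T` of
`finite_tst` (`g • X = X` for `g ∈ U`, `T2GE_smul`); one element of `T` works for infinitely many
`r`, hence for all (`T2GE_anti`). -/
theorem exists_split (hO : ∀ n : ℕ, FO Γ (Fin n → Ω)) {X : Set (Fin k → Ω)} (hX : Df Ω Γ X)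
    (h : ∀ r, T2GE Γ l r X) :
    ∃ (a o : Fin l → Ω) (f : Fin l → Fin l ⊕ Fin k),
      (∀ r, T2GE Γ l r (X ∩ tst Γ a o f)) ∧ ∀ r, T2GE Γ l r (X \ tst Γ a o f) := by
  obtain ⟨T, hTf, hT1, hT2⟩ := finite_tst hO hX l k
  have h1 : ∀ r, ∃ t ∈ T, T2GE Γ l r (X ∩ t) ∧ T2GE Γ l r (X \ t) := by
    intro r
    obtain ⟨a, o, f, e1, e2⟩ := h (r + 1)
    obtain ⟨t, ht, g, hg, hgt⟩ := hT2 a o f
    have hgX : g • X = X := hg
    have hgX' : g⁻¹ • X = X := by
      rw [inv_smul_eq_iff, hgX]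
    refine ⟨t, ht, ?_, ?_⟩
    · have := T2GE_smul g⁻¹ e1
      rwa [hgt, Set.smul_set_inter, inv_smul_smul, hgX'] at this
    · have := T2GE_smul g⁻¹ e2
      rwa [hgt, Set.smul_set_sdiff, inv_smul_smul, hgX'] at this
  have h2 : ∃ t ∈ T, ∀ r, T2GE Γ l r (X ∩ t) ∧ T2GE Γ l r (X \ t) := by
    by_contra hno
    push Not at hno
    choose! ρ hρ using hno
    obtain ⟨R, hR⟩ := (hTf.image ρ).bddAbove
    obtain ⟨t, ht, e1, e2⟩ := h1 R
    have hle : ρ t ≤ R := hR ⟨t, ht, rfl⟩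
    exact hρ t ht (T2GE_anti hle e1) (T2GE_anti hle e2)
  obtain ⟨t, ht, ht'⟩ := h2
  obtain ⟨a, o, f, rfl⟩ := hT1 t ht
  exact ⟨a, o, f, fun r => (ht' r).1, fun r => (ht' r).2⟩

end Pool.Agent.Lib.ThC

end

section

/-! # M4f: the 2-rank and the rank are finite if there are countably many types -/

set_option autoImplicit false
open scoped Pointwise

namespace Pool.Agent.Lib.ThC

variable {Ω Γ : Type} [Group Γ] [MulAction Γ Ω] {l k : ℕ}

/-- (N4d) otherwise `P X := Df X ∧ ∀ r, T2GE r X` satisfies `not_countable_of_scheme`, but there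
are only countably many types by `countable_tp_tuple`. -/
theorem exists_not_T2GE [Countable Ω] (hO : ∀ n : ℕ, FO Γ (Fin n → Ω))
    (h1 : Countable (Tp Ω Γ (Fin 1 → Ω))) (l k : ℕ) :
    ∃ r, ¬ T2GE Γ l r (Set.univ : Set (Fin k → Ω)) := by
  by_contra hcon
  push Not at hcon
  refine not_countable_of_scheme (Ω := Ω) (Γ := Γ) (Z := Fin k → Ω)
    (fun X => Df Ω Γ X ∧ ∀ r, T2GE Γ l r X) ⟨Set.univ, df_univ, hcon⟩
    (fun X hX => ⟨hX.1, hX.2 0⟩) ?_ (countable_tp_tuple hO h1 k)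
  rintro X ⟨hX, hXr⟩
  obtain ⟨a, o, f, h1', h2'⟩ := exists_split hO hX hXr
  exact ⟨X ∩ tst Γ a o f, X \ tst Γ a o f, ⟨df_inter hX (df_tst a o f), h1'⟩,
    ⟨df_diff hX (df_tst a o f), h2'⟩, Set.inter_subset_left, Set.sdiff_subset,
    Set.disjoint_left.2 (fun z hz hz' => hz'.2 hz.2)⟩

/-- (N4) -/
theorem fr_of_fh [Countable Ω] (hO : ∀ n : ℕ, FO Γ (Fin n → Ω)) (hFH : FH Ω Γ l)
    (h1 : Countable (Tp Ω Γ (Fin 1 → Ω))) (k : ℕ) :
    ∃ r, ¬ RkGE Ω Γ r (Set.univ : Set (Fin k → Ω)) := by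
  obtain ⟨r, hr⟩ := exists_not_T2GE hO h1 l k
  exact ⟨r, fun h => hr (T2GE_of_RkGE hO hFH h)⟩

end Pool.Agent.Lib.ThC

end
end
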