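import Pool.Agent.Lib.MP_f9507c_lc.Mg.G001

section

section

/-! # H1a: closed groups between `G` and `Sym(Ω)`; the ambient set -/

set_option autoImplicit false
open scoped Pointwise

namespace Pool.Agent.Lib.ThC

/-- the ambient set: all relations on `Ω`. -/
abbrev UU (Ω : Type) : Type := Σ n : ℕ, Set (Fin n → Ω)

variable {Ω : Type}

theorem uu_smul (σ : Equiv.Perm Ω) (n : ℕ) (R : Set (Fin n → Ω)) :
    σ • (⟨n, R⟩ : UU Ω) = ⟨n, σ • R⟩ := rfl

private theorem H1a_df {G H : Subgroup (Equiv.Perm Ω)} (hGH : G ≤ H) {n : ℕ}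
    {X : Set (Fin n → Ω)} (h : Df Ω ↥H X) : Df Ω ↥G X := by
  obtain ⟨A, hA⟩ := h
  refine ⟨A, fun g hg => ?_⟩
  exact hA ⟨g.1, hGH g.2⟩ hg

private theorem H1a_rk {G H : Subgroup (Equiv.Perm Ω)} (hGH : G ≤ H) {n r : ℕ}
    {X : Set (Fin n → Ω)} (h : RkGE Ω ↥H r X) : RkGE Ω ↥G r X := by
  induction r generalizing X with
  | zero => exact h
  | succ r ih =>
    obtain ⟨Y, h1, h2, h3, h4⟩ := h
    exact ⟨Y, fun i => H1a_df hGH (h1 i), h2, h3, fun i => ih (h4 i)⟩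

/-- The hypotheses pass to larger groups: a subset definable for `H` is definable for `G`
(`st G X = st H X ∩ G`), so `RkGE` for `H` implies `RkGE` for `G`; orbits of `H` are unions
of orbits of `G`. -/
theorem nice_mono {G H : Subgroup (Equiv.Perm Ω)} (hN : Nice Ω ↥G) (hGH : G ≤ H) :
    Nice Ω ↥H := by
  obtain ⟨h1, h2, C, d, h3⟩ := hN
  refine ⟨?_, ?_, C, d, ?_⟩
  · intro n
    obtain ⟨F, hF⟩ := h1 n
    refine ⟨F, fun z => ?_⟩
    obtain ⟨f, hf, g, hg⟩ := hF z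
    exact ⟨f, hf, ⟨g.1, hGH g.2⟩, hg⟩
  · intro n
    obtain ⟨r, hr⟩ := h2 n
    exact ⟨r, fun h => hr (H1a_rk hGH h)⟩
  · intro B
    obtain ⟨F, hF, hF'⟩ := h3 B
    refine ⟨F, hF, fun z => ?_⟩
    obtain ⟨f, hf, g, hg, hgf⟩ := hF' z
    exact ⟨f, hf, ⟨g.1, hGH g.2⟩, hg, hgf⟩

/-- the copy of `Ω` in `UU Ω`. -/
def uupt (a : Ω) : UU Ω := ⟨1, {x | x 0 = a}⟩

/-- agreement of the orbits on `Ω^m` for `m ≤ n`. -/
def Agr (n : ℕ) (H H' : Subgroup (Equiv.Perm Ω)) : Prop :=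
  ∀ m, m ≤ n → ∀ x : Fin m → Ω, orb H x = orb H' x

/-- `Q` holds for all closed groups containing `G` which are near to `H`. -/
def Near (G H : Subgroup (Equiv.Perm Ω)) (Q : Subgroup (Equiv.Perm Ω) → Prop) : Prop :=
  ∃ n : ℕ, ∀ H' : Subgroup (Equiv.Perm Ω), G ≤ H' → Cpl Ω ↥H' → Agr n H H' → Q H'

/-- the same orbits on all tuples of elements of `S`. -/
def AgrS {Z : Type} [MulAction (Equiv.Perm Ω) Z] (S : Set Z)
    (H H' : Subgroup (Equiv.Perm Ω)) : Prop :=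
  ∀ (k : ℕ) (y : Fin k → Z), (∀ i, y i ∈ S) → orb H y = orb H' y

end Pool.Agent.Lib.ThC

end

section

/-! # H1b: closed groups between `G` and `Sym(Ω)`; the ambient set -/

set_option autoImplicit false
open scoped Pointwise

namespace Pool.Agent.Lib.ThC

variable {Ω : Type}

/-- `UU Ω` is rich: an open subgroup `V ≥ (stabiliser of the tuple a)` is the stabiliser of the
relation `V a ⊆ Ω^n`. -/
theorem uu_rich (H : Subgroup (Equiv.Perm Ω)) (V : Subgroup ↥H) (hV : Op Ω V) :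
    ∃ z : UU Ω, st ↥H z = V := by
  obtain ⟨A, hA⟩ := hV
  let a : Fin A.card → Ω := fun i => (A.equivFin.symm i : Ω)
  have ha : ∀ g : ↥H, g • a = a → g ∈ V := by
    intro g hg
    refine hA g fun b hb => ?_
    have h1 := congrFun hg (A.equivFin ⟨b, hb⟩)
    change g • ((A.equivFin.symm (A.equivFin ⟨b, hb⟩) : A) : Ω) =
      ((A.equivFin.symm (A.equivFin ⟨b, hb⟩) : A) : Ω) at h1
    rwa [Equiv.symm_apply_apply] at h1
  refine ⟨⟨A.card, orb V a⟩, ?_⟩
  ext g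
  constructor
  · intro hg
    have h1 : (⟨A.card, g • orb V a⟩ : UU Ω) = ⟨A.card, orb V a⟩ := hg
    have h2 : g • orb V a = orb V a := eq_of_heq (Sigma.mk.inj h1).2
    have h3 : g • a ∈ orb V a := by
      rw [← h2]
      exact Set.smul_mem_smul_set (mem_orb_self V a)
    obtain ⟨v, hv, hva⟩ := h3
    have h4 : v⁻¹ * g ∈ V := ha _ (by rw [mul_smul, ← hva, inv_smul_smul])
    have h5 := V.mul_mem hv h4
    rwa [mul_inv_cancel_left] at h5
  · intro hg
    change (⟨A.card, g • orb V a⟩ : UU Ω) = ⟨A.card, orb V a⟩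
    rw [smul_orb_of_mem hg]

end Pool.Agent.Lib.ThC

end

section

/-! # H1c: closed groups between `G` and `Sym(Ω)`; the ambient set -/

set_option autoImplicit false
open scoped Pointwise

namespace Pool.Agent.Lib.ThC

variable {Ω : Type}

theorem uupt_smul (σ : Equiv.Perm Ω) (a : Ω) : σ • uupt a = uupt (σ a) := by
  rw [uupt, uu_smul]
  have h : σ • {x : Fin 1 → Ω | x 0 = a} = {x : Fin 1 → Ω | x 0 = σ a} := by
    ext x
    rw [Set.mem_smul_set_iff_inv_smul_mem]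
    show σ⁻¹ (x 0) = a ↔ x 0 = σ a
    rw [Equiv.Perm.inv_eq_iff_eq]
  rw [h]
  rfl

theorem uupt_inj : Function.Injective (uupt (Ω := Ω)) := by
  intro a b hab
  have h1 : ({x : Fin 1 → Ω | x 0 = a} : Set (Fin 1 → Ω)) = {x | x 0 = b} := by
    have h2 := hab
    unfold uupt at h2
    simpa using h2
  have h3 : (fun _ => a : Fin 1 → Ω) ∈ ({x : Fin 1 → Ω | x 0 = b} : Set (Fin 1 → Ω)) := by
    rw [← h1]
    rfl
  exact h3

theorem sfin_uupt (H : Subgroup (Equiv.Perm Ω)) (hN : Nice Ω ↥H) :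
    SFin Ω ↥H (Set.range (uupt (Ω := Ω))) := by
  classical
  obtain ⟨F, hF⟩ := hN.olig 1
  refine ⟨⟨?_, ?_⟩, F.image (fun x => uupt (x 0)), ?_, ?_⟩
  · rintro g _ ⟨a, rfl⟩
    exact ⟨(g : Equiv.Perm Ω) a, (uupt_smul (g : Equiv.Perm Ω) a).symm⟩
  · rintro _ ⟨a, rfl⟩
    refine ⟨{a}, fun g hg => ?_⟩
    have h1 : (g : Equiv.Perm Ω) a = a := hg a (Finset.mem_singleton_self a)
    show (g : Equiv.Perm Ω) • uupt a = uupt a
    rw [uupt_smul, h1]
  · intro f hf
    obtain ⟨x, _, rfl⟩ := Finset.mem_image.mp hf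
    exact ⟨x 0, rfl⟩
  · rintro _ ⟨a, rfl⟩
    obtain ⟨f, hf, g, hg⟩ := hF (fun _ => a)
    refine ⟨uupt (f 0), Finset.mem_image_of_mem _ hf, g, ?_⟩
    have h1 : (g : Equiv.Perm Ω) (f 0) = a := congrFun hg 0
    show (g : Equiv.Perm Ω) • uupt (f 0) = uupt a
    rw [uupt_smul, h1]

/-- orbits of `↥H` and of `H`. -/
theorem orbit_eq_orb {Z : Type} [MulAction (Equiv.Perm Ω) Z] (H : Subgroup (Equiv.Perm Ω))
    (z : Z) : MulAction.orbit ↥H z = orb H z := by
  ext y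
  constructor
  · rintro ⟨g, hg⟩
    exact ⟨g.1, g.2, hg⟩
  · rintro ⟨g, hg, h⟩
    exact ⟨⟨g, hg⟩, h⟩

theorem near_of_forall {G H : Subgroup (Equiv.Perm Ω)} {Q : Subgroup (Equiv.Perm Ω) → Prop}
    (h : ∀ H' : Subgroup (Equiv.Perm Ω), G ≤ H' → Cpl Ω ↥H' → Q H') : Near G H Q := by
  exact ⟨0, fun H' h1 h2 _ => h H' h1 h2⟩

theorem near_and {G H : Subgroup (Equiv.Perm Ω)} {Q Q' : Subgroup (Equiv.Perm Ω) → Prop}
    (h : Near G H Q) (h' : Near G H Q') : Near G H (fun H' => Q H' ∧ Q' H') := by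
  obtain ⟨n, hn⟩ := h
  obtain ⟨m, hm⟩ := h'
  refine ⟨max n m, fun H' h1 h2 h3 => ⟨hn H' h1 h2 ?_, hm H' h1 h2 ?_⟩⟩
  · exact fun k hk => h3 k (hk.trans (le_max_left _ _))
  · exact fun k hk => h3 k (hk.trans (le_max_right _ _))

theorem near_mono {G H : Subgroup (Equiv.Perm Ω)} {Q Q' : Subgroup (Equiv.Perm Ω) → Prop}
    (h : Near G H Q) (hQ : ∀ H' : Subgroup (Equiv.Perm Ω), G ≤ H' → Cpl Ω ↥H' → Q H' → Q' H') :
    Near G H Q' := by
  obtain ⟨n, hn⟩ := h
  exact ⟨n, fun H' h1 h2 h3 => hQ H' h1 h2 (hn H' h1 h2 h3)⟩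

theorem near_forall_fin {G H : Subgroup (Equiv.Perm Ω)} {ι : Type} {s : Set ι} (hs : s.Finite)
    {Q : ι → Subgroup (Equiv.Perm Ω) → Prop} (h : ∀ i ∈ s, Near G H (Q i)) :
    Near G H (fun H' => ∀ i ∈ s, Q i H') := by
  classical
  choose! n hn using h
  refine ⟨hs.toFinset.sup n, fun H' h1 h2 h3 i hi => hn i hi H' h1 h2 ?_⟩
  intro k hk
  exact h3 k (hk.trans (Finset.le_sup (hs.mem_toFinset.mpr hi)))

theorem agrS_symm {Z : Type} [MulAction (Equiv.Perm Ω) Z] {S : Set Z}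
    {H H' : Subgroup (Equiv.Perm Ω)} (h : AgrS S H H') : AgrS S H' H := by
  intro k y hy
  exact (h k y hy).symm

/-- elementwise form of `AgrS`, for finite subsets. -/
theorem agrS_finset {Z : Type} [MulAction (Equiv.Perm Ω) Z] {S : Set Z}
    {H H' : Subgroup (Equiv.Perm Ω)} (h : AgrS S H H') (B : Finset Z) (hB : (B : Set Z) ⊆ S)
    {σ : Equiv.Perm Ω} (hσ : σ ∈ H) : ∃ τ ∈ H', ∀ b ∈ B, τ • b = σ • b := by
  have h1 : σ • (fun i : Fin B.card => ((B.equivFin.symm i : B) : Z)) ∈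
      orb H (fun i : Fin B.card => ((B.equivFin.symm i : B) : Z)) := ⟨σ, hσ, rfl⟩
  rw [h B.card (fun i : Fin B.card => ((B.equivFin.symm i : B) : Z))
    (fun i => hB (B.equivFin.symm i).2)] at h1
  obtain ⟨τ, hτ, h2⟩ := h1
  refine ⟨τ, hτ, fun b hb => ?_⟩
  have h3 := congrFun h2 (B.equivFin ⟨b, hb⟩)
  simpa using h3

end Pool.Agent.Lib.ThC

end

section

/-! # H2a: local agreement -/

set_option autoImplicit false
open scoped Pointwise

namespace Pool.Agent.Lib.ThC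

variable {Ω : Type}

/-- Key lemma.  Let `y i = ⟨m i, R i⟩` and let `a : Fin l → Ω` be a tuple whose pointwise stabiliser
in `H` fixes all `R i`.  Then `n = l + max m i` works: for `x ∈ R i`, `h' ∈ H'` and `h ∈ H` with
`h a = h' a` there is `h'' ∈ H` with `h'' (a, x) = h' (a, x)`
(`Agr` for the concatenated tuple), so
`h⁻¹ h''` fixes `a`, hence `h⁻¹ h'' x ∈ R i` and `h' x = h'' x ∈ h R i`: `h' R i ⊆ h R i`.  With `h = 1`
this shows that `R i` is invariant under the stabiliser of `a` in `H'`.  Conversely for `x ∈ R i` there is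
`h''' ∈ H'` with `h''' (a, x) = h (a, x)`; `h'⁻¹ h'''` fixes `a`, so it preserves `R i` and
`h x = h''' x ∈ h' R i`. -/
theorem near_tuple (G H : Subgroup (Equiv.Perm Ω)) {k : ℕ} (y : Fin k → UU Ω)
    (hy : ∀ i, Op Ω (st ↥H (y i))) :
    ∃ (l : ℕ) (a : Fin l → Ω), Near G H (fun H' => ∀ h ∈ H, ∀ h' ∈ H', h • a = h' • a →
      ∀ i, h • y i = h' • y i) := by
  classical
  choose A hA using hy
  let B : Finset Ω := Finset.univ.biUnion A
  let a : Fin B.card → Ω := fun i => (B.equivFin.symm i : Ω)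
  have ha : ∀ g ∈ H, g • a = a → ∀ i, g • y i = y i := by
    intro g hgH hg i
    have h0 : (⟨g, hgH⟩ : ↥H) ∈ st ↥H (y i) := by
      refine hA i ⟨g, hgH⟩ fun b hb => ?_
      have hbB : b ∈ B := Finset.mem_biUnion.2 ⟨i, Finset.mem_univ i, hb⟩
      have h1 := congrFun hg (B.equivFin ⟨b, hbB⟩)
      change g • ((B.equivFin.symm (B.equivFin ⟨b, hbB⟩) : B) : Ω) =
        ((B.equivFin.symm (B.equivFin ⟨b, hbB⟩) : B) : Ω) at h1
      rwa [Equiv.symm_apply_apply] at h1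
    exact h0
  refine ⟨B.card, a, B.card + Finset.univ.sup (fun i => (y i).1), fun H' _ _ hagr h hh h' hh' hha
    i => ?_⟩
  have hm : B.card + (y i).1 ≤ B.card + Finset.univ.sup (fun i => (y i).1) :=
    Nat.add_le_add_left (Finset.le_sup (f := fun i => (y i).1) (Finset.mem_univ i)) _
  -- splitting of the concatenated tuple
  have happ : ∀ (σ τ : Equiv.Perm Ω) (x : Fin (y i).1 → Ω),
      σ • Fin.append a x = τ • Fin.append a x → σ • a = τ • a ∧ σ • x = τ • x := by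
    intro σ τ x hx
    constructor
    · funext j
      have h1 := congrFun hx (Fin.castAdd (y i).1 j)
      change σ • Fin.append a x (Fin.castAdd (y i).1 j) =
        τ • Fin.append a x (Fin.castAdd (y i).1 j) at h1
      rwa [Fin.append_left] at h1
    · funext j
      have h1 := congrFun hx (Fin.natAdd B.card j)
      change σ • Fin.append a x (Fin.natAdd B.card j) =
        τ • Fin.append a x (Fin.natAdd B.card j) at h1
      rwa [Fin.append_right] at h1
  have hR : ∀ g ∈ H, g • a = a → g • (y i).2 = (y i).2 := by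
    intro g hgH hg
    have h1 : (⟨(y i).1, g • (y i).2⟩ : UU Ω) = ⟨(y i).1, (y i).2⟩ := ha g hgH hg i
    exact eq_of_heq (Sigma.mk.inj h1).2
  have incl : ∀ h ∈ H, ∀ h' ∈ H', h • a = h' • a → h' • (y i).2 ⊆ h • (y i).2 := by
    rintro h hh h' hh' hha _ ⟨x, hx, rfl⟩
    have h1 : h' • Fin.append a x ∈ orb H (Fin.append a x) := by
      rw [hagr _ hm (Fin.append a x)]
      exact smul_mem_orb hh' _
    obtain ⟨h'', hh'', h2⟩ := h1
    obtain ⟨h3, h4⟩ := happ h'' h' x h2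
    have h5 : (h⁻¹ * h'') • (y i).2 = (y i).2 := hR _ (mul_mem (inv_mem hh) hh'') (by
      rw [mul_smul, h3, ← hha, inv_smul_smul])
    refine ⟨(h⁻¹ * h'') • x, ?_, ?_⟩
    · rw [← h5]
      exact Set.smul_mem_smul_set hx
    · change h • (h⁻¹ * h'') • x = h' • x
      rw [mul_smul, smul_inv_smul, h4]
  have key : h • (y i).2 = h' • (y i).2 := by
    refine Set.Subset.antisymm ?_ (incl h hh h' hh' hha)
    rintro _ ⟨x, hx, rfl⟩
    have h1 : h • Fin.append a x ∈ orb H' (Fin.append a x) := by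
      rw [← hagr _ hm (Fin.append a x)]
      exact smul_mem_orb hh _
    obtain ⟨h'', hh'', h2⟩ := h1
    obtain ⟨h3, h4⟩ := happ h'' h x h2
    have h5 : (h'⁻¹ * h'') • (y i).2 ⊆ (1 : Equiv.Perm Ω) • (y i).2 :=
      incl 1 (one_mem H) _ (mul_mem (inv_mem hh') hh'') (by
        rw [one_smul, mul_smul, h3, hha, inv_smul_smul])
    rw [one_smul] at h5
    refine ⟨(h'⁻¹ * h'') • x, h5 (Set.smul_mem_smul_set hx), ?_⟩
    change h' • (h'⁻¹ * h'') • x = h • x
    rw [mul_smul, smul_inv_smul, h4]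
  change (⟨(y i).1, h • (y i).2⟩ : UU Ω) = ⟨(y i).1, h' • (y i).2⟩
  rw [key]

end Pool.Agent.Lib.ThC

end

section

/-! # H2b: local agreement -/

set_option autoImplicit false
open scoped Pointwise

namespace Pool.Agent.Lib.ThC

variable {Ω : Type}

private theorem H2b_agr_mono {n n' : ℕ} {H H' : Subgroup (Equiv.Perm Ω)} (h : n' ≤ n)
    (hA : Agr n H H') : Agr n' H H' := fun m hm x => hA m (hm.trans h) x

private theorem H2b_key (G H : Subgroup (Equiv.Perm Ω)) {k : ℕ} (y : Fin k → UU Ω)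
    (hy : ∀ i, Op Ω (st ↥H (y i))) :
    Near G H (fun H' => (∀ h ∈ H, ∃ h' ∈ H', ∀ i, h' • y i = h • y i) ∧
      ∀ h' ∈ H', ∃ h ∈ H, ∀ i, h • y i = h' • y i) := by
  obtain ⟨l, a, n₁, hn₁⟩ := near_tuple G H y hy
  refine ⟨max n₁ l, fun H' hG hC hA => ?_⟩
  have h1 := hn₁ H' hG hC (H2b_agr_mono (le_max_left _ _) hA)
  have h2 : orb H a = orb H' a := hA l (le_max_right _ _) a
  constructor
  · intro h hh
    have h3 : h • a ∈ orb H' a := by rw [← h2]; exact ⟨h, hh, rfl⟩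
    obtain ⟨h', hh', he⟩ := h3
    exact ⟨h', hh', fun i => (h1 h hh h' hh' he.symm i).symm⟩
  · intro h' hh'
    have h3 : h' • a ∈ orb H a := by rw [h2]; exact ⟨h', hh', rfl⟩
    obtain ⟨h, hh, he⟩ := h3
    exact ⟨h, hh, fun i => h1 h hh h' hh' he i⟩

/-- consequences of `near_tuple` (also use `Agr` for the tuple `a` itself). -/
theorem near_orb (G H : Subgroup (Equiv.Perm Ω)) {k : ℕ} (y : Fin k → UU Ω)
    (hy : ∀ i, Op Ω (st ↥H (y i))) : Near G H (fun H' => orb H y = orb H' y) := by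
  obtain ⟨n, hn⟩ := H2b_key G H y hy
  refine ⟨n, fun H' hG hC hA => ?_⟩
  obtain ⟨h1, h2⟩ := hn H' hG hC hA
  ext z
  constructor
  · rintro ⟨h, hh, rfl⟩
    obtain ⟨h', hh', he⟩ := h1 h hh
    exact ⟨h', hh', funext he⟩
  · rintro ⟨h', hh', rfl⟩
    obtain ⟨h, hh, he⟩ := h2 h' hh'
    exact ⟨h, hh, funext he⟩

theorem near_op (G H : Subgroup (Equiv.Perm Ω)) (y : UU Ω)
    (hy : Op Ω (st ↥H y)) : Near G H (fun H' => Op Ω (st ↥H' y)) := by
  obtain ⟨l, a, n, hn⟩ := near_tuple G H (fun _ : Fin 1 => y) (fun _ => hy)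
  refine ⟨n, fun H' hG hC hA => ?_⟩
  have h1 := hn H' hG hC hA
  classical
  refine ⟨Finset.univ.image a, fun g hg => ?_⟩
  have h2 := h1 1 H.one_mem (g : Equiv.Perm Ω) g.2 (by
    funext i
    have h3 := hg (a i) (Finset.mem_image_of_mem _ (Finset.mem_univ i))
    change (1 : Equiv.Perm Ω) • a i = (g : Equiv.Perm Ω) • a i
    rw [one_smul]
    exact h3.symm) 0
  rw [one_smul] at h2
  rw [MulAction.mem_stabilizer_iff]
  exact h2.symm

/-- one point: the orbit is the same set. -/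
theorem near_orb_one (G H : Subgroup (Equiv.Perm Ω)) (y : UU Ω)
    (hy : Op Ω (st ↥H y)) : Near G H (fun H' => orb H y = orb H' y) := by
  obtain ⟨n, hn⟩ := H2b_key G H (fun _ : Fin 1 => y) (fun _ => hy)
  refine ⟨n, fun H' hG hC hA => ?_⟩
  obtain ⟨h1, h2⟩ := hn H' hG hC hA
  ext z
  constructor
  · rintro ⟨h, hh, rfl⟩
    obtain ⟨h', hh', he⟩ := h1 h hh
    exact ⟨h', hh', he 0⟩
  · rintro ⟨h', hh', rfl⟩
    obtain ⟨h, hh, he⟩ := h2 h' hh'
    exact ⟨h, hh, he 0⟩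

theorem near_orb_two (G H : Subgroup (Equiv.Perm Ω)) (y z : UU Ω)
    (hy : Op Ω (st ↥H y)) (hz : Op Ω (st ↥H z)) :
    Near G H (fun H' => orb H (y, z) = orb H' (y, z)) := by
  obtain ⟨n, hn⟩ := H2b_key G H (![y, z] : Fin 2 → UU Ω) (fun i => by
    fin_cases i
    · exact hy
    · exact hz)
  refine ⟨n, fun H' hG hC hA => ?_⟩
  obtain ⟨h1, h2⟩ := hn H' hG hC hA
  ext w
  constructor
  · rintro ⟨h, hh, rfl⟩
    obtain ⟨h', hh', he⟩ := h1 h hh
    exact ⟨h', hh', Prod.ext (he 0) (he 1)⟩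
  · rintro ⟨h', hh', rfl⟩
    obtain ⟨h, hh, he⟩ := h2 h' hh'
    exact ⟨h, hh, Prod.ext (he 0) (he 1)⟩

end Pool.Agent.Lib.ThC

end

section

/-! # H2c: local agreement -/

set_option autoImplicit false
open scoped Pointwise

namespace Pool.Agent.Lib.ThC

variable {Ω : Type}

private theorem H2c_agr_mono {n n' : ℕ} {H H' : Subgroup (Equiv.Perm Ω)} (h : n' ≤ n)
    (hA : Agr n H H') : Agr n' H H' := fun m hm x => hA m (hm.trans h) x

/-- finitely many conditions. -/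
private theorem H2c_near_finset {ι : Type} (G H : Subgroup (Equiv.Perm Ω)) (s : Finset ι)
    (Q : ι → Subgroup (Equiv.Perm Ω) → Prop) (h : ∀ i ∈ s, Near G H (Q i)) :
    Near G H (fun H' => ∀ i ∈ s, Q i H') := by
  classical
  have h' : ∀ i, ∃ n : ℕ, i ∈ s → ∀ H' : Subgroup (Equiv.Perm Ω), G ≤ H' → Cpl Ω ↥H' →
      Agr n H H' → Q i H' := by
    intro i
    by_cases hi : i ∈ s
    · obtain ⟨n, hn⟩ := h i hi
      exact ⟨n, fun _ => hn⟩
    · exact ⟨0, fun h0 => absurd h0 hi⟩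
  choose n hn using h'
  refine ⟨s.sup n, fun H' hG hC hA i hi => ?_⟩
  exact hn i hi H' hG hC (H2c_agr_mono (Finset.le_sup hi) hA)

private def H2c_sub (H : Subgroup (Equiv.Perm Ω)) {S : Set (UU Ω)}
    (hS : SFin Ω ↥H S) : SubMulAction ↥H (UU Ω) where
  carrier := S
  smul_mem' := fun g s hs => hS.inv g s hs

private theorem H2c_srt (H : Subgroup (Equiv.Perm Ω)) {S : Set (UU Ω)}
    (hS : SFin Ω ↥H S) : Srt Ω ↥H (H2c_sub H hS) := by
  classical
  constructor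
  · intro z
    refine op_mono (hS.sm z.1 z.2) fun g hg => ?_
    rw [MulAction.mem_stabilizer_iff] at hg ⊢
    exact Subtype.ext hg
  · obtain ⟨F, hF, hF'⟩ := hS.fo
    refine ⟨F.attach.image fun f => ⟨f.1, hF f.1 f.2⟩, fun z => ?_⟩
    obtain ⟨f, hf, g, hg⟩ := hF' z.1 z.2
    exact ⟨⟨f, hF f hf⟩, Finset.mem_image.2 ⟨⟨f, hf⟩, Finset.mem_attach _ _, rfl⟩, g,
      Subtype.ext hg⟩

private theorem H2c_smul_uupt (σ : Equiv.Perm Ω) (a : Ω) : σ • uupt a = uupt (σ a) := by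
  unfold uupt
  rw [uu_smul]
  congr 1
  ext x
  rw [Set.mem_smul_set_iff_inv_smul_mem, Set.mem_setOf_eq, Set.mem_setOf_eq, Pi.smul_apply,
    inv_smul_eq_iff]
  rfl

private theorem H2c_uupt_inj {a b : Ω} (h : uupt a = uupt b) : a = b := by
  unfold uupt at h
  have h1 := (Sigma.mk.inj_iff.1 h).2
  have h2 := eq_of_heq h1
  have h3 : (fun _ : Fin 1 => a) ∈ {x : Fin 1 → Ω | x 0 = b} := by
    rw [← h2]
    rfl
  exact h3

private theorem H2c_le {H H' : Subgroup (Equiv.Perm Ω)} (hH' : Cpl Ω ↥H')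
    (h : AgrS (Set.range (uupt (Ω := Ω))) H H') : H ≤ H' := by
  intro σ hσ
  obtain ⟨g, hg⟩ := hH' σ (fun A => by
    have e := A.equivFin
    have h1 := h A.card (fun i => uupt (e.symm i : Ω)) (fun i => ⟨_, rfl⟩)
    have h2 : σ • (fun i => uupt (e.symm i : Ω)) ∈ orb H' (fun i => uupt (e.symm i : Ω)) := by
      rw [← h1]
      exact ⟨σ, hσ, rfl⟩
    obtain ⟨k, hk, hke⟩ := h2
    refine ⟨⟨k, hk⟩, fun a ha => ?_⟩
    have h3 := congrFun hke (e ⟨a, ha⟩)
    rw [Pi.smul_apply, Pi.smul_apply, H2c_smul_uupt, H2c_smul_uupt, Equiv.symm_apply_apply] at h3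
    exact H2c_uupt_inj h3)
  have h4 : (g : Equiv.Perm Ω) = σ := Equiv.ext fun a => hg a
  rw [← h4]
  exact g.2

/-- Uniformity: `S^k` is the union of finitely many `H`-orbits (`srt_pi`), apply `near_orb`,
`near_op` to representatives; if `y = h • r` then `orb H y = orb H r = orb H' r` contains `y`, so
it is `orb H' y`. -/
theorem near_uniform (G H : Subgroup (Equiv.Perm Ω)) (hN : Nice Ω ↥H) {S : Set (UU Ω)}
    (hS : SFin Ω ↥H S) (k : ℕ) :
    Near G H (fun H' => SFin Ω ↥H' S ∧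
      ∀ y : Fin k → UU Ω, (∀ i, y i ∈ S) → orb H y = orb H' y) := by
  classical
  obtain ⟨F, hF, hF'⟩ := hS.fo
  obtain ⟨Fk, hFk⟩ := (srt_pi hN (H2c_srt H hS) k).fo
  obtain ⟨n₁, h1⟩ := H2c_near_finset G H F (fun f H' => orb H f = orb H' f)
    (fun f hf => near_orb_one G H f (hS.sm f (hF f hf)))
  obtain ⟨n₂, h2⟩ := H2c_near_finset G H F (fun f H' => Op Ω (st ↥H' f))
    (fun f hf => near_op G H f (hS.sm f (hF f hf)))
  obtain ⟨n₃, h3⟩ := H2c_near_finset G H Fk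
    (fun r H' => orb H (fun i => (r i : UU Ω)) = orb H' (fun i => (r i : UU Ω)))
    (fun r _ => near_orb G H _ (fun i => hS.sm _ (r i).2))
  refine ⟨max n₁ (max n₂ n₃), fun H' hG hC hA => ?_⟩
  have k1 := h1 H' hG hC (H2c_agr_mono (le_max_left _ _) hA)
  have k2 := h2 H' hG hC (H2c_agr_mono ((le_max_left _ _).trans (le_max_right _ _)) hA)
  have k3 := h3 H' hG hC (H2c_agr_mono ((le_max_right _ _).trans (le_max_right _ _)) hA)
  have hrep : ∀ s ∈ S, ∃ f ∈ F, ∃ h' ∈ H', h' • f = s := by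
    intro s hs
    obtain ⟨f, hf, g, hg⟩ := hF' s hs
    have h4 : s ∈ orb H f := ⟨g.1, g.2, hg⟩
    rw [k1 f hf] at h4
    obtain ⟨h', hh', he⟩ := h4
    exact ⟨f, hf, h', hh', he⟩
  refine ⟨⟨⟨?_, ?_⟩, ?_⟩, ?_⟩
  · intro g s hs
    obtain ⟨f, hf, h', hh', he⟩ := hrep s hs
    have h4 : (g : Equiv.Perm Ω) • s ∈ orb H' f :=
      ⟨(g : Equiv.Perm Ω) * h', H'.mul_mem g.2 hh', by rw [mul_smul, he]⟩
    rw [← k1 f hf] at h4
    obtain ⟨h, hh, he'⟩ := h4
    have h5 := hS.inv ⟨h, hh⟩ f (hF f hf)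
    have h6 : (⟨h, hh⟩ : ↥H) • f = g • s := he'
    rw [← h6]
    exact h5
  · intro s hs
    obtain ⟨f, hf, h', hh', he⟩ := hrep s hs
    have h5 : s = (⟨h', hh'⟩ : ↥H') • f := he.symm
    rw [h5, st_smul]
    exact op_cj _ (k2 f hf)
  · refine ⟨F, hF, fun s hs => ?_⟩
    obtain ⟨f, hf, h', hh', he⟩ := hrep s hs
    exact ⟨f, hf, ⟨h', hh'⟩, he⟩
  · intro y hy
    obtain ⟨r, hr, g, hg⟩ := hFk (fun i => ⟨y i, hy i⟩)
    have h4 : y ∈ orb H (fun i => (r i : UU Ω)) := by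
      refine ⟨g.1, g.2, ?_⟩
      funext i
      have h5 := congrArg Subtype.val (congrFun hg i)
      exact h5
    have h5 : y ∈ orb H' (fun i => (r i : UU Ω)) := by rw [← k3 r hr]; exact h4
    rw [orb_eq_of_mem h4, orb_eq_of_mem h5]
    exact k3 r hr

/-- A closed group containing `G` with the same orbits as `H` on all tuples of `Ω` is `H`. -/
theorem eq_of_agr {H H' : Subgroup (Equiv.Perm Ω)} (hH : Cpl Ω ↥H) (hH' : Cpl Ω ↥H')
    (h : AgrS (Set.range (uupt (Ω := Ω))) H H') : H = H' := by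
  exact le_antisymm (H2c_le hH' h) (H2c_le hH fun k y hy => (h k y hy).symm)

end Pool.Agent.Lib.ThC

end

section

/-! # H3a: uniform finite index property; good sets -/

set_option autoImplicit false
open scoped Pointwise

namespace Pool.Agent.Lib.ThC

section
variable {Ω Γ Z : Type} [Group Γ] [MulAction Γ Ω] [MulAction Γ Z]

/-- `B'` works for `(B, n)`: all open subgroups `U` with `Γ_(S) ≤ U ≤ Γ_(B)` of index at most
`n` contain `Γ_(B')`. -/
def GfinB (Ω Γ : Type) [Group Γ] [MulAction Γ Ω] {Z : Type} [MulAction Γ Z] (S : Set Z)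
    (B : Finset Z) (n : ℕ) (B' : Finset Z) : Prop :=
  ∀ U : Subgroup Γ, Op Ω U → fixingSubgroup Γ S ≤ U → U ≤ fx Γ B →
    U.relIndex (fx Γ B) ≠ 0 → U.relIndex (fx Γ B) ≤ n → fx Γ B' ≤ U

/-- the uniform finite index property. -/
def Gfin (Ω Γ : Type) [Group Γ] [MulAction Γ Ω] {Z : Type} [MulAction Γ Z] (S : Set Z) :
    Prop :=
  ∀ (B : Finset Z), (B : Set Z) ⊆ S → ∀ n : ℕ, ∃ B' : Finset Z, (B' : Set Z) ⊆ S ∧
    B ⊆ B' ∧ GfinB Ω Γ S B n B'

/-- Descent.  Let `B ⊆ S`, `B'` from `Gfin` for `S'`.  Let `V` be the intersection of all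
`U` in question for `S`; they contain `fixingSubgroup S'`, so `V ≥ fx B'` is open, and
`V ≥ fixingSubgroup S`; `supp_exists` gives `B''`; add `B`. -/
theorem gfin_sub [Countable Ω] (hN : Nice Ω Γ) (hC : Cpl Ω Γ) {S S' : Set Z}
    (hS : SInv Ω Γ S) (hS' : SInv Ω Γ S') (hSS' : S ⊆ S') (h : Gfin Ω Γ S') :
    Gfin Ω Γ S := by
  classical
  intro B hB n
  obtain ⟨B', hB', _, h2⟩ := h B (hB.trans hSS') n
  have hle : fixingSubgroup Γ S' ≤ fixingSubgroup Γ S := fixingSubgroup_antitone Γ Z hSS'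
  let A : Set (Subgroup Γ) := {U | Op Ω U ∧ fixingSubgroup Γ S ≤ U ∧ U ≤ fx Γ B ∧
    U.relIndex (fx Γ B) ≠ 0 ∧ U.relIndex (fx Γ B) ≤ n}
  have hV : fx Γ B' ≤ sInf A :=
    le_sInf fun U hU => h2 U hU.1 (hle.trans hU.2.1) hU.2.2.1 hU.2.2.2.1 hU.2.2.2.2
  have hVS : fixingSubgroup Γ S ≤ sInf A := le_sInf fun U hU => hU.2.1
  obtain ⟨B'', hB'', h3⟩ := supp_exists hN hC hS (op_mono (op_fx hS' hB') hV) hVS
  refine ⟨B ∪ B'', ?_, Finset.subset_union_left, ?_⟩
  · rw [Finset.coe_union]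
    exact Set.union_subset hB hB''
  · intro U hU1 hU2 hU3 hU4 hU5
    exact (fx_anti Finset.subset_union_right).trans (h3.trans (sInf_le ⟨hU1, hU2, hU3, hU4, hU5⟩))

end

variable {Ω : Type}

/-- good sets. -/
structure Good (G H : Subgroup (Equiv.Perm Ω)) (S : Set (UU Ω)) : Prop where
  fin : SFin Ω ↥H S
  near : Near G H (fun H' => SFin Ω ↥H' S ∧ AgrS S H H')
  gf : Gfin Ω ↥H S

end Pool.Agent.Lib.ThC

end

section

/-! # H3b: uniform finite index property; good sets -/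

set_option autoImplicit false
open scoped Pointwise

namespace Pool.Agent.Lib.ThC

section
variable {Ω Γ Z : Type} [Group Γ] [MulAction Γ Ω] [MulAction Γ Z]

private theorem H3b_core {U P K : Subgroup Γ} (hUP : U ≤ P) (hi : U.relIndex P ≠ 0)
    (hU : Op Ω U) {n : ℕ} (hn : U.relIndex P ≤ n) (hK : K.Normal) (hKU : K ≤ U) :
    ∃ U' : Subgroup Γ, Op Ω U' ∧ K ≤ U' ∧ U' ≤ U ∧ U'.relIndex P ≠ 0 ∧
      U'.relIndex P ≤ n.factorial ∧ ∀ g ∈ P, cj g U' = U' := by
  classical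
  let H : Subgroup ↥P := U.subgroupOf P
  have hH : H.index ≠ 0 := hi
  haveI hfi : H.FiniteIndex := ⟨hH⟩
  haveI : Finite (↥P ⧸ H) := Subgroup.finite_quotient_of_finiteIndex
  let U' : Subgroup Γ := H.normalCore.map P.subtype
  have hmem : ∀ x : Γ, x ∈ U' ↔ x ∈ P ∧ ∀ g ∈ P, g * x * g⁻¹ ∈ U := by
    intro x
    constructor
    · rintro ⟨y, hy, rfl⟩
      refine ⟨y.2, fun g hg => ?_⟩
      have h1 := hy ⟨g, hg⟩
      rw [Subgroup.mem_subgroupOf] at h1
      exact h1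
    · rintro ⟨hx, h⟩
      refine ⟨⟨x, hx⟩, ?_, rfl⟩
      intro g
      rw [Subgroup.mem_subgroupOf]
      exact h g.1 g.2
  have hrel : U'.relIndex P = H.normalCore.index := by
    have h1 : U'.subgroupOf P = H.normalCore := by
      ext x
      rw [Subgroup.mem_subgroupOf, hmem]
      constructor
      · rintro ⟨_, h⟩ g
        rw [Subgroup.mem_subgroupOf]
        exact h g.1 g.2
      · intro h
        refine ⟨x.2, fun g hg => ?_⟩
        have h1 := h ⟨g, hg⟩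
        rw [Subgroup.mem_subgroupOf] at h1
        exact h1
    rw [Subgroup.relIndex, h1]
  have hne : H.normalCore.index ≠ 0 := Subgroup.FiniteIndex.index_ne_zero
  refine ⟨U', ?_, ?_, ?_, ?_, ?_, ?_⟩
  · have h1 : Op Ω (⨅ i : ↥P ⧸ H, cj ((i.out : ↥P) : Γ) U) := op_iInf fun i => op_cj _ hU
    refine op_mono h1 ?_
    intro x hx
    rw [Subgroup.mem_iInf] at hx
    have hx' : ∀ g : ↥P, (g : Γ)⁻¹ * x * g ∈ U := by
      intro g
      have h2 := hx (QuotientGroup.mk g)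
      rw [mem_cj] at h2
      have h3 : (QuotientGroup.mk (Quotient.out (QuotientGroup.mk g : ↥P ⧸ H)) : ↥P ⧸ H) =
          QuotientGroup.mk g := Quotient.out_eq _
      rw [QuotientGroup.eq] at h3
      rw [Subgroup.mem_subgroupOf] at h3
      set w : ↥P := Quotient.out (QuotientGroup.mk g : ↥P ⧸ H) with hw
      have h4 : (g : Γ)⁻¹ * x * g = ((w⁻¹ * g : ↥P) : Γ)⁻¹ * ((w : Γ)⁻¹ * x * w) *
          ((w⁻¹ * g : ↥P) : Γ) := by
        push_cast
        group
      rw [h4]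
      exact U.mul_mem (U.mul_mem (U.inv_mem h3) h2) h3
    rw [hmem]
    refine ⟨?_, fun g hg => ?_⟩
    · have h2 := hx' 1
      simpa using hUP h2
    · have h2 := hx' ⟨g⁻¹, P.inv_mem hg⟩
      simpa using h2
  · intro x hx
    rw [hmem]
    exact ⟨hUP (hKU hx), fun g _ => hKU (hK.conj_mem x hx g)⟩
  · intro x hx
    rw [hmem] at hx
    simpa using hx.2 1 P.one_mem
  · rw [hrel]
    exact hne
  · rw [hrel, Subgroup.normalCore_eq_ker, Subgroup.index_ker]
    have h1 : Nat.card (MulAction.toPermHom ↥P (↥P ⧸ H)).range ≤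
        Nat.card (Equiv.Perm (↥P ⧸ H)) := Subgroup.card_le_card_group _
    have h2 : Nat.card (Equiv.Perm (↥P ⧸ H)) = (Nat.card (↥P ⧸ H)).factorial := by
      rw [Nat.card_perm]
    rw [h2] at h1
    exact h1.trans (Nat.factorial_le hn)
  · intro g hg
    ext x
    rw [mem_cj, hmem, hmem]
    constructor
    · rintro ⟨h1, h2⟩
      refine ⟨?_, fun k hk => ?_⟩
      · have h3 : x = g * (g⁻¹ * x * g) * g⁻¹ := by group
        rw [h3]
        exact P.mul_mem (P.mul_mem hg h1) (P.inv_mem hg)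
      · have h3 := h2 (k * g) (P.mul_mem hk hg)
        have h4 : k * g * (g⁻¹ * x * g) * (k * g)⁻¹ = k * x * k⁻¹ := by group
        rwa [h4] at h3
    · rintro ⟨h1, h2⟩
      refine ⟨P.mul_mem (P.mul_mem (P.inv_mem hg) h1) hg, fun k hk => ?_⟩
      have h3 := h2 (k * g⁻¹) (P.mul_mem hk (P.inv_mem hg))
      have h4 : k * (g⁻¹ * x * g) * k⁻¹ = k * g⁻¹ * x * (k * g⁻¹)⁻¹ := by group
      rw [h4]
      exact h3

private theorem H3b_sup {H K N : Subgroup Γ} (hN : N.Normal) :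
    (H ⊔ N).relIndex (K ⊔ N) ∣ H.relIndex K := by
  have h1 := Subgroup.relIndex_map_map (QuotientGroup.mk' N) H K
  rw [QuotientGroup.ker_mk'] at h1
  rw [← h1, ← Subgroup.relIndex_comap]
  exact Subgroup.relIndex_dvd_of_le_left _ (Subgroup.le_comap_map _ _)

/-- Second step lemma.  Let `K = fixingSubgroup S`.  Suppose that for all finite `B ⊆ S'` and all `n`
there are finite `B₀ ⊆ S'`, `b₀ ⊆ S`, `B ⊆ B₀`, `fx B₀ ≤ fx b₀`, such that
`fx B₀ ⊔ K` has finite index in `fx b₀` and all open `U` with `K' ≤ U ≤ fx B`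
(`K' = fixingSubgroup S'`) of index `≤ n`, normalised by `fx B`, contain
`K ⊓ fx B₀`.  Then `Gfin` passes from `S` to `S'`.
Proof.  Given `B ⊆ S'` and `n`.  For `U` of index `≤ n` the core
`U' = ⨅_{g ∈ fx B} cj g U` is open, contains `K'` (which is normal),
has index `≤ n ! ` in `fx B`, and is normalised by `fx B`.  Take `B₀`, `b₀` for
`(B, n !)`, `M` = index of `fx B₀ ⊔ K` in `fx b₀`.  `P = fx B₀`, `U₁ = U' ⊓ P` has index
`≤ n !` in `P`, so `U₁ ⊔ K` has index `≤ M * n !` in `fx b₀`; it is open and contains `K`.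
`Gfin` for `S` gives `B''` (for `(b₀, M * n !)`) with `fx B'' ≤ U₁ ⊔ K`.  So
`fx (B'' ∪ B₀) ≤ (U₁ ⊔ K) ⊓ P = U₁ ⊔ (K ⊓ P) ≤ U'` by the modular law (`U₁ ≤ P`, `K` normal) and
`K ⊓ P ≤ U'`. -/
theorem gfin_step [Countable Ω] (hN : Nice Ω Γ) (hC : Cpl Ω Γ) {S S' : Set Z}
    (hS : SInv Ω Γ S) (hS' : SInv Ω Γ S') (hSS' : S ⊆ S') (hG : Gfin Ω Γ S)
    (h : ∀ (B : Finset Z), (B : Set Z) ⊆ S' → ∀ n : ℕ, ∃ B₀ b₀ : Finset Z,
      (B₀ : Set Z) ⊆ S' ∧ (b₀ : Set Z) ⊆ S ∧ B ⊆ B₀ ∧ fx Γ B₀ ≤ fx Γ b₀ ∧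
      (fx Γ B₀ ⊔ fixingSubgroup Γ S).relIndex (fx Γ b₀) ≠ 0 ∧
      ∀ U : Subgroup Γ, Op Ω U → fixingSubgroup Γ S' ≤ U → U ≤ fx Γ B →
        U.relIndex (fx Γ B) ≠ 0 → U.relIndex (fx Γ B) ≤ n → (∀ g ∈ fx Γ B, cj g U = U) →
        fixingSubgroup Γ S ⊓ fx Γ B₀ ≤ U) : Gfin Ω Γ S' := by
  classical
  intro B hB n
  obtain ⟨B₀, b₀, hB₀, hb₀, hBB₀, hPb, hM, hcore⟩ := h B hB n.factorial
  obtain ⟨B'', hB'', _, hG2⟩ := hG b₀ hb₀
    (n.factorial * (fx Γ B₀ ⊔ fixingSubgroup Γ S).relIndex (fx Γ b₀))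
  have hKn : (fixingSubgroup Γ S).Normal := fixing_normal hS.inv
  have hKn' : (fixingSubgroup Γ S').Normal := fixing_normal hS'.inv
  refine ⟨B₀ ∪ B'', ?_, hBB₀.trans Finset.subset_union_left, ?_⟩
  · rw [Finset.coe_union]
    exact Set.union_subset hB₀ (hB''.trans hSS')
  intro U hU1 hU2 hU3 hU4 hU5
  obtain ⟨U', h1, h2, h3, h4, h5, h6⟩ := H3b_core hU3 hU4 hU1 hU5 hKn' hU2
  have hP : fx Γ B₀ ≤ fx Γ B := fx_anti hBB₀
  have h7 := hcore U' h1 h2 (h3.trans hU3) h4 h5 h6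
  have hKb : fixingSubgroup Γ S ≤ fx Γ b₀ := fixingSubgroup_le_fx hb₀
  -- the subgroup `U₁ ⊔ K`
  have h8 : ((U' ⊓ fx Γ B₀) ⊔ fixingSubgroup Γ S).relIndex
      (fx Γ B₀ ⊔ fixingSubgroup Γ S) ∣ U'.relIndex (fx Γ B₀) := by
    have := H3b_sup (H := U' ⊓ fx Γ B₀) (K := fx Γ B₀) hKn
    rwa [Subgroup.inf_relIndex_right] at this
  have h9 : U'.relIndex (fx Γ B₀) ≤ n.factorial :=
    (Subgroup.relIndex_le_of_le_right hP h4).trans h5
  have h9' : U'.relIndex (fx Γ B₀) ≠ 0 := fun h0 => h4 (Subgroup.relIndex_eq_zero_of_le_right hP h0)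
  have h10 : ((U' ⊓ fx Γ B₀) ⊔ fixingSubgroup Γ S).relIndex
      (fx Γ B₀ ⊔ fixingSubgroup Γ S) ≠ 0 := fun h0 => h9' (Nat.eq_zero_of_zero_dvd (h0 ▸ h8))
  have h11 : ((U' ⊓ fx Γ B₀) ⊔ fixingSubgroup Γ S).relIndex
      (fx Γ B₀ ⊔ fixingSubgroup Γ S) ≤ n.factorial :=
    (Nat.le_of_dvd (Nat.pos_of_ne_zero h9') h8).trans h9
  have h12 := Subgroup.relIndex_mul_relIndex ((U' ⊓ fx Γ B₀) ⊔ fixingSubgroup Γ S)
    (fx Γ B₀ ⊔ fixingSubgroup Γ S) (fx Γ b₀) (sup_le_sup_right inf_le_right _)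
    (sup_le hPb hKb)
  have h13 := hG2 ((U' ⊓ fx Γ B₀) ⊔ fixingSubgroup Γ S)
    (op_mono (op_inf h1 (op_fx hS' hB₀)) le_sup_left) le_sup_right
    (sup_le (inf_le_right.trans hPb) hKb)
    (by rw [← h12]; exact mul_ne_zero h10 hM)
    (by rw [← h12]; exact Nat.mul_le_mul_right _ h11)
  intro x hx
  have hx1 : x ∈ fx Γ B₀ := fx_anti Finset.subset_union_left hx
  have hx2 : x ∈ fx Γ B'' := fx_anti Finset.subset_union_right hx
  obtain ⟨u, hu, k, hk, rfl⟩ := Subgroup.mem_sup_of_normal_right.1 (h13 hx2)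
  have hk1 : k ∈ fx Γ B₀ := by
    have h14 : k = u⁻¹ * (u * k) := by group
    rw [h14]
    exact Subgroup.mul_mem _ (Subgroup.inv_mem _ hu.2) hx1
  exact U.mul_mem (h3 hu.1) (h3 (h7 ⟨hk, hk1⟩))

end

variable {Ω : Type}

end Pool.Agent.Lib.ThC

end

section

/-! # H3c: uniform finite index property; good sets -/

set_option autoImplicit false
open scoped Pointwise

namespace Pool.Agent.Lib.ThC

section
variable {Ω Γ Z : Type} [Group Γ] [MulAction Γ Ω] [MulAction Γ Z]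

end

variable {Ω : Type}

private theorem H3c_ag {H H' : Subgroup (Equiv.Perm Ω)} {S : Set (UU Ω)} (hA : AgrS S H H')
    (B : Finset (UU Ω)) (hB : (B : Set (UU Ω)) ⊆ S) (h : ↥H) :
    ∃ h' : ↥H', ∀ b ∈ B, h' • b = h • b := by
  obtain ⟨τ, hτ, h1⟩ := agrS_finset hA B hB h.2
  exact ⟨⟨τ, hτ⟩, h1⟩

private theorem H3c_fx {Γ : Type} [Group Γ] {Z : Type} [MulAction Γ Z] {B : Finset Z} {g : Γ} :
    g ∈ fx Γ B ↔ ∀ b ∈ B, g • b = b := by
  rw [mem_fixingSubgroup_iff]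
  rfl

/-- Transfer.  Let `U'` be an open subgroup of `H'` with `H'_(S) ≤ U' ≤ H'_(B)` of index `≤ n`.
By `supp_exists` there is a finite `B₂ ⊆ S` containing `B ∪ B'` with `H'_(B₂) ≤ U'`;
let `b` be an enumeration of `B₂` (a tuple of elements of `S`).  On `X = orb (H_(B)) b`, which is
also the orbit of `b` under `H'_(B)` (`AgrS`), `U'` defines an equivalence relation
`E = {(h' b, h'' b) | h'⁻¹ h'' ∈ U'}`, `h', h'' ∈ H'_(B)`, with `≤ n` classes, invariant under `H'_(B)`, hence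
under `H_(B)` (`AgrS` for the tuples `(B, x, y)`).  `U = {h ∈ H_(B) | (b, h b) ∈ E}` is a subgroup
containing `H_(B₂)`, of index `≤ n`, so `H_(B') ≤ U` by `GfinB`.  For `h' ∈ H'_(B')` there is
`h ∈ H_(B')` with `h b = h' b` (`AgrS`), so `(b, h' b) ∈ E`, `h' ∈ U'`. -/
theorem gfinB_transfer [Countable Ω] {H H' : Subgroup (Equiv.Perm Ω)}
    (hN : Nice Ω ↥H) (hN' : Nice Ω ↥H') (hC : Cpl Ω ↥H) (hC' : Cpl Ω ↥H') {S : Set (UU Ω)}
    (hS : SFin Ω ↥H S) (hS' : SFin Ω ↥H' S) (hA : AgrS S H H') {B B' : Finset (UU Ω)}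
    (hB : (B : Set (UU Ω)) ⊆ S) (hB' : (B' : Set (UU Ω)) ⊆ S) (hBB' : B ⊆ B') {n : ℕ}
    (h : GfinB Ω ↥H S B n B') : GfinB Ω ↥H' S B n B' := by
  classical
  intro U' hO hK hU'B hi hn
  obtain ⟨B₂, hB₂, hB₂U⟩ := supp_exists hN' hC' hS'.toSInv hO hK
  -- the finite set used throughout
  obtain ⟨B₃, hB₃, hB'₃, hU₃⟩ : ∃ B₃ : Finset (UU Ω), (B₃ : Set (UU Ω)) ⊆ S ∧ B' ⊆ B₃ ∧
      fx ↥H' B₃ ≤ U' := by
    refine ⟨B₂ ∪ B', ?_, Finset.subset_union_right, (fx_anti Finset.subset_union_left).trans hB₂U⟩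
    rw [Finset.coe_union]
    exact Set.union_subset hB₂ hB'
  have hA' : AgrS S H' H := agrS_symm hA
  have hBB₃ : B ⊆ B₃ := hBB'.trans hB'₃
  have himg : ∀ h : ↥H, ((B₃.image (fun b => h • b) : Finset (UU Ω)) : Set (UU Ω)) ⊆ S := by
    intro h z hz
    rw [Finset.coe_image] at hz
    obtain ⟨b, hb, rfl⟩ := hz
    exact hS.inv h b (hB₃ hb)
  have hun : ∀ h k : ↥H, ((B₃ ∪ B₃.image (fun b => h • b) ∪ B₃.image (fun b => k • b) :
      Finset (UU Ω)) : Set (UU Ω)) ⊆ S := by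
    intro h k
    rw [Finset.coe_union, Finset.coe_union]
    exact Set.union_subset (Set.union_subset hB₃ (himg h)) (himg k)
  -- two elements of `H'` agreeing on `B₃`
  have hco : ∀ a b : ↥H', (∀ z ∈ B₃, a • z = b • z) → b ∈ U' → a ∈ U' := by
    intro a b hab hb
    have h1 : b⁻¹ * a ∈ fx ↥H' B₃ := by
      rw [H3c_fx]
      intro z hz
      rw [mul_smul, hab z hz, inv_smul_smul]
    have h2 : a = b * (b⁻¹ * a) := by group
    rw [h2]
    exact U'.mul_mem hb (hU₃ h1)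
  -- the key closure property
  have key : ∀ h₁ h₂ : ↥H, ∀ h₁' h₂' : ↥H', (∀ z ∈ B₃, h₁' • z = h₁ • z) →
      (∀ z ∈ B₃, h₂' • z = h₂ • z) → h₁'⁻¹ * h₂' ∈ U' →
      ∃ k' ∈ U', ∀ z ∈ B₃, k' • z = (h₁⁻¹ * h₂) • z := by
    intro h₁ h₂ h₁' h₂' e₁ e₂ hu
    obtain ⟨k', hk'⟩ := H3c_ag hA _ (hun h₁ h₂) h₁⁻¹
    refine ⟨k' * h₂', ?_, ?_⟩
    · have h1 : k' * h₁' ∈ U' := by
        refine hU₃ ?_
        rw [H3c_fx]
        intro z hz
        rw [mul_smul, e₁ z hz, hk' (h₁ • z) (by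
          refine Finset.mem_union_left _ (Finset.mem_union_right _ ?_)
          exact Finset.mem_image_of_mem (fun b => h₁ • b) hz), inv_smul_smul]
      have h2 : k' * h₂' = (k' * h₁') * (h₁'⁻¹ * h₂') := by group
      rw [h2]
      exact U'.mul_mem h1 hu
    · intro z hz
      rw [mul_smul, e₂ z hz, hk' (h₂ • z) (by
        refine Finset.mem_union_right _ ?_
        exact Finset.mem_image_of_mem (fun b => h₂ • b) hz), mul_smul]
  -- the transferred subgroup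
  let U : Subgroup ↥H :=
    { carrier := {h | ∃ h' ∈ U', ∀ z ∈ B₃, h' • z = h • z}
      one_mem' := ⟨1, U'.one_mem, fun z _ => by rw [one_smul, one_smul]⟩
      mul_mem' := by
        rintro a b ⟨a', ha', ea⟩ ⟨b', hb', eb⟩
        obtain ⟨c', hc', ec⟩ := key a 1 a' 1 ea (fun z _ => by rw [one_smul, one_smul])
          (by rw [mul_one]; exact U'.inv_mem ha')
        rw [mul_one] at ec
        obtain ⟨d', hd', ed⟩ := key a⁻¹ b c' b' ec eb (U'.mul_mem (U'.inv_mem hc') hb')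
        rw [inv_inv] at ed
        exact ⟨d', hd', ed⟩
      inv_mem' := by
        rintro a ⟨a', ha', ea⟩
        obtain ⟨c', hc', ec⟩ := key a 1 a' 1 ea (fun z _ => by rw [one_smul, one_smul])
          (by rw [mul_one]; exact U'.inv_mem ha')
        rw [mul_one] at ec
        exact ⟨c', hc', ec⟩ }
  have hUmem : ∀ h : ↥H, h ∈ U ↔ ∃ h' ∈ U', ∀ z ∈ B₃, h' • z = h • z := fun h => Iff.rfl
  have hfxU : fx ↥H B₃ ≤ U := by
    intro g hg
    rw [H3c_fx] at hg
    rw [hUmem]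
    exact ⟨1, U'.one_mem, fun z hz => by rw [one_smul, hg z hz]⟩
  have hUB : U ≤ fx ↥H B := by
    intro g hg
    rw [hUmem] at hg
    obtain ⟨g', hg', e⟩ := hg
    rw [H3c_fx]
    intro b hb
    rw [← e b (hBB₃ hb)]
    exact H3c_fx.1 (hU'B hg') b hb
  -- the index
  haveI hfin : Finite (↥(fx ↥H' B) ⧸ U'.subgroupOf (fx ↥H' B)) :=
    (Nat.card_ne_zero.1 hi).2
  have hch : ∀ h : ↥(fx ↥H B), ∃ h' : ↥(fx ↥H' B), ∀ z ∈ B₃, (h' : ↥H') • z = (h : ↥H) • z := by
    intro h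
    obtain ⟨h', e⟩ := H3c_ag hA B₃ hB₃ (h : ↥H)
    refine ⟨⟨h', ?_⟩, e⟩
    rw [H3c_fx]
    intro b hb
    rw [e b (hBB₃ hb)]
    exact H3c_fx.1 h.2 b hb
  choose F hF using hch
  let f : (↥(fx ↥H B) ⧸ U.subgroupOf (fx ↥H B)) → (↥(fx ↥H' B) ⧸ U'.subgroupOf (fx ↥H' B)) :=
    fun q => QuotientGroup.mk (F q.out)
  have hf : Function.Injective f := by
    intro q₁ q₂ hq
    have h1 : (F q₁.out)⁻¹ * F q₂.out ∈ U'.subgroupOf (fx ↥H' B) := QuotientGroup.eq.1 hq
    rw [Subgroup.mem_subgroupOf] at h1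
    obtain ⟨k', hk', ek⟩ := key _ _ _ _ (hF q₁.out) (hF q₂.out) h1
    have h2 : (q₁.out)⁻¹ * q₂.out ∈ U.subgroupOf (fx ↥H B) := by
      rw [Subgroup.mem_subgroupOf, hUmem]
      exact ⟨k', hk', ek⟩
    rw [← Quotient.out_eq q₁, ← Quotient.out_eq q₂]
    exact QuotientGroup.eq.2 h2
  have hfin' : Finite (↥(fx ↥H B) ⧸ U.subgroupOf (fx ↥H B)) := Finite.of_injective f hf
  have hne : U.relIndex (fx ↥H B) ≠ 0 := by
    rw [Subgroup.relIndex, Subgroup.index]
    exact Nat.card_pos.ne'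
  have hle : U.relIndex (fx ↥H B) ≤ n := by
    have h1 : Nat.card (↥(fx ↥H B) ⧸ U.subgroupOf (fx ↥H B)) ≤
        Nat.card (↥(fx ↥H' B) ⧸ U'.subgroupOf (fx ↥H' B)) := Nat.card_le_card_of_injective f hf
    exact h1.trans hn
  have hmain := h U (op_mono (op_fx hS.toSInv hB₃) hfxU)
    ((fixingSubgroup_le_fx hB₃).trans hfxU) hUB hne hle
  intro h' hh'
  obtain ⟨g, eg⟩ := H3c_ag hA' B₃ hB₃ h'
  have h1 : g ∈ fx ↥H B' := by
    rw [H3c_fx]
    intro b hb
    rw [eg b (hB'₃ hb)]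
    exact H3c_fx.1 hh' b hb
  obtain ⟨u', hu', eu⟩ := (hUmem g).1 (hmain h1)
  exact hco h' u' (fun z hz => by rw [eu z hz, eg z hz]) hu'

end Pool.Agent.Lib.ThC

end

section

/-! # H3d: uniform finite index property; good sets -/

set_option autoImplicit false
open scoped Pointwise

namespace Pool.Agent.Lib.ThC

section
variable {Ω Γ Z : Type} [Group Γ] [MulAction Γ Ω] [MulAction Γ Z]

end

variable {Ω : Type}

/-- the empty set is good (`Gfin`: `fixingSubgroup ∅ = ⊤`). -/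
theorem good_empty (G H : Subgroup (Equiv.Perm Ω)) : Good G H ∅ := by
  refine ⟨sfin_empty, near_of_forall fun H' _ _ => ⟨sfin_empty, ?_⟩, ?_⟩
  · intro k y hy
    have hk : k = 0 := by
      by_contra hk
      exact hy ⟨0, Nat.pos_of_ne_zero hk⟩
    subst hk
    ext z
    rw [Subsingleton.elim z y]
    exact ⟨fun _ => mem_orb_self _ _, fun _ => mem_orb_self _ _⟩
  · intro B hB n
    refine ⟨B, hB, Finset.Subset.refl B, ?_⟩
    intro U _ hU _ _ _
    rw [show fixingSubgroup ↥H (∅ : Set (UU Ω)) = ⊤ from by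
      ext g
      simp, top_le_iff] at hU
    rw [hU]
    exact le_top

/-- smaller invariant sets are good (`gfin_sub`). -/
theorem good_sub [Countable Ω] {G H : Subgroup (Equiv.Perm Ω)} (hN : Nice Ω ↥G)
    (hGH : G ≤ H) (hC : Cpl Ω ↥H) {S S' : Set (UU Ω)}
    (hS : SFin Ω ↥H S) (hSS' : S ⊆ S') (h : Good G H S') : Good G H S := by
  refine ⟨hS, near_mono h.near ?_, gfin_sub (nice_mono hN hGH) hC hS.toSInv h.fin.toSInv hSS' h.gf⟩
  rintro H' _ _ ⟨h1, h2⟩
  have h3 : AgrS S H H' := fun k y hy => h2 k y (fun i => hSS' (hy i))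
  have key : ∀ s ∈ S, ∀ z : UU Ω, z ∈ orb H s ↔ z ∈ orb H' s := by
    intro s hs z
    have h4 := h3 1 (fun _ => s) (fun _ => hs)
    constructor
    · rintro ⟨g, hg, rfl⟩
      have h5 : g • (fun _ => s : Fin 1 → UU Ω) ∈ orb H' (fun _ => s : Fin 1 → UU Ω) := by
        rw [← h4]
        exact ⟨g, hg, rfl⟩
      obtain ⟨g', hg', h6⟩ := h5
      exact ⟨g', hg', congrFun h6 0⟩
    · rintro ⟨g, hg, rfl⟩
      have h5 : g • (fun _ => s : Fin 1 → UU Ω) ∈ orb H (fun _ => s : Fin 1 → UU Ω) := by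
        rw [h4]
        exact ⟨g, hg, rfl⟩
      obtain ⟨g', hg', h6⟩ := h5
      exact ⟨g', hg', congrFun h6 0⟩
  refine ⟨⟨⟨?_, fun s hs => h1.sm s (hSS' hs)⟩, ?_⟩, h3⟩
  · intro g s hs
    have h5 : (g : Equiv.Perm Ω) • s ∈ orb H s := (key s hs _).mpr ⟨g.1, g.2, rfl⟩
    obtain ⟨g', hg', h6⟩ := h5
    have h7 := hS.inv ⟨g', hg'⟩ s hs
    have h8 : g • s = (⟨g', hg'⟩ : ↥H) • s := h6.symm
    rw [h8]
    exact h7
  · obtain ⟨F, hF, hF'⟩ := hS.fo
    refine ⟨F, hF, fun s hs => ?_⟩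
    obtain ⟨f, hf, g, hg⟩ := hF' s hs
    have h5 : s ∈ orb H' f := (key f (hF f hf) s).mp ⟨g.1, g.2, hg⟩
    obtain ⟨g', hg', h6⟩ := h5
    exact ⟨f, hf, ⟨g', hg'⟩, h6⟩

/-- near groups satisfy `GfinB` with the same `B'`. -/
theorem good_gfinB [Countable Ω] {G H : Subgroup (Equiv.Perm Ω)} (hN : Nice Ω ↥G)
    (hGH : G ≤ H) (hC : Cpl Ω ↥H) {S : Set (UU Ω)} (h : Good G H S) (B : Finset (UU Ω))
    (hB : (B : Set (UU Ω)) ⊆ S) (n : ℕ) : ∃ B' : Finset (UU Ω), (B' : Set (UU Ω)) ⊆ S ∧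
      B ⊆ B' ∧ GfinB Ω ↥H S B n B' ∧ Near G H (fun H' => GfinB Ω ↥H' S B n B') := by
  obtain ⟨B', hB', hBB', h1⟩ := h.gf B hB n
  refine ⟨B', hB', hBB', h1, near_mono h.near ?_⟩
  rintro H' hGH' hC' ⟨h2, h3⟩
  exact gfinB_transfer (nice_mono hN hGH) (nice_mono hN hGH') hC hC' h.fin h2 h3 hB hB' hBB' h1

end Pool.Agent.Lib.ThC

end

section

/-! # H3e: uniform finite index property; good sets -/

set_option autoImplicit false
open scoped Pointwise

namespace Pool.Agent.Lib.ThC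

section
variable {Ω Γ Z : Type} [Group Γ] [MulAction Γ Ω] [MulAction Γ Z]

end

variable {Ω : Type}

/-- (Int) Adding an element of the definable closure.  Let `b` be an enumeration of `B`.  For `H'` near to `H`
the orbits of `(b, y)` agree (`near_orb`), so `h b ↦ h y` is a map on `orb H b` whose graph
`orb H (b, y) = orb H' (b, y)` is invariant under `H` and `H'`; hence `fx H' B ≤ st H' y`, and a tuple
`(s, h₁ y, …, h_k y)` has the same orbit under `H` and `H'` since `(s, h₁ b, …, h_k b)` has.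
`Gfin`: `fixingSubgroup (S ∪ Hy) = fixingSubgroup S`, and `fx B₁ ≥ fx B₂` with `B₂ ⊆ S` for finite
`B₁ ⊆ S ∪ H y`; for `U` of index `≤ n` in `fx B₁`, `U ⊓ fx B₂` has index `≤ n` in `fx B₂`. -/
theorem good_int [Countable Ω] {G H : Subgroup (Equiv.Perm Ω)} (hN : Nice Ω ↥G)
    (hGH : G ≤ H) (hC : Cpl Ω ↥H) {S : Set (UU Ω)} (h : Good G H S) (y : UU Ω)
    (B : Finset (UU Ω)) (hB : (B : Set (UU Ω)) ⊆ S) (hy : fx ↥H B ≤ st ↥H y) :
    Good G H (S ∪ MulAction.orbit ↥H y) := by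
  classical
  have hopy : Op Ω (st ↥H y) := op_mono (op_fx h.fin.toSInv hB) hy
  -- every element comes from a finite subset of `S`
  have hfin : ∀ z ∈ S ∪ MulAction.orbit ↥H y, ∃ Bz : Finset (UU Ω), (Bz : Set (UU Ω)) ⊆ S ∧
      (z ∈ Bz ∨ ∃ k ∈ H, z = k • y ∧ ∀ b ∈ B, k • b ∈ Bz) := by
    intro z hz
    rcases hz with hz | ⟨k, hk⟩
    · exact ⟨{z}, by simpa using hz, Or.inl (Finset.mem_singleton_self z)⟩
    · refine ⟨B.image (fun b => (k : Equiv.Perm Ω) • b), ?_, Or.inr ⟨k, k.2, hk.symm,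
        fun b hb => Finset.mem_image_of_mem _ hb⟩⟩
      intro b hb
      rw [Finset.mem_coe] at hb
      obtain ⟨c, hc, rfl⟩ := Finset.mem_image.1 hb
      exact h.fin.inv k c (hB hc)
  refine ⟨sfin_union h.fin (sfin_orbit hopy), ?_, ?_⟩
  · -- the tuple `(B, y)`
    let F : Finset (UU Ω) := B ∪ {y}
    let T : Fin F.card → UU Ω := fun i => (F.equivFin.symm i : UU Ω)
    have hT : ∀ z ∈ F, ∃ i, T i = z := fun z hz => ⟨F.equivFin ⟨z, hz⟩, by simp [T]⟩
    have hopT : ∀ i, Op Ω (st ↥H (T i)) := by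
      intro i
      have hz : T i ∈ F := (F.equivFin.symm i).2
      rcases Finset.mem_union.1 hz with hz | hz
      · exact h.fin.sm _ (hB hz)
      · rw [Finset.mem_singleton.1 hz]
        exact hopy
    refine near_mono (near_and (near_and (near_and h.near (near_orb G H T hopT))
      (near_op G H y hopy)) (near_orb_one G H y hopy)) ?_
    rintro H' _ _ ⟨⟨⟨⟨h1, h2⟩, h3⟩, h4⟩, h5⟩
    have hag : ∀ k k' : Equiv.Perm Ω, k • T = k' • T → (∀ b ∈ B, k • b = k' • b) ∧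
        k • y = k' • y := by
      intro k k' hkk
      have hz : ∀ z ∈ F, k • z = k' • z := by
        intro z hz
        obtain ⟨i, rfl⟩ := hT z hz
        exact congrFun hkk i
      exact ⟨fun b hb => hz b (Finset.mem_union_left _ hb),
        hz y (Finset.mem_union_right _ (Finset.mem_singleton_self y))⟩
    -- `fx H' B` fixes `y`
    have h6 : ∀ k' ∈ H', (∀ b ∈ B, k' • b = b) → k' • y = y := by
      intro k' hk' hb
      have h7 : k' • T ∈ orb H T := by rw [h3]; exact smul_mem_orb hk' T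
      obtain ⟨k, hk, hkk⟩ := h7
      obtain ⟨h8, h9⟩ := hag k k' hkk
      rw [← h9]
      have h10 : (⟨k, hk⟩ : ↥H) ∈ fx ↥H B := (mem_fixingSubgroup_iff _).2 fun z hz =>
        (h8 z hz).trans (hb z hz)
      exact hy h10
    -- agreement on `B` implies agreement at `y`
    have h7 : ∀ g ∈ H, ∀ g' ∈ H', (∀ b ∈ B, g • b = g' • b) → g • y = g' • y := by
      intro g hg g' hg' hb
      have h8 : g • T ∈ orb H' T := by rw [← h3]; exact smul_mem_orb hg T
      obtain ⟨k, hk, hkk⟩ := h8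
      obtain ⟨h9, h10⟩ := hag k g hkk
      have h11 : (g'⁻¹ * k) • y = y := h6 _ (H'.mul_mem (H'.inv_mem hg') hk) fun b hb' => by
        rw [mul_smul, h9 b hb', hb b hb', inv_smul_smul]
      rw [mul_smul, inv_smul_eq_iff, h10] at h11
      exact h11
    refine ⟨?_, ?_⟩
    · have h8 : MulAction.orbit ↥H y = MulAction.orbit ↥H' y := by
        rw [orbit_eq_orb, orbit_eq_orb, h5]
      rw [h8]
      exact sfin_union h1 (sfin_orbit h4)
    · intro k z hz
      choose Bz hBz hBz2 using fun i => hfin (z i) (hz i)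
      have hBS : ((Finset.univ.biUnion Bz : Finset (UU Ω)) : Set (UU Ω)) ⊆ S := by
        intro b hb
        rw [Finset.mem_coe] at hb
        obtain ⟨i, -, hi⟩ := Finset.mem_biUnion.1 hb
        exact hBz i hi
      have hcmp : ∀ g ∈ H, ∀ g' ∈ H', (∀ b ∈ Finset.univ.biUnion Bz, g • b = g' • b) →
          ∀ i, g • z i = g' • z i := by
        intro g hg g' hg' hb i
        have hb' : ∀ b ∈ Bz i, g • b = g' • b := fun b hb1 =>
          hb b (Finset.mem_biUnion.2 ⟨i, Finset.mem_univ i, hb1⟩)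
        rcases hBz2 i with h8 | ⟨l, hl, h8, h9⟩
        · exact hb' _ h8
        · have h10 : l • T ∈ orb H' T := by rw [← h3]; exact smul_mem_orb hl T
          obtain ⟨l', hl', hll⟩ := h10
          obtain ⟨h11, h12⟩ := hag l' l hll
          rw [h8]
          have h13 : (g * l) • y = (g' * l') • y := h7 _ (H.mul_mem hg hl) _
            (H'.mul_mem hg' hl') fun b hb1 => by
              rw [mul_smul, mul_smul, h11 b hb1, hb' _ (h9 b hb1)]
          rw [mul_smul, mul_smul, h12] at h13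
          exact h13
      ext e
      constructor
      · rintro ⟨g, hg, rfl⟩
        obtain ⟨g', hg', hgg⟩ := agrS_finset h2 _ hBS hg
        refine ⟨g', hg', ?_⟩
        funext i
        exact (hcmp g hg g' hg' (fun b hb => (hgg b hb).symm) i).symm
      · rintro ⟨g', hg', rfl⟩
        obtain ⟨g, hg, hgg⟩ := agrS_finset (agrS_symm h2) _ hBS hg'
        refine ⟨g, hg, ?_⟩
        funext i
        exact hcmp g hg g' hg' (fun b hb => hgg b hb) i
  · -- the uniform finite index property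
    intro B₁ hB₁ n
    have hex : ∀ z : UU Ω, ∃ Bz : Finset (UU Ω), (Bz : Set (UU Ω)) ⊆ S ∧
        (z ∈ S ∪ MulAction.orbit ↥H y → z ∈ Bz ∨ ∃ k ∈ H, z = k • y ∧ ∀ b ∈ B, k • b ∈ Bz) := by
      intro z
      by_cases hz : z ∈ S ∪ MulAction.orbit ↥H y
      · obtain ⟨Bz, h1, h2⟩ := hfin z hz
        exact ⟨Bz, h1, fun _ => h2⟩
      · exact ⟨∅, by simp, fun h => (hz h).elim⟩
    choose Bz hBz hBz2 using hex
    have hBS : ((B₁.biUnion Bz : Finset (UU Ω)) : Set (UU Ω)) ⊆ S := by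
      intro b hb
      rw [Finset.mem_coe] at hb
      obtain ⟨i, -, hi⟩ := Finset.mem_biUnion.1 hb
      exact hBz i hi
    have hle : fx ↥H (B₁.biUnion Bz) ≤ fx ↥H B₁ := by
      intro g hg
      have hg' := (mem_fixingSubgroup_iff _).1 hg
      refine (mem_fixingSubgroup_iff _).2 fun z hz => ?_
      have hz' : z ∈ B₁ := hz
      have hb' : ∀ b ∈ Bz z, g • b = b := fun b hb1 =>
        hg' b (Finset.mem_coe.2 (Finset.mem_biUnion.2 ⟨z, hz', hb1⟩))
      rcases hBz2 z (hB₁ hz) with h8 | ⟨l, hl, h8, h9⟩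
      · exact hb' _ h8
      · have h10 : (⟨l, hl⟩ : ↥H)⁻¹ * g * ⟨l, hl⟩ ∈ fx ↥H B :=
          (mem_fixingSubgroup_iff _).2 fun b hb1 => by
            have h11 : g • ((⟨l, hl⟩ : ↥H) • b) = (⟨l, hl⟩ : ↥H) • b := hb' _ (h9 b hb1)
            rw [mul_smul, mul_smul, h11, inv_smul_smul]
        have h11 : ((⟨l, hl⟩ : ↥H)⁻¹ * g * ⟨l, hl⟩) • y = y := hy h10
        rw [mul_smul, mul_smul, inv_smul_eq_iff] at h11
        rw [h8]
        exact h11
    obtain ⟨B', hB'1, hB'2, hB'3⟩ := h.gf (B₁.biUnion Bz) hBS n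
    refine ⟨B₁ ∪ B', ?_, Finset.subset_union_left, ?_⟩
    · intro z hz
      rw [Finset.mem_coe] at hz
      rcases Finset.mem_union.1 hz with hz | hz
      · exact hB₁ hz
      · exact Or.inl (hB'1 hz)
    · intro U hU hUS hUB hU1 hU2
      have hfixS : fixingSubgroup ↥H S ≤ fixingSubgroup ↥H (S ∪ MulAction.orbit ↥H y) := by
        intro g hg
        have hg' := (mem_fixingSubgroup_iff _).1 hg
        refine (mem_fixingSubgroup_iff _).2 fun z hz => ?_
        rcases hz with hz | ⟨l, hl⟩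
        · exact hg' z hz
        · have hl' : l • y = z := hl
          have h10 : l⁻¹ * g * l ∈ fx ↥H B :=
            (mem_fixingSubgroup_iff _).2 fun b hb1 => by
              have h11 : g • (l • b) = l • b := hg' _ (h.fin.inv l b (hB hb1))
              rw [mul_smul, mul_smul, h11, inv_smul_smul]
          have h11 : (l⁻¹ * g * l) • y = y := hy h10
          rw [mul_smul, mul_smul, inv_smul_eq_iff] at h11
          rw [← hl']
          exact h11
      have hidx : (U ⊓ fx ↥H (B₁.biUnion Bz)).relIndex (fx ↥H (B₁.biUnion Bz)) =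
          U.relIndex (fx ↥H (B₁.biUnion Bz)) := Subgroup.inf_relIndex_right _ _
      have h1 : fx ↥H B' ≤ U ⊓ fx ↥H (B₁.biUnion Bz) := by
        refine hB'3 _ (op_inf hU (op_fx h.fin.toSInv hBS)) (le_inf (hfixS.trans hUS)
          (fixingSubgroup_le_fx hBS)) inf_le_right ?_ ?_
        · rw [hidx]
          exact fun h0 => hU1 (Subgroup.relIndex_eq_zero_of_le_right hle h0)
        · rw [hidx]
          exact (Subgroup.relIndex_le_of_le_right hle hU1).trans hU2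
      exact (fx_anti Finset.subset_union_right).trans (h1.trans inf_le_left)

end Pool.Agent.Lib.ThC

end
end

section

section

/-! # J1a: torsors and their cocycles -/

set_option autoImplicit false
open scoped Pointwise

namespace Pool.Agent.Lib.ThC

variable {Ω : Type}

/-- The orbit `E = H y` is a bundle of right `A`-torsors over `X = H x`; the action `ρ` commutes with
`H`. -/
structure Tors (A : Type) [Group A] (H : Subgroup (Equiv.Perm Ω)) (x y : UU Ω)
    (ρ : A → UU Ω → UU Ω) : Prop where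
  op : Op Ω (st ↥H y)
  le : st ↥H y ≤ st ↥H x
  one : ∀ e ∈ orb H y, ρ 1 e = e
  mul : ∀ a b : A, ∀ e ∈ orb H y, ρ (a * b) e = ρ b (ρ a e)
  mem : ∀ a : A, ∀ e ∈ orb H y, ρ a e ∈ orb H y
  comm : ∀ h ∈ H, ∀ a : A, ∀ e ∈ orb H y, ρ a (h • e) = h • ρ a e
  free : ∀ a b : A, ∀ e ∈ orb H y, ρ a e = ρ b e → a = b
  fib : ∀ e : UU Ω, (x, e) ∈ orb H (x, y) ↔ ∃ a : A, e = ρ a y

/-- a section `s` and its cocycle `D`: `h • s x' = ρ (D h x') (s (h • x'))`. -/
structure Coc (A : Type) [Group A] (H : Subgroup (Equiv.Perm Ω)) (x y : UU Ω)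
    (ρ : A → UU Ω → UU Ω) (s : UU Ω → UU Ω) (D : Equiv.Perm Ω → UU Ω → A) : Prop where
  tors : Tors A H x y ρ
  sec : ∀ x' ∈ orb H x, (x', s x') ∈ orb H (x, y)
  spec : ∀ h ∈ H, ∀ x' ∈ orb H x, h • s x' = ρ (D h x') (s (h • x'))

variable {A : Type} [Group A]

/-- fibres over arbitrary points: transport by an element of `H` with `comm`. -/
theorem tors_fib {H : Subgroup (Equiv.Perm Ω)} {x y : UU Ω} {ρ : A → UU Ω → UU Ω}
    (h : Tors A H x y ρ) {x' e : UU Ω} (he : (x', e) ∈ orb H (x, y)) (e' : UU Ω) :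
    (x', e') ∈ orb H (x, y) ↔ ∃ a : A, e' = ρ a e := by
  obtain ⟨g, hg, hge⟩ := he
  have h1 : g • x = x' := congrArg Prod.fst hge
  have h2 : g • y = e := congrArg Prod.snd hge
  have h3 : (x', e') ∈ orb H (x, y) ↔ (x, g⁻¹ • e') ∈ orb H (x, y) := by
    constructor
    · rintro ⟨k, hk, hk1⟩
      refine ⟨g⁻¹ * k, H.mul_mem (H.inv_mem hg) hk, ?_⟩
      rw [mul_smul, hk1, Prod.smul_mk, ← h1, inv_smul_smul]
    · rintro ⟨k, hk, hk1⟩
      refine ⟨g * k, H.mul_mem hg hk, ?_⟩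
      rw [mul_smul, hk1, Prod.smul_mk, h1, smul_inv_smul]
  rw [h3, h.fib]
  constructor
  · rintro ⟨a, ha⟩
    refine ⟨a, ?_⟩
    rw [inv_smul_eq_iff, ← h.comm g hg a y (mem_orb_self H y), h2] at ha
    exact ha
  · rintro ⟨a, ha⟩
    refine ⟨a, ?_⟩
    rw [inv_smul_eq_iff, ← h.comm g hg a y (mem_orb_self H y), h2]
    exact ha

private theorem J1a_fun {H : Subgroup (Equiv.Perm Ω)} {x y : UU Ω}
    (hle : st ↥H y ≤ st ↥H x) {u v e : UU Ω} (hu : (u, e) ∈ orb H (x, y))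
    (hv : (v, e) ∈ orb H (x, y)) : u = v := by
  obtain ⟨g, hg, hg1⟩ := hu
  obtain ⟨k, hk, hk1⟩ := hv
  have h1 : g • x = u := congrArg Prod.fst hg1
  have h2 : g • y = e := congrArg Prod.snd hg1
  have h3 : k • x = v := congrArg Prod.fst hk1
  have h4 : k • y = e := congrArg Prod.snd hk1
  have h5 : (⟨g⁻¹ * k, H.mul_mem (H.inv_mem hg) hk⟩ : ↥H) ∈ st ↥H y := by
    have h6 : (g⁻¹ * k) • y = y := by rw [mul_smul, h4, ← h2, inv_smul_smul]
    exact h6
  have h6 : (g⁻¹ * k) • x = x := hle h5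
  rw [mul_smul, h3, inv_smul_eq_iff, h1] at h6
  exact h6.symm

private theorem J1a_orb {H H' : Subgroup (Equiv.Perm Ω)} {x y : UU Ω}
    (h : orb H (x, y) = orb H' (x, y)) : orb H y = orb H' y := by
  ext e
  constructor
  · rintro ⟨g, hg, rfl⟩
    have h1 : g • (x, y) ∈ orb H' (x, y) := h ▸ smul_mem_orb hg (x, y)
    obtain ⟨k, hk, hk1⟩ := h1
    exact ⟨k, hk, congrArg Prod.snd hk1⟩
  · rintro ⟨g, hg, rfl⟩
    have h1 : g • (x, y) ∈ orb H (x, y) := h ▸ smul_mem_orb hg (x, y)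
    obtain ⟨k, hk, hk1⟩ := h1
    exact ⟨k, hk, congrArg Prod.snd hk1⟩

/-- torsors persist near `H`: use `near_op`, and `near_orb` for `(x, y)` and the finitely many pairs
`(y, ρ a y)`.  `le`: if `h' ∈ H'` fixes `y` then `(h' x, y) ∈ orb H (x, y)`.  `comm`: `(h y, h ρ_a y)` runs
through `orb H (y, ρ_a y) = orb H' (y, ρ_a y)`, the graph of `ρ a`, which is therefore
`H'`-invariant. -/
theorem near_tors [Finite A] (G H : Subgroup (Equiv.Perm Ω)) {x y : UU Ω}
    {ρ : A → UU Ω → UU Ω} (hx : Op Ω (st ↥H x)) (h : Tors A H x y ρ) :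
    Near G H (fun H' => Tors A H' x y ρ) := by
  have hopa : ∀ a : A, Op Ω (st ↥H (ρ a y)) := fun a => by
    refine op_mono h.op fun g hg => ?_
    have h1 : (g : Equiv.Perm Ω) • y = y := hg
    have h2 : (g : Equiv.Perm Ω) • ρ a y = ρ a y := by
      rw [← h.comm g g.2 a y (mem_orb_self H y), h1]
    exact h2
  have hfin := near_forall_fin (G := G) (H := H) (ι := A) (s := Set.univ) Set.finite_univ
    (Q := fun a H' => orb H (y, ρ a y) = orb H' (y, ρ a y))
    (fun a _ => near_orb_two G H y (ρ a y) h.op (hopa a))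
  refine near_mono (near_and (near_and (near_op G H y h.op) (near_orb_two G H x y hx h.op))
    hfin) ?_
  rintro H' _ _ ⟨⟨h1, h2⟩, h3⟩
  have h4 : orb H y = orb H' y := J1a_orb h2
  refine ⟨h1, ?_, ?_, ?_, ?_, ?_, ?_, ?_⟩
  · intro g hg
    have h5 : (g : Equiv.Perm Ω) • y = y := hg
    have h6 : ((g : Equiv.Perm Ω) • x, y) ∈ orb H (x, y) := by
      rw [h2]
      refine ⟨g, g.2, ?_⟩
      rw [Prod.smul_mk, h5]
    have h7 : (g : Equiv.Perm Ω) • x = x := J1a_fun h.le h6 (mem_orb_self H (x, y))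
    exact h7
  · intro e he
    exact h.one e (h4 ▸ he)
  · intro a b e he
    exact h.mul a b e (h4 ▸ he)
  · intro a e he
    rw [← h4] at he ⊢
    exact h.mem a e he
  · intro g hg a e he
    rw [← h4] at he
    obtain ⟨k, hk, rfl⟩ := he
    have h5 : (k • y, ρ a (k • y)) ∈ orb H' (y, ρ a y) := by
      rw [← h3 a (Set.mem_univ a)]
      refine ⟨k, hk, ?_⟩
      rw [Prod.smul_mk, h.comm k hk a y (mem_orb_self H y)]
    obtain ⟨l, hl, hl1⟩ := h5
    have h6 : g • (k • y, ρ a (k • y)) ∈ orb H (y, ρ a y) := by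
      rw [h3 a (Set.mem_univ a), ← hl1]
      exact ⟨g * l, H'.mul_mem hg hl, by rw [mul_smul]⟩
    obtain ⟨m, hm, hm1⟩ := h6
    have h7 : m • y = g • k • y := congrArg Prod.fst hm1
    have h8 : m • ρ a y = g • ρ a (k • y) := congrArg Prod.snd hm1
    rw [← h7, ← h8, h.comm m hm a y (mem_orb_self H y)]
  · intro a b e he
    exact h.free a b e (h4 ▸ he)
  · intro e
    rw [← h2]
    exact h.fib e

/-- the pointwise stabiliser of `S` in `H`. -/
def KK {Z : Type} [MulAction (Equiv.Perm Ω) Z] (H : Subgroup (Equiv.Perm Ω)) (S : Set Z) :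
    Subgroup (Equiv.Perm Ω) := H ⊓ fixingSubgroup (Equiv.Perm Ω) S

end Pool.Agent.Lib.ThC

end

section

/-! # J1b: torsors and their cocycles -/

set_option autoImplicit false
open scoped Pointwise

namespace Pool.Agent.Lib.ThC

variable {Ω : Type}

variable {A : Type} [Group A]

/-- a section and a cocycle exist, good for all near groups: choose `s`, and
`D σ x' =` the `a` with `σ • s x' = ρ a (s (σ • x'))` if there is one. -/
theorem coc_exists [Finite A] (G H : Subgroup (Equiv.Perm Ω)) {x y : UU Ω}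
    {ρ : A → UU Ω → UU Ω} (hx : Op Ω (st ↥H x)) (h : Tors A H x y ρ) :
    ∃ (s : UU Ω → UU Ω) (D : Equiv.Perm Ω → UU Ω → A), Coc A H x y ρ s D ∧
      Near G H (fun H' => Coc A H' x y ρ s D ∧ orb H x = orb H' x ∧ orb H y = orb H' y ∧
        orb H (x, y) = orb H' (x, y)) := by
  classical
  have hs : ∀ x' : UU Ω, ∃ e : UU Ω, x' ∈ orb H x → (x', e) ∈ orb H (x, y) := by
    intro x'
    by_cases hx' : x' ∈ orb H x
    · obtain ⟨g, hg, rfl⟩ := hx'
      exact ⟨g • y, fun _ => ⟨g, hg, rfl⟩⟩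
    · exact ⟨y, fun h => (hx' h).elim⟩
  choose s hs using hs
  have hD : ∀ (σ : Equiv.Perm Ω) (x' : UU Ω), ∃ a : A,
      (∃ b : A, σ • s x' = ρ b (s (σ • x'))) → σ • s x' = ρ a (s (σ • x')) := by
    intro σ x'
    by_cases hb : ∃ b : A, σ • s x' = ρ b (s (σ • x'))
    · obtain ⟨b, hb⟩ := hb
      exact ⟨b, fun _ => hb⟩
    · exact ⟨1, fun h => (hb h).elim⟩
  choose D hD using hD
  have horb : ∀ {H' : Subgroup (Equiv.Perm Ω)}, orb H (x, y) = orb H' (x, y) →
      orb H x = orb H' x ∧ orb H y = orb H' y := by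
    intro H' h2
    constructor
    · ext e
      constructor
      · rintro ⟨g, hg, rfl⟩
        have h1 : g • (x, y) ∈ orb H' (x, y) := h2 ▸ smul_mem_orb hg (x, y)
        obtain ⟨k, hk, hk1⟩ := h1
        exact ⟨k, hk, congrArg Prod.fst hk1⟩
      · rintro ⟨g, hg, rfl⟩
        have h1 : g • (x, y) ∈ orb H (x, y) := h2 ▸ smul_mem_orb hg (x, y)
        obtain ⟨k, hk, hk1⟩ := h1
        exact ⟨k, hk, congrArg Prod.fst hk1⟩
    · ext e
      constructor
      · rintro ⟨g, hg, rfl⟩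
        have h1 : g • (x, y) ∈ orb H' (x, y) := h2 ▸ smul_mem_orb hg (x, y)
        obtain ⟨k, hk, hk1⟩ := h1
        exact ⟨k, hk, congrArg Prod.snd hk1⟩
      · rintro ⟨g, hg, rfl⟩
        have h1 : g • (x, y) ∈ orb H (x, y) := h2 ▸ smul_mem_orb hg (x, y)
        obtain ⟨k, hk, hk1⟩ := h1
        exact ⟨k, hk, congrArg Prod.snd hk1⟩
  have key : ∀ {H' : Subgroup (Equiv.Perm Ω)}, orb H (x, y) = orb H' (x, y) →
      Tors A H' x y ρ → Coc A H' x y ρ s D := by
    intro H' h2 hT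
    have h3 := (horb h2).1
    have hsec : ∀ x' ∈ orb H' x, (x', s x') ∈ orb H' (x, y) := by
      intro x' hx'
      rw [← h2]
      exact hs x' (h3 ▸ hx')
    refine ⟨hT, hsec, fun g hg x' hx' => hD g x' ?_⟩
    obtain ⟨k, hk, hk1⟩ := hsec x' hx'
    have h4 : (g • x', g • s x') ∈ orb H' (x, y) :=
      ⟨g * k, H'.mul_mem hg hk, by rw [mul_smul, hk1]; rfl⟩
    have h5 : g • x' ∈ orb H' x := by
      obtain ⟨l, hl, rfl⟩ := hx'
      exact ⟨g * l, H'.mul_mem hg hl, by rw [mul_smul]⟩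
    exact (tors_fib hT (hsec _ h5) _).1 h4
  refine ⟨s, D, key rfl h, ?_⟩
  refine near_mono (near_and (near_tors G H hx h) (near_orb_two G H x y hx h.op)) ?_
  rintro H' _ _ ⟨h1, h2⟩
  exact ⟨key h2 h1, (horb h2).1, (horb h2).2, h2⟩

end Pool.Agent.Lib.ThC

end

section

/-! # J1c: torsors and their cocycles -/

set_option autoImplicit false
open scoped Pointwise

namespace Pool.Agent.Lib.ThC

variable {Ω : Type}

variable {A : Type} [Group A]

private theorem J1c_smul_mem {H : Subgroup (Equiv.Perm Ω)} {x x' : UU Ω} (hx' : x' ∈ orb H x)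
    {h : Equiv.Perm Ω} (hh : h ∈ H) : h • x' ∈ orb H x := by
  obtain ⟨l, hl, rfl⟩ := hx'
  exact ⟨h * l, H.mul_mem hh hl, by rw [mul_smul]⟩

private theorem J1c_sy {H : Subgroup (Equiv.Perm Ω)} {x y : UU Ω} {ρ : A → UU Ω → UU Ω}
    {s : UU Ω → UU Ω} {D : Equiv.Perm Ω → UU Ω → A} (hD : Coc A H x y ρ s D)
    {x' : UU Ω} (hx' : x' ∈ orb H x) : s x' ∈ orb H y := by
  obtain ⟨g, hg, hg1⟩ := hD.sec x' hx'
  exact ⟨g, hg, congrArg Prod.snd hg1⟩

private theorem J1c_fun {H : Subgroup (Equiv.Perm Ω)} {x y : UU Ω}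
    (hle : st ↥H y ≤ st ↥H x) {u v e : UU Ω} (hu : (u, e) ∈ orb H (x, y))
    (hv : (v, e) ∈ orb H (x, y)) : u = v := by
  obtain ⟨g, hg, hg1⟩ := hu
  obtain ⟨k, hk, hk1⟩ := hv
  have h1 : g • x = u := congrArg Prod.fst hg1
  have h2 : g • y = e := congrArg Prod.snd hg1
  have h3 : k • x = v := congrArg Prod.fst hk1
  have h4 : k • y = e := congrArg Prod.snd hk1
  have h5 : (⟨g⁻¹ * k, H.mul_mem (H.inv_mem hg) hk⟩ : ↥H) ∈ st ↥H y := by
    have h6 : (g⁻¹ * k) • y = y := by rw [mul_smul, h4, ← h2, inv_smul_smul]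
    exact h6
  have h6 : (g⁻¹ * k) • x = x := hle h5
  rw [mul_smul, h3, inv_smul_eq_iff, h1] at h6
  exact h6.symm

/-- the cocycle identity. -/
theorem coc_mul {H : Subgroup (Equiv.Perm Ω)} {x y : UU Ω} {ρ : A → UU Ω → UU Ω}
    {s : UU Ω → UU Ω} {D : Equiv.Perm Ω → UU Ω → A} (hD : Coc A H x y ρ s D)
    {h h' : Equiv.Perm Ω} (hh : h ∈ H) (hh' : h' ∈ H) {x' : UU Ω} (hx' : x' ∈ orb H x) :
    D (h * h') x' = D h (h' • x') * D h' x' := by
  have hx1 : h' • x' ∈ orb H x := J1c_smul_mem hx' hh'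
  have hx2 : h • h' • x' ∈ orb H x := J1c_smul_mem hx1 hh
  have h1 := hD.spec (h * h') (H.mul_mem hh hh') x' hx'
  have h2 := hD.spec h' hh' x' hx'
  have h3 := hD.spec h hh (h' • x') hx1
  rw [mul_smul, mul_smul, h2, ← hD.tors.comm h hh _ _ (J1c_sy hD hx1), h3,
    ← hD.tors.mul _ _ _ (J1c_sy hD hx2)] at h1
  exact (hD.tors.free _ _ _ (J1c_sy hD hx2) h1).symm

theorem coc_inv {H : Subgroup (Equiv.Perm Ω)} {x y : UU Ω} {ρ : A → UU Ω → UU Ω}
    {s : UU Ω → UU Ω} {D : Equiv.Perm Ω → UU Ω → A} (hD : Coc A H x y ρ s D)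
    {h : Equiv.Perm Ω} (hh : h ∈ H) {x' : UU Ω} (hx' : x' ∈ orb H x) :
    D h⁻¹ (h • x') = (D h x')⁻¹ := by
  have h1 := coc_mul hD (H.inv_mem hh) hh hx'
  have h2 : D 1 x' = 1 := by
    have h3 := hD.spec 1 H.one_mem x' hx'
    rw [one_smul, one_smul] at h3
    have h4 := hD.tors.one _ (J1c_sy hD hx')
    exact (hD.tors.free _ _ _ (J1c_sy hD hx') (h4.trans h3)).symm
  rw [inv_mul_cancel, h2] at h1
  exact eq_inv_of_mul_eq_one_left h1.symm

/-- conjugation of elements fixing `x'`. -/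
theorem coc_conj {H : Subgroup (Equiv.Perm Ω)} {x y : UU Ω} {ρ : A → UU Ω → UU Ω}
    {s : UU Ω → UU Ω} {D : Equiv.Perm Ω → UU Ω → A} (hD : Coc A H x y ρ s D)
    {h k : Equiv.Perm Ω} (hh : h ∈ H) (hk : k ∈ H) {x' : UU Ω} (hx' : x' ∈ orb H x)
    (hkx : k • x' = x') : D (h * k * h⁻¹) (h • x') = D h x' * D k x' * (D h x')⁻¹ := by
  have h1 : h • x' ∈ orb H x := J1c_smul_mem hx' hh
  rw [coc_mul hD (H.mul_mem hh hk) (H.inv_mem hh) h1, coc_inv hD hh hx', inv_smul_smul,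
    coc_mul hD hh hk hx', hkx]

/-- elements of `E`: the action of `h` on the fibre over `x'`. -/
theorem coc_act {H : Subgroup (Equiv.Perm Ω)} {x y : UU Ω} {ρ : A → UU Ω → UU Ω}
    {s : UU Ω → UU Ω} {D : Equiv.Perm Ω → UU Ω → A} (hD : Coc A H x y ρ s D)
    {h : Equiv.Perm Ω} (hh : h ∈ H) {x' : UU Ω} (hx' : x' ∈ orb H x) (a : A) :
    h • ρ a (s x') = ρ (D h x' * a) (s (h • x')) := by
  rw [← hD.tors.comm h hh a _ (J1c_sy hD hx'), hD.spec h hh x' hx',
    ← hD.tors.mul _ _ _ (J1c_sy hD (J1c_smul_mem hx' hh))]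

/-- every element of `E` is `ρ a (s x')` for some `x'` and `a`. -/
theorem coc_surj {H : Subgroup (Equiv.Perm Ω)} {x y : UU Ω} {ρ : A → UU Ω → UU Ω}
    {s : UU Ω → UU Ω} {D : Equiv.Perm Ω → UU Ω → A} (hD : Coc A H x y ρ s D) {e : UU Ω}
    (he : e ∈ orb H y) : ∃ x' ∈ orb H x, ∃ a : A, e = ρ a (s x') ∧ (x', e) ∈ orb H (x, y) := by
  obtain ⟨g, hg, rfl⟩ := he
  have h1 : (g • x, g • y) ∈ orb H (x, y) := ⟨g, hg, rfl⟩
  have h2 : g • x ∈ orb H x := smul_mem_orb hg x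
  obtain ⟨a, ha⟩ := (tors_fib hD.tors (hD.sec _ h2) _).1 h1
  exact ⟨g • x, h2, a, ha, h1⟩

/-- `h` and `h'` act in the same way on the fibre over `x'` iff they agree at `x'` and have the same
cocycle.  (`h ∈ H`, `h' ∈ H'`.) -/
theorem coc_eq_iff {H H' : Subgroup (Equiv.Perm Ω)} {x y : UU Ω} {ρ : A → UU Ω → UU Ω}
    {s : UU Ω → UU Ω} {D : Equiv.Perm Ω → UU Ω → A} (hD : Coc A H x y ρ s D)
    (hD' : Coc A H' x y ρ s D) (ho : orb H (x, y) = orb H' (x, y))
    {h h' : Equiv.Perm Ω} (hh : h ∈ H) (hh' : h' ∈ H') {x' : UU Ω} (hx' : x' ∈ orb H x)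
    (a : A) : h • ρ a (s x') = h' • ρ a (s x') ↔ h • x' = h' • x' ∧ D h x' = D h' x' := by
  have hx2 : x' ∈ orb H' x := by
    have h1 := hD.sec x' hx'
    rw [ho] at h1
    obtain ⟨k, hk, hk1⟩ := h1
    exact ⟨k, hk, congrArg Prod.fst hk1⟩
  have hx3 : h' • x' ∈ orb H' x := J1c_smul_mem hx2 hh'
  have hx4 : h' • x' ∈ orb H x := by
    have h1 := hD'.sec _ hx3
    rw [← ho] at h1
    obtain ⟨k, hk, hk1⟩ := h1
    exact ⟨k, hk, congrArg Prod.fst hk1⟩
  have hx5 : h • x' ∈ orb H x := J1c_smul_mem hx' hh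
  rw [coc_act hD hh hx' a, coc_act hD' hh' hx2 a]
  constructor
  · intro h1
    have h2 : (h • x', ρ (D h x' * a) (s (h • x'))) ∈ orb H (x, y) :=
      (tors_fib hD.tors (hD.sec _ hx5) _).2 ⟨_, rfl⟩
    have h3 : (h' • x', ρ (D h' x' * a) (s (h' • x'))) ∈ orb H (x, y) :=
      (tors_fib hD.tors (hD.sec _ hx4) _).2 ⟨_, rfl⟩
    rw [← h1] at h3
    have h4 : h • x' = h' • x' := J1c_fun hD.tors.le h2 h3
    refine ⟨h4, ?_⟩
    rw [← h4] at h1
    exact mul_right_cancel (hD.tors.free _ _ _ (J1c_sy hD hx5) h1)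
  · rintro ⟨h1, h2⟩
    rw [h1, h2]

end Pool.Agent.Lib.ThC

end

section

/-! # J1d: torsors and their cocycles -/

set_option autoImplicit false
open scoped Pointwise

namespace Pool.Agent.Lib.ThC

variable {Ω : Type}

variable {A : Type} [Group A]

private theorem J1d_fi {Γ X : Type} [Group Γ] [MulAction Γ X] {U : Subgroup Γ} (B : Finset X)
    (h : ∀ a ∈ B, (orb U a).Finite) : (fx Γ B).relIndex U ≠ 0 := by
  classical
  induction B using Finset.induction_on with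
  | empty =>
    have e : fx Γ (∅ : Finset X) = ⊤ := by
      ext x
      rw [mem_fixingSubgroup_iff]
      simp
    rw [e, Subgroup.relIndex_top_left]
    exact one_ne_zero
  | insert a B _ ih =>
    have e : fx Γ (insert a B) = st Γ a ⊓ fx Γ B := by
      ext x
      rw [Subgroup.mem_inf, mem_fixingSubgroup_iff, mem_fixingSubgroup_iff,
        MulAction.mem_stabilizer_iff]
      simp
    rw [e]
    exact Subgroup.relIndex_inf_ne_zero
      ((orb_finite_iff U a).1 (h a (Finset.mem_insert_self a B)))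
      (ih fun b hb => h b (Finset.mem_insert_of_mem hb))

/-- Criterion for `AgrS (S ∪ E)`: it is enough to realise cocycle values. -/
theorem agrS_of_coc {H H' : Subgroup (Equiv.Perm Ω)} {x y : UU Ω} {ρ : A → UU Ω → UU Ω}
    {s : UU Ω → UU Ω} {D : Equiv.Perm Ω → UU Ω → A} (hD : Coc A H x y ρ s D)
    (hD' : Coc A H' x y ρ s D) (ho : orb H (x, y) = orb H' (x, y)) {S : Set (UU Ω)}
    (hX : orb H x ⊆ S)
    (h1 : ∀ h ∈ H, ∀ (B X₁ : Finset (UU Ω)), (B : Set (UU Ω)) ⊆ S →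
      (X₁ : Set (UU Ω)) ⊆ orb H x → ∃ h' ∈ H', (∀ b ∈ B, h' • b = h • b) ∧
        ∀ x' ∈ X₁, D h' x' = D h x')
    (h2 : ∀ h' ∈ H', ∀ (B X₁ : Finset (UU Ω)), (B : Set (UU Ω)) ⊆ S →
      (X₁ : Set (UU Ω)) ⊆ orb H x → ∃ h ∈ H, (∀ b ∈ B, h • b = h' • b) ∧
        ∀ x' ∈ X₁, D h x' = D h' x') : AgrS (S ∪ orb H y) H H' := by
  classical
  intro k z hz
  have hone : ∀ i : Fin k, ∃ B X₁ : Finset (UU Ω), (B : Set (UU Ω)) ⊆ S ∧
      (X₁ : Set (UU Ω)) ⊆ orb H x ∧ ∀ h ∈ H, ∀ h' ∈ H', (∀ b ∈ B, h' • b = h • b) →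
        (∀ x' ∈ X₁, D h' x' = D h x') → h' • z i = h • z i := by
    intro i
    rcases hz i with hi | hi
    · refine ⟨{z i}, ∅, by simpa using hi, by simp, fun h _ h' _ h3 _ => ?_⟩
      exact h3 _ (Finset.mem_singleton_self _)
    · obtain ⟨x', hx', a, ha, -⟩ := coc_surj hD hi
      refine ⟨{x'}, {x'}, by simpa using hX hx', by simpa using hx',
        fun h hh h' hh' h3 h4 => ?_⟩
      rw [ha]
      exact ((coc_eq_iff hD hD' ho hh hh' hx' a).2
        ⟨(h3 _ (Finset.mem_singleton_self _)).symm,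
          (h4 _ (Finset.mem_singleton_self _)).symm⟩).symm
  choose B X₁ hB hX₁ hzi using hone
  have hB' : ((Finset.univ.biUnion B : Finset (UU Ω)) : Set (UU Ω)) ⊆ S := by
    intro b hb
    rw [Finset.mem_coe] at hb
    obtain ⟨i, -, hi⟩ := Finset.mem_biUnion.1 hb
    exact hB i hi
  have hX' : ((Finset.univ.biUnion X₁ : Finset (UU Ω)) : Set (UU Ω)) ⊆ orb H x := by
    intro b hb
    rw [Finset.mem_coe] at hb
    obtain ⟨i, -, hi⟩ := Finset.mem_biUnion.1 hb
    exact hX₁ i hi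
  ext e
  constructor
  · rintro ⟨h, hh, rfl⟩
    obtain ⟨h', hh', h3, h4⟩ := h1 h hh _ _ hB' hX'
    refine ⟨h', hh', ?_⟩
    funext i
    exact hzi i h hh h' hh'
      (fun b hb => h3 b (Finset.mem_biUnion.2 ⟨i, Finset.mem_univ i, hb⟩))
      (fun b hb => h4 b (Finset.mem_biUnion.2 ⟨i, Finset.mem_univ i, hb⟩))
  · rintro ⟨h', hh', rfl⟩
    obtain ⟨h, hh, h3, h4⟩ := h2 h' hh' _ _ hB' hX'
    refine ⟨h, hh, ?_⟩
    funext i
    exact (hzi i h hh h' hh'
      (fun b hb => (h3 b (Finset.mem_biUnion.2 ⟨i, Finset.mem_univ i, hb⟩)).symm)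
      (fun b hb => (h4 b (Finset.mem_biUnion.2 ⟨i, Finset.mem_univ i, hb⟩)).symm)).symm

/-- For `X ⊆ S`: the fibres are finite, so the pointwise stabiliser of finitely many points
`B₀ = b₀ ∪ (points of E over b₀)` has finite index in that of `b₀`. -/
theorem coc_fi [Finite A] {H : Subgroup (Equiv.Perm Ω)} {x y : UU Ω} {ρ : A → UU Ω → UU Ω}
    {s : UU Ω → UU Ω} {D : Equiv.Perm Ω → UU Ω → A} (hD : Coc A H x y ρ s D)
    (b₀ B₀ : Finset (UU Ω)) (h : ∀ e ∈ B₀, e ∈ b₀ ∨ ∃ x' ∈ b₀, (x', e) ∈ orb H (x, y)) :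
    (fx ↥H B₀).relIndex (fx ↥H b₀) ≠ 0 := by
  refine J1d_fi B₀ fun e he => ?_
  rcases h e he with h1 | ⟨x', hx', h1⟩
  · refine (Set.finite_singleton e).subset ?_
    rintro _ ⟨g, hg, rfl⟩
    rw [mem_fixingSubgroup_iff] at hg
    exact hg e h1
  · refine (Set.finite_range (fun a : A => ρ a e)).subset ?_
    rintro _ ⟨g, hg, rfl⟩
    rw [mem_fixingSubgroup_iff] at hg
    have h2 : (g : Equiv.Perm Ω) • x' = x' := hg x' hx'
    have h3 : (x', (g : Equiv.Perm Ω) • e) ∈ orb H (x, y) := by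
      obtain ⟨k, hk, hk1⟩ := h1
      refine ⟨g * k, H.mul_mem g.2 hk, ?_⟩
      rw [mul_smul, hk1, Prod.smul_mk, h2]
    obtain ⟨a, ha⟩ := (tors_fib hD.tors h1 _).1 h3
    exact ⟨a, ha.symm⟩

end Pool.Agent.Lib.ThC

end
end

section

section

/-! # A9a: non-forking -/

set_option autoImplicit false
open scoped Pointwise

namespace Pool.Agent.Lib.ThC

variable {Ω Γ : Type} [Group Γ] [MulAction Γ Ω]
variable {Z W : Type} [MulAction Γ Z] [MulAction Γ W]

/-- `nf U V a` (for `V ≤ U`): the type of `a` over `V` does not fork over `U`. -/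
def nf (Ω : Type) {Γ : Type} [Group Γ] [MulAction Γ Ω] {Z : Type} [MulAction Γ Z]
    (U V : Subgroup Γ) (a : Z) : Prop :=
  ∃ p : Tp Ω Γ Z, orb V a ∈ p.s ∧ (orb U p).Finite

/-- existence: the types of maximal rank in `orb U a` form a finite nonempty
`U`-invariant set (`tp_max_finite`). -/
theorem nf_exists (hN : Nice Ω Γ) (hZ : Srt Ω Γ Z) {U : Subgroup Γ} (hU : Op Ω U) (a : Z) :
    ∃ p : Tp Ω Γ Z, orb U a ∈ p.s ∧ (orb U p).Finite ∧
      ∀ Y ∈ p.s, rk Ω Γ (orb U a) ≤ rk Ω Γ Y := by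
  obtain ⟨hfin, p, hp1, hp2⟩ := tp_max_finite hN hZ (df_orb hU a) ⟨a, mem_orb_self U a⟩
  refine ⟨p, hp1, hfin.subset ?_, hp2⟩
  rintro _ ⟨g, hg, rfl⟩
  have hinv : g⁻¹ • orb U a = orb U a := smul_orb_of_mem (U.inv_mem hg) a
  refine ⟨?_, fun Y hY => ?_⟩
  · rw [mem_smul_tp, hinv]
    exact hp1
  · rw [mem_smul_tp] at hY
    rw [← rk_smul g⁻¹ Y]
    exact hp2 _ hY

end Pool.Agent.Lib.ThC

end

section

/-! # A9b: non-forking -/

set_option autoImplicit false
open scoped Pointwise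

namespace Pool.Agent.Lib.ThC

variable {Ω Γ : Type} [Group Γ] [MulAction Γ Ω]
variable {Z W : Type} [MulAction Γ Z] [MulAction Γ W]

theorem A9b_mem (R : Set (Z × W)) (g : Γ) (x : Z × W) : x ∈ g • R ↔ g⁻¹ • x ∈ R :=
  Set.mem_smul_set_iff_inv_smul_mem

/-- uniqueness. Suppose `p' ∉ U p`.  By `tp_sep` there is a definable `Y` with `Y ∈ u • p` for
all `u ∈ U` and `Y ∉ u • p'` for all `u ∈ U`.  Let `W` be the `Γ`-orbit of `Y` (a sort,
`srt_orbit`), `R = {(z, Y') | z ∈ Y'} ⊆ Z × W` (invariant), and `q` a type on `W`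
with finite `U`-orbit containing `orb U Y` (`nf_exists`).  `{Y' | R(·,Y') ∈ p} = {Y' | Y' ∈ p}`
contains `orb U Y`, so it is in `q`, and `{Y' | Y' ∈ p'}` is disjoint from `orb U Y`, so
it is not in `q`.  The same holds for all `u • q`, `u ∈ U`.
By `harrington`: `D_u = {z | R(z,·) ∈ u • q} ∈ p` and `D_1 ∉ p'`.
`D = ⋂_u D_u` (finite intersection) is `U`-invariant and in `p`, so it contains
`orb U a` (`orb_subset_of_mem`) and is in `p'`; but `D ⊆ D_1 ∉ p'`. -/
theorem nf_unique (hN : Nice Ω Γ) (hZ : Srt Ω Γ Z) {U : Subgroup Γ} (hU : Op Ω U) {a : Z}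
    {p p' : Tp Ω Γ Z} (hp : (orb U p).Finite) (hp' : (orb U p').Finite)
    (ha : orb U a ∈ p.s) (ha' : orb U a ∈ p'.s) : ∃ g ∈ U, p' = g • p := by
  by_contra hcon
  push Not at hcon
  have hdis : Disjoint (orb U p) (orb U p') := by
    rcases orb_eq_or_disj U p p' with h | h
    · exfalso
      have h1 : p' ∈ orb U p := h ▸ mem_orb_self U p'
      obtain ⟨g, hg, hgp⟩ := h1
      exact hcon g hg hgp.symm
    · exact h
  obtain ⟨Y, hY, hYp, hYp'⟩ := tp_sep hp hp' hdis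
  have hW : Srt Ω Γ (MulAction.orbit Γ Y) := srt_orbit hY
  set y0 : MulAction.orbit Γ Y := ⟨Y, MulAction.mem_orbit_self Y⟩ with hy0
  obtain ⟨q, hq1, hq2, -⟩ := nf_exists hN hW hU y0
  set R : Set (Z × MulAction.orbit Γ Y) := {x | x.1 ∈ (x.2 : Set Z)} with hR
  have hRm : ∀ (g : Γ) (z : Z) (w : MulAction.orbit Γ Y),
      (g • z, g • w) ∈ R ↔ (z, w) ∈ R := by
    intro g z w
    simp only [hR, Set.mem_ofPred_eq, MulAction.orbit.coe_smul]
    exact Set.smul_mem_smul_set_iff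
  have hRi : ∀ g ∈ (⊤ : Subgroup Γ), g • R = R := by
    intro g _
    ext x
    rw [A9b_mem]
    exact hRm g⁻¹ x.1 x.2
  have hRd : Df Ω Γ R := df_of_inv op_top hRi
  -- the elements of the orbit of `Y` are in `p` and not in `p'`
  have key : ∀ w ∈ orb U y0, (w : Set Z) ∈ p.s ∧ (w : Set Z) ∉ p'.s := by
    rintro w ⟨u, hu, rfl⟩
    have h1 : ((u • y0 : MulAction.orbit Γ Y) : Set Z) = u • Y := by
      rw [MulAction.orbit.coe_smul]
    rw [h1]
    have h2 : ∀ r : Tp Ω Γ Z, u • Y ∈ r.s ↔ Y ∈ (u⁻¹ • r).s := by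
      intro r
      rw [mem_smul_tp, inv_inv]
    rw [h2, h2]
    exact ⟨hYp _ (smul_mem_orb (U.inv_mem hu) p), hYp' _ (smul_mem_orb (U.inv_mem hu) p')⟩
  have hD : ∀ q' ∈ orb U q,
      {z : Z | {w : MulAction.orbit Γ Y | (z, w) ∈ R} ∈ q'.s} ∈ p.s := by
    rintro q' ⟨u, hu, rfl⟩
    rw [← harrington hN hZ hW p (u • q) hRd]
    have h1 : orb U y0 ∈ (u • q).s := by
      rw [mem_smul_tp, smul_orb_of_mem (U.inv_mem hu)]
      exact hq1
    refine (u • q).up _ h1 _ (df_dR hN hZ p hRd) ?_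
    intro w hw
    exact (key w hw).1
  have hfin : Finite (orb U q) := hq2.to_subtype
  have hall : (⋂ i : orb U q, {z : Z | {w : MulAction.orbit Γ Y | (z, w) ∈ R} ∈ i.1.s}) ∈ p.s :=
    tp_iInter (fun i => hD i.1 i.2)
  have hinv : ∀ g ∈ U, g • (⋂ i : orb U q,
      {z : Z | {w : MulAction.orbit Γ Y | (z, w) ∈ R} ∈ i.1.s}) =
      ⋂ i : orb U q, {z : Z | {w : MulAction.orbit Γ Y | (z, w) ∈ R} ∈ i.1.s} := by
    have h1 : ∀ g ∈ U, ∀ z ∈ (⋂ i : orb U q,
        {z : Z | {w : MulAction.orbit Γ Y | (z, w) ∈ R} ∈ i.1.s}), g • z ∈ (⋂ i : orb U q,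
        {z : Z | {w : MulAction.orbit Γ Y | (z, w) ∈ R} ∈ i.1.s}) := by
      intro g hg z hz
      rw [Set.mem_iInter] at hz ⊢
      rintro ⟨q', hq'⟩
      have hq'' : g⁻¹ • q' ∈ orb U q := by
        obtain ⟨u, hu, rfl⟩ := hq'
        exact ⟨g⁻¹ * u, U.mul_mem (U.inv_mem hg) hu, by rw [mul_smul]⟩
      have h2 := hz ⟨g⁻¹ • q', hq''⟩
      simp only [Set.mem_ofPred_eq] at h2 ⊢
      rw [mem_smul_tp, inv_inv] at h2
      convert h2 using 1
      ext w
      rw [Set.mem_smul_set_iff_inv_smul_mem]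
      simp only [Set.mem_ofPred_eq]
      rw [← hRm g z (g⁻¹ • w), smul_inv_smul]
    intro g hg
    ext z
    rw [Set.mem_smul_set_iff_inv_smul_mem]
    constructor
    · intro h
      have := h1 g hg _ h
      rwa [smul_inv_smul] at this
    · intro h
      exact h1 g⁻¹ (U.inv_mem hg) _ h
  have hsub := orb_subset_of_mem hinv hall ha
  have hall' := p'.up _ ha' _ (p.df _ hall) hsub
  have hq : {z : Z | {w : MulAction.orbit Γ Y | (z, w) ∈ R} ∈ q.s} ∈ p'.s := by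
    refine p'.up _ hall' _ (p.df _ (hD q (mem_orb_self U q))) ?_
    exact Set.iInter_subset (fun i : orb U q =>
      {z : Z | {w : MulAction.orbit Γ Y | (z, w) ∈ R} ∈ i.1.s}) ⟨q, mem_orb_self U q⟩
  rw [← harrington hN hZ hW p' q hRd] at hq
  have h3 := q.inter _ hq1 _ hq
  apply q.ne
  convert h3 using 1
  symm
  rw [Set.eq_empty_iff_forall_notMem]
  rintro w ⟨hw1, hw2⟩
  exact (key w hw1).2 hw2

end Pool.Agent.Lib.ThC

end

section

/-! # A9c: non-forking -/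

set_option autoImplicit false
open scoped Pointwise

namespace Pool.Agent.Lib.ThC

variable {Ω Γ : Type} [Group Γ] [MulAction Γ Ω]
variable {Z W : Type} [MulAction Γ Z] [MulAction Γ W]

/-- transitivity (`nf_unique` for `V` gives the direction from right to left). -/
theorem nf_trans (hN : Nice Ω Γ) (hZ : Srt Ω Γ Z) {U V V' : Subgroup Γ} (hV' : Op Ω V')
    (h1 : V' ≤ V) (h2 : V ≤ U) (a : Z) :
    nf Ω U V' a ↔ nf Ω U V a ∧ nf Ω V V' a := by
  have hV : Op Ω V := op_mono hV' h1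
  constructor
  · rintro ⟨p, hp, hfin⟩
    exact ⟨⟨p, p.up _ hp _ (df_orb hV a) (orb_mono h1 a), hfin⟩,
      ⟨p, hp, orb_finite_of_le h2 hfin⟩⟩
  · rintro ⟨⟨p, hp, hfin⟩, ⟨p', hp', hfin'⟩⟩
    obtain ⟨g, hg, rfl⟩ := nf_unique hN hZ hV (orb_finite_of_le h2 hfin) hfin' hp
      (p'.up _ hp' _ (df_orb hV a) (orb_mono h1 a))
    refine ⟨g • p, hp', ?_⟩
    rw [orb_eq_of_mem (smul_mem_orb (h2 hg) p)]
    exact hfin

theorem nf_refl (hN : Nice Ω Γ) (hZ : Srt Ω Γ Z) {U : Subgroup Γ} (hU : Op Ω U) (a : Z) :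
    nf Ω U U a := by
  obtain ⟨p, hp, hfin, _⟩ := nf_exists hN hZ hU a
  exact ⟨p, hp, hfin⟩

/-- finite index subgroups. -/
theorem nf_fi (hN : Nice Ω Γ) (hZ : Srt Ω Γ Z) {U V : Subgroup Γ} (hV : Op Ω V) (hVU : V ≤ U)
    (hfi : V.relIndex U ≠ 0) (a : Z) : nf Ω U V a := by
  obtain ⟨p, hp, hfin, _⟩ := nf_exists hN hZ hV a
  exact ⟨p, hp, orb_finite_of_fi hfi hfin⟩

/-- extension. -/
theorem nf_ext (hN : Nice Ω Γ) (hZ : Srt Ω Γ Z) {U V : Subgroup Γ} (hV : Op Ω V) (hVU : V ≤ U)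
    (a : Z) : ∃ g ∈ U, nf Ω U V (g • a) := by
  obtain ⟨p, hp, hfin, _⟩ := nf_exists hN hZ (op_mono hV hVU) a
  obtain ⟨z, hz⟩ := tp_exists_orb hN hZ hV p
  have hsub := orb_subset_of_mem (U := V) (fun g hg => smul_orb_of_mem (hVU hg) a) hp hz
  obtain ⟨g, hg, rfl⟩ := hsub (mem_orb_self V z)
  exact ⟨g, hg, p, hz, hfin⟩

/-- a non-forking algebraic extension of a type is already algebraic. -/
theorem nf_alg (hN : Nice Ω Γ) (hZ : Srt Ω Γ Z) {U V : Subgroup Γ} (hV : Op Ω V) (hVU : V ≤ U)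
    {a : Z} (h : nf Ω U V a) (hf : (orb V a).Finite) : (orb U a).Finite := by
  classical
  obtain ⟨p, hp, hfin⟩ := h
  -- `p` is the type of a point
  have hpt : ∃ y ∈ orb V a, ({y} : Set Z) ∈ p.s := by
    have := hf.to_subtype
    have hU : (⋃ y : orb V a, ({y.1} : Set Z)) = orb V a := by
      ext y
      simp
    have h1 : (⋃ y : orb V a, ({y.1} : Set Z)) ∈ p.s := by rw [hU]; exact hp
    obtain ⟨y, hy⟩ := tp_iUnion (fun y : orb V a => df_singleton (hZ.sm y.1)) h1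
    exact ⟨y.1, y.2, hy⟩
  obtain ⟨y, hya, hy⟩ := hpt
  have huniq : ∀ (r : Tp Ω Γ Z) (u v : Z), ({u} : Set Z) ∈ r.s → ({v} : Set Z) ∈ r.s →
      u = v := by
    intro r u v hu hv
    by_contra hne
    have h1 := r.inter _ hu _ hv
    have h2 : ({u} : Set Z) ∩ {v} = ∅ := by
      ext x
      constructor
      · rintro ⟨h3, h4⟩
        exact absurd (h3.symm.trans h4) hne
      · intro h3
        exact absurd h3 (Set.notMem_empty x)
    rw [h2] at h1
    exact r.ne h1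
  let c : Tp Ω Γ Z → Z := fun r => if hr : ∃ u : Z, ({u} : Set Z) ∈ r.s then hr.choose else a
  have hc : ∀ (r : Tp Ω Γ Z) (u : Z), ({u} : Set Z) ∈ r.s → c r = u := by
    intro r u hu
    have hr : ∃ u : Z, ({u} : Set Z) ∈ r.s := ⟨u, hu⟩
    have e : c r = hr.choose := dif_pos hr
    rw [e]
    exact huniq r _ _ hr.choose_spec hu
  have hsub : orb U y ⊆ c '' orb U p := by
    rintro _ ⟨g, hg, rfl⟩
    refine ⟨g • p, smul_mem_orb hg p, hc _ _ ?_⟩
    have := (smul_mem_smul_tp (g := g) (p := p) (X := ({y} : Set Z))).2 hy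
    rwa [Set.smul_set_singleton] at this
  have hfy : (orb U y).Finite := (hfin.image c).subset hsub
  rwa [orb_eq_of_mem (orb_mono hVU a hya)] at hfy

theorem nf_cj {U V : Subgroup Γ} {a : Z} (g : Γ) (h : nf Ω U V a) :
    nf Ω (cj g U) (cj g V) (g • a) := by
  obtain ⟨p, hp, hfin⟩ := h
  refine ⟨g • p, ?_, ?_⟩
  · rw [← smul_orb, smul_mem_smul_tp]
    exact hp
  · rw [← smul_orb]
    exact hfin.smul_set

end Pool.Agent.Lib.ThC

end

section

/-! # A9d: non-forking -/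

set_option autoImplicit false
open scoped Pointwise

namespace Pool.Agent.Lib.ThC

variable {Ω Γ : Type} [Group Γ] [MulAction Γ Ω]
variable {Z W : Type} [MulAction Γ Z] [MulAction Γ W]

/-- symmetry.  Let `p ∋ orb (U ⊓ st b) a` with finite `U`-orbit, `Γ₀` a normal
finite index subgroup of `U` fixing all `u • p` and all `u • q`, where `q ∋ orb U b` is
almost `U`-invariant (`nf_exists`).  `R = orb U (a,b)`.  `{w | R(·,w) ∈ p}` contains `b` and is
`Γ₀`-invariant, so it contains `orb Γ₀ b`; replacing `q` by a `U`-conjugate,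
`orb Γ₀ b ∈ q`.  So `{w | R(·,w) ∈ p} ∈ q`, hence `{z | R(z,·) ∈ q} ∈ p` by `harrington`; it
meets `orb (U ⊓ st b) a` in some `g • a`, `g ∈ U ⊓ st b`; then
`{w | (a,w) ∈ R} = orb (U ⊓ st a) b ∈ g⁻¹ • q`. -/
theorem nf_symm (hN : Nice Ω Γ) (hZ : Srt Ω Γ Z) (hW : Srt Ω Γ W) {U : Subgroup Γ}
    (hU : Op Ω U) (a : Z) (b : W) (h : nf Ω U (U ⊓ st Γ b) a) : nf Ω U (U ⊓ st Γ a) b := by
  obtain ⟨p, hp, hpfin⟩ := h
  obtain ⟨q, hq, hqfin, _⟩ := nf_exists hN hW hU b
  -- an open subgroup of `U` fixing all `u • p`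
  have := hpfin.to_subtype
  obtain ⟨V₀, hV₀⟩ : ∃ V₀ : Subgroup Γ, V₀ = U ⊓ ⨅ r : orb U p, st Γ r.1 := ⟨_, rfl⟩
  have hV₀o : Op Ω V₀ := by
    rw [hV₀]
    exact op_inf hU (op_iInf fun r : orb U p => tp_open hN hZ r.1)
  have hV₀U : V₀ ≤ U := by rw [hV₀]; exact inf_le_left
  have hV₀p : ∀ x ∈ V₀, ∀ u ∈ U, x • (u • p) = u • p := by
    intro x hx u hu
    rw [hV₀] at hx
    have h1 := (Subgroup.mem_iInf.1 hx.2) ⟨u • p, smul_mem_orb hu p⟩
    exact h1
  obtain ⟨w₀, hw₀⟩ := tp_exists_orb hN hW hV₀o q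
  have hsub := orb_subset_of_mem (U := V₀) (fun g hg => smul_orb_of_mem (hV₀U hg) b) hq hw₀
  obtain ⟨u, hu, rfl⟩ := hsub (mem_orb_self V₀ w₀)
  -- conjugate back
  obtain ⟨q₁, hq₁⟩ : ∃ q₁ : Tp Ω Γ W, q₁ = u⁻¹ • q := ⟨_, rfl⟩
  have hq₁fin : (orb U q₁).Finite := by
    rw [hq₁, orb_eq_of_mem (smul_mem_orb (U.inv_mem hu) q)]
    exact hqfin
  have hq₁b : orb (cj u⁻¹ V₀) b ∈ q₁.s := by
    have h1 : u⁻¹ • orb V₀ (u • b) = orb (cj u⁻¹ V₀) b := by
      rw [smul_orb, inv_smul_smul]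
    rw [hq₁, ← h1, smul_mem_smul_tp]
    exact hw₀
  obtain ⟨R, hR⟩ : ∃ R : Set (Z × W), R = orb U (a, b) := ⟨_, rfl⟩
  have hRdf : Df Ω Γ R := by rw [hR]; exact df_orb hU (a, b)
  have hRU : ∀ g ∈ U, g • R = R := by
    intro g hg
    rw [hR]; exact smul_orb_of_mem hg (a, b)
  obtain ⟨S, hS⟩ : ∃ S : Set W, S = {w : W | {z : Z | (z, w) ∈ R} ∈ p.s} := ⟨_, rfl⟩
  have hbS : b ∈ S := by
    rw [hS]
    show {z : Z | (z, b) ∈ R} ∈ p.s
    refine p.up _ hp _ (df_fiber hRdf (hW.sm b)) ?_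
    rintro _ ⟨g, hg, rfl⟩
    show (g • a, b) ∈ R
    rw [hR]
    refine ⟨g, hg.1, ?_⟩
    rw [Prod.smul_mk]
    have h2 : g • b = b := hg.2
    rw [h2]
  have hSinv : ∀ x ∈ cj u⁻¹ V₀, x • S = S := by
    intro x hx
    rw [mem_cj, inv_inv] at hx
    have hxU : x ∈ U := by
      have h1 := U.mul_mem (U.mul_mem (U.inv_mem hu) (hV₀U hx)) hu
      have h2 : u⁻¹ * (u * x * u⁻¹) * u = x := by group
      rwa [h2] at h1
    have hxp : x • p = p := by
      have h1 := hV₀p _ hx u hu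
      rw [mul_smul, mul_smul, inv_smul_smul] at h1
      exact smul_left_cancel u h1
    rw [hS]
    exact dR_inv p hxp (hRU x hxU)
  have hSq : S ∈ q₁.s := by
    refine q₁.up _ hq₁b _ ?_ (orb_subset hSinv hbS)
    rw [hS]; exact df_dR hN hZ p hRdf
  rw [hS] at hSq
  have hT := (harrington hN hZ hW p q₁ hRdf).1 hSq
  -- it meets the orbit of `a` under `U ⊓ st b`
  have hne : ∃ z, z ∈ {z : Z | {w : W | (z, w) ∈ R} ∈ q₁.s} ∩ orb (U ⊓ st Γ b) a := by
    by_contra hcon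
    have h1 := p.inter _ hT _ hp
    have h2 : {z : Z | {w : W | (z, w) ∈ R} ∈ q₁.s} ∩ orb (U ⊓ st Γ b) a = ∅ := by
      ext z
      constructor
      · intro hz; exact absurd ⟨z, hz⟩ hcon
      · intro hz; exact absurd hz (Set.notMem_empty z)
    rw [h2] at h1
    exact p.ne h1
  obtain ⟨z, hz1, g, hg, rfl⟩ := hne
  have hz1' : {w : W | (g • a, w) ∈ R} ∈ q₁.s := hz1
  have hgU : g ∈ U := hg.1
  refine ⟨g⁻¹ • q₁, ?_, ?_⟩
  · rw [mem_smul_tp, inv_inv]
    have hUa : Op Ω (U ⊓ st Γ a) := op_inf hU (hZ.sm a)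
    refine q₁.up _ hz1' _ (df_smul g (df_orb hUa b)) ?_
    intro w hw
    have hw' : (g • a, w) ∈ R := hw
    rw [Set.mem_smul_set_iff_inv_smul_mem]
    have h1 : g⁻¹ • (g • a, w) ∈ g⁻¹ • R := Set.smul_mem_smul_set hw'
    rw [hRU _ (U.inv_mem hgU), hR, Prod.smul_mk, inv_smul_smul] at h1
    obtain ⟨x, hx, hxe⟩ := h1
    rw [Prod.smul_mk] at hxe
    have e1 : x • a = a := congrArg Prod.fst hxe
    have e2 : x • b = g⁻¹ • w := congrArg Prod.snd hxe
    exact ⟨x, ⟨hx, e1⟩, e2⟩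
  · rw [orb_eq_of_mem (smul_mem_orb (U.inv_mem hgU) q₁)]
    exact hq₁fin

end Pool.Agent.Lib.ThC

end

section

/-! # A9e: non-forking -/

set_option autoImplicit false
open scoped Pointwise

namespace Pool.Agent.Lib.ThC

variable {Ω Γ : Type} [Group Γ] [MulAction Γ Ω]
variable {Z W : Type} [MulAction Γ Z] [MulAction Γ W]

/-- pairs: both sides say `v ⫝ (a, w)`, use `nf_symm`, `nf_trans` and `st_prod`. -/
theorem nf_pair {Z' : Type} [MulAction Γ Z'] (hN : Nice Ω Γ) (hZ : Srt Ω Γ Z)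
    (hW : Srt Ω Γ W) (hZ' : Srt Ω Γ Z') {U : Subgroup Γ} (hU : Op Ω U) (a : Z) (w : W)
    (v : Z') :
    nf Ω U (U ⊓ st Γ v) (a, w) ↔
      nf Ω U (U ⊓ st Γ v) a ∧ nf Ω (U ⊓ st Γ a) (U ⊓ st Γ a ⊓ st Γ v) w := by
  have hZW : Srt Ω Γ (Z × W) := srt_prod hN hZ hW
  have hUa : Op Ω (U ⊓ st Γ a) := op_inf hU (hZ.sm a)
  have hUaw : Op Ω (U ⊓ st Γ a ⊓ st Γ w) := op_inf hUa (hW.sm w)
  have h1 : nf Ω U (U ⊓ st Γ v) (a, w) ↔ nf Ω U (U ⊓ st Γ a ⊓ st Γ w) v := by
    have e : U ⊓ st Γ a ⊓ st Γ w = U ⊓ st Γ (a, w) := by rw [st_prod, inf_assoc]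
    rw [e]
    exact ⟨nf_symm hN hZW hZ' hU (a, w) v, nf_symm hN hZ' hZW hU v (a, w)⟩
  rw [h1, nf_trans hN hZ' hUaw inf_le_left inf_le_left v]
  exact and_congr ⟨nf_symm hN hZ' hZ hU v a, nf_symm hN hZ hZ' hU a v⟩
    ⟨nf_symm hN hZ' hW hUa v w, nf_symm hN hW hZ' hUa w v⟩

end Pool.Agent.Lib.ThC

end

section

/-! # A9f: non-forking -/

set_option autoImplicit false
open scoped Pointwise

namespace Pool.Agent.Lib.ThC

variable {Ω Γ : Type} [Group Γ] [MulAction Γ Ω]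
variable {Z W : Type} [MulAction Γ Z] [MulAction Γ W]

private theorem A9f_orb_fix {U : Subgroup Γ} {p : Tp Ω Γ Z} (hp : U ≤ st Γ p) :
    (orb U p).Finite := by
  refine (Set.finite_singleton p).subset ?_
  rintro q ⟨g, hg, rfl⟩
  exact hp hg

/-- stationarity: if `U` fixes `p`, `a` realises `p` over `U`, and the type of `a` over `V`
does not fork over `U`, then `a` realises `p` over `V`. -/
theorem nf_stat (hN : Nice Ω Γ) (hZ : Srt Ω Γ Z) {U V : Subgroup Γ} (hU : Op Ω U)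
    (hV : Op Ω V) (hVU : V ≤ U)
    {p : Tp Ω Γ Z} (hp : U ≤ st Γ p) {a : Z} (ha : orb U a ∈ p.s) (h : nf Ω U V a) :
    orb V a ∈ p.s := by
  obtain ⟨p', h1, h2⟩ := h
  have h3 : orb U a ∈ p'.s := p'.up _ h1 _ (df_orb hU a) (orb_mono hVU a)
  obtain ⟨g, hg, h4⟩ := nf_unique hN hZ hU (A9f_orb_fix hp) h2 ha h3
  have h5 : g • p = p := hp hg
  rw [h5] at h4
  rw [← h4]
  exact h1

/-- strong types: there is a type `p`, almost `U`-invariant, realised by `a` over
`U ⊓ st p`. -/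
theorem stp_exists (hN : Nice Ω Γ) (hZ : Srt Ω Γ Z) {U : Subgroup Γ} (hU : Op Ω U) (a : Z) :
    ∃ p : Tp Ω Γ Z, (orb U p).Finite ∧ orb (U ⊓ st Γ p) a ∈ p.s := by
  obtain ⟨p₀, h1, h2, -⟩ := nf_exists hN hZ hU a
  have hV : Op Ω (U ⊓ st Γ p₀) := op_inf hU (tp_open hN hZ p₀)
  obtain ⟨z, hz⟩ := tp_exists_orb hN hZ hV p₀
  have hne : (orb (U ⊓ st Γ p₀) z ∩ orb U a).Nonempty := by
    rw [Set.nonempty_iff_ne_empty]
    intro h
    have h3 := p₀.inter _ hz _ h1
    rw [h] at h3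
    exact p₀.ne h3
  obtain ⟨z', hz1, ⟨g, hg, rfl⟩⟩ := hne
  rw [← orb_eq_of_mem hz1] at hz
  refine ⟨g⁻¹ • p₀, ?_, ?_⟩
  · rw [orb_eq_of_mem (smul_mem_orb (U.inv_mem hg) p₀)]
    exact h2
  · rw [mem_smul_tp, inv_inv, smul_orb, cj_inf, cj_eq_of_mem hg, ← st_smul, smul_inv_smul]
    exact hz

/-- strong types are unique (use a normal finite index subgroup of `U` fixing `p` and `p'`). -/
theorem stp_unique (hN : Nice Ω Γ) (hZ : Srt Ω Γ Z) {U : Subgroup Γ} (hU : Op Ω U) {a : Z}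
    {p p' : Tp Ω Γ Z} (hp : (orb U p).Finite) (hp' : (orb U p').Finite)
    (ha : orb (U ⊓ st Γ p) a ∈ p.s) (ha' : orb (U ⊓ st Γ p') a ∈ p'.s) : p = p' := by
  have hU1 : Op Ω (U ⊓ st Γ p) := op_inf hU (tp_open hN hZ p)
  have hU2 : Op Ω (U ⊓ st Γ p') := op_inf hU (tp_open hN hZ p')
  have hN1 : Op Ω (U ⊓ st Γ p ⊓ st Γ p') := op_inf hU1 (tp_open hN hZ p')
  have hle2 : U ⊓ st Γ p ⊓ st Γ p' ≤ U ⊓ st Γ p' :=
    le_inf (inf_le_left.trans inf_le_left) inf_le_right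
  have hfi1 : (U ⊓ st Γ p ⊓ st Γ p').relIndex (U ⊓ st Γ p) ≠ 0 := by
    rw [Subgroup.inf_relIndex_left]
    exact (orb_finite_iff _ _).1 (orb_finite_of_le inf_le_left hp')
  have hfi2 : (U ⊓ st Γ p ⊓ st Γ p').relIndex (U ⊓ st Γ p') ≠ 0 := by
    have e : U ⊓ st Γ p ⊓ st Γ p' = (U ⊓ st Γ p') ⊓ st Γ p := by
      rw [inf_assoc, inf_assoc, inf_comm (st Γ p)]
    rw [e, Subgroup.inf_relIndex_left]
    exact (orb_finite_iff _ _).1 (orb_finite_of_le inf_le_left hp)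
  have h1 : orb (U ⊓ st Γ p ⊓ st Γ p') a ∈ p.s :=
    nf_stat hN hZ hU1 hN1 inf_le_left inf_le_right ha (nf_fi hN hZ hN1 inf_le_left hfi1 a)
  have h2 : orb (U ⊓ st Γ p ⊓ st Γ p') a ∈ p'.s :=
    nf_stat hN hZ hU2 hN1 hle2 inf_le_right ha' (nf_fi hN hZ hN1 hle2 hfi2 a)
  have hle : U ⊓ st Γ p ⊓ st Γ p' ≤ st Γ p := inf_le_left.trans inf_le_right
  obtain ⟨g, hg, h3⟩ := nf_unique hN hZ hN1 (A9f_orb_fix hle) (A9f_orb_fix inf_le_right) h1 h2
  have h4 : g • p = p := hle hg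
  rw [h3, h4]

/-- forking lowers the rank. -/
theorem rk_lt_of_forks (hN : Nice Ω Γ) (hZ : Srt Ω Γ Z) {U V : Subgroup Γ} (hV : Op Ω V)
    (hVU : V ≤ U) {a : Z} (h : ¬ nf Ω U V a) :
    rk Ω Γ (orb V a) < rk Ω Γ (orb U a) := by
  by_contra hcon
  rw [not_lt] at hcon
  apply h
  have hU : Op Ω U := op_mono hV hVU
  obtain ⟨p, h1, h2⟩ := (tp_max_finite hN hZ (df_orb hV a) ⟨a, mem_orb_self V a⟩).2
  have hT := (tp_max_finite hN hZ (df_orb hU a) ⟨a, mem_orb_self U a⟩).1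
  refine ⟨p, h1, hT.subset ?_⟩
  rintro q ⟨g, hg, rfl⟩
  refine ⟨?_, fun Y hY => ?_⟩
  · rw [mem_smul_tp, smul_orb_of_mem (U.inv_mem hg)]
    exact p.up _ h1 _ (df_orb hU a) (orb_mono hVU a)
  · rw [mem_smul_tp] at hY
    have h3 := hcon.trans (h2 _ hY)
    rwa [rk_smul] at h3

end Pool.Agent.Lib.ThC

end

section

/-! # A10a: the U-rank -/

set_option autoImplicit false
open scoped Pointwise

namespace Pool.Agent.Lib.ThC

/-- `URGE n U a`: there is a chain of `n` forking extensions of the type of `a` over `U`. -/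
def URGE (Ω : Type) {Γ : Type} [Group Γ] [MulAction Γ Ω] {Z : Type} [MulAction Γ Z] :
    ℕ → Subgroup Γ → Z → Prop
  | 0, _, _ => True
  | (n + 1), U, a => ∃ V : Subgroup Γ, V ≤ U ∧ Op Ω V ∧ ¬ nf Ω U V a ∧ URGE Ω n V a

/-- the U-rank of `a` over `U`. -/
noncomputable def ur (Ω : Type) {Γ : Type} [Group Γ] [MulAction Γ Ω] {Z : Type}
    [MulAction Γ Z] (U : Subgroup Γ) (a : Z) : ℕ :=
  sSup {n : ℕ | URGE Ω n U a}

variable {Ω Γ : Type} [Group Γ] [MulAction Γ Ω]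
variable {Z W : Type} [MulAction Γ Z] [MulAction Γ W]

theorem urge_le (hN : Nice Ω Γ) (hZ : Srt Ω Γ Z) {U : Subgroup Γ} (hU : Op Ω U) {a : Z} {n : ℕ}
    (h : URGE Ω n U a) : n ≤ rk Ω Γ (orb U a) := by
  induction n generalizing U with
  | zero => exact Nat.zero_le _
  | succ n ih =>
    obtain ⟨V, hVU, hV, hf, hn⟩ := h
    exact Nat.succ_le_of_lt (lt_of_le_of_lt (ih hV hn) (rk_lt_of_forks hN hZ hV hVU hf))

theorem urge_of_le {U : Subgroup Γ} {a : Z} {m n : ℕ} (hmn : m ≤ n) (h : URGE Ω n U a) :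
    URGE Ω m U a := by
  induction m generalizing n U with
  | zero => trivial
  | succ m ih =>
    obtain ⟨n', rfl⟩ : ∃ n', n = n' + 1 := ⟨n - 1, by omega⟩
    obtain ⟨V, hVU, hV, hf, hn⟩ := h
    exact ⟨V, hVU, hV, hf, ih (by omega) hn⟩

theorem le_ur_iff (hN : Nice Ω Γ) (hZ : Srt Ω Γ Z) {U : Subgroup Γ} (hU : Op Ω U) {a : Z}
    {n : ℕ} : n ≤ ur Ω U a ↔ URGE Ω n U a := by
  have hbdd : BddAbove {n : ℕ | URGE Ω n U a} :=
    ⟨rk Ω Γ (orb U a), fun m hm => urge_le hN hZ hU hm⟩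
  constructor
  · intro h
    have hmem : sSup {n : ℕ | URGE Ω n U a} ∈ {n : ℕ | URGE Ω n U a} :=
      Nat.sSup_mem ⟨0, trivial⟩ hbdd
    exact urge_of_le h hmem
  · intro h
    exact le_csSup hbdd h

theorem urge_mono (hN : Nice Ω Γ) (hZ : Srt Ω Γ Z) {U V : Subgroup Γ} (hV : Op Ω V)
    (hVU : V ≤ U) {a : Z} {n : ℕ} (h : URGE Ω n V a) : URGE Ω n U a := by
  cases n with
  | zero => trivial
  | succ n =>
    obtain ⟨V', hV'V, hV', hf, hn⟩ := h
    exact ⟨V', hV'V.trans hVU, hV', fun hc => hf ((nf_trans hN hZ hV' hV'V hVU a).1 hc).2, hn⟩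

/-- (R1) monotonicity. -/
theorem ur_mono (hN : Nice Ω Γ) (hZ : Srt Ω Γ Z) {U V : Subgroup Γ} (hV : Op Ω V)
    (hVU : V ≤ U) (a : Z) : ur Ω V a ≤ ur Ω U a :=
  (le_ur_iff hN hZ (op_mono hV hVU)).2 (urge_mono hN hZ hV hVU ((le_ur_iff hN hZ hV).1 le_rfl))

end Pool.Agent.Lib.ThC

end

section

/-! # A10b: the U-rank -/

set_option autoImplicit false
open scoped Pointwise

namespace Pool.Agent.Lib.ThC

variable {Ω Γ : Type} [Group Γ] [MulAction Γ Ω]
variable {Z W : Type} [MulAction Γ Z] [MulAction Γ W]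

private theorem A10b_nf_cj {U V : Subgroup Γ} {a : Z} (g : Γ)
    (h : nf Ω (cj g U) (cj g V) (g • a)) : nf Ω U V a := by
  have h1 := nf_cj g⁻¹ h
  rwa [cj_cj, cj_cj, inv_mul_cancel, cj_one, cj_one, inv_smul_smul] at h1

private theorem A10b_urge_cj (g : Γ) (n : ℕ) : ∀ {U : Subgroup Γ} {a : Z},
    URGE Ω n U a → URGE Ω n (cj g U) (g • a) := by
  induction n with
  | zero => intro U a _; trivial
  | succ n ih =>
    rintro U a ⟨V, hVU, hV, hnf, hur⟩
    exact ⟨cj g V, cj_mono hVU, op_cj g hV, fun h => hnf (A10b_nf_cj g h), ih hur⟩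

/-- Non-forking extensions keep the rank.  By induction on `n`, for all `U, V, a`:
`nf U V a → URGE n U a → URGE n V a`.  Let `W ≤ U` be open with
`¬ nf U W a` and `URGE n W a`.
Let `w = 1·W ∈ Γ ⧸ W`, `v = 1·V ∈ Γ ⧸ V` (`st_coset`).  By `nf_ext` there is
`g ∈ U ⊓ st a` with `nf (U ⊓ st a) (U ⊓ st a ⊓ st v) (g • w)`; replace `W` by
`cj g W` (`nf_cj`, and `URGE` is invariant under conjugation), so `g = 1`.
By `nf_pair` `nf U (U ⊓ st v) (a,w)`, so by `nf_symm` `nf U (U ⊓ st (a,w)) v`, and by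
`nf_trans` `nf (U ⊓ st w) (U ⊓ st w ⊓ st a) v`, so by `nf_symm`
`nf W (W ⊓ V) a`.  The induction hypothesis gives `URGE n (W ⊓ V) a`.  If `nf V (V ⊓ W) a` then
`nf U (V ⊓ W) a`, so `nf U W a`, contradiction. -/
theorem urge_of_nf (hN : Nice Ω Γ) (hZ : Srt Ω Γ Z) (n : ℕ) : ∀ {U V : Subgroup Γ}
    (_ : Op Ω V) (_ : V ≤ U) (a : Z) (_ : nf Ω U V a) (_ : URGE Ω n U a), URGE Ω n V a := by
  induction n with
  | zero => intro U V _ _ a _ _; trivial
  | succ n ih =>
    intro U V hV hVU a hnfa hur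
    obtain ⟨W, hWU, hW, hnW, hurW⟩ := hur
    have hU : Op Ω U := op_mono hV hVU
    have sW : Srt Ω Γ (Γ ⧸ W) := srt_coset hW
    have sV : Srt Ω Γ (Γ ⧸ V) := srt_coset hV
    have ev : st Γ ((1 : Γ) : Γ ⧸ V) = V := st_coset V
    have hUa : Op Ω (U ⊓ st Γ a) := op_inf hU (hZ.sm a)
    obtain ⟨g, hg, hgn⟩ := nf_ext hN sW
      (U := U ⊓ st Γ a) (V := U ⊓ st Γ a ⊓ st Γ ((1 : Γ) : Γ ⧸ V))
      (op_inf hUa (by rw [ev]; exact hV)) inf_le_left ((1 : Γ) : Γ ⧸ W)
    have hga : g • a = a := MulAction.mem_stabilizer_iff.1 hg.2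
    have ew : st Γ (g • ((1 : Γ) : Γ ⧸ W)) = cj g W := by rw [st_smul, st_coset]
    have hW'U : cj g W ≤ U := by
      have := cj_mono (g := g) hWU
      rwa [cj_eq_of_mem hg.1] at this
    have hW' : Op Ω (cj g W) := op_cj g hW
    have hnW' : ¬ nf Ω U (cj g W) a := by
      intro h
      apply hnW
      apply A10b_nf_cj g
      rw [cj_eq_of_mem hg.1, hga]
      exact h
    have hurW' : URGE Ω n (cj g W) a := by
      have := A10b_urge_cj g n hurW
      rwa [hga] at this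
    have e1 : U ⊓ st Γ ((1 : Γ) : Γ ⧸ V) = V := by rw [ev]; exact inf_eq_right.2 hVU
    have h1 : nf Ω U (U ⊓ st Γ ((1 : Γ) : Γ ⧸ V)) (a, g • ((1 : Γ) : Γ ⧸ W)) :=
      (nf_pair hN hZ sW sV hU a (g • ((1 : Γ) : Γ ⧸ W)) ((1 : Γ) : Γ ⧸ V)).2
        ⟨by rw [e1]; exact hnfa, hgn⟩
    have h2 := nf_symm hN (srt_prod hN hZ sW) sV hU _ _ h1
    have e2 : U ⊓ st Γ (a, g • ((1 : Γ) : Γ ⧸ W)) = cj g W ⊓ st Γ a := by
      rw [st_prod, ew, inf_comm (st Γ a), ← inf_assoc, inf_eq_right.2 hW'U]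
    rw [e2] at h2
    have h3 := ((nf_trans hN sV (op_inf hW' (hZ.sm a)) inf_le_left hW'U _).1 h2).2
    have h4 := nf_symm hN sV hZ hW' _ _ h3
    rw [ev] at h4
    have h5 : URGE Ω n (cj g W ⊓ V) a := ih (op_inf hW' hV) inf_le_left a h4 hurW'
    refine ⟨cj g W ⊓ V, inf_le_right, op_inf hW' hV, fun h6 => hnW' ?_, h5⟩
    have h7 := (nf_trans hN hZ (op_inf hW' hV) inf_le_right hVU a).2 ⟨hnfa, h6⟩
    exact ((nf_trans hN hZ (op_inf hW' hV) inf_le_left hW'U a).1 h7).1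

end Pool.Agent.Lib.ThC

end

section

/-! # A10c: the U-rank -/

set_option autoImplicit false
open scoped Pointwise

namespace Pool.Agent.Lib.ThC

variable {Ω Γ : Type} [Group Γ] [MulAction Γ Ω]
variable {Z W : Type} [MulAction Γ Z] [MulAction Γ W]

/-- non-forking is rank preservation. -/
theorem nf_iff_ur (hN : Nice Ω Γ) (hZ : Srt Ω Γ Z) {U V : Subgroup Γ} (hV : Op Ω V)
    (hVU : V ≤ U) (a : Z) : nf Ω U V a ↔ ur Ω V a = ur Ω U a := by
  have hU : Op Ω U := op_mono hV hVU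
  constructor
  · intro h
    refine le_antisymm (ur_mono hN hZ hV hVU a) ?_
    exact (le_ur_iff hN hZ hV).2
      (urge_of_nf hN hZ _ hV hVU a h ((le_ur_iff hN hZ hU).1 le_rfl))
  · intro h
    by_contra hcon
    have h1 : URGE Ω (ur Ω V a + 1) U a := ⟨V, hVU, hV, hcon, (le_ur_iff hN hZ hV).1 le_rfl⟩
    have h2 := (le_ur_iff hN hZ hU).2 h1
    omega

/-- (R2) -/
theorem ur_eq_zero (hN : Nice Ω Γ) (hZ : Srt Ω Γ Z) {U : Subgroup Γ} (hU : Op Ω U) {a : Z} :
    ur Ω U a = 0 ↔ (orb U a).Finite := by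
  constructor
  · intro h
    by_contra hcon
    have hV : Op Ω (U ⊓ st Γ a) := op_inf hU (hZ.sm a)
    have hf : (orb (U ⊓ st Γ a) a).Finite := by
      refine (Set.finite_singleton a).subset ?_
      rintro q ⟨g, hg, rfl⟩
      exact hg.2
    have h1 : URGE Ω 1 U a := ⟨U ⊓ st Γ a, inf_le_left, hV,
      fun hnf => hcon (nf_alg hN hZ hV inf_le_left hnf hf), trivial⟩
    have h2 := (le_ur_iff hN hZ hU).2 h1
    omega
  · intro hf
    by_contra hcon
    obtain ⟨V, hVU, hV, hnf, -⟩ := (le_ur_iff hN hZ hU).1 (Nat.one_le_iff_ne_zero.2 hcon)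
    apply hnf
    obtain ⟨p, hp⟩ := exists_tp_pt hZ.sm a
    refine ⟨p, (hp _).2 ⟨df_orb hV a, mem_orb_self V a⟩, ?_⟩
    have hle : st Γ a ≤ st Γ p := by
      intro g hg
      have hg' : g • a = a := hg
      have hg'' : g⁻¹ • a = a := by rw [inv_smul_eq_iff, hg']
      show g • p = p
      apply Tp.ext
      ext X
      rw [mem_smul_tp, hp, hp, Set.mem_inv_smul_set_iff, hg']
      constructor
      · rintro ⟨h1, h2⟩
        refine ⟨?_, h2⟩
        have := df_smul g h1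
        rwa [smul_inv_smul] at this
      · rintro ⟨h1, h2⟩
        exact ⟨df_smul _ h1, h2⟩
    rw [orb_finite_iff] at hf ⊢
    intro h0
    have hd := Subgroup.relIndex_dvd_of_le_left U hle
    rw [h0] at hd
    exact hf (Nat.eq_zero_of_zero_dvd hd)

private theorem A10c_urge_cj (g : Γ) (n : ℕ) : ∀ (U : Subgroup Γ) (a : Z), URGE Ω n U a →
    URGE Ω n (cj g U) (g • a) := by
  induction n with
  | zero => intro U a _; trivial
  | succ n ih =>
    rintro U a ⟨V, hVU, hV, hnf, h⟩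
    refine ⟨cj g V, cj_mono hVU, op_cj g hV, fun h1 => hnf ?_, ih V a h⟩
    have h2 := nf_cj g⁻¹ h1
    rwa [cj_cj, cj_cj, inv_mul_cancel, cj_one, cj_one, inv_smul_smul] at h2

/-- (R4) -/
theorem ur_cj (g : Γ) (U : Subgroup Γ) (a : Z) : ur Ω (cj g U) (g • a) = ur Ω U a := by
  unfold ur
  congr 1
  ext n
  constructor
  · intro h
    have h2 := A10c_urge_cj g⁻¹ n _ _ h
    rwa [cj_cj, inv_mul_cancel, cj_one, inv_smul_smul] at h2
  · intro h
    exact A10c_urge_cj g n _ _ h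

theorem ur_smul {g : Γ} {U : Subgroup Γ} (hg : g ∈ U) (a : Z) : ur Ω U (g • a) = ur Ω U a := by
  conv_lhs => rw [← cj_eq_of_mem hg]
  exact ur_cj g U a

/-- (R6) finite index. -/
theorem ur_fi (hN : Nice Ω Γ) (hZ : Srt Ω Γ Z) {U V : Subgroup Γ} (hV : Op Ω V) (hVU : V ≤ U)
    (hfi : V.relIndex U ≠ 0) (a : Z) : ur Ω V a = ur Ω U a :=
  (nf_iff_ur hN hZ hV hVU a).1 (nf_fi hN hZ hV hVU hfi a)

/-- (R7) extension in rank form. -/
theorem ur_ext (hN : Nice Ω Γ) (hZ : Srt Ω Γ Z) {U V : Subgroup Γ} (hV : Op Ω V) (hVU : V ≤ U)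
    (a : Z) : ∃ g ∈ U, ur Ω V (g • a) = ur Ω U a := by
  obtain ⟨g, hg, h⟩ := nf_ext hN hZ hV hVU a
  exact ⟨g, hg, by rw [(nf_iff_ur hN hZ hV hVU _).1 h, ur_smul hg]⟩

/-- (R8) all smaller ranks are attained. -/
theorem ur_down (hN : Nice Ω Γ) (hZ : Srt Ω Γ Z) {U : Subgroup Γ} (hU : Op Ω U) {a : Z} {k : ℕ}
    (hk : k ≤ ur Ω U a) : ∃ V : Subgroup Γ, V ≤ U ∧ Op Ω V ∧ ur Ω V a = k := by
  classical
  have hex : ∃ n, k ≤ n ∧ ∃ V : Subgroup Γ, V ≤ U ∧ Op Ω V ∧ ur Ω V a = n :=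
    ⟨ur Ω U a, hk, U, le_rfl, hU, rfl⟩
  obtain ⟨hn1, V, hVU, hV, hVn⟩ := Nat.find_spec hex
  have hmin : ∀ m < Nat.find hex, ¬ (k ≤ m ∧ ∃ V : Subgroup Γ, V ≤ U ∧ Op Ω V ∧ ur Ω V a = m) :=
    fun m hm => Nat.find_min hex hm
  generalize Nat.find hex = n at hn1 hVn hmin
  rcases Nat.lt_or_ge k n with hlt | hge
  · exfalso
    obtain ⟨m, rfl⟩ : ∃ m, n = m + 1 := ⟨n - 1, by omega⟩
    obtain ⟨V', h1, h2, h3, h4⟩ := (le_ur_iff hN hZ hV (n := m + 1)).1 hVn.ge
    have h5 := (le_ur_iff hN hZ h2).2 h4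
    have h6 := ur_mono hN hZ h2 h1 a
    have h7 : ur Ω V' a ≠ ur Ω V a := fun h => h3 ((nf_iff_ur hN hZ h2 h1 a).2 h)
    have h8 : ur Ω V' a = m := by omega
    exact hmin m (Nat.lt_succ_self m) ⟨by omega, V', h1.trans hVU, h2, h8⟩
  · exact ⟨V, hVU, hV, by omega⟩

end Pool.Agent.Lib.ThC

end
end

section

section

/-! # A11a: additivity of the U-rank, maps, tuples -/

set_option autoImplicit false
open scoped Pointwise

namespace Pool.Agent.Lib.ThC

variable {Ω Γ : Type} [Group Γ] [MulAction Γ Ω]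
variable {Z W : Type} [MulAction Γ Z] [MulAction Γ W]

private theorem A11a_smul_preimage {f : Z → W} (hf : ∀ (g : Γ) (z : Z), f (g • z) = g • f z)
    (g : Γ) (X : Set W) : f ⁻¹' (g • X) = g • (f ⁻¹' X) := by
  ext z
  rw [Set.mem_preimage, Set.mem_smul_set_iff_inv_smul_mem, Set.mem_smul_set_iff_inv_smul_mem,
    Set.mem_preimage, hf]

private theorem A11a_smul_image {f : Z → W} (hf : ∀ (g : Γ) (z : Z), f (g • z) = g • f z)
    (g : Γ) (X : Set Z) : f '' (g • X) = g • (f '' X) := by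
  ext w
  rw [Set.mem_smul_set_iff_inv_smul_mem]
  constructor
  · rintro ⟨z, hz, rfl⟩
    rw [Set.mem_smul_set_iff_inv_smul_mem] at hz
    exact ⟨g⁻¹ • z, hz, hf _ _⟩
  · rintro ⟨z, hz, hw⟩
    refine ⟨g • z, Set.smul_mem_smul_set hz, ?_⟩
    rw [hf, hw, smul_inv_smul]

/-- the image of a type. -/
private def A11a_push {f : Z → W} (hf : ∀ (g : Γ) (z : Z), f (g • z) = g • f z)
    (p : Tp Ω Γ Z) : Tp Ω Γ W where
  s := {X | Df Ω Γ X ∧ f ⁻¹' X ∈ p.s}
  df := fun X hX => hX.1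
  univ := ⟨df_univ, p.univ⟩
  inter := fun X hX Y hY => ⟨df_inter hX.1 hY.1, p.inter _ hX.2 _ hY.2⟩
  up := fun X hX Y hY h => ⟨hY, p.up _ hX.2 _ (df_preimage hf hY) (Set.preimage_mono h)⟩
  ne := fun h => p.ne h.2
  ult := fun X hX => by
    rcases p.ult _ (df_preimage hf hX) with h | h
    · exact Or.inl ⟨hX, h⟩
    · exact Or.inr ⟨df_compl hX, h⟩

/-- the preimage of a type containing the range. -/
private def A11a_pull {f : Z → W} (hf : ∀ (g : Γ) (z : Z), f (g • z) = g • f z)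
    (hi : Function.Injective f) (q : Tp Ω Γ W) (hq : Set.range f ∈ q.s) : Tp Ω Γ Z where
  s := {X | Df Ω Γ X ∧ f '' X ∈ q.s}
  df := fun X hX => hX.1
  univ := ⟨df_univ, by rw [Set.image_univ]; exact hq⟩
  inter := fun X hX Y hY => ⟨df_inter hX.1 hY.1, by
    rw [Set.image_inter hi]; exact q.inter _ hX.2 _ hY.2⟩
  up := fun X hX Y hY h => ⟨hY, q.up _ hX.2 _ (df_image hf hY) (Set.image_mono h)⟩
  ne := fun h => q.ne (by have := h.2; rwa [Set.image_empty] at this)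
  ult := fun X hX => by
    rcases q.ult _ (df_image hf hX) with h | h
    · exact Or.inl ⟨hX, h⟩
    · refine Or.inr ⟨df_compl hX, q.up _ (q.inter _ h _ hq) _ (df_image hf (df_compl hX)) ?_⟩
      rintro _ ⟨hw, z, rfl⟩
      exact ⟨z, fun hz => hw ⟨z, hz, rfl⟩, rfl⟩

private theorem A11a_nf (hZ : Srt Ω Γ Z) {f : Z → W}
    (hf : ∀ (g : Γ) (z : Z), f (g • z) = g • f z) (hi : Function.Injective f)
    {U V : Subgroup Γ} (hV : Op Ω V) (z : Z) : nf Ω U V (f z) ↔ nf Ω U V z := by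
  constructor
  · rintro ⟨q, hq, hfin⟩
    have hr : Set.range f ∈ q.s := by
      refine q.up _ hq _ ?_ ?_
      · rw [← Set.image_univ]
        exact df_image hf df_univ
      · rw [← image_orb hf]
        exact Set.image_subset_range f _
    refine ⟨A11a_pull hf hi q hr, ⟨df_orb hV z, ?_⟩, ?_⟩
    · rw [image_orb hf]
      exact hq
    · rw [orb_finite_iff] at hfin ⊢
      intro h0
      apply hfin
      have hle : st Γ q ≤ st Γ (A11a_pull hf hi q hr) := by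
        intro g hg
        have hg1 : g • q = q := hg
        show g • (A11a_pull hf hi q hr) = A11a_pull hf hi q hr
        apply Tp.ext
        ext X
        rw [mem_smul_tp]
        constructor
        · rintro ⟨h1, h2⟩
          refine ⟨?_, ?_⟩
          · have := df_smul g h1
            rwa [smul_inv_smul] at this
          · rw [A11a_smul_image hf, ← mem_smul_tp, hg1] at h2
            exact h2
        · rintro ⟨h1, h2⟩
          refine ⟨df_smul _ h1, ?_⟩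
          rw [A11a_smul_image hf, ← mem_smul_tp, hg1]
          exact h2
      have := Subgroup.relIndex_dvd_of_le_left U hle
      rw [h0] at this
      exact Nat.eq_zero_of_zero_dvd this
  · rintro ⟨p, hp, hfin⟩
    refine ⟨A11a_push hf p, ⟨df_orb hV _, ?_⟩, ?_⟩
    · rw [← image_orb hf, Set.preimage_image_eq _ hi]
      exact hp
    · rw [orb_finite_iff] at hfin ⊢
      intro h0
      apply hfin
      have hle : st Γ p ≤ st Γ (A11a_push hf p) := by
        intro g hg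
        have hg1 : g • p = p := hg
        show g • (A11a_push hf p) = A11a_push hf p
        apply Tp.ext
        ext X
        rw [mem_smul_tp]
        constructor
        · rintro ⟨h1, h2⟩
          refine ⟨?_, ?_⟩
          · have := df_smul g h1
            rwa [smul_inv_smul] at this
          · rw [A11a_smul_preimage hf, ← mem_smul_tp, hg1] at h2
            exact h2
        · rintro ⟨h1, h2⟩
          refine ⟨df_smul _ h1, ?_⟩
          rw [A11a_smul_preimage hf, ← mem_smul_tp, hg1]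
          exact h2
      have := Subgroup.relIndex_dvd_of_le_left U hle
      rw [h0] at this
      exact Nat.eq_zero_of_zero_dvd this

private theorem A11a_urge (hZ : Srt Ω Γ Z) {f : Z → W}
    (hf : ∀ (g : Γ) (z : Z), f (g • z) = g • f z) (hi : Function.Injective f) (z : Z) (n : ℕ) :
    ∀ U : Subgroup Γ, URGE Ω n U (f z) ↔ URGE Ω n U z := by
  induction n with
  | zero => intro U; exact Iff.rfl
  | succ n ih =>
    intro U
    constructor
    · rintro ⟨V, h1, h2, h3, h4⟩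
      exact ⟨V, h1, h2, fun h => h3 ((A11a_nf hZ hf hi h2 z).2 h), (ih V).1 h4⟩
    · rintro ⟨V, h1, h2, h3, h4⟩
      exact ⟨V, h1, h2, fun h => h3 ((A11a_nf hZ hf hi h2 z).1 h), (ih V).2 h4⟩

/-- (R5) an injective equivariant map preserves the rank (transport types:
`X ∈ f_* p ↔ f ⁻¹' X ∈ p`, and conversely). -/
theorem ur_inj (hN : Nice Ω Γ) (hZ : Srt Ω Γ Z) (hW : Srt Ω Γ W) {f : Z → W}
    (hf : ∀ (g : Γ) (z : Z), f (g • z) = g • f z) (hi : Function.Injective f)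
    {U : Subgroup Γ} (hU : Op Ω U) (z : Z) : ur Ω U (f z) = ur Ω U z := by
  unfold ur
  congr 1
  ext n
  exact A11a_urge hZ hf hi z n U

/-- the rank of `a` only depends on its stabiliser. -/
theorem ur_coset (hN : Nice Ω Γ) (hZ : Srt Ω Γ Z) {U : Subgroup Γ} (hU : Op Ω U) (z : Z) :
    ur Ω U ((1 : Γ) : Γ ⧸ st Γ z) = ur Ω U z := by
  have h := ur_inj hN (srt_coset (hZ.sm z)) hZ (f := MulAction.ofQuotientStabilizer Γ z)
    (fun g x => MulAction.ofQuotientStabilizer_smul Γ z g x)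
    (MulAction.injective_ofQuotientStabilizer Γ z) hU ((1 : Γ) : Γ ⧸ st Γ z)
  rw [← h, MulAction.ofQuotientStabilizer_mk, one_smul]

theorem ur_eq_of_st (hN : Nice Ω Γ) (hZ : Srt Ω Γ Z) (hW : Srt Ω Γ W) {U : Subgroup Γ}
    (hU : Op Ω U) {z : Z} {w : W} (h : st Γ z = st Γ w) : ur Ω U z = ur Ω U w := by
  have key : ∀ S T : Subgroup Γ, S = T →
      ur Ω U ((1 : Γ) : Γ ⧸ S) = ur Ω U ((1 : Γ) : Γ ⧸ T) := by
    intro S T hST
    subst hST
    rfl
  rw [← ur_coset hN hZ hU z, ← ur_coset hN hW hU w]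
  exact key _ _ h

end Pool.Agent.Lib.ThC

end

section

/-! # A11b: additivity of the U-rank, maps, tuples -/

set_option autoImplicit false
open scoped Pointwise

namespace Pool.Agent.Lib.ThC

variable {Ω Γ : Type} [Group Γ] [MulAction Γ Ω]
variable {Z W : Type} [MulAction Γ Z] [MulAction Γ W]

theorem A11b_swap (hN : Nice Ω Γ) (hZ : Srt Ω Γ Z) (hW : Srt Ω Γ W) {U V : Subgroup Γ}
    (hU : Op Ω U) (hV : Op Ω V) (hVU : V ≤ U) (a : Z) (b : W) :
    nf Ω U V (b, a) ↔ nf Ω U V (a, b) := by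
  have hst : st Γ (b, a) = st Γ (a, b) := by rw [st_prod, st_prod, inf_comm]
  rw [nf_iff_ur hN (srt_prod hN hW hZ) hV hVU, nf_iff_ur hN (srt_prod hN hZ hW) hV hVU,
    ur_eq_of_st hN (srt_prod hN hW hZ) (srt_prod hN hZ hW) hV hst,
    ur_eq_of_st hN (srt_prod hN hW hZ) (srt_prod hN hZ hW) hU hst]

/-- forking of a pair `(b, a)` over `V`. -/
theorem A11b_pair (hN : Nice Ω Γ) (hZ : Srt Ω Γ Z) (hW : Srt Ω Γ W) {U V : Subgroup Γ}
    (hU : Op Ω U) (hV : Op Ω V) (hVU : V ≤ U) (a : Z) (b : W) :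
    nf Ω U V (a, b) ↔ nf Ω U V b ∧ nf Ω (U ⊓ st Γ b) (V ⊓ st Γ b) a := by
  rw [← A11b_swap hN hZ hW hU hV hVU]
  have h := nf_pair hN hW hZ (srt_coset (Γ := Γ) hV) hU b a ((1 : Γ) : Γ ⧸ V)
  rw [st_coset, inf_eq_right.2 hVU] at h
  rw [h]
  have h2 : U ⊓ st Γ b ⊓ V = V ⊓ st Γ b := by
    rw [inf_right_comm, inf_eq_right.2 hVU]
  rw [h2]

/-- `≤` in additivity: induction on `n`: if `(a,b)` forks over `V` then `b` forks or `a` forks
over `b` (`nf_pair`), so the sum of the two ranks drops by at least one. -/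
theorem urge_pair_le (hN : Nice Ω Γ) (hZ : Srt Ω Γ Z) (hW : Srt Ω Γ W) {U : Subgroup Γ}
    (hU : Op Ω U) (a : Z) (b : W) (n : ℕ) (h : URGE Ω n U (a, b)) :
    n ≤ ur Ω U b + ur Ω (U ⊓ st Γ b) a := by
  induction n generalizing U with
  | zero => exact Nat.zero_le _
  | succ n ih =>
    obtain ⟨V, hVU, hV, hnf, hn⟩ := h
    have h1 := ih hV hn
    have hb : Op Ω (V ⊓ st Γ b) := op_inf hV (hW.sm b)
    have hle : V ⊓ st Γ b ≤ U ⊓ st Γ b := inf_le_inf_right _ hVU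
    have h2 := ur_mono hN hW hV hVU b
    have h3 := ur_mono hN hZ hb hle a
    rw [A11b_pair hN hZ hW hU hV hVU, nf_iff_ur hN hW hV hVU, nf_iff_ur hN hZ hb hle] at hnf
    by_contra hlt
    refine hnf ⟨?_, ?_⟩ <;> omega

end Pool.Agent.Lib.ThC

end

section

/-! # A11c: additivity of the U-rank, maps, tuples -/

set_option autoImplicit false
open scoped Pointwise

namespace Pool.Agent.Lib.ThC

variable {Ω Γ : Type} [Group Γ] [MulAction Γ Ω]
variable {Z W : Type} [MulAction Γ Z] [MulAction Γ W]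

private theorem A11c_fst (hN : Nice Ω Γ) (hZ : Srt Ω Γ Z) (hW : Srt Ω Γ W) (a : Z) (b : W)
    (n : ℕ) : ∀ {U : Subgroup Γ} (_ : Op Ω U) (_ : URGE Ω n U a), URGE Ω n U (a, b) := by
  induction n with
  | zero => exact fun _ _ => trivial
  | succ n ih =>
    intro U hU h
    obtain ⟨V, hVU, hV, hnf, hn⟩ := h
    refine ⟨V, hVU, hV, fun h2 => hnf ?_, ih hV hn⟩
    have h3 := nf_pair hN hZ hW (srt_coset (Γ := Γ) hV) hU a b ((1 : Γ) : Γ ⧸ V)
    rw [st_coset, inf_eq_right.2 hVU] at h3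
    exact (h3.1 h2).1

/-- `≥` in additivity: induction on `m` with `URGE m U b`: choose `V ≤ U` with `b` forking over
`V` and `URGE (m-1) V b`; by `nf_ext` over `U ⊓ st b` one may conjugate `V` by an element of
`U ⊓ st b` such that `a` does not fork with it (`nf (U ⊓ st b) (V ⊓ st b) a`, by `nf_symm`
applied to the coset of `V`).  For `m = 0`: `ur (U ⊓ st b) a ≤ ur U a ≤ ur U (a,b)`. -/
theorem urge_pair_ge (hN : Nice Ω Γ) (hZ : Srt Ω Γ Z) (hW : Srt Ω Γ W) {U : Subgroup Γ}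
    (hU : Op Ω U) (a : Z) (b : W) (m : ℕ) (h : URGE Ω m U b) :
    URGE Ω (m + ur Ω (U ⊓ st Γ b) a) U (a, b) := by
  induction m generalizing U with
  | zero =>
    rw [Nat.zero_add]
    refine A11c_fst hN hZ hW a b _ hU ?_
    rw [← le_ur_iff hN hZ hU]
    exact ur_mono hN hZ (op_inf hU (hW.sm b)) inf_le_left a
  | succ m ih =>
    obtain ⟨V, hVU, hV, hnf, hm⟩ := h
    have hUb : Op Ω (U ⊓ st Γ b) := op_inf hU (hW.sm b)
    obtain ⟨g, hg, hgv⟩ := nf_ext hN (srt_coset (Γ := Γ) hV)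
      (op_inf hUb (hZ.sm a)) (inf_le_left : U ⊓ st Γ b ⊓ st Γ a ≤ U ⊓ st Γ b)
      ((1 : Γ) : Γ ⧸ V)
    have hgU : g ∈ U := hg.1
    have hgb : g • b = b := hg.2
    have hV' : Op Ω (cj g V) := op_cj g hV
    have hVU' : cj g V ≤ U := by
      have h1 := cj_mono (g := g) hVU
      rwa [cj_eq_of_mem hgU] at h1
    have hst : st Γ (g • ((1 : Γ) : Γ ⧸ V)) = cj g V := by rw [st_smul, st_coset]
    have h2 := nf_symm hN (srt_coset (Γ := Γ) hV) hZ hUb _ a hgv
    rw [hst] at h2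
    have h3 : U ⊓ st Γ b ⊓ cj g V = cj g V ⊓ st Γ b := by
      rw [inf_right_comm, inf_eq_right.2 hVU']
    rw [h3] at h2
    have hle : cj g V ⊓ st Γ b ≤ U ⊓ st Γ b := inf_le_inf_right _ hVU'
    have h4 := (nf_iff_ur hN hZ (op_inf hV' (hW.sm b)) hle a).1 h2
    have h5 : URGE Ω m (cj g V) b := by
      rw [← le_ur_iff hN hW hV']
      have h6 := ur_cj (Ω := Ω) g V b
      rw [hgb] at h6
      rw [h6, le_ur_iff hN hW hV]
      exact hm
    have h7 := ih hV' h5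
    rw [h4] at h7
    have h8 : ¬ nf Ω U (cj g V) b := by
      intro h9
      have h10 := nf_cj g⁻¹ h9
      rw [cj_cj, inv_mul_cancel, cj_one, cj_eq_of_mem (U.inv_mem hgU),
        inv_smul_eq_iff.2 hgb.symm] at h10
      exact hnf h10
    have h11 : m + 1 + ur Ω (U ⊓ st Γ b) a = (m + ur Ω (U ⊓ st Γ b) a) + 1 := by ring
    rw [h11]
    exact ⟨cj g V, hVU', hV', fun h12 => h8 ((A11b_pair hN hZ hW hU hV' hVU' a b).1 h12).1, h7⟩

end Pool.Agent.Lib.ThC

end

section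

/-! # A11d: additivity of the U-rank, maps, tuples -/

set_option autoImplicit false
open scoped Pointwise

namespace Pool.Agent.Lib.ThC

variable {Ω Γ : Type} [Group Γ] [MulAction Γ Ω]
variable {Z W : Type} [MulAction Γ Z] [MulAction Γ W]

/-- (R3) additivity. -/
theorem ur_pair (hN : Nice Ω Γ) (hZ : Srt Ω Γ Z) (hW : Srt Ω Γ W) {U : Subgroup Γ}
    (hU : Op Ω U) (a : Z) (b : W) :
    ur Ω U (a, b) = ur Ω U b + ur Ω (U ⊓ st Γ b) a := by
  have hP := srt_prod hN hZ hW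
  apply le_antisymm
  · exact urge_pair_le hN hZ hW hU a b _ ((le_ur_iff hN hP hU).1 le_rfl)
  · exact (le_ur_iff hN hP hU).2
      (urge_pair_ge hN hZ hW hU a b _ ((le_ur_iff hN hW hU).1 le_rfl))

theorem ur_pair' (hN : Nice Ω Γ) (hZ : Srt Ω Γ Z) (hW : Srt Ω Γ W) {U : Subgroup Γ}
    (hU : Op Ω U) (a : Z) (b : W) :
    ur Ω U (a, b) = ur Ω U a + ur Ω (U ⊓ st Γ a) b := by
  have h := ur_inj hN (srt_prod hN hZ hW) (srt_prod hN hW hZ) (f := Prod.swap)
    (fun g z => rfl) Prod.swap_injective hU (a, b)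
  rw [← h]
  exact ur_pair hN hW hZ hU b a

/-- symmetry in rank form. -/
theorem ur_symm (hN : Nice Ω Γ) (hZ : Srt Ω Γ Z) (hW : Srt Ω Γ W) {U : Subgroup Γ}
    (hU : Op Ω U) (a : Z) (b : W) :
    ur Ω U a + ur Ω (U ⊓ st Γ a) b = ur Ω U b + ur Ω (U ⊓ st Γ b) a := by
  rw [← ur_pair' hN hZ hW hU a b, ur_pair hN hZ hW hU a b]

/-- tuples: adding one more coordinate. -/
theorem ur_snoc (hN : Nice Ω Γ) (hZ : Srt Ω Γ Z) {U : Subgroup Γ} (hU : Op Ω U) {n : ℕ}
    (z : Fin n → Z) (a : Z) :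
    ur Ω U (Fin.snoc z a : Fin (n + 1) → Z) = ur Ω U z + ur Ω (U ⊓ st Γ z) a := by
  have h := ur_inj hN (srt_prod hN (srt_pi hN hZ n) hZ) (srt_pi hN hZ (n + 1))
    (f := fun p : (Fin n → Z) × Z => (Fin.snoc p.1 p.2 : Fin (n + 1) → Z))
    (fun g p => by
      funext i
      refine Fin.lastCases ?_ (fun j => ?_) i
      · simp
      · simp) (fun p q hpq => by
      have h1 : p.1 = q.1 := by
        have := congrArg (Fin.init (α := fun _ => Z)) hpq
        simpa [Fin.init_snoc] using this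
      have h2 : p.2 = q.2 := by
        have := congrFun hpq (Fin.last n)
        simpa [Fin.snoc_last] using this
      exact Prod.ext h1 h2) hU (z, a)
  rw [← ur_pair' hN (srt_pi hN hZ n) hZ hU z a]
  exact h

/-- if `b` is algebraic over `U ⊓ st a` then it adds nothing. -/
theorem ur_pair_alg (hN : Nice Ω Γ) (hZ : Srt Ω Γ Z) (hW : Srt Ω Γ W) {U : Subgroup Γ}
    (hU : Op Ω U) (a : Z) (b : W) (h : (orb (U ⊓ st Γ a) b).Finite) :
    ur Ω U (a, b) = ur Ω U a := by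
  rw [ur_pair' hN hZ hW hU a b, (ur_eq_zero hN hW (op_inf hU (hZ.sm a))).2 h, add_zero]

/-- if `b` is algebraic over `V ⊓ st a`, its rank is at most that of `a`. -/
theorem ur_le_of_alg (hN : Nice Ω Γ) (hZ : Srt Ω Γ Z) (hW : Srt Ω Γ W) {U : Subgroup Γ}
    (hU : Op Ω U) (a : Z) (b : W) (h : (orb (U ⊓ st Γ a) b).Finite) :
    ur Ω U b ≤ ur Ω U a := by
  rw [← ur_pair_alg hN hZ hW hU a b h, ur_pair hN hZ hW hU a b]
  exact Nat.le_add_right _ _

end Pool.Agent.Lib.ThC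

end

section

/-! # A11e: additivity of the U-rank, maps, tuples -/

set_option autoImplicit false
open scoped Pointwise

namespace Pool.Agent.Lib.ThC

variable {Ω Γ : Type} [Group Γ] [MulAction Γ Ω]
variable {Z W : Type} [MulAction Γ Z] [MulAction Γ W]

/-- (R11) realisations of a fixed type keep the rank. -/
theorem ur_of_real (hN : Nice Ω Γ) (hZ : Srt Ω Γ Z) {U V : Subgroup Γ} (hU : Op Ω U)
    (hV : Op Ω V) (hVU : V ≤ U) {p : Tp Ω Γ Z} (hp : U ≤ st Γ p) {a : Z}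
    (ha : orb V a ∈ p.s) : ur Ω V a = ur Ω U a := by
  refine (nf_iff_ur hN hZ hV hVU a).1 ⟨p, ha, ?_⟩
  refine (Set.finite_singleton p).subset ?_
  rintro _ ⟨g, hg, rfl⟩
  exact hp hg

/-- (R10) stationarity in rank form. -/
theorem real_of_ur (hN : Nice Ω Γ) (hZ : Srt Ω Γ Z) {U V : Subgroup Γ} (hU : Op Ω U)
    (hV : Op Ω V) (hVU : V ≤ U) {p : Tp Ω Γ Z} (hp : U ≤ st Γ p) {a : Z}
    (ha : orb U a ∈ p.s) (h : ur Ω V a = ur Ω U a) : orb V a ∈ p.s :=
  nf_stat hN hZ hU hV hVU hp ha ((nf_iff_ur hN hZ hV hVU a).2 h)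

/-- (R12) canonicity of types (Lemma 4.2).  Proof: choose `q ∋ orb (V ⊓ st p) a` with finite
`V`-orbit (by `nf V (V ⊓ st p) a`); `orb (V ⊓ st p) a ∈ p` by `real_of_ur` for `U ⊓ st p`;
both have finite `(V ⊓ st p)`-orbits, so `q = g • p` with `g ∈ V ⊓ st p`
(`nf_unique`), i.e. `q = p`. -/
theorem tp_canonical (hN : Nice Ω Γ) (hZ : Srt Ω Γ Z) {U V : Subgroup Γ} (hU : Op Ω U)
    (hV : Op Ω V) (hVU : V ≤ U) {p : Tp Ω Γ Z} {a : Z} (ha : orb (U ⊓ st Γ p) a ∈ p.s)
    (h1 : ur Ω (V ⊓ st Γ p) a = ur Ω (U ⊓ st Γ p) a)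
    (h2 : ur Ω (V ⊓ st Γ p) a = ur Ω V a) : (orb V p).Finite := by
  have hP : Op Ω (st Γ p) := tp_open hN hZ p
  have hVP : Op Ω (V ⊓ st Γ p) := op_inf hV hP
  obtain ⟨q, hq, hqf⟩ := (nf_iff_ur hN hZ hVP inf_le_left a).2 h2
  have hpa : orb (V ⊓ st Γ p) a ∈ p.s :=
    real_of_ur hN hZ (op_inf hU hP) hVP (inf_le_inf_right _ hVU) inf_le_right ha h1
  have hpf : (orb (V ⊓ st Γ p) p).Finite := by
    refine (Set.finite_singleton p).subset ?_
    rintro _ ⟨g, hg, rfl⟩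
    exact hg.2
  obtain ⟨g, hg, hgq⟩ := nf_unique hN hZ hVP hpf (orb_finite_of_le inf_le_left hqf) hpa hq
  have hgp : g • p = p := hg.2
  rw [hgp] at hgq
  rw [← hgq]
  exact hqf

end Pool.Agent.Lib.ThC

end
end

section

section

/-! # C1a: tuples of rank one elements; sequences of realisations -/

set_option autoImplicit false
open scoped Pointwise

namespace Pool.Agent.Lib.ThC

variable {Ω Γ : Type} [Group Γ] [MulAction Γ Ω]
variable {Z W : Type} [MulAction Γ Z] [MulAction Γ W]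

/-- the initial segment of a sequence, as a tuple. -/
def ini (c : ℕ → Z) (n : ℕ) : Fin n → Z := fun i => c i

private theorem C1a_zero (hN : Nice Ω Γ) (hZ : Srt Ω Γ Z) {U : Subgroup Γ} (hU : Op Ω U)
    (x : Fin 0 → Z) : ur Ω U x = 0 := by
  rw [ur_eq_zero hN (srt_pi hN hZ 0) hU]
  exact Set.toFinite _

theorem ur_tuple_le (hN : Nice Ω Γ) (hZ : Srt Ω Γ Z) {U : Subgroup Γ} (hU : Op Ω U) {n : ℕ}
    (x : Fin n → Z) {k : ℕ} (h : ∀ i, ur Ω U (x i) ≤ k) : ur Ω U x ≤ n * k := by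
  induction n with
  | zero => rw [C1a_zero hN hZ hU x]; exact Nat.zero_le _
  | succ n ih =>
    have h1 : x = Fin.snoc (Fin.init x) (x (Fin.last n)) := (Fin.snoc_init_self x).symm
    rw [h1, ur_snoc hN hZ hU]
    have h2 := ih (Fin.init x) (fun i => h i.castSucc)
    have h3 : ur Ω (U ⊓ st Γ (Fin.init x)) (x (Fin.last n)) ≤ k :=
      (ur_mono hN hZ (op_inf hU ((srt_pi hN hZ n).sm _)) inf_le_left _).trans (h _)
    have h4 : (n + 1) * k = n * k + k := by ring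
    rw [h4]
    exact add_le_add h2 h3

private theorem C1a_comp_smul {m n : ℕ} (g : Γ) (x : Fin n → Z) (f : Fin m → Fin n) :
    g • (x ∘ f) = (g • x) ∘ f := rfl

/-- sub-tuples (also with repetitions and permutations) have smaller rank. -/
theorem ur_comp_le (hN : Nice Ω Γ) (hZ : Srt Ω Γ Z) {U : Subgroup Γ} (hU : Op Ω U) {m n : ℕ}
    (x : Fin n → Z) (f : Fin m → Fin n) : ur Ω U (x ∘ f) ≤ ur Ω U x := by
  refine ur_le_of_alg hN (srt_pi hN hZ n) (srt_pi hN hZ m) hU x (x ∘ f) ?_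
  refine (Set.finite_singleton (x ∘ f)).subset ?_
  rintro y ⟨g, hg, rfl⟩
  have h1 : g • x = x := (Subgroup.mem_inf.1 hg).2
  rw [C1a_comp_smul, h1]
  rfl

/-- sub-tuples of an independent tuple of elements of rank `k` are independent. -/
theorem ur_comp_indep (hN : Nice Ω Γ) (hZ : Srt Ω Γ Z) {U : Subgroup Γ} (hU : Op Ω U)
    {m n : ℕ} (x : Fin n → Z) {k : ℕ} (h : ∀ i, ur Ω U (x i) ≤ k) (hx : ur Ω U x = n * k)
    {f : Fin m → Fin n} (hf : Function.Injective f) : ur Ω U (x ∘ f) = m * k := by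
  classical
  refine le_antisymm (ur_tuple_le hN hZ hU _ fun i => h (f i)) ?_
  let S : Type := {i : Fin n // i ∉ Set.range f}
  let m' : ℕ := Fintype.card S
  let e : Fin m' ≃ S := (Fintype.equivFin S).symm
  let f' : Fin m' → Fin n := fun j => (e j).1
  have hcard : m + m' = n := by
    have h1 : Fintype.card {i : Fin n // i ∈ Set.range f} = m := by
      have h2 := Set.card_range_of_injective hf
      rw [Fintype.card_fin] at h2
      exact h2
    have h3 : m' = Fintype.card (Fin n) - Fintype.card {i : Fin n // i ∈ Set.range f} :=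
      Fintype.card_subtype_compl _
    have h4 : Fintype.card {i : Fin n // i ∈ Set.range f} ≤ Fintype.card (Fin n) :=
      Fintype.card_subtype_le _
    rw [Fintype.card_fin] at h3 h4
    omega
  have h1 : ur Ω U x ≤ ur Ω U (x ∘ f, x ∘ f') := by
    refine ur_le_of_alg hN (srt_prod hN (srt_pi hN hZ m) (srt_pi hN hZ m')) (srt_pi hN hZ n) hU
      (x ∘ f, x ∘ f') x ?_
    refine (Set.finite_singleton x).subset ?_
    rintro y ⟨g, hg, rfl⟩
    have h2 : g • (x ∘ f, x ∘ f') = (x ∘ f, x ∘ f') := (Subgroup.mem_inf.1 hg).2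
    have h3 : (g • x) ∘ f = x ∘ f := congrArg Prod.fst h2
    have h4 : (g • x) ∘ f' = x ∘ f' := congrArg Prod.snd h2
    show g • x = x
    funext i
    by_cases hi : i ∈ Set.range f
    · obtain ⟨j, rfl⟩ := hi
      exact congrFun h3 j
    · have h5 := congrFun h4 (e.symm ⟨i, hi⟩)
      have h6 : f' (e.symm ⟨i, hi⟩) = i := by
        show (e (e.symm ⟨i, hi⟩)).1 = i
        rw [Equiv.apply_symm_apply]
      simp only [Function.comp_apply] at h5
      rw [h6] at h5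
      exact h5
  rw [ur_pair hN (srt_pi hN hZ m) (srt_pi hN hZ m') hU, hx] at h1
  have h2 : ur Ω U (x ∘ f') ≤ m' * k := ur_tuple_le hN hZ hU _ fun i => h (f' i)
  have h3 : ur Ω (U ⊓ st Γ (x ∘ f')) (x ∘ f) ≤ ur Ω U (x ∘ f) :=
    ur_mono hN (srt_pi hN hZ m) (op_inf hU ((srt_pi hN hZ m').sm _)) inf_le_left _
  have h4 : n * k = m * k + m' * k := by rw [← hcard]; ring
  omega

/-- for a tuple of rank `n * k` with entries of rank `≤ k`, every entry has rank `k` over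
the previous ones. -/
theorem ur_ini_indep (hN : Nice Ω Γ) (hZ : Srt Ω Γ Z) {U : Subgroup Γ} (hU : Op Ω U)
    (c : ℕ → Z) {k : ℕ} (h : ∀ n, ur Ω (U ⊓ st Γ (ini c n)) (c n) = k) (n : ℕ) :
    ur Ω U (ini c n) = n * k := by
  induction n with
  | zero => rw [C1a_zero hN hZ hU]; simp
  | succ n ih =>
    have h1 : ini c (n + 1) = (Fin.snoc (ini c n) (c n) : Fin (n + 1) → Z) := by
      funext i
      refine Fin.lastCases ?_ (fun j => ?_) i
      · rw [Fin.snoc_last]; rfl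
      · rw [Fin.snoc_castSucc]; rfl
    rw [h1, ur_snoc hN hZ hU, ih, h n]
    ring

end Pool.Agent.Lib.ThC

end

section

/-! # C1b: tuples of rank one elements; sequences of realisations -/

set_option autoImplicit false
open scoped Pointwise

namespace Pool.Agent.Lib.ThC

variable {Ω Γ : Type} [Group Γ] [MulAction Γ Ω]
variable {Z W : Type} [MulAction Γ Z] [MulAction Γ W]

private theorem C1b_op (hZ : ∀ z : Z, Op Ω (st Γ z)) {U : Subgroup Γ} (hU : Op Ω U) {n : ℕ}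
    (x : Fin n → Z) : Op Ω (U ⊓ st Γ x) := by
  apply op_inf hU
  rw [st_pi]
  exact op_iInf (fun i => hZ (x i))

private theorem C1b_mem_st {n : ℕ} {x : Fin n → Z} {g : Γ} : g ∈ st Γ x ↔ ∀ i, g • x i = x i := by
  constructor
  · intro h i
    have h1 : g • x = x := h
    exact congrFun h1 i
  · intro h
    show g • x = x
    funext i
    exact h i

private theorem C1b_ini_succ (c : ℕ → Z) (n : ℕ) :
    ini c (n + 1) = (Fin.snoc (ini c n) (c n) : Fin (n + 1) → Z) := by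
  funext i
  refine Fin.lastCases ?_ (fun j => ?_) i
  · rw [Fin.snoc_last]
    rfl
  · rw [Fin.snoc_castSucc]
    rfl

/-- sequences of realisations of types `p n`, each over the previous elements. -/
theorem seq_real (hN : Nice Ω Γ) (hZ : Srt Ω Γ Z) {U : Subgroup Γ} (hU : Op Ω U)
    (p : ℕ → Tp Ω Γ Z) : ∃ c : ℕ → Z, ∀ n, orb (U ⊓ st Γ (ini c n)) (c n) ∈ (p n).s := by
  choose pick hpick using fun (n : ℕ) (x : Fin n → Z) =>
    tp_exists_orb hN hZ (C1b_op hZ.sm hU x) (p n)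
  obtain ⟨T, hT⟩ : ∃ T : (n : ℕ) → (Fin n → Z), ∀ n,
      T (n + 1) = (Fin.snoc (T n) (pick n (T n)) : Fin (n + 1) → Z) :=
    ⟨fun n => Nat.rec (motive := fun n => Fin n → Z) Fin.elim0
      (fun n x => (Fin.snoc x (pick n x) : Fin (n + 1) → Z)) n, fun n => rfl⟩
  have key : ∀ n, ini (fun n => pick n (T n)) n = T n := by
    intro n
    induction n with
    | zero => exact Subsingleton.elim _ _
    | succ n ih => rw [C1b_ini_succ, ih, hT]
  refine ⟨fun n => pick n (T n), fun n => ?_⟩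
  rw [key n]
  exact hpick n (T n)

private theorem C1b_cj {U : Subgroup Γ} {g : Γ} (hg : g ∈ U) {n : ℕ} (x : Fin n → Z) :
    cj g (U ⊓ st Γ x) = U ⊓ st Γ (g • x) := by
  rw [cj_inf, cj_eq_of_mem hg, ← st_smul]

/-- Two independent tuples of rank one elements realising the same types `p i`
(fixed by `U`) are conjugate under `U`.  Induction: having conjugated the first `j` entries,
use `real_of_ur` for `U ⊓ st` of these entries, and `tp_orb_unique`. -/
theorem conj_of_indep (hN : Nice Ω Γ) (hZ : Srt Ω Γ Z) {U : Subgroup Γ} (hU : Op Ω U) {n : ℕ}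
    (p : Fin n → Tp Ω Γ Z) (hp : ∀ i, U ≤ st Γ (p i)) {x y : Fin n → Z}
    (hx : ∀ i, orb U (x i) ∈ (p i).s) (hy : ∀ i, orb U (y i) ∈ (p i).s)
    (h1 : ∀ i, ur Ω U (x i) = 1) (hrx : ur Ω U x = n) (hry : ur Ω U y = n) :
    ∃ g ∈ U, g • x = y := by
  induction n with
  | zero => exact ⟨1, U.one_mem, Subsingleton.elim _ _⟩
  | succ n ih =>
    have h1y : ∀ i, ur Ω U (y i) = 1 := by
      intro i
      have h2 := tp_orb_unique (hy i) (hx i)
      have h3 : y i ∈ orb U (x i) := by rw [← h2]; exact mem_orb_self U (y i)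
      obtain ⟨g, hg, hgy⟩ := h3
      rw [← hgy, ur_smul hg, h1 i]
    have split : ∀ z : Fin (n + 1) → Z, (∀ i, ur Ω U (z i) = 1) → ur Ω U z = (n + 1 : ℕ) →
        ur Ω U (Fin.init z) = n ∧ ur Ω (U ⊓ st Γ (Fin.init z)) (z (Fin.last n)) = 1 := by
      intro z hz1 hz
      have e1 : ur Ω U z = ur Ω U (Fin.init z) + ur Ω (U ⊓ st Γ (Fin.init z)) (z (Fin.last n)) := by
        have := ur_snoc hN hZ hU (Fin.init z) (z (Fin.last n))
        rw [← this]
        congr 1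
        exact (Fin.snoc_init_self z).symm
      have e2 : ur Ω U (Fin.init z) ≤ n * 1 :=
        ur_tuple_le hN hZ hU (Fin.init z) (fun i => (hz1 i.castSucc).le)
      have e3 : ur Ω (U ⊓ st Γ (Fin.init z)) (z (Fin.last n)) ≤ ur Ω U (z (Fin.last n)) :=
        ur_mono hN hZ (C1b_op hZ.sm hU _) inf_le_left _
      rw [hz1] at e3
      omega
    obtain ⟨ex1, ex2⟩ := split x h1 hrx
    obtain ⟨ey1, ey2⟩ := split y h1y hry
    obtain ⟨g, hg, hgx⟩ := ih (fun i => p i.castSucc) (fun i => hp _) (x := Fin.init x)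
      (y := Fin.init y) (fun i => hx i.castSucc) (fun i => hy i.castSucc)
      (fun i => h1 i.castSucc) ex1 ey1
    have hV : Op Ω (U ⊓ st Γ (Fin.init y)) := C1b_op hZ.sm hU _
    have hcj : cj g (U ⊓ st Γ (Fin.init x)) = U ⊓ st Γ (Fin.init y) := by
      rw [C1b_cj hg, hgx]
    have hax : orb (U ⊓ st Γ (Fin.init y)) (g • x (Fin.last n)) ∈ (p (Fin.last n)).s := by
      apply real_of_ur hN hZ hU hV inf_le_left (hp (Fin.last n))
      · have : orb U (g • x (Fin.last n)) = orb U (x (Fin.last n)) :=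
          orb_eq_of_mem (smul_mem_orb hg _)
        rw [this]
        exact hx _
      · rw [← hcj, ur_cj, ex2, ur_smul hg, h1]
    have hay : orb (U ⊓ st Γ (Fin.init y)) (y (Fin.last n)) ∈ (p (Fin.last n)).s := by
      apply real_of_ur hN hZ hU hV inf_le_left (hp (Fin.last n)) (hy _)
      rw [ey2, h1y]
    have h2 := tp_orb_unique hay hax
    have h3 : y (Fin.last n) ∈ orb (U ⊓ st Γ (Fin.init y)) (g • x (Fin.last n)) := by
      rw [← h2]; exact mem_orb_self _ _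
    obtain ⟨k, hk, hky⟩ := h3
    refine ⟨k * g, U.mul_mem hk.1 hg, ?_⟩
    rw [mul_smul]
    have hk2 := C1b_mem_st.1 hk.2
    funext i
    refine Fin.lastCases ?_ (fun j => ?_) i
    · exact hky
    · have e1 : g • x j.castSucc = y j.castSucc := congrFun hgx j
      show k • g • x j.castSucc = y j.castSucc
      rw [e1]
      exact hk2 j

/-- Morley sequences, arbitrary rank: if `c n` realises `p` over `U ⊓ st (c|n)` for all `n`, and
`c'` similarly, then initial segments are conjugate under `U`, if `U` fixes `p`. -/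
theorem morley_conj {U : Subgroup Γ} {p : Tp Ω Γ Z} (hp : U ≤ st Γ p) {c c' : ℕ → Z}
    (hc : ∀ n, orb (U ⊓ st Γ (ini c n)) (c n) ∈ p.s)
    (hc' : ∀ n, orb (U ⊓ st Γ (ini c' n)) (c' n) ∈ p.s) (n : ℕ) :
    ∃ g ∈ U, g • ini c n = ini c' n := by
  induction n with
  | zero => exact ⟨1, U.one_mem, Subsingleton.elim _ _⟩
  | succ n ih =>
    obtain ⟨g, hg, hgc⟩ := ih
    have hgp : g • p = p := hp hg
    have h1 : orb (U ⊓ st Γ (ini c' n)) (g • c n) ∈ p.s := by
      have h2 : g • orb (U ⊓ st Γ (ini c n)) (c n) ∈ (g • p).s := smul_mem_smul_tp.2 (hc n)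
      rw [hgp, smul_orb, C1b_cj hg, hgc] at h2
      exact h2
    have h2 := tp_orb_unique (hc' n) h1
    have h3 : c' n ∈ orb (U ⊓ st Γ (ini c' n)) (g • c n) := by
      rw [← h2]; exact mem_orb_self _ _
    obtain ⟨k, hk, hky⟩ := h3
    refine ⟨k * g, U.mul_mem hk.1 hg, ?_⟩
    rw [mul_smul]
    have hk2 := C1b_mem_st.1 hk.2
    funext i
    refine Fin.lastCases ?_ (fun j => ?_) i
    · exact hky
    · have e1 : g • ini c n j = ini c' n j := congrFun hgc j
      show k • g • ini c n j = ini c' n j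
      rw [e1]
      exact hk2 j

private theorem C1b_sub (hZ : ∀ z : Z, Op Ω (st Γ z)) {U : Subgroup Γ} (hU : Op Ω U)
    {p : Tp Ω Γ Z} {c : ℕ → Z} (hc : ∀ n, orb (U ⊓ st Γ (ini c n)) (c n) ∈ p.s)
    {φ : ℕ → ℕ} (hφ : StrictMono φ) (n : ℕ) :
    orb (U ⊓ st Γ (ini (c ∘ φ) n)) ((c ∘ φ) n) ∈ p.s := by
  refine p.up _ (hc (φ n)) _ (df_orb (C1b_op hZ hU _) _) (orb_mono ?_ _)
  apply inf_le_inf_left
  intro g hg
  rw [C1b_mem_st] at hg ⊢
  intro i
  exact hg ⟨φ i, hφ i.2⟩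

private theorem C1b_phi {i j : ℕ} (h : i < j) :
    StrictMono (fun n : ℕ => if n = 0 then i else j + (n - 1)) := by
  apply strictMono_nat_of_lt_succ
  intro n
  rcases Nat.eq_zero_or_pos n with rfl | hn
  · simpa using h
  · have h1 : n ≠ 0 := by omega
    simp only [h1, if_false, Nat.succ_ne_zero]
    omega

/-- in particular all increasing pairs of a Morley sequence are conjugate. -/
theorem morley_pair (hZ : ∀ z : Z, Op Ω (st Γ z)) {U : Subgroup Γ} (hU : Op Ω U)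
    {p : Tp Ω Γ Z} (hp : U ≤ st Γ p)
    {c : ℕ → Z} (hc : ∀ n, orb (U ⊓ st Γ (ini c n)) (c n) ∈ p.s) {i j i' j' : ℕ}
    (h : i < j) (h' : i' < j') : ∃ g ∈ U, g • c i = c i' ∧ g • c j = c j' := by
  obtain ⟨g, hg, hgc⟩ := morley_conj hp (C1b_sub hZ hU hc (C1b_phi h))
    (C1b_sub hZ hU hc (C1b_phi h')) 2
  exact ⟨g, hg, congrFun hgc 0, congrFun hgc 1⟩

end Pool.Agent.Lib.ThC

end

section

/-! # C2a: triviality of rank one elements (from polynomial growth) -/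

set_option autoImplicit false
open scoped Pointwise

namespace Pool.Agent.Lib.ThC

variable {Ω Γ : Type} [Group Γ] [MulAction Γ Ω]
variable {Z W : Type} [MulAction Γ Z] [MulAction Γ W]

/-- a circuit of size `k + 1` made of `U`-conjugates of the three elements `a 0, a 1, a 2`. -/
def Circ (Ω : Type) {Γ : Type} [Group Γ] [MulAction Γ Ω] {Z : Type} [MulAction Γ Z]
    (U : Subgroup Γ) (a : Fin 3 → Z) (k : ℕ) (u : Fin (k + 1) → Z) : Prop :=
  (∀ i, ∃ t, u i ∈ orb U (a t)) ∧ ur Ω U u = k ∧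
    ∀ i : Fin (k + 1), ur Ω U (u ∘ i.succAbove) = k

/-! ## The rank of an open subgroup `W` over `U` (rank of the coset `1·W`) -/

/-- the rank over `U` of a code for the subgroup `W`. -/
noncomputable def C2a_D (Ω : Type) {Γ : Type} [Group Γ] [MulAction Γ Ω] (U W : Subgroup Γ) : ℕ :=
  ur Ω U ((1 : Γ) : Γ ⧸ W)

theorem C2a_D_st (hN : Nice Ω Γ) (hZ : Srt Ω Γ Z) {U : Subgroup Γ} (hU : Op Ω U) (z : Z) :
    C2a_D Ω U (st Γ z) = ur Ω U z := ur_coset hN hZ hU z

theorem C2a_D_eq (hN : Nice Ω Γ) (hZ : Srt Ω Γ Z) {U W : Subgroup Γ} (hU : Op Ω U) {z : Z}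
    (h : st Γ z = W) : ur Ω U z = C2a_D Ω U W := by
  subst h
  exact (C2a_D_st hN hZ hU z).symm

theorem C2a_D_inf (hN : Nice Ω Γ) {U V W : Subgroup Γ} (hU : Op Ω U) (hV : Op Ω V)
    (hW : Op Ω W) : C2a_D Ω U (V ⊓ W) = C2a_D Ω U W + C2a_D Ω (U ⊓ W) V := by
  have hsV : Srt Ω Γ (Γ ⧸ V) := srt_coset hV
  have hsW : Srt Ω Γ (Γ ⧸ W) := srt_coset hW
  have h1 := ur_pair hN hsV hsW hU ((1 : Γ) : Γ ⧸ V) ((1 : Γ) : Γ ⧸ W)
  rw [C2a_D_eq hN (srt_prod hN hsV hsW) hU (W := V ⊓ W)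
    (by rw [st_prod, st_coset, st_coset]), st_coset] at h1
  exact h1

theorem C2a_D_mono (hN : Nice Ω Γ) {U V W : Subgroup Γ} (hV : Op Ω V) (hVU : V ≤ U)
    (hW : Op Ω W) : C2a_D Ω V W ≤ C2a_D Ω U W :=
  ur_mono hN (srt_coset hW) hV hVU _

theorem C2a_D_anti (hN : Nice Ω Γ) {U V W : Subgroup Γ} (hU : Op Ω U) (hV : Op Ω V)
    (hVW : V ≤ W) (hW : Op Ω W) : C2a_D Ω U W ≤ C2a_D Ω U V := by
  have h1 := C2a_D_inf hN hU hV hW
  rw [inf_eq_left.2 hVW] at h1
  omega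

theorem C2a_D_zero (hN : Nice Ω Γ) (hZ : Srt Ω Γ Z) {U : Subgroup Γ} (hU : Op Ω U) {z : Z} :
    C2a_D Ω U (st Γ z) = 0 ↔ (orb U z).Finite := by
  rw [C2a_D_st hN hZ hU, ur_eq_zero hN hZ hU]

/-- submodularity -/
theorem C2a_D_submod (hN : Nice Ω Γ) {U V W Y : Subgroup Γ} (hU : Op Ω U) (hV : Op Ω V)
    (hW : Op Ω W) (hY : Op Ω Y) (hVY : V ≤ Y) (hWY : W ≤ Y) :
    C2a_D Ω U (V ⊓ W) + C2a_D Ω U Y ≤ C2a_D Ω U V + C2a_D Ω U W := by
  have h1 := C2a_D_inf hN hU hV hW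
  have h2 := C2a_D_inf hN hU hV hY
  rw [inf_eq_left.2 hVY] at h2
  have h3 := C2a_D_mono hN (op_inf hU hW) (inf_le_inf_left U hWY) hV
  omega

theorem C2a_D_smul (hN : Nice Ω Γ) (hZ : Srt Ω Γ Z) {U W : Subgroup Γ} (hU : Op Ω U) {g : Γ}
    (hg : g ∈ U) {z : Z} (h : st Γ (g • z) = W) : C2a_D Ω U W = ur Ω U z := by
  rw [← C2a_D_eq hN hZ hU h, ur_smul hg]

/-- elements of the stabiliser of a tuple -/
theorem C2a_mem_st_pi {n : ℕ} {z : Fin n → Z} {g : Γ} : g ∈ st Γ z ↔ ∀ i, g • z i = z i := by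
  rw [MulAction.mem_stabilizer_iff, funext_iff]
  rfl

theorem C2a_mem_st {z : Z} {g : Γ} : g ∈ st Γ z ↔ g • z = z := MulAction.mem_stabilizer_iff

/-- the stabiliser of a tuple with one coordinate omitted -/
theorem C2a_mem_st_succAbove {n : ℕ} {z : Fin (n + 1) → Z} {j : Fin (n + 1)} {g : Γ} :
    g ∈ st Γ (z ∘ j.succAbove) ↔ ∀ i, i ≠ j → g • z i = z i := by
  rw [C2a_mem_st_pi]
  constructor
  · intro h i hi
    obtain ⟨l, rfl⟩ := Fin.exists_succAbove_eq hi
    exact h l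
  · intro h l
    exact h _ (Fin.succAbove_ne j l)

/-- Gluing.  Let `u` be a circuit of size `k + 1`, `e = u (last) = g • a t` with `g ∈ U`; let
`s, s'` be the other two indices.  By `ur_ext` choose `h ∈ U ⊓ st e` with
`(a', a'') = h g • (a s, a s')` of rank one over `U ⊓ st u` (its rank over `U ⊓ st e` is
`2 - 1 = 1`).
Then `(u_0, …, u_{k-1}, a', a'')` is a circuit of size `k + 2`; all ranks are computed with
`ur_pair` (see the blueprint). -/
theorem circ_glue (hN : Nice Ω Γ) (hZ : Srt Ω Γ Z) {U : Subgroup Γ} (hU : Op Ω U)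
    (a : Fin 3 → Z) (h1 : ∀ i, ur Ω U (a i) = 1)
    (h2 : ∀ i j, i ≠ j → ur Ω U (a i, a j) = 2) (h3 : ur Ω U a = 2) {k : ℕ} (hk : 2 ≤ k)
    {u : Fin (k + 1) → Z} (hu : Circ Ω U a k u) :
    ∃ u' : Fin (k + 2) → Z, Circ Ω U a (k + 1) u' := by
  obtain ⟨hu1, hu2, hu3⟩ := hu
  have hpi : ∀ n : ℕ, Srt Ω Γ (Fin n → Z) := fun n => srt_pi hN hZ n
  have hZZ : Srt Ω Γ (Z × Z) := srt_prod hN hZ hZ
  have hop : ∀ z : Z, Op Ω (st Γ z) := hZ.sm
  obtain ⟨t, g, hg, hge⟩ := hu1 (Fin.last k)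
  set e : Z := u (Fin.last k) with he
  -- the other two indices
  obtain ⟨s, s', hs, hs', hss', hall⟩ : ∃ s s' : Fin 3, s ≠ t ∧ s' ≠ t ∧ s ≠ s' ∧
      ∀ i : Fin 3, i = t ∨ i = s ∨ i = s' := by
    fin_cases t
    · exact ⟨1, 2, by decide, by decide, by decide, by decide⟩
    · exact ⟨0, 2, by decide, by decide, by decide, by decide⟩
    · exact ⟨0, 1, by decide, by decide, by decide, by decide⟩
  -- rank of the pair over `U ⊓ st e`
  have hstt : ∀ g' : Γ, st Γ (g' • a) = st Γ (g' • a t) ⊓ (st Γ (g' • a s) ⊓ st Γ (g' • a s')) := by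
    intro g'
    ext x
    rw [Subgroup.mem_inf, Subgroup.mem_inf, C2a_mem_st_pi, C2a_mem_st, C2a_mem_st, C2a_mem_st]
    constructor
    · intro h
      exact ⟨h t, h s, h s'⟩
    · rintro ⟨ht, hs1, hs2⟩ i
      rcases hall i with rfl | rfl | rfl
      · exact ht
      · exact hs1
      · exact hs2
  have hpair_e : ur Ω (U ⊓ st Γ e) (g • a s, g • a s') = 1 := by
    have hst1 : st Γ (g • a s, g • a s') = st Γ (g • a s) ⊓ st Γ (g • a s') := st_prod _ _
    rw [C2a_D_eq hN hZZ (op_inf hU (hop e)) hst1]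
    have h4 := C2a_D_inf hN hU (op_inf (hop (g • a s)) (hop (g • a s'))) (hop e)
    have h5 : C2a_D Ω U (st Γ (g • a s) ⊓ st Γ (g • a s') ⊓ st Γ e) = 2 := by
      rw [C2a_D_smul hN (hpi 3) hU hg (z := a), h3]
      rw [hstt g, hge, inf_comm]
    have h6 : C2a_D Ω U (st Γ e) = 1 := by
      rw [C2a_D_smul hN hZ hU hg (z := a t), h1]
      rw [hge]
    omega
  obtain ⟨h, hh, hhr⟩ := ur_ext hN hZZ (op_inf hU ((hpi (k + 1)).sm u))
    (U := U ⊓ st Γ e) (V := U ⊓ st Γ u) (by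
      refine inf_le_inf_left U ?_
      intro x hx
      rw [C2a_mem_st_pi] at hx
      exact C2a_mem_st.2 (hx (Fin.last k))) (g • a s, g • a s')
  rw [hpair_e] at hhr
  have hhU : h ∈ U := hh.1
  have hhe : h • e = e := C2a_mem_st.1 hh.2
  set a' : Z := h • g • a s with ha'
  set a'' : Z := h • g • a s' with ha''
  -- subgroups
  set P : Subgroup Γ := st Γ (u ∘ (Fin.last k).succAbove) with hP
  have hPop : Op Ω P := (hpi k).sm _
  set E : Subgroup Γ := st Γ e with hE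
  have hEop : Op Ω E := hop e
  set A : Subgroup Γ := st Γ a' with hA
  have hAop : Op Ω A := hop a'
  set B : Subgroup Γ := st Γ a'' with hB
  have hBop : Op Ω B := hop a''
  have hPE : st Γ u = P ⊓ E := by
    ext x
    rw [Subgroup.mem_inf, C2a_mem_st_pi, hP, C2a_mem_st_succAbove, hE, C2a_mem_st]
    constructor
    · intro hx
      exact ⟨fun i _ => hx i, hx _⟩
    · rintro ⟨hx, hx'⟩ i
      by_cases hi : i = Fin.last k
      · subst hi
        exact hx'
      · exact hx i hi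
  have hghU : h * g ∈ U := U.mul_mem hhU hg
  have hhge : (h * g) • a t = e := by rw [mul_smul, hge, hhe]
  -- basic ranks
  have r_EAB : C2a_D Ω U (E ⊓ (A ⊓ B)) = 2 := by
    rw [C2a_D_smul hN (hpi 3) hU hghU (z := a), h3]
    rw [hstt, hhge, mul_smul, mul_smul]
  have r_AB : C2a_D Ω U (A ⊓ B) = 2 := by
    rw [C2a_D_smul hN hZZ hU hghU (z := (a s, a s')), h2 s s' hss']
    rw [Prod.smul_mk, st_prod, mul_smul, mul_smul]
  have r_EA : C2a_D Ω U (E ⊓ A) = 2 := by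
    rw [C2a_D_smul hN hZZ hU hghU (z := (a t, a s)), h2 t s hs.symm]
    rw [Prod.smul_mk, st_prod, hhge, mul_smul]
  have r_EB : C2a_D Ω U (E ⊓ B) = 2 := by
    rw [C2a_D_smul hN hZZ hU hghU (z := (a t, a s')), h2 t s' hs'.symm]
    rw [Prod.smul_mk, st_prod, hhge, mul_smul]
  have r_AB_PE : C2a_D Ω (U ⊓ (P ⊓ E)) (A ⊓ B) = 1 := by
    rw [← hhr, hPE, C2a_D_eq hN hZZ (op_inf hU (op_inf hPop hEop)) (W := A ⊓ B)]
    rw [Prod.smul_mk, st_prod]
  have r_AB_E : C2a_D Ω (U ⊓ E) (A ⊓ B) = 1 := by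
    have h4 := C2a_D_inf hN hU (op_inf hAop hBop) hEop
    have h6 : C2a_D Ω U E = 1 := by
      rw [C2a_D_smul hN hZ hU hghU (z := a t), h1]
      rw [hhge]
    rw [inf_comm, r_EAB, h6] at h4
    omega
  have r_PE : C2a_D Ω U (P ⊓ E) = k := by
    rw [← C2a_D_eq hN (hpi (k + 1)) hU hPE, hu2]
  have r_P : C2a_D Ω U P = k := by
    rw [C2a_D_st hN (hpi k) hU, hu3]
  -- E is algebraic over A, B
  have z_AB : C2a_D Ω (U ⊓ (A ⊓ B)) E = 0 := by
    have h4 := C2a_D_inf hN hU hEop (op_inf hAop hBop)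
    omega
  have z_P : C2a_D Ω (U ⊓ P) E = 0 := by
    have h4 := C2a_D_inf hN hU hEop hPop
    rw [inf_comm E P] at h4
    omega
  have z_EA : C2a_D Ω (U ⊓ (E ⊓ A)) B = 0 := by
    have h4 := C2a_D_inf hN hU hBop (op_inf hEop hAop)
    have h5 : B ⊓ (E ⊓ A) = E ⊓ (A ⊓ B) := by rw [inf_comm, inf_assoc]
    rw [h5] at h4
    omega
  have z_EB : C2a_D Ω (U ⊓ (E ⊓ B)) A = 0 := by
    have h4 := C2a_D_inf hN hU hAop (op_inf hEop hBop)
    have h5 : A ⊓ (E ⊓ B) = E ⊓ (A ⊓ B) := inf_left_comm _ _ _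
    rw [h5] at h4
    omega
  have hABop := op_inf hAop hBop
  have hPEop := op_inf hPop hEop
  -- general principle: dropping E
  have dropE : ∀ Q : Subgroup Γ, Op Ω Q → C2a_D Ω (U ⊓ Q) E = 0 →
      C2a_D Ω U (E ⊓ Q) = C2a_D Ω U Q := by
    intro Q hQ h0
    have h4 := C2a_D_inf hN hU hEop hQ
    omega
  have r1 : C2a_D Ω U (P ⊓ (A ⊓ B)) = k + 1 := by
    have h4 : C2a_D Ω (U ⊓ (P ⊓ (A ⊓ B))) E = 0 := by
      have h5 := C2a_D_mono hN (op_inf hU (op_inf hPop hABop))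
        (inf_le_inf_left U (inf_le_right : P ⊓ (A ⊓ B) ≤ A ⊓ B)) hEop
      omega
    have h5 := dropE _ (op_inf hPop hABop) h4
    have h6 := C2a_D_inf hN hU hABop hPEop
    have h7 : A ⊓ B ⊓ (P ⊓ E) = E ⊓ (P ⊓ (A ⊓ B)) := by
      rw [inf_comm (A ⊓ B), inf_comm P E, inf_assoc]
    rw [h7, r_PE, r_AB_PE] at h6
    omega
  have r2 : C2a_D Ω U (P ⊓ A) = k + 1 := by
    have h4 : C2a_D Ω (U ⊓ (P ⊓ A)) E = 0 := by
      have h5 := C2a_D_mono hN (op_inf hU (op_inf hPop hAop))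
        (inf_le_inf_left U (inf_le_left : P ⊓ A ≤ P)) hEop
      omega
    have h5 := dropE _ (op_inf hPop hAop) h4
    have h6 := C2a_D_inf hN hU hABop hPEop
    have h7 := C2a_D_inf hN hU hBop (op_inf hEop (op_inf hPop hAop))
    have h8 : B ⊓ (E ⊓ (P ⊓ A)) = A ⊓ B ⊓ (P ⊓ E) := by
      ext x
      simp only [Subgroup.mem_inf]
      tauto
    have h9 := C2a_D_mono hN (op_inf hU (op_inf hEop (op_inf hPop hAop)))
        (inf_le_inf_left U (inf_le_inf_left E (inf_le_right : P ⊓ A ≤ A))) hBop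
    rw [h8] at h7
    omega
  have r3 : C2a_D Ω U (P ⊓ B) = k + 1 := by
    have h4 : C2a_D Ω (U ⊓ (P ⊓ B)) E = 0 := by
      have h5 := C2a_D_mono hN (op_inf hU (op_inf hPop hBop))
        (inf_le_inf_left U (inf_le_left : P ⊓ B ≤ P)) hEop
      omega
    have h5 := dropE _ (op_inf hPop hBop) h4
    have h6 := C2a_D_inf hN hU hABop hPEop
    have h7 := C2a_D_inf hN hU hAop (op_inf hEop (op_inf hPop hBop))
    have h8 : A ⊓ (E ⊓ (P ⊓ B)) = A ⊓ B ⊓ (P ⊓ E) := by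
      ext x
      simp only [Subgroup.mem_inf]
      tauto
    have h9 := C2a_D_mono hN (op_inf hU (op_inf hEop (op_inf hPop hBop)))
        (inf_le_inf_left U (inf_le_inf_left E (inf_le_right : P ⊓ B ≤ B))) hAop
    rw [h8] at h7
    omega
  -- P_i: without the i-th coordinate
  have r4 : ∀ Q : Subgroup Γ, Op Ω Q → P ≤ Q → C2a_D Ω U (Q ⊓ E) = k →
      C2a_D Ω U (Q ⊓ (A ⊓ B)) = k + 1 := by
    intro Q hQ hPQ hQE
    have h4 : C2a_D Ω (U ⊓ (Q ⊓ (A ⊓ B))) E = 0 := by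
      have h5 := C2a_D_mono hN (op_inf hU (op_inf hQ hABop))
        (inf_le_inf_left U (inf_le_right : Q ⊓ (A ⊓ B) ≤ A ⊓ B)) hEop
      omega
    have h5 := dropE _ (op_inf hQ hABop) h4
    have h6 := C2a_D_inf hN hU hABop (op_inf hQ hEop)
    have h7 : A ⊓ B ⊓ (Q ⊓ E) = E ⊓ (Q ⊓ (A ⊓ B)) := by
      rw [inf_comm (A ⊓ B), inf_comm Q E, inf_assoc]
    have h8 := C2a_D_mono hN (op_inf hU (op_inf hQ hEop))
      (inf_le_inf_left U (inf_le_right : Q ⊓ E ≤ E)) hABop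
    have h9 := C2a_D_mono hN (op_inf hU hPEop)
      (inf_le_inf_left U (inf_le_inf_right E hPQ)) hABop
    rw [h7, hQE] at h6
    omega
  -- the new circuit
  refine ⟨Fin.snoc (Fin.snoc (u ∘ Fin.castSucc) a' : Fin (k + 1) → Z) a'', ?_, ?_, ?_⟩
  · intro i
    induction i using Fin.lastCases with
    | last =>
      refine ⟨s', ?_⟩
      rw [Fin.snoc_last]
      exact ⟨h * g, hghU, mul_smul _ _ _⟩
    | cast i =>
      rw [Fin.snoc_castSucc]
      induction i using Fin.lastCases with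
      | last =>
        refine ⟨s, ?_⟩
        rw [Fin.snoc_last]
        exact ⟨h * g, hghU, mul_smul _ _ _⟩
      | cast i =>
        rw [Fin.snoc_castSucc]
        exact hu1 _
  · rw [C2a_D_eq hN (hpi (k + 2)) hU (W := P ⊓ (A ⊓ B)), r1]
    ext x
    rw [C2a_mem_st_pi, Fin.forall_fin_succ', Fin.forall_fin_succ', Subgroup.mem_inf,
      Subgroup.mem_inf, hP, C2a_mem_st_succAbove, hA, hB, C2a_mem_st, C2a_mem_st,
      Fin.forall_fin_succ']
    simp only [Fin.snoc_castSucc, Fin.snoc_last, Function.comp_apply, ne_eq,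
      not_true_eq_false, false_imp_iff, and_true, Fin.castSucc_ne_last, not_false_eq_true,
      true_imp_iff]
    tauto
  · intro j
    induction j using Fin.lastCases with
    | last =>
      rw [C2a_D_eq hN (hpi (k + 1)) hU (W := P ⊓ A), r2]
      ext x
      rw [C2a_mem_st_succAbove, Fin.forall_fin_succ', Fin.forall_fin_succ', Subgroup.mem_inf,
        hP, C2a_mem_st_succAbove, hA, C2a_mem_st, Fin.forall_fin_succ']
      simp only [Fin.snoc_castSucc, Fin.snoc_last, Function.comp_apply, ne_eq,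
        not_true_eq_false, false_imp_iff, and_true, Fin.castSucc_ne_last, not_false_eq_true,
        true_imp_iff]
    | cast j =>
      induction j using Fin.lastCases with
      | last =>
        rw [C2a_D_eq hN (hpi (k + 1)) hU (W := P ⊓ B), r3]
        ext x
        rw [C2a_mem_st_succAbove, Fin.forall_fin_succ', Fin.forall_fin_succ', Subgroup.mem_inf,
          hP, C2a_mem_st_succAbove, hB, C2a_mem_st, Fin.forall_fin_succ']
        simp only [Fin.snoc_castSucc, Fin.snoc_last, Function.comp_apply, ne_eq,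
          not_true_eq_false, false_imp_iff, and_true, Fin.castSucc_ne_last, not_false_eq_true,
          true_imp_iff, Fin.castSucc_inj, (Fin.castSucc_ne_last _).symm]
      | cast j =>
        -- Q : stabiliser of the initial part without j
        set Q : Subgroup Γ := ⨅ i : {i : Fin k // i ≠ j}, st Γ (u i.1.castSucc) with hQ
        have hQop : Op Ω Q := op_iInf (fun i => hop _)
        have hmemQ : ∀ x, x ∈ Q ↔ ∀ i : Fin k, i ≠ j → x • u i.castSucc = u i.castSucc := by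
          intro x
          rw [hQ, Subgroup.mem_iInf]
          constructor
          · intro hx i hi
            exact C2a_mem_st.1 (hx ⟨i, hi⟩)
          · rintro hx ⟨i, hi⟩
            exact C2a_mem_st.2 (hx i hi)
        have hPQ : P ≤ Q := by
          intro x hx
          rw [hP, C2a_mem_st_succAbove] at hx
          rw [hmemQ]
          intro i _
          exact hx _ (Fin.castSucc_ne_last i)
        have hQE : C2a_D Ω U (Q ⊓ E) = k := by
          rw [← C2a_D_eq hN (hpi k) hU (z := u ∘ (j.castSucc).succAbove), hu3]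
          ext x
          rw [C2a_mem_st_succAbove, Fin.forall_fin_succ', Subgroup.mem_inf, hmemQ, hE, C2a_mem_st]
          simp only [ne_eq, Fin.castSucc_inj, (Fin.castSucc_ne_last _).symm, not_false_eq_true,
            true_imp_iff]
          rfl
        rw [C2a_D_eq hN (hpi (k + 1)) hU (W := Q ⊓ (A ⊓ B)), r4 Q hQop hPQ hQE]
        ext x
        rw [C2a_mem_st_succAbove, Fin.forall_fin_succ', Fin.forall_fin_succ', Subgroup.mem_inf,
          Subgroup.mem_inf, hmemQ, hA, hB, C2a_mem_st, C2a_mem_st]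
        simp only [Fin.snoc_castSucc, Fin.snoc_last, Function.comp_apply, ne_eq,
          Fin.castSucc_inj, (Fin.castSucc_ne_last _).symm, not_false_eq_true,
          true_imp_iff]
        tauto

theorem circ_exists (hN : Nice Ω Γ) (hZ : Srt Ω Γ Z) {U : Subgroup Γ} (hU : Op Ω U)
    (a : Fin 3 → Z) (h1 : ∀ i, ur Ω U (a i) = 1)
    (h2 : ∀ i j, i ≠ j → ur Ω U (a i, a j) = 2) (h3 : ur Ω U a = 2) (k : ℕ) (hk : 2 ≤ k) :
    ∃ u : Fin (k + 1) → Z, Circ Ω U a k u := by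
  induction k, hk using Nat.le_induction with
  | base =>
    refine ⟨a, ?_, h3, ?_⟩
    · intro i
      exact ⟨i, mem_orb_self U _⟩
    · intro i
      have hne : i.succAbove 0 ≠ i.succAbove 1 := fun h =>
        absurd (Fin.succAbove_right_injective h) (by decide)
      refine (ur_eq_of_st hN (srt_pi hN hZ 2) (srt_prod hN hZ hZ) hU ?_).trans (h2 _ _ hne)
      rw [st_prod]
      ext x
      rw [C2a_mem_st_pi, Fin.forall_fin_two, Subgroup.mem_inf, C2a_mem_st, C2a_mem_st]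
      rfl
  | succ k hk ih =>
    obtain ⟨u, hu⟩ := ih
    exact circ_glue hN hZ hU a h1 h2 h3 hk hu

end Pool.Agent.Lib.ThC

end

section

/-! # C2b: triviality of rank one elements (from polynomial growth) -/

set_option autoImplicit false
open scoped Pointwise

namespace Pool.Agent.Lib.ThC

variable {Ω Γ : Type} [Group Γ] [MulAction Γ Ω]
variable {Z W : Type} [MulAction Γ Z] [MulAction Γ W]

/-- the stabiliser of the coordinates in `S` of a tuple. -/
def C2b_W {n : ℕ} (x : Fin n → Z) (S : Finset (Fin n)) : Subgroup Γ :=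
  ⨅ i : {i // i ∈ S}, st Γ (x i.1)

theorem C2b_mem_W {n : ℕ} {x : Fin n → Z} {S : Finset (Fin n)} {g : Γ} :
    g ∈ C2b_W x S ↔ ∀ i ∈ S, g • x i = x i := by
  rw [C2b_W, Subgroup.mem_iInf]
  constructor
  · intro h i hi
    exact C2a_mem_st.1 (h ⟨i, hi⟩)
  · rintro h ⟨i, hi⟩
    exact C2a_mem_st.2 (h i hi)

theorem C2b_op_W (hZ : ∀ z : Z, Op Ω (st Γ z)) {n : ℕ} (x : Fin n → Z) (S : Finset (Fin n)) :
    Op Ω (C2b_W x S : Subgroup Γ) :=
  op_iInf (fun _ => hZ _)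

theorem C2b_W_union {n : ℕ} (x : Fin n → Z) (S T : Finset (Fin n)) :
    (C2b_W x (S ∪ T) : Subgroup Γ) = C2b_W x S ⊓ C2b_W x T := by
  ext g
  rw [Subgroup.mem_inf, C2b_mem_W, C2b_mem_W, C2b_mem_W]
  constructor
  · intro h
    exact ⟨fun i hi => h i (Finset.mem_union_left _ hi), fun i hi => h i (Finset.mem_union_right _ hi)⟩
  · rintro ⟨h, h'⟩ i hi
    rcases Finset.mem_union.1 hi with hi | hi
    · exact h i hi
    · exact h' i hi

theorem C2b_W_anti {n : ℕ} (x : Fin n → Z) {S T : Finset (Fin n)} (h : S ⊆ T) :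
    (C2b_W x T : Subgroup Γ) ≤ C2b_W x S := by
  intro g hg
  rw [C2b_mem_W] at hg ⊢
  exact fun i hi => hg i (h hi)

/-- the rank of a sub-tuple. -/
theorem C2b_D_W (hN : Nice Ω Γ) (hZ : Srt Ω Γ Z) {U : Subgroup Γ} (hU : Op Ω U) {n : ℕ}
    (x : Fin n → Z) (S : Finset (Fin n)) :
    C2a_D Ω U (C2b_W x S) = ur Ω U (x ∘ (S.orderEmbOfFin rfl)) := by
  refine (C2a_D_eq hN (srt_pi hN hZ S.card) hU ?_).symm
  ext g
  rw [C2a_mem_st_pi, C2b_mem_W]
  constructor
  · intro h i hi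
    have hi' : i ∈ Set.range (S.orderEmbOfFin rfl) := by
      rw [Finset.range_orderEmbOfFin]
      exact hi
    obtain ⟨l, rfl⟩ := hi'
    exact h l
  · intro h l
    exact h _ (Finset.orderEmbOfFin_mem S rfl l)

theorem C2b_D_W_indep (hN : Nice Ω Γ) (hZ : Srt Ω Γ Z) {U : Subgroup Γ} (hU : Op Ω U) {n : ℕ}
    (x : Fin n → Z) (h : ∀ i, ur Ω U (x i) ≤ 1) (hx : ur Ω U x = n * 1) (S : Finset (Fin n)) :
    C2a_D Ω U (C2b_W x S) = S.card := by
  rw [C2b_D_W hN hZ hU, ur_comp_indep hN hZ hU x h hx (S.orderEmbOfFin rfl).injective, mul_one]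

/-- Counting.  Suppose moreover that `U` fixes types `p t` realised by the `a t`.  Let `u` be a
circuit of size `k + 1` and `m ≥ 1`.  By `seq_real` there is an independent array
`c : Fin k → Fin m → Z` (rank `k * m`) with `c j i` realising the type of `u j`.  For
`f : Fin k → Fin m` the tuple `j ↦ c j (f j)` is `U`-conjugate to `(u_0, …, u_{k-1})`
(`ur_comp_indep`, `conj_of_indep`), so there is `v f` with `(c j (f j))_j, v f` conjugate to `u`.
If `v f'` were conjugate to `v f` under the pointwise stabiliser `P` of the array, `f ≠ f'`, then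
`v f'` is algebraic over both selections; its rank over the common part is zero
by additivity (the union of the two selections has rank `k + s`, `s` = number of
differences), contradicting that it is part of a circuit.  So there are at least `m ^ k` orbits. -/
theorem circ_count (hN : Nice Ω Γ) (hZ : Srt Ω Γ Z) {U : Subgroup Γ} (hU : Op Ω U)
    (a : Fin 3 → Z) (h1 : ∀ i, ur Ω U (a i) = 1) (p : Fin 3 → Tp Ω Γ Z)
    (hp : ∀ i, U ≤ st Γ (p i)) (ha : ∀ i, orb U (a i) ∈ (p i).s) {k : ℕ}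
    {u : Fin (k + 1) → Z} (hu : Circ Ω U a k u) (m : ℕ) :
    ∃ B : Finset Z, B.card ≤ k * m ∧ ∀ F : Finset Z,
      (∀ z : Z, ∃ f ∈ F, z ∈ orb (U ⊓ fixingSubgroup Γ (B : Set Z)) f) → m ^ k ≤ F.card := by
  classical
  obtain ⟨hu1, hu2, hu3⟩ := hu
  choose t ht using hu1
  have hpi : ∀ n : ℕ, Srt Ω Γ (Fin n → Z) := fun n => srt_pi hN hZ n
  have hop : ∀ z : Z, Op Ω (st Γ z) := hZ.sm
  -- ranks of elements of the orbits
  have hr1 : ∀ (z : Z) (i : Fin 3), orb U z ∈ (p i).s → ur Ω U z = 1 := by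
    intro z i hz
    have h2 := tp_orb_unique hz (ha i)
    have h3 : z ∈ orb U (a i) := by
      rw [← h2]
      exact mem_orb_self U z
    obtain ⟨g, hg, rfl⟩ := h3
    rw [ur_smul hg, h1]
  have hutp : ∀ j, orb U (u j) ∈ (p (t j)).s := by
    intro j
    rw [orb_eq_of_mem (ht j)]
    exact ha _
  have hur : ∀ j, ur Ω U (u j) = 1 := fun j => hr1 _ _ (hutp j)
  -- the sequence
  set tt : ℕ → Fin 3 := fun n => t (if h : n / m < k + 1 then ⟨n / m, h⟩ else 0) with htt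
  obtain ⟨c, hc⟩ := seq_real hN hZ hU (fun n => p (tt n))
  have hcU : ∀ n, orb U (c n) ∈ (p (tt n)).s := fun n =>
    (p (tt n)).up _ (hc n) _ (df_orb hU _) (orb_mono inf_le_left _)
  have hcr : ∀ n, ur Ω U (c n) = 1 := fun n => hr1 _ _ (hcU n)
  have hcr' : ∀ n, ur Ω (U ⊓ st Γ (ini c n)) (c n) = 1 := by
    intro n
    rw [ur_of_real hN hZ hU (op_inf hU ((hpi n).sm _)) inf_le_left (hp (tt n)) (hc n), hcr]
  set x : Fin (k * m) → Z := ini c (k * m) with hx
  have hxr : ur Ω U x = (k * m) * 1 := ur_ini_indep hN hZ hU c hcr' (k * m)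
  have hx1 : ∀ i, ur Ω U (x i) ≤ 1 := fun i => (hcr i.1).le
  -- indices
  set idx : Fin k → Fin m → Fin (k * m) := fun j i => finProdFinEquiv (j, i) with hidx
  have hidxv : ∀ j i, (idx j i : ℕ) = i + m * j := fun j i => rfl
  have hidxi : ∀ {j j' : Fin k} {i i' : Fin m}, idx j i = idx j' i' → j = j' ∧ i = i' := by
    intro j j' i i' h
    have h2 := finProdFinEquiv.injective h
    exact Prod.ext_iff.1 h2
  have htt2 : ∀ j i, tt (idx j i) = t j.castSucc := by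
    intro j i
    have hm : 0 < m := lt_of_le_of_lt (Nat.zero_le _) i.2
    have h2 : (idx j i : ℕ) / m = j := by
      rw [hidxv, Nat.add_mul_div_left _ _ hm, Nat.div_eq_of_lt i.2, zero_add]
    have h3 : (idx j i : ℕ) / m < k + 1 := by
      rw [h2]
      omega
    rw [htt]
    simp only
    rw [dif_pos h3]
    congr 1
    apply Fin.ext
    exact h2
  set sel : (Fin k → Fin m) → Fin k → Fin (k * m) := fun f j => idx j (f j) with hsel
  have hseli : ∀ f, Function.Injective (sel f) := fun f j j' h => (hidxi h).1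
  set A : (Fin k → Fin m) → Finset (Fin (k * m)) := fun f => Finset.univ.image (sel f) with hA
  have hAcard : ∀ f, (A f).card = k := by
    intro f
    rw [hA]
    simp only
    rw [Finset.card_image_of_injective _ (hseli f), Finset.card_univ, Fintype.card_fin]
  -- conjugation of the initial part of the circuit
  have hgex : ∀ f : Fin k → Fin m, ∃ g ∈ U, g • (u ∘ Fin.castSucc) = x ∘ sel f := by
    intro f
    refine conj_of_indep hN hZ hU (fun j => p (t j.castSucc)) (fun j => hp _)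
      (fun j => hutp _) ?_ (fun j => hur _) ?_ ?_
    · intro j
      have h2 := hcU (idx j (f j))
      rw [htt2] at h2
      exact h2
    · have h2 := hu3 (Fin.last k)
      rwa [Fin.succAbove_last] at h2
    · rw [ur_comp_indep hN hZ hU x hx1 hxr (hseli f), mul_one]
  choose g hgU hg using hgex
  have hg' : ∀ f j, g f • u j.castSucc = x (sel f j) := fun f j => congrFun (hg f) j
  set v : (Fin k → Fin m) → Z := fun f => g f • u (Fin.last k) with hv
  refine ⟨Finset.univ.image x, ?_, ?_⟩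
  · refine Finset.card_image_le.trans ?_
    rw [Finset.card_univ, Fintype.card_fin]
  intro F hF
  -- the key claim
  have key : ∀ f f' : Fin k → Fin m,
      v f' ∈ orb (U ⊓ fixingSubgroup Γ ((Finset.univ.image x : Finset Z) : Set Z)) (v f) → f = f' := by
    intro f f' hff
    by_contra hne
    obtain ⟨h, hh, hhv⟩ := hff
    have hhU : h ∈ U := hh.1
    have hhx : ∀ i, h • x i = x i := by
      intro i
      have h2 := (mem_fixingSubgroup_iff Γ).1 hh.2
      exact h2 (x i) (by simp)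
    set V : Subgroup Γ := st Γ (v f') with hV
    have hVop : Op Ω V := hop _
    have e1 : C2a_D Ω U (C2b_W x (A f) ⊓ V) = k := by
      rw [C2a_D_smul hN (hpi (k + 1)) hU (U.mul_mem hhU (hgU f)) (z := u), hu2]
      ext y
      rw [C2a_mem_st_pi, Subgroup.mem_inf, C2b_mem_W, hV, C2a_mem_st, Fin.forall_fin_succ']
      have h2 : ∀ j : Fin k, ((h * g f) • u) j.castSucc = x (sel f j) := by
        intro j
        rw [Pi.smul_apply, mul_smul, hg', hhx]
      have h3 : ((h * g f) • u) (Fin.last k) = v f' := by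
        rw [Pi.smul_apply, mul_smul]
        exact hhv
      rw [h3]
      refine and_congr ?_ Iff.rfl
      constructor
      · intro h4 i hi
        obtain ⟨j, -, rfl⟩ := Finset.mem_image.1 hi
        have h5 := h4 j
        rwa [h2] at h5
      · intro h4 j
        rw [h2]
        exact h4 _ (Finset.mem_image_of_mem _ (Finset.mem_univ _))
    have e2 : C2a_D Ω U (C2b_W x (A f') ⊓ V) = k := by
      rw [C2a_D_smul hN (hpi (k + 1)) hU (hgU f') (z := u), hu2]
      ext y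
      rw [C2a_mem_st_pi, Subgroup.mem_inf, C2b_mem_W, hV, C2a_mem_st, Fin.forall_fin_succ']
      have h2 : ∀ j : Fin k, (g f' • u) j.castSucc = x (sel f' j) := by
        intro j
        rw [Pi.smul_apply, hg']
      refine and_congr ?_ Iff.rfl
      constructor
      · intro h4 i hi
        obtain ⟨j, -, rfl⟩ := Finset.mem_image.1 hi
        have h5 := h4 j
        rwa [h2] at h5
      · intro h4 j
        rw [h2]
        exact h4 _ (Finset.mem_image_of_mem _ (Finset.mem_univ _))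
    -- the common part
    obtain ⟨j, hj⟩ : ∃ j, f j ≠ f' j := Function.ne_iff.1 hne
    have hW : ∀ S, Op Ω (C2b_W x S : Subgroup Γ) := fun S => C2b_op_W hop x S
    have hD : ∀ S : Finset (Fin (k * m)), C2a_D Ω U (C2b_W x S : Subgroup Γ) = S.card := fun S =>
      C2b_D_W_indep hN hZ hU x hx1 hxr S
    have s1 := C2a_D_submod hN hU (op_inf (hW (A f)) hVop) (op_inf (hW (A f')) hVop)
      (op_inf (hW (A f ∩ A f')) hVop)
      (inf_le_inf_right V (C2b_W_anti x Finset.inter_subset_left))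
      (inf_le_inf_right V (C2b_W_anti x Finset.inter_subset_right))
    have s2 : C2a_D Ω U (C2b_W x (A f ∪ A f')) ≤
        C2a_D Ω U (C2b_W x (A f) ⊓ V ⊓ (C2b_W x (A f') ⊓ V)) := by
      refine C2a_D_anti hN hU (op_inf (op_inf (hW _) hVop) (op_inf (hW _) hVop)) ?_ (hW _)
      rw [C2b_W_union]
      exact inf_le_inf inf_le_left inf_le_left
    have s3 := C2a_D_inf hN hU hVop (hW (A f ∩ A f'))
    have s4 := Finset.card_union_add_card_inter (A f) (A f')
    rw [hAcard, hAcard] at s4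
    rw [hD] at s2 s3
    rw [e1, e2] at s1
    rw [inf_comm V] at s3
    have s5 : C2a_D Ω (U ⊓ C2b_W x (A f ∩ A f')) V = 0 := by omega
    -- leaving out the index j
    set i₀ : Fin (k * m) := sel f' j with hi₀
    have hi₀mem : i₀ ∈ A f' := Finset.mem_image_of_mem _ (Finset.mem_univ _)
    have hi₀not : i₀ ∉ A f := by
      intro hmem
      obtain ⟨j', -, hj'⟩ := Finset.mem_image.1 hmem
      obtain ⟨h2, h3⟩ := hidxi hj'
      subst h2
      exact hj h3
    have hsub : A f ∩ A f' ⊆ (A f').erase i₀ := by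
      intro i hi
      rw [Finset.mem_inter] at hi
      refine Finset.mem_erase.2 ⟨?_, hi.2⟩
      rintro rfl
      exact hi₀not hi.1
    have e3 : C2a_D Ω U (C2b_W x ((A f').erase i₀) ⊓ V) = k := by
      rw [C2a_D_smul hN (hpi k) hU (hgU f') (z := u ∘ (j.castSucc).succAbove), hu3]
      ext y
      have h0 : g f' • (u ∘ (j.castSucc).succAbove) = (g f' • u) ∘ (j.castSucc).succAbove := rfl
      rw [h0, C2a_mem_st_succAbove, Subgroup.mem_inf, C2b_mem_W, hV, C2a_mem_st, Fin.forall_fin_succ']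
      have h2 : ∀ j : Fin k, (g f' • u) j.castSucc = x (sel f' j) := by
        intro j
        rw [Pi.smul_apply, hg']
      simp only [ne_eq, Fin.castSucc_inj, (Fin.castSucc_ne_last _).symm, not_false_eq_true,
        true_imp_iff]
      refine and_congr ?_ Iff.rfl
      constructor
      · intro h4 i hi
        rw [Finset.mem_erase] at hi
        obtain ⟨hi1, hi2⟩ := hi
        obtain ⟨j', -, rfl⟩ := Finset.mem_image.1 hi2
        have h5 := h4 j' (fun h => hi1 (by rw [h]))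
        rwa [h2] at h5
      · intro h4 j' hj'
        rw [h2]
        refine h4 _ (Finset.mem_erase.2 ⟨?_, Finset.mem_image_of_mem _ (Finset.mem_univ _)⟩)
        intro h5
        exact hj' (hseli f' h5)
    have s6 := C2a_D_inf hN hU hVop (hW ((A f').erase i₀))
    have s7 := C2a_D_mono hN (op_inf hU (hW ((A f').erase i₀)))
      (inf_le_inf_left U (C2b_W_anti x hsub)) hVop
    rw [inf_comm V, e3, hD, Finset.card_erase_of_mem hi₀mem, hAcard] at s6
    have hk : 0 < k := lt_of_le_of_lt (Nat.zero_le _) j.2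
    omega
  choose r hrF hr using hF
  have hcount : (Finset.univ : Finset (Fin k → Fin m)).card ≤ F.card := by
    refine Finset.card_le_card_of_injOn (fun f => r (v f)) (fun f _ => hrF _) ?_
    intro f _ f' _ hff
    simp only at hff
    apply key f f'
    have h2 := hr (v f)
    have h3 := hr (v f')
    rw [← hff] at h3
    rw [orb_eq_of_mem h2]
    exact h3
  simpa using hcount

end Pool.Agent.Lib.ThC

end

section

/-! # C2c: triviality of rank one elements (from polynomial growth) -/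

set_option autoImplicit false
open scoped Pointwise

namespace Pool.Agent.Lib.ThC

variable {Ω Γ : Type} [Group Γ] [MulAction Γ Ω]
variable {Z W : Type} [MulAction Γ Z] [MulAction Γ W]

private theorem C2c_arith (C d c F B m k : ℕ) (hk : k = d + 2) (hm : m = C * (k + 1) ^ d + 1)
    (hB : B ≤ k * m) (h1 : m ^ k ≤ F) (h2 : F ≤ C * (B + 1) ^ d) : False := by
  have hm1 : 1 ≤ m := by omega
  have h3 : (B + 1) ^ d ≤ ((k + 1) * m) ^ d := by
    apply Nat.pow_le_pow_left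
    nlinarith
  have h4 : C * (B + 1) ^ d ≤ C * ((k + 1) * m) ^ d := Nat.mul_le_mul_left _ h3
  have h5 : C * ((k + 1) * m) ^ d = (C * (k + 1) ^ d) * m ^ d := by
    rw [mul_pow, mul_assoc]
  have h6 : (C * (k + 1) ^ d) * m ^ d < m * m ^ d := by
    apply Nat.mul_lt_mul_of_pos_right _ (Nat.pow_pos hm1)
    omega
  have h7 : m * m ^ d ≤ m ^ k := by
    rw [← pow_succ', hk]
    exact Nat.pow_le_pow_right hm1 (by omega)
  omega

/-- No dependent triple of pairwise independent rank one elements. (Pass to a finite index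
subgroup of `U` fixing strong types of the three elements (`stp_exists`), ranks do not
change (`ur_fi`); then combine `circ_exists`, `circ_count` with `poly_srt` for `k = d + 1` and
`m` large.) -/
theorem no_triple (hN : Nice Ω Γ) (hZ : Srt Ω Γ Z) {U : Subgroup Γ} (hU : Op Ω U)
    (a : Fin 3 → Z) (h1 : ∀ i, ur Ω U (a i) = 1)
    (h2 : ∀ i j, i ≠ j → ur Ω U (a i, a j) = 2) (h3 : ur Ω U a = 2) : False := by
  choose p hp1 hp2 using fun t => stp_exists hN hZ hU (a t)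
  have hpop : ∀ t, Op Ω (st Γ (p t)) := fun t => tp_open hN hZ (p t)
  obtain ⟨V, hV⟩ : ∃ V : Subgroup Γ, V = U ⊓ ⨅ t, st Γ (p t) := ⟨_, rfl⟩
  have hVop : Op Ω V := by
    rw [hV]
    exact op_inf hU (op_iInf hpop)
  have hVU : V ≤ U := by
    rw [hV]
    exact inf_le_left
  have hfi : V.relIndex U ≠ 0 := by
    rw [hV, Subgroup.inf_relIndex_left]
    exact Subgroup.relIndex_iInf_ne_zero (fun t => (orb_finite_iff U (p t)).1 (hp1 t))
  have hVp : ∀ t, V ≤ st Γ (p t) := by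
    intro t
    rw [hV]
    exact inf_le_right.trans (iInf_le _ t)
  have ha : ∀ t, orb V (a t) ∈ (p t).s := by
    intro t
    have hle : V ≤ U ⊓ st Γ (p t) := le_inf hVU (hVp t)
    refine real_of_ur hN hZ (op_inf hU (hpop t)) hVop hle inf_le_right (hp2 t) ?_
    refine ur_fi hN hZ hVop hle ?_ _
    intro h0
    exact hfi (Subgroup.relIndex_eq_zero_of_le_right inf_le_left h0)
  have h1' : ∀ i, ur Ω V (a i) = 1 := fun i => by rw [ur_fi hN hZ hVop hVU hfi, h1]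
  have h2' : ∀ i j, i ≠ j → ur Ω V (a i, a j) = 2 := fun i j hij => by
    rw [ur_fi hN (srt_prod hN hZ hZ) hVop hVU hfi, h2 i j hij]
  have h3' : ur Ω V a = 2 := by rw [ur_fi hN (srt_pi hN hZ 3) hVop hVU hfi, h3]
  obtain ⟨C, d, hCd⟩ := poly_srt hN hZ hVop
  obtain ⟨u, hu⟩ := circ_exists hN hZ hVop a h1' h2' h3' (d + 2) (by omega)
  obtain ⟨B, hB, hF⟩ := circ_count hN hZ hVop a h1' p hVp ha hu (C * (d + 2 + 1) ^ d + 1)
  obtain ⟨F, hFc, hFz⟩ := hCd B
  exact C2c_arith C d C F.card B.card _ _ rfl rfl hB (hF F hFz) hFc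

end Pool.Agent.Lib.ThC

end

section

/-! # C2d: triviality of rank one elements (from polynomial growth) -/

set_option autoImplicit false
open scoped Pointwise

namespace Pool.Agent.Lib.ThC

variable {Ω Γ : Type} [Group Γ] [MulAction Γ Ω]
variable {Z W : Type} [MulAction Γ Z] [MulAction Γ W]

/-- pairwise independent rank one elements are independent (induction on `n`, using
`no_triple` over `U ⊓ st (x_0, …, x_{n-4})`). -/
theorem triv (hN : Nice Ω Γ) (hZ : Srt Ω Γ Z) {U : Subgroup Γ} (hU : Op Ω U) {n : ℕ}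
    (x : Fin n → Z) (h1 : ∀ i, ur Ω U (x i) = 1)
    (h2 : ∀ i j, i ≠ j → ur Ω U (x i, x j) = 2) : ur Ω U x = n := by
  classical
  induction n using Nat.strong_induction_on with
  | _ n ih =>
    have hpi : ∀ n : ℕ, Srt Ω Γ (Fin n → Z) := fun n => srt_pi hN hZ n
    have hop : ∀ z : Z, Op Ω (st Γ z) := hZ.sm
    have hle : ur Ω U x ≤ n := by
      have h3 := ur_tuple_le hN hZ hU x (k := 1) (fun i => (h1 i).le)
      omega
    rcases Nat.lt_or_ge n 3 with hn | hn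
    · -- small cases
      interval_cases n
      · omega
      · have h4 : ur Ω U x = ur Ω U (x 0) := by
          refine ur_eq_of_st hN (hpi 1) hZ hU ?_
          ext g
          rw [C2a_mem_st_pi, C2a_mem_st, Fin.forall_fin_one]
        rw [h4, h1]
      · have h4 : ur Ω U x = ur Ω U (x 0, x 1) := by
          refine ur_eq_of_st hN (hpi 2) (srt_prod hN hZ hZ) hU ?_
          rw [st_prod]
          ext g
          rw [C2a_mem_st_pi, Subgroup.mem_inf, C2a_mem_st, C2a_mem_st, Fin.forall_fin_two]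
        rw [h4, h2 0 1 (by decide)]
    · -- ranks of proper subsets
      have hW : ∀ S, Op Ω (C2b_W x S : Subgroup Γ) := fun S => C2b_op_W hop x S
      have hD : ∀ S : Finset (Fin n), S.card < n → C2a_D Ω U (C2b_W x S : Subgroup Γ) = S.card := by
        intro S hS
        rw [C2b_D_W hN hZ hU]
        refine ih S.card hS _ (fun i => h1 _) (fun i j hij => h2 _ _ ?_)
        exact fun h => hij ((S.orderEmbOfFin rfl).injective h)
      have hxW : ur Ω U x = C2a_D Ω U (C2b_W x Finset.univ) := by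
        refine C2a_D_eq hN (hpi n) hU ?_
        ext g
        rw [C2a_mem_st_pi, C2b_mem_W]
        simp
      obtain ⟨e, he⟩ : ∃ e : Fin 3 → Fin n, ∀ s, (e s : ℕ) = s :=
        ⟨fun s => ⟨s, by omega⟩, fun s => rfl⟩
      have hei : Function.Injective e := fun s s' h => Fin.ext (by rw [← he, ← he, h])
      set R : Finset (Fin n) := Finset.univ.image e with hR
      have hRc : R.card = 3 := by
        rw [hR, Finset.card_image_of_injective _ hei, Finset.card_univ, Fintype.card_fin]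
      have hTc : Rᶜ.card = n - 3 := by
        rw [Finset.card_compl, hRc, Fintype.card_fin]
      have hmain : ∀ S : Finset (Fin n), S ⊆ R → S.card < 3 →
          C2a_D Ω (U ⊓ C2b_W x Rᶜ) (C2b_W x S) = S.card := by
        intro S hS hS3
        have h4 := C2a_D_inf hN hU (hW S) (hW Rᶜ)
        have hdis : Disjoint S Rᶜ := disjoint_compl_right.mono_left hS
        have h5 : (S ∪ Rᶜ).card = S.card + (n - 3) := by
          rw [Finset.card_union_of_disjoint hdis, hTc]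
        rw [← C2b_W_union, hD _ (by omega), hD _ (by omega), h5, hTc] at h4
        omega
      by_contra hne
      have hlt : ur Ω U x = n - 1 := by
        have h4 : C2a_D Ω U (C2b_W x (Finset.univ.erase (e 0))) ≤ C2a_D Ω U (C2b_W x Finset.univ) :=
          C2a_D_anti hN hU (hW _) (C2b_W_anti x (Finset.subset_univ _)) (hW _)
        have h5 : (Finset.univ.erase (e 0)).card = n - 1 := by
          rw [Finset.card_erase_of_mem (Finset.mem_univ _), Finset.card_univ, Fintype.card_fin]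
        rw [hD _ (by omega), h5, ← hxW] at h4
        omega
      have hVop : Op Ω (U ⊓ C2b_W x Rᶜ) := op_inf hU (hW _)
      refine no_triple hN hZ hVop (fun s => x (e s)) ?_ ?_ ?_
      · intro s
        have h4 : st Γ (x (e s)) = C2b_W x {e s} := by
          ext g
          rw [C2a_mem_st, C2b_mem_W]
          simp
        rw [C2a_D_eq hN hZ hVop h4, hmain _ (by
          rw [Finset.singleton_subset_iff]
          exact Finset.mem_image_of_mem _ (Finset.mem_univ _)) (by simp)]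
        simp
      · intro s s' hss
        have h4 : st Γ (x (e s), x (e s')) = C2b_W x {e s, e s'} := by
          rw [st_prod]
          ext g
          rw [Subgroup.mem_inf, C2a_mem_st, C2a_mem_st, C2b_mem_W]
          simp
        have h5 : ({e s, e s'} : Finset (Fin n)).card = 2 :=
          Finset.card_pair (fun h => hss (hei h))
        rw [C2a_D_eq hN (srt_prod hN hZ hZ) hVop h4, hmain _ (by
          intro i hi
          simp only [Finset.mem_insert, Finset.mem_singleton] at hi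
          rcases hi with rfl | rfl <;> exact Finset.mem_image_of_mem _ (Finset.mem_univ _)) (by omega), h5]
      · have h4 : st Γ (fun s => x (e s)) = C2b_W x R := by
          ext g
          rw [C2a_mem_st_pi, C2b_mem_W, hR]
          simp
        rw [C2a_D_eq hN (hpi 3) hVop h4]
        have h5 := C2a_D_inf hN hU (hW R) (hW Rᶜ)
        rw [← C2b_W_union, Finset.union_compl, ← hxW, hlt, hD Rᶜ (by omega), hTc] at h5
        omega

end Pool.Agent.Lib.ThC

end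
end
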