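import Pool.Agent.Lib.MP_f9507c_lc.Mg.G001

section

section

/-! # G0: chain length of invariant subgroups, permutation modules (definitions) -/

set_option autoImplicit false
open scoped Pointwise

namespace Pool.Agent.Lib.ThC

section
variable {Γ A : Type} [Group Γ] [AddCommGroup A] [DistribMulAction Γ A]

/-- `K`-invariant subgroups. -/
def InvA (K : Subgroup Γ) (M : AddSubgroup A) : Prop := ∀ g ∈ K, ∀ m ∈ M, g • m ∈ M

/-- bounded length of chains of `K`-invariant subgroups between `L` and `M`. -/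
def FLen (K : Subgroup Γ) (L M : AddSubgroup A) : Prop :=
  ∃ N : ℕ, ∀ (k : ℕ) (c : Fin (k + 1) → AddSubgroup A), StrictMono c →
    (∀ i, InvA K (c i) ∧ L ≤ c i ∧ c i ≤ M) → k ≤ N

end

/-- permutation modules over the field with `p` elements. -/
def PM (p : ℕ) (Y : Type) : Type := Y →₀ ZMod p

noncomputable instance (p : ℕ) (Y : Type) : AddCommGroup (PM p Y) :=
  inferInstanceAs (AddCommGroup (Y →₀ ZMod p))

section
variable {Γ Y : Type} [Group Γ] [MulAction Γ Y] {p : ℕ}

/-- the value at a point -/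
def PM.ev (v : PM p Y) (y : Y) : ZMod p := (show Y →₀ ZMod p from v) y

/-- the support -/
def PM.supp (v : PM p Y) : Finset Y := (show Y →₀ ZMod p from v).support

/-- basis elements with coefficients -/
noncomputable def PM.sg (y : Y) (a : ZMod p) : PM p Y :=
  (show PM p Y from (Finsupp.single y a : Y →₀ ZMod p))

noncomputable instance : DistribMulAction Γ (PM p Y) :=
  (Finsupp.comapDistribMulAction : DistribMulAction Γ (Y →₀ ZMod p))

theorem PM.smul_ev (g : Γ) (v : PM p Y) (y : Y) : (g • v).ev y = v.ev (g⁻¹ • y) := by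
  exact Finsupp.comapSMul_apply g (show Y →₀ ZMod p from v) y

theorem PM.smul_sg (g : Γ) (y : Y) (a : ZMod p) :
    g • (PM.sg y a : PM p Y) = PM.sg (g • y) a := by
  exact Finsupp.comapSMul_single g y a

theorem PM.ext {v w : PM p Y} (h : ∀ y, v.ev y = w.ev y) : v = w :=
  Finsupp.ext h

/-- the functions supported in `X`. -/
def PMS (p : ℕ) {Y : Type} (X : Set Y) : AddSubgroup (PM p Y) where
  carrier := {v | ∀ y, y ∉ X → v.ev y = 0}
  add_mem' := by
    intro v w hv hw y hy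
    have : (v + w).ev y = v.ev y + w.ev y := rfl
    rw [this, hv y hy, hw y hy, add_zero]
  zero_mem' := by
    intro y _
    rfl
  neg_mem' := by
    intro v hv y hy
    have : (-v).ev y = -(v.ev y) := rfl
    rw [this, hv y hy, neg_zero]

theorem PM.add_ev (v w : PM p Y) (y : Y) : (v + w).ev y = v.ev y + w.ev y := rfl

theorem PM.neg_ev (v : PM p Y) (y : Y) : (-v).ev y = -(v.ev y) := rfl

theorem PM.zero_ev (y : Y) : (0 : PM p Y).ev y = 0 := rfl

theorem PM.mem_supp {v : PM p Y} {y : Y} : y ∈ v.supp ↔ v.ev y ≠ 0 :=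
  Finsupp.mem_support_iff

theorem mem_PMS {X : Set Y} {v : PM p Y} : v ∈ PMS p X ↔ ∀ y, y ∉ X → v.ev y = 0 := Iff.rfl

/-- `FLS N`: permutation modules of sorts on which `N` acts trivially have finite length. -/
def FLS (p : ℕ) (Ω : Type) {Γ : Type} [Group Γ] [MulAction Γ Ω] (N : Subgroup Γ) : Prop :=
  ∀ (Y : Type) [MulAction Γ Y], Srt Ω Γ Y → (∀ g ∈ N, ∀ y : Y, g • y = y) →
    ∀ U : Subgroup Γ, Op Ω U → FLen U ⊥ (⊤ : AddSubgroup (PM p Y))

end

end Pool.Agent.Lib.ThC

end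

section

/-! # GL0: further definitions for PART G (finite length of permutation modules)

`InvA`, `PM`, `PMS` are those of `G0`; in the namespace `GL`, `FLen` is the version with a
bounded rank function. -/

set_option autoImplicit false
open scoped Pointwise

namespace Pool.Agent.Lib.ThC.GL

section Defs

variable {Γ A : Type} [Group Γ] [AddCommGroup A] [DistribMulAction Γ A]

/-- `FLen K L M`: chains of `K`-invariant subgroups between `L` and `M` have bounded length;
expressed by a bounded rank function `h` which is strictly increasing on these subgroups. -/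
def FLen (K : Subgroup Γ) (L M : AddSubgroup A) : Prop :=
  ∃ (N : ℕ) (h : AddSubgroup A → ℕ), (∀ X, h X ≤ N) ∧
    ∀ X Y, InvA K X → InvA K Y → L ≤ X → X < Y → Y ≤ M → h X < h Y

/-- `X` has only finitely many cosets of `L` (as a subset of `A`). -/
def FinMod (L : AddSubgroup A) (X : Set A) : Prop :=
  ∃ F : Finset A, ∀ m ∈ X, ∃ f ∈ F, m - f ∈ L

/-- the `K`-invariant subgroup generated by `v`. -/
def spanN (K : Subgroup Γ) (v : A) : AddSubgroup A :=
  AddSubgroup.closure {x | ∃ g ∈ K, g • v = x}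

/-- `S` is `K`-invariant and minimal over `L`. -/
structure MinOver (K : Subgroup Γ) (L S : AddSubgroup A) : Prop where
  inv : InvA K S
  lt : L < S
  min : ∀ X, InvA K X → L ≤ X → X ≤ S → X = L ∨ X = S

end Defs

section PMod

variable {p : ℕ} {Y Z : Type} {Γ : Type} [Group Γ] [MulAction Γ Y] [MulAction Γ Z]

/-- the basis vector `[y]`. -/
noncomputable def pt (p : ℕ) {Y : Type} (y : Y) : PM p Y :=
  (Finsupp.single y (1 : ZMod p) : Y →₀ ZMod p)

/-- the coefficient of `f` at `y`. -/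
noncomputable def cf (f : PM p Y) (y : Y) : ZMod p := (show Y →₀ ZMod p from f) y

/-- the support of `f`. -/
noncomputable def sp (f : PM p Y) : Finset Y := (show Y →₀ ZMod p from f).support

/-- the map induced by a map of the indices: `[y] ↦ [θ y]`. -/
noncomputable def mapPM (p : ℕ) {Y Z : Type} (θ : Y → Z) : PM p Y →+ PM p Z :=
  (Finsupp.mapDomain.addMonoidHom θ : (Y →₀ ZMod p) →+ (Z →₀ ZMod p))

end PMod

end Pool.Agent.Lib.ThC.GL

end

section

/-! # G0a: coefficients -/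

set_option autoImplicit false
open scoped Pointwise

namespace Pool.Agent.Lib.ThC.GL
variable {p : ℕ} {Y Z : Type} {Γ : Type} [Group Γ] [MulAction Γ Y] [MulAction Γ Z]

theorem smul_pt (g : Γ) (y : Y) : g • pt p y = pt p (g • y) := by
  exact Finsupp.comapSMul_single g y (1 : ZMod p)

theorem cf_pt [DecidableEq Y] (y z : Y) : cf (pt p y) z = if y = z then 1 else 0 := by
  show (Finsupp.single y (1 : ZMod p) : Y →₀ ZMod p) z = _
  rw [Finsupp.single_apply]

theorem cf_zero (y : Y) : cf (0 : PM p Y) y = 0 := by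
  rfl

theorem cf_add (f f' : PM p Y) (y : Y) : cf (f + f') y = cf f y + cf f' y := by
  rfl

theorem cf_sub (f f' : PM p Y) (y : Y) : cf (f - f') y = cf f y - cf f' y := by
  rfl

theorem cf_neg (f : PM p Y) (y : Y) : cf (-f) y = - cf f y := by
  rfl

theorem cf_nsmul (n : ℕ) (f : PM p Y) (y : Y) : cf (n • f) y = n * cf f y := by
  rw [← nsmul_eq_mul]
  rfl

theorem cf_zsmul (n : ℤ) (f : PM p Y) (y : Y) : cf (n • f) y = n * cf f y := by
  rw [← zsmul_eq_mul]
  rfl

theorem cf_sum {ι : Type} (s : Finset ι) (f : ι → PM p Y) (y : Y) :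
    cf (∑ i ∈ s, f i) y = ∑ i ∈ s, cf (f i) y := by
  exact Finsupp.finsetSum_apply s (fun i => (show Y →₀ ZMod p from f i)) y

theorem cf_smul (g : Γ) (f : PM p Y) (y : Y) : cf (g • f) y = cf f (g⁻¹ • y) := by
  exact Finsupp.comapSMul_apply g (show Y →₀ ZMod p from f) y

theorem pm_ext {f f' : PM p Y} (h : ∀ y, cf f y = cf f' y) : f = f' := by
  exact Finsupp.ext h

theorem mem_sp {f : PM p Y} {y : Y} : y ∈ sp f ↔ cf f y ≠ 0 := by
  exact Finsupp.mem_support_iff

theorem sp_smul [DecidableEq Y] (g : Γ) (f : PM p Y) :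
    sp (g • f) = (sp f).image (fun y => g • y) := by
  ext y
  rw [mem_sp, cf_smul, ← mem_sp, Finset.mem_image]
  constructor
  · intro h
    exact ⟨g⁻¹ • y, h, smul_inv_smul g y⟩
  · rintro ⟨z, hz, rfl⟩
    rwa [inv_smul_smul]

/-- `p` kills the module. -/
theorem pm_p (f : PM p Y) : p • f = 0 := by
  refine pm_ext fun y => ?_
  rw [cf_nsmul, cf_zero, ZMod.natCast_self, zero_mul]

/-- every element is a sum of multiples of basis vectors. -/
theorem pm_sum [NeZero p] (f : PM p Y) : f = ∑ y ∈ sp f, (cf f y).val • pt p y := by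
  classical
  refine pm_ext fun z => ?_
  rw [cf_sum]
  have h1 : ∀ y ∈ sp f, cf ((cf f y).val • pt p y) z = if y = z then cf f z else 0 := by
    intro y _
    rw [cf_nsmul, cf_pt, ZMod.natCast_zmod_val]
    split_ifs with h
    · rw [h, mul_one]
    · rw [mul_zero]
  rw [Finset.sum_congr rfl h1, Finset.sum_ite_eq']
  split_ifs with h
  · rfl
  · by_contra h2
    exact h (mem_sp.mpr h2)

end Pool.Agent.Lib.ThC.GL

end

section

/-! # G0b1: the subgroups PMS -/

set_option autoImplicit false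
open scoped Pointwise

namespace Pool.Agent.Lib.ThC.GL
variable {p : ℕ} {Y Z : Type} {Γ : Type} [Group Γ] [MulAction Γ Y] [MulAction Γ Z]

theorem mem_pms {X : Set Y} {f : PM p Y} : f ∈ PMS p X ↔ ∀ y, cf f y ≠ 0 → y ∈ X := by
  constructor
  · intro h y hy
    by_contra hX
    exact hy (h y hX)
  · intro h y hy
    by_contra h1
    exact hy (h y h1)

theorem pt_mem_pms {X : Set Y} {y : Y} (h : y ∈ X) : pt p y ∈ PMS p X := by
  classical
  rw [mem_pms]
  intro z hz
  rw [cf_pt] at hz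
  by_cases h1 : y = z
  · exact h1 ▸ h
  · rw [if_neg h1] at hz
    exact absurd rfl hz

theorem pms_le [NeZero p] {X : Set Y} {M : AddSubgroup (PM p Y)} (h : ∀ y ∈ X, pt p y ∈ M) :
    PMS p X ≤ M := by
  intro f hf
  rw [mem_pms] at hf
  rw [pm_sum f]
  exact M.sum_mem fun y hy => M.nsmul_mem (h y (hf y (mem_sp.mp hy))) _

theorem pms_mono {X X' : Set Y} (h : X ⊆ X') : PMS p X ≤ PMS p X' := by
  intro f hf
  rw [mem_pms] at hf ⊢
  exact fun y hy => h (hf y hy)

theorem pms_univ : PMS p (Set.univ : Set Y) = ⊤ := by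
  refine top_unique fun f _ => ?_
  rw [mem_pms]
  exact fun y _ => Set.mem_univ y

theorem pms_iUnion [NeZero p] {ι : Type} (X : ι → Set Y) :
    PMS p (⋃ i, X i) = ⨆ i, PMS p (X i) := by
  apply le_antisymm
  · refine pms_le fun y hy => ?_
    obtain ⟨i, hi⟩ := Set.mem_iUnion.mp hy
    exact (le_iSup (fun i => PMS p (X i)) i) (pt_mem_pms hi)
  · exact iSup_le fun i => pms_mono (Set.subset_iUnion X i)

theorem pms_smul [NeZero p] (g : Γ) (X : Set Y) : g • PMS p X = PMS p (g • X) := by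
  apply le_antisymm
  · intro f hf
    obtain ⟨m, hm, rfl⟩ := (AddSubgroup.mem_smul_pointwise_iff_exists _ _ _).mp hf
    rw [mem_pms] at hm ⊢
    intro y hy
    rw [cf_smul] at hy
    exact Set.mem_smul_set_iff_inv_smul_mem.mpr (hm _ hy)
  · refine pms_le fun y hy => ?_
    obtain ⟨x, hx, rfl⟩ := hy
    show pt p (g • x) ∈ g • PMS p X
    rw [← smul_pt]
    exact AddSubgroup.smul_mem_pointwise_smul _ _ _ (pt_mem_pms hx)

theorem inv_pms {K : Subgroup Γ} {X : Set Y} (h : ∀ g ∈ K, ∀ x ∈ X, g • x ∈ X) :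
    InvA K (PMS p X) := by
  intro g hg f hf
  rw [mem_pms] at hf ⊢
  intro y hy
  rw [cf_smul] at hy
  have h1 := h g hg _ (hf _ hy)
  rwa [smul_inv_smul] at h1

theorem inv_pms_orb {K U : Subgroup Γ} (h : K ≤ U) (y : Y) :
    InvA K (PMS p (orb U y)) := by
  refine inv_pms fun g hg x hx => ?_
  obtain ⟨u, hu, rfl⟩ := hx
  exact ⟨g * u, U.mul_mem (h hg) hu, mul_smul g u y⟩

end Pool.Agent.Lib.ThC.GL

end

section

/-! # G0b2: induced maps, open stabilisers -/

set_option autoImplicit false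
open scoped Pointwise

namespace Pool.Agent.Lib.ThC.GL
variable {p : ℕ} {Y Z : Type} {Γ : Type} [Group Γ] [MulAction Γ Y] [MulAction Γ Z]

theorem mapPM_pt (θ : Y → Z) (y : Y) : mapPM p θ (pt p y) = pt p (θ y) := by
  exact Finsupp.mapDomain_single

theorem mapPM_smul [NeZero p] {θ : Y → Z} {X : Set Y} {g : Γ}
    (h : ∀ y ∈ X, θ (g • y) = g • θ y) {f : PM p Y} (hf : f ∈ PMS p X) :
    mapPM p θ (g • f) = g • mapPM p θ f := by
  let φ : PM p Y →+ PM p Z :=
    (mapPM p θ).comp (DistribSMul.toAddMonoidHom (PM p Y) g)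
  let ψ : PM p Y →+ PM p Z :=
    (DistribSMul.toAddMonoidHom (PM p Z) g).comp (mapPM p θ)
  have h1 : PMS p X ≤ AddMonoidHom.eqLocus φ ψ := by
    refine pms_le fun y hy => ?_
    show mapPM p θ (g • pt p y) = g • mapPM p θ (pt p y)
    rw [smul_pt, mapPM_pt, mapPM_pt, smul_pt, h y hy]
  exact h1 hf

theorem pms_map [NeZero p] (θ : Y → Z) (X : Set Y) :
    (PMS p X).map (mapPM p θ) = PMS p (θ '' X) := by
  apply le_antisymm
  · rw [AddSubgroup.map_le_iff_le_comap]
    refine pms_le fun y hy => ?_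
    rw [AddSubgroup.mem_comap, mapPM_pt]
    exact pt_mem_pms ⟨y, hy, rfl⟩
  · refine pms_le fun z hz => ?_
    obtain ⟨y, hy, rfl⟩ := hz
    exact AddSubgroup.mem_map.mpr ⟨pt p y, pt_mem_pms hy, mapPM_pt θ y⟩

theorem cf_mapPM [DecidableEq Z] (θ : Y → Z) (f : PM p Y) (z : Z) :
    cf (mapPM p θ f) z = ∑ y ∈ (sp f).filter (fun y => θ y = z), cf f y := by
  have h1 : mapPM p θ f = ∑ y ∈ sp f,
      (show PM p Z from (Finsupp.single (θ y) (cf f y) : Z →₀ ZMod p)) := rfl
  rw [h1, cf_sum, Finset.sum_filter]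
  refine Finset.sum_congr rfl fun y _ => ?_
  exact Finsupp.single_apply

theorem mapPM_inj {θ : Y → Z} {X : Set Y} (h : Set.InjOn θ X) :
    Set.InjOn (mapPM p θ) (PMS p X : Set (PM p Y)) := by
  intro f hf f' hf' he
  refine Finsupp.mapDomain_injOn (M := ZMod p) X h ?_ ?_ he
  · intro y hy
    exact mem_pms.mp hf y (Finsupp.mem_support_iff.mp hy)
  · intro y hy
    exact mem_pms.mp hf' y (Finsupp.mem_support_iff.mp hy)

/-- elements of permutation modules have open stabilisers. -/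
theorem op_st_pm {Ω : Type} [MulAction Γ Ω] (hY : ∀ y : Y, Op Ω (st Γ y)) (f : PM p Y) :
    Op Ω (st Γ f) := by
  refine op_mono (op_fixZ hY (sp f)) fun g hg => ?_
  rw [mem_fixingSubgroup_iff] at hg
  refine MulAction.mem_stabilizer_iff.mpr (pm_ext fun y => ?_)
  rw [cf_smul]
  by_cases h1 : y ∈ sp f
  · have h2 : g • y = y := hg y h1
    have h3 : g⁻¹ • y = y := inv_smul_eq_iff.mpr h2.symm
    rw [h3]
  · by_cases h2 : g⁻¹ • y ∈ sp f
    · have h3 : g • g⁻¹ • y = g⁻¹ • y := hg _ h2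
      rw [smul_inv_smul] at h3
      rw [← h3]
    · have e1 : cf f y = 0 := by
        by_contra h3
        exact h1 (mem_sp.mpr h3)
      have e2 : cf f (g⁻¹ • y) = 0 := by
        by_contra h3
        exact h2 (mem_sp.mpr h3)
      rw [e1, e2]

end Pool.Agent.Lib.ThC.GL

end

section

/-! # G1a1: invariant subgroups -/

set_option autoImplicit false
open scoped Pointwise

namespace Pool.Agent.Lib.ThC.GL
variable {Γ A : Type} [Group Γ] [AddCommGroup A] [DistribMulAction Γ A]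
variable {Γ' A' : Type} [Group Γ'] [AddCommGroup A'] [DistribMulAction Γ' A']
variable {K K' : Subgroup Γ} {L M N X Y : AddSubgroup A}

theorem inv_bot : InvA K (⊥ : AddSubgroup A) := by
  intro g _ m hm
  rw [AddSubgroup.mem_bot] at hm ⊢
  rw [hm, smul_zero]

theorem inv_top : InvA K (⊤ : AddSubgroup A) := by
  exact fun _ _ _ _ => AddSubgroup.mem_top _

theorem inv_inf (h : InvA K X) (h' : InvA K Y) : InvA K (X ⊓ Y) := by
  intro g hg m hm
  obtain ⟨h1, h2⟩ := AddSubgroup.mem_inf.mp hm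
  exact AddSubgroup.mem_inf.mpr ⟨h g hg m h1, h' g hg m h2⟩

theorem inv_sup (h : InvA K X) (h' : InvA K Y) : InvA K (X ⊔ Y) := by
  intro g hg m hm
  obtain ⟨x, hx, y, hy, rfl⟩ := AddSubgroup.mem_sup.mp hm
  rw [smul_add]
  exact AddSubgroup.add_mem _ ((le_sup_left : X ≤ X ⊔ Y) (h g hg x hx))
    ((le_sup_right : Y ≤ X ⊔ Y) (h' g hg y hy))

theorem inv_iSup {ι : Type} {S : ι → AddSubgroup A} (h : ∀ i, InvA K (S i)) :
    InvA K (⨆ i, S i) := by
  intro g hg m hm
  have h1 : (⨆ i, S i) ≤ (⨆ i, S i).comap (DistribSMul.toAddMonoidHom A g) := by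
    refine iSup_le fun i x hx => ?_
    rw [AddSubgroup.mem_comap]
    exact (le_iSup S i) (h i g hg x hx)
  exact h1 hm

theorem inv_mono (hK : K ≤ K') (h : InvA K' X) : InvA K X := by
  exact fun g hg m hm => h g (hK hg) m hm

theorem inv_closure {s : Set A} (h : ∀ g ∈ K, ∀ x ∈ s, g • x ∈ AddSubgroup.closure s) :
    InvA K (AddSubgroup.closure s) := by
  intro g hg m hm
  have h1 : AddSubgroup.closure s ≤
      (AddSubgroup.closure s).comap (DistribSMul.toAddMonoidHom A g) := by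
    rw [AddSubgroup.closure_le]
    exact fun x hx => h g hg x hx
  exact h1 hm

theorem smul_eq_of_inv (h : InvA K X) {g : Γ} (hg : g ∈ K) : g • X = X := by
  apply le_antisymm
  · intro m hm
    obtain ⟨x, hx, rfl⟩ := (AddSubgroup.mem_smul_pointwise_iff_exists _ _ _).mp hm
    exact h g hg x hx
  · intro m hm
    rw [AddSubgroup.mem_pointwise_smul_iff_inv_smul_mem]
    exact h g⁻¹ (K.inv_mem hg) m hm

theorem mem_spanN_self (K : Subgroup Γ) (v : A) : v ∈ spanN K v := by
  exact AddSubgroup.subset_closure ⟨1, K.one_mem, one_smul Γ v⟩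

theorem inv_spanN (K : Subgroup Γ) (v : A) : InvA K (spanN K v) := by
  refine inv_closure fun g hg x hx => ?_
  obtain ⟨u, hu, rfl⟩ := hx
  exact AddSubgroup.subset_closure ⟨g * u, K.mul_mem hg hu, mul_smul g u v⟩

theorem spanN_le {v : A} (h : InvA K X) (hv : v ∈ X) : spanN K v ≤ X := by
  unfold spanN
  rw [AddSubgroup.closure_le]
  rintro x ⟨g, hg, rfl⟩
  exact h g hg v hv

end Pool.Agent.Lib.ThC.GL

end

section

/-! # G1a2: calculus of FLen, 1 -/

set_option autoImplicit false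
open scoped Pointwise

namespace Pool.Agent.Lib.ThC.GL
variable {Γ A : Type} [Group Γ] [AddCommGroup A] [DistribMulAction Γ A]
variable {Γ' A' : Type} [Group Γ'] [AddCommGroup A'] [DistribMulAction Γ' A']
variable {K K' : Subgroup Γ} {L M N X Y : AddSubgroup A}

/-- comparison along a strictly increasing map `F`: take `h ∘ F`. -/
theorem FLen.of_map {K' : Subgroup Γ'} {L' M' : AddSubgroup A'}
    (F : AddSubgroup A → AddSubgroup A')
    (hF : ∀ X, InvA K X → L ≤ X → X ≤ M → InvA K' (F X) ∧ L' ≤ F X ∧ F X ≤ M')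
    (hm : ∀ X Y, InvA K X → InvA K Y → L ≤ X → X < Y → Y ≤ M → F X < F Y)
    (h : FLen K' L' M') : FLen K L M := by
  obtain ⟨n, f, hf1, hf2⟩ := h
  refine ⟨n, fun X => f (F X), fun X => hf1 _, fun X Y hX hY hLX hXY hYM => ?_⟩
  have h1 := hF X hX hLX (hXY.le.trans hYM)
  have h2 := hF Y hY (hLX.trans hXY.le) hYM
  exact hf2 _ _ h1.1 h2.1 h1.2.1 (hm X Y hX hY hLX hXY hYM) h2.2.2

theorem FLen.mono_group (hK : K ≤ K') (h : FLen K L M) : FLen K' L M := by
  obtain ⟨n, f, hf1, hf2⟩ := h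
  exact ⟨n, f, hf1, fun X Y hX hY hLX hXY hYM =>
    hf2 X Y (inv_mono hK hX) (inv_mono hK hY) hLX hXY hYM⟩

theorem FLen.mono {L' M' : AddSubgroup A} (hL : L ≤ L') (hM : M' ≤ M) (h : FLen K L M) :
    FLen K L' M' := by
  obtain ⟨n, f, hf1, hf2⟩ := h
  exact ⟨n, f, hf1, fun X Y hX hY hLX hXY hYM =>
    hf2 X Y hX hY (hL.trans hLX) hXY (hYM.trans hM)⟩

/-- `h X = h₁ (X ⊓ M) + h₂ (X ⊔ M)`; the lattice of subgroups is modular. -/
theorem FLen.trans (hLM : L ≤ M) (hMN : M ≤ N) (hM : InvA K M) (h₁ : FLen K L M)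
    (h₂ : FLen K M N) : FLen K L N := by
  classical
  obtain ⟨n₁, f₁, hf₁, hg₁⟩ := h₁
  obtain ⟨n₂, f₂, hf₂, hg₂⟩ := h₂
  refine ⟨n₁ + n₂, fun X => f₁ (X ⊓ M) + f₂ (X ⊔ M), fun X => add_le_add (hf₁ _) (hf₂ _), ?_⟩
  intro X Y hX hY hLX hXY hYN
  have e1 : X ⊓ M ≤ Y ⊓ M := inf_le_inf_right M hXY.le
  have e2 : X ⊔ M ≤ Y ⊔ M := sup_le_sup_right hXY.le M
  have i1 : f₁ (X ⊓ M) ≤ f₁ (Y ⊓ M) := by
    rcases e1.lt_or_eq with h | h
    · exact (hg₁ _ _ (inv_inf hX hM) (inv_inf hY hM) (le_inf hLX hLM) h inf_le_right).le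
    · rw [h]
  have i2 : f₂ (X ⊔ M) ≤ f₂ (Y ⊔ M) := by
    rcases e2.lt_or_eq with h | h
    · exact (hg₂ _ _ (inv_sup hX hM) (inv_sup hY hM) le_sup_right h (sup_le hYN hMN)).le
    · rw [h]
  by_cases h1 : X ⊓ M = Y ⊓ M
  · have h2 : X ⊔ M < Y ⊔ M := by
      refine lt_of_le_of_ne e2 fun h3 => ?_
      exact hXY.ne (eq_of_le_of_inf_le_of_sup_le hXY.le h1.ge h3.ge)
    have h3 := hg₂ _ _ (inv_sup hX hM) (inv_sup hY hM) le_sup_right h2 (sup_le hYN hMN)
    show f₁ (X ⊓ M) + f₂ (X ⊔ M) < f₁ (Y ⊓ M) + f₂ (Y ⊔ M)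
    omega
  · have h3 := hg₁ _ _ (inv_inf hX hM) (inv_inf hY hM) (le_inf hLX hLM)
      (lt_of_le_of_ne e1 h1) inf_le_right
    show f₁ (X ⊓ M) + f₂ (X ⊔ M) < f₁ (Y ⊓ M) + f₂ (Y ⊔ M)
    omega

/-- `h X` = the number of `f ∈ F` whose coset `f + L` meets `X`. -/
theorem FLen.of_finMod (h : FinMod L (M : Set A)) : FLen K L M := by
  classical
  obtain ⟨F, hF⟩ := h
  refine ⟨F.card, fun X => (F.filter (fun f => ∃ x ∈ X, x - f ∈ L)).card,
    fun X => Finset.card_filter_le _ _, ?_⟩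
  intro X Y _ _ hLX hXY hYM
  refine Finset.card_lt_card ?_
  rw [Finset.ssubset_iff_of_subset]
  · obtain ⟨y, hyY, hyX⟩ := SetLike.exists_of_lt hXY
    obtain ⟨f, hf, hyf⟩ := hF y (hYM hyY)
    refine ⟨f, Finset.mem_filter.mpr ⟨hf, y, hyY, hyf⟩, fun h1 => ?_⟩
    obtain ⟨-, x, hx, hxf⟩ := Finset.mem_filter.mp h1
    apply hyX
    have h2 : y - x ∈ X := by
      have h3 := L.sub_mem hyf hxf
      rw [sub_sub_sub_cancel_right] at h3
      exact hLX h3
    have h3 := X.add_mem h2 hx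
    rwa [sub_add_cancel] at h3
  · intro f hf
    obtain ⟨h1, x, hx, h2⟩ := Finset.mem_filter.mp hf
    exact Finset.mem_filter.mpr ⟨h1, x, hXY.le hx, h2⟩

theorem FLen.of_le (h : M ≤ L) : FLen K L M := by
  refine ⟨0, fun _ => 0, fun _ => le_rfl, fun X Y _ _ hLX hXY hYM => ?_⟩
  exact absurd (hXY.trans_le (hYM.trans (h.trans hLX))) (lt_irrefl X)

end Pool.Agent.Lib.ThC.GL

end

section

/-! # G1b1: calculus of FLen, 2 -/

set_option autoImplicit false
open scoped Pointwise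

namespace Pool.Agent.Lib.ThC.GL
variable {Γ A A' : Type} [Group Γ] [AddCommGroup A] [DistribMulAction Γ A]
variable [AddCommGroup A'] [DistribMulAction Γ A']
variable {K : Subgroup Γ} {L M N X Y : AddSubgroup A}

/-- second isomorphism theorem: `F X = X ⊓ M'` is strictly increasing for `M ≤ X ≤ M ⊔ M'`. -/
theorem FLen.sup_right {M' : AddSubgroup A} (hM' : InvA K M') (h : FLen K (M ⊓ M') M') :
    FLen K M (M ⊔ M') := by
  refine FLen.of_map (fun X => X ⊓ M') ?_ ?_ h
  · intro X hX hMX _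
    exact ⟨inv_inf hX hM', inf_le_inf_right M' hMX, inf_le_right⟩
  · intro X Y _ _ hMX hXY hY
    refine lt_of_le_of_ne (inf_le_inf_right M' hXY.le) fun h1 => ?_
    have h2 : Y ⊔ M' ≤ X ⊔ M' :=
      sup_le (hY.trans (sup_le_sup_right hMX M')) le_sup_right
    exact hXY.ne (eq_of_le_of_inf_le_of_sup_le hXY.le h1.ge h2)

theorem FLen.sup {M' : AddSubgroup A} (hL : L ≤ M) (hL' : L ≤ M') (hM : InvA K M)
    (hM' : InvA K M') (h : FLen K L M) (h' : FLen K L M') : FLen K L (M ⊔ M') := by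
  refine FLen.trans hL le_sup_left hM h (FLen.sup_right hM' ?_)
  exact h'.mono (le_inf hL hL') le_rfl

theorem FLen.iSup {ι : Type} [Finite ι] {S : ι → AddSubgroup A} (hL : InvA K L)
    (hS : ∀ i, L ≤ S i) (hi : ∀ i, InvA K (S i)) (h : ∀ i, FLen K L (S i)) :
    FLen K L (L ⊔ ⨆ i, S i) := by
  classical
  cases nonempty_fintype ι
  have key : ∀ s : Finset ι, InvA K (L ⊔ ⨆ i ∈ s, S i) ∧ FLen K L (L ⊔ ⨆ i ∈ s, S i) := by
    intro s
    induction s using Finset.induction_on with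
    | empty =>
      have e : (L ⊔ ⨆ i ∈ (∅ : Finset ι), S i) = L := by simp
      rw [e]
      exact ⟨hL, FLen.of_le le_rfl⟩
    | insert a s _ ih =>
      have e : (L ⊔ ⨆ i ∈ insert a s, S i) = (L ⊔ ⨆ i ∈ s, S i) ⊔ S a := by
        rw [Finset.iSup_insert, sup_comm (S a), sup_assoc]
      rw [e]
      exact ⟨inv_sup ih.1 (hi a), FLen.sup le_sup_left (hS a) ih.1 (hi a) ih.2 (h a)⟩
  have h1 := (key Finset.univ).2
  have e : (⨆ i ∈ (Finset.univ : Finset ι), S i) = ⨆ i, S i := by simp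
  rwa [e] at h1

end Pool.Agent.Lib.ThC.GL

end

section

/-! # G1b2: calculus of FLen, 3 -/

set_option autoImplicit false
open scoped Pointwise

namespace Pool.Agent.Lib.ThC.GL
variable {Γ A A' : Type} [Group Γ] [AddCommGroup A] [DistribMulAction Γ A]
variable [AddCommGroup A'] [DistribMulAction Γ A']
variable {K : Subgroup Γ} {L M N X Y : AddSubgroup A}

/-- images under maps which are equivariant modulo `L`: use `F X = X.comap φ ⊓ M'`. -/
theorem FLen.image_mod {L' M' : AddSubgroup A'} (φ : A' →+ A) (hM' : InvA K M')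
    (hφ : ∀ g ∈ K, ∀ m ∈ M', φ (g • m) - g • φ m ∈ L) (hL' : ∀ m ∈ L', φ m ∈ L)
    (hLM : L' ≤ M') (h : FLen K L' M') : FLen K L (L ⊔ M'.map φ) := by
  refine FLen.of_map (fun X => X.comap φ ⊓ M') ?_ ?_ h
  · intro X hX hLX _
    refine ⟨?_, ?_, inf_le_right⟩
    · intro g hg m hm
      obtain ⟨h1, h2⟩ := AddSubgroup.mem_inf.mp hm
      refine AddSubgroup.mem_inf.mpr ⟨?_, hM' g hg m h2⟩
      rw [AddSubgroup.mem_comap] at h1 ⊢
      have h3 := X.add_mem (hLX (hφ g hg m h2)) (hX g hg _ h1)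
      rwa [sub_add_cancel] at h3
    · intro m hm
      exact AddSubgroup.mem_inf.mpr ⟨AddSubgroup.mem_comap.mpr (hLX (hL' m hm)), hLM hm⟩
  · intro X Y _ _ hLX hXY hY
    refine lt_of_le_of_ne (inf_le_inf_right M' (AddSubgroup.comap_mono hXY.le)) fun h1 => ?_
    obtain ⟨y, hyY, hyX⟩ := SetLike.exists_of_lt hXY
    obtain ⟨l, hl, z, hz, hlz⟩ := AddSubgroup.mem_sup.mp (hY hyY)
    obtain ⟨m, hm, rfl⟩ := AddSubgroup.mem_map.mp hz
    have h2 : φ m ∈ Y := by
      have h3 := Y.sub_mem hyY (hXY.le (hLX hl))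
      rw [← hlz, add_sub_cancel_left] at h3
      exact h3
    have h3 : m ∈ Y.comap φ ⊓ M' := AddSubgroup.mem_inf.mpr ⟨AddSubgroup.mem_comap.mpr h2, hm⟩
    have h1' : X.comap φ ⊓ M' = Y.comap φ ⊓ M' := h1
    rw [← h1'] at h3
    have h4 : φ m ∈ X := AddSubgroup.mem_comap.mp (AddSubgroup.mem_inf.mp h3).1
    apply hyX
    rw [← hlz]
    exact X.add_mem (hLX hl) h4

theorem FLen.image {M' : AddSubgroup A'} (φ : A' →+ A) (hM' : InvA K M')
    (hφ : ∀ g ∈ K, ∀ m ∈ M', φ (g • m) = g • φ m) (h : FLen K ⊥ M') :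
    FLen K ⊥ (M'.map φ) := by
  have h1 := FLen.image_mod (L := ⊥) (L' := ⊥) φ hM' (fun g hg m hm => by
    rw [hφ g hg m hm, sub_self]
    exact AddSubgroup.zero_mem _) (fun m hm => by
    rw [AddSubgroup.mem_bot.mp hm, map_zero]
    exact AddSubgroup.zero_mem _) bot_le h
  rwa [bot_sup_eq] at h1

/-- kernels: use `F X = X.map φ`. -/
theorem FLen.of_ker {M' : AddSubgroup A'} (φ : A' →+ A) {M : AddSubgroup A}
    (hφ : ∀ g ∈ K, ∀ m ∈ M', φ (g • m) = g • φ m) (hM : ∀ m ∈ M', φ m ∈ M)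
    (h : FLen K ⊥ M) : FLen K (M' ⊓ φ.ker) M' := by
  refine FLen.of_map (fun X => X.map φ) ?_ ?_ h
  · intro X hX _ hXM
    refine ⟨?_, bot_le, ?_⟩
    · intro g hg m hm
      obtain ⟨x, hx, rfl⟩ := AddSubgroup.mem_map.mp hm
      exact AddSubgroup.mem_map.mpr ⟨g • x, hX g hg x hx, hφ g hg x (hXM hx)⟩
    · intro m hm
      obtain ⟨x, hx, rfl⟩ := AddSubgroup.mem_map.mp hm
      exact hM x (hXM hx)
  · intro X Y _ _ hLX hXY hY
    refine lt_of_le_of_ne (AddSubgroup.map_mono hXY.le) fun h1 => ?_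
    obtain ⟨y, hyY, hyX⟩ := SetLike.exists_of_lt hXY
    have h2 : φ y ∈ Y.map φ := AddSubgroup.mem_map.mpr ⟨y, hyY, rfl⟩
    have h1' : X.map φ = Y.map φ := h1
    rw [← h1'] at h2
    obtain ⟨x, hx, hxy⟩ := AddSubgroup.mem_map.mp h2
    apply hyX
    have h3 : y - x ∈ M' ⊓ φ.ker := by
      refine AddSubgroup.mem_inf.mpr ⟨M'.sub_mem (hY hyY) (hY (hXY.le hx)), ?_⟩
      rw [AddMonoidHom.mem_ker, map_sub, hxy, sub_self]
    have h4 := X.add_mem (hLX h3) hx
    rwa [sub_add_cancel] at h4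

/-- an interval with no invariant subgroups strictly inside. -/
theorem FLen.of_simple (h : ∀ X, InvA K X → L ≤ X → X ≤ M → X = L ∨ X = M) :
    FLen K L M := by
  classical
  refine ⟨1, fun X => if X = M then 1 else 0, fun X => ?_, fun X Y hX hY hLX hXY hYM => ?_⟩
  · show (if X = M then 1 else 0) ≤ 1
    split_ifs <;> norm_num
  · have h1 : X ≠ M := (hXY.trans_le hYM).ne
    have h2 : Y = M := by
      rcases h Y hY (hLX.trans hXY.le) hYM with h3 | h3
      · exact absurd (hLX.trans_lt hXY) (h3 ▸ lt_irrefl L)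
      · exact h3
    show (if X = M then 1 else 0) < (if Y = M then 1 else 0)
    rw [if_neg h1, if_pos h2]
    exact Nat.zero_lt_one

end Pool.Agent.Lib.ThC.GL

end

section

/-! # G1b3: calculus of FLen, 4 -/

set_option autoImplicit false
open scoped Pointwise

namespace Pool.Agent.Lib.ThC.GL
variable {Γ A A' : Type} [Group Γ] [AddCommGroup A] [DistribMulAction Γ A]
variable [AddCommGroup A'] [DistribMulAction Γ A']
variable {K : Subgroup Γ} {L M N X Y : AddSubgroup A}

/-- Induction along a composition series.  (From `P X`, `X < M`: take `Y` invariant,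
`X < Y ≤ M`, with `h Y` minimal.) -/
theorem FLen.induction {P : AddSubgroup A → Prop} (hfl : FLen K L M) (hL : InvA K L)
    (hM : InvA K M) (hLM : L ≤ M) (base : P L)
    (step : ∀ X Y, InvA K X → InvA K Y → L ≤ X → X < Y → Y ≤ M →
      (∀ Z, InvA K Z → X ≤ Z → Z ≤ Y → Z = X ∨ Z = Y) → P X → P Y) : P M := by
  obtain ⟨N, f, hN, hf⟩ := hfl
  have key : ∀ n : ℕ, ∀ X, InvA K X → L ≤ X → X ≤ M → P X → N - f X ≤ n → P M := by
    intro n
    induction n with
    | zero =>
      intro X hX hLX hXM hP hn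
      rcases hXM.lt_or_eq with h1 | h1
      · have h2 := hf X M hX hM hLX h1 le_rfl
        have h3 := hN M
        omega
      · exact h1 ▸ hP
    | succ n ih =>
      intro X hX hLX hXM hP hn
      rcases hXM.lt_or_eq with h1 | h1
      · obtain ⟨Y, ⟨hY1, hY2, hY3⟩, hY4⟩ := WellFounded.has_min (measure f).wf
          {Y | InvA K Y ∧ X < Y ∧ Y ≤ M} ⟨M, hM, h1, le_rfl⟩
        have h2 := hf X Y hX hY1 hLX hY2 hY3
        have h3 := hN Y
        refine ih Y hY1 (hLX.trans hY2.le) hY3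
          (step X Y hX hY1 hLX hY2 hY3 (fun Z hZ hXZ hZY => ?_) hP) (by omega)
        by_contra hcon
        rw [not_or] at hcon
        refine hY4 Z ⟨hZ, lt_of_le_of_ne hXZ (Ne.symm hcon.1), hZY.trans hY3⟩ ?_
        exact hf Z Y hZ hY1 (hLX.trans hXZ) (lt_of_le_of_ne hZY hcon.2) hY3
      · exact h1 ▸ hP
  exact key (N - f L) L hL le_rfl hLM base le_rfl

/-- every invariant `M > L` contains one which is minimal over `L`. -/
theorem FLen.exists_min (hfl : FLen K L M) (hM : InvA K M) (hLM : L < M) :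
    ∃ S, MinOver K L S ∧ S ≤ M := by
  obtain ⟨N, f, hN, hf⟩ := hfl
  obtain ⟨Y, ⟨hY1, hY2, hY3⟩, hY4⟩ := WellFounded.has_min (measure f).wf
    {Y | InvA K Y ∧ L < Y ∧ Y ≤ M} ⟨M, hM, hLM, le_rfl⟩
  refine ⟨Y, ⟨hY1, hY2, fun X hX hLX hXY => ?_⟩, hY3⟩
  by_contra hcon
  rw [not_or] at hcon
  refine hY4 X ⟨hX, lt_of_le_of_ne hLX (Ne.symm hcon.1), hXY.trans hY3⟩ ?_
  exact hf X Y hX hY1 hLX (lt_of_le_of_ne hXY hcon.2) hY3

end Pool.Agent.Lib.ThC.GL

end

section

/-! # G1c: finiteness modulo L -/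

set_option autoImplicit false
open scoped Pointwise

namespace Pool.Agent.Lib.ThC.GL
variable {Γ A : Type} [Group Γ] [AddCommGroup A] [DistribMulAction Γ A]
variable {K : Subgroup Γ} {L M : AddSubgroup A} {p : ℕ}

private theorem G1c_span_finite {A : Type} [AddCommGroup A] (p : ℕ) (hp : 0 < p)
    [Module (ZMod p) A] (F : Finset A) :
    ((Submodule.span (ZMod p) (F : Set A) : Submodule (ZMod p) A) : Set A).Finite := by
  have hne : NeZero p := ⟨hp.ne'⟩
  have hfinW : Module.Finite (ZMod p) ↥(Submodule.span (ZMod p) (F : Set A)) :=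
    Module.Finite.span_finset (ZMod p) F
  have hfinW2 : Finite ↥(Submodule.span (ZMod p) (F : Set A)) :=
    Module.finite_of_finite (ZMod p)
  exact Set.toFinite _

private theorem G1c_closure_finite {A : Type} [AddCommGroup A] (p : ℕ) (hp : 0 < p)
    (hpA : ∀ a : A, p • a = 0) (F : Finset A) :
    ((AddSubgroup.closure (F : Set A)) : Set A).Finite := by
  let instM : Module (ZMod p) A := AddCommGroup.zmodModule hpA
  refine (G1c_span_finite p hp F).subset ?_
  have h1 : AddSubgroup.closure (F : Set A) ≤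
      (Submodule.span (ZMod p) (F : Set A)).toAddSubgroup := by
    rw [AddSubgroup.closure_le]
    exact fun x hx => Submodule.subset_span hx
  exact h1

/-- if `t` has a finite `K`-orbit modulo `L` then the invariant subgroup generated by `t` is
finite modulo `L` (it is generated by finitely many elements of order dividing `p`). -/
theorem finMod_span (hp : 0 < p) (hpA : ∀ a : A, p • a = 0) {t : A} {X : AddSubgroup A}
    (hX : FinMod L (X : Set A)) (hL : L ≤ X) (ht : FinMod L {x | ∃ g ∈ K, g • t = x}) :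
    FinMod L ((X ⊔ spanN K t : AddSubgroup A) : Set A) := by
  classical
  obtain ⟨F, hF⟩ := ht
  obtain ⟨F', hF'⟩ := hX
  set W : AddSubgroup A := AddSubgroup.closure (F : Set A) with hW
  have hWfin : (W : Set A).Finite := G1c_closure_finite p hp hpA F
  have h1 : spanN K t ≤ W ⊔ L := by
    unfold spanN
    rw [AddSubgroup.closure_le]
    rintro x ⟨g, hg, rfl⟩
    obtain ⟨f, hf, hfl⟩ := hF (g • t) ⟨g, hg, rfl⟩
    have h2 : g • t = f + (g • t - f) := by abel
    rw [h2]
    exact AddSubgroup.add_mem _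
      ((le_sup_left : W ≤ W ⊔ L) (AddSubgroup.subset_closure hf))
      ((le_sup_right : L ≤ W ⊔ L) hfl)
  refine ⟨(F' ×ˢ hWfin.toFinset).image (fun z => z.1 + z.2), fun m hm => ?_⟩
  obtain ⟨x, hx, s, hs, rfl⟩ := AddSubgroup.mem_sup.mp hm
  obtain ⟨f', hf', hl'⟩ := hF' x hx
  obtain ⟨w, hw, l, hl, rfl⟩ := AddSubgroup.mem_sup.mp (h1 hs)
  refine ⟨f' + w, Finset.mem_image.mpr ⟨(f', w), Finset.mem_product.mpr
    ⟨hf', hWfin.mem_toFinset.mpr hw⟩, rfl⟩, ?_⟩
  have h2 : x + (w + l) - (f' + w) = (x - f') + l := by abel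
  rw [h2]
  exact L.add_mem hl' hl

/-- (NG): otherwise there are invariant subgroups `X_0 < X_1 < ...` between `L` and `M`, finite
modulo `L`; their ranks `h X_i` increase, but they are bounded. -/
theorem FLen.finMod (hp : 0 < p) (hpA : ∀ a : A, p • a = 0) (hL : InvA K L) (hM : InvA K M)
    (hLM : L ≤ M) (h : FLen K L M)
    (ht : ∀ t ∈ M, FinMod L {x | ∃ g ∈ K, g • t = x}) : FinMod L (M : Set A) := by
  refine FLen.induction (P := fun X => FinMod L (X : Set A)) h hL hM hLM ?_ ?_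
  · exact ⟨{0}, fun m hm => ⟨0, Finset.mem_singleton_self 0, by rwa [sub_zero]⟩⟩
  · intro X Y hX hY hLX hXY hYM hmin hP
    obtain ⟨t, htY, htX⟩ := SetLike.exists_of_lt hXY
    have h1 := finMod_span hp hpA hP hLX (ht t (hYM htY))
    have h2 : X ⊔ spanN K t = Y := by
      rcases hmin (X ⊔ spanN K t) (inv_sup hX (inv_spanN K t)) le_sup_left
        (sup_le hXY.le (spanN_le hY htY)) with h3 | h3
      · exfalso
        apply htX
        rw [← h3]
        exact (le_sup_right : spanN K t ≤ X ⊔ spanN K t) (mem_spanN_self K t)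
      · exact h3
    rwa [h2] at h1

/-- (TF): the elements of `M` fixed by `K` modulo `L` are finite in number modulo `L`
(apply `FLen.finMod` to the subgroup of these elements). -/
theorem FLen.finFixed (hp : 0 < p) (hpA : ∀ a : A, p • a = 0) (hL : InvA K L)
    (hLM : L ≤ M) (h : FLen K L M) :
    FinMod L {m | m ∈ M ∧ ∀ g ∈ K, g • m - m ∈ L} := by
  let M' : AddSubgroup A :=
    { carrier := {m | m ∈ M ∧ ∀ g ∈ K, g • m - m ∈ L}
      zero_mem' := ⟨M.zero_mem, fun g _ => by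
        rw [smul_zero, sub_zero]
        exact L.zero_mem⟩
      add_mem' := by
        rintro a b ⟨ha, ha'⟩ ⟨hb, hb'⟩
        refine ⟨M.add_mem ha hb, fun g hg => ?_⟩
        rw [smul_add, add_sub_add_comm]
        exact L.add_mem (ha' g hg) (hb' g hg)
      neg_mem' := by
        rintro a ⟨ha, ha'⟩
        refine ⟨M.neg_mem ha, fun g hg => ?_⟩
        rw [smul_neg, neg_sub_neg, ← neg_sub]
        exact L.neg_mem (ha' g hg) }
  have hM' : ∀ m, m ∈ M' ↔ m ∈ M ∧ ∀ g ∈ K, g • m - m ∈ L := fun m => Iff.rfl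
  have hinv : InvA K M' := by
    intro u hu m hm
    obtain ⟨h1, h2⟩ := (hM' m).mp hm
    have e1 : u • m = (u • m - m) + m := by abel
    refine (hM' _).mpr ⟨?_, fun g hg => ?_⟩
    · rw [e1]
      exact M.add_mem (hLM (h2 u hu)) h1
    · have e2 : g • u • m - u • m = ((g * u) • m - m) - (u • m - m) := by
        rw [mul_smul]
        abel
      rw [e2]
      exact L.sub_mem (h2 _ (K.mul_mem hg hu)) (h2 u hu)
  have hLM' : L ≤ M' := fun l hl => (hM' l).mpr ⟨hLM hl, fun g hg =>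
    L.sub_mem (hL g hg l hl) hl⟩
  have hM'M : M' ≤ M := fun m hm => ((hM' m).mp hm).1
  exact FLen.finMod hp hpA hL hinv hLM' (h.mono le_rfl hM'M) fun t ht =>
    ⟨{t}, by
      rintro x ⟨g, hg, rfl⟩
      exact ⟨t, Finset.mem_singleton_self t, ((hM' t).mp ht).2 g hg⟩⟩

end Pool.Agent.Lib.ThC.GL

end

section

/-! # G1d1: finitely many invariant subgroups, 1 -/

set_option autoImplicit false
open scoped Pointwise

namespace Pool.Agent.Lib.ThC.GL
variable {Ω Γ A : Type} [Group Γ] [MulAction Γ Ω] [AddCommGroup A] [DistribMulAction Γ A]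
variable {L M C S L' : AddSubgroup A} {p : ℕ}

/-- Two minimal invariant subgroups `S`, `L'` over `L`, `L' ≤ C ⊔ S`, neither inside `C`.
Then `S ≤ L' ⊔ C` (modular law and minimality of `S`: `(L' ⊔ C) ⊓ S` is `L` or `S`; if it is `L`
then `L' ⊔ C = C ⊔ ((L' ⊔ C) ⊓ S) = C`).  Write `s = v + c`; for `g • s = s`,
`g • v - v = -(g • c - c)` is in `L' ⊓ C = L`; `v ∉ L` since otherwise `s ∈ C ⊓ S = L`. -/
theorem fs_step {K : Subgroup Γ} (hL : InvA K L) (hC : InvA K C) (hLC : L ≤ C)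
    (hS : MinOver K L S) (hSC : ¬ S ≤ C) {s : A} (hs : s ∈ S) (hsL : s ∉ L)
    (hL' : MinOver K L L') (hL'S : L' ≤ C ⊔ S) (hL'C : ¬ L' ≤ C) :
    ∃ v ∈ L', v ∉ L ∧ ∀ g ∈ K, g • s = s → g • v - v ∈ L := by
  have hCS : C ⊓ S = L := by
    rcases hS.min (C ⊓ S) (inv_inf hC hS.inv) (le_inf hLC hS.lt.le) inf_le_right with h | h
    · exact h
    · exact absurd (inf_eq_right.1 h) hSC
  have hCL : L' ⊓ C = L := by
    rcases hL'.min (L' ⊓ C) (inv_inf hL'.inv hC) (le_inf hL'.lt.le hLC) inf_le_left with h | h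
    · exact h
    · exact absurd (inf_eq_left.1 h) hL'C
  have hSS : (L' ⊔ C) ⊓ S = S := by
    rcases hS.min ((L' ⊔ C) ⊓ S) (inv_inf (inv_sup hL'.inv hC) hS.inv)
      (le_inf (hLC.trans le_sup_right) hS.lt.le) inf_le_right with h | h
    · exfalso
      apply hL'C
      have h1 : L' ⊔ C ≤ C ⊔ (L' ⊔ C) ⊓ S := by
        have h2 : L' ⊔ C ≤ (C ⊔ S) ⊓ (L' ⊔ C) :=
          le_inf (sup_le hL'S le_sup_left) le_rfl
        rw [sup_inf_assoc_of_le S (le_sup_right : C ≤ L' ⊔ C)] at h2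
        rwa [inf_comm S] at h2
      rw [h, sup_eq_left.2 hLC] at h1
      exact le_sup_left.trans h1
    · exact h
  have hsm : s ∈ L' ⊔ C := by
    have : s ∈ (L' ⊔ C) ⊓ S := by rw [hSS]; exact hs
    exact (AddSubgroup.mem_inf.1 this).1
  obtain ⟨v, hv, c, hc, hvc⟩ := AddSubgroup.mem_sup.1 hsm
  refine ⟨v, hv, ?_, ?_⟩
  · intro hvL
    apply hsL
    rw [← hCS]
    refine AddSubgroup.mem_inf.2 ⟨?_, hs⟩
    rw [← hvc]
    exact add_mem (hLC hvL) hc
  · intro g hg hgs
    rw [← hCL]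
    refine AddSubgroup.mem_inf.2 ⟨sub_mem (hL'.inv g hg v hv) hv, ?_⟩
    have h1 : g • v - v = c - g • c := by
      rw [← hvc, smul_add] at hgs
      rw [sub_eq_sub_iff_add_eq_add, hgs, add_comm]
    rw [h1]
    exact sub_mem hc (hC g hg c hc)

/-- two minimal ones with a common element outside `L` are equal. -/
theorem fs_unique {K : Subgroup Γ} (hL' : MinOver K L L') (hS : MinOver K L S) {v : A}
    (h1 : v ∈ L') (h2 : v ∈ S) (h3 : v ∉ L) : L' = S := by
  have h := inv_inf hL'.inv hS.inv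
  have hv : v ∈ L' ⊓ S := AddSubgroup.mem_inf.2 ⟨h1, h2⟩
  have e1 : L' ⊓ S = L' := by
    rcases hL'.min (L' ⊓ S) h (le_inf hL'.lt.le hS.lt.le) inf_le_left with h' | h'
    · rw [h'] at hv
      exact absurd hv h3
    · exact h'
  have e2 : L' ⊓ S = S := by
    rcases hS.min (L' ⊓ S) h (le_inf hL'.lt.le hS.lt.le) inf_le_right with h' | h'
    · rw [h'] at hv
      exact absurd hv h3
    · exact h'
  exact e1.symm.trans e2

theorem fs_fin {K : Subgroup Γ} (hp : 0 < p) (hpA : ∀ a : A, p • a = 0)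
    (hL : InvA K L) (hC : InvA K C) (hLC : L ≤ C)
    (hS : MinOver K L S) (hSC : ¬ S ≤ C)
    (hfl : ∀ s : A, FLen (K ⊓ st Γ s) L ⊤) :
    {L' : AddSubgroup A | MinOver K L L' ∧ L' ≤ C ⊔ S ∧ ¬ L' ≤ C}.Finite := by
  classical
  obtain ⟨s, hs, hsL⟩ := SetLike.exists_of_lt hS.lt
  obtain ⟨F, hF⟩ := FLen.finFixed (K := K ⊓ st Γ s) (M := ⊤) hp hpA (inv_mono inf_le_left hL)
    le_top (hfl s)
  have key : ∀ L' : AddSubgroup A, MinOver K L L' ∧ L' ≤ C ⊔ S ∧ ¬ L' ≤ C →
      ∃ f ∈ F, ∃ v ∈ L', v ∉ L ∧ v - f ∈ L := by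
    rintro L' ⟨h1, h2, h3⟩
    obtain ⟨v, hv, hvL, hvK⟩ := fs_step hL hC hLC hS hSC hs hsL h1 h2 h3
    obtain ⟨f, hfF, hf⟩ := hF v ⟨AddSubgroup.mem_top v, fun g hg =>
      hvK g (Subgroup.mem_inf.1 hg).1 (MulAction.mem_stabilizer_iff.1 (Subgroup.mem_inf.1 hg).2)⟩
    exact ⟨f, hfF, v, hv, hvL, hf⟩
  choose! f hfF v hv hvL hvf using key
  refine Set.Finite.of_injOn (f := f) (t := (F : Set A)) (fun L' hL' => hfF L' hL') ?_
    F.finite_toSet
  intro L1 h1 L2 h2 h12
  refine fs_unique h1.1 h2.1 (hv L1 h1) ?_ (hvL L1 h1)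
  have e : v L1 = v L2 + ((v L1 - f L1) - (v L2 - f L2)) := by
    rw [h12]
    abel
  rw [e]
  exact add_mem (hv L2 h2) (h2.1.lt.le (sub_mem (hvf L1 h1) (hvf L2 h2)))

end Pool.Agent.Lib.ThC.GL

end

section

/-! # G1d2: finitely many invariant subgroups, 2 -/

set_option autoImplicit false
open scoped Pointwise

namespace Pool.Agent.Lib.ThC.GL
variable {Ω Γ A : Type} [Group Γ] [MulAction Γ Ω] [AddCommGroup A] [DistribMulAction Γ A]
variable {L M C S L' : AddSubgroup A} {p : ℕ}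

/-- among the invariant `C ≥ L` containing only finitely many minimal ones, take one with
`h C` maximal; by `fs_fin` it contains all of them. -/
theorem fs_min {K : Subgroup Γ} (hp : 0 < p) (hpA : ∀ a : A, p • a = 0)
    (hL : InvA K L) (hfl : FLen K L ⊤) (hfs : ∀ s : A, FLen (K ⊓ st Γ s) L ⊤) :
    {L' : AddSubgroup A | MinOver K L L'}.Finite := by
  classical
  obtain ⟨N, h, hN, hlt⟩ := hfl
  -- the subgroups `C` with finitely many minimal ones inside
  let Q : AddSubgroup A → Prop := fun C =>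
    InvA K C ∧ L ≤ C ∧ {L' : AddSubgroup A | MinOver K L L' ∧ L' ≤ C}.Finite
  have hQL : Q L := by
    refine ⟨hL, le_rfl, ?_⟩
    convert Set.finite_empty
    ext L'
    simp only [Set.mem_ofPred_eq, Set.mem_empty_iff_false, iff_false, not_and]
    intro h1 h2
    exact absurd h1.lt (not_lt_of_ge h2)
  have hmax : ∃ C, Q C ∧ ∀ C', Q C' → h C' ≤ h C := by
    have hne : ({n | ∃ C, Q C ∧ h C = n} : Set ℕ).Nonempty := ⟨h L, L, hQL, rfl⟩
    have hbd : BddAbove ({n | ∃ C, Q C ∧ h C = n} : Set ℕ) :=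
      ⟨N, by rintro n ⟨C, _, rfl⟩; exact hN C⟩
    obtain ⟨C, hC, hCn⟩ := Nat.sSup_mem hne hbd
    refine ⟨C, hC, fun C' hC' => ?_⟩
    rw [hCn]
    exact le_csSup hbd ⟨C', hC', rfl⟩
  obtain ⟨C, ⟨hC, hLC, hCf⟩, hCmax⟩ := hmax
  have hall : ∀ S, MinOver K L S → S ≤ C := by
    intro S hS
    by_contra hSC
    have hQ : Q (C ⊔ S) := by
      refine ⟨inv_sup hC hS.inv, hLC.trans le_sup_left, ?_⟩
      refine (hCf.union (fs_fin hp hpA hL hC hLC hS hSC hfs)).subset ?_
      intro L' hL'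
      by_cases h1 : L' ≤ C
      · exact Or.inl ⟨hL'.1, h1⟩
      · exact Or.inr ⟨hL'.1, hL'.2, h1⟩
    have h2 : C < C ⊔ S := lt_of_le_of_ne le_sup_left (fun h3 => hSC (sup_eq_left.1 h3.symm))
    exact absurd (hlt C (C ⊔ S) hC (inv_sup hC hS.inv) hLC h2 le_top)
      (not_lt_of_ge (hCmax _ hQ))
  exact hCf.subset (fun S hS => ⟨hS, hall S hS⟩)

/-- (FS) -/
theorem finSub (hp : 0 < p) (hpA : ∀ a : A, p • a = 0) {K : Subgroup Γ} (hK : Op Ω K)
    (hst : ∀ a : A, Op Ω (st Γ a))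
    (hfl : ∀ U : Subgroup Γ, Op Ω U → FLen U (⊥ : AddSubgroup A) ⊤) :
    {M : AddSubgroup A | InvA K M}.Finite := by
  classical
  have hfl0 := hfl K hK
  obtain ⟨N, h, hN, hlt⟩ := hfl0
  have key : ∀ n : ℕ, ∀ L : AddSubgroup A, InvA K L → N - h L ≤ n →
      {M : AddSubgroup A | InvA K M ∧ L ≤ M}.Finite := by
    intro n
    induction n with
    | zero =>
      intro L hL hn
      refine (Set.finite_singleton L).subset ?_
      rintro M ⟨hM, hLM⟩
      by_contra hne
      have hlt' : L < M := lt_of_le_of_ne hLM (fun h => hne h.symm)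
      have h1 := hlt L M hL hM bot_le hlt' le_top
      have h2 := hN M
      omega
    | succ n ih =>
      intro L hL hn
      have hfin : {L' : AddSubgroup A | MinOver K L L'}.Finite :=
        fs_min hp hpA hL ((hfl K hK).mono bot_le le_rfl)
          (fun s => (hfl _ (op_inf hK (hst s))).mono bot_le le_rfl)
      have hU : (⋃ L' ∈ {L' : AddSubgroup A | MinOver K L L'},
          {M : AddSubgroup A | InvA K M ∧ L' ≤ M}).Finite := by
        refine hfin.biUnion (fun L' hL' => ih L' hL'.inv ?_)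
        have h1 := hlt L L' hL hL'.inv bot_le hL'.lt le_top
        omega
      refine ((Set.finite_singleton L).union hU).subset ?_
      rintro M ⟨hM, hLM⟩
      by_cases hne : M = L
      · exact Or.inl hne
      · have hlt' : L < M := lt_of_le_of_ne hLM (fun h => hne h.symm)
        obtain ⟨S, hS, hSM⟩ := FLen.exists_min (((hfl K hK).mono bot_le le_top)) hM hlt'
        refine Or.inr ?_
        simp only [Set.mem_iUnion]
        exact ⟨S, hS, hM, hSM⟩
  have h1 := key (N - h ⊥) ⊥ inv_bot le_rfl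
  simpa using h1

end Pool.Agent.Lib.ThC.GL

end
end

section

section

/-! # G2: definitions for the group of increasing permutations of `ℚ` fixing `A` -/

set_option autoImplicit false
open scoped Pointwise

namespace Pool.Agent.Lib.ThC.GL
/-- increasing permutations of `ℚ` fixing the finite set `A` pointwise. -/
def AutQ (A : Finset ℚ) : Subgroup (Equiv.Perm ℚ) where
  carrier := {σ | StrictMono σ ∧ ∀ a ∈ A, σ a = a}
  one_mem' := ⟨fun _ _ h => h, fun _ _ => rfl⟩
  mul_mem' := fun {σ τ} hσ hτ => ⟨fun _ _ h => hσ.1 (hτ.1 h), fun a ha => by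
    rw [Equiv.Perm.mul_apply, hτ.2 a ha, hσ.2 a ha]⟩
  inv_mem' := fun {σ} hσ => ⟨fun x y h => by
    rcases lt_trichotomy (σ⁻¹ x) (σ⁻¹ y) with h1 | h1 | h1
    · exact h1
    · exact absurd (σ⁻¹.injective h1) h.ne
    · have h2 := hσ.1 h1
      have e1 : σ (σ⁻¹ y) = y := σ.apply_symm_apply y
      have e2 : σ (σ⁻¹ x) = x := σ.apply_symm_apply x
      rw [e1, e2] at h2
      exact absurd h2 h.not_gt, fun a ha => by
    rw [Equiv.Perm.inv_eq_iff_eq, hσ.2 a ha]⟩

theorem mem_autQ {A : Finset ℚ} {σ : Equiv.Perm ℚ} :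
    σ ∈ AutQ A ↔ StrictMono σ ∧ ∀ a ∈ A, σ a = a := Iff.rfl

/-- `t` is an admissible lower partner of the increasing tuple `y`:
`t_0 < y_0 < t_1 < y_1 < ...`, and no point of `A` lies in any `[t_i, y_i]`. -/
structure Adm (A : Finset ℚ) {d : ℕ} (y t : Fin d → ℚ) : Prop where
  lt : ∀ i, t i < y i
  il : ∀ i j, i < j → y i < t j
  av : ∀ i, ∀ a ∈ A, a < t i ∨ y i < a

/-- replace `y_i` by `t_i` for `i ∈ e`. -/
def mix {d : ℕ} (y t : Fin d → ℚ) (e : Finset (Fin d)) : Fin d → ℚ :=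
  fun i => if i ∈ e then t i else y i

/-- the cube `∑_e (-1)^|e| [mix y t e]`. -/
noncomputable def cube (p : ℕ) {d : ℕ} (y t : Fin d → ℚ) : PM p (Fin d → ℚ) :=
  ∑ e : Finset (Fin d), (-1 : ℤ) ^ e.card • pt p (mix y t e)

/-- forget the `i`-th coordinate. -/
noncomputable def fgt (p : ℕ) {d : ℕ} (i : Fin (d + 1)) :
    PM p (Fin (d + 1) → ℚ) →+ PM p (Fin d → ℚ) :=
  mapPM p (fun y => y ∘ i.succAbove)

/-- the common kernel of the maps `fgt i`. -/
noncomputable def Kr (p d : ℕ) : AddSubgroup (PM p (Fin (d + 1) → ℚ)) :=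
  ⨅ i : Fin (d + 1), (fgt p i).ker

end Pool.Agent.Lib.ThC.GL

end

section

/-! # G2a1: homogeneity of (Q,<) -/

set_option autoImplicit false
open scoped Pointwise

namespace Pool.Agent.Lib.ThC.GL
/-- gluing two increasing permutations which agree at `m`. -/
theorem autQ_glue {σ τ : Equiv.Perm ℚ} (hσ : StrictMono σ) (hτ : StrictMono τ) {m : ℚ}
    (h : σ m = τ m) : ∃ ρ : Equiv.Perm ℚ, StrictMono ρ ∧ (∀ x, x ≤ m → ρ x = σ x) ∧
      ∀ x, m ≤ x → ρ x = τ x := by
  classical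
  let φ : ℚ → ℚ := fun x => if x ≤ m then σ x else τ x
  have hle : ∀ x, x ≤ m → φ x = σ x := fun x hx => if_pos hx
  have hgt : ∀ x, m < x → φ x = τ x := fun x hx => if_neg (not_le.2 hx)
  have hmono : StrictMono φ := by
    intro x y hxy
    rcases le_or_gt y m with hy | hy
    · rw [hle y hy, hle x (hxy.le.trans hy)]
      exact hσ hxy
    · rw [hgt y hy]
      rcases le_or_gt x m with hx | hx
      · rw [hle x hx]
        calc σ x ≤ σ m := hσ.monotone hx
          _ = τ m := h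
          _ < τ y := hτ hy
      · rw [hgt x hx]
        exact hτ hxy
  have hsurj : Function.Surjective φ := by
    intro y
    rcases le_or_gt y (σ m) with hy | hy
    · refine ⟨σ.symm y, ?_⟩
      have h1 : σ.symm y ≤ m := by
        rw [← hσ.le_iff_le, Equiv.apply_symm_apply]
        exact hy
      rw [hle _ h1, Equiv.apply_symm_apply]
    · refine ⟨τ.symm y, ?_⟩
      have h1 : m < τ.symm y := by
        rw [← hτ.lt_iff_lt, Equiv.apply_symm_apply, ← h]
        exact hy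
      rw [hgt _ h1, Equiv.apply_symm_apply]
  refine ⟨Equiv.ofBijective φ ⟨hmono.injective, hsurj⟩, hmono, fun x hx => hle x hx,
    fun x hx => ?_⟩
  rcases hx.eq_or_lt with rfl | hx
  · exact (hle m le_rfl).trans h
  · exact hgt x hx

/-- homogeneity: induction on `s` (`Finset.induction_on_max`): glue at the maximum of the rest
with an affine map. -/
theorem autQ_ext (s : Finset ℚ) (f : ℚ → ℚ) (hf : StrictMonoOn f (s : Set ℚ)) :
    ∃ σ : Equiv.Perm ℚ, StrictMono σ ∧ ∀ x ∈ s, σ x = f x := by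
  classical
  induction s using Finset.induction_on_max with
  | empty => exact ⟨1, fun _ _ h => h, fun x hx => absurd hx (Finset.notMem_empty x)⟩
  | insert a s hs ih =>
    obtain ⟨σ, hσ, hσs⟩ := ih (hf.mono (by
      intro x hx
      exact Finset.mem_coe.2 (Finset.mem_insert_of_mem (Finset.mem_coe.1 hx))))
    rcases s.eq_empty_or_nonempty with rfl | hne
    · refine ⟨Equiv.addRight (f a - a), fun x y h => ?_, fun x hx => ?_⟩
      · simpa using h
      · simp only [insert_empty_eq, Finset.mem_singleton] at hx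
        subst hx
        simp
    · have hm := s.max'_mem hne
      have hma : s.max' hne < a := hs _ hm
      have hfm : f (s.max' hne) < f a := hf
        (Finset.mem_coe.2 (Finset.mem_insert_of_mem hm))
        (Finset.mem_coe.2 (Finset.mem_insert_self a s)) hma
      have hc : 0 < (f a - f (s.max' hne)) / (a - s.max' hne) :=
        div_pos (sub_pos.2 hfm) (sub_pos.2 hma)
      generalize hm' : s.max' hne = m at *
      generalize hc' : (f a - f m) / (a - m) = c at *
      have hmul : c * (a - m) = f a - f m := by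
        rw [← hc', div_mul_cancel₀ _ (sub_pos.2 hma).ne']
      let τ : Equiv.Perm ℚ :=
        { toFun := fun x => f m + c * (x - m)
          invFun := fun y => (y - f m) / c + m
          left_inv := fun x => by
            have := hc.ne'
            field_simp
            ring
          right_inv := fun x => by
            have := hc.ne'
            field_simp
            ring }
      have hτ : StrictMono τ := by
        intro x y hxy
        show f m + c * (x - m) < f m + c * (y - m)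
        have := mul_lt_mul_of_pos_left (sub_lt_sub_right hxy m) hc
        linarith
      have hστ : σ m = τ m := by
        rw [hσs m hm]
        show f m = f m + c * (m - m)
        ring
      obtain ⟨ρ, hρ, hρ1, hρ2⟩ := autQ_glue hσ hτ hστ
      refine ⟨ρ, hρ, fun x hx => ?_⟩
      rcases Finset.mem_insert.1 hx with rfl | hx
      · rw [hρ2 x hma.le]
        show f m + c * (x - m) = f x
        rw [hmul]
        ring
      · rw [hρ1 x (by rw [← hm']; exact s.le_max' x hx), hσs x hx]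

end Pool.Agent.Lib.ThC.GL

end

section

/-! # G2a2: homogeneity of (Q,<), 2 -/

set_option autoImplicit false
open scoped Pointwise

namespace Pool.Agent.Lib.ThC.GL
/-- two finite families with the same order relations, also with the points of `A`, are
conjugate under `AutQ A` (`autQ_ext` for `s = A ∪ range z`, `f (z i) = z' i`, `f a = a`). -/
theorem autQ_conj {ι : Type} [Finite ι] (A : Finset ℚ) (z z' : ι → ℚ)
    (h1 : ∀ i j, z i < z j ↔ z' i < z' j)
    (h2 : ∀ i, ∀ a ∈ A, (z i < a ↔ z' i < a) ∧ (a < z i ↔ a < z' i)) :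
    ∃ g ∈ AutQ A, ∀ i, g (z i) = z' i := by
  classical
  have := Fintype.ofFinite ι
  have hwd : ∀ i j, z i = z j → z' i = z' j := by
    intro i j h
    refine le_antisymm (not_lt.1 fun h' => ?_) (not_lt.1 fun h' => ?_)
    · exact absurd h (ne_of_gt ((h1 j i).2 h'))
    · exact absurd h (ne_of_lt ((h1 i j).2 h'))
  let f : ℚ → ℚ := fun q => if h : ∃ i, z i = q then z' h.choose else q
  have hfz : ∀ i, f (z i) = z' i := by
    intro i
    have h : ∃ j, z j = z i := ⟨i, rfl⟩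
    show (if h : ∃ j, z j = z i then z' h.choose else z i) = z' i
    rw [dif_pos h]
    exact hwd _ _ h.choose_spec
  have hfa : ∀ a ∈ A, f a = a := by
    intro a ha
    by_cases h : ∃ i, z i = a
    · obtain ⟨i, hi⟩ := h
      rw [← hi, hfz]
      have h3 := h2 i a ha
      rw [hi] at h3 ⊢
      refine le_antisymm (not_lt.1 fun h' => ?_) (not_lt.1 fun h' => ?_)
      · exact lt_irrefl _ (h3.2.2 h')
      · exact lt_irrefl _ (h3.1.2 h')
    · show (if h : ∃ j, z j = a then z' h.choose else a) = a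
      rw [dif_neg h]
  have hmono : StrictMonoOn f ((A ∪ Finset.univ.image z : Finset ℚ) : Set ℚ) := by
    intro p hp q hq hpq
    rw [Finset.mem_coe, Finset.mem_union, Finset.mem_image] at hp hq
    rcases hp with hp | ⟨i, -, rfl⟩
    · rcases hq with hq | ⟨j, -, rfl⟩
      · rw [hfa p hp, hfa q hq]
        exact hpq
      · rw [hfa p hp, hfz]
        exact (h2 j p hp).2.1 hpq
    · rcases hq with hq | ⟨j, -, rfl⟩
      · rw [hfa q hq, hfz]
        exact (h2 i q hq).1.1 hpq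
      · rw [hfz, hfz]
        exact (h1 i j).1 hpq
  obtain ⟨σ, hσ, hσs⟩ := autQ_ext _ f hmono
  refine ⟨σ, ⟨hσ, fun a ha => ?_⟩, fun i => ?_⟩
  · rw [hσs a (Finset.mem_union_left _ ha), hfa a ha]
  · rw [hσs (z i) (Finset.mem_union_right _ (Finset.mem_image_of_mem _ (Finset.mem_univ i))), hfz]

/-- finitely many orbits on tuples: by `autQ_conj` the orbit is determined by finitely many
truth values. -/
theorem autQ_fo (A : Finset ℚ) (n : ℕ) :
    ∃ F : Finset (Fin n → ℚ), ∀ z, ∃ f ∈ F, z ∈ orb (AutQ A) f := by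
  classical
  let φ : (Fin n → ℚ) → (Fin n → Fin n → Prop) × (Fin n → ↥A → Prop × Prop) := fun z =>
    (fun i j => z i < z j, fun i a => (z i < a, (a : ℚ) < z i))
  have hfin : Fintype (Set.range φ) := Fintype.ofFinite _
  refine ⟨Finset.univ.image (fun c : Set.range φ => Classical.choose c.2), fun z => ?_⟩
  have hz := Classical.choose_spec (⟨φ z, z, rfl⟩ : Set.range φ).2
  refine ⟨_, Finset.mem_image_of_mem _ (Finset.mem_univ (⟨φ z, z, rfl⟩ : Set.range φ)), ?_⟩
  generalize (Classical.choose (⟨φ z, z, rfl⟩ : Set.range φ).2) = w at hz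
  have hz1 : ∀ i j, w i < w j ↔ z i < z j := fun i j =>
    iff_of_eq (congrFun (congrFun (congrArg Prod.fst hz) i) j)
  have hz2 : ∀ i, ∀ a ∈ A, (w i < a ↔ z i < a) ∧ (a < w i ↔ a < z i) := by
    intro i a ha
    have h := congrFun (congrFun (congrArg Prod.snd hz) i) ⟨a, ha⟩
    exact ⟨iff_of_eq (congrArg Prod.fst h), iff_of_eq (congrArg Prod.snd h)⟩
  obtain ⟨g, hg, hgz⟩ := autQ_conj A w z hz1 hz2
  exact ⟨g, hg, funext hgz⟩

end Pool.Agent.Lib.ThC.GL

end

section

/-! # G2a3: reduction to increasing tuples -/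

set_option autoImplicit false
open scoped Pointwise

namespace Pool.Agent.Lib.ThC.GL
/-- every tuple is the image of an increasing tuple of points outside `A`:
`s = (range z) \ A`, `x` = the increasing enumeration of `s` (`Finset.orderEmbOfFin`),
`θ y j = z j` if `z j ∈ A`, and `θ y j = y (index of z j in s)` otherwise. -/
theorem autQ_red (A : Finset ℚ) {n : ℕ} (z : Fin n → ℚ) :
    ∃ (d : ℕ) (x : Fin d → ℚ) (θ : (Fin d → ℚ) → (Fin n → ℚ)), StrictMono x ∧
      (∀ i, x i ∉ A) ∧ (∀ g ∈ AutQ A, ∀ y, θ (g • y) = g • θ y) ∧ θ x = z := by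
  classical
  let s : Finset ℚ := (Finset.univ.image z) \ A
  have hs : ∀ j, z j ∉ A → ∃ i, s.orderEmbOfFin rfl i = z j := by
    intro j hj
    have h1 : z j ∈ Set.range (s.orderEmbOfFin rfl) := by
      rw [Finset.range_orderEmbOfFin]
      exact Finset.mem_coe.2 (Finset.mem_sdiff.2
        ⟨Finset.mem_image_of_mem _ (Finset.mem_univ j), hj⟩)
    exact h1
  refine ⟨s.card, s.orderEmbOfFin rfl,
    fun y j => if h : z j ∈ A then z j else y (hs j h).choose, (s.orderEmbOfFin rfl).strictMono,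
    fun i => ?_, fun g hg y => ?_, ?_⟩
  · have h1 := s.orderEmbOfFin_mem rfl i
    exact (Finset.mem_sdiff.1 h1).2
  · funext j
    show (if h : z j ∈ A then z j else (g • y) (hs j h).choose) =
      g (if h : z j ∈ A then z j else y (hs j h).choose)
    by_cases h : z j ∈ A
    · rw [dif_pos h, dif_pos h]
      exact (hg.2 _ h).symm
    · rw [dif_neg h, dif_neg h]
      rfl
  · funext j
    show (if h : z j ∈ A then z j else s.orderEmbOfFin rfl (hs j h).choose) = z j
    by_cases h : z j ∈ A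
    · rw [dif_pos h]
    · rw [dif_neg h]
      exact (hs j h).choose_spec

end Pool.Agent.Lib.ThC.GL

end

section

/-! # G2b1: cubes, 1 -/

set_option autoImplicit false
open scoped Pointwise

namespace Pool.Agent.Lib.ThC.GL
variable {p : ℕ} {A : Finset ℚ} {d : ℕ}

/-- increasing tuples of points outside `A`: membership in the orbit, in terms of order. -/
theorem mem_orb_autQ {x y : Fin d → ℚ} (hx : StrictMono x) :
    y ∈ orb (AutQ A) x ↔ StrictMono y ∧
      ∀ i, ∀ a ∈ A, (x i < a ↔ y i < a) ∧ (a < x i ↔ a < y i) := by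
  constructor
  · rintro ⟨g, hg, rfl⟩
    refine ⟨fun i j hij => hg.1 (hx hij), fun i a ha => ⟨?_, ?_⟩⟩
    · have h := hg.1.lt_iff_lt (a := x i) (b := a)
      rw [hg.2 a ha] at h
      exact h.symm
    · have h := hg.1.lt_iff_lt (a := a) (b := x i)
      rw [hg.2 a ha] at h
      exact h.symm
  · rintro ⟨hy, h⟩
    obtain ⟨g, hg, hgy⟩ := autQ_conj A x y (fun i j => by rw [hx.lt_iff_lt, hy.lt_iff_lt]) h
    exact ⟨g, hg, funext hgy⟩

/-- the members of a cube are in the orbit. -/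
theorem mix_mem_orb {x y t : Fin d → ℚ} (hx : StrictMono x)
    (hy : y ∈ orb (AutQ A) x) (h : Adm A y t) (e : Finset (Fin d)) :
    mix y t e ∈ orb (AutQ A) x := by
  obtain ⟨hy1, hy2⟩ := (mem_orb_autQ hx).1 hy
  have hle : ∀ i, mix y t e i ≤ y i := by
    intro i
    unfold mix
    split_ifs
    · exact (h.lt i).le
    · exact le_rfl
  have hge : ∀ i, t i ≤ mix y t e i := by
    intro i
    unfold mix
    split_ifs
    · exact le_rfl
    · exact (h.lt i).le
  refine (mem_orb_autQ hx).2 ⟨fun i j hij => ?_, fun i a ha => ?_⟩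
  · exact lt_of_le_of_lt (hle i) (lt_of_lt_of_le (h.il i j hij) (hge j))
  · obtain ⟨h1, h2⟩ := hy2 i a ha
    rcases h.av i a ha with h3 | h3
    · have h4 : a < mix y t e i := lt_of_lt_of_le h3 (hge i)
      have h5 : a < y i := lt_of_lt_of_le h4 (hle i)
      exact ⟨⟨fun h6 => absurd (h1.1 h6) h5.not_gt, fun h6 => absurd h6 h4.not_gt⟩,
        ⟨fun _ => h4, fun _ => h2.2 h5⟩⟩
    · have h4 : mix y t e i < a := lt_of_le_of_lt (hle i) h3
      exact ⟨⟨fun _ => h4, fun _ => h1.2 h3⟩,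
        ⟨fun h6 => absurd (h2.1 h6) h3.not_gt, fun h6 => absurd h6 h4.not_gt⟩⟩

theorem cube_mem [NeZero p] {x y t : Fin d → ℚ} (hx : StrictMono x)
    (hy : y ∈ orb (AutQ A) x) (h : Adm A y t) : cube p y t ∈ PMS p (orb (AutQ A) x) := by
  unfold cube
  exact AddSubgroup.sum_mem _ (fun e _ => AddSubgroup.zsmul_mem _
    (pt_mem_pms (mix_mem_orb hx hy h e)) _)

end Pool.Agent.Lib.ThC.GL

end

section

/-! # G2b2: cubes, 2 -/

set_option autoImplicit false
open scoped Pointwise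

namespace Pool.Agent.Lib.ThC.GL
variable {p : ℕ} {A : Finset ℚ} {d : ℕ}

theorem G2b2_symm {d : ℕ} (e : Finset (Fin d)) (i : Fin d) :
    (-1 : ℤ) ^ (symmDiff e {i}).card = - (-1 : ℤ) ^ e.card := by
  classical
  by_cases h : i ∈ e
  · have e1 : symmDiff e {i} = e.erase i := by
      ext j
      simp only [Finset.mem_symmDiff, Finset.mem_singleton, Finset.mem_erase]
      constructor
      · rintro (⟨h1, h2⟩ | ⟨h1, h2⟩)
        · exact ⟨h2, h1⟩
        · exact absurd (h1 ▸ h) h2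
      · rintro ⟨h1, h2⟩
        exact Or.inl ⟨h2, h1⟩
    have e2 := Finset.card_erase_add_one h
    rw [e1, ← e2, pow_succ]
    ring
  · have e1 : symmDiff e {i} = insert i e := by
      ext j
      simp only [Finset.mem_symmDiff, Finset.mem_singleton, Finset.mem_insert]
      constructor
      · rintro (⟨h1, h2⟩ | ⟨h1, h2⟩)
        · exact Or.inr h1
        · exact Or.inl h1
      · rintro (h1 | h1)
        · subst h1
          exact Or.inr ⟨rfl, h⟩
        · exact Or.inl ⟨h1, fun h2 => h (h2 ▸ h1)⟩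
    rw [e1, Finset.card_insert_of_notMem h, pow_succ]
    ring

theorem G2b2_smul_zsmul {Γ Y : Type} [Group Γ] [MulAction Γ Y] (g : Γ) (n : ℤ) (f : PM p Y) :
    g • (n • f) = n • (g • f) := by
  exact (DistribSMul.toAddMonoidHom (PM p Y) g).map_zsmul n f

/-- forgetting `i`: the terms `e` and `e ∆ {i}` cancel. -/
theorem cube_mem_kr (y t : Fin (d + 1) → ℚ) : cube p y t ∈ Kr p d := by
  classical
  show cube p y t ∈ (⨅ i : Fin (d + 1), (fgt p i).ker : AddSubgroup _)
  rw [AddSubgroup.mem_iInf]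
  intro i
  rw [AddMonoidHom.mem_ker]
  unfold cube
  rw [map_sum]
  refine Finset.sum_involution (fun e _ => symmDiff e {i}) ?_ ?_ ?_ ?_
  · intro e _
    have h1 : (mix y t (symmDiff e {i})) ∘ i.succAbove = (mix y t e) ∘ i.succAbove := by
      funext k
      have hk : i.succAbove k ≠ i := Fin.succAbove_ne i k
      have h2 : i.succAbove k ∈ symmDiff e {i} ↔ i.succAbove k ∈ e := by
        rw [Finset.mem_symmDiff, Finset.mem_singleton]
        constructor
        · rintro (⟨h3, -⟩ | ⟨h3, -⟩)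
          · exact h3
          · exact absurd h3 hk
        · intro h3
          exact Or.inl ⟨h3, hk⟩
      show mix y t (symmDiff e {i}) (i.succAbove k) = mix y t e (i.succAbove k)
      unfold mix
      simp only [h2]
    have h3 : ∀ e : Finset (Fin (d + 1)), fgt p i ((-1 : ℤ) ^ e.card • pt p (mix y t e)) =
        (-1 : ℤ) ^ e.card • pt p ((mix y t e) ∘ i.succAbove) := by
      intro e
      rw [map_zsmul]
      congr 1
      exact mapPM_pt _ _
    rw [h3, h3, h1, G2b2_symm, neg_smul, add_neg_cancel]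
  · intro e _ _ h
    have : i ∈ symmDiff e {i} ↔ i ∈ e := by rw [h]
    rw [Finset.mem_symmDiff] at this
    simp only [Finset.mem_singleton, not_true, and_false, true_and, false_or] at this
    exact (iff_not_self this.symm)
  · intro e _
    exact Finset.mem_univ _
  · intro e _
    simp

theorem smul_cube (g : Equiv.Perm ℚ) (y t : Fin d → ℚ) :
    g • cube p y t = cube p (g • y) (g • t) := by
  unfold cube
  rw [Finset.smul_sum]
  refine Finset.sum_congr rfl (fun e _ => ?_)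
  rw [G2b2_smul_zsmul, smul_pt]
  congr 2
  funext i
  show g (mix y t e i) = mix (g • y) (g • t) e i
  unfold mix
  split_ifs <;> rfl

/-- all cubes are conjugate (`autQ_conj` for `ι = Fin d ⊕ Fin d`). -/
theorem cube_conj {x y t y' t' : Fin d → ℚ} (hx : StrictMono x)
    (hy : y ∈ orb (AutQ A) x) (hy' : y' ∈ orb (AutQ A) x)
    (h : Adm A y t) (h' : Adm A y' t') :
    ∃ g ∈ AutQ A, g • cube p y t = cube p y' t' := by
  obtain ⟨hy1, hy2⟩ := (mem_orb_autQ hx).1 hy
  obtain ⟨hy1', hy2'⟩ := (mem_orb_autQ hx).1 hy'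
  have e1 : ∀ {y t : Fin d → ℚ}, StrictMono y → Adm A y t → ∀ i j, y i < t j ↔ i < j := by
    intro y t hy h i j
    refine ⟨fun hlt => ?_, fun hlt => h.il i j hlt⟩
    by_contra hcon
    have h1 : y j ≤ y i := hy.monotone (not_lt.1 hcon)
    exact absurd hlt (not_lt.2 ((h.lt j).le.trans h1))
  have e2 : ∀ {y t : Fin d → ℚ}, StrictMono y → Adm A y t → ∀ i j, t i < y j ↔ i ≤ j := by
    intro y t hy h i j
    refine ⟨fun hlt => ?_, fun hle => lt_of_lt_of_le (h.lt i) (hy.monotone hle)⟩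
    by_contra hcon
    exact absurd hlt (not_lt.2 (h.il j i (not_le.1 hcon)).le)
  have e3 : ∀ {y t : Fin d → ℚ}, StrictMono y → Adm A y t → ∀ i j, t i < t j ↔ i < j := by
    intro y t hy h
    have hm : StrictMono t := fun i j hij => (h.lt i).trans (h.il i j hij)
    intro i j
    exact hm.lt_iff_lt
  have e4 : ∀ {y t : Fin d → ℚ}, Adm A y t → ∀ i, ∀ a ∈ A, (t i < a ↔ y i < a) ∧
      (a < t i ↔ a < y i) := by
    intro y t h i a ha
    have hlt := h.lt i
    rcases h.av i a ha with h3 | h3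
    · exact ⟨⟨fun h6 => absurd h6 h3.not_gt, fun h6 => absurd h6 (h3.trans hlt).not_gt⟩,
        ⟨fun _ => h3.trans hlt, fun _ => h3⟩⟩
    · exact ⟨⟨fun _ => h3, fun _ => hlt.trans h3⟩,
        ⟨fun h6 => absurd h6 (hlt.trans h3).not_gt, fun h6 => absurd h6 h3.not_gt⟩⟩
  obtain ⟨g, hg, hgz⟩ := autQ_conj A (Sum.elim y t) (Sum.elim y' t') (by
    rintro (i | i) (j | j)
    · simp only [Sum.elim_inl]
      rw [hy1.lt_iff_lt, hy1'.lt_iff_lt]
    · simp only [Sum.elim_inl, Sum.elim_inr]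
      rw [e1 hy1 h, e1 hy1' h']
    · simp only [Sum.elim_inl, Sum.elim_inr]
      rw [e2 hy1 h, e2 hy1' h']
    · simp only [Sum.elim_inr]
      rw [e3 hy1 h, e3 hy1' h']) (by
    rintro (i | i) a ha
    · simp only [Sum.elim_inl]
      exact ⟨(hy2 i a ha).1.symm.trans (hy2' i a ha).1,
        (hy2 i a ha).2.symm.trans (hy2' i a ha).2⟩
    · simp only [Sum.elim_inr]
      exact ⟨((e4 h i a ha).1.trans (hy2 i a ha).1.symm).trans
          ((hy2' i a ha).1.trans (e4 h' i a ha).1.symm),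
        ((e4 h i a ha).2.trans (hy2 i a ha).2.symm).trans
          ((hy2' i a ha).2.trans (e4 h' i a ha).2.symm)⟩)
  refine ⟨g, hg, ?_⟩
  rw [smul_cube]
  congr 1
  · funext i
    exact hgz (Sum.inl i)
  · funext i
    exact hgz (Sum.inr i)

end Pool.Agent.Lib.ThC.GL

end

section

/-! # G2b3: cubes, 3 -/

set_option autoImplicit false
open scoped Pointwise

namespace Pool.Agent.Lib.ThC.GL
variable {p : ℕ} {A : Finset ℚ} {d : ℕ}

theorem cf_cube_self {y t : Fin d → ℚ} (h : Adm A y t) : cf (cube p y t) y = 1 := by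
  classical
  unfold cube
  rw [cf_sum, Finset.sum_eq_single (∅ : Finset (Fin d))]
  · rw [cf_zsmul, cf_pt]
    have : mix y t ∅ = y := by
      funext i
      simp [mix]
    rw [if_pos this]
    simp
  · intro e _ he
    rw [cf_zsmul, cf_pt, if_neg, mul_zero]
    intro hcon
    obtain ⟨i, hi⟩ := Finset.nonempty_iff_ne_empty.2 he
    have h1 := congrFun hcon i
    simp only [mix, hi, if_true] at h1
    exact absurd h1 (h.lt i).ne
  · intro hcon
    exact absurd (Finset.mem_univ _) hcon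

/-- the other members of the cube are smaller. -/
theorem cf_cube_ne {y t z : Fin d → ℚ} (h : Adm A y t) (hz : cf (cube p y t) z ≠ 0) :
    (∀ i, z i = y i ∨ z i = t i) ∧ z ≤ y := by
  classical
  have h1 : ∃ e : Finset (Fin d), mix y t e = z := by
    by_contra hcon
    push Not at hcon
    refine hz ?_
    unfold cube
    rw [cf_sum]
    refine Finset.sum_eq_zero (fun e _ => ?_)
    rw [cf_zsmul, cf_pt, if_neg (hcon e), mul_zero]
  obtain ⟨e, rfl⟩ := h1
  refine ⟨fun i => ?_, fun i => ?_⟩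
  · unfold mix
    split_ifs
    · exact Or.inr rfl
    · exact Or.inl rfl
  · unfold mix
    split_ifs
    · exact (h.lt i).le
    · exact le_rfl

end Pool.Agent.Lib.ThC.GL

end

section

/-! # G2c1: moving the coordinates -/

set_option autoImplicit false
open scoped Pointwise

namespace Pool.Agent.Lib.ThC.GL
variable {p : ℕ} {A : Finset ℚ} {d : ℕ}

/-- For a finite set `F ⊇ A` (containing the `y_i`), `y` increasing with values outside `A`:
choose `t_i < y_i` so close to `y_i` that no point of `F` is in `[t_i, y_i)`.  Then for every `e`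
the map `y_i ↦ t_i` (`i ∈ e`), `q ↦ q` for the other `q ∈ F`, extends to an element of `AutQ A`
(`autQ_conj` for `ι = F`). -/
theorem exists_geps (F : Finset ℚ) (hAF : A ⊆ F) {y : Fin d → ℚ} (hy : StrictMono y)
    (hyF : ∀ i, y i ∈ F) (hyA : ∀ i, y i ∉ A) :
    ∃ t : Fin d → ℚ, Adm A y t ∧ ∀ e : Finset (Fin d), ∃ g ∈ AutQ A,
      (∀ i ∈ e, g (y i) = t i) ∧ (∀ q ∈ F, (∀ i ∈ e, q ≠ y i) → g q = q) := by
  classical
  have h0 : ∀ i, ∃ t, t < y i ∧ ∀ q ∈ F, q < y i → q < t := by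
    intro i
    obtain ⟨m, hm1, hm2⟩ := Order.exists_between_finsets (F.filter (fun q => q < y i)) {y i}
      (by
        intro q hq r hr
        rw [Finset.mem_singleton] at hr
        rw [hr]
        exact (Finset.mem_filter.1 hq).2)
    exact ⟨m, hm2 _ (Finset.mem_singleton_self _), fun q hq hqy =>
      hm1 q (Finset.mem_filter.2 ⟨hq, hqy⟩)⟩
  choose t ht1 ht2 using h0
  refine ⟨t, ⟨ht1, fun i j hij => ht2 j _ (hyF i) (hy hij), fun i a ha => ?_⟩, fun e => ?_⟩
  · rcases lt_trichotomy a (y i) with h | h | h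
    · exact Or.inl (ht2 i a (hAF ha) h)
    · exact absurd (h ▸ ha) (hyA i)
    · exact Or.inr h
  · let φ : ↥F → ℚ := fun q => if h : ∃ i ∈ e, (q : ℚ) = y i then t h.choose else q
    have hφ1 : ∀ q : ↥F, φ q ≤ q := by
      intro q
      show (if h : ∃ i ∈ e, (q : ℚ) = y i then t h.choose else (q : ℚ)) ≤ q
      split_ifs with h
      · have h2 := h.choose_spec.2
        calc t h.choose ≤ y h.choose := (ht1 _).le
          _ = q := h2.symm
      · exact le_rfl
    have hφ2 : ∀ q r : ↥F, (r : ℚ) < q → (r : ℚ) < φ q := by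
      intro q r hrq
      show (r : ℚ) < (if h : ∃ i ∈ e, (q : ℚ) = y i then t h.choose else (q : ℚ))
      split_ifs with h
      · have h2 := h.choose_spec.2
        exact ht2 _ _ r.2 (by rw [← h2]; exact hrq)
      · exact hrq
    have hφm : ∀ q r : ↥F, (q : ℚ) < r ↔ φ q < φ r := by
      intro q r
      refine ⟨fun h => lt_of_le_of_lt (hφ1 q) (hφ2 r q h), fun h => ?_⟩
      by_contra hcon
      rcases (not_lt.1 hcon).eq_or_lt with h1 | h1
      · have : r = q := Subtype.ext h1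
        rw [this] at h
        exact lt_irrefl _ h
      · exact absurd h (lt_of_le_of_lt (hφ1 r) (hφ2 q r h1)).not_gt
    have hφe : ∀ (i : Fin d), i ∈ e → φ ⟨y i, hyF i⟩ = t i := by
      intro i hi
      have h : ∃ j ∈ e, y i = y j := ⟨i, hi, rfl⟩
      show (if h : ∃ j ∈ e, y i = y j then t h.choose else y i) = t i
      rw [dif_pos h]
      have h2 := hy.injective h.choose_spec.2
      rw [← h2]
    have hφne : ∀ q : ↥F, (∀ i ∈ e, (q : ℚ) ≠ y i) → φ q = q := by
      intro q hq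
      show (if h : ∃ i ∈ e, (q : ℚ) = y i then t h.choose else (q : ℚ)) = q
      rw [dif_neg]
      rintro ⟨i, hi, h⟩
      exact hq i hi h
    have hφa : ∀ (a : ℚ) (ha : a ∈ A), φ ⟨a, hAF ha⟩ = a := by
      intro a ha
      exact hφne ⟨a, hAF ha⟩ (fun i _ h => hyA i (h ▸ ha))
    obtain ⟨g, hg, hgz⟩ := autQ_conj A (fun q : ↥F => (q : ℚ)) φ hφm (fun q a ha => by
      have h1 := hφm q ⟨a, hAF ha⟩
      have h2 := hφm ⟨a, hAF ha⟩ q
      rw [hφa a ha] at h1 h2
      exact ⟨h1, h2⟩)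
    refine ⟨g, hg, fun i hi => ?_, fun q hq hqe => ?_⟩
    · rw [← hφe i hi]
      exact hgz ⟨y i, hyF i⟩
    · have := hgz ⟨q, hq⟩
      rw [hφne ⟨q, hq⟩ hqe] at this
      exact this

end Pool.Agent.Lib.ThC.GL

end

section

/-! # G2c2: the alternating sum -/

set_option autoImplicit false
open scoped Pointwise

namespace Pool.Agent.Lib.ThC.GL
variable {p : ℕ} {A : Finset ℚ} {d : ℕ}

theorem G2c2_symm {d : ℕ} (e : Finset (Fin d)) (i : Fin d) :
    (-1 : ℤ) ^ (symmDiff e {i}).card = - (-1 : ℤ) ^ e.card := by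
  classical
  by_cases h : i ∈ e
  · have e1 : symmDiff e {i} = e.erase i := by
      ext j
      simp only [Finset.mem_symmDiff, Finset.mem_singleton, Finset.mem_erase]
      constructor
      · rintro (⟨h1, h2⟩ | ⟨h1, h2⟩)
        · exact ⟨h2, h1⟩
        · exact absurd (h1 ▸ h) h2
      · rintro ⟨h1, h2⟩
        exact Or.inl ⟨h2, h1⟩
    have e2 := Finset.card_erase_add_one h
    rw [e1, ← e2, pow_succ]
    ring
  · have e1 : symmDiff e {i} = insert i e := by
      ext j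
      simp only [Finset.mem_symmDiff, Finset.mem_singleton, Finset.mem_insert]
      constructor
      · rintro (⟨h1, h2⟩ | ⟨h1, h2⟩)
        · exact Or.inr h1
        · exact Or.inl h1
      · rintro (h1 | h1)
        · subst h1
          exact Or.inr ⟨rfl, h⟩
        · exact Or.inl ⟨h1, fun h2 => h (h2 ▸ h1)⟩
    rw [e1, Finset.card_insert_of_notMem h, pow_succ]
    ring

theorem G2c2_smul_nsmul {Γ Y : Type} [Group Γ] [MulAction Γ Y] (g : Γ) (n : ℕ) (f : PM p Y) :
    g • (n • f) = n • (g • f) := by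
  exact (DistribSMul.toAddMonoidHom (PM p Y) g).map_nsmul n f

/-- With `F ∋` all coordinates of members of the support of `v`, and `g_e` from `exists_geps`:
`∑_e (-1)^|e| g_e • v = (cf v y) cube y t`.  For a member `z` of the support which does not have
`y_i` as a coordinate, `g_{e ∪ i} • z = g_e • z`, so the terms cancel; an increasing `z` having
all the `y_i` as coordinates is `y`, and `g_e • y = mix y t e`. -/
theorem sum_geps {x y t : Fin d → ℚ} (hx : StrictMono x)
    {v : PM p (Fin d → ℚ)} (hv : v ∈ PMS p (orb (AutQ A) x)) (hy : y ∈ sp v)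
    (F : Finset ℚ) (hF : ∀ z ∈ sp v, ∀ i, z i ∈ F)
    (g : Finset (Fin d) → Equiv.Perm ℚ) (hg : ∀ e, ∀ i ∈ e, g e (y i) = t i)
    (hg' : ∀ e, ∀ q ∈ F, (∀ i ∈ e, q ≠ y i) → g e q = q) [NeZero p] :
    ∑ e : Finset (Fin d), (-1 : ℤ) ^ e.card • (g e • v) = (cf v y).val • cube p y t := by
  classical
  have hstr : ∀ z ∈ sp v, StrictMono z := by
    intro z hz
    exact ((mem_orb_autQ hx).1 (mem_pms.1 hv z (mem_sp.1 hz))).1
  -- the inner sums
  have inner_ne : ∀ z ∈ sp v, z ≠ y →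
      ∑ e : Finset (Fin d), (-1 : ℤ) ^ e.card • pt p (g e • z) = 0 := by
    intro z hz hzy
    have hi : ∃ i, ∀ k, z k ≠ y i := by
      by_contra hcon
      push Not at hcon
      choose k hk using hcon
      have hkm : StrictMono k := by
        intro i j hij
        have h1 : z (k i) < z (k j) := by
          rw [hk, hk]
          exact hstr y hy hij
        exact (hstr z hz).lt_iff_lt.1 h1
      have hks : Function.Surjective k := Finite.surjective_of_injective hkm.injective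
      refine hzy (((hstr z hz).range_inj (hstr y hy)).1 ?_)
      ext q
      constructor
      · rintro ⟨j, rfl⟩
        obtain ⟨i, rfl⟩ := hks j
        exact ⟨i, (hk i).symm⟩
      · rintro ⟨i, rfl⟩
        exact ⟨k i, hk i⟩
    obtain ⟨i, hi⟩ := hi
    have hact : ∀ e : Finset (Fin d), g (symmDiff e {i}) • z = g e • z := by
      intro e
      funext k
      show g (symmDiff e {i}) (z k) = g e (z k)
      by_cases h : ∃ j ∈ e, z k = y j
      · obtain ⟨j, hj, hkj⟩ := h
        have hji : j ≠ i := by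
          rintro rfl
          exact hi k hkj
        have hj' : j ∈ symmDiff e {i} := by
          rw [Finset.mem_symmDiff]
          exact Or.inl ⟨hj, fun h => hji (Finset.mem_singleton.1 h)⟩
        rw [hkj, hg _ j hj', hg e j hj]
      · push Not at h
        rw [hg' e (z k) (hF z hz k) h, hg' (symmDiff e {i}) (z k) (hF z hz k)]
        intro j hj
        rw [Finset.mem_symmDiff] at hj
        rcases hj with ⟨hj, -⟩ | ⟨hj, -⟩
        · exact h j hj
        · rw [Finset.mem_singleton] at hj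
          rw [hj]
          exact hi k
    refine Finset.sum_involution (fun e _ => symmDiff e {i}) ?_ ?_ ?_ ?_
    · intro e _
      rw [hact, G2c2_symm, neg_smul, add_neg_cancel]
    · intro e _ _ h
      have : i ∈ symmDiff e {i} ↔ i ∈ e := by rw [h]
      rw [Finset.mem_symmDiff] at this
      simp only [Finset.mem_singleton, not_true, and_false, true_and, false_or] at this
      exact (iff_not_self this.symm)
    · intro e _
      exact Finset.mem_univ _
    · intro e _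
      simp
  have inner_eq : ∑ e : Finset (Fin d), (-1 : ℤ) ^ e.card • pt p (g e • y) = cube p y t := by
    unfold cube
    refine Finset.sum_congr rfl (fun e _ => ?_)
    have : g e • y = mix y t e := by
      funext i
      show g e (y i) = mix y t e i
      unfold mix
      split_ifs with h
      · exact hg e i h
      · refine hg' e (y i) (hF y hy i) (fun j hj hij => ?_)
        have := (hstr y hy).injective hij
        exact h (this ▸ hj)
    rw [this]
  calc ∑ e : Finset (Fin d), (-1 : ℤ) ^ e.card • (g e • v)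
      = ∑ e : Finset (Fin d), ∑ z ∈ sp v, (cf v z).val • ((-1 : ℤ) ^ e.card • pt p (g e • z)) := by
        refine Finset.sum_congr rfl (fun e _ => ?_)
        conv_lhs => rw [pm_sum v]
        rw [Finset.smul_sum, Finset.smul_sum]
        refine Finset.sum_congr rfl (fun z _ => ?_)
        rw [G2c2_smul_nsmul, smul_pt, smul_comm]
    _ = ∑ z ∈ sp v, (cf v z).val • ∑ e : Finset (Fin d), (-1 : ℤ) ^ e.card • pt p (g e • z) := by
        rw [Finset.sum_comm]
        refine Finset.sum_congr rfl (fun z _ => ?_)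
        rw [Finset.smul_sum]
    _ = (cf v y).val • ∑ e : Finset (Fin d), (-1 : ℤ) ^ e.card • pt p (g e • y) := by
        refine Finset.sum_eq_single y ?_ ?_
        · intro z hz hzy
          rw [inner_ne z hz hzy, smul_zero]
        · intro h
          exact absurd hy h
    _ = _ := by rw [inner_eq]

end Pool.Agent.Lib.ThC.GL

end

section

/-! # G2c3: every nonzero element generates a cube -/

set_option autoImplicit false
open scoped Pointwise

namespace Pool.Agent.Lib.ThC.GL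
variable {p : ℕ} {A : Finset ℚ} {d : ℕ}

/-- every nonzero `v` generates a cube (`p` prime: multiply by the inverse of `cf v y`). -/
theorem gen_cube [Fact p.Prime] {x : Fin d → ℚ} (hx : StrictMono x) (hxA : ∀ i, x i ∉ A)
    {X : AddSubgroup (PM p (Fin d → ℚ))} (hX : InvA (AutQ A) X) {v : PM p (Fin d → ℚ)}
    (hvX : v ∈ X) (hv0 : v ≠ 0) (hv : v ∈ PMS p (orb (AutQ A) x)) :
    ∃ y t, y ∈ orb (AutQ A) x ∧ Adm A y t ∧ cube p y t ∈ X := by
  classical
  have hne : ∃ y, y ∈ sp v := by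
    by_contra hcon
    push Not at hcon
    refine hv0 (pm_ext (fun y => ?_))
    rw [cf_zero]
    by_contra h
    exact hcon y (mem_sp.2 h)
  obtain ⟨y, hy⟩ := hne
  have hyo : y ∈ orb (AutQ A) x := mem_pms.1 hv y (mem_sp.1 hy)
  have hyo' := (mem_orb_autQ hx).1 hyo
  let F : Finset ℚ := A ∪ (sp v).biUnion (fun z => Finset.univ.image z)
  have hF : ∀ z ∈ sp v, ∀ i, z i ∈ F := by
    intro z hz i
    refine Finset.mem_union_right _ (Finset.mem_biUnion.2 ⟨z, hz, ?_⟩)
    exact Finset.mem_image_of_mem _ (Finset.mem_univ i)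
  have hyA : ∀ i, y i ∉ A := by
    intro i hi
    have h1 := hyo'.2 i (y i) hi
    have h2 : ¬ x i < y i := fun h => lt_irrefl _ (h1.1.1 h)
    have h3 : ¬ y i < x i := fun h => lt_irrefl _ (h1.2.1 h)
    have h4 : x i = y i := le_antisymm (not_lt.1 h3) (not_lt.1 h2)
    exact hxA i (h4 ▸ hi)
  obtain ⟨t, ht, hgt⟩ := exists_geps F Finset.subset_union_left hyo'.1 (hF y hy) hyA
  choose g hgA hg hg' using hgt
  have hsum := sum_geps (A := A) hx hv hy F hF g hg hg'
  refine ⟨y, t, hyo, ht, ?_⟩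
  have h1 : (cf v y).val • cube p y t ∈ X := by
    rw [← hsum]
    refine AddSubgroup.sum_mem _ (fun e _ => AddSubgroup.zsmul_mem _ (hX (g e) (hgA e) v hvX) _)
  have h2 : ((cf v y)⁻¹).val • ((cf v y).val • cube p y t) = cube p y t := by
    refine pm_ext (fun z => ?_)
    rw [cf_nsmul, cf_nsmul, ← mul_assoc, ZMod.natCast_zmod_val, ZMod.natCast_zmod_val,
      inv_mul_cancel₀ (mem_sp.1 hy), one_mul]
  rw [← h2]
  exact AddSubgroup.nsmul_mem _ h1 _

end Pool.Agent.Lib.ThC.GL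

end

section

/-! # G2d1: admissible partner of the maximal member -/

set_option autoImplicit false
open scoped Pointwise

namespace Pool.Agent.Lib.ThC.GL
variable {p : ℕ} {A : Finset ℚ} {d : ℕ}

/-- If `v ≠ 0` is in the kernel, and `y` is the member of its support which is maximal for the
lexicographic order (`toLex`), there is `t` with `Adm A y t`, with coordinates occurring in
members of the support of `v`: `v` is killed by forgetting `i`, so there is another member `z` of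
the support with the same other coordinates; `z_i < y_i` by maximality; `t_i = z_i`. -/
theorem exists_adm {x : Fin (d + 1) → ℚ} (hx : StrictMono x)
    {v : PM p (Fin (d + 1) → ℚ)} (hv : v ∈ PMS p (orb (AutQ A) x)) (hk : v ∈ Kr p d)
    {y : Fin (d + 1) → ℚ} (hy : y ∈ sp v) (hmax : ∀ z ∈ sp v, toLex z ≤ toLex y) :
    ∃ t : Fin (d + 1) → ℚ, Adm A y t ∧ ∀ i, ∃ z ∈ sp v, t i = z i := by
  classical
  have hmem : ∀ z ∈ sp v, z ∈ orb (AutQ A) x := fun z hz => mem_pms.1 hv z (mem_sp.1 hz)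
  have key : ∀ i : Fin (d + 1), ∃ z ∈ sp v, (∀ j, j ≠ i → z j = y j) ∧ z i < y i := by
    intro i
    have hki : fgt p i v = 0 := by
      have h1 : v ∈ (⨅ i : Fin (d + 1), (fgt p i).ker : AddSubgroup _) := hk
      rw [AddSubgroup.mem_iInf] at h1
      exact AddMonoidHom.mem_ker.1 (h1 i)
    have hsum := cf_mapPM (p := p) (fun y : Fin (d + 1) → ℚ => y ∘ i.succAbove) v
      (y ∘ i.succAbove)
    have hz0 : cf (mapPM p (fun y : Fin (d + 1) → ℚ => y ∘ i.succAbove) v) (y ∘ i.succAbove) = 0 := by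
      have h2 : mapPM p (fun y : Fin (d + 1) → ℚ => y ∘ i.succAbove) v = 0 := hki
      rw [h2, cf_zero]
    rw [hz0] at hsum
    have hz : ∃ z ∈ sp v, z ∘ i.succAbove = y ∘ i.succAbove ∧ z ≠ y := by
      by_contra hcon
      push Not at hcon
      have h3 : (sp v).filter (fun z => z ∘ i.succAbove = y ∘ i.succAbove) = {y} := by
        ext z
        rw [Finset.mem_filter, Finset.mem_singleton]
        constructor
        · rintro ⟨h4, h5⟩
          exact hcon z h4 h5
        · rintro rfl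
          exact ⟨hy, rfl⟩
      rw [h3, Finset.sum_singleton] at hsum
      exact mem_sp.1 hy hsum.symm
    obtain ⟨z, hz, hzi, hzy⟩ := hz
    have hne : ∀ j, j ≠ i → z j = y j := by
      intro j hj
      obtain ⟨k, rfl⟩ := Fin.exists_succAbove_eq hj
      exact congrFun hzi k
    refine ⟨z, hz, hne, ?_⟩
    have hii : z i ≠ y i := by
      intro h
      refine hzy (funext fun j => ?_)
      by_cases hj : j = i
      · rw [hj, h]
      · exact hne j hj
    rcases lt_or_gt_of_ne hii with h | h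
    · exact h
    · exfalso
      have h6 : toLex y < toLex z := ⟨i, fun j hj => (hne j hj.ne).symm, h⟩
      exact absurd (hmax z hz) (not_le.2 h6)
  choose w hw hwne hwlt using key
  have hstr : ∀ z ∈ sp v, StrictMono z := fun z hz => ((mem_orb_autQ hx).1 (hmem z hz)).1
  refine ⟨fun i => w i i, ⟨hwlt, ?_, ?_⟩, fun i => ⟨w i, hw i, rfl⟩⟩
  · intro i j hij
    rw [← hwne j i hij.ne]
    exact hstr _ (hw j) hij
  · intro i a ha
    by_contra hcon
    push Not at hcon
    obtain ⟨h1, h2⟩ := hcon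
    have hz := ((mem_orb_autQ hx).1 (hmem _ (hw i))).2 i a ha
    have hy' := ((mem_orb_autQ hx).1 (hmem _ hy)).2 i a ha
    have h3 : ¬ a < x i := fun h => absurd (hz.2.1 h) (not_lt.2 h1)
    have h4 : ¬ x i < a := fun h => absurd (hy'.1.1 h) (not_lt.2 h2)
    have h5 : ¬ w i i < a := fun h => h4 (hz.1.2 h)
    have h6 : ¬ a < y i := fun h => h3 (hy'.2.2 h)
    have := hwlt i
    exact absurd (lt_of_lt_of_le this (not_lt.1 h6)) h5

end Pool.Agent.Lib.ThC.GL

end

section

/-! # G2d2: the kernel is generated by cubes -/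

set_option autoImplicit false
open scoped Pointwise

namespace Pool.Agent.Lib.ThC.GL
variable {p : ℕ} {A : Finset ℚ} {d : ℕ}

/-- Induction: `v - (cf v y) cube y t` has coordinates in the same finite set and a smaller
lexicographic maximum. -/
theorem cube_span [NeZero p] {x : Fin (d + 1) → ℚ} (hx : StrictMono x)
    {v : PM p (Fin (d + 1) → ℚ)} (hv : v ∈ PMS p (orb (AutQ A) x)) (hk : v ∈ Kr p d) :
    v ∈ AddSubgroup.closure
      {c | ∃ y t : Fin (d + 1) → ℚ, y ∈ orb (AutQ A) x ∧ Adm A y t ∧ c = cube p y t} := by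
  classical
  let F : Finset ℚ := (sp v).biUnion (fun z => Finset.univ.image z)
  let P : Finset (Fin (d + 1) → ℚ) := Fintype.piFinset (fun _ => F)
  let S : Set (PM p (Fin (d + 1) → ℚ)) :=
    {c | ∃ y t : Fin (d + 1) → ℚ, y ∈ orb (AutQ A) x ∧ Adm A y t ∧ c = cube p y t}
  have main : ∀ (n : ℕ) (v : PM p (Fin (d + 1) → ℚ)), v ∈ PMS p (orb (AutQ A) x) →
      v ∈ Kr p d → (∀ z ∈ sp v, z ∈ P) →
      (P.filter (fun z => ∃ w ∈ sp v, toLex z ≤ toLex w)).card ≤ n →
      v ∈ AddSubgroup.closure S := by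
    intro n
    induction n with
    | zero =>
      intro v hv hk hP hn
      have hv0 : v = 0 := by
        refine pm_ext (fun z => ?_)
        rw [cf_zero]
        by_contra h
        have hz : z ∈ P.filter (fun z => ∃ w ∈ sp v, toLex z ≤ toLex w) :=
          Finset.mem_filter.2 ⟨hP z (mem_sp.2 h), z, mem_sp.2 h, le_rfl⟩
        rw [Finset.card_eq_zero.1 (Nat.le_zero.1 hn)] at hz
        exact absurd hz (Finset.notMem_empty z)
      rw [hv0]
      exact AddSubgroup.zero_mem _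
    | succ n ih =>
      intro v hv hk hP hn
      by_cases hne : (sp v).Nonempty
      · obtain ⟨y, hy, hmax⟩ := Finset.exists_max_image (sp v) (fun z => toLex z) hne
        obtain ⟨t, ht, htz⟩ := exists_adm hx hv hk hy hmax
        have hyo : y ∈ orb (AutQ A) x := mem_pms.1 hv y (mem_sp.1 hy)
        have hc1 : cube p y t ∈ PMS p (orb (AutQ A) x) := cube_mem hx hyo ht
        have hc2 : cube p y t ∈ Kr p d := cube_mem_kr y t
        have hc3 : cube p y t ∈ AddSubgroup.closure S :=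
          AddSubgroup.subset_closure ⟨y, t, hyo, ht, rfl⟩
        have hPt : ∀ i, t i ∈ F := by
          intro i
          obtain ⟨z, hz, hzi⟩ := htz i
          rw [hzi]
          exact Fintype.mem_piFinset.1 (hP z hz) i
        have hPy : ∀ i, y i ∈ F := fun i => Fintype.mem_piFinset.1 (hP y hy) i
        have hv'cf : ∀ z, cf (v - (cf v y).val • cube p y t) z =
            cf v z - cf v y * cf (cube p y t) z := by
          intro z
          rw [cf_sub, cf_nsmul, ZMod.natCast_zmod_val]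
        have hv'P : ∀ z ∈ sp (v - (cf v y).val • cube p y t), z ∈ P ∧ toLex z ≤ toLex y ∧ z ≠ y := by
          intro z hz
          have hz1 := mem_sp.1 hz
          rw [hv'cf] at hz1
          have hzy : z ≠ y := by
            rintro rfl
            rw [cf_cube_self ht, mul_one, sub_self] at hz1
            exact hz1 rfl
          by_cases h1 : cf v z = 0
          · have h2 : cf (cube p y t) z ≠ 0 := by
              intro h
              rw [h1, h, mul_zero, sub_zero] at hz1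
              exact hz1 rfl
            obtain ⟨h3, h4⟩ := cf_cube_ne ht h2
            refine ⟨Fintype.mem_piFinset.2 (fun i => ?_), Pi.toLex_monotone h4, hzy⟩
            rcases h3 i with h5 | h5
            · rw [h5]; exact hPy i
            · rw [h5]; exact hPt i
          · exact ⟨hP z (mem_sp.2 h1), hmax z (mem_sp.2 h1), hzy⟩
        have hlt : (P.filter (fun z => ∃ w ∈ sp (v - (cf v y).val • cube p y t),
            toLex z ≤ toLex w)).card <
            (P.filter (fun z => ∃ w ∈ sp v, toLex z ≤ toLex w)).card := by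
          refine Finset.card_lt_card ?_
          rw [Finset.ssubset_iff_of_subset]
          · refine ⟨y, Finset.mem_filter.2 ⟨hP y hy, y, hy, le_rfl⟩, ?_⟩
            intro hcon
            obtain ⟨-, w, hw, hyw⟩ := Finset.mem_filter.1 hcon
            obtain ⟨-, h1, h2⟩ := hv'P w hw
            exact h2 (toLex.injective (le_antisymm h1 hyw))
          · intro z hz
            obtain ⟨h0, w, hw, hzw⟩ := Finset.mem_filter.1 hz
            obtain ⟨-, h1, -⟩ := hv'P w hw
            exact Finset.mem_filter.2 ⟨h0, y, hy, hzw.trans h1⟩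
        have hmem := ih (v - (cf v y).val • cube p y t)
          (AddSubgroup.sub_mem _ hv (AddSubgroup.nsmul_mem _ hc1 _))
          (AddSubgroup.sub_mem _ hk (AddSubgroup.nsmul_mem _ hc2 _))
          (fun z hz => (hv'P z hz).1) (by omega)
        have e : v = (v - (cf v y).val • cube p y t) + (cf v y).val • cube p y t := by abel
        rw [e]
        exact AddSubgroup.add_mem _ hmem (AddSubgroup.nsmul_mem _ hc3 _)
      · have hv0 : v = 0 := by
          refine pm_ext (fun z => ?_)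
          rw [cf_zero]
          by_contra h
          exact hne ⟨z, mem_sp.2 h⟩
        rw [hv0]
        exact AddSubgroup.zero_mem _
  refine main _ v hv hk (fun z hz => Fintype.mem_piFinset.2 (fun i => ?_)) le_rfl
  exact Finset.mem_biUnion.2 ⟨z, hz, Finset.mem_image_of_mem _ (Finset.mem_univ i)⟩

end Pool.Agent.Lib.ThC.GL

end

section

/-! # G2e1: the kernel is simple -/

set_option autoImplicit false
open scoped Pointwise

namespace Pool.Agent.Lib.ThC.GL
variable {p : ℕ} [Fact p.Prime]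

/-- the kernel is simple: `gen_cube`, `cube_conj`, `cube_span`. -/
theorem kr_simple (A : Finset ℚ) {d : ℕ} {x : Fin (d + 1) → ℚ} (hx : StrictMono x)
    (hxA : ∀ i, x i ∉ A) :
    FLen (AutQ A) (⊥ : AddSubgroup (PM p (Fin (d + 1) → ℚ)))
      (PMS p (orb (AutQ A) x) ⊓ Kr p d) := by
  refine FLen.of_simple (fun X hX _ hXM => ?_)
  by_cases h0 : X = ⊥
  · exact Or.inl h0
  right
  refine le_antisymm hXM ?_
  rw [AddSubgroup.eq_bot_iff_forall] at h0
  push Not at h0
  obtain ⟨v, hv, hv0⟩ := h0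
  have hvM := hXM hv
  obtain ⟨y, t, hy, ht, hc⟩ := gen_cube hx hxA hX hv hv0 (AddSubgroup.mem_inf.1 hvM).1
  intro w hw
  have hw' := AddSubgroup.mem_inf.1 hw
  have h1 := cube_span (A := A) hx hw'.1 hw'.2
  refine (AddSubgroup.closure_le X).2 ?_ h1
  rintro c ⟨y', t', hy', ht', rfl⟩
  obtain ⟨g, hg, hgc⟩ := cube_conj (p := p) hx hy hy' ht ht'
  rw [← hgc]
  exact hX g hg _ hc

end Pool.Agent.Lib.ThC.GL

end

section

/-! # G2e2: the quotient by the kernel -/

set_option autoImplicit false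
open scoped Pointwise

namespace Pool.Agent.Lib.ThC.GL
variable {p : ℕ} [Fact p.Prime]

/-- the quotient by the kernel: intersect with the kernels of `fgt i` one after the other
(`FLen.of_ker`, `FLen.mono`, `FLen.trans`). -/
theorem kr_quot (A : Finset ℚ) {d : ℕ} {x : Fin (d + 1) → ℚ}
    (h : ∀ i : Fin (d + 1), FLen (AutQ A) (⊥ : AddSubgroup (PM p (Fin d → ℚ)))
      (PMS p (orb (AutQ A) (x ∘ i.succAbove)))) :
    FLen (AutQ A) (PMS p (orb (AutQ A) x) ⊓ Kr p d) (PMS p (orb (AutQ A) x)) := by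
  classical
  have heq : ∀ (i : Fin (d + 1)) (g : Equiv.Perm ℚ) (m : PM p (Fin (d + 1) → ℚ)),
      fgt p i (g • m) = g • fgt p i m := by
    intro i g m
    exact mapPM_smul (θ := fun y : Fin (d + 1) → ℚ => y ∘ i.succAbove) (X := Set.univ)
        (fun y _ => rfl) (by rw [pms_univ]; exact AddSubgroup.mem_top m)
  have hinv : ∀ i : Fin (d + 1), InvA (AutQ A) (fgt p i).ker := by
    intro i g _ m hm
    rw [AddMonoidHom.mem_ker] at hm ⊢
    rw [heq, hm, smul_zero]
  have hmap : ∀ (i : Fin (d + 1)), ∀ m ∈ PMS p (orb (AutQ A) x),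
      fgt p i m ∈ PMS p (orb (AutQ A) (x ∘ i.succAbove)) := by
    intro i m hm
    have h1 : fgt p i m ∈ (PMS p (orb (AutQ A) x)).map (mapPM p (fun y => y ∘ i.succAbove)) :=
      ⟨m, hm, rfl⟩
    rw [pms_map] at h1
    refine pms_mono ?_ h1
    rintro _ ⟨_, ⟨g, hg, rfl⟩, rfl⟩
    exact ⟨g, hg, rfl⟩
  have hinvM : InvA (AutQ A) (PMS p (orb (AutQ A) x)) := inv_pms_orb le_rfl x
  have main : ∀ s : Finset (Fin (d + 1)),
      InvA (AutQ A) (PMS p (orb (AutQ A) x) ⊓ ⨅ i ∈ s, (fgt p i).ker) ∧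
      FLen (AutQ A) (PMS p (orb (AutQ A) x) ⊓ ⨅ i ∈ s, (fgt p i).ker)
        (PMS p (orb (AutQ A) x)) := by
    intro s
    induction s using Finset.induction_on with
    | empty =>
      simp only [Finset.notMem_empty, iInf_false, iInf_top, inf_top_eq]
      exact ⟨hinvM, FLen.of_le le_rfl⟩
    | insert a s ha ih =>
      have e : (PMS p (orb (AutQ A) x) ⊓ ⨅ i ∈ insert a s, (fgt p i).ker) =
          (PMS p (orb (AutQ A) x) ⊓ ⨅ i ∈ s, (fgt p i).ker) ⊓ (fgt p a).ker := by
        rw [Finset.iInf_insert, inf_assoc, inf_comm (fgt p a).ker]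
      rw [e]
      refine ⟨inv_inf ih.1 (hinv a), ?_⟩
      refine FLen.trans inf_le_left inf_le_left ih.1 ?_ ih.2
      exact FLen.of_ker (fgt p a) (fun g _ m _ => heq a g m)
        (fun m hm => hmap a m (AddSubgroup.mem_inf.1 hm).1) (h a)
  have h2 := (main Finset.univ).2
  simpa [Kr] using h2

end Pool.Agent.Lib.ThC.GL

end

section

/-! # G2e3: theorem G2 -/

set_option autoImplicit false
open scoped Pointwise

namespace Pool.Agent.Lib.ThC.GL
variable {p : ℕ} [Fact p.Prime]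

theorem autQ_inc (A : Finset ℚ) : ∀ (d : ℕ) (x : Fin d → ℚ), StrictMono x →
    (∀ i, x i ∉ A) → FLen (AutQ A) (⊥ : AddSubgroup (PM p (Fin d → ℚ)))
      (PMS p (orb (AutQ A) x)) := by
  intro d
  induction d with
  | zero =>
    intro x _ _
    have hfin : Finite (PM p (Fin 0 → ℚ)) := inferInstanceAs (Finite ((Fin 0 → ℚ) →₀ ZMod p))
    have : Fintype (PM p (Fin 0 → ℚ)) := Fintype.ofFinite _
    exact FLen.of_finMod ⟨Finset.univ, fun m _ => ⟨m, Finset.mem_univ m, by
      rw [sub_self]; exact AddSubgroup.zero_mem _⟩⟩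
  | succ d ih =>
    intro x hx hxA
    refine FLen.trans bot_le inf_le_left ?_ (kr_simple A hx hxA) (kr_quot A (fun i => ?_))
    · refine inv_inf (inv_pms_orb le_rfl x) ?_
      intro g _ m hm
      have hm' : m ∈ (⨅ i : Fin (d + 1), (fgt p i).ker : AddSubgroup _) := hm
      show g • m ∈ (⨅ i : Fin (d + 1), (fgt p i).ker : AddSubgroup _)
      rw [AddSubgroup.mem_iInf] at hm' ⊢
      intro i
      have h1 := AddMonoidHom.mem_ker.1 (hm' i)
      rw [AddMonoidHom.mem_ker]
      have h2 : fgt p i (g • m) = g • fgt p i m :=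
        mapPM_smul (θ := fun y : Fin (d + 1) → ℚ => y ∘ i.succAbove) (X := Set.univ)
        (fun y _ => rfl) (by rw [pms_univ]; exact AddSubgroup.mem_top m)
      rw [h2, h1, smul_zero]
    · exact ih _ (hx.comp (Fin.strictMono_succAbove i)) (fun j => hxA _)

/-- THEOREM G2. -/
theorem autQ_flen (A : Finset ℚ) (n : ℕ) :
    FLen (AutQ A) (⊥ : AddSubgroup (PM p (Fin n → ℚ))) ⊤ := by
  classical
  obtain ⟨F, hF⟩ := autQ_fo A n
  have h1 : ∀ z : Fin n → ℚ, FLen (AutQ A) (⊥ : AddSubgroup (PM p (Fin n → ℚ)))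
      (PMS p (orb (AutQ A) z)) := by
    intro z
    obtain ⟨d, x, θ, hx, hxA, hθ, hθx⟩ := autQ_red A z
    have h2 := autQ_inc (p := p) A d x hx hxA
    have h3 := FLen.image (mapPM p θ) (inv_pms_orb le_rfl x)
      (fun g hg m _ => mapPM_smul (X := Set.univ) (fun y _ => hθ g hg y)
        (by rw [pms_univ]; exact AddSubgroup.mem_top m)) h2
    rw [pms_map] at h3
    have e : θ '' orb (AutQ A) x = orb (AutQ A) z := by
      ext w
      constructor
      · rintro ⟨_, ⟨g, hg, rfl⟩, rfl⟩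
        exact ⟨g, hg, by rw [hθ g hg, hθx]⟩
      · rintro ⟨g, hg, rfl⟩
        exact ⟨g • x, ⟨g, hg, rfl⟩, by rw [hθ g hg, hθx]⟩
    rwa [e] at h3
  have h4 := FLen.iSup (K := AutQ A) (L := (⊥ : AddSubgroup (PM p (Fin n → ℚ))))
    (S := fun f : ↥F => PMS p (orb (AutQ A) f.1)) inv_bot (fun _ => bot_le)
    (fun f => inv_pms_orb le_rfl f.1) (fun f => h1 f.1)
  have e : (⊥ : AddSubgroup (PM p (Fin n → ℚ))) ⊔ ⨆ f : ↥F, PMS p (orb (AutQ A) f.1) = ⊤ := by
    rw [bot_sup_eq, ← pms_iUnion, ← pms_univ]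
    congr 1
    refine Set.eq_univ_of_forall (fun z => ?_)
    obtain ⟨f, hf, hz⟩ := hF z
    exact Set.mem_iUnion.2 ⟨⟨f, hf⟩, hz⟩
  rwa [e] at h4

end Pool.Agent.Lib.ThC.GL

end
end

section

section

/-! # G3a: embedding into Q -/

set_option autoImplicit false
open scoped Pointwise

namespace Pool.Agent.Lib.ThC.GL
/-- An injection of `W0` into `ℚ` such that the fibre `{w ∈ W0 \ Δ | π w = j}` becomes
`ℚ ∩ (j, j + 1)` (when it is nonempty, it is countably infinite), and `Δ ∩ W0` becomes a set of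
negative integers; `A` = `{0, ..., q}` and the image of `Δ ∩ W0`. -/
theorem pf_embed {W : Type} (W0 : Set W) (hW0 : W0.Countable) {Δ : Set W} (hΔ : Δ.Finite)
    {q : ℕ} (π : W → Fin q)
    (hinf : ∀ j, {w | w ∈ W0 ∧ w ∉ Δ ∧ π w = j} = ∅ ∨
      {w | w ∈ W0 ∧ w ∉ Δ ∧ π w = j}.Infinite) :
    ∃ (f : W → ℚ) (A : Finset ℚ), Set.InjOn f W0 ∧ (∀ w ∈ W0, w ∈ Δ → f w ∈ A) ∧
      ∀ w ∈ W0, w ∉ Δ → ∀ σ ∈ AutQ A, ∃ w' ∈ W0, w' ∉ Δ ∧ π w' = π w ∧ f w' = σ (f w) := by
  classical
  -- the maps on the fibres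
  have hE : ∀ j : Fin q, ∃ e : W → ℚ,
      Set.InjOn e {w | w ∈ W0 ∧ w ∉ Δ ∧ π w = j} ∧
      (∀ w, (w ∈ W0 ∧ w ∉ Δ ∧ π w = j) → ((j : ℕ) : ℚ) < e w ∧ e w < ((j : ℕ) : ℚ) + 1) ∧
      ((∃ w, w ∈ W0 ∧ w ∉ Δ ∧ π w = j) → ∀ x : ℚ, ((j : ℕ) : ℚ) < x → x < ((j : ℕ) : ℚ) + 1 →
        ∃ w, (w ∈ W0 ∧ w ∉ Δ ∧ π w = j) ∧ e w = x) := by
    intro j
    rcases hinf j with h | h
    · refine ⟨fun _ => 0, ?_, ?_, ?_⟩
      · rw [h]; exact Set.injOn_empty _
      · intro w hw
        have : w ∈ {w | w ∈ W0 ∧ w ∉ Δ ∧ π w = j} := hw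
        rw [h] at this
        exact absurd this (Set.notMem_empty _)
      · rintro ⟨w, hw⟩
        have : w ∈ {w | w ∈ W0 ∧ w ∉ Δ ∧ π w = j} := hw
        rw [h] at this
        exact absurd this (Set.notMem_empty _)
    · have hc : {w | w ∈ W0 ∧ w ∉ Δ ∧ π w = j}.Countable := hW0.mono fun w hw => hw.1
      have : Countable {w | w ∈ W0 ∧ w ∉ Δ ∧ π w = j} := hc.to_subtype
      have : Infinite {w | w ∈ W0 ∧ w ∉ Δ ∧ π w = j} := h.to_subtype
      have : Infinite (Set.Ioo (((j : ℕ) : ℚ)) (((j : ℕ) : ℚ) + 1)) :=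
        (Set.Ioo_infinite (by linarith)).to_subtype
      obtain ⟨E⟩ : Nonempty ({w | w ∈ W0 ∧ w ∉ Δ ∧ π w = j} ≃
          Set.Ioo (((j : ℕ) : ℚ)) (((j : ℕ) : ℚ) + 1)) := nonempty_equiv_of_countable
      refine ⟨fun w => if h : w ∈ W0 ∧ w ∉ Δ ∧ π w = j then (E ⟨w, h⟩ : ℚ) else 0, ?_, ?_, ?_⟩
      · intro w hw w' hw' heq
        have hw1 : w ∈ W0 ∧ w ∉ Δ ∧ π w = j := hw
        have hw2 : w' ∈ W0 ∧ w' ∉ Δ ∧ π w' = j := hw'
        simp only [dif_pos hw1, dif_pos hw2] at heq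
        have := E.injective (Subtype.ext heq)
        exact congrArg Subtype.val this
      · intro w hw
        simp only [dif_pos hw]
        exact (E ⟨w, hw⟩).2
      · intro _ x hx1 hx2
        obtain ⟨⟨w, hw⟩, hwx⟩ := E.surjective ⟨x, hx1, hx2⟩
        have hw1 : w ∈ W0 ∧ w ∉ Δ ∧ π w = j := hw
        refine ⟨w, hw1, ?_⟩
        simp only [dif_pos hw1]
        rw [hwx]
  choose e he1 he2 he3 using hE
  -- the map on `Δ`
  let D : Finset W := hΔ.toFinset
  have hD : ∀ w, w ∈ D ↔ w ∈ Δ := fun w => hΔ.mem_toFinset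
  let N : W → ℚ := fun w => if h : w ∈ D then -(((D.equivFin ⟨w, h⟩ : Fin D.card) : ℕ) : ℚ) - 1 else 0
  have hNneg : ∀ w, w ∈ Δ → N w < 0 := by
    intro w hw
    simp only [N, dif_pos ((hD w).2 hw)]
    have : (0 : ℚ) ≤ (((D.equivFin ⟨w, (hD w).2 hw⟩ : Fin D.card) : ℕ) : ℚ) := Nat.cast_nonneg _
    linarith
  have hNinj : ∀ w w', w ∈ Δ → w' ∈ Δ → N w = N w' → w = w' := by
    intro w w' hw hw' h
    simp only [N, dif_pos ((hD w).2 hw), dif_pos ((hD w').2 hw')] at h
    have h1 : (((D.equivFin ⟨w, (hD w).2 hw⟩ : Fin D.card) : ℕ) : ℚ) =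
      (((D.equivFin ⟨w', (hD w').2 hw'⟩ : Fin D.card) : ℕ) : ℚ) := by linarith
    have h2 := D.equivFin.injective (Fin.ext (by exact_mod_cast h1))
    exact congrArg Subtype.val h2
  let f : W → ℚ := fun w => if w ∈ Δ then N w else e (π w) w
  have hfΔ : ∀ w, w ∈ Δ → f w = N w := fun w hw => if_pos hw
  have hfn : ∀ w, w ∉ Δ → f w = e (π w) w := fun w hw => if_neg hw
  have hfpos : ∀ w, w ∈ W0 → w ∉ Δ → (((π w : Fin q) : ℕ) : ℚ) < f w ∧
      f w < (((π w : Fin q) : ℕ) : ℚ) + 1 := by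
    intro w h1 h2
    rw [hfn w h2]
    exact he2 (π w) w ⟨h1, h2, rfl⟩
  refine ⟨f, D.image N ∪ (Finset.range (q + 1)).image (fun k : ℕ => (k : ℚ)), ?_, ?_, ?_⟩
  · intro w hw w' hw' h
    by_cases hd : w ∈ Δ
    · by_cases hd' : w' ∈ Δ
      · rw [hfΔ w hd, hfΔ w' hd'] at h
        exact hNinj w w' hd hd' h
      · have h1 := hNneg w hd
        have h2 := (hfpos w' hw' hd').1
        rw [← hfΔ w hd, h] at h1
        have h3 : (0 : ℚ) ≤ (((π w' : Fin q) : ℕ) : ℚ) := Nat.cast_nonneg _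
        linarith
    · by_cases hd' : w' ∈ Δ
      · have h1 := hNneg w' hd'
        have h2 := (hfpos w hw hd).1
        rw [← hfΔ w' hd', ← h] at h1
        have h3 : (0 : ℚ) ≤ (((π w : Fin q) : ℕ) : ℚ) := Nat.cast_nonneg _
        linarith
      · have h1 := hfpos w hw hd
        have h2 := hfpos w' hw' hd'
        rw [← h] at h2
        have h3 : ((π w : Fin q) : ℕ) = ((π w' : Fin q) : ℕ) := by
          have a1 : (((π w : Fin q) : ℕ) : ℚ) < (((π w' : Fin q) : ℕ) : ℚ) + 1 := by linarith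
          have a2 : (((π w' : Fin q) : ℕ) : ℚ) < (((π w : Fin q) : ℕ) : ℚ) + 1 := by linarith
          have b1 : ((π w : Fin q) : ℕ) < ((π w' : Fin q) : ℕ) + 1 := by exact_mod_cast a1
          have b2 : ((π w' : Fin q) : ℕ) < ((π w : Fin q) : ℕ) + 1 := by exact_mod_cast a2
          omega
        have h4 : π w = π w' := Fin.ext h3
        rw [hfn w hd, hfn w' hd', ← h4] at h
        exact he1 (π w) ⟨hw, hd, rfl⟩ ⟨hw', hd', h4.symm⟩ h
  · intro w _ hd
    rw [hfΔ w hd]
    exact Finset.mem_union_left _ (Finset.mem_image_of_mem _ ((hD w).2 hd))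
  · intro w hw hd σ hσ
    obtain ⟨hmono, hfix⟩ := mem_autQ.1 hσ
    have hk : ∀ k : ℕ, k ≤ q → σ (k : ℚ) = k := fun k hk => hfix _
      (Finset.mem_union_right _ (Finset.mem_image.2 ⟨k, Finset.mem_range.2 (by omega), rfl⟩))
    obtain ⟨h1, h2⟩ := hfpos w hw hd
    have hj := (π w).2
    have g1 := hmono h1
    rw [hk _ hj.le] at g1
    have g2 := hmono h2
    have hk2 : σ ((((π w : Fin q) : ℕ) : ℚ) + 1) = (((π w : Fin q) : ℕ) : ℚ) + 1 := by
      have := hk (((π w : Fin q) : ℕ) + 1) hj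
      push_cast at this
      exact this
    rw [hk2] at g2
    obtain ⟨w', ⟨a, b, c⟩, hw'⟩ := he3 (π w) ⟨w, hw, hd, rfl⟩ (σ (f w)) g1 g2
    refine ⟨w', a, b, c, ?_⟩
    rw [hfn w' b, c, hw']

end Pool.Agent.Lib.ThC.GL

end

section

/-! # G3b: theorem PF -/

set_option autoImplicit false
open scoped Pointwise

namespace Pool.Agent.Lib.ThC.GL
/-- THEOREM (PF): a `K`-invariant subgroup of `PMS {v | ∀ i, v i ∈ W0}` is mapped by `mapPM f`
onto a subgroup invariant under `AutQ A`; `FLen.of_map` and `autQ_flen`. -/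
theorem pf_flen {W Γ : Type} [Group Γ] [MulAction Γ W] {p : ℕ} [Fact p.Prime]
    (K : Subgroup Γ) (W0 : Set W) (hW0 : W0.Countable) {Δ : Set W} (hΔ : Δ.Finite)
    {q : ℕ} (π : W → Fin q)
    (hinf : ∀ j, {w | w ∈ W0 ∧ w ∉ Δ ∧ π w = j} = ∅ ∨
      {w | w ∈ W0 ∧ w ∉ Δ ∧ π w = j}.Infinite)
    (hhom : ∀ (m : ℕ) (w w' : Fin m → W), Function.Injective w → Function.Injective w' →
      (∀ i, w i ∈ W0 ∧ w i ∉ Δ) → (∀ i, w' i ∈ W0 ∧ w' i ∉ Δ) →
      (∀ i, π (w i) = π (w' i)) →
      ∃ g ∈ K, (∀ δ ∈ W0, δ ∈ Δ → g • δ = δ) ∧ ∀ i, g • w i = w' i) (n : ℕ) :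
    FLen K (⊥ : AddSubgroup (PM p (Fin n → W))) (PMS p {v | ∀ i, v i ∈ W0}) := by
  classical
  obtain ⟨f, A, hinj, hΔA, hσ⟩ := pf_embed W0 hW0 hΔ π hinf
  have hθ : Set.InjOn (fun v : Fin n → W => fun i => f (v i)) {v | ∀ i, v i ∈ W0} := by
    intro v hv v' hv' h
    funext i
    exact hinj (hv i) (hv' i) (congrFun h i)
  have hPinj := mapPM_inj (p := p) hθ
  refine FLen.of_map (K' := AutQ A) (L' := ⊥) (M' := ⊤)
    (fun X => X.map (mapPM p (fun v : Fin n → W => fun i => f (v i)))) ?_ ?_ (autQ_flen A n)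
  · intro X hX _ hXM
    refine ⟨?_, bot_le, le_top⟩
    rintro σ hσA m ⟨x, hx, rfl⟩
    have hxM : x ∈ PMS p {v : Fin n → W | ∀ i, v i ∈ W0} := hXM hx
    -- the coordinates outside `Δ`
    let D : Finset W := ((sp x).biUnion fun v => Finset.univ.image v).filter fun w => w ∉ Δ
    have hDmem : ∀ w ∈ D, w ∈ W0 ∧ w ∉ Δ := by
      intro w hw
      obtain ⟨h1, h2⟩ := Finset.mem_filter.1 hw
      obtain ⟨v, hv, hw'⟩ := Finset.mem_biUnion.1 h1
      obtain ⟨i, -, rfl⟩ := Finset.mem_image.1 hw'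
      exact ⟨(mem_pms.1 hxM v (mem_sp.1 hv)) i, h2⟩
    let w : Fin D.card → W := fun i => (D.equivFin.symm i : W)
    have hw : ∀ i, w i ∈ D := fun i => (D.equivFin.symm i).2
    have hwinj : Function.Injective w := fun i j h =>
      D.equivFin.symm.injective (Subtype.ext h)
    have hw' : ∀ i, ∃ w' ∈ W0, w' ∉ Δ ∧ π w' = π (w i) ∧ f w' = σ (f (w i)) := fun i =>
      hσ (w i) (hDmem _ (hw i)).1 (hDmem _ (hw i)).2 σ hσA
    choose w' h1 h2 h3 h4 using hw'
    have hw'inj : Function.Injective w' := by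
      intro i j h
      apply hwinj
      apply hinj (hDmem _ (hw i)).1 (hDmem _ (hw j)).1
      apply σ.injective
      rw [← h4 i, ← h4 j, h]
    obtain ⟨g, hgK, hgΔ, hgw⟩ := hhom D.card w w' hwinj hw'inj (fun i => hDmem _ (hw i))
      (fun i => ⟨h1 i, h2 i⟩) (fun i => (h3 i).symm)
    -- `g` acts on the coordinates of `x` as `σ`
    have key : ∀ v ∈ sp x, ∀ i, f (g • v i) = σ (f (v i)) := by
      intro v hv i
      have hvi : v i ∈ W0 := (mem_pms.1 hxM v (mem_sp.1 hv)) i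
      by_cases hd : v i ∈ Δ
      · rw [hgΔ _ hvi hd]
        exact (hσA.2 _ (hΔA _ hvi hd)).symm
      · have hD : v i ∈ D := Finset.mem_filter.2
          ⟨Finset.mem_biUnion.2 ⟨v, hv, Finset.mem_image.2 ⟨i, Finset.mem_univ _, rfl⟩⟩, hd⟩
        obtain ⟨k, hk⟩ : ∃ k, w k = v i :=
          ⟨D.equivFin ⟨v i, hD⟩, by simp [w]⟩
        rw [← hk, hgw k, h4 k]
    have hNZ : NeZero p := ⟨(Fact.out : p.Prime).ne_zero⟩
    refine ⟨g • x, hX g hgK x hx, ?_⟩
    have e : ∀ v ∈ sp x, (cf x v).val • pt p (fun i => f ((g • v) i)) =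
        (cf x v).val • pt p (σ • fun i => f (v i)) := by
      intro v hv
      congr 2
      funext i
      exact key v hv i
    calc mapPM p (fun v : Fin n → W => fun i => f (v i)) (g • x)
        = mapPM p (fun v : Fin n → W => fun i => f (v i))
            (g • ∑ v ∈ sp x, (cf x v).val • pt p v) := by rw [← pm_sum]
      _ = ∑ v ∈ sp x, (cf x v).val • pt p (fun i => f ((g • v) i)) := by
          rw [Finset.smul_sum, map_sum]
          refine Finset.sum_congr rfl fun v _ => ?_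
          rw [smul_comm g (cf x v).val (pt p v), smul_pt, map_nsmul, mapPM_pt]
      _ = ∑ v ∈ sp x, (cf x v).val • pt p (σ • fun i => f (v i)) := Finset.sum_congr rfl e
      _ = σ • mapPM p (fun v : Fin n → W => fun i => f (v i))
            (∑ v ∈ sp x, (cf x v).val • pt p v) := by
          rw [map_sum, Finset.smul_sum]
          refine Finset.sum_congr rfl fun v _ => ?_
          rw [map_nsmul, mapPM_pt, smul_comm σ (cf x v).val, smul_pt]
      _ = σ • mapPM p (fun v : Fin n → W => fun i => f (v i)) x := by rw [← pm_sum]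
  · intro X Y _ _ _ hXY hYM
    refine lt_of_le_of_ne (AddSubgroup.map_mono hXY.le) fun h => ?_
    obtain ⟨y, hy, hyX⟩ := SetLike.exists_of_lt hXY
    have hy' : mapPM p (fun v : Fin n → W => fun i => f (v i)) y ∈
        X.map (mapPM p (fun v : Fin n → W => fun i => f (v i))) := by
      rw [h]
      exact ⟨y, hy, rfl⟩
    obtain ⟨x, hx, hxy⟩ := hy'
    have := hPinj (hYM (hXY.le hx)) (hYM hy) hxy
    exact hyX (this ▸ hx)

end Pool.Agent.Lib.ThC.GL

end
end

section

section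

/-! # G4: Clifford theory, definitions -/

set_option autoImplicit false
open scoped Pointwise

namespace Pool.Agent.Lib.ThC.GL
section

variable {Γ A : Type} [Group Γ] [AddCommGroup A] [DistribMulAction Γ A]

/-- the additive endomorphisms of `A` coming from `ℤ[N]`. -/
def EN (A : Type) [AddCommGroup A] [DistribMulAction Γ A] (N : Subgroup Γ) :
    AddSubgroup (AddMonoid.End A) :=
  AddSubgroup.closure ((fun g : Γ => DistribMulAction.toAddMonoidEnd Γ A g) '' (N : Set Γ))

/-- the sum of the translates `g • M`, `g ∈ U`. -/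
def VV (U : Subgroup Γ) (M : AddSubgroup A) : AddSubgroup A := ⨆ g : U, (g : Γ) • M

/-- the stabiliser in `U` of `v` modulo `V1` (see `mem_stM`). -/
def stM (U : Subgroup Γ) (V1 : AddSubgroup A) (v : A) : Subgroup Γ :=
  Subgroup.closure {g | g ∈ U ∧ g • v - v ∈ V1}

/-- `N ≤ U` normal in `U`, `V1` invariant under `U`, `M` minimal `N`-invariant over `V1`,
`v0 ∈ M \ V1`. -/
structure CR (U N : Subgroup Γ) (V1 M : AddSubgroup A) (v0 : A) : Prop where
  NU : N ≤ U
  nrm : ∀ u ∈ U, ∀ n ∈ N, u * n * u⁻¹ ∈ N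
  i1 : InvA U V1
  iM : InvA N M
  le : V1 ≤ M
  sim : ∀ X, InvA N X → V1 ≤ X → X ≤ M → X = V1 ∨ X = M
  v0M : v0 ∈ M
  v0n : v0 ∉ V1

/-- the elements `v` of `VV U M` such that `v0 ↦ v` extends to an `N`-homomorphism
from `M` modulo `V1`. -/
def TT (U N : Subgroup Γ) (V1 M : AddSubgroup A) (v0 : A) : AddSubgroup A where
  carrier := {v | v ∈ VV U M ∧ ∀ α ∈ EN A N, α v0 ∈ V1 → α v ∈ V1}
  zero_mem' := ⟨zero_mem _, fun α _ _ => by rw [map_zero]; exact zero_mem _⟩
  add_mem' := fun ha hb => ⟨add_mem ha.1 hb.1, fun α hα h => by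
    rw [map_add]; exact add_mem (ha.2 α hα h) (hb.2 α hα h)⟩
  neg_mem' := fun ha => ⟨neg_mem ha.1, fun α hα h => by
    rw [map_neg]; exact neg_mem (ha.2 α hα h)⟩

theorem mem_TT {U N : Subgroup Γ} {V1 M : AddSubgroup A} {v0 v : A} :
    v ∈ TT U N V1 M v0 ↔ v ∈ VV U M ∧ ∀ α ∈ EN A N, α v0 ∈ V1 → α v ∈ V1 := Iff.rfl

end

end Pool.Agent.Lib.ThC.GL

end

section

/-! # G4a1: EN -/

set_option autoImplicit false
open scoped Pointwise

namespace Pool.Agent.Lib.ThC.GL
variable {Γ A : Type} [Group Γ] [AddCommGroup A] [DistribMulAction Γ A]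
variable {U N : Subgroup Γ} {V1 M X : AddSubgroup A} {v0 v : A}

theorem en_of {g : Γ} (hg : g ∈ N) : DistribMulAction.toAddMonoidEnd Γ A g ∈ EN A N :=
  AddSubgroup.subset_closure ⟨g, hg, rfl⟩

/-- in the form used most: `n • v - v = α v` with `α ∈ EN A N`. -/
theorem en_sub {g : Γ} (hg : g ∈ N) :
    ∃ α ∈ EN A N, ∀ a : A, α a = g • a - a := by
  refine ⟨DistribMulAction.toAddMonoidEnd Γ A g - DistribMulAction.toAddMonoidEnd Γ A 1,
    sub_mem (en_of hg) (en_of N.one_mem), fun a => ?_⟩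
  change g • a - (1 : Γ) • a = g • a - a
  rw [one_smul]

theorem en_mul {α β : AddMonoid.End A} (hα : α ∈ EN A N) (hβ : β ∈ EN A N) :
    α * β ∈ EN A N := by
  unfold EN at hα hβ
  induction hα using AddSubgroup.closure_induction with
  | mem x hx =>
    obtain ⟨g, hg, rfl⟩ := hx
    induction hβ using AddSubgroup.closure_induction with
    | mem y hy =>
      obtain ⟨g', hg', rfl⟩ := hy
      have h := en_of (A := A) (N := N) (N.mul_mem hg hg')
      rw [map_mul] at h
      exact h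
    | zero => rw [mul_zero]; exact zero_mem _
    | add a b _ _ iha ihb => rw [mul_add]; exact add_mem iha ihb
    | neg a _ iha => rw [mul_neg]; exact neg_mem iha
  | zero => rw [zero_mul]; exact zero_mem _
  | add a b _ _ iha ihb => rw [add_mul]; exact add_mem iha ihb
  | neg a _ iha => rw [neg_mul]; exact neg_mem iha

theorem en_inv {α : AddMonoid.End A} (hα : α ∈ EN A N) (hX : InvA N X) (hv : v ∈ X) :
    α v ∈ X := by
  unfold EN at hα
  induction hα using AddSubgroup.closure_induction with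
  | mem x hx =>
    obtain ⟨g, hg, rfl⟩ := hx
    exact hX g hg v hv
  | zero => exact zero_mem _
  | add a b _ _ iha ihb => exact add_mem iha ihb
  | neg a _ iha => exact neg_mem iha

/-- conjugation by an element normalising `N`. -/
theorem en_cj {α : AddMonoid.End A} (hα : α ∈ EN A N) {g : Γ}
    (hg : ∀ n ∈ N, g * n * g⁻¹ ∈ N) :
    ∃ β ∈ EN A N, ∀ a : A, β a = g • α (g⁻¹ • a) := by
  unfold EN at hα
  induction hα using AddSubgroup.closure_induction with
  | mem x hx =>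
    obtain ⟨n, hn, rfl⟩ := hx
    refine ⟨DistribMulAction.toAddMonoidEnd Γ A (g * n * g⁻¹), en_of (hg n hn), fun a => ?_⟩
    change (g * n * g⁻¹) • a = g • n • g⁻¹ • a
    rw [mul_smul, mul_smul]
  | zero => exact ⟨0, zero_mem _, fun a => by simp⟩
  | add a b _ _ iha ihb =>
    obtain ⟨β, hβ, h1⟩ := iha
    obtain ⟨β', hβ', h1'⟩ := ihb
    refine ⟨β + β', add_mem hβ hβ', fun x => ?_⟩
    change β x + β' x = g • (a (g⁻¹ • x) + b (g⁻¹ • x))
    rw [h1, h1', smul_add]
  | neg a _ iha =>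
    obtain ⟨β, hβ, h1⟩ := iha
    refine ⟨-β, neg_mem hβ, fun x => ?_⟩
    change -(β x) = g • (-(a (g⁻¹ • x)))
    rw [h1, smul_neg]

theorem mem_spanN_iff {x : A} : x ∈ spanN N v ↔ ∃ α ∈ EN A N, α v = x := by
  constructor
  · intro hx
    unfold spanN at hx
    induction hx using AddSubgroup.closure_induction with
    | mem x hx =>
      obtain ⟨g, hg, rfl⟩ := hx
      exact ⟨_, en_of hg, rfl⟩
    | zero => exact ⟨0, zero_mem _, rfl⟩
    | add a b _ _ iha ihb =>
      obtain ⟨α, hα, h1⟩ := iha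
      obtain ⟨β, hβ, h2⟩ := ihb
      exact ⟨α + β, add_mem hα hβ, by change α v + β v = a + b; rw [h1, h2]⟩
    | neg a _ iha =>
      obtain ⟨α, hα, h1⟩ := iha
      exact ⟨-α, neg_mem hα, by change -(α v) = -a; rw [h1]⟩
  · rintro ⟨α, hα, rfl⟩
    exact en_inv hα (inv_spanN N v) (mem_spanN_self N v)

end Pool.Agent.Lib.ThC.GL

end

section

/-! # G4a2: VV and stM -/

set_option autoImplicit false
open scoped Pointwise

namespace Pool.Agent.Lib.ThC.GL
variable {Γ A : Type} [Group Γ] [AddCommGroup A] [DistribMulAction Γ A]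
variable {U N : Subgroup Γ} {V1 M X : AddSubgroup A} {v0 v : A}

theorem smul_le_VV {g : Γ} (hg : g ∈ U) : g • M ≤ VV U M :=
  le_iSup (fun g : U => (g : Γ) • M) ⟨g, hg⟩

theorem le_VV : M ≤ VV U M := by
  have h := smul_le_VV (M := M) U.one_mem
  rwa [one_smul] at h

theorem inv_VV : InvA U (VV U M) := by
  intro g hg m hm
  unfold VV at hm
  induction hm using AddSubgroup.iSup_induction' with
  | hp i x hx =>
    apply smul_le_VV (M := M) (U.mul_mem hg i.2)
    rw [mul_smul]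
    exact AddSubgroup.smul_mem_pointwise_smul _ g _ hx
  | h1 => rw [smul_zero]; exact zero_mem _
  | hadd x y _ _ ihx ihy => rw [smul_add]; exact add_mem ihx ihy

theorem VV_le (hX : InvA U X) (h : M ≤ X) : VV U M ≤ X := by
  refine iSup_le fun g => ?_
  intro x hx
  rw [AddSubgroup.mem_smul_pointwise_iff_exists] at hx
  obtain ⟨m, hm, rfl⟩ := hx
  exact hX g g.2 m (h hm)

/-- elements of `VV U M` are in a finite sum of translates. -/
theorem mem_VV (hv : v ∈ VV U M) :
    ∃ s : Finset Γ, (∀ g ∈ s, g ∈ U) ∧ v ∈ ⨆ g ∈ s, g • M := by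
  classical
  unfold VV at hv
  induction hv using AddSubgroup.iSup_induction' with
  | hp i x hx =>
    refine ⟨{(i : Γ)}, ?_, ?_⟩
    · intro g hg
      rw [Finset.mem_singleton] at hg
      rw [hg]; exact i.2
    · simpa using hx
  | h1 => exact ⟨∅, by simp, zero_mem _⟩
  | hadd x y _ _ ihx ihy =>
    obtain ⟨s, hs, h1⟩ := ihx
    obtain ⟨t, ht, h2⟩ := ihy
    refine ⟨s ∪ t, ?_, ?_⟩
    · intro g hg
      rcases Finset.mem_union.1 hg with h | h
      · exact hs g h
      · exact ht g h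
    · refine add_mem ?_ ?_
      · exact (biSup_mono fun g hg => Finset.mem_union_left t hg :
          (⨆ g ∈ s, g • M) ≤ ⨆ g ∈ s ∪ t, g • M) h1
      · exact (biSup_mono fun g hg => Finset.mem_union_right s hg :
          (⨆ g ∈ t, g • M) ≤ ⨆ g ∈ s ∪ t, g • M) h2

theorem mem_stM (h : InvA U V1) {g : Γ} : g ∈ stM U V1 v ↔ g ∈ U ∧ g • v - v ∈ V1 := by
  constructor
  · intro hg
    unfold stM at hg
    induction hg using Subgroup.closure_induction with
    | mem x hx => exact hx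
    | one => exact ⟨U.one_mem, by rw [one_smul, sub_self]; exact zero_mem _⟩
    | mul a b _ _ iha ihb =>
      refine ⟨U.mul_mem iha.1 ihb.1, ?_⟩
      have e : (a * b) • v - v = a • (b • v - v) + (a • v - v) := by
        rw [mul_smul, smul_sub]; abel
      rw [e]
      exact add_mem (h a iha.1 _ ihb.2) iha.2
    | inv a _ iha =>
      refine ⟨U.inv_mem iha.1, ?_⟩
      have e : a⁻¹ • v - v = -(a⁻¹ • (a • v - v)) := by
        rw [smul_sub, inv_smul_smul]; abel
      rw [e]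
      exact neg_mem (h _ (U.inv_mem iha.1) _ iha.2)
  · intro hg
    exact Subgroup.subset_closure hg

theorem stM_le : stM U V1 v ≤ U := by
  unfold stM
  rw [Subgroup.closure_le]
  intro g hg
  exact hg.1

end Pool.Agent.Lib.ThC.GL

end

section

/-! # G4a3: basic facts on CR -/

set_option autoImplicit false
open scoped Pointwise

namespace Pool.Agent.Lib.ThC.GL
variable {Γ A : Type} [Group Γ] [AddCommGroup A] [DistribMulAction Γ A]
variable {U N : Subgroup Γ} {V1 M X : AddSubgroup A} {v0 v : A}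

private theorem G4a3_inv_smul (nrm : ∀ u ∈ U, ∀ n ∈ N, u * n * u⁻¹ ∈ N) (hX : InvA N X) {g : Γ}
    (hg : g ∈ U) : InvA N (g • X) := by
  intro n hn m hm
  rw [AddSubgroup.mem_smul_pointwise_iff_exists] at hm ⊢
  obtain ⟨x, hx, rfl⟩ := hm
  refine ⟨(g⁻¹ * n * g⁻¹⁻¹) • x, hX _ (nrm g⁻¹ (U.inv_mem hg) n hn) x hx, ?_⟩
  rw [← mul_smul, ← mul_smul]
  congr 1
  group

/-- translates: `g • M`, `g ∈ U`, satisfies the same hypotheses with `g • v0`. -/
theorem CR.smul (h : CR U N V1 M v0) {g : Γ} (hg : g ∈ U) :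
    CR U N V1 (g • M) (g • v0) where
  NU := h.NU
  nrm := h.nrm
  i1 := h.i1
  iM := G4a3_inv_smul h.nrm h.iM hg
  le := by
    intro x hx
    rw [AddSubgroup.mem_pointwise_smul_iff_inv_smul_mem]
    exact h.le (h.i1 _ (U.inv_mem hg) x hx)
  sim := by
    intro X hX hVX hXM
    have h1 : InvA N (g⁻¹ • X) := G4a3_inv_smul h.nrm hX (U.inv_mem hg)
    have h2 : V1 ≤ g⁻¹ • X := by
      intro x hx
      rw [AddSubgroup.mem_pointwise_smul_iff_inv_smul_mem, inv_inv]
      exact hVX (h.i1 _ hg x hx)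
    have h3 : g⁻¹ • X ≤ M := by
      intro x hx
      rw [AddSubgroup.mem_pointwise_smul_iff_inv_smul_mem, inv_inv] at hx
      have := hXM hx
      exact (AddSubgroup.smul_mem_pointwise_smul_iff).1 this
    have h4 : X = g • (g⁻¹ • X) := (smul_inv_smul g X).symm
    rcases h.sim _ h1 h2 h3 with h5 | h5
    · left
      rw [h4, h5]
      exact smul_eq_of_inv h.i1 hg
    · right
      rw [h4, h5]
  v0M := AddSubgroup.smul_mem_pointwise_smul _ g _ h.v0M
  v0n := by
    intro hv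
    have := h.i1 _ (U.inv_mem hg) _ hv
    rw [inv_smul_smul] at this
    exact h.v0n this

/-- an `N`-invariant `C ≥ V1` either contains the translate `g • M` or meets it in `V1`. -/
theorem CR.inf (h : CR U N V1 M v0) {g : Γ} (hg : g ∈ U) {C : AddSubgroup A}
    (hC : InvA N C) (hV : V1 ≤ C) : g • M ≤ C ∨ g • M ⊓ C = V1 := by
  have h' := h.smul hg
  rcases h'.sim (g • M ⊓ C) (inv_inf h'.iM hC) (le_inf h'.le hV) inf_le_left with h1 | h1
  · exact Or.inr h1
  · exact Or.inl (inf_eq_left.1 h1)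

/-- `M` is generated by `v0` over `V1`. -/
theorem CR.span (h : CR U N V1 M v0) : M = V1 ⊔ spanN N v0 := by
  have hi : InvA N V1 := inv_mono h.NU h.i1
  rcases h.sim (V1 ⊔ spanN N v0) (inv_sup hi (inv_spanN N v0)) le_sup_left
    (sup_le h.le (spanN_le h.iM h.v0M)) with h1 | h1
  · exfalso
    apply h.v0n
    rw [← h1]
    exact (le_sup_right : spanN N v0 ≤ V1 ⊔ spanN N v0) (mem_spanN_self N v0)
  · exact h1.symm

/-- `g • M` only depends on the coset `g U_0`, `U_0 = stM U V1 v0`. -/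
theorem CR.smul_eq (h : CR U N V1 M v0) {g : Γ} (hg : g ∈ stM U V1 v0) : g • M = M := by
  rw [mem_stM h.i1] at hg
  obtain ⟨hgU, hgv⟩ := hg
  have h' := h.smul hgU
  have h1 : g • v0 ∈ M := by
    have := M.add_mem (h.le hgv) h.v0M
    rwa [sub_add_cancel] at this
  have h2 : g • M ≤ M := by
    rcases h.inf hgU h.iM h.le with h3 | h3
    · exact h3
    · exfalso
      apply h'.v0n
      rw [← h3]
      exact ⟨h'.v0M, h1⟩
  rcases h.sim _ h'.iM h'.le h2 with h3 | h3
  · exfalso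
    apply h'.v0n
    have := h'.v0M
    rwa [h3] at this
  · exact h3

end Pool.Agent.Lib.ThC.GL

end

section

/-! # G4b1: complements -/

set_option autoImplicit false
open scoped Pointwise

namespace Pool.Agent.Lib.ThC.GL
variable {Γ A : Type} [Group Γ] [AddCommGroup A] [DistribMulAction Γ A]
variable {U N : Subgroup Γ} {V1 M X : AddSubgroup A} {v0 v : A}

/-- Complements in a finite sum of minimal `N`-invariant subgroups over `L`.  Take `J ⊆ s`
maximal with `(L ⊔ ⨆ i ∈ J, S i) ⊓ B = L`.  For `i ∈ s \ J`, if not `S i ≤ C' ⊔ B` then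
`S i ⊓ (C' ⊔ B) = L`, and then `(L ⊔ ⨆ i ∈ J ∪ {i}, S i) ⊓ B = L`, a contradiction. -/
theorem compl_simple {ι : Type} (s : Finset ι) {S : ι → AddSubgroup A} {L B : AddSubgroup A}
    (hL : InvA N L)
    (hS : ∀ i ∈ s, InvA N (S i) ∧ L ≤ S i ∧
      ∀ X, InvA N X → L ≤ X → X ≤ S i → X = L ∨ X = S i)
    (hB : InvA N B) (hLB : L ≤ B) :
    ∃ J ⊆ s, (L ⊔ ⨆ i ∈ J, S i) ⊓ B = L ∧ ∀ i ∈ s, S i ≤ (L ⊔ ⨆ i ∈ J, S i) ⊔ B := by
  classical
  let P : Finset (Finset ι) := s.powerset.filter fun J => (L ⊔ ⨆ i ∈ J, S i) ⊓ B = L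
  have hP : P.Nonempty := ⟨∅, by
    rw [Finset.mem_filter, Finset.mem_powerset]
    exact ⟨Finset.empty_subset _, by simp [inf_eq_left.2 hLB]⟩⟩
  obtain ⟨J, hJ, hmax⟩ := P.exists_max_image Finset.card hP
  rw [Finset.mem_filter, Finset.mem_powerset] at hJ
  obtain ⟨hJs, hJB⟩ := hJ
  refine ⟨J, hJs, hJB, fun i hi => ?_⟩
  by_cases hiJ : i ∈ J
  · exact (le_iSup₂_of_le (f := fun i (_ : i ∈ J) => S i) i hiJ le_rfl).trans
      (le_sup_right.trans le_sup_left)
  by_contra hcon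
  have hC : InvA N (L ⊔ ⨆ i ∈ J, S i) := by
    refine inv_sup hL ?_
    have e : (⨆ i ∈ J, S i) = ⨆ i : J, S i := iSup_subtype'
    rw [e]
    exact inv_iSup fun j => (hS j (hJs j.2)).1
  have hinf : S i ⊓ ((L ⊔ ⨆ i ∈ J, S i) ⊔ B) = L := by
    rcases (hS i hi).2.2 (S i ⊓ ((L ⊔ ⨆ i ∈ J, S i) ⊔ B)) (inv_inf (hS i hi).1 (inv_sup hC hB))
      (le_inf (hS i hi).2.1 (hLB.trans le_sup_right)) inf_le_left with h | h
    · exact h
    · exact absurd (inf_eq_left.1 h) hcon
  have hnew : insert i J ∈ P := by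
    rw [Finset.mem_filter, Finset.mem_powerset]
    refine ⟨Finset.insert_subset hi hJs, ?_⟩
    rw [Finset.iSup_insert]
    apply le_antisymm
    · rintro x ⟨hx1, hx2⟩
      have hx1' : x ∈ (L ⊔ ⨆ i ∈ J, S i) ⊔ S i := by
        have e : (L ⊔ ⨆ i ∈ J, S i) ⊔ S i = L ⊔ (S i ⊔ ⨆ x ∈ J, S x) := by
          rw [sup_assoc, sup_comm (S i)]
        rw [e]; exact hx1
      obtain ⟨c, hc, m, hm, rfl⟩ := AddSubgroup.mem_sup.1 hx1'
      have hmB : m ∈ (L ⊔ ⨆ i ∈ J, S i) ⊔ B := by
        have : m = -c + (c + m) := by abel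
        rw [this]
        exact add_mem (neg_mem (AddSubgroup.mem_sup_left hc)) (AddSubgroup.mem_sup_right hx2)
      have hmL : m ∈ L := by
        rw [← hinf]; exact ⟨hm, hmB⟩
      have : c + m ∈ (L ⊔ ⨆ i ∈ J, S i) ⊓ B := ⟨add_mem hc (AddSubgroup.mem_sup_left hmL), hx2⟩
      rwa [hJB] at this
    · exact le_inf le_sup_left hLB
  have := hmax _ hnew
  rw [Finset.card_insert_of_notMem hiJ] at this
  omega

end Pool.Agent.Lib.ThC.GL

end

section

/-! # G4b2: strictness, 1 -/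

set_option autoImplicit false
open scoped Pointwise

namespace Pool.Agent.Lib.ThC.GL
variable {Γ A : Type} [Group Γ] [AddCommGroup A] [DistribMulAction Γ A]
variable {U N : Subgroup Γ} {V1 M X : AddSubgroup A} {v0 v : A}

private theorem G4b2_inv_biSup {K : Subgroup Γ} (s : Finset Γ) {f : Γ → AddSubgroup A}
    (h : ∀ g ∈ s, InvA K (f g)) : InvA K (⨆ g ∈ s, f g) := by
  rw [iSup_subtype']
  exact inv_iSup fun x => h x.1 x.2

/-- If `B1 < B2 ≤ VV U M` are `N`-invariant, there are `g ∈ U` and `v ∈ B2 \ B1` such that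
`g • v0 ↦ v` extends to an `N`-homomorphism modulo `V1`.
Proof.  Take a finite `s ⊆ U` of minimal cardinality with `(V1 ⊔ ⨆ g ∈ s, g • M) ⊓ B2 ⊄ B1`,
`g ∈ s`, `s' = s \ {g}`, `C = V1 ⊔ ⨆ g' ∈ s', g' • M`; so `C ⊓ B2 ≤ B1`, `g • M ⊓ C = V1`
(`CR.inf`; otherwise `s'` would do).  `D = (C ⊔ g • M) ⊓ B2` is not inside `C`.
`compl_simple` (for `s'`, `B = C ⊓ B2`) gives `C' ≤ C` with `C' ⊓ B2 = V1`,
`C = C' ⊔ (C ⊓ B2)`.  `D' = D ⊓ (C' ⊔ g • M)`.  Modular law: `D = (C ⊓ B2) ⊔ D'`,
`D' ⊓ C = V1`.  `D' ⊔ C` contains `g • M` (`CR.inf`: otherwise `(D' ⊔ C) ⊓ g • M = V1`, so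
`D' ≤ C`, `D ≤ C`).  So `g • v0 = v + c`, `v ∈ D'`, `c ∈ C`, in fact `c ∈ C'`.  If
`α (g • v0) ∈ V1` then `α v ∈ D'` and `α v ≡ - α c ∈ C`, so `α v ∈ D' ⊓ C = V1`.  `v ∉ B1`:
otherwise `v ∈ B1 ⊓ D'`; but `D'` is minimal over `V1` (modulo `V1` it is isomorphic to
`g • M`: for an invariant `X` with `V1 ≤ X ≤ D'`, `X ⊔ C` contains `g • M` or meets it in
`V1`), `v ∉ V1`, so `D' ≤ B1`, `D ≤ B1`. -/
theorem CR.find (h : CR U N V1 M v0) {B1 B2 : AddSubgroup A} (h1 : InvA N B1)
    (h2 : InvA N B2) (hV : V1 ≤ B1) (hlt : B1 < B2) (hle : B2 ≤ VV U M) :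
    ∃ g ∈ U, ∃ v ∈ B2, v ∉ B1 ∧ ∀ α ∈ EN A N, α (g • v0) ∈ V1 → α v ∈ V1 := by
  classical
  have hNU := h.NU
  have iV : InvA N V1 := inv_mono hNU h.i1
  -- a finite set of translates
  have hex : ∃ n : ℕ, ∃ s : Finset Γ, s.card = n ∧ (∀ g ∈ s, g ∈ U) ∧
      ¬ ((V1 ⊔ ⨆ g ∈ s, g • M) ⊓ B2 ≤ B1) := by
    obtain ⟨x, hx2, hx1⟩ := SetLike.exists_of_lt hlt
    obtain ⟨s, hsU, hxs⟩ := mem_VV (hle hx2)
    refine ⟨s.card, s, rfl, hsU, fun hh => hx1 (hh ?_)⟩
    exact AddSubgroup.mem_inf.2 ⟨(le_sup_right : (⨆ g ∈ s, g • M) ≤ _) hxs, hx2⟩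
  obtain ⟨s, hcard, hsU, hsB⟩ := Nat.find_spec hex
  have hmin : ∀ t : Finset Γ, (∀ g ∈ t, g ∈ U) → t.card < s.card →
      (V1 ⊔ ⨆ g ∈ t, g • M) ⊓ B2 ≤ B1 := by
    intro t ht htc
    by_contra hcon
    rw [hcard] at htc
    exact Nat.find_min hex htc ⟨t, rfl, ht, hcon⟩
  have hsne : s.Nonempty := by
    rw [Finset.nonempty_iff_ne_empty]
    rintro rfl
    apply hsB
    intro x hx
    have := (AddSubgroup.mem_inf.1 hx).1
    simp only [Finset.notMem_empty, not_false_eq_true, iSup_neg, iSup_bot, sup_bot_eq] at this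
    exact hV this
  obtain ⟨g, hgs⟩ := hsne
  have hgU : g ∈ U := hsU g hgs
  have hs'U : ∀ g' ∈ s.erase g, g' ∈ U := fun g' hg' => hsU g' (Finset.mem_of_mem_erase hg')
  have hCB : (V1 ⊔ ⨆ g' ∈ s.erase g, g' • M) ⊓ B2 ≤ B1 :=
    hmin _ hs'U (Finset.card_erase_lt_of_mem hgs)
  set C : AddSubgroup A := V1 ⊔ ⨆ g' ∈ s.erase g, g' • M with hC
  have hVC : V1 ≤ C := le_sup_left
  have iC : InvA N C := by
    exact inv_sup iV (G4b2_inv_biSup _ fun g' hg' => (h.smul (hs'U g' hg')).iM)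
  have hsup : (V1 ⊔ ⨆ g' ∈ s, g' • M) ≤ C ⊔ g • M := by
    refine sup_le (hVC.trans le_sup_left) (iSup₂_le fun g' hg' => ?_)
    by_cases he : g' = g
    · rw [he]; exact le_sup_right
    · refine le_trans ?_ (le_sup_left : C ≤ C ⊔ g • M)
      refine le_trans ?_ (le_sup_right : (⨆ g' ∈ s.erase g, g' • M) ≤ C)
      exact le_iSup₂_of_le g' (Finset.mem_erase.2 ⟨he, hg'⟩) le_rfl
  have hgC : g • M ⊓ C = V1 := by
    rcases h.inf hgU iC hVC with h0 | h0
    · exfalso
      apply hsB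
      intro x hx
      obtain ⟨hx1, hx2⟩ := AddSubgroup.mem_inf.1 hx
      have := hsup hx1
      rw [sup_eq_left.2 h0] at this
      exact hCB (AddSubgroup.mem_inf.2 ⟨this, hx2⟩)
    · exact h0
  have iB : InvA N (C ⊓ B2) := inv_inf iC h2
  have hVB2 : V1 ≤ B2 := hV.trans hlt.le
  have hcg := h.smul hgU
  obtain ⟨J, hJ, hJ1, hJ2⟩ := compl_simple (N := N) (s.erase g) (S := fun i => i • M)
    (L := V1) (B := C ⊓ B2) iV
    (fun i hi => ⟨(h.smul (hs'U i hi)).iM, (h.smul (hs'U i hi)).le, (h.smul (hs'U i hi)).sim⟩)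
    iB (le_inf hVC hVB2)
  set C' : AddSubgroup A := V1 ⊔ ⨆ i ∈ J, i • M with hC'
  have hVC' : V1 ≤ C' := le_sup_left
  have hC'C : C' ≤ C := by
    refine sup_le hVC (iSup₂_le fun i hi => ?_)
    refine le_trans ?_ (le_sup_right : (⨆ g' ∈ s.erase g, g' • M) ≤ C)
    exact le_iSup₂_of_le i (hJ hi) le_rfl
  have iC' : InvA N C' := by
    exact inv_sup iV (G4b2_inv_biSup _ fun g' hg' => (h.smul (hs'U g' (hJ hg'))).iM)
  have hCC' : C ≤ C' ⊔ (C ⊓ B2) :=
    sup_le (hVC'.trans le_sup_left) (iSup₂_le fun i hi => hJ2 i hi)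
  set D' : AddSubgroup A := B2 ⊓ (C' ⊔ g • M) with hD'
  have iD' : InvA N D' := inv_inf h2 (inv_sup iC' hcg.iM)
  have hVD' : V1 ≤ D' := le_inf hVB2 (hVC'.trans le_sup_left)
  -- (2)
  have hD'C : ∀ y ∈ D', y ∈ C → y ∈ V1 := by
    intro y hy hyC
    obtain ⟨hy1, hy2⟩ := AddSubgroup.mem_inf.1 hy
    obtain ⟨c', hc', m, hm, hcm⟩ := AddSubgroup.mem_sup.1 hy2
    have hmC : m ∈ C := by
      have : m = y - c' := by rw [← hcm]; abel
      rw [this]
      exact sub_mem hyC (hC'C hc')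
    have hmV : m ∈ V1 := by rw [← hgC]; exact AddSubgroup.mem_inf.2 ⟨hm, hmC⟩
    have hyC' : y ∈ C' := by
      rw [← hcm]
      exact add_mem hc' (hVC' hmV)
    rw [← hJ1]
    exact AddSubgroup.mem_inf.2 ⟨hyC', AddSubgroup.mem_inf.2 ⟨hyC, hy1⟩⟩
  -- (1)
  obtain ⟨x, hx, hxB⟩ := SetLike.not_le_iff_exists.1 hsB
  obtain ⟨hxs, hx2⟩ := AddSubgroup.mem_inf.1 hx
  obtain ⟨c, hc, m, hm, hcm⟩ := AddSubgroup.mem_sup.1 (hsup hxs)
  obtain ⟨c', hc', b, hb, hcb⟩ := AddSubgroup.mem_sup.1 (hCC' hc)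
  have hbB : b ∈ B1 := hCB hb
  have hb2 : b ∈ B2 := (AddSubgroup.mem_inf.1 hb).2
  have hd : c' + m ∈ D' := by
    refine AddSubgroup.mem_inf.2 ⟨?_, add_mem ((le_sup_left : C' ≤ C' ⊔ g • M) hc')
      ((le_sup_right : g • M ≤ C' ⊔ g • M) hm)⟩
    have : c' + m = x - b := by rw [← hcm, ← hcb]; abel
    rw [this]
    exact sub_mem hx2 hb2
  have hdB : c' + m ∉ B1 := by
    intro hh
    apply hxB
    have : x = (c' + m) + b := by rw [← hcm, ← hcb]; abel
    rw [this]
    exact add_mem hh hbB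
  -- (3)
  have hDC : g • M ≤ D' ⊔ C := by
    rcases h.inf hgU (inv_sup iD' iC) (hVC.trans le_sup_right) with h0 | h0
    · exact h0
    · exfalso
      have hmV : m ∈ V1 := by
        rw [← h0]
        refine AddSubgroup.mem_inf.2 ⟨hm, ?_⟩
        have : m = (c' + m) - c' := by abel
        rw [this]
        exact sub_mem ((le_sup_left : D' ≤ D' ⊔ C) hd) ((le_sup_right : C ≤ D' ⊔ C) (hC'C hc'))
      have : c' + m ∈ C := add_mem (hC'C hc') (hVC hmV)
      exact hdB (hV (hD'C _ hd this))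
  obtain ⟨v, hvD, c₁, hc₁, hvc⟩ := AddSubgroup.mem_sup.1 (hDC hcg.v0M)
  refine ⟨g, hgU, v, (AddSubgroup.mem_inf.1 hvD).1, ?_, ?_⟩
  · intro hvB
    have iX : InvA N (B1 ⊓ D') := inv_inf h1 iD'
    have hvX : v ∈ B1 ⊓ D' := AddSubgroup.mem_inf.2 ⟨hvB, hvD⟩
    rcases h.inf hgU (inv_sup iX iC) (hVC.trans le_sup_right) with h0 | h0
    · apply hdB
      have h3 : c' + m ∈ B1 ⊓ D' ⊔ C :=
        add_mem ((le_sup_right : C ≤ B1 ⊓ D' ⊔ C) (hC'C hc')) (h0 hm)
      obtain ⟨x', hx', c₂, hc₂, hxc⟩ := AddSubgroup.mem_sup.1 h3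
      obtain ⟨hx'1, hx'2⟩ := AddSubgroup.mem_inf.1 hx'
      have h4 : c₂ ∈ V1 := by
        refine hD'C _ ?_ hc₂
        have : c₂ = (c' + m) - x' := by rw [← hxc]; abel
        rw [this]
        exact sub_mem hd hx'2
      rw [← hxc]
      exact add_mem hx'1 (hV h4)
    · apply hcg.v0n
      rw [← h0]
      refine AddSubgroup.mem_inf.2 ⟨hcg.v0M, ?_⟩
      rw [← hvc]
      exact add_mem ((le_sup_left : B1 ⊓ D' ≤ B1 ⊓ D' ⊔ C) hvX)
        ((le_sup_right : C ≤ B1 ⊓ D' ⊔ C) hc₁)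
  · intro α hα hαV
    have h3 : α v ∈ D' := en_inv hα iD' hvD
    have h4 : α c₁ ∈ C := en_inv hα iC hc₁
    refine hD'C _ h3 ?_
    have h5 : α v = α (g • v0) - α c₁ := by
      rw [← hvc, map_add]; abel
    rw [h5]
    exact sub_mem (hVC hαV) h4

end Pool.Agent.Lib.ThC.GL

end

section

/-! # G4b3: strictness, 2 -/

set_option autoImplicit false
open scoped Pointwise

namespace Pool.Agent.Lib.ThC.GL
variable {Γ A : Type} [Group Γ] [AddCommGroup A] [DistribMulAction Γ A]
variable {U N : Subgroup Γ} {V1 M X : AddSubgroup A} {v0 v : A}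

/-- take `g⁻¹ • v` for the `v` of `CR.find`, and `en_cj`. -/
theorem CR.strict (h : CR U N V1 M v0) {B1 B2 : AddSubgroup A} (h1 : InvA U B1)
    (h2 : InvA U B2) (hV : V1 ≤ B1) (hlt : B1 < B2) (hle : B2 ≤ VV U M) :
    TT U N V1 M v0 ⊓ B1 < TT U N V1 M v0 ⊓ B2 := by
  obtain ⟨g, hg, v, hv2, hv1, hα⟩ := h.find (inv_mono h.NU h1) (inv_mono h.NU h2) hV hlt hle
  refine lt_of_le_not_ge (inf_le_inf_left _ hlt.le) fun hcon => hv1 ?_
  have hgi : g⁻¹ ∈ U := inv_mem hg
  have hv' : g⁻¹ • v ∈ TT U N V1 M v0 ⊓ B2 := by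
    refine AddSubgroup.mem_inf.2 ⟨mem_TT.2 ⟨hle (h2 _ hgi _ hv2), fun α hαN hαV => ?_⟩,
      h2 _ hgi _ hv2⟩
    obtain ⟨β, hβ, hβα⟩ := en_cj hαN (fun n hn => h.nrm g hg n hn)
    have h3 : β (g • v0) ∈ V1 := by
      rw [hβα, inv_smul_smul]
      exact h.i1 g hg _ hαV
    have h4 := hα β hβ h3
    rw [hβα] at h4
    have h5 := h.i1 _ hgi _ h4
    rwa [inv_smul_smul] at h5
  have h6 := (AddSubgroup.mem_inf.1 (hcon hv')).2
  have h7 := h1 g hg _ h6
  rwa [smul_inv_smul] at h7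

end Pool.Agent.Lib.ThC.GL

end

section

/-! # G4c1: the structure of TT, 1 -/

set_option autoImplicit false
open scoped Pointwise

namespace Pool.Agent.Lib.ThC.GL
variable {Γ A : Type} [Group Γ] [AddCommGroup A] [DistribMulAction Γ A]
variable {U N : Subgroup Γ} {V1 M X : AddSubgroup A} {v0 v : A}

theorem CR.V1_le_TT (h : CR U N V1 M v0) : V1 ≤ TT U N V1 M v0 := by
  intro v hv
  exact ⟨le_VV (h.le hv), fun α hα _ => en_inv hα (inv_mono h.NU h.i1) hv⟩

/-- `TT` is invariant under `U_0 = stM U V1 v0`: for `u ∈ U_0` and `α v0 ∈ V1`, the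
conjugate `β = u⁻¹ α u` has `β v0 = u⁻¹ • α (u • v0)`, `α (u • v0) ≡ α v0` modulo `V1`. -/
theorem CR.inv_TT (h : CR U N V1 M v0) : InvA (stM U V1 v0) (TT U N V1 M v0) := by
  intro u hu v hv
  have hu' := (mem_stM h.i1).1 hu
  have huU : u⁻¹ ∈ U := U.inv_mem hu'.1
  refine ⟨inv_VV u hu'.1 v hv.1, fun α hα h0 => ?_⟩
  obtain ⟨β, hβ, hβe⟩ := en_cj hα (g := u⁻¹) (fun n hn => h.nrm u⁻¹ huU n hn)
  have h1 : β v0 ∈ V1 := by
    rw [hβe, inv_inv]
    refine h.i1 _ huU _ ?_
    have h2 : u • v0 = v0 + (u • v0 - v0) := by abel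
    rw [h2, map_add]
    exact add_mem h0 (en_inv hα (inv_mono h.NU h.i1) hu'.2)
  have h3 := hv.2 β hβ h1
  rw [hβe, inv_inv] at h3
  have h4 := h.i1 u hu'.1 _ h3
  rwa [smul_inv_smul] at h4

/-- elements of `TT` are fixed by `N ⊓ U_0` modulo `V1`. -/
theorem CR.TT_fixed (h : CR U N V1 M v0) (hv : v ∈ TT U N V1 M v0) {n : Γ}
    (hn : n ∈ N ⊓ stM U V1 v0) : n • v - v ∈ V1 := by
  obtain ⟨α, hα, he⟩ := en_sub (A := A) hn.1
  have h1 : α v0 ∈ V1 := by
    rw [he]
    exact ((mem_stM h.i1).1 hn.2).2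
  have h2 := hv.2 α hα h1
  rwa [he] at h2

/-- for `u ∈ U_0`: `u • (TT ⊓ g • M) = TT ⊓ (u * g) • M`. -/
theorem CR.smul_TT (h : CR U N V1 M v0) {u g : Γ} (hu : u ∈ stM U V1 v0) :
    u • (TT U N V1 M v0 ⊓ g • M) = TT U N V1 M v0 ⊓ (u * g) • M := by
  have h1 : u • (TT U N V1 M v0 ⊓ g • M) = u • TT U N V1 M v0 ⊓ u • (g • M) := by
    ext x
    simp only [AddSubgroup.mem_pointwise_smul_iff_inv_smul_mem, AddSubgroup.mem_inf]
  rw [h1, smul_eq_of_inv h.inv_TT hu, smul_smul]

end Pool.Agent.Lib.ThC.GL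

end

section

/-! # G4c2: the structure of TT, 2 -/

set_option autoImplicit false
open scoped Pointwise

namespace Pool.Agent.Lib.ThC.GL
variable {Γ A : Type} [Group Γ] [AddCommGroup A] [DistribMulAction Γ A]
variable {U N : Subgroup Γ} {V1 M X : AddSubgroup A} {v0 v : A}

/-- If `v ∈ TT` is in a finite sum of translates, its components can be chosen in `TT`:
induction on the number of translates; `v = c + m`, `c` in the sum `C` of the others (with `V1`),
`m ∈ g • M`, `C ⊓ g • M = V1` (else drop `g`); if `α v0 ∈ V1` then `α c + α m ∈ V1`,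
so `α c ∈ C ⊓ g • M = V1`. -/
theorem CR.TT_le (h : CR U N V1 M v0) :
    TT U N V1 M v0 ≤ V1 ⊔ ⨆ g : U, (TT U N V1 M v0 ⊓ (g : Γ) • M) := by
  classical
  have key : ∀ s : Finset Γ, (∀ g ∈ s, g ∈ U) → ∀ v ∈ TT U N V1 M v0,
      v ∈ V1 ⊔ ⨆ g ∈ s, g • M →
      v ∈ V1 ⊔ ⨆ g : U, (TT U N V1 M v0 ⊓ (g : Γ) • M) := by
    intro s
    induction s using Finset.induction_on with
    | empty =>
      intro _ v _ hv
      have h1 : v ∈ V1 := by simpa using hv
      exact (le_sup_left : V1 ≤ _) h1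
    | insert g s hgs ih =>
      intro hs v hv hvs
      have hg : g ∈ U := hs g (Finset.mem_insert_self g s)
      have hs' : ∀ g' ∈ s, g' ∈ U := fun g' hg' => hs g' (Finset.mem_insert_of_mem hg')
      have hC : InvA N (V1 ⊔ ⨆ g' ∈ s, g' • M) := by
        refine inv_sup (inv_mono h.NU h.i1) (inv_iSup fun g' => ?_)
        by_cases hg' : g' ∈ s
        · have h1 : (⨆ (_ : g' ∈ s), g' • M) = g' • M := by
            rw [iSup_pos hg']
          rw [h1]
          exact (h.smul (hs' g' hg')).iM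
        · have h1 : (⨆ (_ : g' ∈ s), g' • M) = ⊥ := by
            rw [iSup_neg hg']
          rw [h1]
          exact inv_bot
      have hCV : (V1 ⊔ ⨆ g' ∈ s, g' • M) ≤ VV U M := by
        refine sup_le (h.le.trans le_VV) (iSup₂_le fun g' hg' => smul_le_VV (hs' g' hg'))
      have heq : (V1 ⊔ ⨆ g' ∈ insert g s, g' • M) = (V1 ⊔ ⨆ g' ∈ s, g' • M) ⊔ g • M := by
        rw [Finset.iSup_insert, sup_comm (g • M), sup_assoc]
      rw [heq] at hvs
      obtain ⟨c, hc, m, hm, hcm⟩ := AddSubgroup.mem_sup.1 hvs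
      rcases h.inf hg hC le_sup_left with h1 | h1
      · refine ih hs' v hv ?_
        rw [← hcm]
        exact add_mem hc (h1 hm)
      · have hcTT : c ∈ TT U N V1 M v0 := by
          refine ⟨hCV hc, fun α hα h0 => ?_⟩
          have h2 : α c ∈ V1 ⊔ ⨆ g' ∈ s, g' • M := en_inv hα hC hc
          have h3 : α m ∈ g • M := en_inv hα (h.smul hg).iM hm
          have h4 : α v ∈ V1 := hv.2 α hα h0
          have h5 : α c = α v - α m := by
            rw [← hcm, map_add]
            abel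
          rw [← h1]
          refine ⟨?_, h2⟩
          show α c ∈ g • M
          rw [h5]
          exact sub_mem ((h.smul hg).le h4) h3
        have hmTT : m ∈ TT U N V1 M v0 := by
          have h2 : m = v - c := by
            rw [← hcm]
            abel
          rw [h2]
          exact sub_mem hv hcTT
        rw [← hcm]
        refine add_mem (ih hs' c hcTT hc) ?_
        have h2 : TT U N V1 M v0 ⊓ g • M ≤ ⨆ g : U, (TT U N V1 M v0 ⊓ (g : Γ) • M) :=
          le_iSup (fun g : U => (TT U N V1 M v0 ⊓ (g : Γ) • M)) ⟨g, hg⟩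
        exact (h2.trans le_sup_right) ⟨hmTT, hm⟩
  intro v hv
  obtain ⟨s, hs, hvs⟩ := mem_VV hv.1
  exact key s hs v hv ((le_sup_right : _ ≤ V1 ⊔ _) hvs)

end Pool.Agent.Lib.ThC.GL

end

section

/-! # G4d1: Clifford theory, 1 -/

set_option autoImplicit false
open scoped Pointwise

namespace Pool.Agent.Lib.ThC.GL
variable {Γ A : Type} [Group Γ] [AddCommGroup A] [DistribMulAction Γ A]
variable {U N : Subgroup Γ} {V1 M X : AddSubgroup A} {v0 v : A}

/-- `TT` has finite length over `U_0`: with `R`, the sum of the translates is the sum of the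
`u • (r • M)`, `u ∈ U_0`, `r ∈ R` (`CR.smul_eq`), so by `CR.TT_le`, `CR.smul_TT` the group `TT`
is generated over `V1` and `U_0` by the sets `TT ⊓ r • M`, which are finite modulo `V1`.  So `TT`
is `V1 ⊔` a finite sum of `spanN U_0 v`. -/
theorem CR.flen_TT (h : CR U N V1 M v0)
    (hi : ∃ R : Finset Γ, (∀ r ∈ R, r ∈ U) ∧ ∀ g ∈ U, ∃ r ∈ R,
      ∃ a ∈ stM U V1 v0, ∃ b ∈ stM U V1 v0, g = a * r * b)
    (hii : ∀ g ∈ U, FinMod V1 {v | v ∈ g • M ∧
      ∀ n ∈ N ⊓ stM U V1 v0, n • v - v ∈ V1})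
    (hiii : ∀ v ∈ VV U M, (∀ n ∈ N ⊓ stM U V1 v0, n • v - v ∈ V1) →
      FLen (stM U V1 v0) V1 (V1 ⊔ spanN (stM U V1 v0) v)) :
    FLen (stM U V1 v0) V1 (TT U N V1 M v0) := by
  classical
  obtain ⟨R, hRU, hR⟩ := hi
  have hfin : ∀ r : Γ, ∃ F : Finset A, r ∈ R → ∀ m ∈ TT U N V1 M v0 ⊓ r • M,
      ∃ f ∈ F, m - f ∈ V1 := by
    intro r
    by_cases hr : r ∈ R
    · obtain ⟨F, hF⟩ := hii r (hRU r hr)
      exact ⟨F, fun _ m hm => hF m ⟨hm.2, fun n hn => h.TT_fixed hm.1 hn⟩⟩
    · exact ⟨∅, fun h0 => absurd h0 hr⟩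
  choose F hF using hfin
  let W : Finset A := (R.biUnion F).filter (fun f => f ∈ TT U N V1 M v0)
  have hWT : ∀ w ∈ W, w ∈ TT U N V1 M v0 := fun w hw => (Finset.mem_filter.1 hw).2
  let S : W → AddSubgroup A := fun w => V1 ⊔ spanN (stM U V1 v0) (w : A)
  have hV1 : InvA (stM U V1 v0) V1 := inv_mono stM_le h.i1
  have hSi : ∀ w, InvA (stM U V1 v0) (S w) := fun w => inv_sup hV1 (inv_spanN _ _)
  have hfl : FLen (stM U V1 v0) V1 (V1 ⊔ ⨆ w, S w) := by
    refine FLen.iSup hV1 (fun w => le_sup_left) hSi (fun w => ?_)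
    exact hiii w (hWT w w.2).1 (fun n hn => h.TT_fixed (hWT w w.2) hn)
  refine FLen.mono le_rfl ?_ hfl
  have hinv : InvA (stM U V1 v0) (V1 ⊔ ⨆ w, S w) := inv_sup hV1 (inv_iSup hSi)
  refine h.TT_le.trans (sup_le le_sup_left (iSup_le fun g => ?_))
  obtain ⟨r, hr, a, ha, b, hb, hg⟩ := hR g g.2
  have h1 : (g : Γ) • M = (a * r) • M := by
    rw [hg, mul_smul, h.smul_eq hb]
  rw [h1, ← h.smul_TT ha]
  intro x hx
  obtain ⟨y, hy, rfl⟩ := (AddSubgroup.mem_smul_pointwise_iff_exists _ _ _).1 hx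
  refine hinv a ha y ?_
  obtain ⟨f, hf, hyf⟩ := hF r hr y hy
  have hfT : f ∈ TT U N V1 M v0 := by
    have h2 : f = y - (y - f) := by abel
    rw [h2]
    exact sub_mem hy.1 (h.V1_le_TT hyf)
  have hfW : f ∈ W := Finset.mem_filter.2 ⟨Finset.mem_biUnion.2 ⟨r, hr, hf⟩, hfT⟩
  have h2 : y = (y - f) + f := by abel
  rw [h2]
  refine add_mem ((le_sup_left : V1 ≤ _) hyf) ?_
  have h3 : S ⟨f, hfW⟩ ≤ V1 ⊔ ⨆ w, S w := (le_iSup S ⟨f, hfW⟩).trans le_sup_right
  exact h3 ((le_sup_right : spanN (stM U V1 v0) f ≤ _) (mem_spanN_self _ _))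

end Pool.Agent.Lib.ThC.GL

end

section

/-! # G4d2: Clifford theory, 2 -/

set_option autoImplicit false
open scoped Pointwise

namespace Pool.Agent.Lib.ThC.GL
variable {Γ A : Type} [Group Γ] [AddCommGroup A] [DistribMulAction Γ A]
variable {U N : Subgroup Γ} {V1 M X : AddSubgroup A} {v0 v : A}

/-- THEOREM (CR): `FLen.of_map` with `F B = TT ⊓ B` (`CR.strict`). -/
theorem CR.flen (h : CR U N V1 M v0)
    (hi : ∃ R : Finset Γ, (∀ r ∈ R, r ∈ U) ∧ ∀ g ∈ U, ∃ r ∈ R,
      ∃ a ∈ stM U V1 v0, ∃ b ∈ stM U V1 v0, g = a * r * b)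
    (hii : ∀ g ∈ U, FinMod V1 {v | v ∈ g • M ∧
      ∀ n ∈ N ⊓ stM U V1 v0, n • v - v ∈ V1})
    (hiii : ∀ v ∈ VV U M, (∀ n ∈ N ⊓ stM U V1 v0, n • v - v ∈ V1) →
      FLen (stM U V1 v0) V1 (V1 ⊔ spanN (stM U V1 v0) v)) :
    FLen U V1 (VV U M) := by
  refine FLen.of_map (K' := stM U V1 v0) (L' := V1) (M' := TT U N V1 M v0)
    (fun B => TT U N V1 M v0 ⊓ B) ?_ ?_ (h.flen_TT hi hii hiii)
  · intro X hX hVX _
    exact ⟨inv_inf h.inv_TT (inv_mono stM_le hX), le_inf h.V1_le_TT hVX, inf_le_left⟩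
  · intro X Y hX hY hVX hXY hYM
    exact h.strict hX hY hVX hXY hYM

end Pool.Agent.Lib.ThC.GL

end
end
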