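import Pool.Agent.Lib.MP_f9507c_lc.Mg.G002
import Pool.Agent.Lib.MP_f9507c_lc.Mg.G001
import Pool.Agent.Lib.MP_f9507c_lc.Mg.G005

section

section

/-! # C3a: orthogonality is preserved; canonical bases and Morley sequences -/

set_option autoImplicit false
open scoped Pointwise

namespace Pool.Agent.Lib.ThC

variable {Ω Γ : Type} [Group Γ] [MulAction Γ Ω]
variable {Z Y C : Type} [MulAction Γ Z] [MulAction Γ Y] [MulAction Γ C]

/-- independent copies: for `U ≤` any open group and an element `a` there is a sequence of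
`V`-conjugates of `a`, independent over `V`. (Realise a strong type of `a`:
`stp_exists`, `seq_real` over `V ⊓ st p`; ranks with `ur_of_real`, `ur_fi`.) -/
theorem indep_copies (hN : Nice Ω Γ) (hZ : Srt Ω Γ Z) {V : Subgroup Γ} (hV : Op Ω V) (a : Z) :
    ∃ c : ℕ → Z, (∀ n, ∃ g ∈ V, c n = g • a) ∧
      ∀ n, ur Ω (V ⊓ st Γ (ini c n)) (c n) = ur Ω V a := by
  obtain ⟨p, hpf, hpa⟩ := stp_exists hN hZ hV a
  have hp : Op Ω (st Γ p) := tp_open hN hZ p
  have hV0 : Op Ω (V ⊓ st Γ p) := op_inf hV hp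
  obtain ⟨c, hc⟩ := seq_real hN hZ hV0 (fun _ => p)
  have hini : ∀ n, Op Ω (st Γ (ini c n)) := fun n => (srt_pi hN hZ n).sm (ini c n)
  have hcV0 : ∀ n, orb (V ⊓ st Γ p) (c n) ∈ p.s := fun n =>
    p.up _ (hc n) _ (df_orb hV0 _) (orb_mono inf_le_left _)
  have hconj : ∀ n, ∃ g ∈ V ⊓ st Γ p, g • a = c n := by
    intro n
    have e := tp_orb_unique hpa (hcV0 n)
    have hm : c n ∈ orb (V ⊓ st Γ p) a := by rw [e]; exact mem_orb_self _ _
    exact hm
  have hfi : (V ⊓ st Γ p).relIndex V ≠ 0 := by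
    rw [Subgroup.inf_relIndex_left]
    exact (orb_finite_iff _ _).1 hpf
  refine ⟨c, fun n => ?_, fun n => ?_⟩
  · obtain ⟨g, hg, hgc⟩ := hconj n
    exact ⟨g, hg.1, hgc.symm⟩
  · obtain ⟨g, hg, hgc⟩ := hconj n
    have e1 : ur Ω (V ⊓ st Γ p ⊓ st Γ (ini c n)) (c n) = ur Ω (V ⊓ st Γ p) (c n) :=
      ur_of_real hN hZ hV0 (op_inf hV0 (hini n)) inf_le_left inf_le_right (hc n)
    have e2 : ur Ω (V ⊓ st Γ p) (c n) = ur Ω (V ⊓ st Γ p) a := by
      rw [← hgc]; exact ur_smul hg a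
    have e3 : ur Ω (V ⊓ st Γ p) a = ur Ω V a := ur_fi hN hZ hV0 inf_le_left hfi a
    have e4 : ur Ω V (c n) = ur Ω V a := by
      rw [← hgc]; exact ur_smul hg.1 a
    have l1 : ur Ω (V ⊓ st Γ p ⊓ st Γ (ini c n)) (c n) ≤ ur Ω (V ⊓ st Γ (ini c n)) (c n) :=
      ur_mono hN hZ (op_inf hV0 (hini n)) (inf_le_inf_right _ inf_le_left) _
    have l2 : ur Ω (V ⊓ st Γ (ini c n)) (c n) ≤ ur Ω V (c n) :=
      ur_mono hN hZ (op_inf hV (hini n)) inf_le_left _
    omega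

private theorem C3a_key {W₁ W₂ T : Type} [MulAction Γ W₁] [MulAction Γ W₂] [MulAction Γ T]
    (hN : Nice Ω Γ) (h₁ : Srt Ω Γ W₁) (h₂ : Srt Ω Γ W₂) (hT : Srt Ω Γ T)
    {U V : Subgroup Γ} (hU : Op Ω U) (hV : Op Ω V) (hVU : V ≤ U) {d d' : T}
    (hd : ur Ω V (d, d') = 2) {z : W₁} {w : W₂}
    (hz : ur Ω (V ⊓ st Γ z) d = 0) (hw : ur Ω (V ⊓ st Γ w) d' = 0)
    (hz1 : ur Ω U z = 1) (hw1 : ur Ω U w = 1) : ur Ω U (z, w) = 2 := by
  have h₁₂ := srt_prod hN h₁ h₂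
  have hTT := srt_prod hN hT hT
  have hVzw : Op Ω (V ⊓ st Γ (z, w)) := op_inf hV (h₁₂.sm _)
  have lz : V ⊓ st Γ (z, w) ≤ V ⊓ st Γ z := inf_le_inf_left _ (by rw [st_prod]; exact inf_le_left)
  have lw : V ⊓ st Γ (z, w) ≤ V ⊓ st Γ w := inf_le_inf_left _ (by rw [st_prod]; exact inf_le_right)
  have e1 : ur Ω (V ⊓ st Γ (z, w)) (d, d') = 0 := by
    rw [ur_pair' hN hT hT hVzw d d']
    have i1 : ur Ω (V ⊓ st Γ (z, w)) d ≤ ur Ω (V ⊓ st Γ z) d := ur_mono hN hT hVzw lz _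
    have i2 : ur Ω (V ⊓ st Γ (z, w) ⊓ st Γ d) d' ≤ ur Ω (V ⊓ st Γ w) d' :=
      ur_mono hN hT (op_inf hVzw (hT.sm d)) (inf_le_left.trans lw) _
    omega
  have e2 : ur Ω V (d, d') ≤ ur Ω V (z, w) :=
    ur_le_of_alg hN h₁₂ hTT hV _ _ ((ur_eq_zero hN hTT hVzw).1 e1)
  have e3 : ur Ω V (z, w) ≤ ur Ω U (z, w) := ur_mono hN h₁₂ hV hVU _
  have e4 := ur_pair' hN h₁ h₂ hU z w
  have e5 : ur Ω (U ⊓ st Γ z) w ≤ ur Ω U w :=
    ur_mono hN h₂ (op_inf hU (h₁.sm z)) inf_le_left _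
  omega

private theorem C3a_st_inl (z : Z) : st Γ (Sum.inl z : Z ⊕ Y) = st Γ z := by
  ext g
  simp [MulAction.mem_stabilizer_iff]

private theorem C3a_st_inr (y : Y) : st Γ (Sum.inr y : Z ⊕ Y) = st Γ y := by
  ext g
  simp [MulAction.mem_stabilizer_iff]

/-- (T1') orthogonality is preserved when adding an element `c` independent from
`x` and from `y`.  Otherwise `ur (U ⊓ st c) (x,y) = 1`; take `m = ur U c + 1`
copies `(x_j, y_j)` of `(x,y)` over `U ⊓ st c`, independent over it (`indep_copies`).  The `2 m`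
elements have rank one over `U` and are pairwise
independent over `U`, so by `triv` (in `Z ⊕ Y`) they have rank `2 m` over `U`; but their rank
over `U` is at most `ur U c + m`. -/
theorem triv_orth (hN : Nice Ω Γ) (hZ : Srt Ω Γ Z) (hY : Srt Ω Γ Y) (hC : Srt Ω Γ C)
    {U : Subgroup Γ} (hU : Op Ω U) (x : Z) (y : Y) (c : C)
    (hxc : ur Ω (U ⊓ st Γ c) x = 1) (hyc : ur Ω (U ⊓ st Γ c) y = 1)
    (hx : ur Ω U x = 1) (hy : ur Ω U y = 1) (hxy : ur Ω U (x, y) = 2) :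
    ur Ω (U ⊓ st Γ c) (x, y) = 2 := by
  have hZY := srt_prod hN hZ hY
  have hS : Srt Ω Γ (Z ⊕ Y) := srt_sum hZ hY
  have hV : Op Ω (U ⊓ st Γ c) := op_inf hU (hC.sm c)
  have hVU : U ⊓ st Γ c ≤ U := inf_le_left
  have p1 := ur_pair' hN hZ hY hV x y
  have p2 := ur_pair hN hZ hY hV x y
  have m1 : ur Ω (U ⊓ st Γ c ⊓ st Γ x) y ≤ ur Ω (U ⊓ st Γ c) y :=
    ur_mono hN hY (op_inf hV (hZ.sm x)) inf_le_left _
  by_contra hne
  have hV1 : ur Ω (U ⊓ st Γ c) (x, y) = 1 := by omega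
  have hyx : ur Ω (U ⊓ st Γ c ⊓ st Γ x) y = 0 := by omega
  have hxy0 : ur Ω (U ⊓ st Γ c ⊓ st Γ y) x = 0 := by omega
  obtain ⟨d, hd, hdr⟩ := indep_copies hN hZY hV (x, y)
  rw [hV1] at hdr
  have hini : ∀ n, Op Ω (st Γ (ini d n)) := fun n => (srt_pi hN hZY n).sm (ini d n)
  choose g hg hgd using hd
  have hd1 : ∀ n, ur Ω (U ⊓ st Γ c) (d n) = 1 := fun n => by
    rw [hgd n, ur_smul (hg n), hV1]
  -- pairs of copies
  have hpair : ∀ i j, i < j → ur Ω (U ⊓ st Γ c) (d i, d j) = 2 ∧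
      ur Ω (U ⊓ st Γ c) (d j, d i) = 2 := by
    intro i j hij
    have hle : st Γ (ini d j) ≤ st Γ (d i) := by
      intro k hk
      have hk' : k • ini d j = ini d j := hk
      exact congrFun hk' ⟨i, hij⟩
    have a1 : ur Ω (U ⊓ st Γ c ⊓ st Γ (ini d j)) (d j) ≤
        ur Ω (U ⊓ st Γ c ⊓ st Γ (d i)) (d j) :=
      ur_mono hN hZY (op_inf hV (hini j)) (inf_le_inf_left _ hle) _
    have a2 : ur Ω (U ⊓ st Γ c ⊓ st Γ (d i)) (d j) ≤ ur Ω (U ⊓ st Γ c) (d j) :=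
      ur_mono hN hZY (op_inf hV (hZY.sm _)) inf_le_left _
    have a3 := hdr j
    have a4 := hd1 j
    have a5 := hd1 i
    have a6 := ur_pair' hN hZY hZY hV (d i) (d j)
    have a7 := ur_pair hN hZY hZY hV (d j) (d i)
    exact ⟨by omega, by omega⟩
  have hpair' : ∀ i j, i ≠ j → ur Ω (U ⊓ st Γ c) (d i, d j) = 2 := by
    intro i j hij
    rcases lt_or_gt_of_ne hij with h | h
    · exact (hpair i j h).1
    · exact (hpair j i h).2
  -- components
  have hgU : ∀ n, g n ∈ U := fun n => hVU (hg n)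
  have hdx : ∀ n, (d n).1 = g n • x := fun n => by rw [hgd n]; rfl
  have hdy : ∀ n, (d n).2 = g n • y := fun n => by rw [hgd n]; rfl
  have hcj : ∀ n, cj (g n) (U ⊓ st Γ c) = U ⊓ st Γ c := fun n => cj_eq_of_mem (hg n)
  have algx : ∀ n, ur Ω (U ⊓ st Γ c ⊓ st Γ (d n).1) (d n) = 0 := by
    intro n
    have b1 : ur Ω (U ⊓ st Γ c ⊓ st Γ x) (x, y) = 0 := by
      have hVx : Op Ω (U ⊓ st Γ c ⊓ st Γ x) := op_inf hV (hZ.sm x)
      have c1 := ur_pair' hN hZ hY hVx x y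
      have c2 : ur Ω (U ⊓ st Γ c ⊓ st Γ x) x = 0 := by
        rw [ur_eq_zero hN hZ hVx, orb_finite_iff, Subgroup.relIndex_eq_one.2 inf_le_right]
        exact one_ne_zero
      have c3 : ur Ω (U ⊓ st Γ c ⊓ st Γ x ⊓ st Γ x) y ≤ ur Ω (U ⊓ st Γ c ⊓ st Γ x) y :=
        ur_mono hN hY (op_inf hVx (hZ.sm x)) inf_le_left _
      omega
    have b2 := ur_cj (Ω := Ω) (g n) (U ⊓ st Γ c ⊓ st Γ x) (x, y)
    rw [cj_inf, hcj n, ← st_smul, ← hdx n, ← hgd n, b1] at b2
    exact b2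
  have algy : ∀ n, ur Ω (U ⊓ st Γ c ⊓ st Γ (d n).2) (d n) = 0 := by
    intro n
    have b1 : ur Ω (U ⊓ st Γ c ⊓ st Γ y) (x, y) = 0 := by
      have hVy : Op Ω (U ⊓ st Γ c ⊓ st Γ y) := op_inf hV (hY.sm y)
      have c1 := ur_pair hN hZ hY hVy x y
      have c2 : ur Ω (U ⊓ st Γ c ⊓ st Γ y) y = 0 := by
        rw [ur_eq_zero hN hY hVy, orb_finite_iff, Subgroup.relIndex_eq_one.2 inf_le_right]
        exact one_ne_zero
      have c3 : ur Ω (U ⊓ st Γ c ⊓ st Γ y ⊓ st Γ y) x ≤ ur Ω (U ⊓ st Γ c ⊓ st Γ y) x :=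
        ur_mono hN hZ (op_inf hVy (hY.sm y)) inf_le_left _
      omega
    have b2 := ur_cj (Ω := Ω) (g n) (U ⊓ st Γ c ⊓ st Γ y) (x, y)
    rw [cj_inf, hcj n, ← st_smul, ← hdy n, ← hgd n, b1] at b2
    exact b2
  have rx : ∀ n, ur Ω U (Sum.inl (d n).1 : Z ⊕ Y) = 1 := by
    intro n
    rw [ur_eq_of_st hN hS hZ hU (C3a_st_inl (Y := Y) (d n).1), hdx n, ur_smul (hgU n), hx]
  have ry : ∀ n, ur Ω U (Sum.inr (d n).2 : Z ⊕ Y) = 1 := by
    intro n
    rw [ur_eq_of_st hN hS hY hU (C3a_st_inr (Z := Z) (d n).2), hdy n, ur_smul (hgU n), hy]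
  have algx' : ∀ n, ur Ω (U ⊓ st Γ c ⊓ st Γ (Sum.inl (d n).1 : Z ⊕ Y)) (d n) = 0 := by
    intro n; rw [C3a_st_inl]; exact algx n
  have algy' : ∀ n, ur Ω (U ⊓ st Γ c ⊓ st Γ (Sum.inr (d n).2 : Z ⊕ Y)) (d n) = 0 := by
    intro n; rw [C3a_st_inr]; exact algy n
  have hdiag : ∀ n, ur Ω U ((Sum.inl (d n).1 : Z ⊕ Y), (Sum.inr (d n).2 : Z ⊕ Y)) = 2 := by
    intro n
    have e : st Γ ((Sum.inl (d n).1 : Z ⊕ Y), (Sum.inr (d n).2 : Z ⊕ Y)) = st Γ (d n) := by
      rw [st_prod, C3a_st_inl, C3a_st_inr, ← st_prod]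
    rw [ur_eq_of_st hN (srt_prod hN hS hS) hZY hU e, hgd n, ur_smul (hgU n), hxy]
  have hdiag' : ∀ n, ur Ω U ((Sum.inr (d n).2 : Z ⊕ Y), (Sum.inl (d n).1 : Z ⊕ Y)) = 2 := by
    intro n
    have e : st Γ ((Sum.inr (d n).2 : Z ⊕ Y), (Sum.inl (d n).1 : Z ⊕ Y)) = st Γ (d n) := by
      rw [st_prod, C3a_st_inl, C3a_st_inr, inf_comm, ← st_prod]
    rw [ur_eq_of_st hN (srt_prod hN hS hS) hZY hU e, hgd n, ur_smul (hgU n), hxy]
  obtain ⟨m, hm⟩ : ∃ m, m = ur Ω U c + 1 := ⟨_, rfl⟩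
  let e : Fin (m + m) → Z ⊕ Y :=
    Fin.addCases (fun i => Sum.inl (d i).1) (fun i => Sum.inr (d i).2)
  have el : ∀ i : Fin m, e (Fin.castAdd m i) = Sum.inl (d i).1 := fun i => Fin.addCases_left _
  have er : ∀ i : Fin m, e (Fin.natAdd m i) = Sum.inr (d i).2 := fun i => Fin.addCases_right _
  have h1 : ∀ i, ur Ω U (e i) = 1 := by
    intro i
    refine Fin.addCases (fun i => ?_) (fun i => ?_) i
    · rw [el]; exact rx i
    · rw [er]; exact ry i
  have h2 : ∀ i j, i ≠ j → ur Ω U (e i, e j) = 2 := by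
    intro i
    refine Fin.addCases (fun i => ?_) (fun i => ?_) i
    · intro j
      refine Fin.addCases (fun j => ?_) (fun j => ?_) j
      · intro hij
        have hij' : (i : ℕ) ≠ j := fun h => hij (by rw [Fin.ext h])
        rw [el, el]
        exact C3a_key hN hS hS hZY hU hV hVU (hpair' i j hij') (algx' i) (algx' j) (rx i) (rx j)
      · intro _
        rw [el, er]
        by_cases hij' : (i : ℕ) = j
        · rw [← hij']; exact hdiag i
        · exact C3a_key hN hS hS hZY hU hV hVU (hpair' i j hij') (algx' i) (algy' j) (rx i)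
            (ry j)
    · intro j
      refine Fin.addCases (fun j => ?_) (fun j => ?_) j
      · intro _
        rw [el, er]
        by_cases hij' : (i : ℕ) = j
        · rw [← hij']; exact hdiag' i
        · exact C3a_key hN hS hS hZY hU hV hVU (hpair' i j hij') (algy' i) (algx' j) (ry i)
            (rx j)
      · intro hij
        have hij' : (i : ℕ) ≠ j := fun h => hij (by rw [Fin.ext h])
        rw [er, er]
        exact C3a_key hN hS hS hZY hU hV hVU (hpair' i j hij') (algy' i) (algy' j) (ry i) (ry j)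
  have h3 : ur Ω U e = m + m := triv hN hS hU e h1 h2
  have sI := srt_pi hN hZY m
  have sP := srt_prod hN hC sI
  have sE := srt_pi hN hS (m + m)
  have h4 : ur Ω U e ≤ ur Ω U (c, ini d m) := by
    refine ur_le_of_alg hN sP sE hU _ _ ?_
    rw [orb_finite_iff, Subgroup.relIndex_eq_one.2]
    · exact one_ne_zero
    · intro k hk
      have hk1 : k ∈ st Γ (c, ini d m) := hk.2
      rw [st_prod] at hk1
      have hk2 : k • ini d m = ini d m := hk1.2
      show k • e = e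
      funext i
      refine Fin.addCases (fun i => ?_) (fun i => ?_) i
      · show k • e _ = e _
        rw [el]
        have : k • d i = d i := congrFun hk2 i
        show Sum.inl (k • (d i).1) = _
        rw [← Prod.smul_fst, this]
      · show k • e _ = e _
        rw [er]
        have : k • d i = d i := congrFun hk2 i
        show Sum.inr (k • (d i).2) = _
        rw [← Prod.smul_snd, this]
  have h5 := ur_pair' hN hC sI hU c (ini d m)
  have h6 : ur Ω (U ⊓ st Γ c) (ini d m) = m * 1 := ur_ini_indep hN hZY hV d hdr m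
  omega

end Pool.Agent.Lib.ThC

end

section

/-! # C3b: orthogonality is preserved; canonical bases and Morley sequences -/

set_option autoImplicit false
open scoped Pointwise

namespace Pool.Agent.Lib.ThC

variable {Ω Γ : Type} [Group Γ] [MulAction Γ Ω]
variable {Z Y C : Type} [MulAction Γ Z] [MulAction Γ Y] [MulAction Γ C]

private theorem C3b_mem_st {c : ℕ → Z} {n : ℕ} {g : Γ} :
    g ∈ st Γ (ini c n) ↔ ∀ i < n, g • c i = c i := by
  constructor
  · intro h i hi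
    exact congrFun (h : g • ini c n = ini c n) ⟨i, hi⟩
  · intro h
    show g • ini c n = ini c n
    funext i
    exact h i i.2

/-- (4.3) the canonical base of `p` is algebraic over finitely many members of a Morley
sequence of `p`.  Let `σ = ur (U ⊓ st p) (c 0)` and `ρ_n = ur (U ⊓ st (c|n)) (c n)`.  Then
`ρ_n` is non-increasing (as `c (n+1)` and `c n` are conjugate under
`U ⊓ st p ⊓ st (c|n)`), so `ρ_{n+j} = ρ` for some `n` and all `j`.  With
`κ = ur (U ⊓ st (c|n)) p` one gets `m ρ ≤ κ + m σ` for all `m`, so `ρ = σ`, and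
`tp_canonical` (with `V = U ⊓ st (c|n)`, `a = c n`) applies.
(Use `Γ ⧸ st Γ p` or `MulAction.orbit Γ p` as a sort containing `p`.) -/
theorem cb_morley (hN : Nice Ω Γ) (hZ : Srt Ω Γ Z) {U : Subgroup Γ} (hU : Op Ω U)
    (p : Tp Ω Γ Z) (c : ℕ → Z) (hc : ∀ n, orb (U ⊓ st Γ p ⊓ st Γ (ini c n)) (c n) ∈ p.s) :
    ∃ n, (orb (U ⊓ st Γ (ini c n)) p).Finite := by
  have hP : Op Ω (st Γ p) := tp_open hN hZ p
  have hI : ∀ (d : ℕ → Z) (n : ℕ), Op Ω (st Γ (ini d n)) := fun d n => by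
    rw [st_pi]
    exact op_iInf fun i => hZ.sm _
  have hUP : Op Ω (U ⊓ st Γ p) := op_inf hU hP
  -- realisations over the big group
  have hreal : ∀ n, orb (U ⊓ st Γ p) (c n) ∈ p.s := fun n =>
    p.up _ (hc n) _ (df_orb hUP _) (orb_mono inf_le_left _)
  have hσ : ∀ n, ur Ω (U ⊓ st Γ p ⊓ st Γ (ini c n)) (c n) = ur Ω (U ⊓ st Γ p) (c 0) := by
    intro n
    rw [ur_of_real hN hZ hUP (op_inf hUP (hI c n)) inf_le_left inf_le_right (hc n)]
    have h1 := tp_orb_unique (hreal n) (hreal 0)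
    have h2 : c n ∈ orb (U ⊓ st Γ p) (c 0) := h1 ▸ mem_orb_self _ _
    obtain ⟨g, hg, hgc⟩ := h2
    rw [← hgc]
    exact ur_smul hg _
  have hσ' : ∀ n, ur Ω (U ⊓ st Γ p) (c n) = ur Ω (U ⊓ st Γ p) (c 0) := by
    intro n
    rw [← hσ n, ur_of_real hN hZ hUP (op_inf hUP (hI c n)) inf_le_left inf_le_right (hc n)]
  have hV : ∀ n, Op Ω (U ⊓ st Γ (ini c n)) := fun n => op_inf hU (hI c n)
  have hanti : Antitone fun n => ur Ω (U ⊓ st Γ (ini c n)) (c n) := by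
    refine antitone_nat_of_succ_le fun n => ?_
    have hle : st Γ (ini c (n + 1)) ≤ st Γ (ini c n) := fun g hg =>
      C3b_mem_st.2 fun i hi => C3b_mem_st.1 hg i (by omega)
    have hop : Op Ω (U ⊓ st Γ p ⊓ st Γ (ini c n)) := op_inf hUP (hI c n)
    have h1 : orb (U ⊓ st Γ p ⊓ st Γ (ini c n)) (c (n + 1)) ∈ p.s :=
      p.up _ (hc (n + 1)) _ (df_orb hop _) (orb_mono (inf_le_inf_left _ hle) _)
    have h2 := tp_orb_unique h1 (hc n)
    have h3 : c (n + 1) ∈ orb (U ⊓ st Γ p ⊓ st Γ (ini c n)) (c n) := h2 ▸ mem_orb_self _ _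
    obtain ⟨g, hg, hgc⟩ := h3
    have hgV : g ∈ U ⊓ st Γ (ini c n) := ⟨hg.1.1, hg.2⟩
    calc ur Ω (U ⊓ st Γ (ini c (n + 1))) (c (n + 1))
        ≤ ur Ω (U ⊓ st Γ (ini c n)) (c (n + 1)) :=
          ur_mono hN hZ (hV (n + 1)) (inf_le_inf_left _ hle) _
      _ = ur Ω (U ⊓ st Γ (ini c n)) (c n) := by rw [← hgc, ur_smul hgV]
  -- eventually constant
  obtain ⟨n, hn⟩ : ∃ n, ∀ j, ur Ω (U ⊓ st Γ (ini c (n + j))) (c (n + j)) =
      ur Ω (U ⊓ st Γ (ini c n)) (c n) := by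
    obtain ⟨n, hn⟩ := WellFounded.min_mem (wellFounded_lt (α := ℕ))
      (Set.range fun n => ur Ω (U ⊓ st Γ (ini c n)) (c n)) ⟨_, 0, rfl⟩
    refine ⟨n, fun j => le_antisymm (hanti (Nat.le_add_right n j)) ?_⟩
    have h1 := WellFounded.not_lt_min (wellFounded_lt (α := ℕ))
      (Set.range fun n => ur Ω (U ⊓ st Γ (ini c n)) (c n)) (Set.mem_range_self (n + j))
    have h2 : ur Ω (U ⊓ st Γ (ini c n)) (c n) = _ := hn
    rw [h2]
    exact not_lt.1 h1
  refine ⟨n, ?_⟩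
  have hcos : Srt Ω Γ (Γ ⧸ st Γ p) := srt_coset hP
  -- the shifted sequence
  have hshift : ∀ j, st Γ (ini c n) ⊓ st Γ (ini (fun i => c (n + i)) j) =
      st Γ (ini c (n + j)) := by
    intro j
    ext g
    rw [Subgroup.mem_inf, C3b_mem_st, C3b_mem_st, C3b_mem_st]
    constructor
    · rintro ⟨h1, h2⟩ i hi
      by_cases hin : i < n
      · exact h1 i hin
      · have h3 := h2 (i - n) (by omega)
        rwa [show n + (i - n) = i by omega] at h3
    · intro h1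
      exact ⟨fun i hi => h1 i (by omega), fun i hi => h1 (n + i) (by omega)⟩
  have h1 : ∀ m, ur Ω (U ⊓ st Γ (ini c n)) (ini (fun i => c (n + i)) m) =
      m * ur Ω (U ⊓ st Γ (ini c n)) (c n) := by
    intro m
    refine ur_ini_indep hN hZ (hV n) _ (fun j => ?_) m
    rw [inf_assoc, hshift j]
    exact hn j
  have h2 : ∀ m, ur Ω (U ⊓ st Γ (ini c n) ⊓ st Γ p) (ini (fun i => c (n + i)) m) =
      m * ur Ω (U ⊓ st Γ p) (c 0) := by
    intro m
    refine ur_ini_indep hN hZ (op_inf (hV n) hP) _ (fun j => ?_) m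
    have h3 : U ⊓ st Γ (ini c n) ⊓ st Γ p ⊓ st Γ (ini (fun i => c (n + i)) j) =
        U ⊓ st Γ p ⊓ st Γ (ini c (n + j)) := by
      rw [← hshift j]
      ext g
      simp only [Subgroup.mem_inf]
      tauto
    rw [h3]
    exact hσ (n + j)
  have h3 : ∀ m, m * ur Ω (U ⊓ st Γ (ini c n)) (c n) ≤
      ur Ω (U ⊓ st Γ (ini c n)) ((1 : Γ) : Γ ⧸ st Γ p) + m * ur Ω (U ⊓ st Γ p) (c 0) := by
    intro m
    have h4 := ur_pair hN (srt_pi hN hZ m) hcos (hV n) (ini (fun i => c (n + i)) m)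
      ((1 : Γ) : Γ ⧸ st Γ p)
    have h5 := ur_pair' hN (srt_pi hN hZ m) hcos (hV n) (ini (fun i => c (n + i)) m)
      ((1 : Γ) : Γ ⧸ st Γ p)
    rw [st_coset, h2 m] at h4
    rw [← h1 m, ← h4, h5]
    exact Nat.le_add_right _ _
  have hle : ur Ω (U ⊓ st Γ (ini c n)) (c n) ≤ ur Ω (U ⊓ st Γ p) (c 0) := by
    by_contra hlt
    rw [not_le] at hlt
    have h4 := h3 (ur Ω (U ⊓ st Γ (ini c n)) ((1 : Γ) : Γ ⧸ st Γ p) + 1)
    set κ := ur Ω (U ⊓ st Γ (ini c n)) ((1 : Γ) : Γ ⧸ st Γ p)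
    set ρ := ur Ω (U ⊓ st Γ (ini c n)) (c n)
    set σ := ur Ω (U ⊓ st Γ p) (c 0)
    have h5 : (κ + 1) * (σ + 1) ≤ (κ + 1) * ρ := Nat.mul_le_mul_left _ hlt
    nlinarith
  have hge : ur Ω (U ⊓ st Γ p) (c 0) ≤ ur Ω (U ⊓ st Γ (ini c n)) (c n) := by
    rw [← hσ n]
    exact ur_mono hN hZ (op_inf hUP (hI c n)) (inf_le_inf_right _ inf_le_left) _
  have heq : ur Ω (U ⊓ st Γ (ini c n)) (c n) = ur Ω (U ⊓ st Γ p) (c 0) := le_antisymm hle hge
  have hswap : U ⊓ st Γ (ini c n) ⊓ st Γ p = U ⊓ st Γ p ⊓ st Γ (ini c n) :=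
    inf_right_comm _ _ _
  refine tp_canonical hN hZ hU (hV n) inf_le_left (hreal n) ?_ ?_
  · rw [hswap, hσ n, hσ' n]
  · rw [hswap, hσ n, heq]

end Pool.Agent.Lib.ThC

end

section

/-! # C4a: coordinatisation -/

set_option autoImplicit false
open scoped Pointwise

namespace Pool.Agent.Lib.ThC

variable {Ω Γ : Type} [Group Γ] [MulAction Γ Ω]
variable {Z Y C : Type} [MulAction Γ Z] [MulAction Γ Y] [MulAction Γ C]

/-- Step 1 (see the blueprint).  Let `r = ur U b ≥ 2`.  Choose `V ≤ U` with `ur V b = r - 1`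
(`ur_down`), `p` the strong type of `b` over `V`.
`ur (U ⊓ st p) b = ur (V ⊓ st p) b = r - 1` (`ur_of_real`, `ur_fi`), so
`ur U p = 1 + ur (U ⊓ st b) p`.  If `ur (U ⊓ st b) p = 0`
the first alternative holds with `V = st p`.  Otherwise choose `S ≤ U` open with
`ur S p = 1` (`ur_down`), conjugated by an element of `U ⊓ st p` such that
`ur (U ⊓ st p ⊓ S) b = ur (U ⊓ st p) b = r - 1` (`ur_ext`
for the coset of `S`, symmetry).  `ur S (b,p) = 1 + (r - 1) = r = ur S b + ur (S ⊓ st b) p`.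
If `ur (S ⊓ st b) p = 1` then `ur S b = r - 1 = ur (S ⊓ st p) b`, so by `tp_canonical`
`p` is algebraic over `S`, contradicting `ur S p = 1`.  So `ur (S ⊓ st b) p = 0`
and `ur S b = r`. -/
theorem coord_step1 (hN : Nice Ω Γ) (hZ : Srt Ω Γ Z) {U : Subgroup Γ} (hU : Op Ω U) (b : Z)
    (hb : 2 ≤ ur Ω U b) :
    (∃ V : Subgroup Γ, Op Ω V ∧ ur Ω U ((1 : Γ) : Γ ⧸ V) = 1 ∧
      V.relIndex (U ⊓ st Γ b) ≠ 0) ∨
    ∃ S V : Subgroup Γ, Op Ω S ∧ Op Ω V ∧ S ≤ U ∧ ur Ω S b = ur Ω U b ∧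
      ur Ω S ((1 : Γ) : Γ ⧸ V) = 1 ∧ V.relIndex (S ⊓ st Γ b) ≠ 0 := by
  have hst : ∀ z : Z, Op Ω (st Γ z) := hZ.sm
  obtain ⟨V₀, hV₀U, hV₀, hV₀b⟩ := ur_down hN hZ hU (a := b) (k := ur Ω U b - 1) (Nat.sub_le _ _)
  obtain ⟨p, hpf, hpb⟩ := stp_exists hN hZ hV₀ b
  have hP : Op Ω (st Γ p) := tp_open hN hZ p
  have hUP : Op Ω (U ⊓ st Γ p) := op_inf hU hP
  have hV₀P : Op Ω (V₀ ⊓ st Γ p) := op_inf hV₀ hP
  have ha : ur Ω (V₀ ⊓ st Γ p) b = ur Ω V₀ b :=
    ur_fi hN hZ hV₀P inf_le_left (by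
      rw [Subgroup.inf_relIndex_left]
      exact (orb_finite_iff V₀ p).1 hpf) b
  have hb' : ur Ω (V₀ ⊓ st Γ p) b = ur Ω (U ⊓ st Γ p) b :=
    ur_of_real hN hZ hUP hV₀P (inf_le_inf_right _ hV₀U) inf_le_right hpb
  have hUPb : ur Ω (U ⊓ st Γ p) b = ur Ω U b - 1 := by rw [← hb', ha, hV₀b]
  have hpb' : orb (U ⊓ st Γ p) b ∈ p.s :=
    p.up _ hpb _ (df_orb hUP b) (orb_mono (inf_le_inf_right _ hV₀U) b)
  -- the coset of the stabiliser
  have hC : Srt Ω Γ (Γ ⧸ st Γ p) := srt_coset hP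
  have hc : st Γ ((1 : Γ) : Γ ⧸ st Γ p) = st Γ p := st_coset _
  have key := ur_symm hN hZ hC hU b ((1 : Γ) : Γ ⧸ st Γ p)
  rw [hc, hUPb] at key
  have halg : ∀ {T : Subgroup Γ}, Op Ω T → ur Ω T ((1 : Γ) : Γ ⧸ st Γ p) = 0 →
      (st Γ p).relIndex T ≠ 0 := by
    intro T hT h
    have h1 := (orb_finite_iff T ((1 : Γ) : Γ ⧸ st Γ p)).1 ((ur_eq_zero hN hC hT).1 h)
    rwa [hc] at h1
  by_cases hA : ur Ω (U ⊓ st Γ b) ((1 : Γ) : Γ ⧸ st Γ p) = 0
  · left
    refine ⟨st Γ p, hP, by omega, halg (op_inf hU (hst b)) hA⟩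
  right
  obtain ⟨S₀, hS₀U, hS₀, hS₀c⟩ := ur_down hN hC hU (a := ((1 : Γ) : Γ ⧸ st Γ p)) (k := 1)
    (by omega)
  have hS : Srt Ω Γ (Γ ⧸ S₀) := srt_coset hS₀
  obtain ⟨g, hg, hgs⟩ := ur_ext hN hS (U := U ⊓ st Γ p) (V := U ⊓ st Γ p ⊓ st Γ b)
    (op_inf hUP (hst b)) inf_le_left ((1 : Γ) : Γ ⧸ S₀)
  have key2 := ur_symm hN hZ hS hUP b (g • ((1 : Γ) : Γ ⧸ S₀))
  rw [hgs, ur_smul hg, st_smul, st_coset] at key2
  have hSU : cj g S₀ ≤ U := by
    calc cj g S₀ ≤ cj g U := cj_mono hS₀U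
      _ = U := cj_eq_of_mem hg.1
  have hSop : Op Ω (cj g S₀) := op_cj g hS₀
  have hSc : ur Ω (cj g S₀) ((1 : Γ) : Γ ⧸ st Γ p) = 1 := by
    have h1 := ur_cj (Ω := Ω) g S₀ ((1 : Γ) : Γ ⧸ st Γ p)
    have h2 : g • ((1 : Γ) : Γ ⧸ st Γ p) = ((1 : Γ) : Γ ⧸ st Γ p) := by
      have h3 : g ∈ st Γ ((1 : Γ) : Γ ⧸ st Γ p) := by rw [hc]; exact hg.2
      exact h3
    rw [h2] at h1
    rw [h1, hS₀c]
  have hinf : U ⊓ st Γ p ⊓ cj g S₀ = cj g S₀ ⊓ st Γ p := by
    apply le_antisymm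
    · exact le_inf inf_le_right (inf_le_left.trans inf_le_right)
    · exact le_inf (le_inf (inf_le_left.trans hSU) inf_le_right) inf_le_left
  rw [hinf] at key2
  have hSP : ur Ω (cj g S₀ ⊓ st Γ p) b = ur Ω (U ⊓ st Γ p) b := by omega
  have key3 := ur_symm hN hZ hC hSop b ((1 : Γ) : Γ ⧸ st Γ p)
  rw [hc, hSc, hSP, hUPb] at key3
  have hle : ur Ω (cj g S₀ ⊓ st Γ b) ((1 : Γ) : Γ ⧸ st Γ p) ≤ 1 := by
    rw [← hSc]
    exact ur_mono hN hC (op_inf hSop (hst b)) inf_le_left _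
  have hne : ur Ω (cj g S₀ ⊓ st Γ b) ((1 : Γ) : Γ ⧸ st Γ p) ≠ 1 := by
    intro h1
    rw [h1] at key3
    have hfin := tp_canonical hN hZ hU hSop hSU hpb' hSP (by rw [hSP, hUPb]; omega)
    have h2 := (orb_finite_iff (cj g S₀) p).1 hfin
    have h3 : (orb (cj g S₀) ((1 : Γ) : Γ ⧸ st Γ p)).Finite := by
      rw [orb_finite_iff, hc]; exact h2
    have h4 := (ur_eq_zero hN hC hSop).2 h3
    omega
  have h0 : ur Ω (cj g S₀ ⊓ st Γ b) ((1 : Γ) : Γ ⧸ st Γ p) = 0 := by omega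
  refine ⟨cj g S₀, st Γ p, hSop, hP, hSU, by omega, hSc, halg (op_inf hSop (hst b)) h0⟩

end Pool.Agent.Lib.ThC

end

section

/-! # C4b: coordinatisation -/

set_option autoImplicit false
open scoped Pointwise

namespace Pool.Agent.Lib.ThC

variable {Ω Γ : Type} [Group Γ] [MulAction Γ Ω]
variable {Z Y C : Type} [MulAction Γ Z] [MulAction Γ Y] [MulAction Γ C]

/-- `ini` of the components. -/
theorem C4b_st_ini (c : ℕ → C × Y) (n : ℕ) :
    st Γ (ini c n) = st Γ ((ini (fun i => (c i).1) n, ini (fun i => (c i).2) n) :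
      (Fin n → C) × (Fin n → Y)) := by
  ext g
  rw [MulAction.mem_stabilizer_iff, MulAction.mem_stabilizer_iff]
  constructor
  · intro h
    apply Prod.ext
    · funext i
      have := congrFun h i
      exact congrArg Prod.fst this
    · funext i
      have := congrFun h i
      exact congrArg Prod.snd this
  · intro h
    funext i
    apply Prod.ext
    · exact congrFun (congrArg Prod.fst h) i
    · exact congrFun (congrArg Prod.snd h) i

theorem C4b_st_le {n : ℕ} (x : Fin n → Z) (i : Fin n) : st Γ x ≤ st Γ (x i) := by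
  intro g hg
  rw [MulAction.mem_stabilizer_iff] at hg ⊢
  exact congrFun hg i

theorem C4b_tuple_zero (hN : Nice Ω Γ) (hZ : Srt Ω Γ Z) {U : Subgroup Γ} (hU : Op Ω U) {n : ℕ}
    (x : Fin n → Z) (h : ∀ i, ur Ω U (x i) = 0) : ur Ω U x = 0 := by
  have := ur_tuple_le hN hZ hU x (k := 0) (fun i => (h i).le)
  omega

/-- Step 2.  Let `s : C`, `y : Y` with `ur (U ⊓ st s) b = ur U b`, `ur (U ⊓ st s) y = 1`,
`y` algebraic over `U ⊓ st b ⊓ st s`.  Let `q` be the strong type of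
`(s,y)` over `U ⊓ st b` and `c n = (s_n, y_n)` a Morley sequence of `q` over
`U ⊓ st b ⊓ st q`.  With `σ = ur U s`: for every `n`, `ur U (c|n) = n σ + 1` (`n ≥ 1`).
Proof in the blueprint, section 7, Step 2. -/
theorem coord_step2 (hN : Nice Ω Γ) (hZ : Srt Ω Γ Z) (hY : Srt Ω Γ Y) (hC : Srt Ω Γ C)
    {U : Subgroup Γ} (hU : Op Ω U) (b : Z) (s : C) (y : Y)
    (h1 : ur Ω (U ⊓ st Γ s) b = ur Ω U b) (h2 : ur Ω (U ⊓ st Γ s) y = 1)
    (h3 : ur Ω (U ⊓ st Γ b ⊓ st Γ s) y = 0) (q : Tp Ω Γ (C × Y))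
    (hq : (orb (U ⊓ st Γ b) q).Finite) (c : ℕ → C × Y)
    (hc : ∀ n, orb (U ⊓ st Γ b ⊓ st Γ q ⊓ st Γ (ini c n)) (c n) ∈ q.s)
    (hc0 : ∃ g ∈ U ⊓ st Γ b, c 0 = g • (s, y)) (n : ℕ) :
    ur Ω U (ini c (n + 1)) = (n + 1) * ur Ω U s + 1 := by
  have hCY : Srt Ω Γ (C × Y) := srt_prod hN hC hY
  have hb := hZ.sm b
  have hUb : Op Ω (U ⊓ st Γ b) := op_inf hU hb
  have hqo : Op Ω (st Γ q) := tp_open hN hCY q
  have hV0 : Op Ω (U ⊓ st Γ b ⊓ st Γ q) := op_inf hUb hqo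
  have hV0U : U ⊓ st Γ b ⊓ st Γ q ≤ U ⊓ st Γ b := inf_le_left
  have hV0fi : (U ⊓ st Γ b ⊓ st Γ q).relIndex (U ⊓ st Γ b) ≠ 0 := by
    rw [Subgroup.inf_relIndex_left]
    exact (orb_finite_iff _ _).1 hq
  -- (1)
  have e1 : ur Ω (U ⊓ st Γ b) s = ur Ω U s := by
    have := ur_symm hN hZ hC hU b s
    omega
  have e2 : ur Ω (U ⊓ st Γ b) (s, y) = ur Ω U s := by
    have := ur_pair' hN hC hY hUb s y
    omega
  -- (2)
  have hconj : ∀ n, ∃ g ∈ U ⊓ st Γ b, c n = g • (s, y) := by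
    intro n
    obtain ⟨g0, hg0, hc0'⟩ := hc0
    have a1 : ∀ m, orb (U ⊓ st Γ b) (c m) ∈ q.s := fun m =>
      q.up _ (hc m) _ (df_orb hUb _) (orb_mono (inf_le_left.trans inf_le_left) _)
    have a2 := tp_orb_unique (a1 n) (a1 0)
    have a3 : c n ∈ orb (U ⊓ st Γ b) (c 0) := a2 ▸ mem_orb_self _ _
    obtain ⟨g, hg, hgc⟩ := a3
    exact ⟨g * g0, (U ⊓ st Γ b).mul_mem hg hg0, by rw [mul_smul, ← hc0', hgc]⟩
  have hcV0 : ∀ n, ur Ω (U ⊓ st Γ b ⊓ st Γ q ⊓ st Γ (ini c n)) (c n) = ur Ω U s := by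
    intro n
    rw [ur_of_real hN hCY hV0 (op_inf hV0 ((srt_pi hN hCY n).sm _)) inf_le_left inf_le_right
      (hc n), ur_fi hN hCY hV0 hV0U hV0fi]
    obtain ⟨g, hg, hgc⟩ := hconj n
    rw [hgc, ur_smul hg, e2]
  have e3 : ∀ n, ur Ω (U ⊓ st Γ b) (ini c n) = n * ur Ω U s := by
    intro n
    rw [← ur_fi hN (srt_pi hN hCY n) hV0 hV0U hV0fi]
    exact ur_ini_indep hN hCY hV0 c hcV0 n
  -- the two components
  have hS := fun n => srt_pi hN hC n
  have hY' := fun n => srt_pi hN hY n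
  set sb : ∀ n, Fin n → C := fun n => ini (fun i => (c i).1) n with hsb
  set yb : ∀ n, Fin n → Y := fun n => ini (fun i => (c i).2) n with hyb
  have hst : ∀ n, st Γ (ini c n) = st Γ ((sb n, yb n) : (Fin n → C) × (Fin n → Y)) :=
    fun n => C4b_st_ini c n
  have hsp : ∀ (W : Subgroup Γ), Op Ω W → ∀ n, ur Ω W (ini c n) = ur Ω W (sb n, yb n) := by
    intro W hW n
    exact ur_eq_of_st hN (srt_pi hN hCY n) (srt_prod hN (hS n) (hY' n)) hW (hst n)
  have hOps : ∀ n, Op Ω (U ⊓ st Γ (sb n)) := fun n => op_inf hU ((hS n).sm _)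
  have hOp1 : ∀ i, Op Ω (U ⊓ st Γ (c i).1) := fun i => op_inf hU (hC.sm _)
  -- conjugates
  have hcomp : ∀ i, ur Ω U (c i).1 = ur Ω U s ∧ ur Ω (U ⊓ st Γ (c i).1) b = ur Ω U b ∧
      ur Ω (U ⊓ st Γ (c i).1) (c i).2 = 1 ∧ ur Ω (U ⊓ st Γ b ⊓ st Γ (c i).1) (c i).2 = 0 := by
    intro i
    obtain ⟨g, hg, hgc⟩ := hconj i
    have g1 : (c i).1 = g • s := by rw [hgc]; rfl
    have g2 : (c i).2 = g • y := by rw [hgc]; rfl
    have g3 : g • b = b := hg.2
    have g4 : cj g U = U := cj_eq_of_mem hg.1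
    have g5 : cj g (U ⊓ st Γ s) = U ⊓ st Γ (c i).1 := by
      rw [cj_inf, g4, g1, st_smul]
    have g6 : cj g (U ⊓ st Γ b ⊓ st Γ s) = U ⊓ st Γ b ⊓ st Γ (c i).1 := by
      rw [cj_inf, cj_inf, g4, g1, st_smul g s, ← st_smul g b, g3]
    refine ⟨?_, ?_, ?_, ?_⟩
    · rw [g1, ur_smul hg.1]
    · rw [← g5]
      conv_lhs => rw [← g3]
      rw [ur_cj, h1]
    · rw [← g5, g2, ur_cj, h2]
    · rw [← g6, g2, ur_cj, h3]
  -- (3)
  have hle1 : ∀ n (i : Fin n), st Γ (sb n) ≤ st Γ (c i).1 := fun n i => C4b_st_le (sb n) i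
  have hle2 : ∀ n (i : Fin n), st Γ (yb n) ≤ st Γ (c i).2 := fun n i => C4b_st_le (yb n) i
  have hyalg : ∀ n, ur Ω (U ⊓ st Γ b ⊓ st Γ (sb n)) (yb n) = 0 := by
    intro n
    have hop : Op Ω (U ⊓ st Γ b ⊓ st Γ (sb n)) := op_inf hUb ((hS n).sm _)
    apply C4b_tuple_zero hN hY hop
    intro i
    have a1 := ur_mono hN hY hop (U := U ⊓ st Γ b ⊓ st Γ (c i).1)
      (inf_le_inf_left _ (hle1 n i)) (c i).2
    have a2 := (hcomp i).2.2.2
    have a3 : (yb n) i = (c i).2 := rfl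
    rw [a3]
    omega
  have e4 : ∀ n, ur Ω (U ⊓ st Γ b) (sb n) = n * ur Ω U s := by
    intro n
    have a1 := ur_pair' hN (hS n) (hY' n) hUb (sb n) (yb n)
    have a2 := hsp _ hUb n
    have a3 := e3 n
    have a4 := hyalg n
    omega
  have e5 : ∀ n, ur Ω U (sb n) = n * ur Ω U s := by
    intro n
    apply le_antisymm
    · exact ur_tuple_le hN hC hU _ (fun i => (hcomp i).1.le)
    · rw [← e4 n]
      exact ur_mono hN (hS n) hUb inf_le_left _
  have e6 : ∀ n, ur Ω (U ⊓ st Γ (sb n)) b = ur Ω U b := by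
    intro n
    have a1 := ur_symm hN hZ (hS n) hU b (sb n)
    have a2 := e4 n
    have a3 := e5 n
    omega
  -- (4)
  have e7 : ∀ n (i : Fin n), ur Ω (U ⊓ st Γ (sb n)) (c i).2 = 1 := by
    intro n i
    obtain ⟨p1, p2, p3, p4⟩ := hcomp i
    have a1 : ur Ω (U ⊓ st Γ (sb n)) (c i).2 ≤ 1 := by
      rw [← p3]
      exact ur_mono hN hY (hOps n) (inf_le_inf_left _ (hle1 n i)) _
    by_contra hne
    have a2 : ur Ω (U ⊓ st Γ (sb n)) (c i).2 = 0 := by omega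
    have a3 := ur_symm hN hZ hY (hOps n) b (c i).2
    have a4 := e6 n
    have a5 := ur_mono hN hZ (U := U ⊓ st Γ (c i).1 ⊓ st Γ (c i).2)
      (V := U ⊓ st Γ (sb n) ⊓ st Γ (c i).2) (op_inf (hOps n) (hY.sm _))
      (inf_le_inf_right _ (inf_le_inf_left _ (hle1 n i))) b
    have a6 := ur_symm hN hZ hY (hOp1 i) b (c i).2
    rw [inf_right_comm U (st Γ (c i).1) (st Γ b)] at a6
    omega
  -- (5)
  have hpairs : ∀ i j : ℕ, i < j →
      ur Ω (U ⊓ st Γ (c i).1 ⊓ st Γ (c j).1) ((c i).2, (c j).2) = 1 := by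
    -- one pair
    have hone : ∃ i j : ℕ, i < j ∧
        ur Ω (U ⊓ st Γ (c i).1 ⊓ st Γ (c j).1) ((c i).2, (c j).2) = 1 := by
      by_contra hno
      push Not at hno
      set N := ur Ω U b + 1 with hN'
      have hlt : ∀ i j : Fin N, (i : ℕ) < j →
          ur Ω (U ⊓ st Γ (sb N)) ((c i).2, (c j).2) = 2 := by
        intro i j hij
        have hopU' : Op Ω (U ⊓ st Γ (c i).1 ⊓ st Γ (c j).1) := op_inf (hOp1 i) (hC.sm _)
        have hEq : U ⊓ st Γ (c i).1 ⊓ st Γ (c j).1 ⊓ st Γ (sb N) = U ⊓ st Γ (sb N) := by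
          apply le_antisymm
          · exact inf_le_inf_right _ (inf_le_left.trans inf_le_left)
          · exact le_inf (le_inf (inf_le_inf_left _ (hle1 N i))
              (inf_le_right.trans (hle1 N j))) inf_le_right
        have hge : U ⊓ st Γ (sb N) ≤ U ⊓ st Γ (c i).1 ⊓ st Γ (c j).1 :=
          le_inf (inf_le_inf_left _ (hle1 N i)) (inf_le_right.trans (hle1 N j))
        have bi : ur Ω (U ⊓ st Γ (c i).1 ⊓ st Γ (c j).1) (c i).2 = 1 := by
          apply le_antisymm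
          · rw [← (hcomp i).2.2.1]
            exact ur_mono hN hY hopU' inf_le_left _
          · rw [← e7 N i]
            exact ur_mono hN hY (hOps N) hge _
        have bj : ur Ω (U ⊓ st Γ (c i).1 ⊓ st Γ (c j).1) (c j).2 = 1 := by
          apply le_antisymm
          · rw [← (hcomp j).2.2.1]
            exact ur_mono hN hY hopU' (inf_le_inf_right _ inf_le_left) _
          · rw [← e7 N j]
            exact ur_mono hN hY (hOps N) hge _
        have hp := ur_pair' hN hY hY hopU' (c i).2 (c j).2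
        have hp2 := ur_mono hN hY (op_inf hopU' (hY.sm (c i).2)) inf_le_left (c j).2
        have hp3 := hno i j hij
        have htwo : ur Ω (U ⊓ st Γ (c i).1 ⊓ st Γ (c j).1) ((c i).2, (c j).2) = 2 := by omega
        have := triv_orth hN hY hY (hS N) hopU' (c i).2 (c j).2 (sb N) (by rw [hEq]; exact e7 N i)
          (by rw [hEq]; exact e7 N j) bi bj htwo
        rwa [hEq] at this
      have hall : ∀ i j : Fin N, i ≠ j →
          ur Ω (U ⊓ st Γ (sb N)) ((yb N) i, (yb N) j) = 2 := by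
        intro i j hij
        rcases lt_trichotomy (i : ℕ) j with h | h | h
        · exact hlt i j h
        · exact absurd (Fin.ext h) hij
        · have q1 := hlt j i h
          have q2 := ur_pair hN hY hY (hOps N) (c i).2 (c j).2
          have q3 := ur_pair' hN hY hY (hOps N) (c j).2 (c i).2
          have q4 : ur Ω (U ⊓ st Γ (sb N)) ((c i).2, (c j).2) = 2 := by omega
          exact q4
      have ht := triv hN hY (hOps N) (yb N) (fun i => e7 N i) hall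
      have hle : ur Ω (U ⊓ st Γ (sb N)) (yb N) ≤ ur Ω (U ⊓ st Γ (sb N)) b := by
        apply ur_le_of_alg hN hZ (hY' N) (hOps N) b (yb N)
        rw [← ur_eq_zero hN (hY' N) (op_inf (hOps N) hb), inf_right_comm]
        exact hyalg N
      rw [ht, e6 N] at hle
      omega
    obtain ⟨i0, j0, hij0, h0⟩ := hone
    intro i j hij
    obtain ⟨g, hg, hgi, hgj⟩ := morley_pair hCY.sm hV0 inf_le_right hc hij0 hij
    have gi1 : (c i).1 = g • (c i0).1 := by rw [← hgi]; rfl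
    have gi2 : (c i).2 = g • (c i0).2 := by rw [← hgi]; rfl
    have gj1 : (c j).1 = g • (c j0).1 := by rw [← hgj]; rfl
    have gj2 : (c j).2 = g • (c j0).2 := by rw [← hgj]; rfl
    have gU : cj g U = U := cj_eq_of_mem hg.1.1
    have hcj : cj g (U ⊓ st Γ (c i0).1 ⊓ st Γ (c j0).1) = U ⊓ st Γ (c i).1 ⊓ st Γ (c j).1 := by
      rw [cj_inf, cj_inf, gU, gi1, gj1, st_smul, st_smul]
    have hpt : ((c i).2, (c j).2) = g • ((c i0).2, (c j0).2) := by
      rw [gi2, gj2]; rfl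
    rw [← hcj, hpt, ur_cj, h0]
  -- (6)
  have hfin : ur Ω (U ⊓ st Γ (sb (n + 1))) (yb (n + 1)) = 1 := by
    have hop := hOps (n + 1)
    have hop0 : Op Ω (U ⊓ st Γ (sb (n + 1)) ⊓ st Γ (c 0).2) := op_inf hop (hY.sm _)
    have z0 : ur Ω (U ⊓ st Γ (sb (n + 1)) ⊓ st Γ (c 0).2) (yb (n + 1)) = 0 := by
      apply C4b_tuple_zero hN hY hop0
      intro i
      have hi : (yb (n + 1)) i = (c i).2 := rfl
      rw [hi]
      rcases Nat.eq_zero_or_pos (i : ℕ) with h0 | hpos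
      · rw [h0, ur_eq_zero hN hY hop0]
        apply Set.Finite.subset (Set.finite_singleton (c 0).2)
        rintro x ⟨g, hg, rfl⟩
        exact hg.2
      · have q1 := hpairs 0 i hpos
        have hopU' : Op Ω (U ⊓ st Γ (c 0).1 ⊓ st Γ (c i).1) := op_inf (hOp1 0) (hC.sm _)
        have q2 := ur_pair' hN hY hY hopU' (c 0).2 (c i).2
        have hge : U ⊓ st Γ (sb (n + 1)) ≤ U ⊓ st Γ (c 0).1 ⊓ st Γ (c i).1 :=
          le_inf (inf_le_inf_left _ (hle1 (n + 1) 0)) (inf_le_right.trans (hle1 (n + 1) i))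
        have q3 := ur_mono hN hY hop hge (c 0).2
        have q4 := e7 (n + 1) 0
        have q5 := ur_mono hN hY hop0 (inf_le_inf_right (st Γ (c 0).2) hge) (c i).2
        have q6 : ((0 : Fin (n + 1)) : ℕ) = 0 := rfl
        rw [q6] at q4
        omega
    have z1 := ur_symm hN (hY' (n + 1)) hY hop (yb (n + 1)) (c 0).2
    have z2 : ur Ω (U ⊓ st Γ (sb (n + 1)) ⊓ st Γ (yb (n + 1))) (c 0).2 = 0 := by
      rw [ur_eq_zero hN hY (op_inf hop ((hY' (n + 1)).sm _))]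
      apply Set.Finite.subset (Set.finite_singleton (c 0).2)
      rintro x ⟨g, hg, rfl⟩
      exact hle2 (n + 1) 0 hg.2
    have z3 := e7 (n + 1) 0
    have q6 : ((0 : Fin (n + 1)) : ℕ) = 0 := rfl
    rw [q6] at z3
    omega
  rw [hsp U hU (n + 1), ur_pair' hN (hS (n + 1)) (hY' (n + 1)) hU, e5 (n + 1), hfin]

end Pool.Agent.Lib.ThC

end

section

/-! # C4c: coordinatisation -/

set_option autoImplicit false
open scoped Pointwise

namespace Pool.Agent.Lib.ThC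

variable {Ω Γ : Type} [Group Γ] [MulAction Γ Ω]
variable {Z Y C : Type} [MulAction Γ Z] [MulAction Γ Y] [MulAction Γ C]

private theorem C4c_st_ini {T : Type} [MulAction Γ T] (c : ℕ → T) {m n : ℕ} (h : m ≤ n) :
    st Γ (ini c n) ≤ st Γ (ini c m) := by
  intro g hg
  have hg' : g • ini c n = ini c n := hg
  show g • ini c m = ini c m
  funext i
  exact congrFun hg' ⟨i.1, i.2.trans_le h⟩

/-- Step 3: the rank of `q` over `U` is one: by `cb_morley` `q` is algebraic over `c|n` for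
some `n ≥ 1`, so
`n σ + 1 = ur U (c|n, q) = ur U q + ur (U ⊓ st q) (c|n) = ur U q + n σ`. -/
theorem coord_step3 (hN : Nice Ω Γ) (hZ : Srt Ω Γ Z) (hY : Srt Ω Γ Y) (hC : Srt Ω Γ C)
    {U : Subgroup Γ} (hU : Op Ω U) (b : Z) (s : C) (y : Y)
    (h1 : ur Ω (U ⊓ st Γ s) b = ur Ω U b) (h2 : ur Ω (U ⊓ st Γ s) y = 1)
    (h3 : ur Ω (U ⊓ st Γ b ⊓ st Γ s) y = 0) :
    ∃ V : Subgroup Γ, Op Ω V ∧ ur Ω U ((1 : Γ) : Γ ⧸ V) = 1 ∧
      V.relIndex (U ⊓ st Γ b) ≠ 0 := by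
  have hCY : Srt Ω Γ (C × Y) := srt_prod hN hC hY
  have hUb : Op Ω (U ⊓ st Γ b) := op_inf hU (hZ.sm b)
  obtain ⟨q, hqf, hqs⟩ := stp_exists hN hCY hUb (s, y)
  have hq : Op Ω (st Γ q) := tp_open hN hCY q
  have hV0 : Op Ω (U ⊓ st Γ b ⊓ st Γ q) := op_inf hUb hq
  have hUq : Op Ω (U ⊓ st Γ q) := op_inf hU hq
  obtain ⟨c, hc⟩ := seq_real hN hCY hV0 (fun _ => q)
  have hc' : ∀ n, orb (U ⊓ st Γ b ⊓ st Γ q ⊓ st Γ (ini c n)) (c n) ∈ q.s := hc
  have hcV0 : ∀ n, orb (U ⊓ st Γ b ⊓ st Γ q) (c n) ∈ q.s := fun n =>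
    q.up _ (hc' n) _ (df_orb hV0 _) (orb_mono inf_le_left _)
  have hconj : ∀ n, ∃ g ∈ U ⊓ st Γ b ⊓ st Γ q, g • (s, y) = c n := by
    intro n
    have e := tp_orb_unique hqs (hcV0 n)
    have hm : c n ∈ orb (U ⊓ st Γ b ⊓ st Γ q) (s, y) := by rw [e]; exact mem_orb_self _ _
    exact hm
  have hc0 : ∃ g ∈ U ⊓ st Γ b, c 0 = g • (s, y) := by
    obtain ⟨g, hg, hgc⟩ := hconj 0
    exact ⟨g, hg.1, hgc.symm⟩
  have hle : U ⊓ st Γ b ⊓ st Γ q ≤ U ⊓ st Γ q := inf_le_inf_right _ inf_le_left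
  have hini : ∀ n, Op Ω (st Γ (ini c n)) := fun n => (srt_pi hN hCY n).sm (ini c n)
  have hcU : ∀ n, orb (U ⊓ st Γ q ⊓ st Γ (ini c n)) (c n) ∈ q.s := fun n =>
    q.up _ (hc' n) _ (df_orb (op_inf hUq (hini n)) _) (orb_mono (inf_le_inf_right _ hle) _)
  obtain ⟨n, hn⟩ := cb_morley hN hCY hU q c hcU
  have hn1 : (orb (U ⊓ st Γ (ini c (n + 1))) q).Finite :=
    orb_finite_of_le (inf_le_inf_left _ (C4c_st_ini c (Nat.le_succ n))) hn
  have hstep := coord_step2 hN hZ hY hC hU b s y h1 h2 h3 q hqf c hc' hc0 n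
  -- the rank of `(s, y)` over `V0`
  have hs : ur Ω (U ⊓ st Γ b) s = ur Ω U s := by
    have := ur_symm hN hZ hC hU b s
    omega
  have hsy : ur Ω (U ⊓ st Γ b) (s, y) = ur Ω U s := by
    rw [ur_pair' hN hC hY hUb s y, h3, hs, Nat.add_zero]
  have hfi : (U ⊓ st Γ b ⊓ st Γ q).relIndex (U ⊓ st Γ b) ≠ 0 := by
    rw [Subgroup.inf_relIndex_left]
    exact (orb_finite_iff _ _).1 hqf
  have hσ : ∀ n, ur Ω (U ⊓ st Γ q ⊓ st Γ (ini c n)) (c n) = ur Ω U s := by
    intro n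
    have e1 : ur Ω (U ⊓ st Γ q ⊓ st Γ (ini c n)) (c n) = ur Ω (U ⊓ st Γ q) (c n) :=
      ur_of_real hN hCY hUq (op_inf hUq (hini n)) inf_le_left inf_le_right (hcU n)
    have e2 : ur Ω (U ⊓ st Γ b ⊓ st Γ q) (c n) = ur Ω (U ⊓ st Γ q) (c n) :=
      ur_of_real hN hCY hUq hV0 hle inf_le_right (hcV0 n)
    obtain ⟨g, hg, hgc⟩ := hconj n
    have e3 : ur Ω (U ⊓ st Γ b ⊓ st Γ q) (c n) = ur Ω (U ⊓ st Γ b ⊓ st Γ q) (s, y) := by
      rw [← hgc]; exact ur_smul hg _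
    have e4 : ur Ω (U ⊓ st Γ b ⊓ st Γ q) (s, y) = ur Ω (U ⊓ st Γ b) (s, y) :=
      ur_fi hN hCY hV0 inf_le_left hfi _
    rw [e1, ← e2, e3, e4, hsy]
  have hini2 : ur Ω (U ⊓ st Γ q) (ini c (n + 1)) = (n + 1) * ur Ω U s :=
    ur_ini_indep hN hCY hUq c hσ (n + 1)
  have sT : Srt Ω Γ (Γ ⧸ st Γ q) := srt_coset hq
  have eT : st Γ ((1 : Γ) : Γ ⧸ st Γ q) = st Γ q := st_coset _
  have sI := srt_pi hN hCY (n + 1)
  have e5 : ur Ω U (ini c (n + 1), ((1 : Γ) : Γ ⧸ st Γ q)) = ur Ω U (ini c (n + 1)) := by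
    refine ur_pair_alg hN sI sT hU _ _ ?_
    rw [orb_finite_iff, eT, ← orb_finite_iff]
    exact hn1
  have e6 := ur_pair hN sI sT hU (ini c (n + 1)) ((1 : Γ) : Γ ⧸ st Γ q)
  rw [e5, eT, hini2, hstep] at e6
  refine ⟨st Γ q, hq, by omega, ?_⟩
  exact (orb_finite_iff _ _).1 hqf

/-- (T2) coordinatisation: every element `b` of rank `≥ 1` over `U` has an imaginary
(the coset `1·V`) of rank one over `U` that is algebraic over `U ⊓ st b`. -/
theorem coord (hN : Nice Ω Γ) (hZ : Srt Ω Γ Z) {U : Subgroup Γ} (hU : Op Ω U) (b : Z)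
    (hb : 1 ≤ ur Ω U b) :
    ∃ V : Subgroup Γ, Op Ω V ∧ ur Ω U ((1 : Γ) : Γ ⧸ V) = 1 ∧
      V.relIndex (U ⊓ st Γ b) ≠ 0 := by
  rcases hb.eq_or_lt with hb1 | hb2
  · refine ⟨st Γ b, hZ.sm b, ?_, ?_⟩
    · rw [ur_coset hN hZ hU b, ← hb1]
    · rw [Subgroup.relIndex_eq_one.2 inf_le_right]
      exact one_ne_zero
  · rcases coord_step1 hN hZ hU b hb2 with h | ⟨S, V, hS, hV, hSU, hSb, hSV, hfi⟩
    · exact h
    · have eS : st Γ ((1 : Γ) : Γ ⧸ S) = S := st_coset S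
      have eV : st Γ ((1 : Γ) : Γ ⧸ V) = V := st_coset V
      have eUS : U ⊓ S = S := inf_eq_right.2 hSU
      refine coord_step3 hN hZ (srt_coset hV) (srt_coset hS) hU b ((1 : Γ) : Γ ⧸ S)
        ((1 : Γ) : Γ ⧸ V) ?_ ?_ ?_
      · rw [eS, eUS, hSb]
      · rw [eS, eUS, hSV]
      · have e : U ⊓ st Γ b ⊓ S = S ⊓ st Γ b := by
          rw [inf_right_comm, eUS]
        rw [eS, e, ur_eq_zero hN (srt_coset hV) (op_inf hS (hZ.sm b)), orb_finite_iff, eV]
        exact hfi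

end Pool.Agent.Lib.ThC

end

section

/-! # C5: algebraic closure of unions -/

set_option autoImplicit false
open scoped Pointwise

namespace Pool.Agent.Lib.ThC

variable {Ω Γ : Type} [Group Γ] [MulAction Γ Ω]
variable {Z C D : Type} [MulAction Γ Z] [MulAction Γ C] [MulAction Γ D]

/-- if `e` is algebraic over `V` and `x` over `V, e`, then `x` is algebraic over `V`. -/
private theorem C5_trans (hN : Nice Ω Γ) (hZ : Srt Ω Γ Z) (hC : Srt Ω Γ C) {V : Subgroup Γ}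
    (hV : Op Ω V) (x : Z) (e : C) (he : ur Ω V e = 0) (hx : ur Ω (V ⊓ st Γ e) x = 0) :
    ur Ω V x = 0 := by
  have h1 := ur_symm hN hZ hC hV x e
  omega

private theorem C5_main (hN : Nice Ω Γ) (hZ : Srt Ω Γ Z) (hC : Srt Ω Γ C) (hD : Srt Ω Γ D)
    (x : Z) (c : C) (d : D) (r : ℕ) : ∀ {U : Subgroup Γ} (_ : Op Ω U) (_ : ur Ω U c = r)
    (_ : ur Ω U x = 1) (_ : ur Ω (U ⊓ st Γ c ⊓ st Γ d) x = 0),
    ur Ω (U ⊓ st Γ c) x = 0 ∨ ur Ω (U ⊓ st Γ d) x = 0 := by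
  induction r with
  | zero =>
    intro U hU hc hx h
    right
    have hUd := op_inf hU (hD.sm d)
    refine C5_trans hN hZ hC hUd x c ?_ ?_
    · have h1 := ur_mono hN hC hUd inf_le_left c
      omega
    · rw [inf_right_comm] at h
      exact h
  | succ r ih =>
    intro U hU hc hx h
    by_cases hd : ur Ω (U ⊓ st Γ d) x = 0
    · exact Or.inr hd
    left
    have hUc := op_inf hU (hC.sm c)
    have hUd := op_inf hU (hD.sm d)
    have hd1 : ur Ω (U ⊓ st Γ d) x = 1 := by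
      have h1 := ur_mono hN hZ hUd inf_le_left x
      omega
    obtain ⟨V, hV, hV1, hVc⟩ := coord hN hC hU c (by omega)
    set e : Γ ⧸ V := ((1 : Γ) : Γ ⧸ V) with he
    have hE : Srt Ω Γ (Γ ⧸ V) := srt_coset hV
    have hste : st Γ e = V := st_coset V
    have hUe := op_inf hU (hE.sm e)
    have hec : ur Ω (U ⊓ st Γ c) e = 0 := by
      rw [ur_eq_zero hN hE hUc, orb_finite_iff, hste]
      exact hVc
    by_cases hxe : ur Ω (U ⊓ st Γ e) x = 0
    · refine C5_trans hN hZ hE hUc x e hec ?_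
      have h1 := ur_mono hN hZ (op_inf hUc (hE.sm e))
        (le_inf (inf_le_left.trans inf_le_left) inf_le_right : U ⊓ st Γ c ⊓ st Γ e ≤ U ⊓ st Γ e) x
      omega
    have hxe1 : ur Ω (U ⊓ st Γ e) x = 1 := by
      have h1 := ur_mono hN hZ hUe inf_le_left x
      omega
    have hpair : ur Ω U (x, e) = 2 := by
      rw [ur_pair hN hZ hE hU, hV1, hxe1]
    have hUde := op_inf hUd (hE.sm e)
    have hne : ur Ω (U ⊓ st Γ e ⊓ st Γ d) x ≠ 0 := by
      rw [inf_right_comm]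
      by_cases hed : ur Ω (U ⊓ st Γ d) e = 0
      · have h1 := ur_symm hN hZ hE hUd x e
        omega
      · have hed1 : ur Ω (U ⊓ st Γ d) e = 1 := by
          have h1 := ur_mono hN hE hUd inf_le_left e
          omega
        have h2 := triv_orth hN hZ hE hD hU x e d hd1 hed1 hx hV1 hpair
        rw [ur_pair hN hZ hE hUd] at h2
        omega
    have hrank : ur Ω (U ⊓ st Γ e) c = r := by
      have h1 := ur_symm hN hC hE hU c e
      omega
    have hzero : ur Ω (U ⊓ st Γ e ⊓ st Γ c ⊓ st Γ d) x = 0 := by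
      have h1 := ur_mono hN hZ (op_inf (op_inf hUe (hC.sm c)) (hD.sm d))
        (inf_le_inf_right _ (inf_le_inf_right _ inf_le_left) :
          U ⊓ st Γ e ⊓ st Γ c ⊓ st Γ d ≤ U ⊓ st Γ c ⊓ st Γ d) x
      omega
    rcases ih hUe hrank hxe1 hzero with h1 | h1
    · refine C5_trans hN hZ hE hUc x e hec ?_
      rw [inf_right_comm]
      exact h1
    · exact absurd h1 hne

/-- (T1): a rank one element algebraic over `c, d` is algebraic over `c` or over `d`.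
Induction on `ur U c` (all `U`, all `c`): if it is `0`, `U ⊓ st c` has finite
index in `U`.  Otherwise take `e` with `ur U e = 1`, `e` algebraic over
`U ⊓ st c` (`coord`).  Suppose `x` is not algebraic over `U ⊓ st d`.
If `x` is algebraic over `U ⊓ st e`, it is algebraic over `U ⊓ st c`.  Otherwise
`ur U (x,e) = 2`.  If `e` is not algebraic over `U ⊓ st d` then
`triv_orth` (with `c := d`) shows that `x` is not algebraic over `U ⊓ st e ⊓ st d`;
if it is, the same is clear.  The induction hypothesis for `U ⊓ st e` gives that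
`x` is algebraic over `U ⊓ st e ⊓ st c`, hence over `U ⊓ st c`. -/
theorem acl_union (hN : Nice Ω Γ) (hZ : Srt Ω Γ Z) (hC : Srt Ω Γ C) (hD : Srt Ω Γ D)
    {U : Subgroup Γ} (hU : Op Ω U) (x : Z) (c : C) (d : D) (hx : ur Ω U x = 1)
    (h : ur Ω (U ⊓ st Γ c ⊓ st Γ d) x = 0) :
    ur Ω (U ⊓ st Γ c) x = 0 ∨ ur Ω (U ⊓ st Γ d) x = 0 :=
  C5_main hN hZ hC hD x c d _ hU rfl hx h

theorem acl_union_tuple (hN : Nice Ω Γ) (hZ : Srt Ω Γ Z) (hC : Srt Ω Γ C)
    {U : Subgroup Γ} (hU : Op Ω U) (x : Z) {n : ℕ} (c : Fin n → C) (hx : ur Ω U x = 1)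
    (h : ur Ω (U ⊓ st Γ c) x = 0) : ∃ i, ur Ω (U ⊓ st Γ (c i)) x = 0 := by
  induction n with
  | zero =>
    exfalso
    have h1 : U ⊓ st Γ c = U := by
      refine inf_eq_left.2 fun g _ => ?_
      rw [MulAction.mem_stabilizer_iff]
      exact Subsingleton.elim _ _
    rw [h1] at h
    omega
  | succ n ih =>
    have h1 : U ⊓ st Γ c = U ⊓ st Γ (Fin.init c) ⊓ st Γ (c (Fin.last n)) := by
      rw [inf_assoc]
      congr 1
      ext g
      rw [Subgroup.mem_inf, MulAction.mem_stabilizer_iff, MulAction.mem_stabilizer_iff,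
        MulAction.mem_stabilizer_iff]
      constructor
      · intro hg
        refine ⟨?_, congrFun hg _⟩
        funext i
        exact congrFun hg i.castSucc
      · rintro ⟨hg, hg'⟩
        funext i
        refine Fin.lastCases ?_ (fun j => ?_) i
        · exact hg'
        · exact congrFun hg j
    rw [h1] at h
    rcases acl_union hN hZ (srt_pi hN hC n) hC hU x (Fin.init c) (c (Fin.last n)) hx h with h2 | h2
    · obtain ⟨i, hi⟩ := ih (Fin.init c) h2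
      exact ⟨i.castSucc, hi⟩
    · exact ⟨_, h2⟩

end Pool.Agent.Lib.ThC

end

section

/-! # D0a: rank calculus in terms of open subgroups

`rr U V` is the rank over `U` of an imaginary with stabiliser `V`.  Everything follows from the
lemmas of A10, A11, C2-C5 applied to cosets `(1 : Γ) : Γ ⧸ V` (`srt_coset`, `st_coset`,
`ur_eq_of_st`, and tuples of elements of different coset spaces: use `ur_pair` / `ur_eq_of_st`
with a sort such as `Γ ⧸ (⨅ i, V i)` or `(i : Fin n) → Γ ⧸ V i`; note that any finite family of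
open subgroups consists of stabilisers of elements of the single sort
`Σ`-type or `Fin n`-fold product). -/

set_option autoImplicit false
open scoped Pointwise

namespace Pool.Agent.Lib.ThC

variable {Ω Γ : Type} [Group Γ] [MulAction Γ Ω]

/-- the rank over `U` of an imaginary with stabiliser `V`. -/
noncomputable def rr (Ω : Type) {Γ : Type} [Group Γ] [MulAction Γ Ω] (U V : Subgroup Γ) : ℕ :=
  ur Ω U ((1 : Γ) : Γ ⧸ V)

theorem rr_st {Z : Type} [MulAction Γ Z] (hN : Nice Ω Γ) (hZ : Srt Ω Γ Z) {U : Subgroup Γ}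
    (hU : Op Ω U) (z : Z) : rr Ω U (st Γ z) = ur Ω U z := by
  exact C2a_D_st hN hZ hU z

theorem rr_mono (hN : Nice Ω Γ) {U V W : Subgroup Γ} (hV : Op Ω V) (hVU : V ≤ U)
    (hW : Op Ω W) : rr Ω V W ≤ rr Ω U W := by
  exact C2a_D_mono hN hV hVU hW

theorem rr_inf (hN : Nice Ω Γ) {U V W : Subgroup Γ} (hU : Op Ω U) (hV : Op Ω V)
    (hW : Op Ω W) : rr Ω U (V ⊓ W) = rr Ω U W + rr Ω (U ⊓ W) V := by
  exact C2a_D_inf hN hU hV hW

theorem rr_anti (hN : Nice Ω Γ) {U V W : Subgroup Γ} (hU : Op Ω U) (hV : Op Ω V)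
    (hVW : V ≤ W) : rr Ω U W ≤ rr Ω U V := by
  exact C2a_D_anti hN hU hV hVW (op_mono hV hVW)

theorem rr_eq_zero (hN : Nice Ω Γ) {U V : Subgroup Γ} (hU : Op Ω U) (hV : Op Ω V) :
    rr Ω U V = 0 ↔ V.relIndex U ≠ 0 := by
  have h1 := ur_eq_zero hN (srt_coset hV) hU (a := ((1 : Γ) : Γ ⧸ V))
  have h2 := orb_finite_iff U ((1 : Γ) : Γ ⧸ V)
  rw [st_coset] at h2
  exact h1.trans h2

theorem rr_cj (hN : Nice Ω Γ) (g : Γ) {U V : Subgroup Γ} (hU : Op Ω U) (hV : Op Ω V) :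
    rr Ω (cj g U) (cj g V) = rr Ω U V := by
  have h1 : st Γ (g • ((1 : Γ) : Γ ⧸ V)) = cj g V := by rw [st_smul, st_coset]
  rw [← h1, rr_st hN (srt_coset hV) (op_cj g hU)]
  exact ur_cj g U _

theorem rr_fi (hN : Nice Ω Γ) {U V W : Subgroup Γ} (hV : Op Ω V) (hVU : V ≤ U)
    (hfi : V.relIndex U ≠ 0) (hW : Op Ω W) : rr Ω V W = rr Ω U W := by
  exact ur_fi hN (srt_coset hW) hV hVU hfi _

theorem rr_ext (hN : Nice Ω Γ) {U V W : Subgroup Γ} (hV : Op Ω V) (hVU : V ≤ U)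
    (hW : Op Ω W) : ∃ g ∈ U, rr Ω V (cj g W) = rr Ω U W := by
  obtain ⟨g, hg, h⟩ := ur_ext hN (srt_coset hW) hV hVU ((1 : Γ) : Γ ⧸ W)
  refine ⟨g, hg, ?_⟩
  have h1 : st Γ (g • ((1 : Γ) : Γ ⧸ W)) = cj g W := by rw [st_smul, st_coset]
  rw [← h1, rr_st hN (srt_coset hW) hV]
  exact h

end Pool.Agent.Lib.ThC

end

section

/-! # D0b: rank calculus in terms of open subgroups

`rr U V` is the rank over `U` of an imaginary with stabiliser `V`.  Everything follows from the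
lemmas of A10, A11, C2-C5 applied to cosets `(1 : Γ) : Γ ⧸ V` (`srt_coset`, `st_coset`,
`ur_eq_of_st`, and tuples of elements of different coset spaces: use `ur_pair` / `ur_eq_of_st`
with a sort such as `Γ ⧸ (⨅ i, V i)` or `(i : Fin n) → Γ ⧸ V i`; note that any finite family of
open subgroups consists of stabilisers of elements of the single sort
`Σ`-type or `Fin n`-fold product). -/

set_option autoImplicit false
open scoped Pointwise

namespace Pool.Agent.Lib.ThC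

variable {Ω Γ : Type} [Group Γ] [MulAction Γ Ω]

/-- finitely many open subgroups are the stabilisers of elements of one sort. -/
private theorem D0b_sort {n : ℕ} (V : Fin n → Subgroup Γ) (hV : ∀ i, Op Ω (V i)) :
    ∃ (Z : Type) (_ : MulAction Γ Z), Srt Ω Γ Z ∧ ∃ x : Fin n → Z, ∀ i, st Γ (x i) = V i := by
  classical
  have hst : ∀ (i : Fin n) (y : Γ ⧸ V i), st Γ (⟨i, y⟩ : Σ i : Fin n, Γ ⧸ V i) = st Γ y := by
    intro i y
    ext g
    rw [MulAction.mem_stabilizer_iff, MulAction.mem_stabilizer_iff]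
    constructor
    · intro h
      have h2 : (⟨i, g • y⟩ : Σ i : Fin n, Γ ⧸ V i) = ⟨i, y⟩ := h
      simpa using h2
    · intro h
      show (⟨i, g • y⟩ : Σ i : Fin n, Γ ⧸ V i) = ⟨i, y⟩
      rw [h]
  refine ⟨Σ i : Fin n, Γ ⧸ V i, inferInstance, ⟨?_, ?_⟩, fun i => ⟨i, ((1 : Γ) : Γ ⧸ V i)⟩, ?_⟩
  · rintro ⟨i, y⟩
    rw [hst]
    exact (srt_coset (hV i)).sm y
  · refine ⟨Finset.univ.image (fun i => ⟨i, ((1 : Γ) : Γ ⧸ V i)⟩), ?_⟩
    rintro ⟨i, y⟩
    obtain ⟨g, rfl⟩ := QuotientGroup.mk_surjective y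
    refine ⟨⟨i, ((1 : Γ) : Γ ⧸ V i)⟩, Finset.mem_image_of_mem _ (Finset.mem_univ i), g, ?_⟩
    show (⟨i, g • ((1 : Γ) : Γ ⧸ V i)⟩ : Σ i : Fin n, Γ ⧸ V i) = ⟨i, ((g : Γ) : Γ ⧸ V i)⟩
    rw [MulAction.Quotient.smul_coe, smul_eq_mul, mul_one]
  · intro i
    rw [hst, st_coset]

/-- coordinatisation (T2) -/
theorem rr_coord (hN : Nice Ω Γ) {U W : Subgroup Γ} (hU : Op Ω U) (hW : Op Ω W)
    (h : 1 ≤ rr Ω U W) :
    ∃ V : Subgroup Γ, Op Ω V ∧ rr Ω U V = 1 ∧ V.relIndex (U ⊓ W) ≠ 0 := by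
  obtain ⟨V, h1, h2, h3⟩ := coord hN (srt_coset hW) hU ((1 : Γ) : Γ ⧸ W) h
  rw [st_coset] at h3
  exact ⟨V, h1, h2, h3⟩

/-- triviality -/
theorem rr_triv (hN : Nice Ω Γ) {U : Subgroup Γ} (hU : Op Ω U) {n : ℕ}
    (V : Fin n → Subgroup Γ) (hV : ∀ i, Op Ω (V i)) (h1 : ∀ i, rr Ω U (V i) = 1)
    (h2 : ∀ i j, i ≠ j → rr Ω U (V i ⊓ V j) = 2) : rr Ω U (⨅ i, V i) = n := by
  obtain ⟨Z, _, hZ, x, hx⟩ := D0b_sort (Ω := Ω) V hV
  have e1 : ∀ i, ur Ω U (x i) = 1 := by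
    intro i
    rw [← rr_st hN hZ hU, hx]
    exact h1 i
  have e2 : ∀ i j, i ≠ j → ur Ω U (x i, x j) = 2 := by
    intro i j hij
    rw [← rr_st hN (srt_prod hN hZ hZ) hU, st_prod, hx, hx]
    exact h2 i j hij
  have e3 := triv hN hZ hU x e1 e2
  rw [← rr_st hN (srt_pi hN hZ n) hU, st_pi] at e3
  simpa only [hx] using e3

/-- (T1') -/
theorem rr_orth (hN : Nice Ω Γ) {U C X Y : Subgroup Γ} (hU : Op Ω U) (hC : Op Ω C)
    (hX : Op Ω X) (hY : Op Ω Y) (hxc : rr Ω (U ⊓ C) X = 1) (hyc : rr Ω (U ⊓ C) Y = 1)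
    (hx : rr Ω U X = 1) (hy : rr Ω U Y = 1) (hxy : rr Ω U (X ⊓ Y) = 2) :
    rr Ω (U ⊓ C) (X ⊓ Y) = 2 := by
  have hsX : Srt Ω Γ (Γ ⧸ X) := srt_coset hX
  have hsY : Srt Ω Γ (Γ ⧸ Y) := srt_coset hY
  have hsC : Srt Ω Γ (Γ ⧸ C) := srt_coset hC
  have h := triv_orth hN hsX hsY hsC hU ((1 : Γ) : Γ ⧸ X) ((1 : Γ) : Γ ⧸ Y) ((1 : Γ) : Γ ⧸ C)
    (by rw [st_coset]; exact hxc) (by rw [st_coset]; exact hyc) hx hy
    (by rw [← rr_st hN (srt_prod hN hsX hsY) hU, st_prod, st_coset, st_coset]; exact hxy)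
  rw [st_coset, ← rr_st hN (srt_prod hN hsX hsY) (op_inf hU hC), st_prod, st_coset, st_coset] at h
  exact h

/-- (T1) for tuples -/
theorem rr_union (hN : Nice Ω Γ) {U X : Subgroup Γ} (hU : Op Ω U) (hX : Op Ω X) {n : ℕ}
    (C : Fin n → Subgroup Γ) (hC : ∀ i, Op Ω (C i)) (hx : rr Ω U X = 1)
    (h : rr Ω (U ⊓ ⨅ i, C i) X = 0) : ∃ i, rr Ω (U ⊓ C i) X = 0 := by
  obtain ⟨Z, _, hZ, x, hx'⟩ := D0b_sort (Ω := Ω) C hC
  have h1 : ur Ω (U ⊓ st Γ x) ((1 : Γ) : Γ ⧸ X) = 0 := by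
    rw [st_pi]
    simp only [hx']
    exact h
  obtain ⟨i, hi⟩ := acl_union_tuple hN (srt_coset hX) hZ hU ((1 : Γ) : Γ ⧸ X) x hx h1
  rw [hx'] at hi
  exact ⟨i, hi⟩

end Pool.Agent.Lib.ThC

end
end

section

section

/-! # E1a: 2-transitive pairs of open subgroups -/

set_option autoImplicit false
open scoped Pointwise

namespace Pool.Agent.Lib.ThC

variable {Ω Γ : Type} [Group Γ] [MulAction Γ Ω]

/-- `Vc` acts 2-transitively on the infinite set `Vc / Vw`. -/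
structure TwoTr (Ω : Type) {Γ : Type} [Group Γ] [MulAction Γ Ω] (Vw Vc : Subgroup Γ) :
    Prop where
  op : Op Ω Vw
  le : Vw ≤ Vc
  inf : Vw.relIndex Vc = 0
  tr : ∀ g ∈ Vc, ∀ g' ∈ Vc, g ∉ Vw → g' ∉ Vw → ∃ h ∈ Vw, g'⁻¹ * h * g ∈ Vw

/-- Then the rank is one.  `ρ = rr Vc Vw ≥ 1` by `rr_eq_zero`.  Suppose `ρ ≥ 2`.  By `rr_coord`
there is an open `E` with `rr Vc E = 1`, `E.relIndex (Vc ⊓ Vw) ≠ 0`.  By `rr_ext` (for
`Vc ⊓ E ⊓ Vw ≤ Vc ⊓ E` and `W = Vw`) there is `g ∈ Vc ⊓ E` with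
`rr (Vc ⊓ E ⊓ Vw) (cj g Vw) = rr (Vc ⊓ E) Vw = ρ - 1`.
As `E` is algebraic over `Vw`, `rr Vw (cj g Vw) = rr (Vw ⊓ E) (cj g Vw) = ρ - 1`, so
`rr Vc (Vw ⊓ cj g Vw) = 2 ρ - 1`; `g ∉ Vw` (else the rank would be zero and `ρ = 1`).
By `rr_ext` for `Vw ≤ Vc` there is `g' ∈ Vc` with `rr Vw (cj g' Vw) = ρ`, so
`rr Vc (Vw ⊓ cj g' Vw) = 2 ρ` and `g' ∉ Vw`.  By `tr` the pairs `(Vw, cj g Vw)` and
`(Vw, cj g' Vw)` are conjugate under `Vw ≤ Vc`, contradiction. -/
theorem two_trans_rank (hN : Nice Ω Γ) {Vw Vc : Subgroup Γ} (h : TwoTr Ω Vw Vc) :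
    rr Ω Vc Vw = 1 := by
  have hw := h.op
  have hc : Op Ω Vc := op_mono hw h.le
  have hself : rr Ω Vw Vw = 0 := by
    rw [rr_eq_zero hN hw hw, Subgroup.relIndex_self]
    exact one_ne_zero
  have h1 : rr Ω Vc Vw ≠ 0 := by
    rw [Ne, rr_eq_zero hN hc hw, not_not]
    exact h.inf
  by_contra hcon
  obtain ⟨E, hE, hE1, hE2⟩ := rr_coord hN hc hw (by omega)
  have e1 : Vc ⊓ Vw = Vw := inf_eq_right.2 h.le
  rw [e1] at hE2
  have hE3 : rr Ω Vw E = 0 := (rr_eq_zero hN hw hE).2 hE2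
  -- the rank over `Vc ⊓ E`
  have h2 := rr_inf hN hc hE hw
  rw [e1, hE3] at h2
  have h3 := rr_inf hN hc hw hE
  rw [inf_comm Vw E, hE1] at h3
  -- first copy
  obtain ⟨g, hg, hg1⟩ := rr_ext hN (U := Vc ⊓ E) (V := Vc ⊓ E ⊓ Vw) (W := Vw)
    (op_inf (op_inf hc hE) hw) inf_le_left hw
  have e2 : Vc ⊓ E ⊓ Vw = E ⊓ Vw := by rw [inf_comm Vc E, inf_assoc, e1]
  rw [e2] at hg1
  have h4 : rr Ω (E ⊓ Vw) (cj g Vw) = rr Ω Vw (cj g Vw) :=
    rr_fi hN (op_inf hE hw) inf_le_right (by rw [Subgroup.inf_relIndex_right]; exact hE2)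
      (op_cj g hw)
  have hgw : g ∉ Vw := by
    intro hgw
    rw [cj_eq_of_mem hgw] at h4 hg1
    omega
  -- second copy
  obtain ⟨g', hg', hg'1⟩ := rr_ext hN (U := Vc) (V := Vw) (W := Vw) hw h.le hw
  have hgw' : g' ∉ Vw := by
    intro hgw
    rw [cj_eq_of_mem hgw] at hg'1
    omega
  obtain ⟨k, hk, hk1⟩ := h.tr g hg.1 g' hg' hgw hgw'
  have h5 : rr Ω (cj k Vw) (cj k (cj g Vw)) = rr Ω Vw (cj g Vw) :=
    rr_cj hN k hw (op_cj g hw)
  have h6 : cj k (cj g Vw) = cj g' Vw := by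
    have h7 : k * g = g' * (g'⁻¹ * k * g) := by group
    rw [cj_cj, h7, ← cj_cj, cj_eq_of_mem hk1]
  rw [cj_eq_of_mem hk, h6] at h5
  omega

end Pool.Agent.Lib.ThC

end

section

/-! # E1b: 2-transitive pairs of open subgroups -/

set_option autoImplicit false
open scoped Pointwise

namespace Pool.Agent.Lib.ThC

variable {Ω Γ : Type} [Group Γ] [MulAction Γ Ω]

/-- The generic type.  Let `a = 1·Vw`.  Take `p` from `stp_exists` for `Vc` and `a`: `(orb Vc p)`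
finite, `orb (Vc ⊓ st p) a ∈ p`.  Let `N₁ ≤ Vc ⊓ st p` be normal in `Vc` of finite index in
`Vc`.  `orb N₁ a = orb Vc a`: otherwise, if `orb N₁ a` contains some `b ≠ a`, for every
`b' ≠ a` in `orb Vc a` there is `h ∈ Vw` with `h • b = b'` and `b' ∈ h • orb N₁ a = orb N₁ a`; if
`orb N₁ a = {a}` then `N₁ ≤ Vw`, so `Vw` has finite index in `Vc`, contradiction.
For `g ∈ Vc` both `p` and `g • p` contain `orb N₁ a = orb Vc a` and are fixed by `N₁`, so by
`nf_unique` (for `N₁`) `g • p = p`. -/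
theorem prim_type (hN : Nice Ω Γ) {Vw Vc : Subgroup Γ} (h : TwoTr Ω Vw Vc) :
    ∃ p : Tp Ω Γ (Γ ⧸ Vw), Vc ≤ st Γ p ∧ orb Vc ((1 : Γ) : Γ ⧸ Vw) ∈ p.s := by
  have hw := h.op
  have hc : Op Ω Vc := op_mono hw h.le
  have hZ : Srt Ω Γ (Γ ⧸ Vw) := srt_coset hw
  set a : Γ ⧸ Vw := ((1 : Γ) : Γ ⧸ Vw) with ha
  have hsta : st Γ a = Vw := st_coset Vw
  obtain ⟨p, hp, hpa⟩ := stp_exists hN hZ hc a
  have hpc : orb Vc a ∈ p.s := p.up _ hpa _ (df_orb hc a) (orb_mono inf_le_left a)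
  -- the pointwise stabiliser of the orbit of `p`
  obtain ⟨n, x, hx⟩ : ∃ (n : ℕ) (x : Fin n → Tp Ω Γ (Γ ⧸ Vw)), Set.range x = orb Vc p := by
    refine ⟨hp.toFinset.card, fun i => (hp.toFinset.equivFin.symm i : Tp Ω Γ (Γ ⧸ Vw)), ?_⟩
    ext q
    constructor
    · rintro ⟨i, rfl⟩
      exact (Set.Finite.mem_toFinset hp).1 (hp.toFinset.equivFin.symm i).2
    · intro hq
      exact ⟨hp.toFinset.equivFin ⟨q, (Set.Finite.mem_toFinset hp).2 hq⟩, by simp⟩
  have hxm : ∀ i, x i ∈ orb Vc p := fun i => hx ▸ Set.mem_range_self i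
  have hxs : ∀ q ∈ orb Vc p, ∃ i, x i = q := fun q hq => by
    rw [← hx] at hq
    exact hq
  have hstx : Op Ω (st Γ x) := by
    rw [st_pi]
    exact op_iInf fun i => tp_open hN hZ (x i)
  have hfi : (st Γ x).relIndex Vc ≠ 0 := by
    rw [← orb_finite_iff]
    refine (Set.Finite.pi' (fun _ : Fin n => hp)).subset ?_
    rintro _ ⟨g, hg, rfl⟩ i
    obtain ⟨k, hk, hk1⟩ := hxm i
    refine ⟨g * k, Vc.mul_mem hg hk, ?_⟩
    rw [mul_smul, hk1]
    rfl
  have hN1 : Op Ω (Vc ⊓ st Γ x) := op_inf hc hstx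
  have hfix : ∀ k ∈ Vc ⊓ st Γ x, ∀ q ∈ orb Vc p, k • q = q := by
    intro k hk q hq
    obtain ⟨i, rfl⟩ := hxs q hq
    exact congrFun hk.2 i
  have hnorm : ∀ g ∈ Vc, ∀ k ∈ Vc ⊓ st Γ x, g * k * g⁻¹ ∈ Vc ⊓ st Γ x := by
    intro g hg k hk
    refine ⟨Vc.mul_mem (Vc.mul_mem hg hk.1) (Vc.inv_mem hg), ?_⟩
    have h1 : (g * k * g⁻¹) • x = x := by
      funext i
      have h2 : g⁻¹ • x i ∈ orb Vc p := by
        obtain ⟨l, hl, hl1⟩ := hxm i
        exact ⟨g⁻¹ * l, Vc.mul_mem (Vc.inv_mem hg) hl, by rw [mul_smul, hl1]⟩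
      have h3 := hfix k hk _ h2
      change (g * k * g⁻¹) • x i = x i
      rw [mul_smul, mul_smul, h3, smul_inv_smul]
    exact h1
  have hmem : ∀ g : Γ, g • a = a ↔ g ∈ Vw := fun g =>
    MulAction.mem_stabilizer_iff.symm.trans (SetLike.ext_iff.1 hsta g)
  -- the orbits coincide
  have horb : orb Vc a ⊆ orb (Vc ⊓ st Γ x) a := by
    by_cases hb : ∃ k ∈ Vc ⊓ st Γ x, k ∉ Vw
    · obtain ⟨k, hk, hkw⟩ := hb
      rintro _ ⟨g', hg', rfl⟩
      by_cases hgw' : g' ∈ Vw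
      · rw [(hmem g').2 hgw']
        exact mem_orb_self _ a
      · obtain ⟨l, hl, hl1⟩ := h.tr k hk.1 g' hg' hkw hgw'
        refine ⟨l * k * l⁻¹, hnorm l (h.le hl) k hk, ?_⟩
        have h1 : (l * k * l⁻¹) • a = (l * k) • a := by
          rw [mul_smul, (hmem l⁻¹).2 (Vw.inv_mem hl)]
        have h2 : (g'⁻¹ * l * k) • a = a := (hmem _).2 hl1
        rw [mul_assoc, mul_smul, inv_smul_eq_iff] at h2
        rw [h1, h2]
    · push Not at hb
      exfalso
      have h1 : Vw.relIndex Vc ∣ (Vc ⊓ st Γ x).relIndex Vc :=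
        Subgroup.relIndex_dvd_of_le_left Vc fun k hk => hb k hk
      rw [h.inf, zero_dvd_iff, Subgroup.inf_relIndex_left] at h1
      exact hfi h1
  have horb' : orb (Vc ⊓ st Γ x) a = orb Vc a :=
    Set.Subset.antisymm (orb_mono inf_le_left a) horb
  refine ⟨p, fun g hg => ?_, hpc⟩
  have h1 : orb (Vc ⊓ st Γ x) a ∈ p.s := by rw [horb']; exact hpc
  have h2 : orb (Vc ⊓ st Γ x) a ∈ (g • p).s := by
    rw [horb', mem_smul_tp, smul_orb_of_mem (Vc.inv_mem hg)]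
    exact hpc
  have h3 : (orb Vc (g • p)).Finite := by
    rw [orb_eq_of_mem (smul_mem_orb hg p)]
    exact hp
  obtain ⟨k, hk, hk1⟩ := nf_unique hN hZ hN1 (orb_finite_of_le inf_le_left hp)
    (orb_finite_of_le inf_le_left h3) h1 h2
  rw [MulAction.mem_stabilizer_iff, hk1]
  exact hfix k hk p (mem_orb_self Vc p)

end Pool.Agent.Lib.ThC

end

section

/-! # E1c: 2-transitive pairs of open subgroups -/

set_option autoImplicit false
open scoped Pointwise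

namespace Pool.Agent.Lib.ThC

variable {Ω Γ : Type} [Group Γ] [MulAction Γ Ω]

/-- Conjugacy.  In the sort `Γ ⧸ Vw` put `x i = g i • 1·Vw`, `y i = g' i • 1·Vw`, and `p i = g i • p` with
`p` from `prim_type`; `g' i • p = g i • p` by `hcc`, and `V ≤ cj (g i) Vc ≤ st (p i)`.
`x i` realises `p i` over `V` by `real_of_ur` (with `U = cj (g i) Vc`, ranks one by
`two_trans_rank`, `h1`), same for `y i`.  The tuples have rank `n` over `V` by `rr_triv` (`st_pi`,
`st_smul`, `rr_st`).  Apply `conj_of_indep`. -/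
theorem free_conj (hN : Nice Ω Γ) {Vw Vc : Subgroup Γ} (h : TwoTr Ω Vw Vc)
    {V : Subgroup Γ} (hV : Op Ω V) {n : ℕ} (g g' : Fin n → Γ)
    (hcc : ∀ i, (g i)⁻¹ * g' i ∈ Vc) (hVc : ∀ i, V ≤ cj (g i) Vc)
    (h1 : ∀ i, rr Ω V (cj (g i) Vw) = 1) (h1' : ∀ i, rr Ω V (cj (g' i) Vw) = 1)
    (h2 : ∀ i j, i ≠ j → rr Ω V (cj (g i) Vw ⊓ cj (g j) Vw) = 2)
    (h2' : ∀ i j, i ≠ j → rr Ω V (cj (g' i) Vw ⊓ cj (g' j) Vw) = 2) :
    ∃ k ∈ V, ∀ i, (g' i)⁻¹ * k * g i ∈ Vw := by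
  have hZ : Srt Ω Γ (Γ ⧸ Vw) := srt_coset h.op
  have hVcop : Op Ω Vc := op_mono h.op h.le
  obtain ⟨p, hp, hpa⟩ := prim_type hN h
  have key : ∀ g : Γ, V ≤ cj g Vc → rr Ω V (cj g Vw) = 1 →
      V ≤ st Γ (g • p) ∧ orb V (g • ((1 : Γ) : Γ ⧸ Vw)) ∈ (g • p).s ∧
        ur Ω V (g • ((1 : Γ) : Γ ⧸ Vw)) = 1 := by
    intro g hVg hr
    have hUop : Op Ω (cj g Vc) := op_cj g hVcop
    have hst : cj g Vc ≤ st Γ (g • p) := by
      rw [st_smul]
      exact cj_mono hp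
    have horb : orb (cj g Vc) (g • ((1 : Γ) : Γ ⧸ Vw)) ∈ (g • p).s := by
      rw [← smul_orb]
      exact smul_mem_smul_tp.2 hpa
    have hur : ∀ W : Subgroup Γ, Op Ω W →
        ur Ω W (g • ((1 : Γ) : Γ ⧸ Vw)) = rr Ω W (cj g Vw) := by
      intro W hW
      rw [← rr_st hN hZ hW, st_smul, st_coset]
    have hur1 : ur Ω V (g • ((1 : Γ) : Γ ⧸ Vw)) = 1 := (hur V hV).trans hr
    have hur2 : ur Ω (cj g Vc) (g • ((1 : Γ) : Γ ⧸ Vw)) = 1 := by
      rw [hur _ hUop, rr_cj hN g hVcop h.op, two_trans_rank hN h]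
    exact ⟨hVg.trans hst, real_of_ur hN hZ hUop hV hVg hst horb (hur1.trans hur2.symm), hur1⟩
  have hrank : ∀ g : Fin n → Γ, (∀ i, rr Ω V (cj (g i) Vw) = 1) →
      (∀ i j, i ≠ j → rr Ω V (cj (g i) Vw ⊓ cj (g j) Vw) = 2) →
      ur Ω V (fun i => g i • ((1 : Γ) : Γ ⧸ Vw)) = n := by
    intro g k1 k2
    rw [← rr_st hN (srt_pi hN hZ n) hV, st_pi]
    have e : (fun i => st Γ ((fun i => g i • ((1 : Γ) : Γ ⧸ Vw)) i)) = fun i => cj (g i) Vw := by
      funext i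
      change st Γ (g i • ((1 : Γ) : Γ ⧸ Vw)) = cj (g i) Vw
      rw [st_smul, st_coset]
    rw [show (⨅ i, st Γ ((fun i => g i • ((1 : Γ) : Γ ⧸ Vw)) i)) = ⨅ i, cj (g i) Vw from
      congrArg iInf e]
    exact rr_triv hN hV _ (fun i => op_cj _ h.op) k1 k2
  have hgp : ∀ i, g' i • p = g i • p := by
    intro i
    have h3 : ((g i)⁻¹ * g' i) • p = p := hp (hcc i)
    rw [mul_smul, inv_smul_eq_iff] at h3
    exact h3
  have hcj : ∀ i, cj (g' i) Vc = cj (g i) Vc := by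
    intro i
    have h3 : g' i = g i * ((g i)⁻¹ * g' i) := by group
    rw [h3, ← cj_cj, cj_eq_of_mem (hcc i)]
  obtain ⟨k, hk, hkx⟩ := conj_of_indep hN hZ hV (fun i => g i • p)
    (x := fun i => g i • ((1 : Γ) : Γ ⧸ Vw)) (y := fun i => g' i • ((1 : Γ) : Γ ⧸ Vw))
    (fun i => (key (g i) (hVc i) (h1 i)).1) (fun i => (key (g i) (hVc i) (h1 i)).2.1)
    (fun i => by
      have h3 := (key (g' i) (by rw [hcj]; exact hVc i) (h1' i)).2.1
      rw [hgp] at h3
      exact h3)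
    (fun i => (key (g i) (hVc i) (h1 i)).2.2) (hrank g h1 h2) (hrank g' h1' h2')
  refine ⟨k, hk, fun i => ?_⟩
  have h3 : k • g i • ((1 : Γ) : Γ ⧸ Vw) = g' i • ((1 : Γ) : Γ ⧸ Vw) := congrFun hkx i
  have h4 : (g' i)⁻¹ * k * g i ∈ st Γ ((1 : Γ) : Γ ⧸ Vw) := by
    change ((g' i)⁻¹ * k * g i) • ((1 : Γ) : Γ ⧸ Vw) = ((1 : Γ) : Γ ⧸ Vw)
    rw [mul_smul, mul_smul, h3, inv_smul_smul]
  rw [st_coset] at h4
  exact h4

end Pool.Agent.Lib.ThC

end

section

/-! # E2a: free sets -/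

set_option autoImplicit false
open scoped Pointwise

namespace Pool.Agent.Lib.ThC

variable {Ω Γ : Type} [Group Γ] [MulAction Γ Ω]
variable {Z : Type} [MulAction Γ Z]

/-- The orbit `W = Γ w` is free over `S` with respect to the map `W → Γ c`, `g w ↦ g c`: over every
finite subset `B` of `S`, two injective tuples of elements of `W` with the same images are
conjugate. -/
def Free (Γ : Type) [Group Γ] {Z : Type} [MulAction Γ Z] (S : Set Z) (w c : Z) : Prop :=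
  ∀ (B : Finset Z), (B : Set Z) ⊆ S → ∀ (n : ℕ) (g g' : Fin n → Γ),
    Function.Injective (fun i => g i • w) → Function.Injective (fun i => g' i • w) →
    (∀ i, g i • c = g' i • c) → ∃ h : Γ, (∀ b ∈ B, h • b = b) ∧
      ∀ i, h • (g i • w) = g' i • w

/-- the same for `|B| ≤ N`, `n ≤ N` only. -/
def FreeN (N : ℕ) (Γ : Type) [Group Γ] {Z : Type} [MulAction Γ Z] (S : Set Z) (w c : Z) :
    Prop :=
  ∀ (B : Finset Z), (B : Set Z) ⊆ S → B.card ≤ N → ∀ (n : ℕ), n ≤ N → ∀ (g g' : Fin n → Γ),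
    Function.Injective (fun i => g i • w) → Function.Injective (fun i => g' i • w) →
    (∀ i, g i • c = g' i • c) → ∃ h : Γ, (∀ b ∈ B, h • b = b) ∧
      ∀ i, h • (g i • w) = g' i • w

/-- the standing hypotheses for a free step. -/
structure FreeStep (Ω Γ : Type) [Group Γ] [MulAction Γ Ω] {Z : Type} [MulAction Γ Z]
    (S : Set Z) (w c : Z) : Prop where
  hc : c ∈ S
  hw : Op Ω (st Γ w)
  hwc : st Γ w ≤ st Γ c
  inf : (st Γ w).relIndex (st Γ c) = 0
  free : Free Γ S w c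

/-- `FreeN` with `B = ∅`, `n = 2`, tuples `(w, g w)`, `(w, g' w)`. -/
theorem freeN_twoTr {S : Set Z} {w c : Z} (hw : Op Ω (st Γ w))
    (hwc : st Γ w ≤ st Γ c) (hinf : (st Γ w).relIndex (st Γ c) = 0)
    (hf : FreeN 4 Γ S w c) : TwoTr Ω (st Γ w) (st Γ c) := by
  have key : ∀ x : Γ, x ∉ st Γ w →
      Function.Injective (fun i : Fin 2 => (![1, x] : Fin 2 → Γ) i • w) := by
    intro x hx i j hij
    have h1 : x • w ≠ w := fun h => hx (MulAction.mem_stabilizer_iff.2 h)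
    fin_cases i <;> fin_cases j
    · rfl
    · exfalso
      simp only [Fin.zero_eta, Fin.mk_one, Matrix.cons_val_zero, Matrix.cons_val_one,
        Matrix.cons_val_fin_one, one_smul] at hij
      exact h1 hij.symm
    · exfalso
      simp only [Fin.zero_eta, Fin.mk_one, Matrix.cons_val_zero, Matrix.cons_val_one,
        Matrix.cons_val_fin_one, one_smul] at hij
      exact h1 hij
    · rfl
  refine ⟨hw, hwc, hinf, ?_⟩
  intro g hg g' hg' hgw hgw'
  obtain ⟨h, -, hh⟩ := hf ∅ (by simp) (by simp) 2 (by norm_num) ![1, g] ![1, g'] (key g hgw)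
    (key g' hgw') (by
      intro i
      fin_cases i
      · rfl
      · exact (MulAction.mem_stabilizer_iff.1 hg).trans (MulAction.mem_stabilizer_iff.1 hg').symm)
  have h0 : h • ((1 : Γ) • w) = (1 : Γ) • w := hh 0
  have h1 : h • (g • w) = g' • w := hh 1
  rw [one_smul] at h0
  refine ⟨h, MulAction.mem_stabilizer_iff.2 h0, ?_⟩
  rw [MulAction.mem_stabilizer_iff, mul_smul, mul_smul, h1, inv_smul_smul]

/-- Rank one over all finite subsets of `S` containing the image.  Let `w' = g • w`,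
`c' = g • c ∈ B`.  `rr (st c') (st w') = 1` (`two_trans_rank`, `rr_cj`).  For `s ∈ B` the group
`st c' ⊓ st s` acts transitively on the infinite set `{g' • w | g' • c = c'}` (`FreeN` with
`B = {c', s}`, `n = 1`), so `rr (st c' ⊓ st s) (st w') ≠ 0`.  By `rr_union`
(`fx Γ B = ⨅ s ∈ B, st s`) the rank over `fx Γ B` is not zero; it is at most one by `rr_mono`. -/
theorem freeN_rank_one (hN : Nice Ω Γ) {S : Set Z} (hS : SInv Ω Γ S) {w c : Z}
    (hc : c ∈ S) (hw : Op Ω (st Γ w))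
    (hwc : st Γ w ≤ st Γ c) (hinf : (st Γ w).relIndex (st Γ c) = 0)
    (hf : FreeN 4 Γ S w c) (B : Finset Z) (hB : (B : Set Z) ⊆ S) (g : Γ)
    (hg : g • c ∈ B) : rr Ω (fx Γ B) (st Γ (g • w)) = 1 := by
  classical
  have hopc : Op Ω (st Γ c) := hS.sm c hc
  have hopc' : Op Ω (st Γ (g • c)) := hS.sm _ (hB hg)
  have hopw' : Op Ω (st Γ (g • w)) := by
    rw [st_smul]
    exact op_cj g hw
  have hr1 : rr Ω (st Γ (g • c)) (st Γ (g • w)) = 1 := by
    rw [st_smul, st_smul, rr_cj hN g hopc hw]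
    exact two_trans_rank hN (freeN_twoTr hw hwc hinf hf)
  -- the orbit of `w'` under the stabiliser of `c'` is infinite
  have hinf' : ¬ (orb (st Γ (g • c)) (g • w)).Finite := by
    rw [orb_finite_iff, not_not]
    by_contra h
    have h2 : rr Ω (st Γ (g • c)) (st Γ (g • w)) = 0 := (rr_eq_zero hN hopc' hopw').2 h
    omega
  have hs : ∀ s ∈ B, rr Ω (st Γ (g • c) ⊓ st Γ s) (st Γ (g • w)) ≠ 0 := by
    intro s hsB h0
    have hops : Op Ω (st Γ s) := hS.sm s (hB hsB)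
    rw [rr_eq_zero hN (op_inf hopc' hops) hopw', ← orb_finite_iff] at h0
    apply hinf'
    refine h0.subset ?_
    rintro y ⟨k, hk, rfl⟩
    have hk' : k • (g • c) = g • c := MulAction.mem_stabilizer_iff.1 hk
    obtain ⟨h, hh1, hh2⟩ := hf {g • c, s} (by
      intro x hx
      rw [Finset.coe_insert, Finset.coe_singleton] at hx
      rcases hx with rfl | hx
      · exact hB hg
      · rw [Set.mem_singleton_iff] at hx
        subst hx
        exact hB hsB) (by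
      refine (Finset.card_insert_le _ _).trans ?_
      rw [Finset.card_singleton]
      norm_num) 1 (by norm_num) (fun _ => g) (fun _ => k * g)
      (Function.injective_of_subsingleton _) (Function.injective_of_subsingleton _) (by
        intro i
        rw [mul_smul, hk'])
    refine ⟨h, ?_, ?_⟩
    · rw [Subgroup.mem_inf, MulAction.mem_stabilizer_iff, MulAction.mem_stabilizer_iff]
      exact ⟨hh1 _ (Finset.mem_insert_self _ _),
        hh1 _ (Finset.mem_insert_of_mem (Finset.mem_singleton_self _))⟩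
    · rw [hh2 0, mul_smul]
  -- the pointwise stabiliser as an intersection
  have hfx : fx Γ B = st Γ (g • c) ⊓ ⨅ i : Fin B.card, st Γ ((B.equivFin.symm i : B) : Z) := by
    ext x
    rw [mem_fixingSubgroup_iff, Subgroup.mem_inf, Subgroup.mem_iInf]
    constructor
    · intro h
      refine ⟨MulAction.mem_stabilizer_iff.2 (h _ (Finset.mem_coe.2 hg)), fun i =>
        MulAction.mem_stabilizer_iff.2 (h _ (Finset.mem_coe.2 (B.equivFin.symm i).2))⟩
    · rintro ⟨-, h⟩ y hy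
      have := h (B.equivFin ⟨y, Finset.mem_coe.1 hy⟩)
      rw [Equiv.symm_apply_apply] at this
      exact MulAction.mem_stabilizer_iff.1 this
  have hle : rr Ω (fx Γ B) (st Γ (g • w)) ≤ 1 := by
    rw [← hr1]
    refine rr_mono hN (op_fx hS hB) ?_ hopw'
    rw [hfx]
    exact inf_le_left
  have hne : rr Ω (fx Γ B) (st Γ (g • w)) ≠ 0 := by
    intro h0
    rw [hfx] at h0
    obtain ⟨i, hi⟩ := rr_union hN hopc' hopw'
      (fun i : Fin B.card => st Γ ((B.equivFin.symm i : B) : Z))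
      (fun i => hS.sm _ (hB (Finset.mem_coe.2 (B.equivFin.symm i).2))) hr1 h0
    exact hs _ (B.equivFin.symm i).2 hi
  omega

end Pool.Agent.Lib.ThC

end

section

/-! # E2b: free sets -/

set_option autoImplicit false
open scoped Pointwise

namespace Pool.Agent.Lib.ThC

variable {Ω Γ : Type} [Group Γ] [MulAction Γ Ω]
variable {Z : Type} [MulAction Γ Z]

/-- Distinct elements are independent.  First for `B = {c', c''}`: the group
`st c' ⊓ st c'' ⊓ st w'` is transitive on `{g • w | g • c = c''} \ {w'}` (`FreeN` with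
`B = {c', c''}`, `n = 2`), an infinite set containing `w''`, so the rank of `w''` over it is not
zero; total rank `2`.  Then `rr_orth` for larger `B`. -/
theorem freeN_rank_two (hN : Nice Ω Γ) {S : Set Z} (hS : SInv Ω Γ S) {w c : Z}
    (hc : c ∈ S) (hw : Op Ω (st Γ w))
    (hwc : st Γ w ≤ st Γ c) (hinf : (st Γ w).relIndex (st Γ c) = 0)
    (hf : FreeN 4 Γ S w c) (B : Finset Z) (hB : (B : Set Z) ⊆ S) (g g' : Γ)
    (hg : g • c ∈ B) (hg' : g' • c ∈ B) (hne : g • w ≠ g' • w) :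
    rr Ω (fx Γ B) (st Γ (g • w) ⊓ st Γ (g' • w)) = 2 := by
  classical
  set B₀ : Finset Z := {g • c, g' • c} with hB₀
  have hB₀B : B₀ ⊆ B := by
    intro x hx
    rw [hB₀, Finset.mem_insert, Finset.mem_singleton] at hx
    rcases hx with rfl | rfl
    · exact hg
    · exact hg'
  have hB₀S : (B₀ : Set Z) ⊆ S := fun x hx => hB (hB₀B hx)
  have hg₀ : g • c ∈ B₀ := by
    rw [hB₀]
    exact Finset.mem_insert_self _ _
  have hg₀' : g' • c ∈ B₀ := by
    rw [hB₀]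
    exact Finset.mem_insert_of_mem (Finset.mem_singleton_self _)
  have hopw : ∀ k : Γ, Op Ω (st Γ (k • w)) := fun k => by
    rw [st_smul]
    exact op_cj k hw
  have hU : Op Ω (fx Γ B₀) := op_fx hS hB₀S
  have hC : Op Ω (fx Γ B) := op_fx hS hB
  have hle : fx Γ B ≤ fx Γ B₀ := fx_anti hB₀B
  have hinfC : fx Γ B₀ ⊓ fx Γ B = fx Γ B := inf_eq_right.2 hle
  have r1 := freeN_rank_one hN hS hc hw hwc hinf hf B hB g hg
  have r1' := freeN_rank_one hN hS hc hw hwc hinf hf B hB g' hg'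
  have r0 := freeN_rank_one hN hS hc hw hwc hinf hf B₀ hB₀S g hg₀
  have r0' := freeN_rank_one hN hS hc hw hwc hinf hf B₀ hB₀S g' hg₀'
  -- the orbit of `g' • w` over `B₀` and `g • w` is infinite
  have hfib : ¬ (orb (st Γ c) w).Finite := by
    rw [orb_finite_iff]
    exact fun h => h hinf
  have horb : ¬ (orb (fx Γ B₀ ⊓ st Γ (g • w)) (g' • w)).Finite := by
    intro hfin
    apply hfib
    have h1 : ((fun x => g' • x) '' orb (st Γ c) w).Finite := by
      refine (hfin.union (Set.finite_singleton (g • w))).subset ?_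
      rintro y ⟨x, ⟨k, hk, rfl⟩, rfl⟩
      by_cases hy : g' • k • w = g • w
      · right
        exact hy
      left
      have hkc : k • c = c := hk
      obtain ⟨h, hh1, hh2⟩ := hf B₀ hB₀S ((Finset.card_le_two).trans (by norm_num)) 2 (by norm_num)
        ![g, g'] ![g, g' * k] (by
          intro i j hij
          fin_cases i <;> fin_cases j <;> simp at hij ⊢
          · exact hne hij
          · exact hne hij.symm) (by
          intro i j hij
          fin_cases i <;> fin_cases j <;> simp [mul_smul] at hij ⊢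
          · exact hy hij.symm
          · exact hy hij) (by
          intro i
          fin_cases i
          · rfl
          · show g' • c = (g' * k) • c
            rw [mul_smul, hkc])
      refine ⟨h, Subgroup.mem_inf.2 ⟨?_, ?_⟩, ?_⟩
      · rw [mem_fixingSubgroup_iff]
        intro b hb
        exact hh1 b (Finset.mem_coe.1 hb)
      · exact hh2 0
      · have := hh2 1
        have h3 : h • (g' • w) = (g' * k) • w := this
        rw [h3, mul_smul]
    exact (Set.finite_image_iff (MulAction.injective g').injOn).1 h1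
  have hr : rr Ω (fx Γ B₀ ⊓ st Γ (g • w)) (st Γ (g' • w)) ≠ 0 := by
    rw [Ne, rr_eq_zero hN (op_inf hU (hopw g)) (hopw g')]
    rw [← orb_finite_iff]
    exact horb
  have hr' := rr_mono (U := fx Γ B₀) hN (op_inf hU (hopw g)) inf_le_left (hopw g')
  have hsum := rr_inf hN hU (hopw g') (hopw g)
  have h2 : rr Ω (fx Γ B₀) (st Γ (g • w) ⊓ st Γ (g' • w)) = 2 := by
    rw [inf_comm, hsum, r0]
    omega
  have := rr_orth hN hU hC (hopw g) (hopw g') (by rw [hinfC]; exact r1) (by rw [hinfC]; exact r1')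
    r0 r0' h2
  rwa [hinfC] at this

end Pool.Agent.Lib.ThC

end

section

/-! # E2c: free sets -/

set_option autoImplicit false
open scoped Pointwise

namespace Pool.Agent.Lib.ThC

variable {Ω Γ : Type} [Group Γ] [MulAction Γ Ω]
variable {Z : Type} [MulAction Γ Z]

/-- Freeness is a property of tuples of bounded length (for all Nice groups).  Enlarge `B` to
contain all `g i • c`, and use `free_conj` for `V = fx Γ B` (`st_smul`). -/
theorem free_of_freeN (hN : Nice Ω Γ) {S : Set Z} (hS : SInv Ω Γ S) {w c : Z}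
    (hc : c ∈ S) (hw : Op Ω (st Γ w))
    (hwc : st Γ w ≤ st Γ c) (hinf : (st Γ w).relIndex (st Γ c) = 0)
    (hf : FreeN 4 Γ S w c) : Free Γ S w c := by
  classical
  intro B hB n g g' hg hg' hgg
  let B' : Finset Z := B ∪ Finset.univ.image (fun i => g i • c)
  have hB' : (B' : Set Z) ⊆ S := by
    intro z hz
    rcases Finset.mem_union.1 (Finset.mem_coe.1 hz) with hz | hz
    · exact hB hz
    · obtain ⟨i, -, rfl⟩ := Finset.mem_image.1 hz
      exact hS.inv _ _ hc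
  have hmem : ∀ i, g i • c ∈ B' := fun i =>
    Finset.mem_union_right _ (Finset.mem_image_of_mem _ (Finset.mem_univ i))
  have hmem' : ∀ i, g' i • c ∈ B' := fun i => hgg i ▸ hmem i
  obtain ⟨k, hk, hki⟩ := free_conj hN (freeN_twoTr hw hwc hinf hf) (op_fx hS hB') g g'
    (fun i => by
      change ((g i)⁻¹ * g' i) • c = c
      rw [mul_smul, ← hgg, inv_smul_smul])
    (fun i => by
      rw [← st_smul]
      intro x hx
      exact (mem_fixingSubgroup_iff Γ).1 hx _ (hmem i))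
    (fun i => by
      rw [← st_smul]
      exact freeN_rank_one hN hS hc hw hwc hinf hf B' hB' (g i) (hmem i))
    (fun i => by
      rw [← st_smul]
      exact freeN_rank_one hN hS hc hw hwc hinf hf B' hB' (g' i) (hmem' i))
    (fun i j hij => by
      rw [← st_smul, ← st_smul]
      exact freeN_rank_two hN hS hc hw hwc hinf hf B' hB' (g i) (g j) (hmem i) (hmem j)
        (fun h => hij (hg h)))
    (fun i j hij => by
      rw [← st_smul, ← st_smul]
      exact freeN_rank_two hN hS hc hw hwc hinf hf B' hB' (g' i) (g' j) (hmem' i) (hmem' j)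
        (fun h => hij (hg' h)))
  refine ⟨k, fun b hb => (mem_fixingSubgroup_iff Γ).1 hk _ (Finset.mem_union_left _ hb),
    fun i => ?_⟩
  have h3 : ((g' i)⁻¹ * k * g i) • w = w := hki i
  rwa [mul_smul, mul_smul, inv_smul_eq_iff] at h3

theorem free_freeN {S : Set Z} {w c : Z} (hf : Free Γ S w c) (N : ℕ) :
    FreeN N Γ S w c :=
  fun B hB _ n _ g g' hg hg' hgg => hf B hB n g g' hg hg' hgg

/-- with `tr_main` (for the point `(g i • w)_i` of `Fin n → Z`). -/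
theorem free_tr [Countable Ω] (hN : Nice Ω Γ) (hC : Cpl Ω Γ) {S : Set Z}
    (hS : SInv Ω Γ S) {w c : Z} (hF : FreeStep Ω Γ S w c) {n : ℕ} (g g' : Fin n → Γ)
    (h1 : Function.Injective (fun i => g i • w))
    (h2 : Function.Injective (fun i => g' i • w)) (h3 : ∀ i, g i • c = g' i • c) :
    ∃ h ∈ fixingSubgroup Γ S, ∀ i, h • (g i • w) = g' i • w := by
  have hop : Op Ω (st Γ (fun i => g i • w)) := by
    rw [st_pi]
    refine op_iInf fun i => ?_
    rw [st_smul]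
    exact op_cj _ hF.hw
  obtain ⟨k, hk, hkx⟩ := tr_main hN hC hS (fun i => g i • w) (fun i => g' i • w) hop (by
    intro B hB
    obtain ⟨h, hh, hi⟩ := hF.free B hB n g g' h1 h2 h3
    exact ⟨h, (mem_fixingSubgroup_iff Γ).2 hh, funext hi⟩)
  exact ⟨k, hk, fun i => congrFun hkx i⟩

/-- the fibres are infinite, in the form used later. -/
theorem free_fibre_inf {S : Set Z} {w c : Z} (hF : FreeStep Ω Γ S w c) (g : Γ) :
    ¬ {x : Z | ∃ g' : Γ, g' • w = x ∧ g' • c = g • c}.Finite := by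
  intro hfin
  have h1 : (orb (st Γ c) w).Finite := by
    have h2 := hfin.image (fun x => g⁻¹ • x)
    refine h2.subset ?_
    rintro _ ⟨k, hk, rfl⟩
    refine ⟨g • k • w, ⟨g * k, mul_smul g k w, ?_⟩, inv_smul_smul g _⟩
    have h3 : k • c = c := hk
    rw [mul_smul, h3]
  exact (orb_finite_iff _ _).1 h1 hF.inf

end Pool.Agent.Lib.ThC

end

section

/-! # E3a: free sets over a finite extension of the base -/

set_option autoImplicit false
open scoped Pointwise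

namespace Pool.Agent.Lib.ThC

variable {Ω Γ : Type} [Group Γ] [MulAction Γ Ω]
variable {Z : Type} [MulAction Γ Z]

/-- The exceptional set.  Let `d₁, …, d_k` be distinct elements of it, `B ⊆ S` finite, containing
all the sets `B` of the `d_i` and all their images `g_i • c`.  Over `fx Γ B` the `d_i` are
independent of rank one (`freeN_rank_one`, `freeN_rank_two`, `rr_triv`), so
`k = rr (fx Γ B) (⨅ st d_i) ≤ rr (fx Γ B) V₁ ≤ rr ⊤ V₁`, the first inequality because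
`rr (fx Γ B ⊓ V₁) (⨅ st d_i) = 0`.  So every finite subset has at most `rr ⊤ V₁`
elements. -/
theorem free_exc_finite (hN : Nice Ω Γ) {S : Set Z} (hS : SInv Ω Γ S) {w c : Z}
    (hF : FreeStep Ω Γ S w c) {V₁ : Subgroup Γ} (hV₁ : Op Ω V₁) :
    {d : Z | (∃ g : Γ, g • w = d) ∧ ∃ B : Finset Z, (B : Set Z) ⊆ S ∧
      (orb (fx Γ B ⊓ V₁) d).Finite}.Finite := by
  classical
  by_contra hinf
  obtain ⟨t, ht, htc⟩ := Set.Infinite.exists_subset_card_eq hinf (rr Ω (⊤ : Subgroup Γ) V₁ + 1)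
  -- an injective enumeration of `t`
  obtain ⟨n, d, hn, hdi, hdt⟩ : ∃ (n : ℕ) (d : Fin n → Z), n = rr Ω (⊤ : Subgroup Γ) V₁ + 1 ∧
      Function.Injective d ∧ ∀ i, d i ∈ t :=
    ⟨t.card, fun i => (t.equivFin.symm i : Z), htc,
      fun i j hij => t.equivFin.symm.injective (Subtype.ext hij),
      fun i => (t.equivFin.symm i).2⟩
  have hd : ∀ i, (∃ g : Γ, g • w = d i) ∧ ∃ B : Finset Z, (B : Set Z) ⊆ S ∧
      (orb (fx Γ B ⊓ V₁) (d i)).Finite := fun i => ht (hdt i)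
  choose g hg using fun i => (hd i).1
  choose B₁ hB₁ hfin using fun i => (hd i).2
  let B : Finset Z := Finset.univ.biUnion B₁ ∪ Finset.univ.image (fun i => g i • c)
  have hB : (B : Set Z) ⊆ S := by
    intro z hz
    rw [Finset.mem_coe] at hz
    rcases Finset.mem_union.1 hz with hz | hz
    · obtain ⟨i, -, hi⟩ := Finset.mem_biUnion.1 hz
      exact hB₁ i hi
    · obtain ⟨i, -, rfl⟩ := Finset.mem_image.1 hz
      exact hS.inv _ _ hF.hc
  have hBi : ∀ i, B₁ i ⊆ B := fun i =>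
    (Finset.subset_biUnion_of_mem B₁ (Finset.mem_univ i)).trans Finset.subset_union_left
  have hgc : ∀ i, g i • c ∈ B := fun i =>
    Finset.mem_union_right _ (Finset.mem_image_of_mem _ (Finset.mem_univ i))
  have hoB : Op Ω (fx Γ B) := op_fx hS hB
  have hf4 := free_freeN hF.free 4
  have hst : ∀ i, Op Ω (st Γ (d i)) := fun i => by
    rw [← hg i, st_smul]
    exact op_cj _ hF.hw
  have h1 : ∀ i, rr Ω (fx Γ B) (st Γ (d i)) = 1 := fun i => by
    rw [← hg i]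
    exact freeN_rank_one hN hS hF.hc hF.hw hF.hwc hF.inf hf4 B hB (g i) (hgc i)
  have h2 : ∀ i j, i ≠ j → rr Ω (fx Γ B) (st Γ (d i) ⊓ st Γ (d j)) = 2 := fun i j hij => by
    have hne : g i • w ≠ g j • w := by
      rw [hg i, hg j]
      exact fun e => hij (hdi e)
    have h3 := freeN_rank_two hN hS hF.hc hF.hw hF.hwc hF.inf hf4 B hB (g i) (g j) (hgc i)
      (hgc j) hne
    rwa [hg i, hg j] at h3
  have h3 := rr_triv hN hoB (fun i => st Γ (d i)) hst h1 h2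
  have hoD : Op Ω (⨅ i, st Γ (d i)) := op_iInf hst
  have h4 : rr Ω (fx Γ B ⊓ V₁) (⨅ i, st Γ (d i)) = 0 := by
    rw [rr_eq_zero hN (op_inf hoB hV₁) hoD, ← st_pi, ← orb_finite_iff]
    have h5 : ∀ i, (orb (fx Γ B ⊓ V₁) (d i)).Finite := fun i =>
      orb_finite_of_le (inf_le_inf_right _ (fx_anti (hBi i))) (hfin i)
    refine (Set.Finite.pi' h5).subset ?_
    rintro _ ⟨k, hk, rfl⟩ i
    exact ⟨k, hk, rfl⟩
  have h5 := rr_inf hN hoB hoD hV₁
  rw [h4] at h5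
  have h6 : rr Ω (fx Γ B) (⨅ i, st Γ (d i)) ≤ rr Ω (fx Γ B) ((⨅ i, st Γ (d i)) ⊓ V₁) :=
    rr_anti hN hoB (op_inf hoD hV₁) inf_le_left
  have h7 : rr Ω (fx Γ B) V₁ ≤ rr Ω (⊤ : Subgroup Γ) V₁ := rr_mono hN hoB le_top hV₁
  omega

end Pool.Agent.Lib.ThC

end

section

/-! # E3b: free sets over a finite extension of the base -/

set_option autoImplicit false
open scoped Pointwise

namespace Pool.Agent.Lib.ThC

variable {Ω Γ : Type} [Group Γ] [MulAction Γ Ω]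
variable {Z : Type} [MulAction Γ Z]

private theorem E3b_mem_fx {B : Finset Z} {x : Γ} : x ∈ fx Γ B ↔ ∀ b ∈ B, x • b = b := by
  rw [mem_fixingSubgroup_iff]
  exact Iff.rfl

/-- Outside of the exceptional set `Δ` everything is free.  Let `B' ⊆ S` be finite; enlarge it such
that it contains all `g i • c`, all images of elements of `Δ`, and such that the elements of
`Δ` are algebraic over `fx Γ B' ⊓ V₁`.  `V = fx Γ B' ⊓ (V₁ ⊓ fx Γ Δ)` has finite index in
`fx Γ B' ⊓ V₁`.  All `g i • w`, `g' i • w` have rank one over `V` (not algebraic over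
`fx Γ B' ⊓ V₁`), and they are pairwise independent over `V` by `rr_orth` (from `fx Γ B'`).
`free_conj` gives `h ∈ V`.  Now use `tr_base` for `V₁ ⊓ fx Γ Δ`. -/
theorem free_outside [Countable Ω] (hN : Nice Ω Γ) (hC : Cpl Ω Γ) {S : Set Z}
    (hS : SInv Ω Γ S) {w c : Z} (hF : FreeStep Ω Γ S w c) {V₁ : Subgroup Γ}
    (hV₁ : Op Ω V₁) :
    ∃ Δ : Finset Z, ∀ (n : ℕ) (g g' : Fin n → Γ),
      Function.Injective (fun i => g i • w) → Function.Injective (fun i => g' i • w) →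
      (∀ i, g i • w ∉ Δ) → (∀ i, g' i • w ∉ Δ) → (∀ i, g i • c = g' i • c) →
      ∃ h ∈ fixingSubgroup Γ S ⊓ V₁, (∀ d ∈ Δ, h • d = d) ∧
        ∀ i, h • (g i • w) = g' i • w := by
  classical
  have hTT : TwoTr Ω (st Γ w) (st Γ c) := freeN_twoTr hF.hw hF.hwc hF.inf (free_freeN hF.free 4)
  have hN4 : FreeN 4 Γ S w c := free_freeN hF.free 4
  have hfin := free_exc_finite hN hS hF hV₁
  set E : Set Z := {d : Z | (∃ g : Γ, g • w = d) ∧ ∃ B : Finset Z, (B : Set Z) ⊆ S ∧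
      (orb (fx Γ B ⊓ V₁) d).Finite} with hE
  refine ⟨hfin.toFinset, ?_⟩
  intro n g g' hg hg' hgΔ hgΔ' hgc
  set Δ : Finset Z := hfin.toFinset with hΔ
  have hmemΔ : ∀ d, d ∈ Δ ↔ d ∈ E := fun d => hfin.mem_toFinset
  have hopw : ∀ k : Γ, Op Ω (st Γ (k • w)) := fun k => by
    rw [st_smul]; exact op_cj k hF.hw
  have hopΔ : ∀ d ∈ Δ, Op Ω (st Γ d) := by
    intro d hd
    obtain ⟨⟨k, rfl⟩, _⟩ := (hmemΔ d).1 hd
    exact hopw k
  have hopfxΔ : Op Ω (fx Γ Δ) := by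
    have h1 : Op Ω (⨅ d : Δ, st Γ (d : Z)) := op_iInf fun d => hopΔ d.1 d.2
    refine op_mono h1 fun x hx => ?_
    rw [mem_fixingSubgroup_iff]
    intro d hd
    rw [Subgroup.mem_iInf] at hx
    exact hx ⟨d, hd⟩
  -- base sets for the exceptional elements
  have hBd : ∀ d : Z, ∃ B : Finset Z, (B : Set Z) ⊆ S ∧ (d ∈ Δ →
      (orb (fx Γ B ⊓ V₁) d).Finite) := by
    intro d
    by_cases hd : d ∈ Δ
    · obtain ⟨_, B, hB, hB'⟩ := (hmemΔ d).1 hd
      exact ⟨B, hB, fun _ => hB'⟩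
    · exact ⟨∅, by simp, fun h => absurd h hd⟩
  choose Bd hBdS hBdF using hBd
  have hkey := tr_base (Y := Fin n → Z) hN hC hS (fun i => g i • w) (fun i => g' i • w)
    (by rw [st_pi]; exact op_iInf fun i => hopw (g i)) (V := V₁ ⊓ fx Γ Δ)
    (op_inf hV₁ hopfxΔ) ?_
  · obtain ⟨h, hh, hhe⟩ := hkey
    refine ⟨h, ⟨hh.1, hh.2.1⟩, ?_, fun i => congrFun hhe i⟩
    intro d hd
    exact E3b_mem_fx.1 (Subgroup.mem_inf.1 (Subgroup.mem_inf.1 hh).2).2 d hd
  · intro B hB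
    set B' : Finset Z := B ∪ (Finset.univ.image fun i : Fin n => g i • c) ∪ Δ.biUnion Bd with hB'
    have hB'S : (B' : Set Z) ⊆ S := by
      intro z hz
      rw [Finset.mem_coe, hB', Finset.mem_union, Finset.mem_union] at hz
      rcases hz with (hz | hz) | hz
      · exact hB hz
      · obtain ⟨i, _, rfl⟩ := Finset.mem_image.1 hz
        exact hS.inv _ _ hF.hc
      · obtain ⟨d, _, hzd⟩ := Finset.mem_biUnion.1 hz
        exact hBdS d hzd
    have hgcB' : ∀ i, g i • c ∈ B' := fun i => by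
      rw [hB', Finset.mem_union, Finset.mem_union]
      exact Or.inl (Or.inr (Finset.mem_image_of_mem _ (Finset.mem_univ i)))
    have hgcB'' : ∀ i, g' i • c ∈ B' := fun i => by rw [← hgc i]; exact hgcB' i
    have hBB' : B ⊆ B' := fun z hz => by
      rw [hB', Finset.mem_union, Finset.mem_union]
      exact Or.inl (Or.inl hz)
    have hopU : Op Ω (fx Γ B') := op_fx hS hB'S
    have hopUV : Op Ω (fx Γ B' ⊓ V₁) := op_inf hopU hV₁
    have hopC : Op Ω (V₁ ⊓ fx Γ Δ) := op_inf hV₁ hopfxΔ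
    have hopV : Op Ω (fx Γ B' ⊓ (V₁ ⊓ fx Γ Δ)) := op_inf hopU hopC
    have hfi : (fx Γ B' ⊓ (V₁ ⊓ fx Γ Δ)).relIndex (fx Γ B' ⊓ V₁) ≠ 0 := by
      have h1 : ∀ d : Δ, (st Γ (d : Z)).relIndex (fx Γ B' ⊓ V₁) ≠ 0 := by
        intro d
        rw [← orb_finite_iff]
        refine (hBdF d.1 d.2).subset (orb_mono (inf_le_inf_right _ (fx_anti ?_)) _)
        intro z hz
        rw [hB', Finset.mem_union]
        exact Or.inr (Finset.mem_biUnion.2 ⟨d.1, d.2, hz⟩)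
      have h2 : (⨅ d : Δ, st Γ (d : Z)).relIndex (fx Γ B' ⊓ V₁) ≠ 0 :=
        Subgroup.relIndex_iInf_ne_zero h1
      have h3 : fx Γ B' ⊓ V₁ ⊓ (⨅ d : Δ, st Γ (d : Z)) ≤ fx Γ B' ⊓ (V₁ ⊓ fx Γ Δ) := by
        intro x hx
        obtain ⟨hx1, hx2⟩ := Subgroup.mem_inf.1 hx
        obtain ⟨hx3, hx4⟩ := Subgroup.mem_inf.1 hx1
        refine Subgroup.mem_inf.2 ⟨hx3, Subgroup.mem_inf.2 ⟨hx4, ?_⟩⟩
        rw [E3b_mem_fx]
        intro d hd
        rw [Subgroup.mem_iInf] at hx2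
        exact hx2 ⟨d, hd⟩
      have h4 : (fx Γ B' ⊓ V₁ ⊓ (⨅ d : Δ, st Γ (d : Z))).relIndex (fx Γ B' ⊓ V₁) ≠ 0 := by
        rw [Subgroup.inf_relIndex_left]; exact h2
      exact ne_zero_of_dvd_ne_zero h4 (Subgroup.relIndex_dvd_of_le_left _ h3)
    have hle : fx Γ B' ⊓ (V₁ ⊓ fx Γ Δ) ≤ fx Γ B' ⊓ V₁ := inf_le_inf_left _ inf_le_left
    -- rank one
    have hone : ∀ k : Γ, k • c ∈ B' → k • w ∉ Δ →
        rr Ω (fx Γ B') (st Γ (k • w)) = 1 ∧
        rr Ω (fx Γ B' ⊓ (V₁ ⊓ fx Γ Δ)) (st Γ (k • w)) = 1 := by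
      intro k hk hkΔ
      have e1 : rr Ω (fx Γ B') (st Γ (k • w)) = 1 :=
        freeN_rank_one hN hS hF.hc hF.hw hF.hwc hF.inf hN4 B' hB'S k hk
      have e2 : rr Ω (fx Γ B' ⊓ (V₁ ⊓ fx Γ Δ)) (st Γ (k • w)) =
          rr Ω (fx Γ B' ⊓ V₁) (st Γ (k • w)) := rr_fi hN hopV hle hfi (hopw k)
      have e3 : rr Ω (fx Γ B' ⊓ V₁) (st Γ (k • w)) ≤ rr Ω (fx Γ B') (st Γ (k • w)) :=
        rr_mono hN hopUV inf_le_left (hopw k)
      have e4 : rr Ω (fx Γ B' ⊓ V₁) (st Γ (k • w)) ≠ 0 := by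
        intro h0
        rw [rr_eq_zero hN hopUV (hopw k), ← orb_finite_iff] at h0
        exact hkΔ ((hmemΔ _).2 ⟨⟨k, rfl⟩, B', hB'S, h0⟩)
      exact ⟨e1, by omega⟩
    have htwo : ∀ k k' : Γ, k • c ∈ B' → k' • c ∈ B' → k • w ∉ Δ → k' • w ∉ Δ →
        k • w ≠ k' • w →
        rr Ω (fx Γ B' ⊓ (V₁ ⊓ fx Γ Δ)) (st Γ (k • w) ⊓ st Γ (k' • w)) = 2 := by
      intro k k' hk hk' hkΔ hkΔ' hne
      have e := freeN_rank_two hN hS hF.hc hF.hw hF.hwc hF.inf hN4 B' hB'S k k' hk hk' hne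
      exact rr_orth hN hopU hopC (hopw k) (hopw k') (hone k hk hkΔ).2 (hone k' hk' hkΔ').2
        (hone k hk hkΔ).1 (hone k' hk' hkΔ').1 e
    obtain ⟨k, hkV, hk⟩ := free_conj hN hTT (V := fx Γ B' ⊓ (V₁ ⊓ fx Γ Δ)) hopV g g'
      (fun i => by
        rw [MulAction.mem_stabilizer_iff, mul_smul, inv_smul_eq_iff]
        exact (hgc i).symm)
      (fun i => by
        intro x hx
        rw [← st_smul, MulAction.mem_stabilizer_iff]
        exact E3b_mem_fx.1 (Subgroup.mem_inf.1 hx).1 _ (hgcB' i))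
      (fun i => by rw [← st_smul]; exact (hone (g i) (hgcB' i) (hgΔ i)).2)
      (fun i => by rw [← st_smul]; exact (hone (g' i) (hgcB'' i) (hgΔ' i)).2)
      (fun i j hij => by
        rw [← st_smul, ← st_smul]
        exact htwo (g i) (g j) (hgcB' i) (hgcB' j) (hgΔ i) (hgΔ j) (fun h => hij (hg h)))
      (fun i j hij => by
        rw [← st_smul, ← st_smul]
        exact htwo (g' i) (g' j) (hgcB'' i) (hgcB'' j) (hgΔ' i) (hgΔ' j)
          (fun h => hij (hg' h)))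
    refine ⟨k, ⟨fx_anti hBB' hkV.1, hkV.2⟩, ?_⟩
    funext i
    have h1 := hk i
    rw [MulAction.mem_stabilizer_iff, mul_smul, mul_smul, inv_smul_eq_iff] at h1
    exact h1

end Pool.Agent.Lib.ThC

end
end

section

section

/-! # G5a1: sorts, 1 -/

set_option autoImplicit false
open scoped Pointwise

namespace Pool.Agent.Lib.ThC.GL
/-- all permutation modules of sorts on which `N` acts trivially have finite length over all
open subgroups. -/
def FLS (Ω Γ : Type) [Group Γ] [MulAction Γ Ω] (p : ℕ) (N : Subgroup Γ) : Prop :=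
  ∀ (Y : Type) [MulAction Γ Y], Srt Ω Γ Y → (∀ g ∈ N, ∀ y : Y, g • y = y) →
    ∀ U : Subgroup Γ, Op Ω U → FLen U (⊥ : AddSubgroup (PM p Y)) ⊤

variable {Ω Γ : Type} [Group Γ] [MulAction Γ Ω] {p : ℕ} [Fact p.Prime]
variable {A : Type} [AddCommGroup A] [DistribMulAction Γ A]

theorem op_stM {U : Subgroup Γ} {V1 : AddSubgroup A} {v : A} (hU : Op Ω U)
    (hv : Op Ω (st Γ v)) : Op Ω (stM U V1 v) := by
  refine op_mono (op_inf hU hv) fun g hg => ?_
  obtain ⟨h1, h2⟩ := Subgroup.mem_inf.mp hg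
  refine Subgroup.subset_closure ⟨h1, ?_⟩
  have h3 : g • v = v := MulAction.mem_stabilizer_iff.mp h2
  rw [h3, sub_self]
  exact V1.zero_mem

/-- finitely many double cosets of an open subgroup (`finOrb` for `Γ ⧸ U0`). -/
theorem dcosets (hN : Nice Ω Γ) {U U0 : Subgroup Γ} (hU0 : Op Ω U0) (hle : U0 ≤ U) :
    ∃ R : Finset Γ, (∀ r ∈ R, r ∈ U) ∧ ∀ g ∈ U, ∃ r ∈ R,
      ∃ a ∈ U0, ∃ b ∈ U0, g = a * r * b := by
  classical
  obtain ⟨F, hF⟩ := finOrb hN (srt_coset hU0) hU0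
  refine ⟨(F.image (fun z => z.out)).filter (fun r => r ∈ U), ?_, ?_⟩
  · intro r hr
    exact (Finset.mem_filter.mp hr).2
  · intro g hg
    obtain ⟨f, hf, a, ha, haf⟩ := hF (g : Γ ⧸ U0)
    have h1 : ((a * f.out : Γ) : Γ ⧸ U0) = (g : Γ ⧸ U0) := by
      rw [← haf]
      conv_rhs => rw [← QuotientGroup.out_eq' f]
      rfl
    have h2 : (a * f.out)⁻¹ * g ∈ U0 := QuotientGroup.eq.mp h1
    have h3 : g = a * f.out * ((a * f.out)⁻¹ * g) := (mul_inv_cancel_left _ _).symm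
    have h4 : f.out ∈ U := by
      have h5 : f.out = a⁻¹ * g * ((a * f.out)⁻¹ * g)⁻¹ := by group
      rw [h5]
      exact U.mul_mem (U.mul_mem (U.inv_mem (hle ha)) hg) (U.inv_mem (hle h2))
    exact ⟨f.out, Finset.mem_filter.mpr ⟨Finset.mem_image.mpr ⟨f, hf, rfl⟩, h4⟩, a, ha, _, h2, h3⟩

end Pool.Agent.Lib.ThC.GL

end

section

/-! # G5a2: sorts, 2 -/

set_option autoImplicit false
open scoped Pointwise

namespace Pool.Agent.Lib.ThC.GL
variable {Ω Γ : Type} [Group Γ] [MulAction Γ Ω] {p : ℕ} [Fact p.Prime]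
variable {A : Type} [AddCommGroup A] [DistribMulAction Γ A]

/-- Let `N` be normal in `Γ`, `v` fixed by `N ⊓ U0` modulo `V1`.  Then
`U1 = stM U0 V1 v ≥ N ⊓ U0` is open, `Y = Γ ⧸ (U1 ⊔ N)` is a sort on which `N` acts trivially.
The `U0`-orbit of the base point `y` is `U0 ⧸ U1`, as `U0 ⊓ (U1 ⊔ N) = U1 ⊔ (U0 ⊓ N) = U1`.
Choose `u_q ∈ U0` with `u_q • y = q` for all `q` in this orbit, and `φ [q] = u_q • v`
(`φ : PM p Y →+ A`, possible since `p A = 0`; `φ [q] = 0` for the other `q`).  It is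
equivariant modulo `V1`: `FLen.image_mod` with `M' = PMS p (orb U0 y)`, `L' = ⊥`. -/
theorem fls_span {N : Subgroup Γ} (hNn : N.Normal)
    (hF : FLS Ω Γ p N) (hpA : ∀ a : A, p • a = 0) {U0 : Subgroup Γ} (hU0 : Op Ω U0)
    {V1 : AddSubgroup A} (hV : InvA U0 V1) {v : A} (hst : Op Ω (st Γ v))
    (hfix : ∀ n ∈ N ⊓ U0, n • v - v ∈ V1) :
    FLen U0 V1 (V1 ⊔ spanN U0 v) := by
  classical
  have hNZ : NeZero p := ⟨(Fact.out : p.Prime).ne_zero⟩
  let _ : Module (ZMod p) A := AddCommGroup.zmodModule hpA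
  have hU1 : Op Ω (stM U0 V1 v) := op_stM hU0 hst
  have hPo : Op Ω (stM U0 V1 v ⊔ N) := op_mono hU1 le_sup_left
  have htriv : ∀ g ∈ N, ∀ y : Γ ⧸ (stM U0 V1 v ⊔ N), g • y = y := by
    intro g hg y
    obtain ⟨x, rfl⟩ := QuotientGroup.mk_surjective y
    show ((g * x : Γ) : Γ ⧸ (stM U0 V1 v ⊔ N)) = x
    rw [eq_comm, QuotientGroup.eq]
    have : x⁻¹ * (g * x) = x⁻¹ * g * x⁻¹⁻¹ := by group
    rw [this]
    exact Subgroup.mem_sup_right (hNn.conj_mem g hg x⁻¹)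
  have hfl := hF (Γ ⧸ (stM U0 V1 v ⊔ N)) (srt_coset hPo) htriv U0 hU0
  -- the stabiliser of the base point in `U0`
  have hK0 : ∀ x ∈ U0, x ∈ stM U0 V1 v ⊔ N → x • v - v ∈ V1 := by
    intro x hx hxP
    have hx' : x ∈ ((stM U0 V1 v : Subgroup Γ) : Set Γ) * (N : Set Γ) := by
      rw [← Subgroup.mul_normal]; exact hxP
    obtain ⟨a, ha, n, hn, rfl⟩ := Set.mem_mul.1 hx'
    have ha' := (mem_stM hV).1 ha
    have hnU : n ∈ U0 := by
      have : n = a⁻¹ * (a * n) := by group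
      rw [this]; exact mul_mem (inv_mem ha'.1) hx
    have h1 : n • v - v ∈ V1 := hfix n ⟨hn, hnU⟩
    have h2 : a • (n • v - v) ∈ V1 := hV a ha'.1 _ h1
    have h3 : (a * n) • v - v = a • (n • v - v) + (a • v - v) := by
      rw [smul_sub, mul_smul]; abel
    rw [h3]
    exact add_mem h2 ha'.2
  have hK1 : ∀ g ∈ U0, ∀ u ∈ U0, g • ((1 : Γ) : Γ ⧸ (stM U0 V1 v ⊔ N)) =
      u • ((1 : Γ) : Γ ⧸ (stM U0 V1 v ⊔ N)) → g • v - u • v ∈ V1 := by
    intro g hg u hu h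
    have h' : ((g * 1 : Γ) : Γ ⧸ (stM U0 V1 v ⊔ N)) = ((u * 1 : Γ) : Γ ⧸ (stM U0 V1 v ⊔ N)) := h
    rw [mul_one, mul_one, eq_comm, QuotientGroup.eq] at h'
    have h1 := hK0 (u⁻¹ * g) (mul_mem (inv_mem hu) hg) h'
    have h2 := hV u hu _ h1
    have h3 : u • ((u⁻¹ * g) • v - v) = g • v - u • v := by
      rw [smul_sub, ← mul_smul, mul_inv_cancel_left]
    rwa [h3] at h2
  -- the choice of the `u_q`
  let ψ : Γ ⧸ (stM U0 V1 v ⊔ N) → A := fun q =>
    if h : ∃ u ∈ U0, u • ((1 : Γ) : Γ ⧸ (stM U0 V1 v ⊔ N)) = q then h.choose • v else 0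
  have hψ : ∀ g ∈ U0, g • v - ψ (g • ((1 : Γ) : Γ ⧸ (stM U0 V1 v ⊔ N))) ∈ V1 := by
    intro g hg
    have h : ∃ u ∈ U0, u • ((1 : Γ) : Γ ⧸ (stM U0 V1 v ⊔ N)) =
      g • ((1 : Γ) : Γ ⧸ (stM U0 V1 v ⊔ N)) := ⟨g, hg, rfl⟩
    simp only [ψ, dif_pos h]
    exact hK1 g hg _ h.choose_spec.1 h.choose_spec.2.symm
  let φ : PM p (Γ ⧸ (stM U0 V1 v ⊔ N)) →+ A :=
    (Finsupp.linearCombination (ZMod p) ψ).toAddMonoidHom
  have hφ : ∀ q, φ (pt p q) = ψ q := by
    intro q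
    exact (Finsupp.linearCombination_single (ZMod p) (1 : ZMod p) q).trans (one_smul _ _)
  have hmain := FLen.image_mod (K := U0) (L := V1) (L' := ⊥)
    (M' := PMS p (orb U0 ((1 : Γ) : Γ ⧸ (stM U0 V1 v ⊔ N)))) φ (inv_pms_orb le_rfl _)
    (by
      intro g hg m hm
      have e1 : φ (g • m) = ∑ q ∈ sp m, (cf m q).val • ψ (g • q) := by
        conv_lhs => rw [pm_sum m]
        rw [Finset.smul_sum, map_sum]
        refine Finset.sum_congr rfl fun q _ => ?_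
        rw [smul_comm g (cf m q).val (pt p q), smul_pt, map_nsmul, hφ]
      have e2 : g • φ m = ∑ q ∈ sp m, (cf m q).val • (g • ψ q) := by
        conv_lhs => rw [pm_sum m]
        rw [map_sum, Finset.smul_sum]
        refine Finset.sum_congr rfl fun q _ => ?_
        rw [map_nsmul, hφ, smul_comm g (cf m q).val (ψ q)]
      rw [e1, e2, ← Finset.sum_sub_distrib]
      refine sum_mem fun q hq => ?_
      rw [← nsmul_sub]
      refine nsmul_mem ?_ _
      obtain ⟨u, hu, rfl⟩ := mem_pms.1 hm q (mem_sp.1 hq)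
      have h1 := hψ (g * u) (mul_mem hg hu)
      have h2 := hV g hg _ (hψ u hu)
      rw [mul_smul, mul_smul] at h1
      rw [smul_sub] at h2
      have h3 := sub_mem h2 h1
      have h4 : g • u • v - g • ψ (u • ((1 : Γ) : Γ ⧸ (stM U0 V1 v ⊔ N))) -
          (g • u • v - ψ (g • u • ((1 : Γ) : Γ ⧸ (stM U0 V1 v ⊔ N)))) =
          ψ (g • u • ((1 : Γ) : Γ ⧸ (stM U0 V1 v ⊔ N))) -
            g • ψ (u • ((1 : Γ) : Γ ⧸ (stM U0 V1 v ⊔ N))) := by abel
      rwa [h4] at h3)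
    (by
      intro m hm
      rw [AddSubgroup.mem_bot] at hm
      rw [hm, map_zero]; exact zero_mem _)
    bot_le (FLen.mono le_rfl le_top hfl)
  refine FLen.mono le_rfl (sup_le le_sup_left ?_) hmain
  rw [spanN, AddSubgroup.closure_le]
  rintro _ ⟨g, hg, rfl⟩
  have h1 : g • v = (g • v - ψ (g • ((1 : Γ) : Γ ⧸ (stM U0 V1 v ⊔ N)))) +
      ψ (g • ((1 : Γ) : Γ ⧸ (stM U0 V1 v ⊔ N))) := by abel
  show g • v ∈ _
  rw [h1]
  refine add_mem (AddSubgroup.mem_sup_left (hψ g hg)) (AddSubgroup.mem_sup_right ?_)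
  rw [← hφ]
  exact AddSubgroup.mem_map_of_mem _ (pt_mem_pms (smul_mem_orb hg _))

end Pool.Agent.Lib.ThC.GL

end

section

/-! # G5b1: Clifford theory for sorts, 1 -/

set_option autoImplicit false
open scoped Pointwise

namespace Pool.Agent.Lib.ThC.GL
variable {Ω Γ : Type} [Group Γ] [MulAction Γ Ω] {p : ℕ} [Fact p.Prime]
variable {A : Type} [AddCommGroup A] [DistribMulAction Γ A]

theorem VV_sup {U : Subgroup Γ} {X : AddSubgroup A} (Y : AddSubgroup A) (hX : InvA U X) :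
    VV U (X ⊔ Y) = X ⊔ VV U Y := by
  apply le_antisymm
  · exact VV_le (inv_sup hX inv_VV) (sup_le le_sup_left (le_VV.trans le_sup_right))
  · exact sup_le (le_sup_left.trans le_VV) (VV_le inv_VV (le_sup_right.trans le_VV))

/-- One step: `X < Y` are `N ⊓ U`-invariant, nothing invariant strictly between.  Let
`V1 = VV U X`, `M = V1 ⊔ Y`.  If `Y ≤ V1` then `VV U Y = V1`.  Otherwise `CR.flen` for
`v0 ∈ Y \ V1`: (i) `dcosets`, (ii) `hB` and `FLen.sup_right`, `FLen.finFixed`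
(`g • M = V1 ⊔ g • Y`), (iii) `fls_span`.  Then `FLen.trans`. -/
theorem clif_step (hN : Nice Ω Γ) {N : Subgroup Γ} (hNn : N.Normal) (hF : FLS Ω Γ p N)
    (hpA : ∀ a : A, p • a = 0) (hst : ∀ a : A, Op Ω (st Γ a)) {U : Subgroup Γ} (hU : Op Ω U)
    {W : AddSubgroup A}
    (hB : ∀ g ∈ U, ∀ U' : Subgroup Γ, Op Ω U' → FLen (N ⊓ U') ⊥ (g • W))
    {X Y : AddSubgroup A} (hX : InvA (N ⊓ U) X) (hY : InvA (N ⊓ U) Y) (hXY : X < Y)
    (hYW : Y ≤ W)
    (hmin : ∀ Z, InvA (N ⊓ U) Z → X ≤ Z → Z ≤ Y → Z = X ∨ Z = Y)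
    (h : FLen U ⊥ (VV U X)) : FLen U ⊥ (VV U Y) := by
  classical
  have hXV : VV U X ≤ VV U Y := VV_le inv_VV (hXY.le.trans le_VV)
  by_cases hYV : Y ≤ VV U X
  · have h1 : VV U Y = VV U X := le_antisymm (VV_le inv_VV hYV) hXV
    rw [h1]
    exact h
  · obtain ⟨v0, hv0, hv0n⟩ := SetLike.not_le_iff_exists.1 hYV
    have hiV : InvA U (VV U X) := inv_VV
    have hcr : CR U (N ⊓ U) (VV U X) (VV U X ⊔ Y) v0 := by
      refine ⟨inf_le_right, ?_, hiV, inv_sup (inv_mono inf_le_right hiV) hY, le_sup_left, ?_,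
        (le_sup_right : Y ≤ _) hv0, hv0n⟩
      · intro u hu n hn
        exact ⟨hNn.conj_mem n hn.1 u, U.mul_mem (U.mul_mem hu hn.2) (U.inv_mem hu)⟩
      · intro Z hZ h1 h2
        have hXZ : X ≤ Z := le_VV.trans h1
        rcases hmin (Z ⊓ Y) (inv_inf hZ hY) (le_inf hXZ hXY.le) inf_le_right with h3 | h3
        · left
          refine le_antisymm ?_ h1
          have h4 : Z ⊓ (VV U X ⊔ Y) = VV U X ⊔ Z ⊓ Y := by
            rw [inf_comm, sup_inf_assoc_of_le Y h1, inf_comm Y Z]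
          rw [inf_eq_left.2 h2, h3, sup_eq_left.2 le_VV] at h4
          exact h4.le
        · right
          refine le_antisymm h2 (sup_le h1 ?_)
          rw [← h3]
          exact inf_le_left
    have hU0 : Op Ω (stM U (VV U X) v0) := op_stM hU (hst v0)
    have hle0 : stM U (VV U X) v0 ≤ U := stM_le
    have hmain : FLen U (VV U X) (VV U (VV U X ⊔ Y)) := by
      refine hcr.flen (dcosets hN hU0 hle0) ?_ ?_
      · intro g hg
        have hgM : g • (VV U X ⊔ Y) = VV U X ⊔ g • Y := by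
          have h1 : g • (VV U X ⊔ Y) = g • VV U X ⊔ g • Y := AddSubgroup.map_sup _ _ _
          rw [h1, smul_eq_of_inv hiV hg]
        have hK : (N ⊓ U) ⊓ stM U (VV U X) v0 = N ⊓ stM U (VV U X) v0 := by
          rw [inf_assoc, inf_eq_right.2 hle0]
        have hKi : InvA (N ⊓ stM U (VV U X) v0) (g • Y) := by
          intro k hk m hm
          rw [AddSubgroup.mem_pointwise_smul_iff_inv_smul_mem] at hm ⊢
          have h1 : g⁻¹ • k • m = (g⁻¹ * k * g) • (g⁻¹ • m) := by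
            rw [smul_smul, smul_smul]
            congr 1
            group
          rw [h1]
          refine hY _ ⟨?_, ?_⟩ _ hm
          · have h2 := hNn.conj_mem k hk.1 g⁻¹
            rwa [inv_inv] at h2
          · exact U.mul_mem (U.mul_mem (U.inv_mem hg) (hle0 hk.2)) hg
        have hfl : FLen (N ⊓ stM U (VV U X) v0) (VV U X) (g • (VV U X ⊔ Y)) := by
          rw [hgM]
          refine FLen.sup_right hKi ?_
          have h1 := hB g hg _ hU0
          refine FLen.mono bot_le ?_ h1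
          intro x hx
          rw [AddSubgroup.mem_pointwise_smul_iff_inv_smul_mem] at hx ⊢
          exact hYW hx
        have h2 := FLen.finFixed (p := p) (Fact.out : p.Prime).pos hpA
          (inv_mono (inf_le_right.trans hle0) hiV) (by rw [hgM]; exact le_sup_left) hfl
        rw [hK]
        exact h2
      · intro v _ hfix
        refine fls_span hNn hF hpA hU0 (inv_mono hle0 hiV) (hst v) ?_
        intro n hn
        exact hfix n ⟨⟨hn.1, hle0 hn.2⟩, hn.2⟩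
    rw [VV_sup Y hiV, sup_eq_right.2 hXV] at hmain
    exact FLen.trans bot_le hXV hiV h hmain

end Pool.Agent.Lib.ThC.GL

end

section

/-! # G5b2: Clifford theory for sorts, 2 -/

set_option autoImplicit false
open scoped Pointwise

namespace Pool.Agent.Lib.ThC.GL
variable {Ω Γ : Type} [Group Γ] [MulAction Γ Ω] {p : ℕ} [Fact p.Prime]
variable {A : Type} [AddCommGroup A] [DistribMulAction Γ A]

/-- `FLen.induction` with `P X = FLen U ⊥ (VV U X)` and `clif_step`. -/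
theorem clif_orb (hN : Nice Ω Γ) {N : Subgroup Γ} (hNn : N.Normal)
    (hF : FLS Ω Γ p N) {Y : Type} [MulAction Γ Y] (hY : Srt Ω Γ Y)
    (hB : ∀ y : Y, ∀ U : Subgroup Γ, Op Ω U →
      FLen (N ⊓ U) (⊥ : AddSubgroup (PM p Y)) (PMS p (orb N y)))
    {U : Subgroup Γ} (hU : Op Ω U) (y : Y) :
    FLen U (⊥ : AddSubgroup (PM p Y)) (PMS p (orb U y)) := by
  classical
  have hst : ∀ a : PM p Y, Op Ω (st Γ a) := fun a => op_st_pm hY.sm a
  have hNi : InvA (N ⊓ U) (PMS p (orb N y)) := inv_pms_orb inf_le_left y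
  have hBW : ∀ g ∈ U, ∀ U' : Subgroup Γ, Op Ω U' →
      FLen (N ⊓ U') ⊥ (g • PMS p (orb N y)) := by
    intro g _ U' hU'
    have h1 : cj g N = N := by
      ext x
      rw [mem_cj]
      constructor
      · intro hx
        have h2 := hNn.conj_mem _ hx g
        have h3 : g * (g⁻¹ * x * g) * g⁻¹ = x := by group
        rwa [h3] at h2
      · intro hx
        have h2 := hNn.conj_mem _ hx g⁻¹
        rwa [inv_inv] at h2
    rw [pms_smul, smul_orb, h1]
    exact hB (g • y) U' hU'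
  have hmain : FLen U (⊥ : AddSubgroup (PM p Y)) (VV U (PMS p (orb N y))) := by
    refine FLen.induction (K := N ⊓ U) (L := ⊥) (M := PMS p (orb N y))
      (P := fun X => FLen U (⊥ : AddSubgroup (PM p Y)) (VV U X)) (hB y U hU) inv_bot hNi bot_le ?_ ?_
    · exact FLen.of_le (VV_le inv_bot le_rfl)
    · intro X Y' hX hY' _ hXY hYW hmin h
      exact clif_step hN hNn hF pm_p hst hU hBW hX hY' hXY hYW hmin h
  refine FLen.mono le_rfl ?_ hmain
  refine pms_le ?_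
  rintro x ⟨g, hg, rfl⟩
  rw [← smul_pt]
  exact inv_VV g hg _ (le_VV (pt_mem_pms (mem_orb_self N y)))

/-- THEOREM G5. -/
theorem clif (hN : Nice Ω Γ) {N N' : Subgroup Γ} (hNn : N.Normal)
    (hF : FLS Ω Γ p N)
    (hB : ∀ (Y : Type) [MulAction Γ Y], Srt Ω Γ Y → (∀ g ∈ N', ∀ y : Y, g • y = y) →
      ∀ y : Y, ∀ U : Subgroup Γ, Op Ω U →
        FLen (N ⊓ U) (⊥ : AddSubgroup (PM p Y)) (PMS p (orb N y))) :
    FLS Ω Γ p N' := by
  classical
  intro Y _ hY htr U hU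
  obtain ⟨F, hFo⟩ := finOrb hN hY hU
  have h1 : FLen U (⊥ : AddSubgroup (PM p Y)) (⊥ ⊔ ⨆ f : F, PMS p (orb U (f : Y))) := by
    refine FLen.iSup inv_bot (fun f => bot_le) (fun f => inv_pms_orb le_rfl _) (fun f => ?_)
    exact clif_orb hN hNn hF hY (hB Y hY htr) hU (f : Y)
  refine FLen.mono le_rfl ?_ h1
  rw [← pms_univ]
  refine pms_le ?_
  intro y _
  obtain ⟨f, hf, hy⟩ := hFo y
  have h2 : PMS p (orb U ((⟨f, hf⟩ : F) : Y)) ≤ ⊥ ⊔ ⨆ f : F, PMS p (orb U (f : Y)) :=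
    (le_iSup (fun f : F => PMS p (orb U (f : Y))) ⟨f, hf⟩).trans le_sup_right
  exact h2 (pt_mem_pms hy)

end Pool.Agent.Lib.ThC.GL

end

section

/-! # G6a1: the case of the empty set -/

set_option autoImplicit false
open scoped Pointwise

namespace Pool.Agent.Lib.ThC.GL
variable {Ω Γ : Type} [Group Γ] [MulAction Γ Ω] {p : ℕ} [Fact p.Prime]
variable {Z Y : Type} [MulAction Γ Z] [MulAction Γ Y]

/-- a finite set of indices gives a finite module. -/
theorem flen_of_finite {K : Subgroup Γ} {X : Set Y} (hX : X.Finite) :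
    FLen K (⊥ : AddSubgroup (PM p Y)) (PMS p X) := by
  apply FLen.of_finMod
  have hp : NeZero p := ⟨(Fact.out : p.Prime).ne_zero⟩
  have hfX : Finite X := hX.to_subtype
  have hfin : (PMS p X : Set (PM p Y)).Finite := by
    have h1 : Finite (PMS p X) := by
      refine Finite.of_injective
        (fun f : PMS p X => fun x : X => cf (f : PM p Y) (x : Y)) fun f f' h => ?_
      refine Subtype.ext (pm_ext fun y => ?_)
      by_cases hy : y ∈ X
      · exact congrFun h ⟨y, hy⟩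
      · have e1 : cf (f : PM p Y) y = 0 := by
          by_contra h2
          exact hy (mem_pms.mp f.2 y h2)
        have e2 : cf (f' : PM p Y) y = 0 := by
          by_contra h2
          exact hy (mem_pms.mp f'.2 y h2)
        rw [e1, e2]
    exact Set.toFinite _
  refine ⟨hfin.toFinset, fun m hm => ⟨m, hfin.mem_toFinset.mpr hm, ?_⟩⟩
  rw [sub_self]
  exact AddSubgroup.zero_mem _

/-- `N = ⊤` acts trivially on `Y` and `Y` has finitely many orbits: `Y` is finite. -/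
theorem fls_empty : FLS Ω Γ p (fixingSubgroup Γ (∅ : Set Z)) := by
  intro Y _ hY htriv U _
  rw [← pms_univ]
  apply flen_of_finite
  obtain ⟨F, hF⟩ := hY.fo
  refine F.finite_toSet.subset fun y _ => ?_
  obtain ⟨f, hf, g, hg⟩ := hF y
  rw [htriv g (by rw [mem_fixingSubgroup_iff]; exact fun z hz => absurd hz (Set.notMem_empty z))
    f] at hg
  exact hg ▸ hf

/-- if `fx Γ B ≤ st Γ y` and all `N`-orbits of elements of `B` are finite then `orb N y` is
finite. -/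
theorem orb_finite_of_fx {N : Subgroup Γ} {B : Finset Z} {y : Y}
    (h : fx Γ B ≤ st Γ y) (hB : ∀ b ∈ B, (orb N b).Finite) : (orb N y).Finite := by
  rw [orb_finite_iff]
  have h1 : (⨅ b : B, st Γ (b : Z)) ≤ st Γ y := by
    refine le_trans (fun g hg => ?_) h
    rw [mem_fixingSubgroup_iff]
    intro b hb
    have h2 := (Subgroup.mem_iInf.mp hg) ⟨b, hb⟩
    exact MulAction.mem_stabilizer_iff.mp h2
  have h2 : (⨅ b : B, st Γ (b : Z)).relIndex N ≠ 0 :=
    Subgroup.relIndex_iInf_ne_zero fun b => (orb_finite_iff N (b : Z)).mp (hB b b.2)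
  intro h3
  apply h2
  have h4 := Subgroup.relIndex_dvd_of_le_left N h1
  rw [h3] at h4
  exact zero_dvd_iff.mp h4

end Pool.Agent.Lib.ThC.GL

end

section

/-! # G6a2: the algebraic step -/

set_option autoImplicit false
open scoped Pointwise

namespace Pool.Agent.Lib.ThC.GL
variable {Ω Γ : Type} [Group Γ] [MulAction Γ Ω] {p : ℕ} [Fact p.Prime]
variable {Z Y : Type} [MulAction Γ Z] [MulAction Γ Y]

/-- The algebraic step: `clif` with `N = fixingSubgroup Γ S` (`fixing_normal`).  For `y` fixed by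
`N'`, `supp_exists` gives a finite `B' ⊆ S ∪ Γ y₀` with `fx Γ B' ≤ st Γ y`.  The `N`-orbits of the
elements of `B'` are finite: `b ∈ S` is fixed; for `b = g • y₀`, `N ≤ fx Γ (g • B) = cj g (fx Γ B)`
(`cj_fx`, `g • B ⊆ S`), and `orb (cj g (fx Γ B)) (g • y₀) = g • orb (fx Γ B) y₀` (`smul_orb`). -/
theorem fls_alg [Countable Ω] (hN : Nice Ω Γ) (hC : Cpl Ω Γ) {S : Set Z}
    (hS : SFin Ω Γ S) (hF : FLS Ω Γ p (fixingSubgroup Γ S)) (y₀ : Z)
    (hy₀ : Op Ω (st Γ y₀))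
    (hB : ∃ B : Finset Z, (B : Set Z) ⊆ S ∧ (orb (fx Γ B) y₀).Finite) :
    FLS Ω Γ p (fixingSubgroup Γ (S ∪ MulAction.orbit Γ y₀)) := by
  classical
  obtain ⟨B, hBS, hBf⟩ := hB
  refine clif hN (fixing_normal hS.inv) hF ?_
  intro Y _ hY htriv y U hU
  apply flen_of_finite
  have hS' : SInv Ω Γ (S ∪ MulAction.orbit Γ y₀) :=
    sinv_union hS.toSInv (sfin_orbit hy₀).toSInv
  obtain ⟨B', hB'S, hB'⟩ := supp_exists hN hC hS' (hY.sm y) (fun g hg =>
    MulAction.mem_stabilizer_iff.mpr (htriv g hg y))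
  refine orb_finite_of_fx hB' fun b hb => ?_
  rcases hB'S hb with h1 | h1
  · refine (Set.finite_singleton b).subset ?_
    rintro x ⟨g, hg, rfl⟩
    exact (mem_fixingSubgroup_iff Γ).mp hg b h1
  · obtain ⟨g, rfl⟩ := h1
    have h2 : fixingSubgroup Γ S ≤ cj g (fx Γ B) := by
      rw [cj_fx]
      refine fixingSubgroup_le_fx fun x hx => ?_
      obtain ⟨z, hz, rfl⟩ := Finset.mem_image.mp (Finset.mem_coe.mp hx)
      exact hS.inv g z (hBS hz)
    refine Set.Finite.subset ?_ (orb_mono h2 _)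
    show (orb (cj g (fx Γ B)) (g • y₀)).Finite
    rw [← smul_orb]
    exact hBf.image _

end Pool.Agent.Lib.ThC.GL

end

section

/-! # G6b1: countability, images of orbits -/

set_option autoImplicit false
open scoped Pointwise

namespace Pool.Agent.Lib.ThC.GL
variable {Ω Γ : Type} [Group Γ] [MulAction Γ Ω] {p : ℕ} [Fact p.Prime]
variable {Z Y : Type} [MulAction Γ Z] [MulAction Γ Y]

/-- `Γ ⧸ (pointwise stabiliser of a finite subset of Ω)` embeds into a finite power of `Ω`. -/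
theorem countable_orbit [Countable Ω] {z : Z} (hz : Op Ω (st Γ z)) :
    (MulAction.orbit Γ z).Countable := by
  obtain ⟨A, hA⟩ := hz
  have hex : ∀ y : MulAction.orbit Γ z, ∃ g : Γ, g • z = y.1 := fun y =>
    MulAction.mem_orbit_iff.1 y.2
  choose g hg using hex
  let F : MulAction.orbit Γ z → (A → Ω) := fun y a => g y • (a : Ω)
  have hF : Function.Injective F := by
    intro y y' h
    have h1 : (g y)⁻¹ * g y' ∈ st Γ z := by
      apply hA
      intro a ha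
      have h2 : g y • a = g y' • a := congrFun h ⟨a, ha⟩
      rw [mul_smul, ← h2, inv_smul_smul]
    rw [MulAction.mem_stabilizer_iff, mul_smul, inv_smul_eq_iff, hg, hg] at h1
    exact Subtype.ext h1.symm
  exact Set.countable_coe_iff.1 hF.countable

/-- if `N ⊓ st v ≤ st y` then `orb N y` is the image of `orb N v` under the `N`-equivariant map
`g • v ↦ g • y`: `FLen.image`. -/
theorem flen_orb_of_le {X : Type} [MulAction Γ X] {N K : Subgroup Γ} (hK : K ≤ N) {v : X}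
    {y : Y} (h : N ⊓ st Γ v ≤ st Γ y)
    (hfl : FLen K (⊥ : AddSubgroup (PM p X)) (PMS p (orb N v))) :
    FLen K (⊥ : AddSubgroup (PM p Y)) (PMS p (orb N y)) := by
  classical
  have hwd : ∀ g ∈ N, ∀ g' ∈ N, g • v = g' • v → g • y = g' • y := by
    intro g hg g' hg' he
    have h1 : g'⁻¹ * g ∈ N ⊓ st Γ v := by
      refine ⟨N.mul_mem (N.inv_mem hg') hg, ?_⟩
      show g'⁻¹ * g ∈ st Γ v
      rw [MulAction.mem_stabilizer_iff, mul_smul, he, inv_smul_smul]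
    have h2 := h h1
    rw [MulAction.mem_stabilizer_iff, mul_smul, inv_smul_eq_iff] at h2
    exact h2
  let θ : X → Y := fun x => if hx : ∃ g ∈ N, g • v = x then hx.choose • y else y
  have hθ : ∀ g ∈ N, θ (g • v) = g • y := by
    intro g hg
    have hx : ∃ g' ∈ N, g' • v = g • v := ⟨g, hg, rfl⟩
    have h1 : θ (g • v) = hx.choose • y := dif_pos hx
    rw [h1]
    exact hwd _ hx.choose_spec.1 _ hg hx.choose_spec.2
  have hp : NeZero p := ⟨(Fact.out : p.Prime).ne_zero⟩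
  have himg : θ '' orb N v = orb N y := by
    ext u
    constructor
    · rintro ⟨x, ⟨g, hg, rfl⟩, rfl⟩
      rw [hθ g hg]
      exact ⟨g, hg, rfl⟩
    · rintro ⟨g, hg, rfl⟩
      exact ⟨g • v, ⟨g, hg, rfl⟩, hθ g hg⟩
  have h3 := FLen.image (K := K) (mapPM p θ) (inv_pms_orb hK v) (by
    intro g hg m hm
    refine mapPM_smul (X := orb N v) ?_ hm
    rintro x ⟨k, hk, rfl⟩
    rw [← mul_smul, hθ _ (N.mul_mem (hK hg) hk), hθ _ hk, mul_smul]) hfl
  rwa [pms_map, himg] at h3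

end Pool.Agent.Lib.ThC.GL

end

section

/-! # G6b2: free orbits -/

set_option autoImplicit false
open scoped Pointwise

namespace Pool.Agent.Lib.ThC.GL
variable {Ω Γ : Type} [Group Γ] [MulAction Γ Ω] {p : ℕ} [Fact p.Prime]
variable {Z Y : Type} [MulAction Γ Z] [MulAction Γ Y]

/-- The set `W0` of the `g • w` with `g • c ∈ C`, `C` finite.  `pf_flen` for
`K = fixingSubgroup Γ S ⊓ U`, `Δ` from `free_outside` (`V₁ = U`), the label `π x ∈ Fin q` of
`x = g • w ∈ W0` is the number of `g • c` in an enumeration of `C` (well defined since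
`st Γ w ≤ st Γ c`; `q = C.card + 1` and a default label for the other `x`).  `hinf`:
`free_fibre_inf`.  `W0 ⊆ MulAction.orbit Γ w` is countable. -/
theorem free_pf [Countable Ω] (hN : Nice Ω Γ) (hC : Cpl Ω Γ) {S : Set Z}
    (hS : SInv Ω Γ S) {w c : Z} (hF : FreeStep Ω Γ S w c) (C : Finset Z)
    {U : Subgroup Γ} (hU : Op Ω U) (n : ℕ) :
    FLen (fixingSubgroup Γ S ⊓ U) (⊥ : AddSubgroup (PM p (Fin n → Z)))
      (PMS p {v | ∀ i, ∃ g : Γ, g • w = v i ∧ g • c ∈ C}) := by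
  classical
  obtain ⟨Δ, hΔ⟩ := free_outside hN hC hS hF hU
  let W0 : Set Z := {x | ∃ g : Γ, g • w = x ∧ g • c ∈ C}
  have hwd : ∀ g g' : Γ, g • w = g' • w → g • c = g' • c := by
    intro g g' he
    have h1 : g'⁻¹ * g ∈ st Γ w := by
      rw [MulAction.mem_stabilizer_iff, mul_smul, he, inv_smul_smul]
    have h2 := hF.hwc h1
    rw [MulAction.mem_stabilizer_iff, mul_smul, inv_smul_eq_iff] at h2
    exact h2
  let π : Z → Fin (C.card + 1) := fun x =>
    if hx : ∃ g : Γ, g • w = x ∧ g • c ∈ C then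
      (C.equivFin ⟨hx.choose • c, hx.choose_spec.2⟩).castSucc
    else Fin.last _
  have hπ : ∀ (g : Γ) (hg : g • c ∈ C), π (g • w) = (C.equivFin ⟨g • c, hg⟩).castSucc := by
    intro g hg
    have hx : ∃ g' : Γ, g' • w = g • w ∧ g' • c ∈ C := ⟨g, rfl, hg⟩
    have h1 : π (g • w) = (C.equivFin ⟨hx.choose • c, hx.choose_spec.2⟩).castSucc := dif_pos hx
    rw [h1]
    congr 2
    exact Subtype.ext (hwd _ _ hx.choose_spec.1)
  have hcount : W0.Countable := by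
    refine (countable_orbit (Ω := Ω) hF.hw).mono ?_
    rintro x ⟨g, rfl, -⟩
    exact MulAction.mem_orbit _ _
  refine pf_flen (fixingSubgroup Γ S ⊓ U) W0 hcount (Δ := (Δ : Set Z)) Δ.finite_toSet π ?_ ?_ n
  · intro j
    rcases Set.eq_empty_or_nonempty {x | x ∈ W0 ∧ x ∉ (Δ : Set Z) ∧ π x = j} with h | ⟨x, hx⟩
    · exact Or.inl h
    · right
      obtain ⟨⟨g, rfl, hg⟩, -, hj⟩ := hx
      intro hfin
      apply free_fibre_inf hF g
      refine (hfin.union Δ.finite_toSet).subset ?_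
      rintro _ ⟨g', rfl, hg'⟩
      by_cases hd : g' • w ∈ (Δ : Set Z)
      · exact Or.inr hd
      · left
        have hgC : g' • c ∈ C := by rw [hg']; exact hg
        refine ⟨⟨g', rfl, hgC⟩, hd, ?_⟩
        rw [hπ g' hgC, ← hj, hπ g hg]
        congr 2
        exact Subtype.ext hg'
  · intro m x x' hx hx' hmem hmem' hlab
    choose g hg using fun i => (hmem i).1
    choose g' hg' using fun i => (hmem' i).1
    have e1 : (fun i => g i • w) = x := funext fun i => (hg i).1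
    have e2 : (fun i => g' i • w) = x' := funext fun i => (hg' i).1
    obtain ⟨h, hh, hfix, hmap⟩ := hΔ m g g' (by rw [e1]; exact hx) (by rw [e2]; exact hx')
      (fun i => by rw [(hg i).1]; exact (hmem i).2) (fun i => by rw [(hg' i).1]; exact (hmem' i).2)
      (fun i => by
        have h1 := hlab i
        rw [← (hg i).1, ← (hg' i).1, hπ _ (hg i).2, hπ _ (hg' i).2] at h1
        have h2 := C.equivFin.injective (Fin.castSucc_injective _ h1)
        exact congrArg Subtype.val h2)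
    refine ⟨h, hh, fun δ _ hδ => hfix δ hδ, fun i => ?_⟩
    rw [← (hg i).1, ← (hg' i).1]
    exact hmap i

end Pool.Agent.Lib.ThC.GL

end

section

/-! # G6c: the free step -/

set_option autoImplicit false
open scoped Pointwise

namespace Pool.Agent.Lib.ThC.GL
variable {Ω Γ : Type} [Group Γ] [MulAction Γ Ω] {p : ℕ} [Fact p.Prime]
variable {Z Y : Type} [MulAction Γ Z] [MulAction Γ Y]

/-- The free step: `clif` with `N = fixingSubgroup Γ S`.  For `y` fixed by `N'`, `supp_exists` gives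
a finite `B' ⊆ S ∪ Γ w` with `fx Γ B' ≤ st Γ y`.  Enumerate `B' \ S` as `v : Fin n → Z`,
`v i = g_i • w` : `N ⊓ st Γ v ≤ fx Γ B' ≤ st Γ y`, `flen_orb_of_le`.  With `C` the set of the
`g_i • c` (they are in `S`, so fixed by `N`): `orb N v ⊆ {v | ∀ i, ∃ g, g • w = v i ∧ g • c ∈ C}`,
`free_pf` and `FLen.mono`. -/
theorem fls_free [Countable Ω] (hN : Nice Ω Γ) (hC : Cpl Ω Γ) {S : Set Z}
    (hS : SFin Ω Γ S) (hF : FLS Ω Γ p (fixingSubgroup Γ S)) {w c : Z}
    (hW : FreeStep Ω Γ S w c) :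
    FLS Ω Γ p (fixingSubgroup Γ (S ∪ MulAction.orbit Γ w)) := by
  classical
  have hnorm : (fixingSubgroup Γ S).Normal := fixing_normal hS.inv
  refine clif hN hnorm hF ?_
  intro Y _ hY htriv y U hU
  have hS' : SInv Ω Γ (S ∪ MulAction.orbit Γ w) :=
    sinv_union hS.toSInv (sfin_orbit hW.hw).toSInv
  obtain ⟨B, hBS, hB⟩ := supp_exists hN hC hS' (hY.sm y)
    (fun g hg => MulAction.mem_stabilizer_iff.2 (htriv g hg y))
  let T : Finset Z := B.filter (fun b => b ∉ S)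
  let v : Fin T.card → Z := fun i => (T.equivFin.symm i : Z)
  have hv : ∀ i, ∃ g : Γ, g • w = v i := by
    intro i
    have h1 : (T.equivFin.symm i : Z) ∈ T := (T.equivFin.symm i).2
    have h2 := Finset.mem_filter.1 h1
    rcases hBS (Finset.mem_coe.2 h2.1) with h3 | h3
    · exact absurd h3 h2.2
    · exact MulAction.mem_orbit_iff.1 h3
  choose g hg using hv
  have hle : fixingSubgroup Γ S ⊓ st Γ v ≤ st Γ y := by
    refine le_trans ?_ hB
    intro k hk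
    obtain ⟨hk1, hk2⟩ := hk
    rw [mem_fixingSubgroup_iff]
    intro b hb
    by_cases hbS : b ∈ S
    · exact (mem_fixingSubgroup_iff Γ).1 hk1 b hbS
    · have hbT : b ∈ T := Finset.mem_filter.2 ⟨Finset.mem_coe.1 hb, hbS⟩
      have h1 := congrFun (MulAction.mem_stabilizer_iff.1 hk2) (T.equivFin ⟨b, hbT⟩)
      have h2 : v (T.equivFin ⟨b, hbT⟩) = b := by
        show ((T.equivFin.symm (T.equivFin ⟨b, hbT⟩) : T) : Z) = b
        rw [Equiv.symm_apply_apply]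
      rw [Pi.smul_apply, h2] at h1
      exact h1
  refine flen_orb_of_le (N := fixingSubgroup Γ S) inf_le_left hle ?_
  let C : Finset Z := Finset.univ.image (fun i => g i • c)
  refine FLen.mono le_rfl (pms_mono ?_) (free_pf hN hC hS.toSInv hW C hU T.card)
  rintro _ ⟨k, hk, rfl⟩ i
  refine ⟨k * g i, ?_, ?_⟩
  · rw [mul_smul, hg i]
    rfl
  · have h1 : k • (g i • c) = g i • c :=
      (mem_fixingSubgroup_iff Γ).1 hk _ (hS.inv (g i) c hW.hc)
    rw [mul_smul, h1]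
    exact Finset.mem_image_of_mem _ (Finset.mem_univ i)

end Pool.Agent.Lib.ThC.GL

end
end
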