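import Pool.Agent.Lib.MP_f9507c_lc.Mg.G003
import Pool.Agent.Lib.MP_f9507c_lc.Mg.G002

section

section

/-! # F1a: the one step lemma -/

set_option autoImplicit false
open scoped Pointwise

namespace Pool.Agent.Lib.ThC

variable {Ω Γ : Type} [Group Γ] [MulAction Γ Ω]
variable {Z : Type} [MulAction Γ Z]

/-- The situation of the one step lemma: `S` invariant, `B₀ ⊆ S` finite, `Vb` open with
`rr (fx B) Vb ≥ rr (fx B₀) Vb` for all finite `B ⊆ S`, and `Ve` open of rank one over `fx B₀`,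
algebraic over `fx B₀ ⊓ Vb`. -/
structure OS (Ω Γ : Type) [Group Γ] [MulAction Γ Ω] {Z : Type} [MulAction Γ Z]
    (S : Set Z) (B₀ : Finset Z) (Vb Ve : Subgroup Γ) : Prop where
  hS : SInv Ω Γ S
  hB : (B₀ : Set Z) ⊆ S
  ob : Op Ω Vb
  oe : Op Ω Ve
  min : ∀ B : Finset Z, (B : Set Z) ⊆ S → rr Ω (fx Γ B₀) Vb ≤ rr Ω (fx Γ B) Vb
  r1 : rr Ω (fx Γ B₀) Ve = 1
  alg : Ve.relIndex (fx Γ B₀ ⊓ Vb) ≠ 0

/-- Let `r = rr (fx B) Vb = rr (fx B₀) Vb`.  `rr (fx B) (Vb ⊓ Ve) = r = rr (fx B₀) (Vb ⊓ Ve)` (as `Ve` is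
algebraic over `Vb`), and both are sums `rr Ve + rr (· ⊓ Ve) Vb` with termwise inequality
(`rr_mono`); so the terms are equal. -/
theorem os_rank (hN : Nice Ω Γ) {S : Set Z} {B₀ : Finset Z} {Vb Ve : Subgroup Γ}
    (h : OS Ω Γ S B₀ Vb Ve) {B : Finset Z} (hB : (B : Set Z) ⊆ S) (hB₀ : B₀ ⊆ B) :
    rr Ω (fx Γ B) Ve = 1 := by
  have hU0 : Op Ω (fx Γ B₀) := op_fx h.hS h.hB
  have hU : Op Ω (fx Γ B) := op_fx h.hS hB
  have hle : fx Γ B ≤ fx Γ B₀ := fx_anti hB₀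
  have e1 := rr_inf hN hU h.ob h.oe
  have e2 := rr_inf hN hU h.oe h.ob
  have e3 := rr_inf hN hU0 h.ob h.oe
  have e4 := rr_inf hN hU0 h.oe h.ob
  rw [inf_comm Ve Vb] at e2 e4
  have z1 : rr Ω (fx Γ B₀ ⊓ Vb) Ve = 0 := (rr_eq_zero hN (op_inf hU0 h.ob) h.oe).mpr h.alg
  have z2 : rr Ω (fx Γ B ⊓ Vb) Ve ≤ rr Ω (fx Γ B₀ ⊓ Vb) Ve :=
    rr_mono hN (op_inf hU h.ob) (inf_le_inf_right Vb hle) h.oe
  have m1 := h.min B hB
  have m2 : rr Ω (fx Γ B) Vb ≤ rr Ω (fx Γ B₀) Vb := rr_mono hN hU hle h.ob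
  have m3 : rr Ω (fx Γ B) Ve ≤ rr Ω (fx Γ B₀) Ve := rr_mono hN hU hle h.oe
  have m4 : rr Ω (fx Γ B ⊓ Ve) Vb ≤ rr Ω (fx Γ B₀ ⊓ Ve) Vb :=
    rr_mono hN (op_inf hU h.oe) (inf_le_inf_right Ve hle) h.ob
  have r1 := h.r1
  omega

/-- the relation `g ∼ g'`: the translates `g e`, `g' e` are interalgebraic over `g z, g' z`
(`z` = an enumeration of `B₀`, `Uz = fx B₀`). -/
def osR (Ω : Type) {Γ : Type} [Group Γ] [MulAction Γ Ω] (Uz Ve : Subgroup Γ) (g g' : Γ) :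
    Prop :=
  rr Ω (cj g Uz ⊓ cj g' Uz) (cj g Ve ⊓ cj g' Ve) = 1

/-- left invariance: `rr_cj`, `cj_cj`, `cj_inf`. -/
theorem osR_left (hN : Nice Ω Γ) {S : Set Z} {B₀ : Finset Z} {Vb Ve : Subgroup Γ}
    (h : OS Ω Γ S B₀ Vb Ve) (k g g' : Γ) :
    osR Ω (fx Γ B₀) Ve (k * g) (k * g') ↔ osR Ω (fx Γ B₀) Ve g g' := by
  have hU0 : Op Ω (fx Γ B₀) := op_fx h.hS h.hB
  unfold osR
  rw [← cj_cj, ← cj_cj, ← cj_cj, ← cj_cj, ← cj_inf, ← cj_inf,
    rr_cj hN k (op_inf (op_cj g hU0) (op_cj g' hU0)) (op_inf (op_cj g h.oe) (op_cj g' h.oe))]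

theorem osR_refl (hN : Nice Ω Γ) {S : Set Z} {B₀ : Finset Z} {Vb Ve : Subgroup Γ}
    (h : OS Ω Γ S B₀ Vb Ve) (g : Γ) : osR Ω (fx Γ B₀) Ve g g := by
  have hU0 : Op Ω (fx Γ B₀) := op_fx h.hS h.hB
  unfold osR
  rw [inf_idem, inf_idem, rr_cj hN g hU0 h.oe]
  exact h.r1

theorem osR_symm {S : Set Z} {B₀ : Finset Z} {Vb Ve : Subgroup Γ}
    (h : OS Ω Γ S B₀ Vb Ve) {g g' : Γ} (hg : osR Ω (fx Γ B₀) Ve g g') :
    osR Ω (fx Γ B₀) Ve g' g := by
  unfold osR at hg ⊢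
  rw [inf_comm (cj g' (fx Γ B₀)), inf_comm (cj g' Ve)]
  exact hg

end Pool.Agent.Lib.ThC

end

section

/-! # F1b: the one step lemma -/

set_option autoImplicit false
open scoped Pointwise

namespace Pool.Agent.Lib.ThC

variable {Ω Γ : Type} [Group Γ] [MulAction Γ Ω]
variable {Z : Type} [MulAction Γ Z]

/-- transitivity.  The three subgroups `X = cj g Ve`, `X' = cj g' Ve`, `X'' = cj g'' Ve` have rank one over
`fx B` for every finite `B ⊆ S` containing the translates of `B₀` in question (`os_rank`,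
`rr_cj`, `cj_fx`).  Over `U = fx (g B₀ ∪ g' B₀ ∪ g'' B₀)`: `X, X'` are interalgebraic and
`X', X''` are, so `X, X''` are: `rr U (X ⊓ X'') = 1`.  By `rr_orth` (contraposition, base
`fx (g B₀ ∪ g'' B₀)`, `C = fx (g' B₀)`) `rr (fx (g B₀ ∪ g'' B₀)) (X ⊓ X'') ≠ 2`, and it is
`1` or `2`. -/
theorem osR_trans (hN : Nice Ω Γ) {S : Set Z} {B₀ : Finset Z} {Vb Ve : Subgroup Γ}
    (h : OS Ω Γ S B₀ Vb Ve) {g g' g'' : Γ} (hg : osR Ω (fx Γ B₀) Ve g g')
    (hg' : osR Ω (fx Γ B₀) Ve g' g'') : osR Ω (fx Γ B₀) Ve g g'' := by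
  classical
  have hopB : ∀ {B : Finset Z}, (B : Set Z) ⊆ S → Op Ω (fx Γ B) := fun hB => op_fx h.hS hB
  have himS : ∀ k : Γ, ((B₀.image fun b => k • b : Finset Z) : Set Z) ⊆ S := by
    intro k z hz
    obtain ⟨b, hb, rfl⟩ := Finset.mem_image.1 (Finset.mem_coe.1 hz)
    exact h.hS.inv k b (h.hB hb)
  have hunS : ∀ {B B' : Finset Z}, (B : Set Z) ⊆ S → (B' : Set Z) ⊆ S →
      ((B ∪ B' : Finset Z) : Set Z) ⊆ S := by
    intro B B' hB hB' z hz
    rcases Finset.mem_union.1 (Finset.mem_coe.1 hz) with hz | hz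
    · exact hB hz
    · exact hB' hz
  have hoX : ∀ k : Γ, Op Ω (cj k Ve) := fun k => op_cj k h.oe
  -- rank one over large bases
  have hone : ∀ (k : Γ) (B : Finset Z), (B : Set Z) ⊆ S → (B₀.image fun b => k • b) ⊆ B →
      rr Ω (fx Γ B) (cj k Ve) = 1 := by
    intro k B hB hkB
    have hB' : ((B.image fun b => k⁻¹ • b : Finset Z) : Set Z) ⊆ S := by
      intro z hz
      obtain ⟨b, hb, rfl⟩ := Finset.mem_image.1 (Finset.mem_coe.1 hz)
      exact h.hS.inv k⁻¹ b (hB hb)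
    have hB₀ : B₀ ⊆ B.image fun b => k⁻¹ • b := by
      intro b hb
      refine Finset.mem_image.2 ⟨k • b, hkB (Finset.mem_image_of_mem _ hb), ?_⟩
      rw [inv_smul_smul]
    have e1 := os_rank hN h hB' hB₀
    have e2 : fx Γ B = cj k (fx Γ (B.image fun b => k⁻¹ • b)) := by
      rw [cj_fx, Finset.image_image]
      congr 1
      ext z
      simp
    rw [e2, rr_cj hN k (hopB hB') h.oe, e1]
  unfold osR at hg hg' ⊢
  rw [cj_fx, cj_fx, ← fx_union] at hg hg' ⊢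
  set Bg : Finset Z := B₀.image fun b => g • b with hBg
  set Bg' : Finset Z := B₀.image fun b => g' • b with hBg'
  set Bg'' : Finset Z := B₀.image fun b => g'' • b with hBg''
  have sg : (Bg : Set Z) ⊆ S := himS g
  have sg' : (Bg' : Set Z) ⊆ S := himS g'
  have sg'' : (Bg'' : Set Z) ⊆ S := himS g''
  have sU : ((Bg ∪ Bg'' ∪ Bg' : Finset Z) : Set Z) ⊆ S := hunS (hunS sg sg'') sg'
  have sW : ((Bg ∪ Bg'' : Finset Z) : Set Z) ⊆ S := hunS sg sg''
  have oU := hopB sU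
  have oW := hopB sW
  set X := cj g Ve
  set X' := cj g' Ve
  set X'' := cj g'' Ve
  have oX : Op Ω X := hoX g
  have oX' : Op Ω X' := hoX g'
  have oX'' : Op Ω X'' := hoX g''
  have u1 : rr Ω (fx Γ (Bg ∪ Bg'' ∪ Bg')) X = 1 := hone g _ sU
    (Finset.subset_union_left.trans Finset.subset_union_left)
  have u1' : rr Ω (fx Γ (Bg ∪ Bg'' ∪ Bg')) X' = 1 := hone g' _ sU Finset.subset_union_right
  have u1'' : rr Ω (fx Γ (Bg ∪ Bg'' ∪ Bg')) X'' = 1 := hone g'' _ sU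
    (Finset.subset_union_right.trans Finset.subset_union_left)
  have w1 : rr Ω (fx Γ (Bg ∪ Bg'')) X = 1 := hone g _ sW Finset.subset_union_left
  have w1'' : rr Ω (fx Γ (Bg ∪ Bg'')) X'' = 1 := hone g'' _ sW Finset.subset_union_right
  have a1 : rr Ω (fx Γ (Bg ∪ Bg'' ∪ Bg')) (X ⊓ X') ≤ rr Ω (fx Γ (Bg ∪ Bg')) (X ⊓ X') :=
    rr_mono hN oU (fx_anti (by
      intro z hz
      simp only [Finset.mem_union] at hz ⊢
      tauto)) (op_inf oX oX')
  have a2 : rr Ω (fx Γ (Bg ∪ Bg'' ∪ Bg')) (X' ⊓ X'') ≤ rr Ω (fx Γ (Bg' ∪ Bg'')) (X' ⊓ X'') :=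
    rr_mono hN oU (fx_anti (by
      intro z hz
      simp only [Finset.mem_union] at hz ⊢
      tauto)) (op_inf oX' oX'')
  have a3 := rr_inf hN oU oX oX'
  have a4 := rr_inf hN oU oX'' oX'
  rw [inf_comm X'' X'] at a4
  have oUX' : Op Ω (fx Γ (Bg ∪ Bg'' ∪ Bg') ⊓ X') := op_inf oU oX'
  have a5 := rr_inf hN oU (op_inf oX oX'') oX'
  have a6 := rr_inf hN oUX' oX oX''
  have a7 : rr Ω (fx Γ (Bg ∪ Bg'' ∪ Bg') ⊓ X' ⊓ X'') X ≤ rr Ω (fx Γ (Bg ∪ Bg'' ∪ Bg') ⊓ X') X :=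
    rr_mono hN (op_inf oUX' oX'') inf_le_left oX
  have a8 : rr Ω (fx Γ (Bg ∪ Bg'' ∪ Bg')) (X ⊓ X'') ≤
      rr Ω (fx Γ (Bg ∪ Bg'' ∪ Bg')) (X ⊓ X'' ⊓ X') :=
    rr_anti hN oU (op_inf (op_inf oX oX'') oX') inf_le_left
  have b1 : rr Ω (fx Γ (Bg ∪ Bg'' ∪ Bg')) (X ⊓ X'') ≤ 1 := by omega
  have c1 := rr_inf hN oW oX oX''
  have c2 : rr Ω (fx Γ (Bg ∪ Bg'') ⊓ X'') X ≤ rr Ω (fx Γ (Bg ∪ Bg'')) X :=
    rr_mono hN (op_inf oW oX'') inf_le_left oX
  by_contra hne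
  have c3 : rr Ω (fx Γ (Bg ∪ Bg'')) (X ⊓ X'') = 2 := by omega
  have e : fx Γ (Bg ∪ Bg'' ∪ Bg') = fx Γ (Bg ∪ Bg'') ⊓ fx Γ Bg' := fx_union _ _
  have c4 := rr_orth hN oW (hopB sg') oX oX'' (by rw [← e]; exact u1) (by rw [← e]; exact u1'')
    w1 w1'' c3
  rw [← e] at c4
  omega

/-- the stabiliser of the class `w` of `(e, z)`: `Gw = {g | 1 ∼ g}`.  It is a subgroup by the
previous lemmas and contains `fx B₀ ⊓ Ve`. -/
theorem os_group (hN : Nice Ω Γ) {S : Set Z} {B₀ : Finset Z} {Vb Ve : Subgroup Γ}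
    (h : OS Ω Γ S B₀ Vb Ve) : ∃ Gw : Subgroup Γ, (∀ g, g ∈ Gw ↔ osR Ω (fx Γ B₀) Ve 1 g) ∧
      fx Γ B₀ ⊓ Ve ≤ Gw := by
  refine ⟨{
    carrier := {g | osR Ω (fx Γ B₀) Ve 1 g}
    mul_mem' := ?_
    one_mem' := osR_refl hN h 1
    inv_mem' := ?_ }, fun g => Iff.rfl, ?_⟩
  · intro a b ha hb
    have h1 : osR Ω (fx Γ B₀) Ve (a * 1) (a * b) := (osR_left hN h a 1 b).2 hb
    rw [mul_one] at h1
    exact osR_trans hN h ha h1
  · intro a ha
    have h1 : osR Ω (fx Γ B₀) Ve (a⁻¹ * 1) (a⁻¹ * a) := (osR_left hN h a⁻¹ 1 a).2 ha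
    rw [mul_one, inv_mul_cancel] at h1
    exact osR_symm h h1
  · intro g hg
    obtain ⟨h1, h2⟩ := Subgroup.mem_inf.1 hg
    change rr Ω (cj 1 (fx Γ B₀) ⊓ cj g (fx Γ B₀)) (cj 1 Ve ⊓ cj g Ve) = 1
    rw [cj_one, cj_one, cj_eq_of_mem h1, cj_eq_of_mem h2, inf_idem, inf_idem]
    exact h.r1

end Pool.Agent.Lib.ThC

end

section

/-! # F1c: the one step lemma -/

set_option autoImplicit false
open scoped Pointwise

namespace Pool.Agent.Lib.ThC

variable {Ω Γ : Type} [Group Γ] [MulAction Γ Ω]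
variable {Z : Type} [MulAction Γ Z]

/-- `e` is algebraic over `w, z`: for `g ∈ fx B₀ ⊓ Gw` the coset `g • 1·Ve` is algebraic over
`fx B₀ ⊓ Ve` (as `rr (fx B₀) (Ve ⊓ cj g Ve) = 1 = rr (fx B₀) Ve`), and there are only finitely
many elements of the sort `Γ ⧸ Ve` algebraic over an open group (`finOrb`). -/
theorem os_alg (hN : Nice Ω Γ) {S : Set Z} {B₀ : Finset Z} {Vb Ve Gw : Subgroup Γ}
    (h : OS Ω Γ S B₀ Vb Ve) (hG : ∀ g, g ∈ Gw ↔ osR Ω (fx Γ B₀) Ve 1 g) :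
    Ve.relIndex (fx Γ B₀ ⊓ Gw) ≠ 0 := by
  classical
  have hU0 : Op Ω (fx Γ B₀) := op_fx h.hS h.hB
  have hUe : Op Ω (fx Γ B₀ ⊓ Ve) := op_inf hU0 h.oe
  -- finitely many elements of `Γ ⧸ Ve` are algebraic over `fx B₀ ⊓ Ve`
  obtain ⟨F, hF⟩ := finOrb hN (srt_coset h.oe) hUe
  have hfin : {z : Γ ⧸ Ve | (orb (fx Γ B₀ ⊓ Ve) z).Finite}.Finite := by
    have h1 : (⋃ f ∈ F.filter (fun f => (orb (fx Γ B₀ ⊓ Ve) f).Finite),
        orb (fx Γ B₀ ⊓ Ve) f).Finite := by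
      refine Set.Finite.biUnion (Finset.finite_toSet _) ?_
      intro f hf
      exact (Finset.mem_filter.mp hf).2
    refine h1.subset ?_
    intro z hz
    obtain ⟨f, hf, hzf⟩ := hF z
    have h2 : orb (fx Γ B₀ ⊓ Ve) z = orb (fx Γ B₀ ⊓ Ve) f := orb_eq_of_mem hzf
    refine Set.mem_biUnion (x := f) ?_ hzf
    refine Finset.mem_filter.mpr ⟨hf, ?_⟩
    rw [← h2]
    exact hz
  have key : (orb (fx Γ B₀ ⊓ Gw) ((1 : Γ) : Γ ⧸ Ve)).Finite := by
    refine hfin.subset ?_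
    rintro _ ⟨g, hg, rfl⟩
    obtain ⟨hg1, hg2⟩ := Subgroup.mem_inf.mp hg
    have h1 := (hG g).mp hg2
    unfold osR at h1
    rw [cj_one, cj_one, cj_eq_of_mem hg1, inf_idem, inf_comm] at h1
    have hoe : Op Ω (cj g Ve) := op_cj g h.oe
    have h2 := rr_inf hN hU0 hoe h.oe
    have h3 := h.r1
    have h4 : rr Ω (fx Γ B₀ ⊓ Ve) (cj g Ve) = 0 := by omega
    rw [rr_eq_zero hN hUe hoe] at h4
    show (orb (fx Γ B₀ ⊓ Ve) (g • ((1 : Γ) : Γ ⧸ Ve))).Finite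
    rw [orb_finite_iff, st_smul, st_coset]
    exact h4
  rw [orb_finite_iff, st_coset] at key
  exact key

/-- the rank of `g w` over `fx B`, `B ⊇ g B₀`, is one (`w` and `e` are interalgebraic over
`fx B₀`, conjugate by `g`; `os_rank`). -/
theorem os_w1 (hN : Nice Ω Γ) {S : Set Z} {B₀ : Finset Z} {Vb Ve Gw : Subgroup Γ}
    (h : OS Ω Γ S B₀ Vb Ve) (hG : ∀ g, g ∈ Gw ↔ osR Ω (fx Γ B₀) Ve 1 g) (g : Γ)
    {B : Finset Z} (hB : (B : Set Z) ⊆ S) (hgB : ∀ b ∈ B₀, g • b ∈ B) :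
    rr Ω (fx Γ B) (cj g Gw) = 1 := by
  classical
  have hU0 : Op Ω (fx Γ B₀) := op_fx h.hS h.hB
  -- `fx B₀ ⊓ Ve ≤ Gw`
  have hle : fx Γ B₀ ⊓ Ve ≤ Gw := by
    obtain ⟨Gw', h1, h2⟩ := os_group hN h
    intro x hx
    exact (hG x).mpr ((h1 x).mp (h2 hx))
  have hGo : Op Ω Gw := op_mono (op_inf hU0 h.oe) hle
  -- the conjugate situation
  have hB' : ((B.image (fun b => g⁻¹ • b) : Finset Z) : Set Z) ⊆ S := by
    intro x hx
    obtain ⟨b, hb, rfl⟩ := Finset.mem_image.mp (Finset.mem_coe.mp hx)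
    exact h.hS.inv g⁻¹ b (hB hb)
  have hB₀' : B₀ ⊆ B.image (fun b => g⁻¹ • b) := by
    intro b hb
    exact Finset.mem_image.mpr ⟨g • b, hgB b hb, inv_smul_smul g b⟩
  have e0 : cj g (fx Γ (B.image (fun b => g⁻¹ • b))) = fx Γ B := by
    rw [← cj_fx, cj_cj, mul_inv_cancel, cj_one]
  have hU' : Op Ω (fx Γ (B.image (fun b => g⁻¹ • b))) := op_fx h.hS hB'
  have e1 : rr Ω (fx Γ (B.image (fun b => g⁻¹ • b))) Ve = 1 := os_rank hN h hB' hB₀'
  have hle' : fx Γ (B.image (fun b => g⁻¹ • b)) ≤ fx Γ B₀ := fx_anti hB₀'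
  rw [← e0, rr_cj hN g hU' hGo]
  have e2 := rr_inf hN hU' hGo h.oe
  have e3 := rr_inf hN hU' h.oe hGo
  rw [inf_comm Ve Gw] at e3
  have z1 : rr Ω (fx Γ (B.image (fun b => g⁻¹ • b)) ⊓ Ve) Gw = 0 := by
    rw [rr_eq_zero hN (op_inf hU' h.oe) hGo]
    have h1 : fx Γ (B.image (fun b => g⁻¹ • b)) ⊓ Ve ≤ Gw := (inf_le_inf_right Ve hle').trans hle
    rw [Subgroup.relIndex_eq_one.mpr h1]
    exact one_ne_zero
  have z2 : rr Ω (fx Γ B₀ ⊓ Gw) Ve = 0 :=
    (rr_eq_zero hN (op_inf hU0 hGo) h.oe).mpr (os_alg hN h hG)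
  have z3 : rr Ω (fx Γ (B.image (fun b => g⁻¹ • b)) ⊓ Gw) Ve ≤ rr Ω (fx Γ B₀ ⊓ Gw) Ve :=
    rr_mono hN (op_inf hU' hGo) (inf_le_inf_right Gw hle') h.oe
  omega

end Pool.Agent.Lib.ThC

end

section

/-! # F1d: the one step lemma -/

set_option autoImplicit false
open scoped Pointwise

namespace Pool.Agent.Lib.ThC

variable {Ω Γ : Type} [Group Γ] [MulAction Γ Ω]
variable {Z : Type} [MulAction Γ Z]

/-- adjoining something algebraic does not change the rank. -/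
private theorem F1d_alg (hN : Nice Ω Γ) {U A C : Subgroup Γ} (hU : Op Ω U) (hA : Op Ω A)
    (hC : Op Ω C) (h : rr Ω (U ⊓ A) C = 0) : rr Ω U (C ⊓ A) = rr Ω U A := by
  rw [rr_inf hN hU hC hA, h, Nat.add_zero]

open scoped Classical in
/-- `os_rank` for translates. -/
private theorem F1d_rank (hN : Nice Ω Γ) {S : Set Z} {B₀ : Finset Z} {Vb Ve : Subgroup Γ}
    (h : OS Ω Γ S B₀ Vb Ve) (g : Γ) {B : Finset Z} (hB : (B : Set Z) ⊆ S)
    (hgB : ∀ b ∈ B₀, g • b ∈ B) : rr Ω (fx Γ B) (cj g Ve) = 1 := by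
  have hoB : Op Ω (fx Γ B) := op_fx h.hS hB
  have hB' : ((B.image (fun b => g⁻¹ • b) : Finset Z) : Set Z) ⊆ S := by
    intro z hz
    rw [Finset.mem_coe] at hz
    obtain ⟨b, hb, rfl⟩ := Finset.mem_image.1 hz
    exact h.hS.inv _ _ (hB hb)
  have h1 : B₀ ⊆ B.image (fun b => g⁻¹ • b) := by
    intro b hb
    exact Finset.mem_image.2 ⟨g • b, hgB b hb, inv_smul_smul g b⟩
  have h2 := os_rank hN h hB' h1
  rw [← cj_fx] at h2
  have h3 := rr_cj hN g (op_cj g⁻¹ hoB) h.oe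
  rw [cj_cj, mul_inv_cancel, cj_one] at h3
  rw [h3, h2]

/-- distinct `g w ≠ g' w` are independent over `fx B`, `B ⊇ g B₀ ∪ g' B₀`.  For
`B = g B₀ ∪ g' B₀` this is the definition of `∼`
(`w` interalgebraic with `e` over `z`), for larger `B` use `rr_orth`. -/
theorem os_w2 (hN : Nice Ω Γ) {S : Set Z} {B₀ : Finset Z} {Vb Ve Gw : Subgroup Γ}
    (h : OS Ω Γ S B₀ Vb Ve) (hG : ∀ g, g ∈ Gw ↔ osR Ω (fx Γ B₀) Ve 1 g) (g g' : Γ)
    (hne : g⁻¹ * g' ∉ Gw)
    {B : Finset Z} (hB : (B : Set Z) ⊆ S) (hgB : ∀ b ∈ B₀, g • b ∈ B)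
    (hgB' : ∀ b ∈ B₀, g' • b ∈ B) :
    rr Ω (fx Γ B) (cj g Gw ⊓ cj g' Gw) = 2 := by
  classical
  obtain ⟨Gw', hG', hle'⟩ := os_group hN h
  have hGG : Gw' = Gw := by
    ext x
    rw [hG, hG']
  rw [hGG] at hle'
  have hz : Op Ω (fx Γ B₀) := op_fx h.hS h.hB
  have hoG : Op Ω Gw := op_mono (op_inf hz h.oe) hle'
  -- the smallest base
  have hB₂ : ((B₀.image (fun b => g • b) ∪ B₀.image (fun b => g' • b) : Finset Z) : Set Z) ⊆
      S := by
    intro z hz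
    rw [Finset.mem_coe] at hz
    rcases Finset.mem_union.1 hz with hz | hz
    · obtain ⟨b, hb, rfl⟩ := Finset.mem_image.1 hz
      exact h.hS.inv _ _ (h.hB hb)
    · obtain ⟨b, hb, rfl⟩ := Finset.mem_image.1 hz
      exact h.hS.inv _ _ (h.hB hb)
  have hg2 : ∀ b ∈ B₀, g • b ∈ B₀.image (fun b => g • b) ∪ B₀.image (fun b => g' • b) :=
    fun b hb => Finset.mem_union_left _ (Finset.mem_image_of_mem _ hb)
  have hg2' : ∀ b ∈ B₀, g' • b ∈ B₀.image (fun b => g • b) ∪ B₀.image (fun b => g' • b) :=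
    fun b hb => Finset.mem_union_right _ (Finset.mem_image_of_mem _ hb)
  have hU : fx Γ (B₀.image (fun b => g • b) ∪ B₀.image (fun b => g' • b)) =
      cj g (fx Γ B₀) ⊓ cj g' (fx Γ B₀) := by
    rw [fx_union, cj_fx, cj_fx]
  have hX1 := F1d_rank hN h g hB₂ hg2
  have hX1' := F1d_rank hN h g' hB₂ hg2'
  have hW1 := os_w1 hN h hG g hB₂ hg2
  have hW1' := os_w1 hN h hG g' hB₂ hg2'
  rw [hU] at hX1 hX1' hW1 hW1'
  have hoU : Op Ω (cj g (fx Γ B₀) ⊓ cj g' (fx Γ B₀)) := op_inf (op_cj g hz) (op_cj g' hz)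
  have hoX : Op Ω (cj g Ve) := op_cj g h.oe
  have hoX' : Op Ω (cj g' Ve) := op_cj g' h.oe
  have hoW : Op Ω (cj g Gw) := op_cj g hoG
  have hoW' : Op Ω (cj g' Gw) := op_cj g' hoG
  -- the rank of the pair of translates of `e`
  have hne1 : rr Ω (cj g (fx Γ B₀) ⊓ cj g' (fx Γ B₀)) (cj g Ve ⊓ cj g' Ve) ≠ 1 := by
    intro h1
    apply hne
    rw [hG, ← osR_left hN h g, mul_one, mul_inv_cancel_left]
    exact h1
  have hX2 : rr Ω (cj g (fx Γ B₀) ⊓ cj g' (fx Γ B₀)) (cj g Ve ⊓ cj g' Ve) = 2 := by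
    have h1 := rr_inf hN hoU hoX hoX'
    have h2 : rr Ω (cj g (fx Γ B₀) ⊓ cj g' (fx Γ B₀) ⊓ cj g' Ve) (cj g Ve) ≤
        rr Ω (cj g (fx Γ B₀) ⊓ cj g' (fx Γ B₀)) (cj g Ve) :=
      rr_mono hN (op_inf hoU hoX') inf_le_left hoX
    omega
  -- interalgebraicity
  have hXW : ∀ k : Γ, (cj k Ve).relIndex (cj k (fx Γ B₀) ⊓ cj k Gw) ≠ 0 := by
    intro k
    have h1 := os_alg hN h hG
    have h2 : rr Ω (fx Γ B₀ ⊓ Gw) Ve = 0 := (rr_eq_zero hN (op_inf hz hoG) h.oe).2 h1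
    have h3 := rr_cj hN k (op_inf hz hoG) h.oe
    rw [h2, cj_inf, rr_eq_zero hN (op_inf (op_cj k hz) (op_cj k hoG)) (op_cj k h.oe)] at h3
    exact h3
  have hWX : ∀ k : Γ, cj k (fx Γ B₀) ⊓ cj k Ve ≤ cj k Gw := by
    intro k
    rw [← cj_inf]
    exact cj_mono hle'
  have hzero : ∀ {U' C : Subgroup Γ}, Op Ω U' → Op Ω C → U' ≤ C → rr Ω U' C = 0 := by
    intro U' C h1 h2 h3
    rw [rr_eq_zero hN h1 h2, Subgroup.relIndex_eq_one.2 h3]
    exact one_ne_zero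
  have hzero' : ∀ {U' V' C : Subgroup Γ}, Op Ω U' → Op Ω V' → Op Ω C → U' ≤ V' →
      C.relIndex V' ≠ 0 → rr Ω U' C = 0 := by
    intro U' V' C h1 h2 h3 h4 h5
    have h6 := (rr_eq_zero hN h2 h3).2 h5
    have h7 : rr Ω U' C ≤ rr Ω V' C := rr_mono hN h1 h4 h3
    omega
  -- abbreviations
  generalize hA : cj g (fx Γ B₀) = A at *
  generalize hA' : cj g' (fx Γ B₀) = A' at *
  have hXWg := hXW g
  have hXWg' := hXW g'
  have hWXg := hWX g
  have hWXg' := hWX g'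
  rw [hA] at hXWg hWXg
  rw [hA'] at hXWg' hWXg'
  generalize cj g Ve = X at *
  generalize cj g' Ve = X' at *
  have e1 : rr Ω (A ⊓ A') (cj g Gw ⊓ (X ⊓ X')) = rr Ω (A ⊓ A') (X ⊓ X') :=
    F1d_alg hN hoU (op_inf hoX hoX') hoW (hzero (op_inf hoU (op_inf hoX hoX')) hoW
      (fun x hx => hWXg ⟨hx.1.1, hx.2.1⟩))
  have e2 : rr Ω (A ⊓ A') (cj g' Gw ⊓ (cj g Gw ⊓ (X ⊓ X'))) =
      rr Ω (A ⊓ A') (cj g Gw ⊓ (X ⊓ X')) :=
    F1d_alg hN hoU (op_inf hoW (op_inf hoX hoX')) hoW'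
      (hzero (op_inf hoU (op_inf hoW (op_inf hoX hoX'))) hoW'
      (fun x hx => hWXg' ⟨hx.1.2, hx.2.2.2⟩))
  have hoA : Op Ω A := op_mono hoU inf_le_left
  have hoA' : Op Ω A' := op_mono hoU inf_le_right
  have e3 : rr Ω (A ⊓ A') (X ⊓ (cj g Gw ⊓ cj g' Gw)) = rr Ω (A ⊓ A') (cj g Gw ⊓ cj g' Gw) :=
    F1d_alg hN hoU (op_inf hoW hoW') hoX (hzero' (op_inf hoU (op_inf hoW hoW'))
      (op_inf hoA hoW) hoX (fun x hx => ⟨hx.1.1, hx.2.1⟩) hXWg)
  have e4 : rr Ω (A ⊓ A') (X' ⊓ (X ⊓ (cj g Gw ⊓ cj g' Gw))) =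
      rr Ω (A ⊓ A') (X ⊓ (cj g Gw ⊓ cj g' Gw)) :=
    F1d_alg hN hoU (op_inf hoX (op_inf hoW hoW')) hoX'
      (hzero' (op_inf hoU (op_inf hoX (op_inf hoW hoW')))
      (op_inf hoA' hoW') hoX' (fun x hx => ⟨hx.1.2, hx.2.2.2⟩) hXWg')
  have e5 : X' ⊓ (X ⊓ (cj g Gw ⊓ cj g' Gw)) = cj g' Gw ⊓ (cj g Gw ⊓ (X ⊓ X')) := by
    ext x
    simp only [Subgroup.mem_inf]
    tauto
  have hW2 : rr Ω (A ⊓ A') (cj g Gw ⊓ cj g' Gw) = 2 := by
    rw [← e3, ← e4, e5, e2, e1, hX2]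
  -- enlarge the base
  have hBle : fx Γ B ≤ A ⊓ A' := by
    rw [← hU]
    apply fx_anti
    intro z hz
    rcases Finset.mem_union.1 hz with hz | hz
    · obtain ⟨b, hb, rfl⟩ := Finset.mem_image.1 hz
      exact hgB b hb
    · obtain ⟨b, hb, rfl⟩ := Finset.mem_image.1 hz
      exact hgB' b hb
  have hBeq : A ⊓ A' ⊓ fx Γ B = fx Γ B := inf_eq_right.2 hBle
  have h1 := os_w1 hN h hG g hB hgB
  have h2 := os_w1 hN h hG g' hB hgB'
  rw [← hBeq] at h1 h2 ⊢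
  exact rr_orth hN hoU (op_fx h.hS hB) hoW hoW' h1 h2 hW1 hW1' hW2

end Pool.Agent.Lib.ThC

end

section

/-! # F1e: the one step lemma -/

set_option autoImplicit false
open scoped Pointwise

namespace Pool.Agent.Lib.ThC

variable {Ω Γ : Type} [Group Γ] [MulAction Γ Ω]
variable {Z : Type} [MulAction Γ Z]

private theorem F1e_img {T : Type} [MulAction Γ T] (g : Γ) (U : Subgroup Γ) (p : T)
    (h : (orb U p).Finite) : (orb (cj g U) (g • p)).Finite := by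
  refine (h.image (fun t => g • t)).subset ?_
  rintro _ ⟨x, hx, rfl⟩
  rw [mem_cj] at hx
  refine ⟨(g⁻¹ * x * g) • p, ⟨_, hx, rfl⟩, ?_⟩
  simp [smul_smul, mul_assoc]

/-- The type.  Let `p` be the strong type of `w = 1·Gw ∈ Γ ⧸ Gw` over `fx B₀` (`stp_exists`).  Then for
all `g` and all finite `B ⊆ S` containing `g B₀`, `g • p` is the strong type of `g • w` over `fx B`
(conjugation gives it for `fx (g B₀)`; from there to `fx B` the rank stays `1`, so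
`real_of_ur` applies for `fx (g B₀) ⊓ st (g • p)`).  If `g ∈ Gw` then `g • w = w`, and
comparing over `fx (B₀ ∪ g B₀)`, `stp_unique` gives `g • p = p`: `Gw ≤ st p`. -/
theorem os_type (hN : Nice Ω Γ) {S : Set Z} {B₀ : Finset Z} {Vb Ve Gw : Subgroup Γ}
    (h : OS Ω Γ S B₀ Vb Ve) (hG : ∀ g, g ∈ Gw ↔ osR Ω (fx Γ B₀) Ve 1 g)
    (hop : Op Ω Gw) :
    ∃ p : Tp Ω Γ (Γ ⧸ Gw), Gw ≤ st Γ p ∧ ∀ (g : Γ) (B : Finset Z), (B : Set Z) ⊆ S →
      (∀ b ∈ B₀, g • b ∈ B) → (orb (fx Γ B) (g • p)).Finite ∧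
        orb (fx Γ B ⊓ st Γ (g • p)) (g • ((1 : Γ) : Γ ⧸ Gw)) ∈ (g • p).s := by
  classical
  have hZ : Srt Ω Γ (Γ ⧸ Gw) := srt_coset hop
  have hU₀ : Op Ω (fx Γ B₀) := op_fx h.hS h.hB
  obtain ⟨p, hp1, hp2⟩ := stp_exists hN hZ hU₀ ((1 : Γ) : Γ ⧸ Gw)
  have hst : ∀ g : Γ, st Γ (g • ((1 : Γ) : Γ ⧸ Gw)) = cj g Gw := by
    intro g
    rw [st_smul, st_coset]
  have key : ∀ (g : Γ) (B : Finset Z), (B : Set Z) ⊆ S →
      (∀ b ∈ B₀, g • b ∈ B) → (orb (fx Γ B) (g • p)).Finite ∧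
        orb (fx Γ B ⊓ st Γ (g • p)) (g • ((1 : Γ) : Γ ⧸ Gw)) ∈ (g • p).s := by
    intro g B hB hgB
    -- the translate of B₀
    have hB1 : ((B₀.image (fun b => g • b) : Finset Z) : Set Z) ⊆ S := by
      intro x hx
      rw [Finset.mem_coe, Finset.mem_image] at hx
      obtain ⟨b, hb, rfl⟩ := hx
      exact hB (hgB b hb)
    have hsub : B₀.image (fun b => g • b) ⊆ B := by
      intro x hx
      rw [Finset.mem_image] at hx
      obtain ⟨b, hb, rfl⟩ := hx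
      exact hgB b hb
    have hU1 : Op Ω (fx Γ (B₀.image (fun b => g • b))) := op_fx h.hS hB1
    have hV : Op Ω (fx Γ B) := op_fx h.hS hB
    have hle : fx Γ B ≤ fx Γ (B₀.image (fun b => g • b)) := fx_anti hsub
    have hf1 : (orb (fx Γ (B₀.image (fun b => g • b))) (g • p)).Finite := by
      rw [← cj_fx]
      exact F1e_img g _ p hp1
    have hf2 : (orb (fx Γ B) (g • p)).Finite := orb_finite_of_le hle hf1
    refine ⟨hf2, ?_⟩
    have hpo : Op Ω (st Γ (g • p)) := tp_open hN hZ (g • p)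
    have ha : orb (fx Γ (B₀.image (fun b => g • b)) ⊓ st Γ (g • p))
        (g • ((1 : Γ) : Γ ⧸ Gw)) ∈ (g • p).s := by
      rw [← cj_fx, st_smul, ← cj_inf, ← smul_orb]
      exact smul_mem_smul_tp.2 hp2
    refine real_of_ur hN hZ (U := fx Γ (B₀.image (fun b => g • b)) ⊓ st Γ (g • p))
      (V := fx Γ B ⊓ st Γ (g • p)) (op_inf hU1 hpo) (op_inf hV hpo)
      (inf_le_inf_right _ hle) inf_le_right ha ?_
    have e1 : ur Ω (fx Γ B ⊓ st Γ (g • p)) (g • ((1 : Γ) : Γ ⧸ Gw))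
        = ur Ω (fx Γ B) (g • ((1 : Γ) : Γ ⧸ Gw)) := by
      refine ur_fi hN hZ (op_inf hV hpo) inf_le_left ?_ _
      rw [Subgroup.inf_relIndex_left]
      exact (orb_finite_iff _ _).1 hf2
    have e2 : ur Ω (fx Γ (B₀.image (fun b => g • b)) ⊓ st Γ (g • p)) (g • ((1 : Γ) : Γ ⧸ Gw))
        = ur Ω (fx Γ (B₀.image (fun b => g • b))) (g • ((1 : Γ) : Γ ⧸ Gw)) := by
      refine ur_fi hN hZ (op_inf hU1 hpo) inf_le_left ?_ _
      rw [Subgroup.inf_relIndex_left]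
      exact (orb_finite_iff _ _).1 hf1
    rw [e1, e2, ← rr_st hN hZ hV, ← rr_st hN hZ hU1, hst,
      os_w1 hN h hG g hB hgB,
      os_w1 hN h hG g hB1 (fun b hb => Finset.mem_image_of_mem _ hb)]
  refine ⟨p, ?_, key⟩
  intro g hg
  rw [MulAction.mem_stabilizer_iff]
  have hw : g • ((1 : Γ) : Γ ⧸ Gw) = ((1 : Γ) : Γ ⧸ Gw) := by
    rw [← MulAction.mem_stabilizer_iff]
    have := st_coset Gw
    unfold st at this
    rw [this]
    exact hg
  have hB2 : ((B₀ ∪ B₀.image (fun b => g • b) : Finset Z) : Set Z) ⊆ S := by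
    intro x hx
    rw [Finset.coe_union, Set.mem_union, Finset.mem_coe, Finset.mem_coe, Finset.mem_image] at hx
    rcases hx with hx | ⟨b, hb, rfl⟩
    · exact h.hB hx
    · exact h.hS.inv g b (h.hB hb)
  have k1 := key 1 _ hB2 (fun b hb => by
    rw [one_smul]
    exact Finset.mem_union_left _ hb)
  have k2 := key g _ hB2 (fun b hb => Finset.mem_union_right _ (Finset.mem_image_of_mem _ hb))
  rw [one_smul, one_smul] at k1
  rw [hw] at k2
  exact (stp_unique hN hZ (op_fx h.hS hB2) k1.1 k2.1 k1.2 k2.2).symm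

end Pool.Agent.Lib.ThC

end

section

/-! # F1f: the one step lemma -/

set_option autoImplicit false
open scoped Pointwise

namespace Pool.Agent.Lib.ThC

variable {Ω Γ : Type} [Group Γ] [MulAction Γ Ω]
variable {Z : Type} [MulAction Γ Z]

/-- the translates of `w` over a subgroup of finite index of `fx B` fixing the types. -/
private theorem F1f_half (hN : Nice Ω Γ) {S : Set Z} {B₀ : Finset Z} {Vb Ve Gw : Subgroup Γ}
    (h : OS Ω Γ S B₀ Vb Ve) (hG : ∀ g, g ∈ Gw ↔ osR Ω (fx Γ B₀) Ve 1 g)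
    (hop : Op Ω Gw) {p : Tp Ω Γ (Γ ⧸ Gw)}
    (hp : ∀ (g : Γ) (B : Finset Z), (B : Set Z) ⊆ S →
      (∀ b ∈ B₀, g • b ∈ B) → (orb (fx Γ B) (g • p)).Finite ∧
        orb (fx Γ B ⊓ st Γ (g • p)) (g • ((1 : Γ) : Γ ⧸ Gw)) ∈ (g • p).s)
    {B : Finset Z} (hB : (B : Set Z) ⊆ S) {V' : Subgroup Γ} (hV' : Op Ω V')
    (hle : V' ≤ fx Γ B) (hfi : V'.relIndex (fx Γ B) ≠ 0) {n : ℕ} (g : Fin n → Γ)
    (hgB : ∀ i, ∀ b ∈ B₀, g i • b ∈ B) (hst : ∀ i, V' ≤ st Γ (g i • p))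
    (h1 : ∀ i j, i ≠ j → (g i)⁻¹ * g j ∉ Gw) :
    (∀ i, ur Ω V' (g i • ((1 : Γ) : Γ ⧸ Gw)) = 1) ∧
      (∀ i, orb V' (g i • ((1 : Γ) : Γ ⧸ Gw)) ∈ (g i • p).s) ∧
      ur Ω V' (fun i => g i • ((1 : Γ) : Γ ⧸ Gw)) = n := by
  have hZ : Srt Ω Γ (Γ ⧸ Gw) := srt_coset hop
  have hoB : Op Ω (fx Γ B) := op_fx h.hS hB
  have hstx : ∀ i, st Γ (g i • ((1 : Γ) : Γ ⧸ Gw)) = cj (g i) Gw := fun i => by
    rw [st_smul, st_coset]
  have e1 : ∀ i, rr Ω V' (cj (g i) Gw) = 1 := fun i => by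
    rw [rr_fi hN hV' hle hfi (op_cj _ hop)]
    exact os_w1 hN h hG (g i) hB (hgB i)
  have e1' : ∀ i, ur Ω V' (g i • ((1 : Γ) : Γ ⧸ Gw)) = 1 := fun i => by
    rw [← rr_st hN hZ hV', hstx i]
    exact e1 i
  have e2 : ∀ i j, i ≠ j → rr Ω V' (cj (g i) Gw ⊓ cj (g j) Gw) = 2 := fun i j hij => by
    rw [rr_fi hN hV' hle hfi (op_inf (op_cj _ hop) (op_cj _ hop))]
    exact os_w2 hN h hG (g i) (g j) (h1 i j hij) hB (hgB i) (hgB j)
  refine ⟨e1', fun i => ?_, ?_⟩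
  · have h2 := (hp (g i) B hB (hgB i)).2
    have hoU : Op Ω (fx Γ B ⊓ st Γ (g i • p)) := op_inf hoB (tp_open hN hZ _)
    have hle2 : V' ≤ fx Γ B ⊓ st Γ (g i • p) := le_inf hle (hst i)
    refine real_of_ur hN hZ hoU hV' hle2 inf_le_right h2 ?_
    have h3 : ur Ω (fx Γ B) (g i • ((1 : Γ) : Γ ⧸ Gw)) = 1 := by
      rw [← rr_st hN hZ hoB, hstx i]
      exact os_w1 hN h hG (g i) hB (hgB i)
    have h4 : ur Ω (fx Γ B ⊓ st Γ (g i • p)) (g i • ((1 : Γ) : Γ ⧸ Gw)) = 1 := by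
      rw [ur_fi hN hZ hoU inf_le_left _ _, h3]
      rw [Subgroup.inf_relIndex_left, ← orb_finite_iff]
      exact (hp (g i) B hB (hgB i)).1
    rw [e1' i, h4]
  · rw [← rr_st hN (srt_pi hN hZ n) hV', st_pi]
    have h2 := rr_triv hN hV' (fun i => cj (g i) Gw) (fun i => op_cj _ hop) e1 e2
    simp only [hstx]
    exact h2

/-- Conjugacy of tuples, with `Gc = st p`.  Let `V` be open, `B₁ ⊆ S` finite,
`V ⊓ fx B₁` of finite index in `fx B₁`.
Let `B ⊆ S` be finite containing `B₁`, all `g i B₀`, `g' i B₀`, and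
`V' = V ⊓ fx B ⊓ ⨅ st (g i • p)`, which has finite index in `fx B`.  `g i • p = g' i • p`.  Over `V'` the
elements `x i = g i • w` have rank one and realise `g i • p` (`real_of_ur`, from
`fx B ⊓ st (g i • p)`), are pairwise independent (`os_w2`, `rr_fi`), so independent (`rr_triv`);
same for `g' i`.  `conj_of_indep`. -/
theorem os_conj (hN : Nice Ω Γ) {S : Set Z} {B₀ : Finset Z} {Vb Ve Gw : Subgroup Γ}
    (h : OS Ω Γ S B₀ Vb Ve) (hG : ∀ g, g ∈ Gw ↔ osR Ω (fx Γ B₀) Ve 1 g)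
    (hop : Op Ω Gw) {p : Tp Ω Γ (Γ ⧸ Gw)}
    (hp : ∀ (g : Γ) (B : Finset Z), (B : Set Z) ⊆ S →
      (∀ b ∈ B₀, g • b ∈ B) → (orb (fx Γ B) (g • p)).Finite ∧
        orb (fx Γ B ⊓ st Γ (g • p)) (g • ((1 : Γ) : Γ ⧸ Gw)) ∈ (g • p).s)
    {V : Subgroup Γ} (hV : Op Ω V) {B₁ : Finset Z} (hB₁ : (B₁ : Set Z) ⊆ S)
    (hfi : V.relIndex (fx Γ B₁) ≠ 0) {n : ℕ} (g g' : Fin n → Γ)
    (h1 : ∀ i j, i ≠ j → (g i)⁻¹ * g j ∉ Gw) (h2 : ∀ i j, i ≠ j → (g' i)⁻¹ * g' j ∉ Gw)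
    (h3 : ∀ i, (g i)⁻¹ * g' i ∈ st Γ p) :
    ∃ k ∈ V, ∀ i, (g' i)⁻¹ * k * g i ∈ Gw := by
  classical
  have hZ : Srt Ω Γ (Γ ⧸ Gw) := srt_coset hop
  have hgp : ∀ i, g' i • p = g i • p := fun i => by
    have h4 := h3 i
    rw [MulAction.mem_stabilizer_iff, mul_smul, inv_smul_eq_iff] at h4
    exact h4
  -- the base
  let B : Finset Z := B₁ ∪ (Finset.univ.biUnion (fun i => B₀.image (fun b => g i • b)) ∪
    Finset.univ.biUnion (fun i => B₀.image (fun b => g' i • b)))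
  have hB : (B : Set Z) ⊆ S := by
    intro z hz
    rw [Finset.mem_coe] at hz
    rcases Finset.mem_union.1 hz with hz | hz
    · exact hB₁ hz
    · rcases Finset.mem_union.1 hz with hz | hz
      · obtain ⟨i, -, hi⟩ := Finset.mem_biUnion.1 hz
        obtain ⟨b, hb, rfl⟩ := Finset.mem_image.1 hi
        exact h.hS.inv _ _ (h.hB hb)
      · obtain ⟨i, -, hi⟩ := Finset.mem_biUnion.1 hz
        obtain ⟨b, hb, rfl⟩ := Finset.mem_image.1 hi
        exact h.hS.inv _ _ (h.hB hb)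
  have hgB : ∀ i, ∀ b ∈ B₀, g i • b ∈ B := fun i b hb =>
    Finset.mem_union_right _ (Finset.mem_union_left _ (Finset.mem_biUnion.2
      ⟨i, Finset.mem_univ i, Finset.mem_image_of_mem _ hb⟩))
  have hgB' : ∀ i, ∀ b ∈ B₀, g' i • b ∈ B := fun i b hb =>
    Finset.mem_union_right _ (Finset.mem_union_right _ (Finset.mem_biUnion.2
      ⟨i, Finset.mem_univ i, Finset.mem_image_of_mem _ hb⟩))
  have hoB : Op Ω (fx Γ B) := op_fx h.hS hB
  have hoB₁ : Op Ω (fx Γ B₁) := op_fx h.hS hB₁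
  have hBB : fx Γ B ≤ fx Γ B₁ := fx_anti Finset.subset_union_left
  have hVB : V.relIndex (fx Γ B) ≠ 0 := by
    rw [← rr_eq_zero hN hoB hV]
    have h4 := (rr_eq_zero hN hoB₁ hV).2 hfi
    have h5 : rr Ω (fx Γ B) V ≤ rr Ω (fx Γ B₁) V := rr_mono hN hoB hBB hV
    omega
  have hoD : Op Ω (st Γ (fun i => g i • p)) := by
    rw [st_pi]
    exact op_iInf fun i => tp_open hN hZ _
  have hD : (st Γ (fun i => g i • p)).relIndex (fx Γ B) ≠ 0 := by
    rw [← orb_finite_iff]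
    have h4 : ∀ i, (orb (fx Γ B) (g i • p)).Finite := fun i => (hp (g i) B hB (hgB i)).1
    refine (Set.Finite.pi' h4).subset ?_
    rintro _ ⟨k, hk, rfl⟩ i
    exact ⟨k, hk, rfl⟩
  have hself : (fx Γ B).relIndex (fx Γ B) ≠ 0 := by
    rw [Subgroup.relIndex_self]
    exact one_ne_zero
  have hV' : Op Ω (V ⊓ (fx Γ B ⊓ st Γ (fun i => g i • p))) := op_inf hV (op_inf hoB hoD)
  have hle : V ⊓ (fx Γ B ⊓ st Γ (fun i => g i • p)) ≤ fx Γ B := inf_le_right.trans inf_le_left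
  have hfi' : (V ⊓ (fx Γ B ⊓ st Γ (fun i => g i • p))).relIndex (fx Γ B) ≠ 0 :=
    Subgroup.relIndex_inf_ne_zero hVB (Subgroup.relIndex_inf_ne_zero hself hD)
  have hst : ∀ i, V ⊓ (fx Γ B ⊓ st Γ (fun i => g i • p)) ≤ st Γ (g i • p) := fun i k hk =>
    congrFun hk.2.2 i
  have hst' : ∀ i, V ⊓ (fx Γ B ⊓ st Γ (fun i => g i • p)) ≤ st Γ (g' i • p) := fun i => by
    rw [hgp i]
    exact hst i
  obtain ⟨a1, a2, a3⟩ := F1f_half hN h hG hop hp hB hV' hle hfi' g hgB hst h1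
  obtain ⟨b1, b2, b3⟩ := F1f_half hN h hG hop hp hB hV' hle hfi' g' hgB' hst' h2
  simp only [hgp] at b2
  obtain ⟨k, hk, hk1⟩ := conj_of_indep hN hZ hV' (fun i => g i • p) hst a2 b2 a1 a3 b3
  refine ⟨k, hk.1, fun i => ?_⟩
  have h4 : k • g i • ((1 : Γ) : Γ ⧸ Gw) = g' i • ((1 : Γ) : Γ ⧸ Gw) := congrFun hk1 i
  have h5 : (g' i)⁻¹ * k * g i ∈ st Γ ((1 : Γ) : Γ ⧸ Gw) := by
    rw [MulAction.mem_stabilizer_iff, mul_smul, mul_smul, h4, inv_smul_smul]
  rwa [st_coset] at h5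

end Pool.Agent.Lib.ThC

end

section

/-! # F1g: the one step lemma -/

set_option autoImplicit false
open scoped Pointwise

namespace Pool.Agent.Lib.ThC

variable {Ω Γ : Type} [Group Γ] [MulAction Γ Ω]
variable {Z : Type} [MulAction Γ Z]

/-- Rank drop: `rr (fx B₀ ⊓ Gw) Vb = r - 1`: `rr (fx B₀) (Vb ⊓ Gw) = r + 0 = 1 + rr (fx B₀ ⊓ Gw) Vb`, as
`Gw` is algebraic over `fx B₀ ⊓ Ve`, hence over `fx B₀ ⊓ Vb`. -/
theorem os_drop (hN : Nice Ω Γ) {S : Set Z} {B₀ : Finset Z} {Vb Ve Gw : Subgroup Γ}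
    (h : OS Ω Γ S B₀ Vb Ve) (hG : ∀ g, g ∈ Gw ↔ osR Ω (fx Γ B₀) Ve 1 g)
    (hop : Op Ω Gw) {B : Finset Z} (hB : (B : Set Z) ⊆ S) :
    rr Ω (fx Γ B₀ ⊓ Gw) Vb < rr Ω (fx Γ B) Vb := by
  obtain ⟨Gw', hG', hle'⟩ := os_group hN h
  have hGG : Gw' = Gw := by
    ext x
    rw [hG, hG']
  rw [hGG] at hle'
  have hz : Op Ω (fx Γ B₀) := op_fx h.hS h.hB
  have hzb : Op Ω (fx Γ B₀ ⊓ Vb) := op_inf hz h.ob
  have h1 := h.min B hB
  have h2 : rr Ω (fx Γ B₀) Gw = 1 := by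
    have h3 := os_w1 hN h hG 1 h.hB (fun b hb => by rwa [one_smul])
    rwa [cj_one] at h3
  -- `Gw` is algebraic over `fx B₀ ⊓ Vb`
  have h3 : rr Ω (fx Γ B₀ ⊓ Vb) Ve = 0 := (rr_eq_zero hN hzb h.oe).2 h.alg
  have hle2 : fx Γ B₀ ⊓ Vb ⊓ Ve ≤ Gw := (inf_le_inf_right Ve inf_le_left).trans hle'
  have h4 : rr Ω (fx Γ B₀ ⊓ Vb ⊓ Ve) Gw = 0 := by
    rw [rr_eq_zero hN (op_inf hzb h.oe) hop, Subgroup.relIndex_eq_one.2 hle2]
    exact one_ne_zero
  have h5 := rr_inf hN hzb hop h.oe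
  have h6 : rr Ω (fx Γ B₀ ⊓ Vb) Gw ≤ rr Ω (fx Γ B₀ ⊓ Vb) (Gw ⊓ Ve) :=
    rr_anti hN hzb (op_inf hop h.oe) inf_le_left
  have h7 := rr_inf hN hz hop h.ob
  have h8 := rr_inf hN hz h.ob hop
  rw [inf_comm Vb Gw] at h8
  omega

/-- The one step lemma.  Choose `B₀` with `rr (fx B₀) Vb ≥ 1` minimal, `Ve` from `rr_coord`,
`Gw` from `os_group`, `p` from `os_type`, `Gc = st p`.  `Gw` has infinite index in
`Gc`: `Gc` contains `fx B₀ ⊓ st p`, of finite index in `fx B₀`, in which `Gw` has infinite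
index (rank one). -/
theorem one_step (hN : Nice Ω Γ) {S : Set Z} (hS : SInv Ω Γ S) {Vb : Subgroup Γ}
    (hVb : Op Ω Vb) (hb : ∀ B : Finset Z, (B : Set Z) ⊆ S → rr Ω (fx Γ B) Vb ≠ 0) :
    ∃ (Gw Gc : Subgroup Γ) (B₀ : Finset Z), (B₀ : Set Z) ⊆ S ∧ Op Ω Gw ∧ Gw ≤ Gc ∧
      Gw.relIndex Gc = 0 ∧ Gc.relIndex (fx Γ B₀) ≠ 0 ∧
      (∀ B : Finset Z, (B : Set Z) ⊆ S → rr Ω (fx Γ B₀ ⊓ Gw) Vb < rr Ω (fx Γ B) Vb) ∧
      ∀ V : Subgroup Γ, Op Ω V →
        (∃ B : Finset Z, (B : Set Z) ⊆ S ∧ V.relIndex (fx Γ B) ≠ 0) →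
        ∀ (n : ℕ) (g g' : Fin n → Γ), (∀ i j, i ≠ j → (g i)⁻¹ * g j ∉ Gw) →
          (∀ i j, i ≠ j → (g' i)⁻¹ * g' j ∉ Gw) → (∀ i, (g i)⁻¹ * g' i ∈ Gc) →
          ∃ k ∈ V, ∀ i, (g' i)⁻¹ * k * g i ∈ Gw := by
  classical
  have hex : ∃ r, ∃ B : Finset Z, (B : Set Z) ⊆ S ∧ rr Ω (fx Γ B) Vb = r :=
    ⟨_, ∅, by simp, rfl⟩
  obtain ⟨B₀, hB₀, hr⟩ := Nat.find_spec hex
  have hmin : ∀ B : Finset Z, (B : Set Z) ⊆ S → rr Ω (fx Γ B₀) Vb ≤ rr Ω (fx Γ B) Vb := by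
    intro B hB
    rw [hr]
    exact Nat.find_min' hex ⟨B, hB, rfl⟩
  have hz : Op Ω (fx Γ B₀) := op_fx hS hB₀
  obtain ⟨Ve, hVe, hVe1, hVe2⟩ := rr_coord hN hz hVb (Nat.one_le_iff_ne_zero.2 (hb B₀ hB₀))
  have hOS : OS Ω Γ S B₀ Vb Ve := ⟨hS, hB₀, hVb, hVe, hmin, hVe1, hVe2⟩
  obtain ⟨Gw, hG, hle⟩ := os_group hN hOS
  have hop : Op Ω Gw := op_mono (op_inf hz hVe) hle
  obtain ⟨p, hp1, hp⟩ := os_type hN hOS hG hop
  have hZ : Srt Ω Γ (Γ ⧸ Gw) := srt_coset hop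
  have hop' : Op Ω (st Γ p) := tp_open hN hZ p
  have hpf : (st Γ p).relIndex (fx Γ B₀) ≠ 0 := by
    have h1 := (hp 1 B₀ hB₀ (fun b hb => by rwa [one_smul])).1
    rwa [one_smul, orb_finite_iff] at h1
  refine ⟨Gw, st Γ p, B₀, hB₀, hop, hp1, ?_, hpf, fun B hB => os_drop hN hOS hG hop hB, ?_⟩
  · by_contra hcon
    have h1 : rr Ω (st Γ p) Gw = 0 := (rr_eq_zero hN hop' hop).2 hcon
    have hoU : Op Ω (fx Γ B₀ ⊓ st Γ p) := op_inf hz hop'
    have h2 : rr Ω (fx Γ B₀ ⊓ st Γ p) Gw ≤ rr Ω (st Γ p) Gw :=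
      rr_mono hN hoU inf_le_right hop
    have h3 : rr Ω (fx Γ B₀ ⊓ st Γ p) Gw = rr Ω (fx Γ B₀) Gw :=
      rr_fi hN hoU inf_le_left (by rw [Subgroup.inf_relIndex_left]; exact hpf) hop
    have h4 := os_w1 hN hOS hG 1 hB₀ (fun b hb => by rwa [one_smul])
    rw [cj_one] at h4
    omega
  · rintro V hV ⟨B₁, hB₁, hfi⟩ n g g' h1 h2 h3
    exact os_conj hN hOS hG hop hp hV hB₁ hfi g g' h1 h2 h3

end Pool.Agent.Lib.ThC

end

section

/-! # F2a: devissage -/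

set_option autoImplicit false
open scoped Pointwise

namespace Pool.Agent.Lib.ThC

variable {Ω Γ : Type} [Group Γ] [MulAction Γ Ω]
variable {Z : Type} [MulAction Γ Z]

/-- the pointwise stabiliser of finitely many algebraic points has finite index. -/
private theorem F2a_fi {X : Type} [MulAction Γ X] {U : Subgroup Γ} (A : Finset X)
    (h : ∀ a ∈ A, (orb U a).Finite) : (fx Γ A).relIndex U ≠ 0 := by
  classical
  induction A using Finset.induction_on with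
  | empty =>
    have e : fx Γ (∅ : Finset X) = ⊤ := by
      ext x
      rw [mem_fixingSubgroup_iff]
      simp
    rw [e, Subgroup.relIndex_top_left]
    exact one_ne_zero
  | insert a A _ ih =>
    have e : fx Γ (insert a A) = st Γ a ⊓ fx Γ A := by
      ext x
      rw [Subgroup.mem_inf, mem_fixingSubgroup_iff, mem_fixingSubgroup_iff,
        MulAction.mem_stabilizer_iff]
      simp
    rw [e]
    exact Subgroup.relIndex_inf_ne_zero
      ((orb_finite_iff U a).1 (h a (Finset.mem_insert_self a A)))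
      (ih fun b hb => h b (Finset.mem_insert_of_mem hb))

/-- In a rich `Γ`-set the one step lemma provides an algebraic step followed by a free step.
Take `Gw, Gc, B₀` from `one_step` and `w, c : Z` with `st w = Gw`, `st c = Gc`.  `c` is algebraic
over `fx B₀`.  Freeness over `S ∪ Γ c`: let `B ⊆ S ∪ Γ c` be finite; `V = fx B` is
`fx B_S ⊓ ⨅ st (h_j • c)`, and `st (h_j • c)` has finite index in `fx (h_j B₀)`, so `V` has
finite index in `fx (B_S ∪ ⋃ h_j B₀)` in the sense of `relIndex ≠ 0`. -/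
theorem one_step_free (hN : Nice Ω Γ) (rich : ∀ V : Subgroup Γ, Op Ω V → ∃ z : Z, st Γ z = V)
    {S : Set Z} (hS : SInv Ω Γ S) {Vb : Subgroup Γ}
    (hVb : Op Ω Vb) (hb : ∀ B : Finset Z, (B : Set Z) ⊆ S → rr Ω (fx Γ B) Vb ≠ 0) :
    ∃ (w c : Z) (B₀ : Finset Z), (B₀ : Set Z) ⊆ S ∧ Op Ω (st Γ c) ∧
      (orb (fx Γ B₀) c).Finite ∧ FreeStep Ω Γ (S ∪ MulAction.orbit Γ c) w c ∧
      ∀ B : Finset Z, (B : Set Z) ⊆ S → rr Ω (fx Γ B₀ ⊓ st Γ w) Vb < rr Ω (fx Γ B) Vb := by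
  classical
  obtain ⟨Gw, Gc, B₀, hB₀, hop, hle, hinf, hfi, hdrop, hconj⟩ := one_step hN hS hVb hb
  have hopc : Op Ω Gc := op_mono hop hle
  obtain ⟨w, hw⟩ := rich Gw hop
  obtain ⟨c, hc⟩ := rich Gc hopc
  have hcf : (orb (fx Γ B₀) c).Finite := by rw [orb_finite_iff, hc]; exact hfi
  refine ⟨w, c, B₀, hB₀, by rw [hc]; exact hopc, hcf, ?_, by rw [hw]; exact hdrop⟩
  refine ⟨Or.inr (MulAction.mem_orbit_self c), by rw [hw]; exact hop, by rw [hw, hc]; exact hle,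
    by rw [hw, hc]; exact hinf, ?_⟩
  intro B hB n g g' hg hg' hgg
  -- every element of `B` is algebraic over a finite subset of `S`
  have hone : ∀ b ∈ B, ∃ B' : Finset Z, (B' : Set Z) ⊆ S ∧ (orb (fx Γ B') b).Finite := by
    intro b hb
    rcases hB hb with hbS | ⟨k, hk⟩
    · refine ⟨{b}, by simpa using hbS, (Set.finite_singleton b).subset ?_⟩
      rintro _ ⟨x, hx, rfl⟩
      rw [mem_fixingSubgroup_iff] at hx
      exact hx b (by simp)
    · have hk' : k • c = b := hk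
      refine ⟨B₀.image (fun z => k • z), ?_, ?_⟩
      · intro z hz
        rw [Finset.mem_coe] at hz
        obtain ⟨y, hy, rfl⟩ := Finset.mem_image.1 hz
        exact hS.inv _ _ (hB₀ hy)
      · rw [← cj_fx, ← hk', ← smul_orb]
        exact hcf.smul_set
  choose! f hf1 hf2 using hone
  have hB' : ((B.biUnion f : Finset Z) : Set Z) ⊆ S := by
    intro z hz
    rw [Finset.mem_coe] at hz
    obtain ⟨b, hb, hz'⟩ := Finset.mem_biUnion.1 hz
    exact hf1 b hb hz'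
  have hfiB : (fx Γ B).relIndex (fx Γ (B.biUnion f)) ≠ 0 := F2a_fi B fun b hb =>
    orb_finite_of_le (fx_anti (Finset.subset_biUnion_of_mem f hb)) (hf2 b hb)
  have hopB : Op Ω (fx Γ B) := by
    have hSI : SInv Ω Γ (S ∪ MulAction.orbit Γ c) :=
      sinv_union hS (sfin_orbit (by rw [hc]; exact hopc)).toSInv
    exact op_fx hSI hB
  obtain ⟨k, hk, hk1⟩ := hconj (fx Γ B) hopB ⟨B.biUnion f, hB', hfiB⟩ n g g'
    (fun i j hij hm => hij (hg (by
      rw [← hw, MulAction.mem_stabilizer_iff, mul_smul, inv_smul_eq_iff] at hm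
      exact hm.symm)))
    (fun i j hij hm => hij (hg' (by
      rw [← hw, MulAction.mem_stabilizer_iff, mul_smul, inv_smul_eq_iff] at hm
      exact hm.symm)))
    (fun i => by
      rw [← hc, MulAction.mem_stabilizer_iff, mul_smul, inv_smul_eq_iff]
      exact (hgg i).symm)
  refine ⟨k, fun b hb => ?_, fun i => ?_⟩
  · rw [mem_fixingSubgroup_iff] at hk
    exact hk b hb
  · have h1 := hk1 i
    rw [← hw, MulAction.mem_stabilizer_iff, mul_smul, mul_smul, inv_smul_eq_iff] at h1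
    exact h1

/-- the measure `∑_{b ∈ F} min_B rr (fx B) (st b)`. -/
noncomputable def msr (Ω Γ : Type) [Group Γ] [MulAction Γ Ω] {Z : Type} [MulAction Γ Z]
    (F : Finset Ω) (S : Set Z) : ℕ :=
  ∑ b ∈ F, sInf {r : ℕ | ∃ B : Finset Z, (B : Set Z) ⊆ S ∧ r = rr Ω (fx Γ B) (st Γ b)}

end Pool.Agent.Lib.ThC

end

section

/-! # F2b: devissage -/

set_option autoImplicit false
open scoped Pointwise

namespace Pool.Agent.Lib.ThC

variable {Ω Γ : Type} [Group Γ] [MulAction Γ Ω]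
variable {Z : Type} [MulAction Γ Z]

/-- the pointwise stabiliser of finitely many algebraic points has finite index. -/
private theorem F2b_fi {X : Type} [MulAction Γ X] {U : Subgroup Γ} (A : Finset X)
    (h : ∀ a ∈ A, (orb U a).Finite) : (fx Γ A).relIndex U ≠ 0 := by
  classical
  induction A using Finset.induction_on with
  | empty =>
    have e : fx Γ (∅ : Finset X) = ⊤ := by
      ext x
      rw [mem_fixingSubgroup_iff]
      simp
    rw [e, Subgroup.relIndex_top_left]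
    exact one_ne_zero
  | insert a A _ ih =>
    have e : fx Γ (insert a A) = st Γ a ⊓ fx Γ A := by
      ext x
      rw [Subgroup.mem_inf, mem_fixingSubgroup_iff, mem_fixingSubgroup_iff,
        MulAction.mem_stabilizer_iff]
      simp
    rw [e]
    exact Subgroup.relIndex_inf_ne_zero
      ((orb_finite_iff U a).1 (h a (Finset.mem_insert_self a A)))
      (ih fun b hb => h b (Finset.mem_insert_of_mem hb))

/-- If the measure is zero, everything in `Ω` is algebraic over `S`, hence so is every element with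
open stabiliser. -/
theorem msr_zero (hN : Nice Ω Γ) {S : Set Z} (hS : SInv Ω Γ S) {F : Finset Ω}
    (hF : ∀ a : Ω, ∃ b ∈ F, ∃ g : Γ, g • b = a) (h : msr Ω Γ F S = 0) (y : Z)
    (hy : Op Ω (st Γ y)) : ∃ B : Finset Z, (B : Set Z) ⊆ S ∧ (orb (fx Γ B) y).Finite := by
  classical
  have h1 : ∀ b ∈ F, ∃ B : Finset Z, (B : Set Z) ⊆ S ∧ (orb (fx Γ B) b).Finite := by
    intro b hb
    have h2 : sInf {r : ℕ | ∃ B : Finset Z, (B : Set Z) ⊆ S ∧
        r = rr Ω (fx Γ B) (st Γ b)} = 0 := by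
      have h3 := (Finset.sum_eq_zero_iff.1 h) b hb
      exact h3
    have hne : {r : ℕ | ∃ B : Finset Z, (B : Set Z) ⊆ S ∧
        r = rr Ω (fx Γ B) (st Γ b)}.Nonempty := ⟨_, ∅, by simp, rfl⟩
    obtain ⟨B, hB, hB1⟩ := Nat.sInf_mem hne
    rw [h2] at hB1
    refine ⟨B, hB, ?_⟩
    rw [orb_finite_iff, ← rr_eq_zero hN (op_fx hS hB) ((srt_self hN).sm b)]
    exact hB1.symm
  have h2 : ∀ a : Ω, ∃ B : Finset Z, (B : Set Z) ⊆ S ∧ (orb (fx Γ B) a).Finite := by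
    intro a
    obtain ⟨b, hb, g, rfl⟩ := hF a
    obtain ⟨B, hB, hB1⟩ := h1 b hb
    refine ⟨B.image (fun z => g • z), ?_, ?_⟩
    · intro z hz
      rw [Finset.mem_coe] at hz
      obtain ⟨x, hx, rfl⟩ := Finset.mem_image.1 hz
      exact hS.inv _ _ (hB hx)
    · rw [← cj_fx, ← smul_orb]
      exact hB1.smul_set
  choose f hf1 hf2 using h2
  obtain ⟨A, hA⟩ := hy
  refine ⟨A.biUnion f, ?_, ?_⟩
  · intro z hz
    rw [Finset.mem_coe] at hz
    obtain ⟨a, -, hz'⟩ := Finset.mem_biUnion.1 hz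
    exact hf1 a hz'
  · have h3 : (fx Γ A).relIndex (fx Γ (A.biUnion f)) ≠ 0 := F2b_fi A fun a ha =>
      orb_finite_of_le (fx_anti (Finset.subset_biUnion_of_mem f ha)) (hf2 a)
    have h4 : fx Γ A ≤ st Γ y := fun g hg => hA g fun a ha => by
      rw [mem_fixingSubgroup_iff] at hg
      exact hg a ha
    rw [orb_finite_iff]
    intro h5
    have h6 := Subgroup.relIndex_dvd_of_le_left (fx Γ (A.biUnion f)) h4
    rw [h5, zero_dvd_iff] at h6
    exact h3 h6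

end Pool.Agent.Lib.ThC

end

section

/-! # F2c: devissage -/

set_option autoImplicit false
open scoped Pointwise

namespace Pool.Agent.Lib.ThC

variable {Ω Γ : Type} [Group Γ] [MulAction Γ Ω]
variable {Z : Type} [MulAction Γ Z]

/-- the measure zero case: add the orbits of `T` one by one. -/
private theorem F2c_zero (hN : Nice Ω Γ) (P : Set Z → Prop)
    (hAlg : ∀ S : Set Z, SFin Ω Γ S → P S → ∀ y : Z, Op Ω (st Γ y) →
      (∃ B : Finset Z, (B : Set Z) ⊆ S ∧ (orb (fx Γ B) y).Finite) →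
      P (S ∪ MulAction.orbit Γ y))
    (T : Set Z) (hT : SFin Ω Γ T) {S : Set Z} (hS : SFin Ω Γ S) (hP : P S) {F : Finset Ω}
    (hF : ∀ a : Ω, ∃ b ∈ F, ∃ g : Γ, g • b = a) (h : msr Ω Γ F S = 0) :
    ∃ S' : Set Z, SFin Ω Γ S' ∧ P S' ∧ T ⊆ S' := by
  classical
  obtain ⟨F', hF'1, hF'2⟩ := hT.fo
  have key : ∀ G : Finset Z, G ⊆ F' → ∃ S' : Set Z, SFin Ω Γ S' ∧ P S' ∧ S ⊆ S' ∧
      ∀ f ∈ G, f ∈ S' := by
    intro G
    induction G using Finset.induction_on with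
    | empty => exact fun _ => ⟨S, hS, hP, le_rfl, fun f hf => by simp at hf⟩
    | insert y G _ ih =>
      intro hG
      obtain ⟨S', h1, h2, h3, h4⟩ := ih fun z hz => hG (Finset.mem_insert_of_mem hz)
      have hy : Op Ω (st Γ y) := hT.sm y (hF'1 y (hG (Finset.mem_insert_self y G)))
      obtain ⟨B, hB, hBy⟩ := msr_zero hN hS.toSInv hF h y hy
      refine ⟨S' ∪ MulAction.orbit Γ y, sfin_union h1 (sfin_orbit hy),
        hAlg S' h1 h2 y hy ⟨B, hB.trans h3, hBy⟩, h3.trans Set.subset_union_left, ?_⟩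
      intro f hf
      rcases Finset.mem_insert.1 hf with rfl | hf
      · exact Or.inr (MulAction.mem_orbit_self f)
      · exact Or.inl (h4 f hf)
  obtain ⟨S', h1, h2, -, h4⟩ := key F' (Finset.Subset.refl F')
  refine ⟨S', h1, h2, fun t ht => ?_⟩
  obtain ⟨f, hf, g, rfl⟩ := hF'2 t ht
  exact h1.inv g f (h4 f hf)

/-- Devissage.  Strong induction on `msr Ω Γ F S` for all `S` with `SFin` and `P S`.  If it is zero
add the finitely many orbits of `T` by `hAlg` (`msr_zero`).  Otherwise some `b ∈ F` has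
`rr (fx B) (st b) ≠ 0` for all `B`; `one_step_free` gives `c, w`;
`S' = (S ∪ Γ c) ∪ Γ w` has smaller measure. -/
theorem devissage (hN : Nice Ω Γ) (rich : ∀ V : Subgroup Γ, Op Ω V → ∃ z : Z, st Γ z = V)
    (P : Set Z → Prop) (h0 : P ∅)
    (hAlg : ∀ S : Set Z, SFin Ω Γ S → P S → ∀ y : Z, Op Ω (st Γ y) →
      (∃ B : Finset Z, (B : Set Z) ⊆ S ∧ (orb (fx Γ B) y).Finite) →
      P (S ∪ MulAction.orbit Γ y))
    (hFree : ∀ S : Set Z, SFin Ω Γ S → P S → ∀ w c : Z, FreeStep Ω Γ S w c →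
      P (S ∪ MulAction.orbit Γ w))
    (T : Set Z) (hT : SFin Ω Γ T) : ∃ S : Set Z, SFin Ω Γ S ∧ P S ∧ T ⊆ S := by
  classical
  obtain ⟨F, hF⟩ := (srt_self (Ω := Ω) (Γ := Γ) hN).fo
  have key : ∀ (n : ℕ) (S : Set Z), msr Ω Γ F S = n → SFin Ω Γ S → P S →
      ∃ S' : Set Z, SFin Ω Γ S' ∧ P S' ∧ T ⊆ S' := by
    intro n
    induction n using Nat.strong_induction_on with
    | _ n ih =>
      intro S hn hS hP
      by_cases h : msr Ω Γ F S = 0
      · exact F2c_zero hN P hAlg T hT hS hP hF h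
      -- some element of `F` has a positive rank
      obtain ⟨b, hb, hb1⟩ : ∃ b ∈ F,
          sInf {r : ℕ | ∃ B : Finset Z, (B : Set Z) ⊆ S ∧ r = rr Ω (fx Γ B) (st Γ b)} ≠ 0 := by
        by_contra hcon
        push Not at hcon
        exact h (Finset.sum_eq_zero hcon)
      have hle : ∀ B : Finset Z, (B : Set Z) ⊆ S →
          sInf {r : ℕ | ∃ B : Finset Z, (B : Set Z) ⊆ S ∧ r = rr Ω (fx Γ B) (st Γ b)} ≤
            rr Ω (fx Γ B) (st Γ b) := fun B hB => Nat.sInf_le ⟨B, hB, rfl⟩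
      obtain ⟨w, c, B₀, hB₀, hc, hfin, hfree, hlt⟩ := one_step_free hN rich hS.toSInv
        (Vb := st Γ b) ((srt_self hN).sm b) fun B hB h0 => hb1 (by have := hle B hB; omega)
      have hS1 : SFin Ω Γ (S ∪ MulAction.orbit Γ c) := sfin_union hS (sfin_orbit hc)
      have hP1 : P (S ∪ MulAction.orbit Γ c) := hAlg S hS hP c hc ⟨B₀, hB₀, hfin⟩
      have hS2 : SFin Ω Γ (S ∪ MulAction.orbit Γ c ∪ MulAction.orbit Γ w) :=
        sfin_union hS1 (sfin_orbit hfree.hw)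
      have hP2 : P (S ∪ MulAction.orbit Γ c ∪ MulAction.orbit Γ w) :=
        hFree _ hS1 hP1 w c hfree
      have hSS : S ⊆ S ∪ MulAction.orbit Γ c ∪ MulAction.orbit Γ w :=
        Set.subset_union_left.trans Set.subset_union_left
      refine ih _ ?_ _ rfl hS2 hP2
      rw [← hn]
      refine Finset.sum_lt_sum (fun b' _ => ?_) ⟨b, hb, ?_⟩
      · have hne : {r : ℕ | ∃ B : Finset Z, (B : Set Z) ⊆ S ∧
            r = rr Ω (fx Γ B) (st Γ b')}.Nonempty := ⟨_, ∅, by simp, rfl⟩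
        obtain ⟨B, hB, hB1⟩ := Nat.sInf_mem hne
        rw [hB1]
        exact Nat.sInf_le ⟨B, hB.trans hSS, rfl⟩
      · have hne : {r : ℕ | ∃ B : Finset Z, (B : Set Z) ⊆ S ∧
            r = rr Ω (fx Γ B) (st Γ b)}.Nonempty := ⟨_, ∅, by simp, rfl⟩
        obtain ⟨B, hB, hB1⟩ := Nat.sInf_mem hne
        rw [hB1]
        refine lt_of_le_of_lt (Nat.sInf_le ⟨B₀ ∪ {w}, ?_, rfl⟩) ?_
        · intro z hz
          rw [Finset.mem_coe] at hz
          rcases Finset.mem_union.1 hz with hz | hz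
          · exact hSS (hB₀ hz)
          · rw [Finset.mem_singleton.1 hz]
            exact Or.inr (MulAction.mem_orbit_self w)
        · have e : fx Γ (B₀ ∪ {w}) = fx Γ B₀ ⊓ st Γ w := by
            rw [fx_union]
            congr 1
            ext x
            rw [mem_fixingSubgroup_iff, MulAction.mem_stabilizer_iff]
            simp
          rw [e]
          exact hlt B hB
  exact key _ ∅ rfl sfin_empty h0

end Pool.Agent.Lib.ThC

end
end

section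

section

/-! # G6d1: THEOREM FL -/

set_option autoImplicit false
open scoped Pointwise

namespace Pool.Agent.Lib.ThC.GL

variable {Ω Γ : Type} [Group Γ] [MulAction Γ Ω] {p : ℕ} [Fact p.Prime]
variable {Z Y : Type} [MulAction Γ Z] [MulAction Γ Y]

/-- a rich `Γ`-set: the disjoint union of all `Γ ⧸ V`, `V` open. -/
theorem exists_rich (Ω Γ : Type) [Group Γ] [MulAction Γ Ω] :
    ∃ (Z : Type) (_ : MulAction Γ Z), ∀ V : Subgroup Γ, Op Ω V → ∃ z : Z, st Γ z = V := by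
  refine ⟨Σ V : Subgroup Γ, Γ ⧸ V, inferInstance, fun V _ => ⟨⟨V, ((1 : Γ) : Γ ⧸ V)⟩, ?_⟩⟩
  ext g
  have h : g ∈ st Γ ((1 : Γ) : Γ ⧸ V) ↔ g ∈ V := by rw [st_coset]
  rw [← h, MulAction.mem_stabilizer_iff, MulAction.mem_stabilizer_iff, Sigma.smul_mk]
  constructor
  · intro hh
    simpa using hh
  · intro hh
    rw [hh]

/-- THEOREM FL.  `devissage` in a rich `Γ`-set `Z` for `P S = FLS Ω Γ p (fixingSubgroup Γ S)`
(`fls_empty`, `fls_alg`, `fls_free`) and `T` = the union of the orbits of points `z_a` with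
`st Γ z_a = st Γ a`, `a` in a finite set of representatives of the orbits of `Ω`.  Then
`fixingSubgroup Γ S` fixes `Ω` pointwise, so it acts trivially on every sort. -/
theorem flen_sort [Countable Ω] (hN : Nice Ω Γ) (hC : Cpl Ω Γ) (hY : Srt Ω Γ Y)
    {U : Subgroup Γ} (hU : Op Ω U) : FLen U (⊥ : AddSubgroup (PM p Y)) ⊤ := by
  classical
  obtain ⟨Z, instZ, rich⟩ := exists_rich Ω Γ
  letI : MulAction Γ Z := instZ
  have hΩ : Srt Ω Γ Ω := srt_self hN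
  obtain ⟨F, hF⟩ := hΩ.fo
  have hz : ∀ a : Ω, ∃ z : Z, st Γ z = st Γ a := fun a => rich _ (hΩ.sm a)
  choose z hz using hz
  have hzo : ∀ a : Ω, Op Ω (st Γ (z a)) := fun a => by
    rw [hz a]; exact hΩ.sm a
  have hT : ∀ F : Finset Ω, SFin Ω Γ (⋃ a ∈ F, MulAction.orbit Γ (z a)) := by
    intro F
    induction F using Finset.induction_on with
    | empty =>
      have h0 : (⋃ a ∈ (∅ : Finset Ω), MulAction.orbit Γ (z a)) = (∅ : Set Z) := by simp
      rw [h0]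
      exact sfin_empty
    | insert a F _ ih =>
      have h1 : (⋃ b ∈ insert a F, MulAction.orbit Γ (z b))
          = MulAction.orbit Γ (z a) ∪ ⋃ b ∈ F, MulAction.orbit Γ (z b) := by
        rw [Finset.set_biUnion_insert]
      rw [h1]
      exact sfin_union (sfin_orbit (hzo a)) ih
  obtain ⟨S, hS, hP, hTS⟩ := devissage hN rich (fun S => FLS Ω Γ p (fixingSubgroup Γ S)) fls_empty
    (fun S hS hP y hy hB => fls_alg hN hC hS hP y hy hB)
    (fun S hS hP w c hW => fls_free hN hC hS hP hW) _ (hT F)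
  refine hP Y hY ?_ U hU
  intro g hg y
  have hfix : ∀ b : Ω, g • b = b := by
    intro b
    obtain ⟨a, ha, k, rfl⟩ := hF b
    have h1 : k • z a ∈ S :=
      hTS (Set.mem_iUnion₂.2 ⟨a, ha, MulAction.mem_orbit _ _⟩)
    have h2 : g • (k • z a) = k • z a := (mem_fixingSubgroup_iff Γ).1 hg _ h1
    have h3 : g ∈ st Γ (k • z a) := h2
    rw [st_smul, hz, ← st_smul] at h3
    exact h3
  obtain ⟨A, hA⟩ := hY.sm y
  exact hA g (fun a _ => hfix a)

end Pool.Agent.Lib.ThC.GL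

end

section

/-! # G6d2: THEOREM FL for finite unions of orbits -/

set_option autoImplicit false
open scoped Pointwise

namespace Pool.Agent.Lib.ThC.GL

variable {Ω Γ : Type} [Group Γ] [MulAction Γ Ω] {p : ℕ} [Fact p.Prime]
variable {Z Y : Type} [MulAction Γ Z] [MulAction Γ Y]

/-- the same for a union `X` of finitely many orbits: `FLen.image` for the inclusion of the sort
`↥X`. -/
theorem flen_pms [Countable Ω] (hN : Nice Ω Γ) (hC : Cpl Ω Γ) {X : Set Z}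
    (hX : SFin Ω Γ X) {U : Subgroup Γ} (hU : Op Ω U) :
    FLen U (⊥ : AddSubgroup (PM p Z)) (PMS p X) := by
  letI act : MulAction Γ ↥X :=
    { smul := fun g x => ⟨g • x.1, hX.inv g x.1 x.2⟩
      one_smul := fun x => Subtype.ext (one_smul Γ x.1)
      mul_smul := fun g h x => Subtype.ext (mul_smul g h x.1) }
  have hval : ∀ (g : Γ) (x : ↥X), (g • x).1 = g • x.1 := fun g x => rfl
  have hS : Srt Ω Γ ↥X := by
    refine ⟨fun x => ?_, ?_⟩
    · refine op_mono (hX.sm x.1 x.2) fun g hg => ?_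
      rw [MulAction.mem_stabilizer_iff] at hg ⊢
      exact Subtype.ext hg
    · obtain ⟨F, hF1, hF2⟩ := hX.fo
      classical
      refine ⟨F.attach.image (fun f => (⟨f.1, hF1 f.1 f.2⟩ : ↥X)), fun z => ?_⟩
      obtain ⟨f, hf, g, hg⟩ := hF2 z.1 z.2
      refine ⟨⟨f, hF1 f hf⟩, ?_, g, Subtype.ext hg⟩
      exact Finset.mem_image.mpr ⟨⟨f, hf⟩, Finset.mem_attach _ _, rfl⟩
  have h1 : FLen U (⊥ : AddSubgroup (PM p ↥X)) ⊤ := flen_sort hN hC hS hU
  haveI : NeZero p := ⟨(Fact.out : p.Prime).ne_zero⟩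
  have h2 := FLen.image (K := U) (mapPM p (Subtype.val : ↥X → Z)) (inv_top (K := U))
    (fun g _ m _ => by
      have hm : m ∈ PMS p (Set.univ : Set ↥X) := by
        rw [pms_univ]; exact AddSubgroup.mem_top m
      exact mapPM_smul (fun y _ => hval g y) hm) h1
  have h3 : (⊤ : AddSubgroup (PM p ↥X)).map (mapPM p (Subtype.val : ↥X → Z)) = PMS p X := by
    rw [← pms_univ, pms_map, Set.image_univ, Subtype.range_coe]
  rwa [h3] at h2

end Pool.Agent.Lib.ThC.GL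

end

section

/-! # G6e1: finitely many invariant subgroups -/

set_option autoImplicit false
open scoped Pointwise

namespace Pool.Agent.Lib.ThC.GL
variable {Ω Γ : Type} [Group Γ] [MulAction Γ Ω] {p : ℕ} [Fact p.Prime]
variable {Z : Type} [MulAction Γ Z]

private def G6e1_sub {X : Set Z} (hX : SFin Ω Γ X) : SubMulAction Γ Z where
  carrier := X
  smul_mem' := fun g s hs => hX.inv g s hs

private theorem G6e1_srt {X : Set Z} (hX : SFin Ω Γ X) :
    Srt Ω Γ (G6e1_sub hX) := by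
  classical
  constructor
  · intro z
    refine op_mono (hX.sm z.1 z.2) fun g hg => ?_
    rw [MulAction.mem_stabilizer_iff] at hg ⊢
    exact Subtype.ext hg
  · obtain ⟨F, hF, hF'⟩ := hX.fo
    refine ⟨F.attach.image fun f => ⟨f.1, hF f.1 f.2⟩, fun z => ?_⟩
    obtain ⟨f, hf, g, hg⟩ := hF' z.1 z.2
    exact ⟨⟨f, hF f hf⟩, Finset.mem_image.2 ⟨⟨f, hf⟩, Finset.mem_attach _ _, rfl⟩, g,
      Subtype.ext hg⟩

/-- `finSub` for the module `PM p ↥X` (the inclusion `↥X → Z` identifies it with `PMS p X`), or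
repeat the argument of `finSub` inside `PMS p X`. -/
theorem gl_finite [Countable Ω] (hN : Nice Ω Γ) (hC : Cpl Ω Γ)
    {X : Set Z} (hX : SFin Ω Γ X) :
    {M : AddSubgroup (PM p Z) | M ≤ PMS p X ∧ InvA (⊤ : Subgroup Γ) M}.Finite := by
  have hS := G6e1_srt hX
  have hp : 0 < p := (Fact.out : p.Prime).pos
  have hfin : {M' : AddSubgroup (PM p (G6e1_sub hX)) | InvA (⊤ : Subgroup Γ) M'}.Finite :=
    finSub (Ω := Ω) hp (fun a => pm_p a) (K := ⊤) op_top (fun a => op_st_pm hS.sm a)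
      (fun U hU => flen_sort hN hC hS hU)
  set φ : PM p (G6e1_sub hX) →+ PM p Z := mapPM p (fun x : G6e1_sub hX => (x : Z)) with hφ
  have hrange : PMS p X ≤ φ.range := by
    have h1 := pms_map (p := p) (fun x : G6e1_sub hX => (x : Z)) Set.univ
    have h2 : (fun x : G6e1_sub hX => (x : Z)) '' Set.univ = X := by
      ext z
      constructor
      · rintro ⟨x, _, rfl⟩
        exact x.2
      · intro hz
        exact ⟨⟨z, hz⟩, Set.mem_univ _, rfl⟩
    rw [h2] at h1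
    rw [← h1]
    rintro x ⟨y, _, rfl⟩
    exact ⟨y, rfl⟩
  refine (hfin.image (fun M' => M'.map φ)).subset ?_
  rintro M ⟨hM, hMi⟩
  refine ⟨M.comap φ, ?_, AddSubgroup.map_comap_eq_self (hM.trans hrange)⟩
  intro g _ m hm
  rw [AddSubgroup.mem_comap] at hm ⊢
  have h3 : φ (g • m) = g • φ m :=
    mapPM_smul (θ := fun x : G6e1_sub hX => (x : Z)) (X := Set.univ) (fun y _ => rfl)
      (by rw [pms_univ]; exact AddSubgroup.mem_top m)
  rw [h3]
  exact hMi g (Subgroup.mem_top g) _ hm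

end Pool.Agent.Lib.ThC.GL

end

section

/-! # G6e2: finite generation, finite orbits -/

set_option autoImplicit false
open scoped Pointwise

namespace Pool.Agent.Lib.ThC.GL
variable {Ω Γ : Type} [Group Γ] [MulAction Γ Ω] {p : ℕ} [Fact p.Prime]
variable {Z : Type} [MulAction Γ Z]

private noncomputable def G6e2_gen (F : Finset (PM p Z)) : AddSubgroup (PM p Z) :=
  AddSubgroup.closure {x | ∃ g : Γ, ∃ f ∈ F, g • f = x}

omit [Fact p.Prime] in
private theorem G6e2_gen_inv (F : Finset (PM p Z)) :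
    InvA (⊤ : Subgroup Γ) (G6e2_gen (Γ := Γ) F) := by
  refine inv_closure ?_
  rintro g _ x ⟨g', f, hf, rfl⟩
  exact AddSubgroup.subset_closure ⟨g * g', f, hf, mul_smul _ _ _⟩

omit [Fact p.Prime] in
private theorem G6e2_gen_le {F : Finset (PM p Z)} {M' : AddSubgroup (PM p Z)}
    (hi : InvA (⊤ : Subgroup Γ) M') (hF : ∀ f ∈ F, f ∈ M') : G6e2_gen (Γ := Γ) F ≤ M' := by
  refine (AddSubgroup.closure_le _).2 ?_
  rintro x ⟨g, f, hf, rfl⟩
  exact hi g (Subgroup.mem_top g) f (hF f hf)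

omit [Fact p.Prime] in
private theorem G6e2_mem_gen {F : Finset (PM p Z)} {f : PM p Z} (hf : f ∈ F) :
    f ∈ G6e2_gen (Γ := Γ) F :=
  AddSubgroup.subset_closure ⟨1, f, hf, one_smul _ _⟩

/-- among the invariant subgroups of `M` generated by finite subsets of `M` take one with `h`
maximal. -/
theorem gl_gen [Countable Ω] (hN : Nice Ω Γ) (hC : Cpl Ω Γ)
    {X : Set Z} (hX : SFin Ω Γ X) {M : AddSubgroup (PM p Z)} (hM : M ≤ PMS p X)
    (hi : InvA (⊤ : Subgroup Γ) M) : ∃ F : Finset (PM p Z), (∀ f ∈ F, f ∈ M) ∧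
      ∀ M' : AddSubgroup (PM p Z), InvA (⊤ : Subgroup Γ) M' → (∀ f ∈ F, f ∈ M') → M ≤ M' := by
  classical
  obtain ⟨N, h, hb, hlt⟩ := flen_pms (p := p) hN hC hX (U := ⊤) op_top
  -- maximal value
  have hex : ∃ k : ℕ, ∃ F : Finset (PM p Z), (∀ f ∈ F, f ∈ M) ∧
      N - h (G6e2_gen (Γ := Γ) F) = k := ⟨_, ∅, by simp, rfl⟩
  obtain ⟨F, hF, hFk⟩ := Nat.find_spec hex
  refine ⟨F, hF, fun M' hM'i hM'F => ?_⟩
  refine le_trans ?_ (G6e2_gen_le hM'i hM'F)
  intro m hm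
  by_contra hmF
  have h1 : G6e2_gen (Γ := Γ) F < G6e2_gen (Γ := Γ) (insert m F) := by
    refine lt_of_le_of_ne (G6e2_gen_le (G6e2_gen_inv _) fun f hf =>
      G6e2_mem_gen (Finset.mem_insert_of_mem hf)) fun he => hmF ?_
    rw [he]
    exact G6e2_mem_gen (Finset.mem_insert_self m F)
  have hF' : ∀ f ∈ insert m F, f ∈ M := by
    intro f hf
    rcases Finset.mem_insert.1 hf with rfl | hf
    · exact hm
    · exact hF f hf
  have h2 := hlt _ _ (G6e2_gen_inv F) (G6e2_gen_inv (insert m F)) bot_le h1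
    ((G6e2_gen_le hi hF').trans hM)
  have h3 := hb (G6e2_gen (Γ := Γ) (insert m F))
  refine Nat.find_min hex (m := N - h (G6e2_gen (Γ := Γ) (insert m F))) ?_
    ⟨insert m F, hF', rfl⟩
  rw [← hFk]
  omega

/-- The `α ∈ PMS p X` with finitely many `U`-translates modulo `M₁` form a `U`-invariant subgroup
containing `M₁`; `FLen.finMod`; choose the representatives inside the subgroup. -/
theorem gl_orbits [Countable Ω] (hN : Nice Ω Γ) (hC : Cpl Ω Γ)
    {X : Set Z} (hX : SFin Ω Γ X) {U : Subgroup Γ} (hU : Op Ω U)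
    {M₁ : AddSubgroup (PM p Z)} (hM : M₁ ≤ PMS p X) (hi : InvA U M₁) :
    ∃ F : Finset (PM p Z), (∀ f ∈ F, f ∈ PMS p X) ∧ ∀ α ∈ PMS p X,
      (∃ F' : Finset (PM p Z), ∀ u ∈ U, ∃ f ∈ F', u • α - f ∈ M₁) → ∃ f ∈ F, α - f ∈ M₁ := by
  classical
  have hp : 0 < p := (Fact.out : p.Prime).pos
  have hPi : InvA U (PMS p X) := inv_pms fun g _ x hx => hX.inv g x hx
  let T : AddSubgroup (PM p Z) :=
    { carrier := {α | α ∈ PMS p X ∧ ∃ F' : Finset (PM p Z), ∀ u ∈ U, ∃ f ∈ F', u • α - f ∈ M₁}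
      zero_mem' := ⟨zero_mem _, {0}, fun u _ => ⟨0, Finset.mem_singleton_self _, by
        rw [smul_zero, sub_zero]; exact zero_mem _⟩⟩
      add_mem' := by
        rintro a b ⟨ha, Fa, hFa⟩ ⟨hb, Fb, hFb⟩
        refine ⟨add_mem ha hb, (Fa ×ˢ Fb).image fun x => x.1 + x.2, fun u hu => ?_⟩
        obtain ⟨f, hf, hf'⟩ := hFa u hu
        obtain ⟨f₂, hf₂, hf₂'⟩ := hFb u hu
        refine ⟨f + f₂, Finset.mem_image.2 ⟨(f, f₂), Finset.mem_product.2 ⟨hf, hf₂⟩, rfl⟩, ?_⟩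
        have e : u • (a + b) - (f + f₂) = (u • a - f) + (u • b - f₂) := by
          rw [smul_add]; abel
        rw [e]
        exact add_mem hf' hf₂'
      neg_mem' := by
        rintro a ⟨ha, Fa, hFa⟩
        refine ⟨neg_mem ha, Fa.image fun x => -x, fun u hu => ?_⟩
        obtain ⟨f, hf, hf'⟩ := hFa u hu
        refine ⟨-f, Finset.mem_image_of_mem _ hf, ?_⟩
        have e : u • (-a) - (-f) = -(u • a - f) := by rw [smul_neg]; abel
        rw [e]
        exact neg_mem hf' }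
  have hT : ∀ α, α ∈ T ↔ α ∈ PMS p X ∧ ∃ F' : Finset (PM p Z), ∀ u ∈ U, ∃ f ∈ F',
      u • α - f ∈ M₁ := fun α => Iff.rfl
  have hTi : InvA U T := by
    intro g hg α hα
    obtain ⟨h1, F', hF'⟩ := (hT α).1 hα
    refine (hT _).2 ⟨hPi g hg α h1, F', fun u hu => ?_⟩
    obtain ⟨f, hf, hf'⟩ := hF' (u * g) (U.mul_mem hu hg)
    exact ⟨f, hf, by rw [← mul_smul]; exact hf'⟩
  have hMT : M₁ ≤ T := fun α hα => (hT α).2 ⟨hM hα, {0}, fun u hu =>
    ⟨0, Finset.mem_singleton_self _, by rw [sub_zero]; exact hi u hu α hα⟩⟩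
  have hTP : T ≤ PMS p X := fun α hα => ((hT α).1 hα).1
  have hfl : FLen U M₁ T := FLen.mono bot_le hTP (flen_pms hN hC hX hU)
  obtain ⟨F, hF⟩ := FLen.finMod hp (fun a => pm_p a) hi hTi hMT hfl (fun t ht => by
    obtain ⟨_, F', hF'⟩ := (hT t).1 ht
    refine ⟨F', ?_⟩
    rintro m ⟨g, hg, rfl⟩
    exact hF' g hg)
  refine ⟨F.filter (fun f => f ∈ PMS p X), fun f hf => (Finset.mem_filter.1 hf).2, ?_⟩
  intro α hα hαF
  obtain ⟨f, hf, hf'⟩ := hF α ((hT α).2 ⟨hα, hαF⟩)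
  refine ⟨f, Finset.mem_filter.2 ⟨hf, ?_⟩, hf'⟩
  have e : f = α - (α - f) := by abel
  rw [e]
  exact sub_mem hα (hM hf')

end Pool.Agent.Lib.ThC.GL

end

section

/-! # G9: the consequences of finite length used later -/

set_option autoImplicit false
open scoped Pointwise

namespace Pool.Agent.Lib.ThC

variable {Ω Γ Z : Type} [Group Γ] [MulAction Γ Ω] [MulAction Γ Z]

/-- finitely many invariant subspaces. -/
theorem fl_finite [Countable Ω] (hN : Nice Ω Γ) (hC : Cpl Ω Γ) (p : ℕ) [Fact p.Prime]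
    {X : Set Z} (hX : SFin Ω Γ X) :
    {M : AddSubgroup (PM p Z) | M ≤ PMS p X ∧ InvA (⊤ : Subgroup Γ) M}.Finite :=
  GL.gl_finite hN hC hX

/-- invariant subspaces are finitely generated. -/
theorem fl_gen [Countable Ω] (hN : Nice Ω Γ) (hC : Cpl Ω Γ) (p : ℕ) [Fact p.Prime]
    {X : Set Z} (hX : SFin Ω Γ X) {M : AddSubgroup (PM p Z)} (hM : M ≤ PMS p X)
    (hi : InvA (⊤ : Subgroup Γ) M) : ∃ F : Finset (PM p Z), (∀ f ∈ F, f ∈ M) ∧
      ∀ M' : AddSubgroup (PM p Z), InvA (⊤ : Subgroup Γ) M' → (∀ f ∈ F, f ∈ M') → M ≤ M' :=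
  GL.gl_gen hN hC hX hM hi

/-- elements with finitely many translates modulo `M₁` are finitely many modulo `M₁`. -/
theorem fl_orbits [Countable Ω] (hN : Nice Ω Γ) (hC : Cpl Ω Γ) (p : ℕ) [Fact p.Prime]
    {X : Set Z} (hX : SFin Ω Γ X) {U : Subgroup Γ} (hU : Op Ω U)
    {M₁ : AddSubgroup (PM p Z)} (hM : M₁ ≤ PMS p X) (hi : InvA U M₁) :
    ∃ F : Finset (PM p Z), (∀ f ∈ F, f ∈ PMS p X) ∧ ∀ α ∈ PMS p X,
      (∃ F' : Finset (PM p Z), ∀ u ∈ U, ∃ f ∈ F', u • α - f ∈ M₁) → ∃ f ∈ F, α - f ∈ M₁ :=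
  GL.gl_orbits hN hC hX hU hM hi

end Pool.Agent.Lib.ThC

end
end

section

section

/-! # J2a: torsors under a group of prime order -/

set_option autoImplicit false
open scoped Pointwise

namespace Pool.Agent.Lib.ThC

variable {Ω : Type} {p : ℕ}

/-- the pairing of `β` with the cocycle. -/
noncomputable def chi (D : Equiv.Perm Ω → UU Ω → Multiplicative (ZMod p)) (β : PM p (UU Ω))
    (σ : Equiv.Perm Ω) : ZMod p :=
  ∑ x' ∈ β.supp, β.ev x' * Multiplicative.toAdd (D σ x')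

private theorem J2a_sum (D : Equiv.Perm Ω → UU Ω → Multiplicative (ZMod p)) (β : PM p (UU Ω))
    (σ : Equiv.Perm Ω) (T : Finset (UU Ω)) (hT : ∀ x', β.ev x' ≠ 0 → x' ∈ T) :
    chi D β σ = ∑ x' ∈ T, β.ev x' * Multiplicative.toAdd (D σ x') := by
  refine Finset.sum_subset (fun x' hx' => hT x' (PM.mem_supp.1 hx')) fun x' _ hx' => ?_
  have h1 : β.ev x' = 0 := by
    by_contra hc
    exact hx' (PM.mem_supp.2 hc)
  rw [h1, zero_mul]

/-- additivity in `β`. -/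
theorem chi_add (D : Equiv.Perm Ω → UU Ω → Multiplicative (ZMod p)) (β γ : PM p (UU Ω))
    (σ : Equiv.Perm Ω) : chi D (β + γ) σ = chi D β σ + chi D γ σ := by
  classical
  rw [J2a_sum D β σ (β.supp ∪ γ.supp) (fun x' h => Finset.mem_union_left _ (PM.mem_supp.2 h)),
    J2a_sum D γ σ (β.supp ∪ γ.supp) (fun x' h => Finset.mem_union_right _ (PM.mem_supp.2 h)),
    J2a_sum D (β + γ) σ (β.supp ∪ γ.supp) ?_, ← Finset.sum_add_distrib]
  · exact Finset.sum_congr rfl fun x' _ => by rw [PM.add_ev, add_mul]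
  · intro x' h
    rw [PM.add_ev] at h
    by_cases hb : β.ev x' = 0
    · rw [hb, zero_add] at h
      exact Finset.mem_union_right _ (PM.mem_supp.2 h)
    · exact Finset.mem_union_left _ (PM.mem_supp.2 hb)

theorem chi_neg (D : Equiv.Perm Ω → UU Ω → Multiplicative (ZMod p)) (β : PM p (UU Ω))
    (σ : Equiv.Perm Ω) : chi D (-β) σ = -chi D β σ := by
  rw [J2a_sum D (-β) σ β.supp ?_]
  · unfold chi
    rw [← Finset.sum_neg_distrib]
    exact Finset.sum_congr rfl fun x' _ => by rw [PM.neg_ev, neg_mul]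
  · intro x' h
    rw [PM.neg_ev, neg_ne_zero] at h
    exact PM.mem_supp.2 h

/-- equal cocycle values on the support. -/
theorem chi_congr {D : Equiv.Perm Ω → UU Ω → Multiplicative (ZMod p)} {β : PM p (UU Ω)}
    {σ τ : Equiv.Perm Ω} (h : ∀ x', β.ev x' ≠ 0 → D σ x' = D τ x') :
    chi D β σ = chi D β τ := by
  unfold chi
  exact Finset.sum_congr rfl fun x' hx' => by rw [h x' (PM.mem_supp.1 hx')]

/-- multiplicativity for elements `h'` fixing the support. -/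
theorem chi_mul {H : Subgroup (Equiv.Perm Ω)} {x y : UU Ω}
    {ρ : Multiplicative (ZMod p) → UU Ω → UU Ω} {s : UU Ω → UU Ω}
    {D : Equiv.Perm Ω → UU Ω → Multiplicative (ZMod p)}
    (hD : Coc (Multiplicative (ZMod p)) H x y ρ s D) {β : PM p (UU Ω)}
    (hβ : β ∈ PMS p (orb H x)) {h h' : Equiv.Perm Ω} (hh : h ∈ H) (hh' : h' ∈ H)
    (hf : ∀ x', β.ev x' ≠ 0 → h' • x' = x') :
    chi D β (h * h') = chi D β h + chi D β h' := by
  unfold chi
  rw [← Finset.sum_add_distrib]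
  refine Finset.sum_congr rfl fun x' hx' => ?_
  have h1 := PM.mem_supp.1 hx'
  have h2 : x' ∈ orb H x := by
    by_contra hc
    exact h1 (hβ x' hc)
  rw [coc_mul hD hh hh' h2, hf x' h1, toAdd_mul, mul_add]

/-- translation. -/
theorem chi_smul {G H : Subgroup (Equiv.Perm Ω)} (hGH : G ≤ H) {x y : UU Ω}
    {ρ : Multiplicative (ZMod p) → UU Ω → UU Ω} {s : UU Ω → UU Ω}
    {D : Equiv.Perm Ω → UU Ω → Multiplicative (ZMod p)}
    (hD : Coc (Multiplicative (ZMod p)) H x y ρ s D) {β : PM p (UU Ω)}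
    (hβ : β ∈ PMS p (orb H x)) (g : ↥G) {h : Equiv.Perm Ω} (hh : h ∈ H)
    (hf : ∀ x', β.ev x' ≠ 0 → h • ((g : Equiv.Perm Ω) • x') = (g : Equiv.Perm Ω) • x') :
    chi D (g • β) h = chi D β ((g : Equiv.Perm Ω)⁻¹ * h * g) := by
  classical
  have hev : ∀ y : UU Ω, (g • β).ev y = β.ev ((g : Equiv.Perm Ω)⁻¹ • y) := fun y =>
    PM.smul_ev g β y
  rw [J2a_sum D (g • β) h (β.supp.image (fun x' => (g : Equiv.Perm Ω) • x')) ?_]
  · rw [Finset.sum_image (fun a _ b _ hab => smul_left_cancel _ hab)]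
    unfold chi
    refine Finset.sum_congr rfl fun x' hx' => ?_
    have h1 := PM.mem_supp.1 hx'
    have h2 : x' ∈ orb H x := by
      by_contra hc
      exact h1 (hβ x' hc)
    have hg : (g : Equiv.Perm Ω) ∈ H := hGH g.2
    have h3 : (g : Equiv.Perm Ω) • x' ∈ orb H x := by
      obtain ⟨l, hl, rfl⟩ := h2
      exact ⟨g * l, H.mul_mem hg hl, by rw [mul_smul]⟩
    have h4 := coc_conj hD (H.inv_mem hg) hh h3 (hf x' h1)
    rw [inv_smul_smul, inv_inv, mul_comm (D ((g : Equiv.Perm Ω)⁻¹) _), mul_inv_cancel_right]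
      at h4
    rw [hev, inv_smul_smul, h4]
  · intro y hy
    rw [hev] at hy
    exact Finset.mem_image.2 ⟨_, PM.mem_supp.2 hy, smul_inv_smul _ _⟩

/-- the vanishing space of `H` over `S`. -/
def IsBB (S : Set (UU Ω)) (H : Subgroup (Equiv.Perm Ω)) (x : UU Ω)
    (D : Equiv.Perm Ω → UU Ω → Multiplicative (ZMod p)) (β : PM p (UU Ω)) : Prop :=
  β ∈ PMS p (orb H x) ∧ ∀ k ∈ KK H S, chi D β k = 0

/-- it is a subgroup ... -/
theorem bb_subgroup (S : Set (UU Ω)) (H : Subgroup (Equiv.Perm Ω)) (x : UU Ω)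
    (D : Equiv.Perm Ω → UU Ω → Multiplicative (ZMod p)) :
    ∃ M : AddSubgroup (PM p (UU Ω)), ∀ β, β ∈ M ↔ IsBB S H x D β := by
  refine ⟨{ carrier := {β | IsBB S H x D β}
            add_mem' := ?_
            zero_mem' := ?_
            neg_mem' := ?_ }, fun β => Iff.rfl⟩
  · rintro β γ ⟨h1, h2⟩ ⟨h3, h4⟩
    refine ⟨(PMS p (orb H x)).add_mem h1 h3, fun k hk => ?_⟩
    rw [chi_add, h2 k hk, h4 k hk, add_zero]
  · refine ⟨(PMS p (orb H x)).zero_mem, fun k _ => ?_⟩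
    rw [J2a_sum D 0 k ∅ (fun x' h => (h (PM.zero_ev x')).elim), Finset.sum_empty]
  · rintro β ⟨h1, h2⟩
    refine ⟨(PMS p (orb H x)).neg_mem h1, fun k hk => ?_⟩
    rw [chi_neg, h2 k hk, neg_zero]

/-- ... invariant under `G` (`chi_smul`; `KK H S` is normal in `H`). -/
theorem bb_inv {G H : Subgroup (Equiv.Perm Ω)} (hGH : G ≤ H) {x y : UU Ω}
    {ρ : Multiplicative (ZMod p) → UU Ω → UU Ω} {s : UU Ω → UU Ω}
    {D : Equiv.Perm Ω → UU Ω → Multiplicative (ZMod p)}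
    (hD : Coc (Multiplicative (ZMod p)) H x y ρ s D) {S : Set (UU Ω)}
    (hS : ∀ h ∈ H, ∀ s ∈ S, h • s ∈ S) (hX : orb H x ⊆ S) (g : ↥G) {β : PM p (UU Ω)}
    (hβ : IsBB S H x D β) : IsBB S H x D (g • β) := by
  obtain ⟨h1, h2⟩ := hβ
  have hg : (g : Equiv.Perm Ω) ∈ H := hGH g.2
  have horb : ∀ z ∈ orb H x, ∀ l ∈ H, l • z ∈ orb H x := by
    rintro _ ⟨m, hm, rfl⟩ l hl
    exact ⟨l * m, H.mul_mem hl hm, by rw [mul_smul]⟩
  refine ⟨fun y hy => ?_, fun k hk => ?_⟩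
  · have h3 : (g • β).ev y = β.ev ((g : Equiv.Perm Ω)⁻¹ • y) := PM.smul_ev g β y
    rw [h3]
    refine h1 _ fun hc => hy ?_
    have h4 := horb _ hc g hg
    rwa [smul_inv_smul] at h4
  · obtain ⟨hk1, hk2⟩ := hk
    have hk3 : ∀ z ∈ S, k • z = z := (mem_fixingSubgroup_iff _).1 hk2
    rw [chi_smul hGH hD h1 g hk1 ?_]
    · refine h2 _ ⟨H.mul_mem (H.mul_mem (H.inv_mem hg) hk1) hg, ?_⟩
      refine (mem_fixingSubgroup_iff _).2 fun z hz => ?_
      rw [mul_smul, mul_smul, hk3 _ (hS g hg z hz), inv_smul_smul]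
    · intro x' hx'
      refine hk3 _ (hS g hg _ (hX ?_))
      by_contra hc
      exact hx' (h1 x' hc)

/-- `χ_β` vanishes on the pointwise stabiliser of `B`. -/
def VB (H : Subgroup (Equiv.Perm Ω)) (D : Equiv.Perm Ω → UU Ω → Multiplicative (ZMod p))
    (β : PM p (UU Ω)) (B : Finset (UU Ω)) : Prop :=
  ∀ h ∈ H, (∀ b ∈ B, h • b = b) → chi D β h = 0

end Pool.Agent.Lib.ThC

end

section

/-! # J2b: torsors under a group of prime order -/

set_option autoImplicit false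
open scoped Pointwise

namespace Pool.Agent.Lib.ThC

variable {Ω : Type} {p : ℕ}

theorem J2b_opinv (H : Subgroup (Equiv.Perm Ω)) :
    SInv Ω ↥H {z : UU Ω | Op Ω (st ↥H z)} where
  inv := fun g z hz => by
    have h1 : Op Ω (st ↥H (g • z)) := by
      rw [st_smul]
      exact op_cj g hz
    exact h1
  sm := fun _ hz => hz

theorem J2b_opsmul {H : Subgroup (Equiv.Perm Ω)} {z : UU Ω} (hz : Op Ω (st ↥H z))
    {z' : UU Ω} (h : z' ∈ orb H z) : Op Ω (st ↥H z') := by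
  obtain ⟨g, hg, rfl⟩ := h
  exact (J2b_opinv H).inv ⟨g, hg⟩ z hz

theorem J2b_sy {A : Type} [Group A] {H : Subgroup (Equiv.Perm Ω)} {x y : UU Ω}
    {ρ : A → UU Ω → UU Ω} {s : UU Ω → UU Ω} {D : Equiv.Perm Ω → UU Ω → A}
    (hD : Coc A H x y ρ s D) {x' : UU Ω} (hx' : x' ∈ orb H x) : s x' ∈ orb H y := by
  obtain ⟨g, hg, hg1⟩ := hD.sec x' hx'
  exact ⟨g, hg, congrArg Prod.snd hg1⟩

theorem J2b_px {H : Subgroup (Equiv.Perm Ω)} {x : UU Ω} {β : PM p (UU Ω)}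
    (hβ : β ∈ PMS p (orb H x)) {x' : UU Ω} (h : β.ev x' ≠ 0) : x' ∈ orb H x := by
  by_contra hc
  exact h (hβ x' hc)

/-- the elements fixing the support on which `χ_β` vanishes. -/
theorem J2b_sub [Fact p.Prime] {H : Subgroup (Equiv.Perm Ω)} {x y : UU Ω}
    {ρ : Multiplicative (ZMod p) → UU Ω → UU Ω} {s : UU Ω → UU Ω}
    {D : Equiv.Perm Ω → UU Ω → Multiplicative (ZMod p)}
    (hD : Coc (Multiplicative (ZMod p)) H x y ρ s D) {β : PM p (UU Ω)}
    (hβ : β ∈ PMS p (orb H x)) :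
    ∃ U : Subgroup ↥H, (∀ h : ↥H, h ∈ U ↔ h ∈ fx ↥H β.supp ∧ chi D β h = 0) ∧ Op Ω U ∧
      U.relIndex (fx ↥H β.supp) ≠ 0 ∧ U.relIndex (fx ↥H β.supp) ≤ p := by
  classical
  have hfx : ∀ h : ↥H, h ∈ fx ↥H β.supp → ∀ x', β.ev x' ≠ 0 →
      (h : Equiv.Perm Ω) • x' = x' := by
    intro h hh x' hx'
    exact (mem_fixingSubgroup_iff _).1 hh x' (PM.mem_supp.2 hx')
  have hmul : ∀ h h' : ↥H, h' ∈ fx ↥H β.supp →
      chi D β (h * h' : ↥H) = chi D β h + chi D β h' := fun h h' hh' =>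
    chi_mul hD hβ h.2 h'.2 (hfx h' hh')
  have hone : chi D β (1 : Equiv.Perm Ω) = 0 := by
    have h1 := hmul 1 1 (fx ↥H β.supp).one_mem
    rw [mul_one, Subgroup.coe_one] at h1
    exact left_eq_add.1 h1
  let f : ↥(fx ↥H β.supp) →* Multiplicative (ZMod p) :=
    { toFun := fun h => Multiplicative.ofAdd (chi D β ((h : ↥H) : Equiv.Perm Ω))
      map_one' := by
        change Multiplicative.ofAdd (chi D β (1 : Equiv.Perm Ω)) = 1
        rw [hone]
        rfl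
      map_mul' := fun a b => by
        change Multiplicative.ofAdd (chi D β (((a : ↥H) * (b : ↥H) : ↥H) : Equiv.Perm Ω)) = _
        rw [hmul a b b.2]
        rfl }
  have hker : ∀ h : ↥(fx ↥H β.supp), h ∈ f.ker ↔ chi D β ((h : ↥H) : Equiv.Perm Ω) = 0 := by
    intro h
    rw [MonoidHom.mem_ker]
    exact Iff.rfl
  have hmem : ∀ h : ↥H, h ∈ f.ker.map (fx ↥H β.supp).subtype ↔
      h ∈ fx ↥H β.supp ∧ chi D β h = 0 := by
    intro h
    rw [Subgroup.mem_map]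
    constructor
    · rintro ⟨k, hk, rfl⟩
      exact ⟨k.2, (hker k).1 hk⟩
    · rintro ⟨h1, h2⟩
      exact ⟨⟨h, h1⟩, (hker ⟨h, h1⟩).2 h2, rfl⟩
  refine ⟨f.ker.map (fx ↥H β.supp).subtype, hmem, ?_, ?_⟩
  · have hopx : Op Ω (st ↥H x) := op_mono hD.tors.op hD.tors.le
    have hF : ((β.supp ∪ β.supp.image s : Finset (UU Ω)) : Set (UU Ω)) ⊆
        {z : UU Ω | Op Ω (st ↥H z)} := by
      intro z hz
      rw [Finset.mem_coe] at hz
      rcases Finset.mem_union.1 hz with hz | hz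
      · exact J2b_opsmul hopx (J2b_px hβ (PM.mem_supp.1 hz))
      · obtain ⟨x', hx', rfl⟩ := Finset.mem_image.1 hz
        exact J2b_opsmul hD.tors.op (J2b_sy hD (J2b_px hβ (PM.mem_supp.1 hx')))
    refine op_mono (op_fx (J2b_opinv H) hF) fun h hh => ?_
    rw [hmem]
    have hh' := (mem_fixingSubgroup_iff _).1 hh
    refine ⟨(mem_fixingSubgroup_iff _).2 fun z hz => hh' z
      (Finset.mem_coe.2 (Finset.mem_union_left _ hz)), ?_⟩
    refine Finset.sum_eq_zero fun x' hx' => ?_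
    have h1 := J2b_px hβ (PM.mem_supp.1 hx')
    have h2 : (h : Equiv.Perm Ω) • x' = x' := hh' x'
      (Finset.mem_coe.2 (Finset.mem_union_left _ hx'))
    have h3 : (h : Equiv.Perm Ω) • s x' = s x' := hh' (s x')
      (Finset.mem_coe.2 (Finset.mem_union_right _ (Finset.mem_image_of_mem _ hx')))
    have h4 := hD.spec h h.2 x' h1
    rw [h2, h3] at h4
    have h5 := hD.tors.one _ (J2b_sy hD h1)
    have h6 := hD.tors.free _ _ _ (J2b_sy hD h1) (h5.trans h4)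
    rw [← h6, toAdd_one, mul_zero]
  · have h1 : (f.ker.map (fx ↥H β.supp).subtype).relIndex (fx ↥H β.supp) = f.ker.index := by
      rw [Subgroup.relIndex]
      congr 1
      ext h
      rw [Subgroup.mem_subgroupOf, hmem, hker]
      exact ⟨fun h => h.2, fun h' => ⟨h.2, h'⟩⟩
    rw [h1, Subgroup.index_ker]
    have : Finite (Multiplicative (ZMod p)) := inferInstanceAs (Finite (ZMod p))
    refine ⟨Nat.card_pos.ne', ?_⟩
    have h2 : Nat.card (Multiplicative (ZMod p)) = p := Nat.card_zmod p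
    conv_rhs => rw [← h2]
    exact Subgroup.card_le_card_group _

/-- `VB` is determined by finitely many orbits: let `T` be the tuple consisting of the elements of `B` and
the points `s x'`, `x' ∈ supp β`.  If `orb H T = orb H' T` then `VB H β B ↔ VB H' β B`. -/
theorem near_VB {G H : Subgroup (Equiv.Perm Ω)} [Fact p.Prime] {x y : UU Ω}
    {ρ : Multiplicative (ZMod p) → UU Ω → UU Ω} {s : UU Ω → UU Ω}
    {D : Equiv.Perm Ω → UU Ω → Multiplicative (ZMod p)} (hx : Op Ω (st ↥H x))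
    (hD : Coc (Multiplicative (ZMod p)) H x y ρ s D)
    (hDn : Near G H (fun H' => Coc (Multiplicative (ZMod p)) H' x y ρ s D ∧
      orb H x = orb H' x ∧ orb H y = orb H' y ∧ orb H (x, y) = orb H' (x, y)))
    {β : PM p (UU Ω)} (hβ : β ∈ PMS p (orb H x)) (B : Finset (UU Ω))
    (hB : ∀ b ∈ B, Op Ω (st ↥H b)) (hsB : ∀ x', β.ev x' ≠ 0 → x' ∈ B) :
    Near G H (fun H' => VB H D β B ↔ VB H' D β B) := by
  classical
  let F : Finset (UU Ω) := B ∪ β.supp.image s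
  let T : Fin F.card → UU Ω := fun i => (F.equivFin.symm i : UU Ω)
  have hT : ∀ z ∈ F, ∃ i, T i = z := fun z hz => ⟨F.equivFin ⟨z, hz⟩, by simp [T]⟩
  have hopT : ∀ i, Op Ω (st ↥H (T i)) := by
    intro i
    have hz : T i ∈ F := (F.equivFin.symm i).2
    rcases Finset.mem_union.1 hz with hz | hz
    · exact hB _ hz
    · obtain ⟨x', hx', hx2⟩ := Finset.mem_image.1 hz
      rw [← hx2]
      exact J2b_opsmul hD.tors.op (J2b_sy hD (J2b_px hβ (PM.mem_supp.1 hx')))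
  refine near_mono (near_and (near_orb G H T hopT) hDn) ?_
  rintro H' _ _ ⟨h1, hD', h2, h3, h4⟩
  -- comparing an element of `H` with an element of `H'`
  have hcmp : ∀ h ∈ H, ∀ h' ∈ H', h • T = h' • T →
      (∀ b ∈ B, h • b = h' • b) ∧ chi D β h = chi D β h' := by
    intro h hh h' hh' hT1
    have hz : ∀ z ∈ F, h • z = h' • z := by
      intro z hz
      obtain ⟨i, rfl⟩ := hT z hz
      exact congrFun hT1 i
    refine ⟨fun b hb => hz b (Finset.mem_union_left _ hb), chi_congr fun x' hx' => ?_⟩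
    have h5 := J2b_px hβ hx'
    have h6 := hz (s x') (Finset.mem_union_right _ (Finset.mem_image_of_mem _
      (PM.mem_supp.2 hx')))
    have h7 := hD.tors.one _ (J2b_sy hD h5)
    rw [← h7] at h6
    exact ((coc_eq_iff hD hD' h4 hh hh' h5 1).1 h6).2
  constructor
  · intro hV h' hh' hb
    have h5 : h' • T ∈ orb H T := by rw [h1]; exact smul_mem_orb hh' T
    obtain ⟨h, hh, hh1⟩ := h5
    obtain ⟨h6, h7⟩ := hcmp h hh h' hh' hh1
    rw [← h7]
    exact hV h hh fun b hb' => (h6 b hb').trans (hb b hb')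
  · intro hV h hh hb
    have h5 : h • T ∈ orb H' T := by rw [← h1]; exact smul_mem_orb hh T
    obtain ⟨h', hh', hh1⟩ := h5
    obtain ⟨h6, h7⟩ := hcmp h hh h' hh' hh1.symm
    rw [h7]
    exact hV h' hh' fun b hb' => (h6 b hb').symm.trans (hb b hb')

/-- if `χ_β` vanishes on `KK H S` then on the stabiliser of a finite subset (`supp_exists` for the open
subgroup `{h | h fixes supp β, χ_β(h) = 0}` of `↥H`). -/
theorem vb_exists [Countable Ω] {G H : Subgroup (Equiv.Perm Ω)} [Fact p.Prime]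
    (hN : Nice Ω ↥G) (hGH : G ≤ H) (hC : Cpl Ω ↥H) {x y : UU Ω}
    {ρ : Multiplicative (ZMod p) → UU Ω → UU Ω} {s : UU Ω → UU Ω}
    {D : Equiv.Perm Ω → UU Ω → Multiplicative (ZMod p)}
    (hD : Coc (Multiplicative (ZMod p)) H x y ρ s D) {S : Set (UU Ω)}
    (hS : SFin Ω ↥H S) (hX : orb H x ⊆ S) {β : PM p (UU Ω)} (hβ : IsBB S H x D β) :
    ∃ B : Finset (UU Ω), (B : Set (UU Ω)) ⊆ S ∧ (∀ x', β.ev x' ≠ 0 → x' ∈ B) ∧
      VB H D β B := by
  classical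
  obtain ⟨hβ1, hβ2⟩ := hβ
  obtain ⟨U, hU, hUo, -⟩ := J2b_sub hD hβ1
  have hsupp : (β.supp : Set (UU Ω)) ⊆ S := fun z hz =>
    hX (J2b_px hβ1 (PM.mem_supp.1 (Finset.mem_coe.1 hz)))
  have hle : fixingSubgroup ↥H S ≤ U := by
    intro h hh
    have hh' := (mem_fixingSubgroup_iff _).1 hh
    rw [hU]
    refine ⟨(mem_fixingSubgroup_iff _).2 fun z hz => hh' z (hsupp hz), hβ2 _ ⟨h.2, ?_⟩⟩
    exact (mem_fixingSubgroup_iff _).2 fun z hz => hh' z hz
  obtain ⟨B, hB, hBU⟩ := supp_exists (nice_mono hN hGH) hC hS.toSInv hUo hle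
  refine ⟨B ∪ β.supp, ?_, fun x' hx' => Finset.mem_union_right _ (PM.mem_supp.2 hx'), ?_⟩
  · intro z hz
    rw [Finset.mem_coe] at hz
    rcases Finset.mem_union.1 hz with hz | hz
    · exact hB hz
    · exact hsupp hz
  · intro h hh hb
    have h1 : (⟨h, hh⟩ : ↥H) ∈ fx ↥H B := (mem_fixingSubgroup_iff _).2 fun z hz =>
      hb z (Finset.mem_union_left _ hz)
    exact ((hU _).1 (hBU h1)).2

end Pool.Agent.Lib.ThC

end

section

/-! # J2c: torsors under a group of prime order -/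

set_option autoImplicit false
open scoped Pointwise

namespace Pool.Agent.Lib.ThC

variable {Ω : Type} {p : ℕ}

/-- Step (1) for one `β`.  If `β` is in `BB H`: `vb_exists`, `near_VB`.  If not: take `B'` from
`good_gfinB` for `(supp β, p)`.  For `H'` near, if `χ_β` vanishes on `KK H' S` then
`U' = {h' ∈ fx (supp β) | χ_β = 0}` is an open subgroup of `↥H'` of index `≤ p` in
`fx (supp β)` containing the pointwise stabiliser of `S`, so `fx B' ≤ U'`, i.e. `VB H' β B'`; by `near_VB`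
also `VB H β B'`, so `β` is in `BB H`. -/
theorem near_bb_one [Countable Ω] {G H : Subgroup (Equiv.Perm Ω)} [Fact p.Prime]
    (hN : Nice Ω ↥G) (hGH : G ≤ H) (hC : Cpl Ω ↥H) {x y : UU Ω}
    {ρ : Multiplicative (ZMod p) → UU Ω → UU Ω} {s : UU Ω → UU Ω}
    {D : Equiv.Perm Ω → UU Ω → Multiplicative (ZMod p)}
    (hD : Coc (Multiplicative (ZMod p)) H x y ρ s D)
    (hDn : Near G H (fun H' => Coc (Multiplicative (ZMod p)) H' x y ρ s D ∧
      orb H x = orb H' x ∧ orb H y = orb H' y ∧ orb H (x, y) = orb H' (x, y)))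
    {S : Set (UU Ω)} (hS : Good G H S) (hX : orb H x ⊆ S) {β : PM p (UU Ω)}
    (hβ : β ∈ PMS p (orb H x)) :
    Near G H (fun H' => IsBB S H x D β ↔ IsBB S H' x D β) := by
  classical
  have hx : Op Ω (st ↥H x) := op_mono hD.tors.op hD.tors.le
  have hopS : ∀ B : Finset (UU Ω), (B : Set (UU Ω)) ⊆ S → ∀ b ∈ B, Op Ω (st ↥H b) :=
    fun B hB b hb => hS.fin.sm b (hB hb)
  have hsupp : (β.supp : Set (UU Ω)) ⊆ S := fun z hz =>
    hX (J2b_px hβ (PM.mem_supp.1 (Finset.mem_coe.1 hz)))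
  by_cases hbb : IsBB S H x D β
  · obtain ⟨B, hB, hsB, hVB⟩ := vb_exists hN hGH hC hD hS.fin hX hbb
    refine near_mono (near_and (near_VB hx hD hDn hβ B (hopS B hB) hsB) hDn) ?_
    rintro H' _ _ ⟨h1, -, h2, -, -⟩
    refine ⟨fun _ => ⟨h2 ▸ hβ, fun k hk => ?_⟩, fun _ => hbb⟩
    refine h1.1 hVB k hk.1 fun b hb => ?_
    exact (mem_fixingSubgroup_iff _).1 hk.2 b (hB hb)
  · obtain ⟨B', hB', hBB', -, hG⟩ := good_gfinB hN hGH hC hS β.supp hsupp p
    have hsB : ∀ x', β.ev x' ≠ 0 → x' ∈ B' := fun x' hx' => hBB' (PM.mem_supp.2 hx')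
    refine near_mono (near_and (near_and (near_VB hx hD hDn hβ B' (hopS B' hB') hsB) hDn) hG) ?_
    rintro H' _ _ ⟨⟨h1, hD', h2, -, -⟩, h3⟩
    refine ⟨fun h => (hbb h).elim, fun h => (hbb ?_).elim⟩
    obtain ⟨U, hU, hUo, hU1, hU2⟩ := J2b_sub hD' (h2 ▸ hβ)
    have h4 : fx ↥H' B' ≤ U := by
      refine h3 U hUo ?_ (fun g hg => ((hU g).1 hg).1) hU1 hU2
      intro g hg
      have hg' := (mem_fixingSubgroup_iff _).1 hg
      rw [hU]
      refine ⟨(mem_fixingSubgroup_iff _).2 fun z hz => hg' z (hsupp hz), h.2 _ ⟨g.2, ?_⟩⟩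
      exact (mem_fixingSubgroup_iff _).2 fun z hz => hg' z hz
    have h5 : VB H' D β B' := by
      intro g hg hb
      have h6 : (⟨g, hg⟩ : ↥H') ∈ fx ↥H' B' := (mem_fixingSubgroup_iff _).2 fun z hz =>
        hb z hz
      exact ((hU _).1 (h4 h6)).2
    have h6 := h1.2 h5
    refine ⟨hβ, fun k hk => h6 k hk.1 fun b hb => ?_⟩
    exact (mem_fixingSubgroup_iff _).1 hk.2 b (hB' hb)

end Pool.Agent.Lib.ThC

end

section

/-! # J2d: torsors under a group of prime order -/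

set_option autoImplicit false
open scoped Pointwise

namespace Pool.Agent.Lib.ThC

variable {Ω : Type} {p : ℕ}

/-- a set that is `SFin` for `H` is `SFin` for `G ≤ H`. -/
theorem sfin_down {G H : Subgroup (Equiv.Perm Ω)} (hN : Nice Ω ↥G) (hGH : G ≤ H)
    {S : Set (UU Ω)} (hS : SFin Ω ↥H S) : SFin Ω ↥G S := by
  classical
  refine ⟨⟨fun g s hs => hS.inv ⟨g, hGH g.2⟩ s hs, fun s hs => ?_⟩, ?_⟩
  · obtain ⟨A, hA⟩ := hS.sm s hs
    exact ⟨A, fun g hg => hA ⟨g, hGH g.2⟩ hg⟩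
  · obtain ⟨F, hF1, hF2⟩ := hS.fo
    have hone : ∀ f ∈ F, ∃ F' : Finset (UU Ω), (∀ z ∈ F', z ∈ S) ∧
        ∀ h ∈ H, ∃ z ∈ F', ∃ g : ↥G, g • z = h • f := by
      intro f hf
      obtain ⟨A, hA⟩ := hS.sm f (hF1 f hf)
      let a : Fin A.card → Ω := fun i => (A.equivFin.symm i : Ω)
      have ha : ∀ x ∈ A, ∃ i, a i = x := fun x hx => ⟨A.equivFin ⟨x, hx⟩, by simp [a]⟩
      obtain ⟨E, hE⟩ := hN.olig A.card
      have hch : ∀ e : Fin A.card → Ω, ∃ k : Equiv.Perm Ω, k ∈ H ∧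
          ((∃ h ∈ H, h • a = e) → k • a = e) := by
        intro e
        by_cases he : ∃ h ∈ H, h • a = e
        · obtain ⟨h, hh, hh1⟩ := he
          exact ⟨h, hh, fun _ => hh1⟩
        · exact ⟨1, H.one_mem, fun h => (he h).elim⟩
      choose φ hφ1 hφ2 using hch
      refine ⟨E.image (fun e => φ e • f), ?_, ?_⟩
      · intro z hz
        obtain ⟨e, -, rfl⟩ := Finset.mem_image.1 hz
        exact hS.inv ⟨φ e, hφ1 e⟩ f (hF1 f hf)
      · intro h hh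
        obtain ⟨e, he, g, hg⟩ := hE (h • a)
        refine ⟨φ e • f, Finset.mem_image_of_mem _ he, g, ?_⟩
        have hg' : (g : Equiv.Perm Ω) • e = h • a := hg
        have hgH : (g : Equiv.Perm Ω) ∈ H := hGH g.2
        have h1 : φ e • a = e := hφ2 e ⟨(g : Equiv.Perm Ω)⁻¹ * h,
          H.mul_mem (H.inv_mem hgH) hh, by rw [mul_smul, ← hg', inv_smul_smul]⟩
        have h2 : (⟨h⁻¹ * (g * φ e), H.mul_mem (H.inv_mem hh) (H.mul_mem hgH (hφ1 e))⟩ : ↥H) ∈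
            st ↥H f := by
          refine hA _ fun x hx => ?_
          obtain ⟨i, rfl⟩ := ha x hx
          have h3 : (h⁻¹ * (g * φ e)) • a = a := by
            rw [mul_smul, mul_smul, h1, hg', inv_smul_smul]
          exact congrFun h3 i
        have h3 : (h⁻¹ * ((g : Equiv.Perm Ω) * φ e)) • f = f := h2
        rw [mul_smul, mul_smul, inv_smul_eq_iff] at h3
        exact h3
    choose! Φ hΦ1 hΦ2 using hone
    refine ⟨F.biUnion Φ, fun z hz => ?_, fun s hs => ?_⟩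
    · obtain ⟨f, hf, hz'⟩ := Finset.mem_biUnion.1 hz
      exact hΦ1 f hf z hz'
    · obtain ⟨f, hf, h, hh⟩ := hF2 s hs
      obtain ⟨z, hz, g, hg⟩ := hΦ2 f hf h h.2
      refine ⟨z, Finset.mem_biUnion.2 ⟨f, hf, hz⟩, g, ?_⟩
      rw [hg, ← hh]
      rfl

/-- Step (1).  `BB H` and `BB H'` are `G`-invariant subgroups of `PMS p X`, `X = orb H x = orb H' x`, of
which there are finitely many (`fl_finite` for `↥G`; `X` is `SFin` for `↥G`, because `H`-orbits of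
points with open stabiliser are finite unions of `G`-orbits); they are told apart by finitely
many `β` (`near_bb_one`). -/
theorem near_bb [Countable Ω] {G H : Subgroup (Equiv.Perm Ω)} [Fact p.Prime]
    (hN : Nice Ω ↥G) (hCG : Cpl Ω ↥G) (hGH : G ≤ H) (hC : Cpl Ω ↥H) {x y : UU Ω}
    {ρ : Multiplicative (ZMod p) → UU Ω → UU Ω} {s : UU Ω → UU Ω}
    {D : Equiv.Perm Ω → UU Ω → Multiplicative (ZMod p)}
    (hD : Coc (Multiplicative (ZMod p)) H x y ρ s D)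
    (hDn : Near G H (fun H' => Coc (Multiplicative (ZMod p)) H' x y ρ s D ∧
      orb H x = orb H' x ∧ orb H y = orb H' y ∧ orb H (x, y) = orb H' (x, y)))
    {S : Set (UU Ω)} (hS : Good G H S) (hX : orb H x ⊆ S) :
    Near G H (fun H' => ∀ β : PM p (UU Ω), IsBB S H x D β ↔ IsBB S H' x D β) := by
  classical
  have hx : Op Ω (st ↥H x) := op_mono hD.tors.op hD.tors.le
  have hXH : SFin Ω ↥H (orb H x) := by
    rw [← orbit_eq_orb]
    exact sfin_orbit hx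
  have hXG : SFin Ω ↥G (orb H x) := sfin_down hN hGH hXH
  have hfin := fl_finite hN hCG p hXG
  obtain ⟨M₀, hM₀⟩ := bb_subgroup S H x D
  have hinvH : ∀ h ∈ H, ∀ s ∈ S, h • s ∈ S := fun h hh s hs => hS.fin.inv ⟨h, hh⟩ s hs
  have hex : ∀ M : AddSubgroup (PM p (UU Ω)), ∃ β : PM p (UU Ω), β ∈ PMS p (orb H x) ∧
      (M ≤ PMS p (orb H x) → M ≠ M₀ → ¬ (IsBB S H x D β ↔ β ∈ M)) := by
    intro M
    by_cases hM : M ≤ PMS p (orb H x) ∧ M ≠ M₀
    · obtain ⟨hM1, hM2⟩ := hM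
      by_contra hcon
      push Not at hcon
      apply hM2
      ext β
      by_cases hβ : β ∈ PMS p (orb H x)
      · rw [hM₀]
        exact (hcon β hβ).2.2.symm
      · exact ⟨fun h => (hβ (hM1 h)).elim, fun h => (hβ ((hM₀ β).1 h).1).elim⟩
    · exact ⟨0, (PMS p (orb H x)).zero_mem, fun h1 h2 => (hM ⟨h1, h2⟩).elim⟩
  choose φ hφ1 hφ2 using hex
  have hnear := near_forall_fin (G := G) (H := H) hfin
    (Q := fun M H' => IsBB S H x D (φ M) ↔ IsBB S H' x D (φ M))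
    (fun M _ => near_bb_one hN hGH hC hD hDn hS hX (hφ1 M))
  refine near_mono (near_and (near_and hnear hDn) hS.near) ?_
  rintro H' hGH' _ ⟨⟨h1, hD', h2, h3, h4⟩, h5, -⟩
  obtain ⟨M', hM'⟩ := bb_subgroup S H' x D
  have hM'1 : M' ≤ PMS p (orb H x) := by
    intro β hβ
    rw [h2]
    exact ((hM' β).1 hβ).1
  have hM'2 : InvA (⊤ : Subgroup ↥G) M' := by
    intro g _ β hβ
    rw [hM'] at hβ ⊢
    exact bb_inv hGH' hD' (fun h hh s hs => h5.inv ⟨h, hh⟩ s hs) (h2 ▸ hX) g hβ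
  have hMM : M' = M₀ := by
    by_contra hne
    have h6 := h1 M' ⟨hM'1, hM'2⟩
    refine hφ2 M' hM'1 hne ?_
    rw [hM']
    exact h6
  intro β
  rw [← hM₀, ← hM', hMM]

end Pool.Agent.Lib.ThC

end

section

/-! # J3a: torsors of prime order: the orbits agree near `H` -/

set_option autoImplicit false
open scoped Pointwise

namespace Pool.Agent.Lib.ThC

variable {Ω : Type} {p : ℕ}

/-- Comparison for one `β`.  There is `h'' ∈ H` with `h'' = h'` on `B` and on the points `s x'`,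
`x' ∈ supp β` (`hT`), so `D h'' x' = D h' x'` (`coc_eq_iff`) and `χ_β(h'') = χ_β(h')`.
`h⁻¹ h''` fixes `B`, so `χ_β(h⁻¹ h'') = 0` and `χ_β(h'') = χ_β(h) + 0` (`chi_mul`). -/
theorem cmp_base {H H' : Subgroup (Equiv.Perm Ω)} {x y : UU Ω}
    {ρ : Multiplicative (ZMod p) → UU Ω → UU Ω} {s : UU Ω → UU Ω}
    {D : Equiv.Perm Ω → UU Ω → Multiplicative (ZMod p)}
    (hD : Coc (Multiplicative (ZMod p)) H x y ρ s D)
    (hD' : Coc (Multiplicative (ZMod p)) H' x y ρ s D)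
    (ho : orb H (x, y) = orb H' (x, y)) {β : PM p (UU Ω)} (hβ : β ∈ PMS p (orb H x))
    {B : Finset (UU Ω)} (hsB : ∀ x', β.ev x' ≠ 0 → x' ∈ B) (hV : VB H D β B)
    (hT : ∀ h' ∈ H', ∃ h ∈ H, (∀ b ∈ B, h • b = h' • b) ∧
      ∀ x', β.ev x' ≠ 0 → h • s x' = h' • s x')
    {h h' : Equiv.Perm Ω} (hh : h ∈ H) (hh' : h' ∈ H') (ha : ∀ b ∈ B, h • b = h' • b) :
    chi D β h = chi D β h' := by
  obtain ⟨h'', hh'', hB, hs⟩ := hT h' hh'
  have hx' : ∀ x', β.ev x' ≠ 0 → x' ∈ orb H x := by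
    intro x' hx
    by_contra hc
    exact hx (mem_PMS.1 hβ x' hc)
  have h1 : chi D β h'' = chi D β h' := by
    refine chi_congr fun x' hx => ?_
    have hsy : s x' ∈ orb H y := by
      obtain ⟨g, hg, hgx⟩ := hD.sec x' (hx' x' hx)
      exact ⟨g, hg, congrArg Prod.snd hgx⟩
    refine ((coc_eq_iff hD hD' ho hh'' hh' (hx' x' hx) 1).1 ?_).2
    rw [hD.tors.one _ hsy]
    exact hs x' hx
  have hfix : ∀ b ∈ B, (h⁻¹ * h'') • b = b := by
    intro b hb
    rw [mul_smul, hB b hb, ← ha b hb, inv_smul_smul]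
  have h2 : chi D β (h⁻¹ * h'') = 0 := hV _ (mul_mem (inv_mem hh) hh'') hfix
  have h3 : chi D β (h * (h⁻¹ * h'')) = chi D β h + chi D β (h⁻¹ * h'') :=
    chi_mul hD hβ hh (mul_mem (inv_mem hh) hh'') fun x' hx => hfix x' (hsB x' hx)
  rw [mul_inv_cancel_left, h2, add_zero, h1] at h3
  exact h3.symm

end Pool.Agent.Lib.ThC

end

section

/-! # J3b: torsors of prime order: the orbits agree near `H` -/

set_option autoImplicit false
open scoped Pointwise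

namespace Pool.Agent.Lib.ThC

variable {Ω : Type} {p : ℕ}

private theorem J3b_near (G H : Subgroup (Equiv.Perm Ω)) (T : Finset (UU Ω))
    (hT : ∀ t ∈ T, Op Ω (st ↥H t)) :
    Near G H (fun H' => ∀ h' ∈ H', ∃ h ∈ H, ∀ t ∈ T, h • t = h' • t) := by
  have h1 := near_orb G H (fun i : Fin T.card => (T.equivFin.symm i : UU Ω))
    (fun i => hT _ (T.equivFin.symm i).2)
  refine near_mono h1 fun H' _ _ ho h' hh' => ?_
  have h2 : h' • (fun i : Fin T.card => (T.equivFin.symm i : UU Ω)) ∈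
      orb H (fun i : Fin T.card => (T.equivFin.symm i : UU Ω)) := by
    rw [ho]
    exact smul_mem_orb hh' _
  obtain ⟨h, hh, hhT⟩ := h2
  refine ⟨h, hh, fun t ht => ?_⟩
  have h3 := congrFun hhT (T.equivFin ⟨t, ht⟩)
  change h • ((T.equivFin.symm (T.equivFin ⟨t, ht⟩) : T) : UU Ω) =
    h' • ((T.equivFin.symm (T.equivFin ⟨t, ht⟩) : T) : UU Ω) at h3
  rwa [Equiv.symm_apply_apply] at h3

private theorem J3b_ev {G : Subgroup (Equiv.Perm Ω)} (g : ↥G) (β : PM p (UU Ω)) (z : UU Ω) :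
    (g • β).ev z = β.ev ((g : Equiv.Perm Ω)⁻¹ • z) :=
  PM.smul_ev (g : Equiv.Perm Ω) β z

private theorem J3b_chi_smul {G H : Subgroup (Equiv.Perm Ω)} (hGH : G ≤ H) {x y : UU Ω}
    {ρ : Multiplicative (ZMod p) → UU Ω → UU Ω} {s : UU Ω → UU Ω}
    {D : Equiv.Perm Ω → UU Ω → Multiplicative (ZMod p)}
    (hD : Coc (Multiplicative (ZMod p)) H x y ρ s D) {β : PM p (UU Ω)}
    (hβ : β ∈ PMS p (orb H x)) (g : ↥G) {h : Equiv.Perm Ω} (hh : h ∈ H) :
    chi D (g • β) h = chi D β (h * g) - chi D β g := by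
  classical
  have hsupp : (g • β).supp = β.supp.image (fun z => (g : Equiv.Perm Ω) • z) := by
    ext z
    rw [PM.mem_supp, J3b_ev, Finset.mem_image]
    constructor
    · intro hz
      exact ⟨(g : Equiv.Perm Ω)⁻¹ • z, PM.mem_supp.2 hz, smul_inv_smul (g : Equiv.Perm Ω) z⟩
    · rintro ⟨w, hw, rfl⟩
      rw [inv_smul_smul]
      exact PM.mem_supp.1 hw
  unfold chi
  rw [hsupp, Finset.sum_image (fun a _ b _ hab => smul_left_cancel (g : Equiv.Perm Ω) hab),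
    ← Finset.sum_sub_distrib]
  refine Finset.sum_congr rfl fun z hz => ?_
  have hzx : z ∈ orb H x := by
    by_contra hc
    exact PM.mem_supp.1 hz (mem_PMS.1 hβ z hc)
  have h1 : (g • β).ev ((g : Equiv.Perm Ω) • z) = β.ev z := by
    rw [J3b_ev, inv_smul_smul]
  have h2 := coc_mul hD hh (hGH g.2) hzx
  rw [h1, h2, toAdd_mul]
  ring

/-- Comparison for all `β` in `BB H`.  Let `F` be a finite set of generators of `BB H` over `G`
(`bb_subgroup`, `bb_inv`, `fl_gen`), `B_β` from `vb_exists` for `β ∈ F`.  For `H'` near the orbits of the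
tuples `(B_β, (s x')_{x' ∈ supp β})` agree, which is `hT` of `cmp_base`.  The set of all `β ∈ PMS p X` for
which a `B` as in the conclusion exists is a subgroup, invariant under `G`:
`χ_{g β}(h) = χ_β(h g) - χ_β(g)` by `coc_mul`, same for `h'`.  It contains `F`, hence `BB H`. -/
theorem near_cmp [Countable Ω] {G H : Subgroup (Equiv.Perm Ω)} [Fact p.Prime]
    (hN : Nice Ω ↥G) (hCG : Cpl Ω ↥G) (hGH : G ≤ H) (hC : Cpl Ω ↥H) {x y : UU Ω}
    {ρ : Multiplicative (ZMod p) → UU Ω → UU Ω} {s : UU Ω → UU Ω}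
    {D : Equiv.Perm Ω → UU Ω → Multiplicative (ZMod p)}
    (hD : Coc (Multiplicative (ZMod p)) H x y ρ s D)
    (hDn : Near G H (fun H' => Coc (Multiplicative (ZMod p)) H' x y ρ s D ∧
      orb H x = orb H' x ∧ orb H y = orb H' y ∧ orb H (x, y) = orb H' (x, y)))
    {S : Set (UU Ω)} (hS : Good G H S) (hX : orb H x ⊆ S) :
    Near G H (fun H' => ∀ β : PM p (UU Ω), IsBB S H x D β →
      ∃ B : Finset (UU Ω), (B : Set (UU Ω)) ⊆ S ∧ ∀ h ∈ H, ∀ h' ∈ H',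
        (∀ b ∈ B, h • b = h' • b) → chi D β h = chi D β h') := by
  classical
  have hxS : x ∈ S := hX (mem_orb_self H x)
  have hSinv : ∀ h ∈ H, ∀ z ∈ S, h • z ∈ S := fun h hh z hz =>
    hS.fin.inv (⟨h, hh⟩ : ↥H) z hz
  have hopx : Op Ω (st ↥H x) := hS.fin.sm x hxS
  have hSF : SFin Ω ↥H (orb H x) := by
    rw [← orbit_eq_orb]
    exact sfin_orbit hopx
  have hSFG : SFin Ω ↥G (orb H x) := sfin_down hN hGH hSF
  obtain ⟨M, hM⟩ := bb_subgroup (p := p) S H x D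
  have hMP : M ≤ PMS p (orb H x) := fun β hβ => ((hM β).1 hβ).1
  have hMI : InvA (⊤ : Subgroup ↥G) M := fun g _ β hβ =>
    (hM _).2 (bb_inv hGH hD hSinv hX g ((hM β).1 hβ))
  obtain ⟨F, hFM, hFgen⟩ := fl_gen hN hCG p hSFG hMP hMI
  have hB : ∀ β : PM p (UU Ω), ∃ B : Finset (UU Ω), β ∈ F → (B : Set (UU Ω)) ⊆ S ∧
      (∀ x', β.ev x' ≠ 0 → x' ∈ B) ∧ VB H D β B := by
    intro β
    by_cases hβ : β ∈ F
    · obtain ⟨B, h1, h2, h3⟩ := vb_exists hN hGH hC hD hS.fin hX ((hM β).1 (hFM β hβ))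
      exact ⟨B, fun _ => ⟨h1, h2, h3⟩⟩
    · exact ⟨∅, fun h => absurd h hβ⟩
  choose B hB using hB
  have hsy : ∀ x' ∈ orb H x, s x' ∈ orb H y := by
    intro x' hx'
    obtain ⟨g, hg, hgx⟩ := hD.sec x' hx'
    exact ⟨g, hg, congrArg Prod.snd hgx⟩
  have hopy : ∀ e ∈ orb H y, Op Ω (st ↥H e) := by
    rintro _ ⟨g, hg, rfl⟩
    have h1 : st ↥H (g • y) = cj (⟨g, hg⟩ : ↥H) (st ↥H y) := st_smul (⟨g, hg⟩ : ↥H) y
    rw [h1]
    exact op_cj _ hD.tors.op
  have hnear : ∀ β ∈ (F : Set (PM p (UU Ω))), Near G H (fun H' => ∀ h' ∈ H', ∃ h ∈ H,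
      ∀ t ∈ B β ∪ β.supp.image s, h • t = h' • t) := by
    intro β hβ
    refine J3b_near G H _ fun t ht => ?_
    rcases Finset.mem_union.1 ht with ht | ht
    · exact hS.fin.sm t ((hB β hβ).1 ht)
    · obtain ⟨x', hx', rfl⟩ := Finset.mem_image.1 ht
      refine hopy _ (hsy x' ?_)
      by_contra hc
      exact PM.mem_supp.1 hx' (mem_PMS.1 (hMP (hFM β hβ)) x' hc)
  refine near_mono (near_and hDn (near_forall_fin F.finite_toSet hnear))
    fun H' hGH' _ hH' β hβ => ?_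
  obtain ⟨⟨hD', hox, -, ho⟩, hT⟩ := hH'
  let Cmp : PM p (UU Ω) → Finset (UU Ω) → Prop := fun β B => ∀ h ∈ H, ∀ h' ∈ H',
    (∀ b ∈ B, h • b = h' • b) → chi D β h = chi D β h'
  let M' : AddSubgroup (PM p (UU Ω)) :=
    { carrier := {β | β ∈ PMS p (orb H x) ∧ ∃ B : Finset (UU Ω), (B : Set (UU Ω)) ⊆ S ∧
        Cmp β B}
      add_mem' := by
        rintro β γ ⟨h1, B₁, hB₁, hc1⟩ ⟨h2, B₂, hB₂, hc2⟩
        refine ⟨add_mem h1 h2, B₁ ∪ B₂, ?_, fun h hh h' hh' ha => ?_⟩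
        · rw [Finset.coe_union]
          exact Set.union_subset hB₁ hB₂
        · rw [chi_add, chi_add, hc1 h hh h' hh' fun b hb => ha b (Finset.mem_union_left _ hb),
            hc2 h hh h' hh' fun b hb => ha b (Finset.mem_union_right _ hb)]
      zero_mem' := by
        refine ⟨zero_mem _, ∅, by simp, fun h _ h' _ _ => ?_⟩
        have h0 : ∀ σ, chi D (0 : PM p (UU Ω)) σ = 0 := by
          intro σ
          have h1 := chi_add D (0 : PM p (UU Ω)) 0 σ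
          rw [add_zero] at h1
          exact left_eq_add.1 h1
        rw [h0, h0]
      neg_mem' := by
        rintro β ⟨h1, B₁, hB₁, hc1⟩
        refine ⟨neg_mem h1, B₁, hB₁, fun h hh h' hh' ha => ?_⟩
        rw [chi_neg, chi_neg, hc1 h hh h' hh' ha] }
  have hMI' : InvA (⊤ : Subgroup ↥G) M' := by
    rintro g - β ⟨h1, B₁, hB₁, hc1⟩
    have hgH : (g : Equiv.Perm Ω) ∈ H := hGH g.2
    have hgH' : (g : Equiv.Perm Ω) ∈ H' := hGH' g.2
    have h1' : β ∈ PMS p (orb H' x) := hox ▸ h1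
    refine ⟨mem_PMS.2 fun z hz => ?_, B₁.image (fun z => (g : Equiv.Perm Ω) • z), ?_,
      fun h hh h' hh' ha => ?_⟩
    · rw [J3b_ev]
      refine mem_PMS.1 h1 _ fun hc => hz ?_
      obtain ⟨k, hk, hkx⟩ := hc
      refine ⟨(g : Equiv.Perm Ω) * k, mul_mem hgH hk, ?_⟩
      rw [mul_smul, hkx, smul_inv_smul]
    · intro z hz
      obtain ⟨b, hb, rfl⟩ := Finset.mem_image.1 (Finset.mem_coe.1 hz)
      exact hSinv _ hgH b (hB₁ hb)
    · rw [J3b_chi_smul hGH hD h1 g hh, J3b_chi_smul hGH' hD' h1' g hh',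
        hc1 (h * g) (mul_mem hh hgH) (h' * g) (mul_mem hh' hgH') fun b hb => ?_]
      rw [mul_smul, mul_smul]
      exact ha _ (Finset.mem_image_of_mem _ hb)
  have hF' : ∀ f ∈ F, f ∈ M' := by
    intro f hf
    obtain ⟨h1, h2, h3⟩ := hB f hf
    refine ⟨hMP (hFM f hf), B f, h1, fun h hh h' hh' ha => ?_⟩
    refine cmp_base hD hD' ho (hMP (hFM f hf)) h2 h3 (fun k hk => ?_) hh hh' ha
    obtain ⟨l, hl, hlt⟩ := hT f hf k hk
    exact ⟨l, hl, fun b hb => hlt b (Finset.mem_union_left _ hb), fun x' hx' =>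
      hlt _ (Finset.mem_union_right _ (Finset.mem_image_of_mem _ (PM.mem_supp.2 hx')))⟩
  obtain ⟨-, B', hB', hc'⟩ := hFgen M' hMI' hF' ((hM β).2 hβ)
  exact ⟨B', hB', hc'⟩

end Pool.Agent.Lib.ThC

end

section

/-! # J3c: torsors of prime order: the orbits agree near `H` -/

set_option autoImplicit false
open scoped Pointwise

namespace Pool.Agent.Lib.ThC

variable {Ω : Type} {p : ℕ}

/-- Duality: the values of the cocycle on `KK H S` at a finite set `X₁` are exactly the vectors orthogonal to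
`BB H`. (A subspace of `F_p^{X₁}` is its double annihilator; `k ↦ (D k x')` is a homomorphism on
`KK H S` since it fixes `X₁ ⊆ S`.) -/
theorem lin_real [Fact p.Prime] {H : Subgroup (Equiv.Perm Ω)} {x y : UU Ω}
    {ρ : Multiplicative (ZMod p) → UU Ω → UU Ω} {s : UU Ω → UU Ω}
    {D : Equiv.Perm Ω → UU Ω → Multiplicative (ZMod p)}
    (hD : Coc (Multiplicative (ZMod p)) H x y ρ s D) {S : Set (UU Ω)} (hX : orb H x ⊆ S)
    (X₁ : Finset (UU Ω)) (hX₁ : (X₁ : Set (UU Ω)) ⊆ orb H x) (a : UU Ω → ZMod p)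
    (ha : ∀ β : PM p (UU Ω), IsBB S H x D β → (∀ x', x' ∉ X₁ → β.ev x' = 0) →
      ∑ x' ∈ X₁, β.ev x' * a x' = 0) :
    ∃ k ∈ KK H S, ∀ x' ∈ X₁, Multiplicative.toAdd (D k x') = a x' := by
  classical
  have hfix : ∀ k ∈ KK H S, ∀ x' ∈ X₁, k • x' = x' := by
    intro k hk x' hx'
    exact (mem_fixingSubgroup_iff _).1 hk.2 _ (hX (hX₁ hx'))
  let W : AddSubgroup (X₁ → ZMod p) :=
    { carrier := {v | ∃ k ∈ KK H S, ∀ x' : X₁, Multiplicative.toAdd (D k x') = v x'}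
      add_mem' := by
        rintro v w ⟨k, hk, hv⟩ ⟨l, hl, hw⟩
        refine ⟨k * l, mul_mem hk hl, fun x' => ?_⟩
        rw [coc_mul hD hk.1 hl.1 (hX₁ x'.2), hfix l hl x' x'.2, toAdd_mul, hv, hw]
        rfl
      zero_mem' := by
        refine ⟨1, one_mem _, fun x' => ?_⟩
        have h1 := coc_mul hD (one_mem H) (one_mem H) (hX₁ x'.2)
        rw [one_smul, one_mul] at h1
        have h2 : D 1 (x' : UU Ω) = 1 := by
          rw [← mul_eq_left (a := D 1 (x' : UU Ω))]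
          exact h1.symm
        rw [h2]
        rfl
      neg_mem' := by
        rintro v ⟨k, hk, hv⟩
        refine ⟨k⁻¹, inv_mem hk, fun x' => ?_⟩
        have h1 := coc_inv hD hk.1 (hX₁ x'.2)
        rw [hfix k hk x' x'.2] at h1
        rw [h1, toAdd_inv, hv]
        rfl }
  let W' : Submodule (ZMod p) (X₁ → ZMod p) := AddSubgroup.toZModSubmodule p W
  by_contra hcon
  have hnot : (fun x' : X₁ => a x') ∉ W' := by
    intro hmem
    have hmem' : (fun x' : X₁ => a x') ∈ W := hmem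
    obtain ⟨k, hk, hkv⟩ := hmem'
    exact hcon ⟨k, hk, fun x' hx' => hkv ⟨x', hx'⟩⟩
  obtain ⟨f, hfa, hfW⟩ := Submodule.exists_dual_map_eq_bot_of_notMem hnot inferInstance
  have hsum : ∀ v : X₁ → ZMod p, f v = ∑ x' : X₁, f (Pi.single x' 1) * v x' := by
    intro v
    conv_lhs => rw [pi_eq_sum_univ' v]
    rw [map_sum]
    refine Finset.sum_congr rfl fun x' _ => ?_
    rw [map_smul, smul_eq_mul, mul_comm]
  let c : UU Ω → ZMod p := fun y' => if hy : y' ∈ X₁ then f (Pi.single ⟨y', hy⟩ 1) else 0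
  have hc : ∀ x' : X₁, c x' = f (Pi.single x' 1) := by
    intro x'
    exact dif_pos x'.2
  let β : PM p (UU Ω) := (Finsupp.onFinset X₁ c (by
    intro y' hy'
    by_contra hc
    exact hy' (dif_neg hc)) : UU Ω →₀ ZMod p)
  have hev : ∀ y', β.ev y' = c y' := fun _ => rfl
  have hev0 : ∀ y', y' ∉ X₁ → β.ev y' = 0 := fun y' hy' => dif_neg hy'
  have hsub : β.supp ⊆ X₁ := by
    intro y' hy'
    by_contra hc
    exact PM.mem_supp.1 hy' (hev0 y' hc)
  have hchi : ∀ k, chi D β k = ∑ x' ∈ X₁, β.ev x' * Multiplicative.toAdd (D k x') := by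
    intro k
    unfold chi
    refine Finset.sum_subset hsub fun y' _ hy' => ?_
    have h1 : β.ev y' = 0 := by
      by_contra hc
      exact hy' (PM.mem_supp.2 hc)
    rw [h1, zero_mul]
  have hBB : IsBB S H x D β := by
    refine ⟨mem_PMS.2 fun y' hy' => hev0 y' fun h1 => hy' (hX₁ h1), fun k hk => ?_⟩
    rw [hchi, ← Finset.sum_coe_sort]
    have h1 : f (fun x' : X₁ => Multiplicative.toAdd (D k x')) = 0 := by
      have h2 : (fun x' : X₁ => Multiplicative.toAdd (D k x')) ∈ W' := by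
        change (fun x' : X₁ => Multiplicative.toAdd (D k x')) ∈ W
        exact ⟨k, hk, fun _ => rfl⟩
      have h3 := Submodule.mem_map_of_mem (f := f) h2
      rw [hfW] at h3
      exact (Submodule.mem_bot _).1 h3
    rw [hsum] at h1
    rw [← h1]
    refine Finset.sum_congr rfl fun x' _ => ?_
    rw [hev, hc]
  have h4 := ha β hBB hev0
  rw [← Finset.sum_coe_sort] at h4
  apply hfa
  rw [hsum, ← h4]
  refine Finset.sum_congr rfl fun x' _ => ?_
  rw [hev, hc]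

end Pool.Agent.Lib.ThC

end

section

/-! # J3d: torsors of prime order: the orbits agree near `H` -/

set_option autoImplicit false
open scoped Pointwise

namespace Pool.Agent.Lib.ThC

variable {Ω : Type} {p : ℕ}

/-- finitely many vectors supported in a finite set. -/
theorem J3d_fin [Fact p.Prime] (X₁ : Finset (UU Ω)) :
    {β : PM p (UU Ω) | ∀ x', x' ∉ X₁ → β.ev x' = 0}.Finite := by
  have : NeZero p := ⟨(Fact.out : p.Prime).ne_zero⟩
  refine Set.Finite.of_injOn (f := fun (β : PM p (UU Ω)) (x' : X₁) => β.ev x'.1)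
    (t := (Set.univ : Set (X₁ → ZMod p))) (fun _ _ => Set.mem_univ _) ?_ Set.finite_univ
  intro β hβ γ hγ h
  refine PM.ext (fun y => ?_)
  by_cases hy : y ∈ X₁
  · exact congrFun h ⟨y, hy⟩
  · rw [hβ y hy, hγ y hy]

theorem J3d_chi (D : Equiv.Perm Ω → UU Ω → Multiplicative (ZMod p)) {β : PM p (UU Ω)}
    {X₁ : Finset (UU Ω)} (hβ : ∀ x', x' ∉ X₁ → β.ev x' = 0) (σ : Equiv.Perm Ω) :
    chi D β σ = ∑ x' ∈ X₁, β.ev x' * Multiplicative.toAdd (D σ x') := by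
  unfold chi
  refine Finset.sum_subset ?_ ?_
  · intro x' hx'
    by_contra h
    exact (PM.mem_supp.mp hx') (hβ x' h)
  · intro x' _ hx'
    have : β.ev x' = 0 := by
      by_contra h
      exact hx' (PM.mem_supp.mpr h)
    rw [this, zero_mul]

/-- One direction of the agreement.  Let `B₁ = B ∪ X₁ ∪` (the sets of `hcmp` for the finitely many
`β` in `BB H` supported in `X₁`).  Take `h₀ ∈ H'` with `h₀ = h` on `B₁` (`agrS_finset`),
`a x' = D h x' - D h₀ x'` (additively).  By `hcmp` `∑ β a = 0`, so `lin_real` for `H'` gives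
`k ∈ KK H' S` with `D k = a` on `X₁`; `h' = h₀ k`. -/
theorem agr_dir [Fact p.Prime] {H H' : Subgroup (Equiv.Perm Ω)} {x y : UU Ω}
    {ρ : Multiplicative (ZMod p) → UU Ω → UU Ω} {s : UU Ω → UU Ω}
    {D : Equiv.Perm Ω → UU Ω → Multiplicative (ZMod p)}
    (hD : Coc (Multiplicative (ZMod p)) H x y ρ s D)
    (hD' : Coc (Multiplicative (ZMod p)) H' x y ρ s D)
    (hox : orb H x = orb H' x)
    {S : Set (UU Ω)} (hX : orb H x ⊆ S) (hA : AgrS S H H')
    (hcmp : ∀ β : PM p (UU Ω), IsBB S H' x D β →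
      ∃ B : Finset (UU Ω), (B : Set (UU Ω)) ⊆ S ∧ ∀ h ∈ H, ∀ h' ∈ H',
        (∀ b ∈ B, h • b = h' • b) → chi D β h = chi D β h')
    {h : Equiv.Perm Ω} (hh : h ∈ H) (B X₁ : Finset (UU Ω)) (hB : (B : Set (UU Ω)) ⊆ S)
    (hX₁ : (X₁ : Set (UU Ω)) ⊆ orb H x) : ∃ h' ∈ H', (∀ b ∈ B, h' • b = h • b) ∧
        ∀ x' ∈ X₁, D h' x' = D h x' := by
  classical
  have hfin : {β : PM p (UU Ω) | (∀ x', x' ∉ X₁ → β.ev x' = 0) ∧ IsBB S H' x D β}.Finite :=
    (J3d_fin (p := p) X₁).subset (fun β hβ => hβ.1)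
  choose! Bf hBf hBc using hcmp
  set F : Finset (PM p (UU Ω)) := hfin.toFinset with hF
  have hFmem : ∀ β, β ∈ F ↔ (∀ x', x' ∉ X₁ → β.ev x' = 0) ∧ IsBB S H' x D β := by
    intro β
    rw [hF, Set.Finite.mem_toFinset]
    exact Iff.rfl
  set B₁ : Finset (UU Ω) := (B ∪ X₁) ∪ F.biUnion Bf with hB₁
  have hB₁S : (B₁ : Set (UU Ω)) ⊆ S := by
    intro b hb
    rw [hB₁, Finset.mem_coe, Finset.mem_union, Finset.mem_union, Finset.mem_biUnion] at hb
    rcases hb with (hb | hb) | ⟨β, hβ, hb⟩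
    · exact hB hb
    · exact hX (hX₁ hb)
    · exact hBf β ((hFmem β).mp hβ).2 hb
  obtain ⟨h₀, hh₀, hag⟩ := agrS_finset hA B₁ hB₁S hh
  have hX' : orb H' x ⊆ S := hox ▸ hX
  have hX₁' : (X₁ : Set (UU Ω)) ⊆ orb H' x := hox ▸ hX₁
  obtain ⟨k, hk, hka⟩ := lin_real hD' hX' X₁ hX₁'
    (fun x' => Multiplicative.toAdd (D h x') - Multiplicative.toAdd (D h₀ x')) (by
      intro β hβ hβX
      have hβF : β ∈ F := (hFmem β).mpr ⟨hβX, hβ⟩
      have hc : chi D β h = chi D β h₀ := by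
        refine hBc β hβ h hh h₀ hh₀ (fun b hb => ?_)
        refine (hag b ?_).symm
        rw [hB₁, Finset.mem_union, Finset.mem_biUnion]
        exact Or.inr ⟨β, hβF, hb⟩
      rw [J3d_chi D hβX, J3d_chi D hβX] at hc
      rw [← sub_eq_zero, ← Finset.sum_sub_distrib] at hc
      rw [← hc]
      refine Finset.sum_congr rfl (fun x' _ => ?_)
      ring)
  have hkH : k ∈ H' := hk.1
  have hkfix : ∀ z ∈ S, k • z = z := by
    intro z hz
    have h2 : k ∈ fixingSubgroup (Equiv.Perm Ω) S := hk.2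
    exact (mem_fixingSubgroup_iff _).mp h2 z hz
  refine ⟨h₀ * k, H'.mul_mem hh₀ hkH, ?_, ?_⟩
  · intro b hb
    rw [mul_smul, hkfix b (hB hb)]
    exact hag b (by
      rw [hB₁, Finset.mem_union, Finset.mem_union]
      exact Or.inl (Or.inl hb))
  · intro x' hx'
    rw [coc_mul hD' hh₀ hkH (hX₁' hx'), hkfix x' (hX (hX₁ hx'))]
    apply Multiplicative.toAdd.injective
    rw [toAdd_mul, hka x' hx']
    ring

/-- (G1) for the prime case: `agrS_of_coc` with `agr_dir` in both directions, `near_bb`,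
`near_cmp`. -/
theorem near_agr_p [Countable Ω] {G H : Subgroup (Equiv.Perm Ω)} [Fact p.Prime]
    (hN : Nice Ω ↥G) (hCG : Cpl Ω ↥G) (hGH : G ≤ H) (hC : Cpl Ω ↥H) {x y : UU Ω}
    {ρ : Multiplicative (ZMod p) → UU Ω → UU Ω} {s : UU Ω → UU Ω}
    {D : Equiv.Perm Ω → UU Ω → Multiplicative (ZMod p)}
    (hD : Coc (Multiplicative (ZMod p)) H x y ρ s D)
    (hDn : Near G H (fun H' => Coc (Multiplicative (ZMod p)) H' x y ρ s D ∧
      orb H x = orb H' x ∧ orb H y = orb H' y ∧ orb H (x, y) = orb H' (x, y)))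
    {S : Set (UU Ω)} (hS : Good G H S) (hX : orb H x ⊆ S) :
    Near G H (fun H' => AgrS (S ∪ orb H y) H H') := by
  refine near_mono (near_and (near_and hDn hS.near)
    (near_and (near_bb hN hCG hGH hC hD hDn hS hX)
      (near_cmp hN hCG hGH hC hD hDn hS hX))) ?_
  rintro H' _ _ ⟨⟨⟨hD', hox, hoy, hoxy⟩, _, hA⟩, hbb, hcmp⟩
  refine agrS_of_coc hD hD' hoxy hX ?_ ?_
  · intro h hh B X₁ hB hX₁
    refine agr_dir hD hD' hox hX hA ?_ hh B X₁ hB hX₁
    intro β hβ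
    exact hcmp β ((hbb β).mpr hβ)
  · intro h' hh' B X₁ hB hX₁
    refine agr_dir hD' hD hox.symm (hox ▸ hX) (agrS_symm hA) ?_ hh' B X₁ hB (hox ▸ hX₁)
    intro β hβ
    obtain ⟨B', hB'S, hB'⟩ := hcmp β hβ
    exact ⟨B', hB'S, fun h hh h'' hh'' hb =>
      (hB' h'' hh'' h hh (fun b hbB => (hb b hbB).symm)).symm⟩

end Pool.Agent.Lib.ThC

end

section

/-! # J4a: torsors of prime order: the uniform finite index property -/

set_option autoImplicit false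
open scoped Pointwise

namespace Pool.Agent.Lib.ThC

variable {Ω : Type} {p : ℕ}

/-- separation of a vector from a subgroup of `F_p^ι`. -/
private theorem J4a_sep [Fact p.Prime] {ι : Type} [Fintype ι] [DecidableEq ι]
    (W : AddSubgroup (ι → ZMod p)) {v : ι → ZMod p} (hv : v ∉ W) :
    ∃ c : ι → ZMod p, (∀ w ∈ W, ∑ i, c i * w i = 0) ∧ ∑ i, c i * v i ≠ 0 := by
  let P : Submodule (ZMod p) (ι → ZMod p) := AddSubgroup.toZModSubmodule p W
  have hvP : v ∉ P := hv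
  obtain ⟨f, hf1, hf2⟩ := Submodule.exists_dual_map_eq_bot_of_notMem hvP inferInstance
  have hf : ∀ w : ι → ZMod p, f w = ∑ i, f (Pi.single i 1) * w i := by
    intro w
    rw [LinearMap.pi_apply_eq_sum_univ f w]
    refine Finset.sum_congr rfl (fun i _ => ?_)
    rw [smul_eq_mul, mul_comm]
    congr 2
    funext j
    simp [Pi.single_apply, eq_comm]
  refine ⟨fun i => f (Pi.single i 1), ?_, ?_⟩
  · intro w hw
    rw [← hf]
    have h1 : f w ∈ P.map f := Submodule.mem_map_of_mem hw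
    rw [hf2] at h1
    exact h1
  · rw [← hf]
    exact hf1

/-- the same for the values of a homomorphism. -/
theorem J4a_dual [Fact p.Prime] {ι : Type} [Fintype ι] (R : Subgroup (Equiv.Perm Ω))
    (θ : Equiv.Perm Ω → ι → ZMod p) (hθ : ∀ u ∈ R, ∀ u' ∈ R, θ (u * u') = θ u + θ u')
    (v : ι → ZMod p) (hv : ∀ u ∈ R, θ u ≠ v) :
    ∃ c : ι → ZMod p, (∀ u ∈ R, ∑ i, c i * θ u i = 0) ∧ ∑ i, c i * v i ≠ 0 := by
  classical
  have h1 : θ 1 = 0 := by
    have h := hθ 1 R.one_mem 1 R.one_mem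
    rw [mul_one] at h
    have h2 : θ 1 + 0 = θ 1 + θ 1 := by rw [add_zero]; exact h
    exact (add_left_cancel h2).symm
  let W : AddSubgroup (ι → ZMod p) :=
    { carrier := {w | ∃ u ∈ R, θ u = w}
      add_mem' := by
        rintro _ _ ⟨u, hu, rfl⟩ ⟨u', hu', rfl⟩
        exact ⟨u * u', R.mul_mem hu hu', hθ u hu u' hu'⟩
      zero_mem' := ⟨1, R.one_mem, h1⟩
      neg_mem' := by
        rintro _ ⟨u, hu, rfl⟩
        refine ⟨u⁻¹, R.inv_mem hu, ?_⟩
        have h := hθ u hu u⁻¹ (R.inv_mem hu)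
        rw [mul_inv_cancel, h1] at h
        exact (neg_eq_of_add_eq_zero_right h.symm).symm }
  obtain ⟨c, hc1, hc2⟩ := J4a_sep W (v := v) (by
    rintro ⟨u, hu, h⟩
    exact hv u hu h)
  exact ⟨c, fun u hu => hc1 (θ u) ⟨u, hu, rfl⟩, hc2⟩

theorem J4a_fix {H : Subgroup (Equiv.Perm Ω)} {S : Set (UU Ω)} {k : Equiv.Perm Ω}
    (hk : k ∈ KK H S) {t : UU Ω} (ht : t ∈ S) : k • t = t :=
  (mem_fixingSubgroup_iff _).mp hk.2 t ht

theorem J4a_mem {X : Set (UU Ω)} {β : PM p (UU Ω)} (hβ : β ∈ PMS p X) {x' : UU Ω}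
    (h : β.ev x' ≠ 0) : x' ∈ X := by
  by_contra hcon
  exact h (hβ x' hcon)

/-- the cocycle is additive on the pointwise stabiliser of `S`. -/
theorem J4a_add {H : Subgroup (Equiv.Perm Ω)} {x y : UU Ω}
    {ρ : Multiplicative (ZMod p) → UU Ω → UU Ω} {s : UU Ω → UU Ω}
    {D : Equiv.Perm Ω → UU Ω → Multiplicative (ZMod p)}
    (hD : Coc (Multiplicative (ZMod p)) H x y ρ s D) {S : Set (UU Ω)} (hX : orb H x ⊆ S)
    {u u' : Equiv.Perm Ω} (hu : u ∈ KK H S) (hu' : u' ∈ KK H S) {x' : UU Ω}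
    (hx' : x' ∈ orb H x) :
    Multiplicative.toAdd (D (u * u') x') =
      Multiplicative.toAdd (D u x') + Multiplicative.toAdd (D u' x') := by
  rw [coc_mul hD hu.1 hu'.1 hx', J4a_fix hu' (hX hx')]
  rfl

/-- the pairing as a sum over a larger finite set. -/
theorem J4a_chi (D : Equiv.Perm Ω → UU Ω → Multiplicative (ZMod p)) {β : PM p (UU Ω)}
    (X₂ : Finset (UU Ω)) (hβ : β ∈ PMS p (X₂ : Set (UU Ω))) (σ : Equiv.Perm Ω) :
    chi D β σ = ∑ x' ∈ X₂, β.ev x' * Multiplicative.toAdd (D σ x') := by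
  unfold chi
  refine Finset.sum_subset ?_ ?_
  · intro x' hx'
    exact J4a_mem hβ (PM.mem_supp.mp hx')
  · intro x' _ hx'
    have h : β.ev x' = 0 := by
      by_contra hcon
      exact hx' (PM.mem_supp.mpr hcon)
    rw [h, zero_mul]

/-- For any torsor: an open subgroup `U ≥ fx B'`, `B' ⊆ S ∪ E`, contains every `k` fixing `S` which has the same
cocycle values as some `u ∈ U` fixing `S`, at the finitely many points `X₂` below `B'`
(`u⁻¹ k` fixes `B'`). -/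
theorem coc_lift {A : Type} [Group A] {H : Subgroup (Equiv.Perm Ω)} {x y : UU Ω}
    {ρ : A → UU Ω → UU Ω} {s : UU Ω → UU Ω} {D : Equiv.Perm Ω → UU Ω → A}
    (hD : Coc A H x y ρ s D) {S : Set (UU Ω)} (hX : orb H x ⊆ S)
    {U : Subgroup ↥H} {B' : Finset (UU Ω)} (hU : fx ↥H B' ≤ U)
    (X₂ : Finset (UU Ω)) (hX₂ : (X₂ : Set (UU Ω)) ⊆ orb H x)
    (hB' : ∀ e ∈ B', e ∈ S ∨ ∃ x' ∈ X₂, (x', e) ∈ orb H (x, y))
    {k u : ↥H} (hk : ∀ t ∈ S, k • t = t) (hu : ∀ t ∈ S, u • t = t) (huU : u ∈ U)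
    (huk : ∀ x' ∈ X₂, D (u : Equiv.Perm Ω) x' = D (k : Equiv.Perm Ω) x') : k ∈ U := by
  have key : u⁻¹ * k ∈ fx ↥H B' := by
    rw [mem_fixingSubgroup_iff]
    intro e he
    rw [mul_smul, inv_smul_eq_iff]
    rcases hB' e he with heS | ⟨x', hx', hxe⟩
    · rw [hk e heS, hu e heS]
    · have hxo : x' ∈ orb H x := hX₂ hx'
      obtain ⟨a, rfl⟩ := (tors_fib hD.tors (hD.sec x' hxo) e).mp hxe
      have h1 : (u : Equiv.Perm Ω) • x' = x' := hu x' (hX hxo)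
      have h2 : (k : Equiv.Perm Ω) • x' = x' := hk x' (hX hxo)
      show (k : Equiv.Perm Ω) • ρ a (s x') = (u : Equiv.Perm Ω) • ρ a (s x')
      rw [coc_act hD k.2 hxo a, coc_act hD u.2 hxo a, h1, h2, huk x' hx']
  have h3 := U.mul_mem huU (hU key)
  rwa [mul_inv_cancel_left] at h3

/-- Duality with a finite set `J`: if `χ_δ` vanishes on all `k ∈ KK H S` with `D k = 1` on `J`, then
`δ` is in `BB H` modulo functions supported in `J`. -/
theorem lin_mod [Fact p.Prime] {H : Subgroup (Equiv.Perm Ω)} {x y : UU Ω}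
    {ρ : Multiplicative (ZMod p) → UU Ω → UU Ω} {s : UU Ω → UU Ω}
    {D : Equiv.Perm Ω → UU Ω → Multiplicative (ZMod p)}
    (hD : Coc (Multiplicative (ZMod p)) H x y ρ s D) {S : Set (UU Ω)} (hX : orb H x ⊆ S)
    (J : Finset (UU Ω)) (hJ : (J : Set (UU Ω)) ⊆ orb H x) {δ : PM p (UU Ω)}
    (hδ : δ ∈ PMS p (orb H x))
    (h : ∀ k ∈ KK H S, (∀ x' ∈ J, D k x' = 1) → chi D δ k = 0) :
    ∃ δ' ∈ PMS p (J : Set (UU Ω)), IsBB S H x D (δ - δ') := by
  classical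
  -- the functions on `Option J`
  obtain ⟨c, hc1, hc2⟩ := J4a_dual (KK H S)
    (fun (k : Equiv.Perm Ω) (i : Option {x' // x' ∈ J}) => Option.elim i (chi D δ k)
      (fun x' => Multiplicative.toAdd (D k x'.1)))
    (by
      intro u hu u' hu'
      funext i
      cases i with
      | none =>
        exact chi_mul hD hδ hu.1 hu'.1 (fun x' hx' => J4a_fix hu' (hX (J4a_mem hδ hx')))
      | some x' =>
        exact J4a_add hD hX hu hu' (hJ x'.2))
    (fun i => Option.elim i 1 (fun _ => 0))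
    (by
      intro u hu hcon
      have h1 := congrFun hcon none
      have h2 : chi D δ u = 0 := by
        refine h u hu (fun x' hx' => ?_)
        have h3 := congrFun hcon (some ⟨x', hx'⟩)
        exact Multiplicative.toAdd.injective h3
      have h4 : chi D δ u = 1 := h1
      rw [h2] at h4
      exact zero_ne_one h4)
  simp only [Fintype.sum_option, Option.elim_none, Option.elim_some] at hc1 hc2
  have hc0 : c none ≠ 0 := by
    intro h0
    apply hc2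
    rw [h0]
    simp
  let δ' : PM p (UU Ω) := (Finsupp.onFinset J
    (fun x' => if hx' : x' ∈ J then -(c none)⁻¹ * c (some ⟨x', hx'⟩) else 0) (by
      intro x' hx'
      by_contra hcon
      rw [dif_neg hcon] at hx'
      exact hx' rfl) : UU Ω →₀ ZMod p)
  have hδ'ev : ∀ x', δ'.ev x' = if hx' : x' ∈ J then -(c none)⁻¹ * c (some ⟨x', hx'⟩) else 0 :=
    fun _ => rfl
  have hδ'J : δ' ∈ PMS p (J : Set (UU Ω)) := by
    intro x' hx'
    rw [hδ'ev, dif_neg (fun h => hx' (Finset.mem_coe.mpr h))]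
  refine ⟨δ', hδ'J, ?_, ?_⟩
  · refine AddSubgroup.sub_mem _ hδ ?_
    intro x' hx'
    exact hδ'J x' (fun h => hx' (hJ h))
  · intro k hk
    rw [sub_eq_add_neg, chi_add, chi_neg, J4a_chi D J hδ'J]
    have h1 := hc1 k hk
    have h2 : ∑ x' ∈ J, δ'.ev x' * Multiplicative.toAdd (D k x') =
        ∑ x' : {x' // x' ∈ J}, -(c none)⁻¹ * (c (some x') * Multiplicative.toAdd (D k x'.1)) := by
      rw [← Finset.sum_coe_sort]
      refine Finset.sum_congr rfl (fun x' _ => ?_)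
      rw [hδ'ev, dif_pos x'.2, mul_assoc]
    rw [h2, ← Finset.mul_sum]
    have h3 : ∑ x' : {x' // x' ∈ J}, c (some x') * Multiplicative.toAdd (D k x'.1) =
        -(c none * chi D δ k) := by
      rw [eq_neg_iff_add_eq_zero, add_comm]
      exact h1
    rw [h3]
    field_simp
    ring

/-- Separation: if no `u` in the subgroup `R ≤ KK H S` has the cocycle values of `k` on the finite set
`X₂`, there is `α` supported in `X₂` with `χ_α = 0` on `R`, `χ_α(k) ≠ 0`. -/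
theorem lin_sep [Fact p.Prime] {H : Subgroup (Equiv.Perm Ω)} {x y : UU Ω}
    {ρ : Multiplicative (ZMod p) → UU Ω → UU Ω} {s : UU Ω → UU Ω}
    {D : Equiv.Perm Ω → UU Ω → Multiplicative (ZMod p)}
    (hD : Coc (Multiplicative (ZMod p)) H x y ρ s D) {S : Set (UU Ω)} (hX : orb H x ⊆ S)
    (X₂ : Finset (UU Ω)) (hX₂ : (X₂ : Set (UU Ω)) ⊆ orb H x) (R : Subgroup (Equiv.Perm Ω))
    (hR : R ≤ KK H S) {k : Equiv.Perm Ω} (hk : k ∈ KK H S)
    (h : ∀ u ∈ R, ∃ x' ∈ X₂, D u x' ≠ D k x') :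
    ∃ α ∈ PMS p (X₂ : Set (UU Ω)), (∀ u ∈ R, chi D α u = 0) ∧ chi D α k ≠ 0 := by
  classical
  obtain ⟨c, hc1, hc2⟩ := J4a_dual R
    (fun (k : Equiv.Perm Ω) (i : {x' // x' ∈ X₂}) => Multiplicative.toAdd (D k i.1))
    (by
      intro u hu u' hu'
      funext x'
      exact J4a_add hD hX (hR hu) (hR hu') (hX₂ x'.2))
    (fun i => Multiplicative.toAdd (D k i.1))
    (by
      intro u hu hcon
      obtain ⟨x', hx', hne⟩ := h u hu
      apply hne
      have h1 := congrFun hcon ⟨x', hx'⟩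
      exact Multiplicative.toAdd.injective h1)
  let α : PM p (UU Ω) := (Finsupp.onFinset X₂
    (fun x' => if hx' : x' ∈ X₂ then c ⟨x', hx'⟩ else 0) (by
      intro x' hx'
      by_contra hcon
      rw [dif_neg hcon] at hx'
      exact hx' rfl) : UU Ω →₀ ZMod p)
  have hαev : ∀ x', α.ev x' = if hx' : x' ∈ X₂ then c ⟨x', hx'⟩ else 0 := fun _ => rfl
  have hαX : α ∈ PMS p (X₂ : Set (UU Ω)) := by
    intro x' hx'
    rw [hαev, dif_neg (fun h => hx' (Finset.mem_coe.mpr h))]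
  have hchi : ∀ σ, chi D α σ =
      ∑ x' : {x' // x' ∈ X₂}, c x' * Multiplicative.toAdd (D σ x'.1) := by
    intro σ
    rw [J4a_chi D X₂ hαX, ← Finset.sum_coe_sort]
    refine Finset.sum_congr rfl (fun x' _ => ?_)
    rw [hαev, dif_pos x'.2]
  refine ⟨α, hαX, ?_, ?_⟩
  · intro u hu
    rw [hchi]
    exact hc1 u hu
  · rw [hchi]
    exact hc2

end Pool.Agent.Lib.ThC

end

section

/-! # J4b: torsors of prime order: the uniform finite index property -/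

set_option autoImplicit false
open scoped Pointwise

namespace Pool.Agent.Lib.ThC

variable {Ω : Type} {p : ℕ}

private theorem J4b_fix {H : Subgroup (Equiv.Perm Ω)} {S : Set (UU Ω)} {k : Equiv.Perm Ω}
    (hk : k ∈ KK H S) {t : UU Ω} (ht : t ∈ S) : k • t = t :=
  (mem_fixingSubgroup_iff _).mp hk.2 t ht

private theorem J4b_mem {X : Set (UU Ω)} {β : PM p (UU Ω)} (hβ : β ∈ PMS p X) {x' : UU Ω}
    (h : β.ev x' ≠ 0) : x' ∈ X := by
  by_contra hcon
  exact h (hβ x' hcon)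

/-- Let `Q ≤ H`, `J` finite with `Q` fixing `J` pointwise and containing all `k ∈ KK H S` with `D k = 1` on `J`
(and only these elements of `KK H S`), `R ≤ KK H S ⊓ Q` of finite index in
`KK H S ⊓ Q` and normalised by `Q`.  If `χ_α` vanishes on `R`
then the translates `q α`, `q ∈ Q ⊓ G`, lie in finitely many classes modulo
`M₁ = BB H + PMS J`.  Proof: all `q α` vanish on `R` (`chi_smul`).  Let `k₁, …, k_m` represent
`(KK H S ⊓ Q) / R`.  If `γ, γ'` vanish on `R` and `χ_γ(k_i) = χ_{γ'}(k_i)` for all `i`, then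
`γ - γ' ∈ M₁` by `lin_mod`.  So there are at most `p^m` classes. -/
theorem lin_orb [Fact p.Prime] {G H : Subgroup (Equiv.Perm Ω)} (hGH : G ≤ H) {x y : UU Ω}
    {ρ : Multiplicative (ZMod p) → UU Ω → UU Ω} {s : UU Ω → UU Ω}
    {D : Equiv.Perm Ω → UU Ω → Multiplicative (ZMod p)}
    (hD : Coc (Multiplicative (ZMod p)) H x y ρ s D) {S : Set (UU Ω)} (hX : orb H x ⊆ S)
    (hS : ∀ h ∈ H, ∀ s ∈ S, h • s ∈ S)
    (J : Finset (UU Ω)) (hJ : (J : Set (UU Ω)) ⊆ orb H x) (Q R : Subgroup (Equiv.Perm Ω))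
    (hQ : Q ≤ H) (hQJ : ∀ q ∈ Q, ∀ x' ∈ J, q • x' = x')
    (hQK : ∀ k ∈ KK H S, k ∈ Q ↔ ∀ x' ∈ J, D k x' = 1)
    (hR : R ≤ KK H S ⊓ Q) (hfi : R.relIndex (KK H S ⊓ Q) ≠ 0)
    (hn : ∀ q ∈ Q, ∀ u ∈ R, q * u * q⁻¹ ∈ R) {α : PM p (UU Ω)}
    (hα : α ∈ PMS p (orb H x)) (hαR : ∀ u ∈ R, chi D α u = 0) :
    ∃ F' : Finset (PM p (UU Ω)), ∀ q : ↥G, (q : Equiv.Perm Ω) ∈ Q → ∃ f ∈ F',
      ∃ δ' ∈ PMS p (J : Set (UU Ω)), IsBB S H x D (q • α - f - δ') := by
  classical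
  let K' : Subgroup (Equiv.Perm Ω) := KK H S ⊓ Q
  -- vanishing on `R` for the translates
  have hvan : ∀ q : ↥G, (q : Equiv.Perm Ω) ∈ Q →
      q • α ∈ PMS p (orb H x) ∧ ∀ u ∈ R, chi D (q • α) u = 0 := by
    intro q hq
    have hmem : q • α ∈ PMS p (orb H x) := by
      intro y' hy'
      show ((q : Equiv.Perm Ω) • α).ev y' = 0
      rw [PM.smul_ev]
      apply hα
      intro hcon
      apply hy'
      obtain ⟨h, hh, hhx⟩ := hcon
      refine ⟨(q : Equiv.Perm Ω) * h, H.mul_mem (hGH q.2) hh, ?_⟩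
      rw [mul_smul, hhx]
      exact smul_inv_smul (q : Equiv.Perm Ω) y'
    refine ⟨hmem, fun u hu => ?_⟩
    have hRu := hR hu
    rw [chi_smul hGH hD hα q hRu.1.1 ?_]
    · apply hαR
      have h1 := hn (q : Equiv.Perm Ω)⁻¹ (Q.inv_mem hq) u hu
      rwa [inv_inv] at h1
    · intro x' hx'
      apply J4b_fix hRu.1
      apply hX
      obtain ⟨h, hh, hhx⟩ := J4b_mem hα hx'
      exact ⟨(q : Equiv.Perm Ω) * h, H.mul_mem (hGH q.2) hh, by rw [mul_smul, hhx]⟩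
  have hfi' : (R.subgroupOf K').FiniteIndex := ⟨hfi⟩
  have hfin : Finite (↥K' ⧸ R.subgroupOf K') := inferInstance
  -- the values at representatives
  let Θ : PM p (UU Ω) → ((↥K' ⧸ R.subgroupOf K') → ZMod p) := fun γ c => chi D γ (c.out : ↥K')
  let T : Set (PM p (UU Ω)) := {γ | ∃ q : ↥G, (q : Equiv.Perm Ω) ∈ Q ∧ γ = q • α}
  have hfin2 : Finite ((↥K' ⧸ R.subgroupOf K') → ZMod p) := Pi.finite
  let _ := Fintype.ofFinite ((↥K' ⧸ R.subgroupOf K') → ZMod p)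
  let gg : ((↥K' ⧸ R.subgroupOf K') → ZMod p) → PM p (UU Ω) := fun v =>
    if h : ∃ γ ∈ T, Θ γ = v then h.choose else 0
  refine ⟨Finset.univ.image gg, fun q hq => ?_⟩
  have hex : ∃ γ ∈ T, Θ γ = Θ (q • α) := ⟨q • α, ⟨q, hq, rfl⟩, rfl⟩
  have hgg : gg (Θ (q • α)) ∈ T ∧ Θ (gg (Θ (q • α))) = Θ (q • α) := by
    have h1 : gg (Θ (q • α)) = hex.choose := dif_pos hex
    rw [h1]
    exact hex.choose_spec
  refine ⟨gg (Θ (q • α)), Finset.mem_image_of_mem _ (Finset.mem_univ _), ?_⟩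
  obtain ⟨⟨q', hq', hf⟩, hΘ⟩ := hgg
  rw [hf] at hΘ ⊢
  obtain ⟨m1, m2⟩ := hvan q hq
  obtain ⟨m3, m4⟩ := hvan q' hq'
  have hδm : q • α - q' • α ∈ PMS p (orb H x) := AddSubgroup.sub_mem _ m1 m3
  refine lin_mod hD hX J hJ hδm ?_
  intro k hk hkJ
  have hkQ : k ∈ Q := (hQK k hk).mpr hkJ
  have hkK' : k ∈ K' := ⟨hk, hkQ⟩
  let c : ↥K' ⧸ R.subgroupOf K' := QuotientGroup.mk ⟨k, hkK'⟩
  have hcR : ((c.out : ↥K') : Equiv.Perm Ω)⁻¹ * k ∈ R := by
    have h1 : (QuotientGroup.mk (c.out : ↥K') : ↥K' ⧸ R.subgroupOf K') =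
        QuotientGroup.mk ⟨k, hkK'⟩ := QuotientGroup.out_eq' c
    have h2 := QuotientGroup.eq.mp h1
    exact h2
  have hc1 : ((c.out : ↥K') : Equiv.Perm Ω) ∈ KK H S := (c.out : ↥K').2.1
  have e1 : k = ((c.out : ↥K') : Equiv.Perm Ω) * (((c.out : ↥K') : Equiv.Perm Ω)⁻¹ * k) := by
    rw [mul_inv_cancel_left]
  rw [e1, chi_mul hD hδm hc1.1 (hR hcR).1.1 (fun x' hx' =>
    J4b_fix (hR hcR).1 (hX (J4b_mem hδm hx')))]
  have e2 : chi D (q • α - q' • α) ((c.out : ↥K') : Equiv.Perm Ω) = 0 := by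
    have h1 := congrFun hΘ c
    have h2 : chi D (q' • α) ((c.out : ↥K') : Equiv.Perm Ω) =
      chi D (q • α) ((c.out : ↥K') : Equiv.Perm Ω) := h1
    rw [sub_eq_add_neg, chi_add, chi_neg, h2, add_neg_cancel]
  have e3 : chi D (q • α - q' • α) (((c.out : ↥K') : Equiv.Perm Ω)⁻¹ * k) = 0 := by
    rw [sub_eq_add_neg, chi_add, chi_neg, m2 _ hcR, m4 _ hcR, neg_zero, add_zero]
  rw [e2, e3, add_zero]

end Pool.Agent.Lib.ThC

end

section

/-! # J4c: torsors of prime order: the uniform finite index property -/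

set_option autoImplicit false
open scoped Pointwise

namespace Pool.Agent.Lib.ThC

variable {Ω : Type} {p : ℕ}

theorem J4c_snd {H : Subgroup (Equiv.Perm Ω)} {x y x' e : UU Ω}
    (h : (x', e) ∈ orb H (x, y)) : e ∈ orb H y := by
  obtain ⟨g, hg, hge⟩ := h
  exact ⟨g, hg, (Prod.ext_iff.mp hge).2⟩

/-- an element of `H` fixing `e` fixes the point below. -/
theorem J4c_fix {H : Subgroup (Equiv.Perm Ω)} {x y x' e : UU Ω}
    (hle : st ↥H y ≤ st ↥H x) (h : (x', e) ∈ orb H (x, y)) {q : Equiv.Perm Ω} (hq : q ∈ H)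
    (hqe : q • e = e) : q • x' = x' := by
  obtain ⟨g, hg, hge⟩ := h
  have h1 : g • x = x' := (Prod.ext_iff.mp hge).1
  have h2 : g • y = e := (Prod.ext_iff.mp hge).2
  have h3 : (⟨g⁻¹ * q * g, H.mul_mem (H.mul_mem (H.inv_mem hg) hq) hg⟩ : ↥H) ∈ st ↥H y := by
    rw [MulAction.mem_stabilizer_iff]
    show (g⁻¹ * q * g) • y = y
    rw [mul_smul, mul_smul, h2, hqe, ← h2, inv_smul_smul]
  have h4 := hle h3
  rw [MulAction.mem_stabilizer_iff] at h4
  have h5 : (g⁻¹ * q * g) • x = x := h4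
  rw [mul_smul, mul_smul, h1, inv_smul_eq_iff, h1] at h5
  exact h5

theorem J4c_chi_zero {D : Equiv.Perm Ω → UU Ω → Multiplicative (ZMod p)} {β : PM p (UU Ω)}
    {k : Equiv.Perm Ω} (h : ∀ x', β.ev x' ≠ 0 → D k x' = 1) : chi D β k = 0 := by
  unfold chi
  refine Finset.sum_eq_zero (fun x' hx' => ?_)
  rw [h x' (PM.mem_supp.mp hx'), toAdd_one, mul_zero]

/-- (G2) in the prime case, by `gfin_step` with `S' = S ∪ E`.  Given finite `B ⊆ S'` and `n`: let `J` be the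
set of points of `X` below `B ∩ E`, `Q = fx B` (it fixes `J`; a `k` fixing `S` is in `Q` iff
`D k = 1` on `J`),
`M₁ = BB H + PMS J` (invariant under `G ∩ Q`).  `fl_orbits` for `↥G`, `U = G ∩ Q`, `M₁`
gives a finite `F`.  Let `X₀ = J ∪ ⋃ supp f`, `b₀ = (B ∩ S) ∪ X₀`,
`B₀ = B ∪ X₀ ∪ s(X₀)`; `coc_fi` gives the finite index.  Let `U` be as in `gfin_step` and
`k ∈ K ⊓ fx B₀`, suppose `k ∉ U`.  `supp_exists` for `S'`: `fx B' ≤ U`; `X₂` = points below
`B' ∩ E`.  By `coc_lift` and `lin_sep` (with `R = U ∩ K`) there is `α` supported in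
`X₂` with `χ_α = 0` on `R`, `χ_α(k) ≠ 0`.
By `lin_orb` and the choice of `F`, `α ∈ f + M₁ ⊆ BB H + PMS X₀` for some `f ∈ F`.  But `D k = 1` on
`X₀`, as `k` fixes `s(X₀)`, so `χ_α(k) = 0`, contradiction. -/
theorem gf_p [Countable Ω] {G H : Subgroup (Equiv.Perm Ω)} [Fact p.Prime]
    (hN : Nice Ω ↥G) (hCG : Cpl Ω ↥G) (hGH : G ≤ H) (hC : Cpl Ω ↥H) {x y : UU Ω}
    {ρ : Multiplicative (ZMod p) → UU Ω → UU Ω} {s : UU Ω → UU Ω}
    {D : Equiv.Perm Ω → UU Ω → Multiplicative (ZMod p)}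
    (hD : Coc (Multiplicative (ZMod p)) H x y ρ s D)
    {S : Set (UU Ω)} (hS : Good G H S) (hX : orb H x ⊆ S) :
    Gfin Ω ↥H (S ∪ orb H y) := by
  classical
  have : Finite (Multiplicative (ZMod p)) := by
    have : NeZero p := ⟨(Fact.out : p.Prime).ne_zero⟩
    exact inferInstanceAs (Finite (ZMod p))
  have hNH : Nice Ω ↥H := nice_mono hN hGH
  have hT := hD.tors
  -- the base point has open stabiliser
  have hopx : Op Ω (st ↥H x) := by
    obtain ⟨A, hA⟩ := hT.op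
    exact ⟨A, fun g hg => hT.le (hA g hg)⟩
  have hEfin : SFin Ω ↥H (orb H y) := by
    rw [← orbit_eq_orb]
    exact sfin_orbit hT.op
  have hXfin : SFin Ω ↥H (orb H x) := by
    rw [← orbit_eq_orb]
    exact sfin_orbit hopx
  have hS'fin : SFin Ω ↥H (S ∪ orb H y) := sfin_union hS.fin hEfin
  have hSinv : ∀ h ∈ H, ∀ t ∈ S, h • t ∈ S := fun h hh t ht => hS.fin.inv ⟨h, hh⟩ t ht
  -- the point below
  have hbel : ∀ e : UU Ω, ∃ x' : UU Ω, e ∈ orb H y → x' ∈ orb H x ∧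
      (∃ a : Multiplicative (ZMod p), e = ρ a (s x')) ∧ (x', e) ∈ orb H (x, y) := by
    intro e
    by_cases he : e ∈ orb H y
    · obtain ⟨x', hx', a, ha, hxe⟩ := coc_surj hD he
      exact ⟨x', fun _ => ⟨hx', ⟨a, ha⟩, hxe⟩⟩
    · exact ⟨e, fun h => absurd h he⟩
  choose bel hbel using hbel
  have hsE : ∀ x' ∈ orb H x, s x' ∈ orb H y := fun x' hx' => J4c_snd (hD.sec x' hx')
  refine gfin_step hNH hC hS.fin.toSInv hS'fin.toSInv Set.subset_union_left hS.gf ?_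
  intro B hB n
  -- the points below B
  set J : Finset (UU Ω) := (B.filter (fun e => e ∈ orb H y)).image bel with hJdef
  have hJmem : ∀ x', x' ∈ J ↔ ∃ e ∈ B, e ∈ orb H y ∧ bel e = x' := by
    intro x'
    rw [hJdef, Finset.mem_image]
    constructor
    · rintro ⟨e, he, rfl⟩
      rw [Finset.mem_filter] at he
      exact ⟨e, he.1, he.2, rfl⟩
    · rintro ⟨e, he, hey, rfl⟩
      exact ⟨e, Finset.mem_filter.mpr ⟨he, hey⟩, rfl⟩
  have hJX : (J : Set (UU Ω)) ⊆ orb H x := by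
    intro x' hx'
    obtain ⟨e, _, hey, rfl⟩ := (hJmem x').mp (Finset.mem_coe.mp hx')
    exact (hbel e hey).1
  -- the group Q
  set Q : Subgroup (Equiv.Perm Ω) := (fx ↥H B).map H.subtype with hQdef
  have hQmem : ∀ q, q ∈ Q ↔ q ∈ H ∧ ∀ b ∈ B, q • b = b := by
    intro q
    rw [hQdef, Subgroup.mem_map]
    constructor
    · rintro ⟨g, hg, rfl⟩
      refine ⟨g.2, fun b hb => ?_⟩
      exact (mem_fixingSubgroup_iff _).mp hg b (Finset.mem_coe.mpr hb)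
    · rintro ⟨hq, hqb⟩
      refine ⟨⟨q, hq⟩, ?_, rfl⟩
      rw [mem_fixingSubgroup_iff]
      intro b hb
      exact hqb b (Finset.mem_coe.mp hb)
  have hQH : Q ≤ H := fun q hq => ((hQmem q).mp hq).1
  have hQJ : ∀ q ∈ Q, ∀ x' ∈ J, q • x' = x' := by
    intro q hq x' hx'
    obtain ⟨e, heB, hey, rfl⟩ := (hJmem x').mp hx'
    exact J4c_fix hT.le (hbel e hey).2.2 (hQH hq) (((hQmem q).mp hq).2 e heB)
  have hKKmem : ∀ k, k ∈ KK H S ↔ k ∈ H ∧ ∀ t ∈ S, k • t = t := by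
    intro k
    unfold KK
    rw [Subgroup.mem_inf, mem_fixingSubgroup_iff]
  -- elements fixing S
  have hDone : ∀ k ∈ KK H S, ∀ x' ∈ orb H x, ∀ a : Multiplicative (ZMod p),
      k • ρ a (s x') = ρ a (s x') ↔ D k x' = 1 := by
    intro k hk x' hx' a
    have hk' := (hKKmem k).mp hk
    rw [coc_act hD hk'.1 hx' a, hk'.2 x' (hX hx')]
    constructor
    · intro h
      have := hT.free _ _ (s x') (hsE x' hx') h
      exact mul_eq_right.mp this
    · intro h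
      rw [h, one_mul]
  have hQK : ∀ k ∈ KK H S, k ∈ Q ↔ ∀ x' ∈ J, D k x' = 1 := by
    intro k hk
    have hk' := (hKKmem k).mp hk
    constructor
    · intro hkQ x' hx'
      obtain ⟨e, heB, hey, rfl⟩ := (hJmem x').mp hx'
      obtain ⟨hb1, ⟨a, ha⟩, _⟩ := hbel e hey
      refine (hDone k hk _ hb1 a).mp ?_
      rw [← ha]
      exact ((hQmem k).mp hkQ).2 e heB
    · intro h
      rw [hQmem]
      refine ⟨hk'.1, fun b hb => ?_⟩
      rcases hB (Finset.mem_coe.mpr hb) with hbS | hbE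
      · exact hk'.2 b hbS
      · obtain ⟨hb1, ⟨a, ha⟩, _⟩ := hbel b hbE
        have := (hDone k hk _ hb1 a).mpr (h (bel b) ((hJmem _).mpr ⟨b, hb, hbE, rfl⟩))
        rw [← ha] at this
        exact this
  -- the module M₁
  obtain ⟨M, hM⟩ := bb_subgroup (p := p) S H x D
  set M₁ : AddSubgroup (PM p (UU Ω)) := M ⊔ PMS p (J : Set (UU Ω)) with hM₁
  have hM₁mem : ∀ m, m ∈ M₁ ↔ ∃ β, IsBB S H x D β ∧ ∃ δ ∈ PMS p (J : Set (UU Ω)),
      β + δ = m := by
    intro m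
    rw [hM₁, AddSubgroup.mem_sup]
    constructor
    · rintro ⟨β, hβ, δ, hδ, h⟩
      exact ⟨β, (hM β).mp hβ, δ, hδ, h⟩
    · rintro ⟨β, hβ, δ, hδ, h⟩
      exact ⟨β, (hM β).mpr hβ, δ, hδ, h⟩
  have hM₁le : M₁ ≤ PMS p (orb H x) := by
    intro m hm
    obtain ⟨β, hβ, δ, hδ, rfl⟩ := (hM₁mem m).mp hm
    refine (PMS p (orb H x)).add_mem hβ.1 ?_
    intro z hz
    exact hδ z (fun h => hz (hJX h))
  have hUop : Op Ω (fx ↥G B) := op_fx (sfin_down hN hGH hS'fin).toSInv hB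
  have hUQ : ∀ u : ↥G, u ∈ fx ↥G B → (u : Equiv.Perm Ω) ∈ Q := by
    intro u hu
    rw [hQmem]
    refine ⟨hGH u.2, fun b hb => ?_⟩
    exact (mem_fixingSubgroup_iff _).mp hu b (Finset.mem_coe.mpr hb)
  have hi : InvA (fx ↥G B) M₁ := by
    intro g hg m hm
    obtain ⟨β, hβ, δ, hδ, rfl⟩ := (hM₁mem m).mp hm
    rw [hM₁mem]
    refine ⟨g • β, bb_inv hGH hD hSinv hX g hβ, g • δ, ?_, (smul_add g β δ).symm⟩
    intro z hz
    refine (PM.smul_ev g δ z).trans ?_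
    refine hδ _ (fun h => hz ?_)
    have h1 := hQJ _ (hUQ g hg) _ (Finset.mem_coe.mp h)
    have h2 : (g : Equiv.Perm Ω) • (g⁻¹ • z) = z := smul_inv_smul g z
    rw [h2] at h1
    rw [h1]
    exact h
  obtain ⟨F, hFX, hF⟩ := fl_orbits hN hCG p (sfin_down hN hGH hXfin) hUop hM₁le hi
  -- the sets X₀, b₀, B₀
  set X₀ : Finset (UU Ω) := J ∪ F.biUnion (fun f => f.supp) with hX₀
  have hX₀X : ∀ x' ∈ X₀, x' ∈ orb H x := by
    intro x' hx'
    rw [hX₀, Finset.mem_union, Finset.mem_biUnion] at hx'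
    rcases hx' with hx' | ⟨f, hf, hx'⟩
    · exact hJX (Finset.mem_coe.mpr hx')
    · by_contra h
      exact (PM.mem_supp.mp hx') (hFX f hf x' h)
  set b₀ : Finset (UU Ω) := B.filter (fun e => e ∈ S) ∪ X₀ with hb₀
  set B₀ : Finset (UU Ω) := (B ∪ X₀) ∪ X₀.image s with hB₀
  have hB₀S : (B₀ : Set (UU Ω)) ⊆ S ∪ orb H y := by
    intro e he
    rw [hB₀, Finset.mem_coe, Finset.mem_union, Finset.mem_union, Finset.mem_image] at he
    rcases he with (he | he) | ⟨x', hx', rfl⟩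
    · exact hB (Finset.mem_coe.mpr he)
    · exact Or.inl (hX (hX₀X e he))
    · exact Or.inr (hsE x' (hX₀X x' hx'))
  have hb₀S : (b₀ : Set (UU Ω)) ⊆ S := by
    intro e he
    rw [hb₀, Finset.mem_coe, Finset.mem_union, Finset.mem_filter] at he
    rcases he with he | he
    · exact he.2
    · exact hX (hX₀X e he)
  have hb₀B₀ : b₀ ⊆ B₀ := by
    intro e he
    rw [hb₀, Finset.mem_union, Finset.mem_filter] at he
    rw [hB₀, Finset.mem_union, Finset.mem_union]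
    rcases he with he | he
    · exact Or.inl (Or.inl he.1)
    · exact Or.inl (Or.inr he)
  have hBB₀ : B ⊆ B₀ := by
    intro e he
    rw [hB₀, Finset.mem_union, Finset.mem_union]
    exact Or.inl (Or.inl he)
  refine ⟨B₀, b₀, hB₀S, hb₀S, hBB₀, fx_anti hb₀B₀, ?_, ?_⟩
  · have h1 : (fx ↥H B₀).relIndex (fx ↥H b₀) ≠ 0 := by
      refine coc_fi hD b₀ B₀ ?_
      intro e he
      rw [hB₀, Finset.mem_union, Finset.mem_union, Finset.mem_image] at he
      rcases he with (he | he) | ⟨x', hx', rfl⟩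
      · by_cases heS : e ∈ S
        · left
          rw [hb₀, Finset.mem_union, Finset.mem_filter]
          exact Or.inl ⟨he, heS⟩
        · right
          rcases hB (Finset.mem_coe.mpr he) with h | h
          · exact absurd h heS
          · refine ⟨bel e, ?_, (hbel e h).2.2⟩
            rw [hb₀, Finset.mem_union]
            right
            rw [hX₀, Finset.mem_union]
            exact Or.inl ((hJmem _).mpr ⟨e, he, h, rfl⟩)
      · left
        rw [hb₀, Finset.mem_union]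
        exact Or.inr he
      · right
        refine ⟨x', ?_, hD.sec x' (hX₀X x' hx')⟩
        rw [hb₀, Finset.mem_union]
        exact Or.inr hx'
    intro h2
    exact h1 (Subgroup.relIndex_eq_zero_of_le_left le_sup_left h2)
  · intro U hU hUS' hUB hUfi _ hUn k hk
    by_contra hkU
    rw [Subgroup.mem_inf] at hk
    have hkS : ∀ t ∈ S, k • t = t := (mem_fixingSubgroup_iff _).mp hk.1
    have hkB₀ : ∀ t ∈ B₀, k • t = t := fun t ht =>
      (mem_fixingSubgroup_iff _).mp hk.2 t (Finset.mem_coe.mpr ht)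
    obtain ⟨B', hB'S, hB'U⟩ := supp_exists hNH hC hS'fin.toSInv hU hUS'
    set X₂ : Finset (UU Ω) := (B'.filter (fun e => e ∈ orb H y)).image bel with hX₂def
    have hX₂X : (X₂ : Set (UU Ω)) ⊆ orb H x := by
      intro x' hx'
      rw [hX₂def, Finset.mem_coe, Finset.mem_image] at hx'
      obtain ⟨e, he, rfl⟩ := hx'
      rw [Finset.mem_filter] at he
      exact (hbel e he.2).1
    have hB'X₂ : ∀ e ∈ B', e ∈ S ∨ ∃ x' ∈ X₂, (x', e) ∈ orb H (x, y) := by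
      intro e he
      rcases hB'S (Finset.mem_coe.mpr he) with h | h
      · exact Or.inl h
      · right
        refine ⟨bel e, ?_, (hbel e h).2.2⟩
        rw [hX₂def, Finset.mem_image]
        exact ⟨e, Finset.mem_filter.mpr ⟨he, h⟩, rfl⟩
    set R : Subgroup (Equiv.Perm Ω) := U.map H.subtype ⊓ KK H S with hR
    have hkKK : (k : Equiv.Perm Ω) ∈ KK H S := (hKKmem _).mpr ⟨k.2, hkS⟩
    have hRK : R ≤ KK H S := inf_le_right
    obtain ⟨α, hαX₂, hαR, hαk⟩ := lin_sep hD hX X₂ hX₂X R hRK hkKK (by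
      intro u hu
      rw [hR, Subgroup.mem_inf, Subgroup.mem_map] at hu
      obtain ⟨⟨v, hvU, rfl⟩, hvK⟩ := hu
      by_contra hcon
      push Not at hcon
      refine hkU (coc_lift hD hX hB'U X₂ hX₂X hB'X₂ hkS (u := v) ?_ hvU ?_)
      · exact ((hKKmem _).mp hvK).2
      · exact hcon)
    have hRQ : R ≤ KK H S ⊓ Q := by
      refine le_inf hRK ?_
      rw [hR, hQdef]
      exact inf_le_left.trans (Subgroup.map_mono hUB)
    have hfi : R.relIndex (KK H S ⊓ Q) ≠ 0 := by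
      have h1 : (U.map H.subtype).relIndex Q ≠ 0 := by
        rw [hQdef, Subgroup.relIndex_map_map_of_injective _ _ (Subgroup.subtype_injective H)]
        exact hUfi
      have h2 : (U.map H.subtype).relIndex (KK H S ⊓ Q) ≠ 0 := fun h =>
        h1 (Subgroup.relIndex_eq_zero_of_le_right inf_le_right h)
      rw [hR]
      refine Subgroup.relIndex_inf_ne_zero h2 ?_
      rw [Subgroup.relIndex_eq_one.mpr inf_le_left]
      exact one_ne_zero
    have hn : ∀ q ∈ Q, ∀ u ∈ R, q * u * q⁻¹ ∈ R := by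
      intro q hq u hu
      rw [hR, Subgroup.mem_inf, Subgroup.mem_map] at hu ⊢
      obtain ⟨⟨v, hvU, rfl⟩, hvK⟩ := hu
      have hqH := hQH hq
      have hqfx : (⟨q, hqH⟩ : ↥H) ∈ fx ↥H B := by
        rw [mem_fixingSubgroup_iff]
        intro b hb
        exact ((hQmem q).mp hq).2 b (Finset.mem_coe.mp hb)
      refine ⟨⟨⟨q, hqH⟩ * v * ⟨q, hqH⟩⁻¹, ?_, rfl⟩, ?_⟩
      · have h1 : (⟨q, hqH⟩ * v * ⟨q, hqH⟩⁻¹ : ↥H) ∈ cj (⟨q, hqH⟩ : ↥H) U := by
          rw [mem_cj]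
          have : (⟨q, hqH⟩⁻¹ * (⟨q, hqH⟩ * v * ⟨q, hqH⟩⁻¹) * ⟨q, hqH⟩ : ↥H) = v := by
            group
          rw [this]
          exact hvU
        rw [hUn _ hqfx] at h1
        exact h1
      · rw [hKKmem]
        refine ⟨H.mul_mem (H.mul_mem hqH v.2) (H.inv_mem hqH), fun t ht => ?_⟩
        have h1 : q⁻¹ • t ∈ S := hSinv _ (H.inv_mem hqH) t ht
        have h2 := ((hKKmem _).mp hvK).2 _ h1
        rw [mul_smul, mul_smul, h2, smul_inv_smul]
    have hαX : α ∈ PMS p (orb H x) := fun z hz => hαX₂ z (fun h => hz (hX₂X h))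
    obtain ⟨F', hF'⟩ := lin_orb hGH hD hX hSinv J hJX Q R hQH hQJ hQK hRQ hfi hn hαX hαR
    obtain ⟨f, hfF, hfα⟩ := hF α hαX ⟨F', by
      intro u hu
      obtain ⟨f, hf, δ', hδ', hbb⟩ := hF' u (hUQ u hu)
      refine ⟨f, hf, ?_⟩
      rw [hM₁mem]
      exact ⟨_, hbb, δ', hδ', sub_add_cancel _ _⟩⟩
    obtain ⟨β, hβ, δ, hδ, hsum⟩ := (hM₁mem _).mp hfα
    -- D k = 1 on X₀
    have hDk : ∀ x' ∈ X₀, D (k : Equiv.Perm Ω) x' = 1 := by
      intro x' hx'
      have hx'X := hX₀X x' hx'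
      refine (hDone _ hkKK x' hx'X 1).mp ?_
      rw [hT.one _ (hsE x' hx'X)]
      refine hkB₀ (s x') ?_
      rw [hB₀, Finset.mem_union, Finset.mem_image]
      exact Or.inr ⟨x', hx', rfl⟩
    have hαeq : α = (β + δ) + f := by rw [hsum]; abel
    apply hαk
    rw [hαeq, chi_add, chi_add, hβ.2 _ hkKK, J4c_chi_zero (β := δ), J4c_chi_zero (β := f)]
    · ring
    · intro x' hx'
      refine hDk x' ?_
      rw [hX₀, Finset.mem_union, Finset.mem_biUnion]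
      exact Or.inr ⟨f, hfF, PM.mem_supp.mpr hx'⟩
    · intro x' hx'
      refine hDk x' ?_
      rw [hX₀, Finset.mem_union]
      left
      by_contra h
      exact hx' (hδ x' (fun h' => h (Finset.mem_coe.mp h')))

end Pool.Agent.Lib.ThC

end

section

/-! # J4d: torsors of prime order: the uniform finite index property -/

set_option autoImplicit false
open scoped Pointwise

namespace Pool.Agent.Lib.ThC

variable {Ω : Type} {p : ℕ}

/-- the step for torsors of prime order. -/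
theorem good_p [Countable Ω] {G H : Subgroup (Equiv.Perm Ω)} [Fact p.Prime]
    (hN : Nice Ω ↥G) (hCG : Cpl Ω ↥G) (hGH : G ≤ H) (hC : Cpl Ω ↥H) {x y : UU Ω}
    {ρ : Multiplicative (ZMod p) → UU Ω → UU Ω}
    (hT : Tors (Multiplicative (ZMod p)) H x y ρ) (hx : Op Ω (st ↥H x))
    {S : Set (UU Ω)} (hS : Good G H S) (hX : orb H x ⊆ S) :
    Good G H (S ∪ MulAction.orbit ↥H y) := by
  obtain ⟨s, D, hD, hDn⟩ := coc_exists G H hx hT
  rw [orbit_eq_orb]
  refine ⟨?_, near_mono (near_and hS.near (near_and hDn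
    (near_agr_p hN hCG hGH hC hD hDn hS hX))) ?_, gf_p hN hCG hGH hC hD hS hX⟩
  · rw [← orbit_eq_orb]
    exact sfin_union hS.fin (sfin_orbit hT.op)
  · rintro H' _ _ ⟨⟨h1, _⟩, ⟨h2, _, h3, _⟩, h4⟩
    refine ⟨?_, h4⟩
    rw [h3, ← orbit_eq_orb]
    exact sfin_union h1 (sfin_orbit h2.tors.op)

end Pool.Agent.Lib.ThC

end
end
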